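import Pool.Agent.BSP.CatDefs

set_option autoImplicit false

/-!
# Depth and height of the concatenation of a geometric number of pieces
-/

namespace Pool.Agent.BSP

open MeasureTheory ProbabilityTheory
open scoped ENNReal

private theorem du_le {θ κ : ℝ} (hθ : 0 < θ) {c f₁ f₂ : ℝ → ℝ≥0∞}
    (b1 : ∀ x, f₁ x ≤ 1)
    (e1 : ∀ x, 0 ≤ x → f₁ x = c x + ENNReal.ofReal (1 - κ) *
      ∫⁻ d, ∫⁻ u, (if d ≤ x then f₁ (x - d + u) else 0) ∂(expMeasure θ) ∂(expMeasure θ))
    (e2 : ∀ x, 0 ≤ x → f₂ x = c x + ENNReal.ofReal (1 - κ) *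
      ∫⁻ d, ∫⁻ u, (if d ≤ x then f₂ (x - d + u) else 0) ∂(expMeasure θ) ∂(expMeasure θ)) (n : ℕ) :
    ∀ x, 0 ≤ x → f₁ x ≤ f₂ x + ENNReal.ofReal (1 - κ) ^ n := by
  have := isProbabilityMeasure_expMeasure hθ
  induction n with
  | zero =>
    intro x _
    rw [pow_zero]
    exact (b1 x).trans le_add_self
  | succ n ih =>
    intro x hx
    rw [e1 x hx, e2 x hx, add_assoc, pow_succ', ← mul_add]
    gcongr
    calc ∫⁻ d, ∫⁻ u, (if d ≤ x then f₁ (x - d + u) else 0) ∂(expMeasure θ) ∂(expMeasure θ)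
        ≤ ∫⁻ d, ((∫⁻ u, (if d ≤ x then f₂ (x - d + u) else 0) ∂(expMeasure θ)) +
          ENNReal.ofReal (1 - κ) ^ n) ∂(expMeasure θ) := by
          refine lintegral_mono fun d => ?_
          have h1 : ∫⁻ u, (if d ≤ x then f₁ (x - d + u) else 0) ∂(expMeasure θ) ≤
              ∫⁻ u, ((if d ≤ x then f₂ (x - d + u) else 0) +
                ENNReal.ofReal (1 - κ) ^ n) ∂(expMeasure θ) := by
            refine lintegral_mono_ae ?_
            filter_upwards [exp_pos_ae hθ] with u hu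
            by_cases hd : d ≤ x
            · rw [if_pos hd, if_pos hd]
              exact ih _ (by linarith)
            · rw [if_neg hd]
              exact zero_le
          refine h1.trans (le_of_eq ?_)
          rw [lintegral_add_right _ measurable_const, lintegral_const, measure_univ, mul_one]
      _ = _ := by
          rw [lintegral_add_right _ measurable_const, lintegral_const, measure_univ, mul_one]

/-- uniqueness for the renewal equation of the random walk with two-sided exponential steps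
(contraction with factor `1 - κ`) -/
theorem renewal_unique {θ κ : ℝ} (hθ : 0 < θ) (hκ0 : 0 < κ) (hκ1 : κ ≤ 1) {c f₁ f₂ : ℝ → ℝ≥0∞}
    (h1 : Measurable f₁) (h2 : Measurable f₂) (b1 : ∀ x, f₁ x ≤ 1) (b2 : ∀ x, f₂ x ≤ 1)
    (e1 : ∀ x, 0 ≤ x → f₁ x = c x + ENNReal.ofReal (1 - κ) *
      ∫⁻ d, ∫⁻ u, (if d ≤ x then f₁ (x - d + u) else 0) ∂(expMeasure θ) ∂(expMeasure θ))
    (e2 : ∀ x, 0 ≤ x → f₂ x = c x + ENNReal.ofReal (1 - κ) *
      ∫⁻ d, ∫⁻ u, (if d ≤ x then f₂ (x - d + u) else 0) ∂(expMeasure θ) ∂(expMeasure θ)) :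
    ∀ x, 0 ≤ x → f₁ x = f₂ x := by
  have hlt : ENNReal.ofReal (1 - κ) < 1 := by
    rw [ENNReal.ofReal_lt_one]
    linarith
  have key : ∀ g₁ g₂ : ℝ → ℝ≥0∞, ∀ x, (∀ n : ℕ, g₁ x ≤ g₂ x + ENNReal.ofReal (1 - κ) ^ n) →
      g₁ x ≤ g₂ x := by
    intro g₁ g₂ x h
    have ht : Filter.Tendsto (fun n : ℕ => g₂ x + ENNReal.ofReal (1 - κ) ^ n) Filter.atTop
        (nhds (g₂ x + 0)) :=
      tendsto_const_nhds.add (ENNReal.tendsto_pow_atTop_nhds_zero_of_lt_one hlt)
    rw [add_zero] at ht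
    exact ge_of_tendsto' ht h
  intro x hx
  exact le_antisymm (key f₁ f₂ x fun n => du_le hθ b1 e1 e2 n x hx)
    (key f₂ f₁ x fun n => du_le hθ b2 e2 e1 n x hx)

private theorem du_withDensity (θ : ℝ) :
    expMeasure θ = volume.withDensity (exponentialPDF θ) := rfl

private theorem du_meas_pdf (θ : ℝ) : Measurable (exponentialPDF θ) :=
  (measurable_exponentialPDFReal θ).ennreal_ofReal

/-- change of the rate -/
private theorem du_tilt {θ θ' : ℝ} (hθ : 0 < θ) (hθ' : 0 < θ') {F : ℝ → ℝ≥0∞}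
    (hF : Measurable F) :
    ∫⁻ d, ENNReal.ofReal (Real.exp ((θ - θ') * d)) * F d ∂(expMeasure θ) =
      ENNReal.ofReal (θ / θ') * ∫⁻ d, F d ∂(expMeasure θ') := by
  have hm : Measurable fun d : ℝ => ENNReal.ofReal (Real.exp ((θ - θ') * d)) * F d := by
    refine Measurable.mul ?_ hF
    fun_prop
  rw [du_withDensity, du_withDensity, lintegral_withDensity_eq_lintegral_mul _ (du_meas_pdf θ) hm,
    lintegral_withDensity_eq_lintegral_mul _ (du_meas_pdf θ') hF,
    ← lintegral_const_mul _ ((du_meas_pdf θ').mul hF)]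
  refine lintegral_congr fun d => ?_
  simp only [Pi.mul_apply]
  rcases lt_or_ge d 0 with h | h
  · rw [exponentialPDF_of_neg h, exponentialPDF_of_neg h]
    simp
  · rw [exponentialPDF_of_nonneg h, exponentialPDF_of_nonneg h, ← mul_assoc, ← mul_assoc,
      ← ENNReal.ofReal_mul (by positivity), ← ENNReal.ofReal_mul (by positivity)]
    congr 2
    have : Real.exp (-(θ' * d)) = Real.exp (-(θ * d)) * Real.exp ((θ - θ') * d) := by
      rw [← Real.exp_add]
      congr 1
      ring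
    rw [this]
    field_simp

private theorem du_laplace {θ l : ℝ} (hθ : 0 < θ) (hl : 0 ≤ l) :
    ∫⁻ u, ENNReal.ofReal (Real.exp (-(l * u))) ∂(expMeasure θ) =
      ENNReal.ofReal (θ / (θ + l)) := by
  have hp : 0 < θ + l := by linarith
  have := isProbabilityMeasure_expMeasure hp
  have h := du_tilt hθ hp (F := fun _ => 1) measurable_const
  simp only [mul_one, lintegral_const, measure_univ] at h
  rw [← h]
  refine lintegral_congr fun u => ?_
  congr 2
  ring

private theorem du_cdf {θ : ℝ} (hθ : 0 < θ) {x : ℝ} (hx : 0 ≤ x) :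
    expMeasure θ {u | u ≤ x} = ENNReal.ofReal (1 - Real.exp (-(θ * x))) := by
  have := isProbabilityMeasure_expMeasure hθ
  have h1 : {u : ℝ | u ≤ x} = {u | x < u}ᶜ := by
    ext u
    simp
  have hm : MeasurableSet {u : ℝ | x < u} := measurableSet_Ioi
  rw [h1, prob_compl_eq_one_sub hm, exp_tail hθ hx,
    ENNReal.ofReal_sub _ (Real.exp_pos _).le, ENNReal.ofReal_one]

/-- the exponential function solves the renewal equation -/
theorem renewal_exp {θ κ : ℝ} (hθ : 0 < θ) (hκ0 : 0 < κ) (hκ1 : κ ≤ 1) {x y : ℝ} (hx : 0 ≤ x)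
    (hy : 0 ≤ y) : ENNReal.ofReal (Real.exp (-(√κ * θ * (x + y)))) =
      ENNReal.ofReal (Real.exp (-(θ * x))) * ENNReal.ofReal (Real.exp (-(√κ * θ * y))) +
      ENNReal.ofReal (1 - κ) * ∫⁻ d, ∫⁻ u, (if d ≤ x then
        ENNReal.ofReal (Real.exp (-(√κ * θ * (x - d + u + y)))) else 0)
        ∂(expMeasure θ) ∂(expMeasure θ) := by
  rcases eq_or_lt_of_le hκ1 with rfl | hlt
  · rw [Real.sqrt_one, sub_self, ENNReal.ofReal_zero, zero_mul, add_zero,
      ← ENNReal.ofReal_mul (Real.exp_pos _).le, ← Real.exp_add]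
    congr 2
    ring
  have hs0 : 0 < √κ := Real.sqrt_pos.2 hκ0
  have hs1 : √κ < 1 := by
    rw [Real.sqrt_lt' one_pos]
    linarith
  have hss : √κ * √κ = κ := Real.mul_self_sqrt hκ0.le
  set s : ℝ := √κ with hs
  have hl0 : 0 < s * θ := mul_pos hs0 hθ
  have hl1 : 0 < θ - s * θ := by nlinarith
  have hin : ∀ d : ℝ, ∫⁻ u, (if d ≤ x then
        ENNReal.ofReal (Real.exp (-(s * θ * (x - d + u + y)))) else 0) ∂(expMeasure θ) =
      (ENNReal.ofReal (Real.exp (-(s * θ * (x + y)))) * ENNReal.ofReal (θ / (θ + s * θ))) *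
      (ENNReal.ofReal (Real.exp ((θ - (θ - s * θ)) * d)) * (if d ≤ x then 1 else 0)) := by
    intro d
    by_cases hd : d ≤ x
    · simp only [if_pos hd, mul_one]
      have h1 : ∀ u : ℝ, ENNReal.ofReal (Real.exp (-(s * θ * (x - d + u + y)))) =
          (ENNReal.ofReal (Real.exp (-(s * θ * (x + y)))) *
            ENNReal.ofReal (Real.exp ((θ - (θ - s * θ)) * d))) *
          ENNReal.ofReal (Real.exp (-(s * θ * u))) := by
        intro u
        rw [← ENNReal.ofReal_mul (Real.exp_pos _).le, ← Real.exp_add,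
          ← ENNReal.ofReal_mul (Real.exp_pos _).le, ← Real.exp_add]
        congr 2
        ring
      simp only [h1]
      rw [lintegral_const_mul _ (by fun_prop), du_laplace hθ hl0.le]
      ring
    · simp only [if_neg hd, mul_zero, lintegral_zero]
  simp only [hin]
  have hmI : Measurable fun d : ℝ => (if d ≤ x then (1 : ℝ≥0∞) else 0) :=
    Measurable.ite measurableSet_Iic measurable_const measurable_const
  have hI : ∫⁻ d, (if d ≤ x then (1 : ℝ≥0∞) else 0) ∂(expMeasure (θ - s * θ)) =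
      ENNReal.ofReal (1 - Real.exp (-((θ - s * θ) * x))) := by
    rw [← du_cdf hl1 hx]
    have e : (fun u : ℝ => if u ≤ x then (1 : ℝ≥0∞) else 0) = Set.indicator {u | u ≤ x} 1 := by
      ext u
      simp [Set.indicator]
    have hm : MeasurableSet {u : ℝ | u ≤ x} := measurableSet_Iic
    rw [e, lintegral_indicator_one hm]
  have hmJ : Measurable fun d : ℝ => ENNReal.ofReal (Real.exp ((θ - (θ - s * θ)) * d)) *
      (if d ≤ x then (1 : ℝ≥0∞) else 0) :=
    Measurable.mul (by fun_prop) hmI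
  rw [lintegral_const_mul _ hmJ, du_tilt hθ hl1 hmI, hI]
  have he1 : Real.exp (-((θ - s * θ) * x)) ≤ 1 := by
    rw [Real.exp_le_one_iff]
    nlinarith [mul_nonneg hl1.le hx]
  have h1κ : 0 ≤ 1 - κ := by linarith
  have hr1 : 0 ≤ θ / (θ + s * θ) := by positivity
  have hr2 : 0 ≤ θ / (θ - s * θ) := div_nonneg hθ.le hl1.le
  have hr3 : 0 ≤ 1 - Real.exp (-((θ - s * θ) * x)) := by linarith
  rw [← ENNReal.ofReal_mul (Real.exp_pos _).le, ← ENNReal.ofReal_mul (Real.exp_pos _).le,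
    ← ENNReal.ofReal_mul hr2, ← ENNReal.ofReal_mul (mul_nonneg (Real.exp_pos _).le hr1),
    ← ENNReal.ofReal_mul h1κ, ← ENNReal.ofReal_add (by positivity)]
  swap
  · exact mul_nonneg h1κ (mul_nonneg (mul_nonneg (Real.exp_pos _).le hr1) (mul_nonneg hr2 hr3))
  congr 1
  have hk : (1 - κ) * (θ / (θ + s * θ) * (θ / (θ - s * θ))) = 1 := by
    have h3 : θ + s * θ ≠ 0 := by positivity
    have h4 : θ - s * θ ≠ 0 := hl1.ne'
    field_simp
    have h5 : 1 - κ = (1 + s) * (1 - s) := by rw [← hss]; ring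
    have h6 : 1 - s ≠ 0 := by linarith
    have h7 : 1 + s ≠ 0 := by positivity
    rw [h5]
    try field_simp
  have hE : Real.exp (-(s * θ * (x + y))) * Real.exp (-((θ - s * θ) * x)) =
      Real.exp (-(θ * x)) * Real.exp (-(s * θ * y)) := by
    rw [← Real.exp_add, ← Real.exp_add]
    congr 1
    ring
  calc Real.exp (-(s * θ * (x + y)))
      = Real.exp (-(s * θ * (x + y))) * Real.exp (-((θ - s * θ) * x)) +
        Real.exp (-(s * θ * (x + y))) * (1 - Real.exp (-((θ - s * θ) * x))) := by ring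
    _ = Real.exp (-(θ * x)) * Real.exp (-(s * θ * y)) +
        ((1 - κ) * (θ / (θ + s * θ) * (θ / (θ - s * θ)))) *
        (Real.exp (-(s * θ * (x + y))) * (1 - Real.exp (-((θ - s * θ) * x)))) := by
        rw [hE, hk, one_mul]
    _ = _ := by ring

/-! ### The renewal equation -/

private theorem du_ind {δ : Type*} [MeasurableSpace δ] {P : δ → Prop}
    (h : MeasurableSet {z | P z}) : Measurable (fun z => ind (P z)) := by
  classical
  unfold ind
  exact Measurable.ite h measurable_const measurable_const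

private theorem du_mD : Measurable pD := measurable_fst
private theorem du_mU : Measurable pU := measurable_fst.comp measurable_snd

private theorem du_mT : Measurable pT :=
  measurable_fst.comp (measurable_snd.comp measurable_snd)
private theorem du_mX : Measurable pX :=
  measurable_fst.comp (measurable_snd.comp (measurable_snd.comp measurable_snd))
private theorem du_mS : Measurable pS :=
  measurable_snd.comp (measurable_snd.comp (measurable_snd.comp measurable_snd))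

private theorem du_mswp : Measurable swp := by
  unfold swp
  exact du_mU.prodMk (du_mD.prodMk (du_mT.prodMk (du_mX.prodMk du_mS)))

/-- the joint event is measurable -/
private theorem du_mf2 {B : Set ℝ} (hB : MeasurableSet B) :
    MF2 fun (q : ℝ) (l : List Pc) => ind (q < dn l ∧ up l ∈ B) := by
  intro n
  refine du_ind ?_
  have h1 : Measurable fun q : ℝ × (Fin n → Pc) => dn (List.ofFn q.2) :=
    (meas_dn n).comp measurable_snd
  have h2 : Measurable fun q : ℝ × (Fin n → Pc) => up (List.ofFn q.2) :=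
    (meas_up n).comp measurable_snd
  exact (measurableSet_lt measurable_fst h1).inter (h2 hB)

private theorem du_mfB {B : Set ℝ} (hB : MeasurableSet B) :
    MF fun (l : List Pc) => ind (up l ∈ B) := by
  intro n
  exact du_ind ((meas_up n) hB)

private theorem du_up_congr {x x' : Pc} (h : pU x = pU x') (l : List Pc) :
    up (x :: l) = up (x' :: l) := by
  cases l with
  | nil => exact h
  | cons y l => simp only [up, h]

private theorem du_dn_cons (x : Pc) {l : List Pc} (hl : l ≠ []) :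
    dn (x :: l) = max (pD x) (pD x - pU x + dn l) := by
  cases l with
  | nil => exact absurd rfl hl
  | cons y l => rfl

private theorem du_up_cons (x : Pc) {l : List Pc} (hl : l ≠ []) :
    up (x :: l) = max (pU x + tot l) (up l) := by
  cases l with
  | nil => exact absurd rfl hl
  | cons y l => rfl

/-- integrals of functions of the depth and the height -/
private theorem du_int {θ : ℝ} (hθ : 0 < θ) {ρ : Measure Pc} 
    (hρ : ρ.map (fun x => (pD x, pU x)) = (expMeasure θ).prod (expMeasure θ))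
    {F : ℝ → ℝ → ℝ≥0∞} (hF : Measurable fun q : ℝ × ℝ => F q.1 q.2) :
    ∫⁻ x, F (pD x) (pU x) ∂ρ = ∫⁻ d, ∫⁻ u, F d u ∂(expMeasure θ) ∂(expMeasure θ) := by
  have := isProbabilityMeasure_expMeasure hθ
  have h1 : ∫⁻ x, F (pD x) (pU x) ∂ρ =
      ∫⁻ q, F q.1 q.2 ∂(ρ.map (fun x => (pD x, pU x))) := by
    rw [lintegral_map hF (du_mD.prodMk du_mU)]
  rw [h1, hρ, lintegral_prod _ hF.aemeasurable]

private theorem du_pos {θ : ℝ} (hθ : 0 < θ) {ρ : Measure Pc}
    (hρ : ρ.map (fun x => (pD x, pU x)) = (expMeasure θ).prod (expMeasure θ)) :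
    ∀ᵐ x ∂ρ, 0 < pU x := by
  have := isProbabilityMeasure_expMeasure hθ
  have hs : MeasurableSet {q : ℝ × ℝ | ¬ 0 < q.2} := by
    have : {q : ℝ × ℝ | ¬ 0 < q.2} = Prod.snd ⁻¹' (Set.Ioi (0 : ℝ))ᶜ := by
      ext q
      simp
    rw [this]
    exact measurable_snd measurableSet_Ioi.compl
  have h1 : ρ {x | ¬ 0 < pU x} = (ρ.map (fun x => (pD x, pU x))) {q : ℝ × ℝ | ¬ 0 < q.2} := by
    rw [Measure.map_apply (du_mD.prodMk du_mU) hs]
    rfl
  rw [ae_iff, h1, hρ]
  have h2 : {q : ℝ × ℝ | ¬ 0 < q.2} = Set.univ ×ˢ {u : ℝ | ¬ 0 < u} := by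
    ext q
    simp
  rw [h2, Measure.prod_prod, ae_iff.1 (exp_pos_ae hθ), mul_zero]

private theorem du_ind_or (x : ℝ) (a : Pc) {l : List Pc} (hl : l ≠ []) (hx : 0 ≤ x)
    (hu : 0 < pU a) (B : Set ℝ) :
    ind (x < dn (a :: l) ∧ up (a :: l) ∈ B) =
      ind (x < pD a) * ind (up (a :: l) ∈ B) +
      (if pD a ≤ x then ind (x - pD a + pU a < dn l ∧ up l ∈ B) else 0) := by
  rw [du_dn_cons a hl]
  by_cases h : pD a ≤ x
  · rw [if_pos h]
    have h1 : ¬ x < pD a := not_lt.2 h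
    have h2 : x < max (pD a) (pD a - pU a + dn l) ↔ x - pD a + pU a < dn l := by
      rw [lt_max_iff]
      constructor
      · rintro (h3 | h3)
        · exact absurd h3 h1
        · linarith
      · intro h3
        right
        linarith
    rw [h2]
    have h3 : ind (x < pD a) = 0 := by simp [ind, h1]
    rw [h3, zero_mul, zero_add]
    congr 1
    apply propext
    refine and_congr_right fun h4 => ?_
    have h5 : up (a :: l) = up l := by
      rw [du_up_cons a hl, up_eq hl]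
      apply max_eq_right
      linarith
    rw [h5]
  · rw [if_neg h, add_zero]
    have h1 : x < pD a := not_le.1 h
    have h3 : ind (x < pD a) = 1 := by simp [ind, h1]
    rw [h3, one_mul]
    congr 1
    apply propext
    constructor
    · exact fun h4 => h4.2
    · exact fun h4 => ⟨lt_max_of_lt_left h1, h4⟩

/-- the contribution of a large first depth -/
private theorem du_first {θ : ℝ} (hθ : 0 < θ) {ρ : Measure Pc} [IsProbabilityMeasure ρ]
    (hρ : ρ.map (fun x => (pD x, pU x)) = (expMeasure θ).prod (expMeasure θ)) {x : ℝ}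
    (hx : 0 ≤ x) {B : Set ℝ} (hB : MeasurableSet B) (n : ℕ) :
    ∫⁻ a, ind (x < pD a) * LI ρ n (fun l => ind (up (a :: l) ∈ B)) ∂ρ =
      ENNReal.ofReal (Real.exp (-(θ * x))) * LI ρ (n + 1) (fun l => ind (up l ∈ B)) := by
  have := isProbabilityMeasure_expMeasure hθ
  set H : ℝ → ℝ≥0∞ := fun u =>
    LI ρ n (fun l => ind (up ((0, u, 0, false, false) :: l) ∈ B)) with hH
  have hmH : Measurable H := by
    have h1 : MF2 fun (q : Unit × Pc) (l : List Pc) => ind (up (q.2 :: l) ∈ B) :=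
      ((du_mfB hB).mf2 (γ := Unit)).cons
    have h2 : MF2 fun (u : ℝ) (l : List Pc) =>
        ind (up (((0, u, 0, false, false) : Pc) :: l) ∈ B) := by
      refine h1.comp_left (k := fun u : ℝ => ((), ((0, u, 0, false, false) : Pc))) ?_
      fun_prop
    exact h2.meas_LI ρ n
  have hHa : ∀ a : Pc, LI ρ n (fun l => ind (up (a :: l) ∈ B)) = H (pU a) := by
    intro a
    rw [hH]
    refine LI_congr ρ fun l _ => ?_
    rw [du_up_congr (x := a) (x' := (0, pU a, 0, false, false)) rfl l]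
  have e1 : ∫⁻ a, ind (x < pD a) * LI ρ n (fun l => ind (up (a :: l) ∈ B)) ∂ρ =
      ∫⁻ a, (fun d u => ind (x < d) * H u) (pD a) (pU a) ∂ρ := by
    refine lintegral_congr fun a => ?_
    rw [hHa]
  have hmi : Measurable fun d : ℝ => ind (x < d) := du_ind measurableSet_Ioi
  rw [e1, du_int hθ hρ (F := fun d u => ind (x < d) * H u)
    ((hmi.comp measurable_fst).mul (hmH.comp measurable_snd))]
  have e2 : LI ρ (n + 1) (fun l => ind (up l ∈ B)) =
      ∫⁻ a, (fun _ u => H u) (pD a) (pU a) ∂ρ := by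
    show ∫⁻ a, LI ρ n (fun l => ind (up (a :: l) ∈ B)) ∂ρ = _
    exact lintegral_congr fun a => hHa a
  rw [e2, du_int hθ hρ (F := fun _ u => H u) (hmH.comp measurable_snd)]
  simp only [lintegral_const, measure_univ, mul_one]
  have e3 : ∀ d : ℝ, ∫⁻ u, ind (x < d) * H u ∂(expMeasure θ) =
      ind (x < d) * ∫⁻ u, H u ∂(expMeasure θ) := fun d => lintegral_const_mul _ hmH
  simp only [e3]
  rw [lintegral_mul_const _ hmi]
  congr 1
  rw [← exp_tail hθ hx]
  have e4 : (fun d : ℝ => ind (x < d)) = Set.indicator {u | x < u} 1 := by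
    ext u
    simp [Set.indicator, ind]
  have hm : MeasurableSet {u : ℝ | x < u} := measurableSet_Ioi
  rw [e4, lintegral_indicator_one hm]

/-- the recursion for a fixed number of pieces -/
private theorem du_succ {θ : ℝ} (hθ : 0 < θ) {ρ : Measure Pc} [IsProbabilityMeasure ρ]
    (hρ : ρ.map (fun x => (pD x, pU x)) = (expMeasure θ).prod (expMeasure θ)) {x : ℝ}
    (hx : 0 ≤ x) {B : Set ℝ} (hB : MeasurableSet B) (m : ℕ) :
    LI ρ (m + 1 + 1) (fun l => ind (x < dn l ∧ up l ∈ B)) =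
      ENNReal.ofReal (Real.exp (-(θ * x))) * LI ρ (m + 1 + 1) (fun l => ind (up l ∈ B)) +
      ∫⁻ a, (if pD a ≤ x then
        LI ρ (m + 1) (fun l => ind (x - pD a + pU a < dn l ∧ up l ∈ B)) else 0) ∂ρ := by
  have h0 : LI ρ (m + 1 + 1) (fun l => ind (x < dn l ∧ up l ∈ B)) =
      ∫⁻ a, LI ρ (m + 1) (fun l => ind (x < dn (a :: l) ∧ up (a :: l) ∈ B)) ∂ρ := rfl
  rw [h0]
  have h1 : ∫⁻ a, LI ρ (m + 1) (fun l => ind (x < dn (a :: l) ∧ up (a :: l) ∈ B)) ∂ρ =
      ∫⁻ a, (ind (x < pD a) * LI ρ (m + 1) (fun l => ind (up (a :: l) ∈ B)) +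
        (if pD a ≤ x then
          LI ρ (m + 1) (fun l => ind (x - pD a + pU a < dn l ∧ up l ∈ B)) else 0)) ∂ρ := by
    refine lintegral_congr_ae ?_
    filter_upwards [du_pos hθ hρ] with a ha
    have hMB : MF fun l : List Pc => ind (up (a :: l) ∈ B) :=
      ((du_mfB hB).mf2 (γ := Unit)).cons.mf ((), a)
    have hMC : MF fun l : List Pc =>
        (if pD a ≤ x then ind (x - pD a + pU a < dn l ∧ up l ∈ B) else 0) := by
      by_cases h : pD a ≤ x
      · simp only [if_pos h]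
        exact (du_mf2 hB).mf _
      · simp only [if_neg h]
        exact fun n => measurable_const
    rw [← LI_const_mul ρ _ hMB]
    have h3 : (if pD a ≤ x then
        LI ρ (m + 1) (fun l => ind (x - pD a + pU a < dn l ∧ up l ∈ B)) else 0) =
        LI ρ (m + 1) (fun l : List Pc =>
          (if pD a ≤ x then ind (x - pD a + pU a < dn l ∧ up l ∈ B) else 0)) := by
      by_cases h : pD a ≤ x
      · simp only [if_pos h]
      · simp only [if_neg h]
        rw [LI_const]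
    rw [h3, ← LI_add ρ (fun n => (hMB n).const_mul _) hMC]
    refine LI_congr ρ fun l hl => ?_
    refine du_ind_or x a ?_ hx ha B
    rintro rfl
    simp at hl
  rw [h1, lintegral_add_left, du_first hθ hρ hx hB]
  refine Measurable.mul (du_ind (measurableSet_lt measurable_const du_mD)) ?_
  have h4 : MF2 fun (q : Unit × Pc) (l : List Pc) => ind (up (q.2 :: l) ∈ B) :=
      ((du_mfB hB).mf2 (γ := Unit)).cons
  have h5 : MF2 fun (a : Pc) (l : List Pc) => ind (up (a :: l) ∈ B) :=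
    h4.comp_left (k := fun a : Pc => ((), a)) (measurable_const.prodMk measurable_id)
  exact h5.meas_LI ρ (m + 1)

private theorem du_zero {θ : ℝ} (hθ : 0 < θ) {ρ : Measure Pc} [IsProbabilityMeasure ρ]
    (hρ : ρ.map (fun x => (pD x, pU x)) = (expMeasure θ).prod (expMeasure θ)) {x : ℝ}
    (hx : 0 ≤ x) {B : Set ℝ} (hB : MeasurableSet B) :
    LI ρ (0 + 1) (fun l => ind (x < dn l ∧ up l ∈ B)) =
      ENNReal.ofReal (Real.exp (-(θ * x))) * LI ρ (0 + 1) (fun l => ind (up l ∈ B)) := by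
  rw [← du_first hθ hρ hx hB 0]
  show ∫⁻ a, ind (x < dn [a] ∧ up [a] ∈ B) ∂ρ = _
  refine lintegral_congr fun a => ?_
  exact ind_and _ _

/-- `∑ κ (1 - κ)^n P_n` -/
private noncomputable def du_F (κ : ℝ) (ρ : Measure Pc) (B : Set ℝ) (x : ℝ) : ℝ≥0∞ :=
  ∑' n : ℕ, ENNReal.ofReal (κ * (1 - κ) ^ n) * LI ρ (n + 1) (fun l => ind (x < dn l ∧ up l ∈ B))

private theorem du_w {κ : ℝ} (hκ0 : 0 < κ) (hκ1 : κ ≤ 1) :
    ∑' n : ℕ, ENNReal.ofReal (κ * (1 - κ) ^ n) = 1 := by
  have h2 : 0 ≤ 1 - κ := by linarith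
  have h3 : 1 - κ < 1 := by linarith
  rw [← ENNReal.ofReal_tsum_of_nonneg (fun n => mul_nonneg hκ0.le (pow_nonneg h2 n))
    ((summable_geometric_of_lt_one h2 h3).mul_left κ), tsum_mul_left,
    tsum_geometric_of_lt_one h2 h3]
  have : κ * (1 - (1 - κ))⁻¹ = 1 := by
    rw [sub_sub_cancel]
    exact mul_inv_cancel₀ hκ0.ne'
  rw [this, ENNReal.ofReal_one]

private theorem du_zero_add (f : ℕ → ℝ≥0∞) : ∑' n, f n = f 0 + ∑' n, f (n + 1) :=
  tsum_eq_zero_add' ENNReal.summable

private theorem du_ind_le (P : Prop) : ind P ≤ 1 := by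
  unfold ind
  split_ifs <;> simp

private theorem du_F_le {κ : ℝ} (hκ0 : 0 < κ) (hκ1 : κ ≤ 1) (ρ : Measure Pc)
    [IsProbabilityMeasure ρ] (B : Set ℝ) (x : ℝ) : du_F κ ρ B x ≤ 1 := by
  rw [← du_w hκ0 hκ1]
  unfold du_F
  refine ENNReal.tsum_le_tsum fun n => ?_
  calc ENNReal.ofReal (κ * (1 - κ) ^ n) * LI ρ (n + 1) (fun l => ind (x < dn l ∧ up l ∈ B))
      ≤ ENNReal.ofReal (κ * (1 - κ) ^ n) * LI ρ (n + 1) (fun _ => 1) := by
        gcongr
        exact LI_mono ρ fun l _ => du_ind_le _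
    _ = _ := by rw [LI_const, mul_one]

private theorem du_F_meas (κ : ℝ) (ρ : Measure Pc) [IsProbabilityMeasure ρ] {B : Set ℝ}
    (hB : MeasurableSet B) : Measurable (du_F κ ρ B) := by
  unfold du_F
  refine Measurable.tsum fun n => ?_
  exact ((du_mf2 hB).meas_LI ρ (n + 1)).const_mul _

private theorem du_renewal {θ κ : ℝ} (hθ : 0 < θ) (hκ0 : 0 < κ) (hκ1 : κ ≤ 1) {ρ : Measure Pc}
    [IsProbabilityMeasure ρ]
    (hρ : ρ.map (fun x => (pD x, pU x)) = (expMeasure θ).prod (expMeasure θ)) {x : ℝ}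
    (hx : 0 ≤ x) {B : Set ℝ} (hB : MeasurableSet B) :
    du_F κ ρ B x = ENNReal.ofReal (Real.exp (-(θ * x))) *
      (∑' n : ℕ, ENNReal.ofReal (κ * (1 - κ) ^ n) * LI ρ (n + 1) (fun l => ind (up l ∈ B))) +
      ENNReal.ofReal (1 - κ) * ∫⁻ d, ∫⁻ u, (if d ≤ x then du_F κ ρ B (x - d + u) else 0)
        ∂(expMeasure θ) ∂(expMeasure θ) := by
  have h1κ : 0 ≤ 1 - κ := by linarith
  have hwsucc : ∀ n : ℕ, ENNReal.ofReal (κ * (1 - κ) ^ (n + 1)) =
      ENNReal.ofReal (1 - κ) * ENNReal.ofReal (κ * (1 - κ) ^ n) := by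
    intro n
    rw [← ENNReal.ofReal_mul h1κ]
    congr 1
    ring
  have hFm := du_F_meas κ ρ hB
  have hint : ∫⁻ d, ∫⁻ u, (if d ≤ x then du_F κ ρ B (x - d + u) else 0)
        ∂(expMeasure θ) ∂(expMeasure θ) =
      ∫⁻ a, (if pD a ≤ x then du_F κ ρ B (x - pD a + pU a) else 0) ∂ρ := by
    rw [← du_int hθ hρ (F := fun d u => if d ≤ x then du_F κ ρ B (x - d + u) else 0)]
    refine Measurable.ite (measurableSet_le measurable_fst measurable_const) ?_ measurable_const
    exact hFm.comp (by fun_prop)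
  rw [hint]
  have hI : ∫⁻ a, (if pD a ≤ x then du_F κ ρ B (x - pD a + pU a) else 0) ∂ρ =
      ∑' n : ℕ, ENNReal.ofReal (κ * (1 - κ) ^ n) * ∫⁻ a, (if pD a ≤ x then
        LI ρ (n + 1) (fun l => ind (x - pD a + pU a < dn l ∧ up l ∈ B)) else 0) ∂ρ := by
    have hmeas : ∀ n : ℕ, Measurable fun a : Pc => (if pD a ≤ x then
        LI ρ (n + 1) (fun l => ind (x - pD a + pU a < dn l ∧ up l ∈ B)) else 0) := by
      intro n
      refine Measurable.ite (measurableSet_le du_mD measurable_const) ?_ measurable_const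
      have h2 := (du_mf2 hB).meas_LI ρ (n + 1)
      exact h2.comp ((measurable_const.sub du_mD).add du_mU)
    have h3 : ∀ n : ℕ, ENNReal.ofReal (κ * (1 - κ) ^ n) * ∫⁻ a, (if pD a ≤ x then
        LI ρ (n + 1) (fun l => ind (x - pD a + pU a < dn l ∧ up l ∈ B)) else 0) ∂ρ =
        ∫⁻ a, ENNReal.ofReal (κ * (1 - κ) ^ n) * (if pD a ≤ x then
        LI ρ (n + 1) (fun l => ind (x - pD a + pU a < dn l ∧ up l ∈ B)) else 0) ∂ρ := by
      intro n
      rw [lintegral_const_mul _ (hmeas n)]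
    simp only [h3]
    rw [← lintegral_tsum fun n => ((hmeas n).const_mul _).aemeasurable]
    refine lintegral_congr fun a => ?_
    by_cases h : pD a ≤ x
    · simp only [if_pos h]
      rfl
    · simp only [if_neg h, mul_zero, tsum_zero]
  rw [hI, ← ENNReal.tsum_mul_left, ← ENNReal.tsum_mul_left]
  unfold du_F
  rw [du_zero_add, du_zero_add (fun n : ℕ => ENNReal.ofReal (Real.exp (-(θ * x))) *
      (ENNReal.ofReal (κ * (1 - κ) ^ n) *
        LI ρ (n + 1) (fun l => ind (up l ∈ B)))), add_assoc,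
    ← ENNReal.tsum_add, du_zero hθ hρ hx hB]
  congr 1
  · ring
  · refine tsum_congr fun n => ?_
    rw [du_succ hθ hρ hx hB n, hwsucc]
    ring

/-- the law of the depth -/
theorem cat_dn {θ κ : ℝ} (hθ : 0 < θ) (hκ0 : 0 < κ) (hκ1 : κ ≤ 1) {ρ : Measure Pc}
    [IsProbabilityMeasure ρ]
    (hρ : ρ.map (fun x => (pD x, pU x)) = (expMeasure θ).prod (expMeasure θ)) {x : ℝ}
    (hx : 0 ≤ x) :
    ∑' n : ℕ, ENNReal.ofReal (κ * (1 - κ) ^ n) * LI ρ (n + 1) (fun l => ind (x < dn l)) =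
      ENNReal.ofReal (Real.exp (-(√κ * θ * x))) := by
  have hind : ∀ (z : ℝ) (l : List Pc), ind (z < dn l) =
      ind (z < dn l ∧ up l ∈ (Set.univ : Set ℝ)) := by
    intro z l
    congr 1
    simp
  have h1 : ∑' n : ℕ, ENNReal.ofReal (κ * (1 - κ) ^ n) * LI ρ (n + 1) (fun l => ind (x < dn l)) =
      du_F κ ρ Set.univ x := by
    unfold du_F
    simp only [hind]
  rw [h1]
  have hg : Measurable fun z : ℝ => ENNReal.ofReal (Real.exp (-(√κ * θ * (max z 0)))) := by
    fun_prop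
  have hr := renewal_unique hθ hκ0 hκ1 (c := fun z => ENNReal.ofReal (Real.exp (-(θ * z))) *
      (∑' n : ℕ, ENNReal.ofReal (κ * (1 - κ) ^ n) *
        LI ρ (n + 1) (fun l => ind (up l ∈ (Set.univ : Set ℝ)))))
    (du_F_meas κ ρ MeasurableSet.univ) hg (du_F_le hκ0 hκ1 ρ Set.univ) ?_
    (fun z hz => du_renewal hθ hκ0 hκ1 hρ hz MeasurableSet.univ) ?_ x hx
  · rw [hr]
    simp only [max_eq_left hx]
  · intro z
    rw [ENNReal.ofReal_le_one, Real.exp_le_one_iff, neg_nonpos]
    exact mul_nonneg (mul_nonneg (Real.sqrt_nonneg _) hθ.le) (le_max_right _ _)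
  · intro z hz
    have hG : (∑' n : ℕ, ENNReal.ofReal (κ * (1 - κ) ^ n) *
        LI ρ (n + 1) (fun l => ind (up l ∈ (Set.univ : Set ℝ)))) = 1 := by
      have h2 : ∀ l : List Pc, ind (up l ∈ (Set.univ : Set ℝ)) = 1 := by
        intro l
        simp [ind]
      simp only [h2, LI_const, mul_one]
      exact du_w hκ0 hκ1
    have h3 := renewal_exp hθ hκ0 hκ1 (x := z) (y := 0) hz le_rfl
    simp only [hG, mul_one]
    simp only [add_zero, mul_zero, neg_zero, Real.exp_zero, ENNReal.ofReal_one, mul_one] at h3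
    rw [max_eq_left hz, h3]
    congr 2
    refine lintegral_congr fun d => ?_
    refine lintegral_congr_ae ?_
    filter_upwards [exp_pos_ae hθ] with u hu
    by_cases hd : d ≤ z
    · rw [if_pos hd, if_pos hd, max_eq_left (by linarith)]
    · rw [if_neg hd, if_neg hd]

/-- the law of the height, by reversal -/
theorem cat_up {θ κ : ℝ} (hθ : 0 < θ) (hκ0 : 0 < κ) (hκ1 : κ ≤ 1) {ρ : Measure Pc}
    [IsProbabilityMeasure ρ]
    (hρ : ρ.map (fun x => (pD x, pU x)) = (expMeasure θ).prod (expMeasure θ)) {y : ℝ}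
    (hy : 0 ≤ y) :
    ∑' n : ℕ, ENNReal.ofReal (κ * (1 - κ) ^ n) * LI ρ (n + 1) (fun l => ind (y < up l)) =
      ENNReal.ofReal (Real.exp (-(√κ * θ * y))) := by
  have := isProbabilityMeasure_expMeasure hθ
  have hp : IsProbabilityMeasure (ρ.map swp) :=
    Measure.isProbabilityMeasure_map du_mswp.aemeasurable
  have hρ' : (ρ.map swp).map (fun x => (pD x, pU x)) =
      (expMeasure θ).prod (expMeasure θ) := by
    rw [Measure.map_map (du_mD.prodMk du_mU) du_mswp]
    have e1 : (fun x => (pD x, pU x)) ∘ swp = Prod.swap ∘ fun x : Pc => (pD x, pU x) := rfl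
    rw [e1, ← Measure.map_map measurable_swap (du_mD.prodMk du_mU), hρ]
    exact Measure.prod_swap
  rw [← cat_dn hθ hκ0 hκ1 hρ' hy]
  refine tsum_congr fun n => ?_
  congr 1
  have hM : MF fun l : List Pc => ind (y < dn l) := fun m =>
    du_ind (measurableSet_lt measurable_const (meas_dn m))
  have hM' : MF fun l : List Pc => ind (y < dn (l.map swp)) :=
    ((hM.mf2 (γ := Unit)).map du_mswp).mf ()
  rw [LI_map du_mswp hM, ← LI_reverse ρ hM']
  refine LI_congr ρ fun l _ => ?_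
  rw [List.map_reverse, dn_rev]

/-- the joint law of depth and height -/
theorem cat_DU {θ κ : ℝ} (hθ : 0 < θ) (hκ0 : 0 < κ) (hκ1 : κ ≤ 1) {ρ : Measure Pc}
    [IsProbabilityMeasure ρ]
    (hρ : ρ.map (fun x => (pD x, pU x)) = (expMeasure θ).prod (expMeasure θ)) {x y : ℝ}
    (hx : 0 ≤ x) (hy : 0 ≤ y) :
    ∑' n : ℕ, ENNReal.ofReal (κ * (1 - κ) ^ n) * LI ρ (n + 1) (fun l => ind (x < dn l ∧ y < up l)) =
      ENNReal.ofReal (Real.exp (-(√κ * θ * (x + y)))) := by
  have hB : MeasurableSet (Set.Ioi y) := measurableSet_Ioi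
  have h1 : ∑' n : ℕ, ENNReal.ofReal (κ * (1 - κ) ^ n) *
      LI ρ (n + 1) (fun l => ind (x < dn l ∧ y < up l)) = du_F κ ρ (Set.Ioi y) x := rfl
  rw [h1]
  have hg : Measurable fun z : ℝ => ENNReal.ofReal (Real.exp (-(√κ * θ * (max z 0 + y)))) := by
    fun_prop
  have hr := renewal_unique hθ hκ0 hκ1 (c := fun z => ENNReal.ofReal (Real.exp (-(θ * z))) *
      (∑' n : ℕ, ENNReal.ofReal (κ * (1 - κ) ^ n) *
        LI ρ (n + 1) (fun l => ind (up l ∈ Set.Ioi y))))
    (du_F_meas κ ρ hB) hg (du_F_le hκ0 hκ1 ρ (Set.Ioi y)) ?_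
    (fun z hz => du_renewal hθ hκ0 hκ1 hρ hz hB) ?_ x hx
  · rw [hr]
    simp only [max_eq_left hx]
  · intro z
    rw [ENNReal.ofReal_le_one, Real.exp_le_one_iff, neg_nonpos]
    exact mul_nonneg (mul_nonneg (Real.sqrt_nonneg _) hθ.le)
      (add_nonneg (le_max_right _ _) hy)
  · intro z hz
    have hG : (∑' n : ℕ, ENNReal.ofReal (κ * (1 - κ) ^ n) *
        LI ρ (n + 1) (fun l => ind (up l ∈ Set.Ioi y))) =
        ENNReal.ofReal (Real.exp (-(√κ * θ * y))) := cat_up hθ hκ0 hκ1 hρ hy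
    have h3 := renewal_exp hθ hκ0 hκ1 (x := z) (y := y) hz hy
    simp only [hG]
    rw [max_eq_left hz, h3]
    congr 2
    refine lintegral_congr fun d => ?_
    refine lintegral_congr_ae ?_
    filter_upwards [exp_pos_ae hθ] with u hu
    by_cases hd : d ≤ z
    · rw [if_pos hd, if_pos hd, max_eq_left (by linarith)]
    · rw [if_neg hd, if_neg hd]

private noncomputable def du_span (μ : Measure ℝ) [IsFiniteMeasure μ] :
    μ.FiniteSpanningSetsIn (Set.range (Set.Ioi : ℝ → Set ℝ)) where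
  set := fun n : ℕ => Set.Ioi (-(n : ℝ))
  set_mem := fun n => ⟨_, rfl⟩
  finite := fun _ => measure_lt_top _ _
  spanning := by
    ext z
    simp only [Set.mem_iUnion, Set.mem_Ioi, Set.mem_univ, iff_true]
    obtain ⟨n, hn⟩ := exists_nat_gt (-z)
    exact ⟨n, by linarith⟩

private theorem du_Ioi {θ : ℝ} (hθ : 0 < θ) (x : ℝ) :
    expMeasure θ (Set.Ioi x) = ENNReal.ofReal (Real.exp (-(θ * max x 0))) := by
  rw [← exp_tail hθ (le_max_right x 0)]
  refine measure_congr ?_
  filter_upwards [exp_pos_ae hθ] with u hu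
  apply propext
  show x < u ↔ max x 0 < u
  rw [max_lt_iff]
  exact ⟨fun h => ⟨h, hu⟩, fun h => h.1⟩

/-- a law on the plane is determined by its upper tails -/
theorem law_of_tail {θ : ℝ} (hθ : 0 < θ) {μ : Measure (ℝ × ℝ)} [IsProbabilityMeasure μ]
    (h : ∀ x y : ℝ, 0 ≤ x → 0 ≤ y → μ {q | x < q.1 ∧ y < q.2} =
      ENNReal.ofReal (Real.exp (-(θ * (x + y))))) :
    μ = (expMeasure θ).prod (expMeasure θ) := by
  have := isProbabilityMeasure_expMeasure hθ
  symm
  have hgen : MeasurableSpace.generateFrom (Set.range (Set.Ioi : ℝ → Set ℝ)) =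
      (inferInstance : MeasurableSpace ℝ) := by
    rw [← borel_eq_generateFrom_Ioi]
    exact (BorelSpace.measurable_eq (α := ℝ)).symm
  refine Measure.prod_eq_generateFrom hgen hgen isPiSystem_Ioi isPiSystem_Ioi
    (du_span _) (du_span _) ?_
  rintro _ ⟨x, rfl⟩ _ ⟨y, rfl⟩
  rw [du_Ioi hθ, du_Ioi hθ, ← ENNReal.ofReal_mul (Real.exp_pos _).le, ← Real.exp_add]
  have h1 := h (max x 0) (max y 0) (le_max_right _ _) (le_max_right _ _)
  have h0 : ∀ᵐ q ∂μ, (0 : ℝ) < q.1 ∧ (0 : ℝ) < q.2 := by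
    have h2 := h 0 0 le_rfl le_rfl
    rw [add_zero, mul_zero, neg_zero, Real.exp_zero, ENNReal.ofReal_one] at h2
    have hm : MeasurableSet {q : ℝ × ℝ | 0 < q.1 ∧ 0 < q.2} :=
      (measurable_fst measurableSet_Ioi).inter (measurable_snd measurableSet_Ioi)
    rw [ae_iff]
    have h3 := (prob_compl_eq_zero_iff hm).2 h2
    exact h3
  have h4 : μ (Set.Ioi x ×ˢ Set.Ioi y) = μ {q | max x 0 < q.1 ∧ max y 0 < q.2} := by
    refine measure_congr ?_
    filter_upwards [h0] with q hq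
    apply propext
    show (x < q.1 ∧ y < q.2) ↔ (max x 0 < q.1 ∧ max y 0 < q.2)
    rw [max_lt_iff, max_lt_iff]
    exact ⟨fun h => ⟨⟨h.1, hq.1⟩, ⟨h.2, hq.2⟩⟩, fun h => ⟨h.1.1, h.2.1⟩⟩
  rw [h4, h1]
  congr 2
  ring

theorem catLaw_DU (N : ℕ) (r : ℝ) {θ κ : ℝ} (hθ : 0 < θ) (hκ0 : 0 < κ) (hκ1 : κ ≤ 1)
    {ρ : Measure Pc} [IsProbabilityMeasure ρ]
    (hρ : ρ.map (fun x => (pD x, pU x)) = (expMeasure θ).prod (expMeasure θ)) :
    (catLaw N r κ ρ).map (fun x => (pD x, pU x)) =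
      (expMeasure (√κ * θ)).prod (expMeasure (√κ * θ)) := by
  have hp := catLaw_prob N r hκ0 hκ1 ρ
  have hm : Measurable fun x : Pc => (pD x, pU x) := du_mD.prodMk du_mU
  have hp' : IsProbabilityMeasure ((catLaw N r κ ρ).map (fun x => (pD x, pU x))) :=
    Measure.isProbabilityMeasure_map hm.aemeasurable
  refine law_of_tail (mul_pos (Real.sqrt_pos.2 hκ0) hθ) ?_
  intro x y hx hy
  have hs : MeasurableSet {q : ℝ × ℝ | x < q.1 ∧ y < q.2} :=
    (measurable_fst measurableSet_Ioi).inter (measurable_snd measurableSet_Ioi)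
  rw [Measure.map_apply hm hs, ← cat_DU hθ hκ0 hκ1 hρ hx hy]
  have h1 : ∀ s : Set Pc, MeasurableSet s → catLaw N r κ ρ s =
      ∫⁻ z, ind (z ∈ s) ∂(catLaw N r κ ρ) := by
    intro s hs
    rw [← lintegral_indicator_one hs]
    refine lintegral_congr fun z => ?_
    simp [Set.indicator, ind]
  have h2 : Measurable fun z : Pc =>
      ind (z ∈ (fun x : Pc => (pD x, pU x)) ⁻¹' {q : ℝ × ℝ | x < q.1 ∧ y < q.2}) :=
    du_ind (hm hs)
  rw [h1 _ (hm hs), lintegral_catLaw N r κ ρ h2]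
  rfl

end Pool.Agent.BSP
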