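import Pool.Agent.BSP.Path

set_option autoImplicit false

/-!
# Comparison of the minimum of a path with the minimum of its skeleton
-/

namespace Pool.Agent.BSP

open MeasureTheory ProbabilityTheory
open scoped ENNReal

/-- depth of the minimum of the walk `0, x₁, x₁ + x₂, ...` (without the last position) -/
noncomputable def skd : List ℝ → ℝ
  | [] => 0
  | x :: l => max 0 (skd l - x)

/-- the same with the convention that the last step is not used -/
noncomputable def skl (l : List ℝ) : ℝ := skd l.dropLast

/-- increments of a list of pieces -/
def incs (l : List Pc) : List ℝ := l.map fun x => pU x - pD x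

theorem tot_eq (l : List Pc) : tot l = (incs l).sum := by
  induction l with
  | nil => rfl
  | cons x l ih =>
    unfold incs at ih ⊢
    rw [tot, ih, List.map_cons, List.sum_cons]

private theorem skl_single (x : Pc) : skl (incs [x]) = 0 := rfl

private theorem skl_cons (x y : Pc) (l : List Pc) :
    skl (incs (x :: y :: l)) = max 0 (skl (incs (y :: l)) - (pU x - pD x)) := by
  unfold skl incs
  rw [List.map_cons, List.map_cons, List.dropLast_cons_cons, skd]

theorem skl_le_dn {l : List Pc} (hl : l ≠ []) (h : ∀ x ∈ l, 0 ≤ pD x) : skl (incs l) ≤ dn l := by
  induction l with
  | nil => exact absurd rfl hl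
  | cons x l ih =>
    cases l with
    | nil =>
      rw [skl_single]
      exact h x (by simp)
    | cons y l =>
      have h1 := ih (by simp) (fun z hz => h z (List.mem_cons_of_mem _ hz))
      have h2 := h x (by simp)
      rw [skl_cons, dn]
      refine max_le (h2.trans (le_max_left _ _)) (le_trans ?_ (le_max_right _ _))
      linarith

theorem dn_le_skl {l : List Pc} (hl : l ≠ []) {ε : ℝ} (h : ∀ x ∈ l, pD x ≤ ε) :
    dn l ≤ skl (incs l) + ε := by
  induction l with
  | nil => exact absurd rfl hl
  | cons x l ih =>
    cases l with
    | nil =>
      rw [skl_single, zero_add]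
      exact h x (by simp)
    | cons y l =>
      have h1 := ih (by simp) (fun z hz => h z (List.mem_cons_of_mem _ hz))
      have h2 := h x (by simp)
      rw [skl_cons, dn]
      refine max_le ?_ ?_
      · have := le_max_left 0 (skl (incs (y :: l)) - (pU x - pD x))
        linarith
      · have := le_max_right 0 (skl (incs (y :: l)) - (pU x - pD x))
        linarith

private theorem meas_skd : MF skd := by
  intro n
  induction n with
  | zero => simp only [List.ofFn_zero]; exact measurable_const
  | succ n ih =>
    simp only [List.ofFn_succ, skd]
    refine measurable_const.max (Measurable.sub ?_ (measurable_pi_apply _))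
    exact ih.comp (measurable_pi_lambda _ fun i => measurable_pi_apply _)

theorem meas_skl : MF skl := by
  intro n
  cases n with
  | zero => simp only [List.ofFn_zero]; exact measurable_const
  | succ n =>
    have h : (fun v : Fin (n + 1) → ℝ => skl (List.ofFn v)) =
        fun v : Fin (n + 1) → ℝ => skd (List.ofFn fun i : Fin n => v i.castSucc) := by
      funext v
      unfold skl
      rw [List.ofFn_succ', List.concat_eq_append, List.dropLast_concat]
    rw [h]
    exact (meas_skd n).comp (measurable_pi_lambda _ fun i => measurable_pi_apply _)

end Pool.Agent.BSP
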