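import Pool.Agent.BSP.CatDefs

set_option autoImplicit false

/-!
# Geometric sums of exponential variables
-/

namespace Pool.Agent.BSP

open MeasureTheory ProbabilityTheory
open scoped ENNReal

/-- density of the sum of `n + 1` exponential variables -/
private noncomputable def gd (μ : ℝ) (n : ℕ) (t : ℝ) : ℝ≥0∞ :=
  ENNReal.ofReal (if 0 ≤ t then μ ^ (n + 1) * t ^ n / (n.factorial : ℝ) * Real.exp (-(μ * t))
    else 0)

private theorem gd_meas (μ : ℝ) (n : ℕ) : Measurable (gd μ n) := by
  unfold gd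
  refine ENNReal.measurable_ofReal.comp ?_
  refine Measurable.ite measurableSet_Ici ?_ measurable_const
  fun_prop

private theorem exp_lint {μ : ℝ} {F : ℝ → ℝ≥0∞} (hF : Measurable F) :
    ∫⁻ t, F t ∂(expMeasure μ) = ∫⁻ t, gd μ 0 t * F t := by
  have h1 : expMeasure μ = volume.withDensity (exponentialPDF μ) := rfl
  have hm : Measurable (exponentialPDF μ) :=
    ENNReal.measurable_ofReal.comp (measurable_exponentialPDFReal μ)
  rw [h1, lintegral_withDensity_eq_lintegral_mul _ hm hF]
  refine lintegral_congr fun t => ?_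
  simp only [Pi.mul_apply]
  congr 1
  rw [exponentialPDF_eq]
  unfold gd
  simp

private theorem conv_gd {μ : ℝ} (hμ : 0 < μ) (n : ℕ) (s : ℝ) :
    ∫⁻ x, gd μ 0 x * gd μ n (s - x) = gd μ (n + 1) s := by
  have h0 : ∀ x, gd μ 0 x * gd μ n (s - x) = Set.indicator (Set.Icc 0 s)
      (fun x => ENNReal.ofReal (μ ^ (n + 2) * Real.exp (-(μ * s)) / (n.factorial : ℝ) *
        (s - x) ^ n)) x := by
    intro x
    unfold gd
    by_cases h1 : 0 ≤ x
    · by_cases h2 : x ≤ s
      · rw [if_pos h1, if_pos (by linarith), Set.indicator_of_mem (Set.mem_Icc.2 ⟨h1, h2⟩)]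
        rw [← ENNReal.ofReal_mul (by positivity)]
        congr 1
        have e : Real.exp (-(μ * s)) = Real.exp (-(μ * x)) * Real.exp (-(μ * (s - x))) := by
          rw [← Real.exp_add]
          congr 1
          ring
        rw [e]
        simp only [Nat.factorial_zero, Nat.cast_one, pow_zero, zero_add, pow_one]
        ring
      · rw [if_neg (c := 0 ≤ s - x) (by linarith), Set.indicator_of_notMem (fun h => h2 h.2)]
        simp
    · rw [if_neg h1, Set.indicator_of_notMem (fun h => h1 h.1)]
      simp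
  simp only [h0]
  rw [lintegral_indicator measurableSet_Icc]
  by_cases hs : 0 ≤ s
  · rw [← ofReal_integral_eq_lintegral_ofReal]
    · rw [integral_Icc_eq_integral_Ioc, ← intervalIntegral.integral_of_le hs]
      unfold gd
      rw [if_pos hs]
      congr 1
      rw [intervalIntegral.integral_const_mul]
      rw [intervalIntegral.integral_comp_sub_left (fun x => x ^ n) s]
      rw [integral_pow]
      simp only [sub_self, sub_zero]
      rw [Nat.factorial_succ]
      push_cast
      have h2 : (n.factorial : ℝ) ≠ 0 := by positivity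
      have h3 : (n : ℝ) + 1 ≠ 0 := by positivity
      rw [zero_pow (Nat.succ_ne_zero n)]
      field_simp
      ring
    · have : Continuous fun x : ℝ => μ ^ (n + 2) * Real.exp (-(μ * s)) / (n.factorial : ℝ) *
        (s - x) ^ n := by fun_prop
      exact this.integrableOn_Icc
    · rw [Filter.EventuallyLE, ae_restrict_iff' measurableSet_Icc]
      refine Filter.Eventually.of_forall fun x hx => ?_
      have : 0 ≤ s - x := by linarith [hx.2]
      simp only [Pi.zero_apply]
      positivity
  · rw [Set.Icc_eq_empty (by simpa using hs)]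
    simp only [Measure.restrict_empty, lintegral_zero_measure]
    unfold gd
    rw [if_neg hs]
    simp

private theorem LI_sum_exp {μ : ℝ} (hμ : 0 < μ) (n : ℕ) {F : ℝ → ℝ≥0∞} (hF : Measurable F) :
    LI (expMeasure μ) (n + 1) (fun v => F v.sum) = ∫⁻ t, gd μ n t * F t := by
  induction n generalizing F with
  | zero =>
    simp only [LI, List.sum_cons, List.sum_nil, add_zero]
    exact exp_lint hF
  | succ n ih =>
    have h1 : LI (expMeasure μ) (n + 1 + 1) (fun v => F v.sum) =
        ∫⁻ x, LI (expMeasure μ) (n + 1) (fun v => F (x + v.sum)) ∂(expMeasure μ) := by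
      rw [LI]
      simp only [List.sum_cons]
    rw [h1]
    have h2 : ∀ x, LI (expMeasure μ) (n + 1) (fun v => F (x + v.sum)) =
        ∫⁻ s, gd μ n (s - x) * F s := by
      intro x
      rw [ih (F := fun t => F (x + t)) (hF.comp (measurable_const_add x))]
      rw [← lintegral_add_left_eq_self (fun s => gd μ n (s - x) * F s) x]
      refine lintegral_congr fun t => ?_
      rw [add_sub_cancel_left]
    simp only [h2]
    have hm : Measurable fun z : ℝ × ℝ => gd μ n (z.2 - z.1) * F z.2 :=
      ((gd_meas μ n).comp (measurable_snd.sub measurable_fst)).mul (hF.comp measurable_snd)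
    rw [exp_lint hm.lintegral_prod_right']
    have hm2 : Measurable fun z : ℝ × ℝ => gd μ 0 z.1 * (gd μ n (z.2 - z.1) * F z.2) :=
      ((gd_meas μ 0).comp measurable_fst).mul hm
    have h3 : ∀ x, gd μ 0 x * ∫⁻ s, gd μ n (s - x) * F s =
        ∫⁻ s, gd μ 0 x * (gd μ n (s - x) * F s) := by
      intro x
      rw [lintegral_const_mul]
      exact ((gd_meas μ n).comp (measurable_id.sub_const x)).mul hF
    simp only [h3]
    rw [lintegral_lintegral_swap hm2.aemeasurable]
    refine lintegral_congr fun s => ?_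
    rw [← conv_gd hμ n s, ← lintegral_mul_const]
    · refine lintegral_congr fun x => ?_
      ring
    · exact (gd_meas μ 0).mul ((gd_meas μ n).comp (measurable_const.sub measurable_id))

private theorem tsum_gd {μ κ : ℝ} (hμ : 0 < μ) (hκ0 : 0 < κ) (hκ1 : κ ≤ 1) (t : ℝ) :
    ∑' n : ℕ, ENNReal.ofReal (κ * (1 - κ) ^ n) * gd μ n t = gd (κ * μ) 0 t := by
  unfold gd
  by_cases ht : 0 ≤ t
  · simp only [if_pos ht]
    have hk : 0 ≤ 1 - κ := by linarith
    have h1 : ∀ n : ℕ, ENNReal.ofReal (κ * (1 - κ) ^ n) *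
        ENNReal.ofReal (μ ^ (n + 1) * t ^ n / (n.factorial : ℝ) * Real.exp (-(μ * t))) =
        ENNReal.ofReal (κ * μ * Real.exp (-(μ * t)) * (((1 - κ) * μ * t) ^ n /
          (n.factorial : ℝ))) := by
      intro n
      rw [← ENNReal.ofReal_mul (by positivity)]
      congr 1
      rw [mul_pow, mul_pow]
      ring
    simp only [h1]
    have h2 : HasSum (fun n : ℕ => ((1 - κ) * μ * t) ^ n / (n.factorial : ℝ))
        (Real.exp ((1 - κ) * μ * t)) := by
      rw [Real.exp_eq_exp_ℝ]
      exact NormedSpace.expSeries_div_hasSum_exp ((1 - κ) * μ * t)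
    have h3 := h2.mul_left (κ * μ * Real.exp (-(μ * t)))
    rw [← ENNReal.ofReal_tsum_of_nonneg (fun n => by positivity) h3.summable, h3.tsum_eq]
    congr 1
    simp only [Nat.factorial_zero, Nat.cast_one, pow_zero, zero_add, pow_one, mul_one, div_one]
    rw [mul_assoc, ← Real.exp_add]
    congr 2
    ring
  · simp only [if_neg ht]
    simp

/-- a geometric sum of exponential variables is exponential -/
theorem exp_geom {μ κ : ℝ} (hμ : 0 < μ) (hκ0 : 0 < κ) (hκ1 : κ ≤ 1) {F : ℝ → ℝ≥0∞}
    (hF : Measurable F) :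
    ∑' n : ℕ, ENNReal.ofReal (κ * (1 - κ) ^ n) * LI (expMeasure μ) (n + 1) (fun v => F v.sum) =
      ∫⁻ t, F t ∂(expMeasure (κ * μ)) := by
  simp only [LI_sum_exp hμ _ hF]
  rw [exp_lint hF]
  have h1 : ∀ n : ℕ, ENNReal.ofReal (κ * (1 - κ) ^ n) * ∫⁻ t, gd μ n t * F t =
      ∫⁻ t, ENNReal.ofReal (κ * (1 - κ) ^ n) * (gd μ n t * F t) := by
    intro n
    exact (lintegral_const_mul (ENNReal.ofReal (κ * (1 - κ) ^ n))
      (f := fun t => gd μ n t * F t) ((gd_meas μ n).mul hF)).symm
  simp only [h1]
  rw [← lintegral_tsum (f := fun n t => ENNReal.ofReal (κ * (1 - κ) ^ n) * (gd μ n t * F t))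
    fun n => (((gd_meas μ n).mul hF).const_mul _).aemeasurable]
  refine lintegral_congr fun t => ?_
  rw [← tsum_gd hμ hκ0 hκ1 t, ← ENNReal.tsum_mul_right]
  refine tsum_congr fun n => ?_
  ring

/-- tail of a geometric sum of exponential variables -/
theorem exp_geom_tail {μ κ : ℝ} (hμ : 0 < μ) (hκ0 : 0 < κ) (hκ1 : κ ≤ 1) {x : ℝ} (hx : 0 ≤ x) :
    ∑' n : ℕ, ENNReal.ofReal (κ * (1 - κ) ^ n) *
      LI (expMeasure μ) (n + 1) (fun v => ind (x < v.sum)) =
      ENNReal.ofReal (Real.exp (-(κ * μ * x))) := by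
  classical
  have hκμ : 0 < κ * μ := mul_pos hκ0 hμ
  have hF : Measurable fun t : ℝ => ind (x < t) := by
    unfold ind
    exact Measurable.ite measurableSet_Ioi measurable_const measurable_const
  rw [exp_geom hμ hκ0 hκ1 hF]
  have h1 : ∀ t : ℝ, ind (x < t) = Set.indicator (Set.Ioi x) 1 t := by
    intro t
    unfold ind
    by_cases h : x < t
    · rw [if_pos h, Set.indicator_of_mem (Set.mem_Ioi.2 h)]
      rfl
    · rw [if_neg h, Set.indicator_of_notMem (fun h' => h (Set.mem_Ioi.1 h'))]
  simp only [h1]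
  rw [lintegral_indicator_one measurableSet_Ioi]
  haveI := isProbabilityMeasure_expMeasure hκμ
  have h2 : expMeasure (κ * μ) (Set.Ioi x) = 1 - expMeasure (κ * μ) (Set.Iic x) := by
    rw [← Set.compl_Iic, prob_compl_eq_one_sub measurableSet_Iic]
  have h3 : expMeasure (κ * μ) (Set.Iic x) = ENNReal.ofReal (1 - Real.exp (-(κ * μ * x))) := by
    have h4 := cdf_expMeasure_eq hκμ x
    rw [if_pos hx] at h4
    rw [← h4, ofReal_cdf]
  rw [h2, h3, ← ENNReal.ofReal_one, ← ENNReal.ofReal_sub]
  · congr 1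
    ring
  · rw [sub_nonneg]
    exact Real.exp_le_one_iff.2 (by
      have := mul_nonneg hκμ.le hx
      linarith)

private theorem dur_eq (l : List Pc) : dur l = (l.map pT).sum := by
  induction l with
  | nil => simp [dur]
  | cons x l ih => simp [dur, ih]

theorem catLaw_T (N : ℕ) (r : ℝ) {Λ κ : ℝ} (hΛ : 0 < Λ) (hκ0 : 0 < κ) (hκ1 : κ ≤ 1)
    {ρ : Measure Pc} [IsProbabilityMeasure ρ] (hρ : ρ.map pT = expMeasure Λ) :
    (catLaw N r κ ρ).map pT = expMeasure (κ * Λ) := by
  have hT : Measurable pT := measurable_fst.comp (measurable_snd.comp measurable_snd)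
  refine Measure.ext fun A hA => ?_
  have hF : Measurable (Set.indicator A (1 : ℝ → ℝ≥0∞)) := measurable_one.indicator hA
  rw [← lintegral_indicator_one hA, ← lintegral_indicator_one hA, lintegral_map hF hT]
  have hc := lintegral_catLaw N r κ ρ (hF.comp hT)
  simp only [Function.comp_apply] at hc
  rw [hc]
  rw [← exp_geom hΛ hκ0 hκ1 hF]
  refine tsum_congr fun n => ?_
  congr 1
  have hs : MF fun v : List ℝ => Set.indicator A (1 : ℝ → ℝ≥0∞) v.sum := by
    intro m
    refine hF.comp ?_
    simp only [List.sum_ofFn]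
    exact Finset.measurable_sum _ fun i _ => measurable_pi_apply i
  rw [← hρ, LI_map hT hs]
  refine LI_congr ρ fun l _ => ?_
  rw [← dur_eq]
  rfl

end Pool.Agent.BSP
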