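import Pool.Agent.BSP.LI

set_option autoImplicit false

/-!
# Iterated integrals over lists: almost sure statements and union bound
-/

namespace Pool.Agent.BSP

open MeasureTheory
open scoped ENNReal

variable {α β γ : Type*} [MeasurableSpace α] [MeasurableSpace β] [MeasurableSpace γ]

variable (ρ : Measure α)

theorem LI_congr_ae {q : α → Prop} (hq : ∀ᵐ x ∂ρ, q x) {n : ℕ} {F G : List α → ℝ≥0∞}
    (h : ∀ l, l.length = n → (∀ x ∈ l, q x) → F l = G l) : LI ρ n F = LI ρ n G := by
  induction n generalizing F G with
  | zero => exact h [] rfl (by simp)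
  | succ n ih =>
    simp only [LI]
    refine lintegral_congr_ae (hq.mono fun x hx => ih fun l hl hl' => h (x :: l) (by simp [hl]) ?_)
    intro y hy
    rcases List.mem_cons.1 hy with rfl | hy
    · exact hx
    · exact hl' y hy

theorem LI_mono_ae {q : α → Prop} (hq : ∀ᵐ x ∂ρ, q x) {n : ℕ} {F G : List α → ℝ≥0∞}
    (h : ∀ l, l.length = n → (∀ x ∈ l, q x) → F l ≤ G l) : LI ρ n F ≤ LI ρ n G := by
  induction n generalizing F G with
  | zero => exact h [] rfl (by simp)
  | succ n ih =>
    simp only [LI]
    refine lintegral_mono_ae (hq.mono fun x hx => ih fun l hl hl' => h (x :: l) (by simp [hl]) ?_)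
    intro y hy
    rcases List.mem_cons.1 hy with rfl | hy
    · exact hx
    · exact hl' y hy

private theorem lix_ind_lintegral {q : α → Prop} (hq : MeasurableSet {x | q x}) :
    ∫⁻ x, ind (q x) ∂ρ = ρ {x | q x} := by
  rw [← lintegral_indicator_one hq]
  refine lintegral_congr fun x => ?_
  by_cases hx : q x
  · simp [ind, hx]
  · simp [ind, hx]

private theorem lix_ind_meas {q : α → Prop} (hq : MeasurableSet {x | q x}) :
    Measurable fun x => ind (q x) := by
  have : (fun x => ind (q x)) = {x | q x}.indicator (1 : α → ℝ≥0∞) := by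
    funext x
    by_cases hx : q x
    · simp [ind, hx]
    · simp [ind, hx]
  rw [this]
  exact measurable_one.indicator hq

/-- union bound -/
theorem LI_exists [IsProbabilityMeasure ρ] {q : α → Prop} (hq : MeasurableSet {x | q x}) (n : ℕ) :
    LI ρ n (fun l => ind (∃ x ∈ l, q x)) ≤ n * ρ {x | q x} := by
  induction n with
  | zero => simp [LI, ind]
  | succ n ih =>
    simp only [LI]
    have key : ∀ a : α, LI ρ n (fun l => ind (∃ x ∈ a :: l, q x)) ≤
        ind (q a) + n * ρ {x | q x} := by
      intro a
      by_cases ha : q a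
      · calc LI ρ n (fun l => ind (∃ x ∈ a :: l, q x)) ≤ LI ρ n (fun _ => 1) := by
              refine LI_mono ρ fun l _ => ?_
              unfold ind
              split_ifs <;> simp
          _ = 1 := LI_const ρ n 1
          _ ≤ ind (q a) + n * ρ {x | q x} := by simp [ind, ha]
      · calc LI ρ n (fun l => ind (∃ x ∈ a :: l, q x)) = LI ρ n (fun l => ind (∃ x ∈ l, q x)) := by
              refine LI_congr ρ fun l _ => ?_
              have : (∃ x ∈ a :: l, q x) ↔ (∃ x ∈ l, q x) := by simp [ha]
              rw [propext this]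
          _ ≤ n * ρ {x | q x} := ih
          _ ≤ ind (q a) + n * ρ {x | q x} := le_add_self
    calc ∫⁻ a, LI ρ n (fun l => ind (∃ x ∈ a :: l, q x)) ∂ρ
        ≤ ∫⁻ a, (ind (q a) + n * ρ {x | q x}) ∂ρ := lintegral_mono key
      _ = ρ {x | q x} + n * ρ {x | q x} := by
          rw [lintegral_add_right _ measurable_const, lix_ind_lintegral ρ hq]
          simp
      _ = ((n + 1 : ℕ) : ℝ≥0∞) * ρ {x | q x} := by push_cast; ring

/-- independence: no item has the property `q` -/
theorem LI_forall [IsProbabilityMeasure ρ] {q : α → Prop} (hq : MeasurableSet {x | q x}) (n : ℕ) :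
    LI ρ n (fun l => ind (∀ x ∈ l, q x)) = ρ {x | q x} ^ n := by
  induction n with
  | zero => simp [LI, ind]
  | succ n ih =>
    simp only [LI]
    have key : ∀ a : α, LI ρ n (fun l => ind (∀ x ∈ a :: l, q x)) =
        ind (q a) * ρ {x | q x} ^ n := by
      intro a
      by_cases ha : q a
      · rw [← ih]
        have h1 : ind (q a) = 1 := by simp [ind, ha]
        rw [h1, one_mul]
        refine LI_congr ρ fun l _ => ?_
        have : (∀ x ∈ a :: l, q x) ↔ (∀ x ∈ l, q x) := by simp [ha]
        rw [propext this]
      · have h1 : ind (q a) = 0 := by simp [ind, ha]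
        rw [h1, zero_mul]
        have : LI ρ n (fun l => ind (∀ x ∈ a :: l, q x)) = LI ρ n (fun _ => 0) := by
          refine LI_congr ρ fun l _ => ?_
          have : ¬ (∀ x ∈ a :: l, q x) := fun h => ha (h a (by simp))
          unfold ind
          rw [if_neg this]
        rw [this, LI_const]
    rw [lintegral_congr key, lintegral_mul_const _ (lix_ind_meas hq), lix_ind_lintegral ρ hq,
      pow_succ, mul_comm]

/-- if the integral is less than one then some list does not have the property -/
theorem exists_of_LI_lt [IsProbabilityMeasure ρ] {q : List α → Prop} {n : ℕ}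
    (h : LI ρ n (fun l => ind (q l)) < 1) : ∃ l, l.length = n ∧ ¬ q l := by
  by_contra hc
  have hc : ∀ l : List α, l.length = n → q l := fun l hl => by
    by_contra hq
    exact hc ⟨l, hl, hq⟩
  have : LI ρ n (fun l => ind (q l)) = LI ρ n (fun _ => 1) := by
    refine LI_congr ρ fun l hl => ?_
    simp [ind, hc l hl]
  rw [this, LI_const] at h
  exact lt_irrefl _ h

/-- two functions of lists with the same law: if the pieces are mapped to the same law then
functions of the mapped lists have the same integral -/
theorem LI_map_eq {σ : Measure β} [SFinite ρ] [SFinite σ] {f : α → γ} {g : β → γ}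
    (hf : Measurable f) (hg : Measurable g) (h : ρ.map f = σ.map g) {F : List γ → ℝ≥0∞}
    (hF : MF F) (n : ℕ) : LI ρ n (fun l => F (l.map f)) = LI σ n (fun l => F (l.map g)) := by
  rw [← LI_map hf hF n, ← LI_map hg hF n, h]

end Pool.Agent.BSP
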