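import Pool.Agent.BSP.BPieces
import Pool.Agent.BSP.LIx
import Pool.Agent.BSP.ExpGeom

set_option autoImplicit false

/-!
# The oscillation of Brownian motion over many short pieces is small
-/

namespace Pool.Agent.BSP

open MeasureTheory ProbabilityTheory Set Filter
open scoped ENNReal NNReal Topology

variable {Ω : Type*} [MeasurableSpace Ω] {P : Measure Ω}

/-! ### Measurability -/

private theorem who_ind {δ : Type*} [MeasurableSpace δ] {q : δ → Prop}
    (h : MeasurableSet {z | q z}) : Measurable fun z => ind (q z) := by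
  classical
  unfold ind
  exact Measurable.ite h measurable_const measurable_const

private theorem who_exists {α : Type*} [MeasurableSpace α] {q : α → Prop}
    (h : MeasurableSet {x | q x}) : MF fun l : List α => ind (∃ x ∈ l, q x) := by
  intro n
  refine who_ind ?_
  have : {v : Fin n → α | ∃ x ∈ List.ofFn v, q x} = ⋃ i : Fin n, (fun v => v i) ⁻¹' {x | q x} := by
    ext v
    simp only [List.mem_ofFn, mem_iUnion, mem_preimage, mem_ofPred_eq]
    constructor
    · rintro ⟨x, ⟨i, rfl⟩, hx⟩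
      exact ⟨i, hx⟩
    · rintro ⟨i, hx⟩
      exact ⟨v i, ⟨i, rfl⟩, hx⟩
  rw [this]
  exact MeasurableSet.iUnion fun i => measurable_pi_apply i h

private theorem who_sum (K : ℝ) : MF fun l : List ℝ => ind (K < l.sum) := by
  intro n
  refine who_ind ?_
  have : (fun v : Fin n → ℝ => (List.ofFn v).sum) = fun v => ∑ i, v i := by
    funext v
    exact List.sum_ofFn
  have h1 : Measurable fun v : Fin n → ℝ => (List.ofFn v).sum := by
    rw [this]
    exact Finset.measurable_fun_sum _ fun i _ => measurable_pi_apply i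
  exact measurableSet_lt measurable_const h1

/-! ### Uniform continuity -/

/-- large oscillation at rational times at distance less than `η` -/
private def whoBad (C : ℝ≥0 → Ω → ℝ) (ε K η : ℝ) : Set Ω :=
  {ω | ∃ s t : ℚ, (-1 < (s : ℝ) ∧ (s : ℝ) < K + 1) ∧ (-1 < (t : ℝ) ∧ (t : ℝ) < K + 1) ∧
    |(s : ℝ) - t| < η ∧ ε < |pth C ω s - pth C ω t|}

private theorem whoBad_meas {C : ℝ≥0 → Ω → ℝ} (h : BM C P) (ε K η : ℝ) :
    MeasurableSet (whoBad C ε K η) := by
  have hp : ∀ t : ℝ, Measurable fun ω => pth C ω t := fun t => h.meas _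
  have : whoBad C ε K η = ⋃ (s : ℚ) (t : ℚ) (_ : (-1 < (s : ℝ) ∧ (s : ℝ) < K + 1) ∧
      (-1 < (t : ℝ) ∧ (t : ℝ) < K + 1) ∧ |(s : ℝ) - t| < η),
      {ω | ε < |pth C ω s - pth C ω t|} := by
    ext ω
    simp only [whoBad, mem_ofPred_eq, mem_iUnion]
    constructor
    · rintro ⟨s, t, h1, h2, h3, h4⟩
      exact ⟨s, t, ⟨h1, h2, h3⟩, h4⟩
    · rintro ⟨s, t, ⟨h1, h2, h3⟩, h4⟩
      exact ⟨s, t, h1, h2, h3, h4⟩
  rw [this]
  refine MeasurableSet.iUnion fun s => MeasurableSet.iUnion fun t => MeasurableSet.iUnion fun _ =>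
    ?_
  exact measurableSet_lt measurable_const (((hp s).sub (hp t)).abs)

private theorem whoBad_of {C : ℝ≥0 → Ω → ℝ} (h : BM C P) {ε K η : ℝ} {ω : Ω} {s t : ℝ}
    (hs : -1 < s ∧ s < K + 1) (ht : -1 < t ∧ t < K + 1) (hd : |s - t| < η)
    (he : ε < |pth C ω s - pth C ω t|) : ω ∈ whoBad C ε K η := by
  have hc := pth_cont h ω
  set U : Set (ℝ × ℝ) := {p | (-1 < p.1 ∧ p.1 < K + 1) ∧ (-1 < p.2 ∧ p.2 < K + 1) ∧
    |p.1 - p.2| < η ∧ ε < |pth C ω p.1 - pth C ω p.2|} with hU
  have hUo : IsOpen U := by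
    refine IsOpen.inter ?_ (IsOpen.inter ?_ (IsOpen.inter ?_ ?_))
    · exact (isOpen_lt continuous_const continuous_fst).inter
        (isOpen_lt continuous_fst continuous_const)
    · exact (isOpen_lt continuous_const continuous_snd).inter
        (isOpen_lt continuous_snd continuous_const)
    · exact isOpen_lt (continuous_fst.sub continuous_snd).abs continuous_const
    · exact isOpen_lt continuous_const
        ((hc.comp continuous_fst).sub (hc.comp continuous_snd)).abs
  have hden : DenseRange (Prod.map ((↑) : ℚ → ℝ) ((↑) : ℚ → ℝ)) :=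
    Rat.isDenseEmbedding_coe_real.dense.prodMap Rat.isDenseEmbedding_coe_real.dense
  obtain ⟨⟨a, b⟩, hab⟩ := hden.exists_mem_open hUo ⟨(s, t), hs, ht, hd, he⟩
  exact ⟨a, b, hab.1, hab.2.1, hab.2.2.1, hab.2.2.2⟩

private theorem whoBad_lim {C : ℝ≥0 → Ω → ℝ} (h : BM C P) {ε : ℝ} (hε : 0 < ε) (K : ℝ) :
    Tendsto (fun j : ℕ => P (whoBad C ε K (1 / ((j : ℝ) + 1)))) atTop (𝓝 0) := by
  have := h.prob
  have h1 : ⋂ j : ℕ, whoBad C ε K (1 / ((j : ℝ) + 1)) = ∅ := by
    rw [Set.eq_empty_iff_forall_notMem]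
    intro ω hω
    rw [mem_iInter] at hω
    have hu := (isCompact_Icc (a := (-1 : ℝ)) (b := K + 1)).uniformContinuousOn_of_continuous
      (pth_cont h ω).continuousOn
    rw [Metric.uniformContinuousOn_iff] at hu
    obtain ⟨δ, hδ, hu⟩ := hu ε hε
    obtain ⟨j, hj⟩ := exists_nat_one_div_lt hδ
    obtain ⟨s, t, hs, ht, hd, he⟩ := hω j
    have := hu s ⟨hs.1.le, hs.2.le⟩ t ⟨ht.1.le, ht.2.le⟩ (by
      rw [Real.dist_eq]
      exact lt_trans hd hj)
    rw [Real.dist_eq] at this
    exact lt_irrefl _ (lt_trans he this)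
  have h2 : Antitone fun j : ℕ => whoBad C ε K (1 / ((j : ℝ) + 1)) := by
    intro i j hij ω hω
    obtain ⟨s, t, hs, ht, hd, he⟩ := hω
    refine ⟨s, t, hs, ht, lt_of_lt_of_le hd ?_, he⟩
    have : (i : ℝ) ≤ j := by exact_mod_cast hij
    exact one_div_le_one_div_of_le (by positivity) (by linarith)
  have h3 := tendsto_measure_iInter_atTop (μ := P)
    (s := fun j : ℕ => whoBad C ε K (1 / ((j : ℝ) + 1)))
    (fun j => (whoBad_meas h ε K _).nullMeasurableSet) h2 ⟨0, measure_ne_top _ _⟩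
  rw [h1, measure_empty] at h3
  exact h3

/-! ### The deterministic bound -/

private theorem who_det {C : ℝ≥0 → Ω → ℝ} (h : BM C P) {ε K η : ℝ} {ω : Ω}
    (hη : ω ∉ whoBad C ε K η) : ∀ (v : List ℝ) (a : ℝ), 0 ≤ a → (∀ τ ∈ v, 0 < τ) →
    (∀ τ ∈ v, τ < η) → a + v.sum ≤ K → ¬ ∃ x ∈ pcs (pth C ω) a v, ε < x.1 := by
  intro v
  induction v with
  | nil =>
    intro a _ _ _ _
    simp [pcs]
  | cons τ v ih =>
    intro a ha hv hv' hs
    have hsum : 0 ≤ v.sum := List.sum_nonneg fun x hx => (hv x (List.mem_cons_of_mem _ hx)).le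
    rw [List.sum_cons] at hs
    rintro ⟨x, hx, hx'⟩
    rcases List.mem_cons.1 hx with hx | hx
    · have hτ := hv τ List.mem_cons_self
      have hτ' := hv' τ List.mem_cons_self
      obtain ⟨g1, g2, g3, g4⟩ := am_spec (pth_cont h ω) (a := a) hτ.le
      have hx1 : x.1 = pth C ω a - pth C ω (am (pth C ω) a τ) := by
        rw [hx, g3]
        rfl
      rw [hx1] at hx'
      refine hη (whoBad_of h (s := a) (t := am (pth C ω) a τ) ⟨by linarith, by linarith⟩
        ⟨by linarith, by linarith⟩ ?_ (lt_of_lt_of_le hx' (le_abs_self _)))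
      rw [abs_sub_lt_iff]
      constructor <;> linarith
    · exact ih (a + τ) (by linarith [hv τ List.mem_cons_self])
        (fun y hy => hv y (List.mem_cons_of_mem _ hy))
        (fun y hy => hv' y (List.mem_cons_of_mem _ hy)) (by linarith) ⟨x, hx, hx'⟩

private theorem who_ind_le {p q : Prop} (h : p → q) : ind p ≤ ind q := by
  classical
  unfold ind
  by_cases hp : p
  · rw [if_pos hp, if_pos (h hp)]
  · rw [if_neg hp]
    exact zero_le

private theorem who_one (C : ℝ≥0 → Ω → ℝ) (h : BM C P) {μ ε K η : ℝ} (hμ : 0 < μ) (hε : 0 < ε)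
    (hη : 0 ≤ η) (n : ℕ) :
    LI (law3 C P μ) n (fun l => ind (∃ x ∈ l, ε < x.1)) ≤
      (n : ℝ≥0∞) * ENNReal.ofReal (Real.exp (-(μ * (η / 2)))) +
      (LI (expMeasure μ) n (fun v => ind (K < v.sum)) + P (whoBad C ε K η)) := by
  classical
  have := h.prob
  have := isProbabilityMeasure_expMeasure hμ
  have hF : MF fun l : List Pc3 => ind (∃ x ∈ l, ε < x.1) :=
    who_exists (measurableSet_lt measurable_const measurable_fst)
  rw [← bm_LI h hμ hF le_rfl n]
  have hA : MF fun v : List ℝ => ind (∃ τ ∈ v, η / 2 < τ) := who_exists measurableSet_Ioi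
  have hB : MF fun v : List ℝ => ind (K < v.sum) := who_sum K
  have h1 : ∀ ω, LI (expMeasure μ) n (fun v => ind (∃ x ∈ pcs (pth C ω) 0 v, ε < x.1)) ≤
      LI (expMeasure μ) n (fun v => ind (∃ τ ∈ v, η / 2 < τ)) +
        (LI (expMeasure μ) n (fun v => ind (K < v.sum)) + ind (ω ∈ whoBad C ε K η)) := by
    intro ω
    rw [← LI_const (expMeasure μ) n (ind (ω ∈ whoBad C ε K η)), ← LI_add _ hB
      (fun m => measurable_const), ← LI_add _ hA (fun m => (hB m).add measurable_const)]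
    refine LI_mono_ae (expMeasure μ) (exp_pos_ae hμ) fun v _ hv => ?_
    by_cases hω : ω ∈ whoBad C ε K η
    · have : ind (ω ∈ whoBad C ε K η) = 1 := by simp [ind, hω]
      rw [this]
      refine le_trans ?_ (le_trans le_add_self le_add_self)
      unfold ind
      split_ifs <;> simp
    · by_cases h2 : ∃ τ ∈ v, η / 2 < τ
      · refine le_trans ?_ le_self_add
        exact who_ind_le fun _ => h2
      · by_cases h3 : K < v.sum
        · refine le_trans ?_ (le_trans le_self_add le_add_self)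
          exact who_ind_le fun _ => h3
        · have h4 : ¬ ∃ x ∈ pcs (pth C ω) 0 v, ε < x.1 := by
            rcases eq_or_lt_of_le hη with h0 | h0
            · cases v with
              | nil => simp [pcs]
              | cons τ v =>
                exfalso
                refine h2 ⟨τ, List.mem_cons_self, ?_⟩
                rw [← h0]
                simpa using hv τ List.mem_cons_self
            · refine who_det h hω v 0 le_rfl hv (fun τ hτ => ?_) (by
                rw [zero_add]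
                exact not_lt.1 h3)
              have h5 : τ ≤ η / 2 := by
                by_contra hcon
                exact h2 ⟨τ, hτ, not_le.1 hcon⟩
              linarith
          have h6 : ind (∃ x ∈ pcs (pth C ω) 0 v, ε < x.1) = 0 := by
            unfold ind
            rw [if_neg h4]
          rw [h6]
          exact zero_le
  refine le_trans (lintegral_mono h1) ?_
  have h2 : ∫⁻ ω, ind (ω ∈ whoBad C ε K η) ∂P = P (whoBad C ε K η) := by
    rw [← lintegral_indicator_one (whoBad_meas h ε K η)]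
    refine lintegral_congr fun ω => ?_
    by_cases hω : ω ∈ whoBad C ε K η
    · simp [ind, hω]
    · simp [ind, hω]
  rw [lintegral_add_left measurable_const, lintegral_add_left measurable_const, h2]
  simp only [lintegral_const, measure_univ, mul_one]
  refine add_le_add ?_ le_rfl
  refine le_trans (LI_exists (expMeasure μ) measurableSet_Ioi n) ?_
  rw [exp_tail hμ (by linarith : 0 ≤ η / 2)]

/-- the mean number of pieces -/
private theorem who_mean {κ : ℝ} (h0 : 0 < κ) (h1 : κ ≤ 1) :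
    ∑' n : ℕ, ENNReal.ofReal (κ * (1 - κ) ^ n) * ((n + 1 : ℕ) : ℝ≥0∞) = ENNReal.ofReal (1 / κ) := by
  have h2 : 0 ≤ 1 - κ := by linarith
  have h3 : 1 - κ < 1 := by linarith
  have h4 : ‖(1 - κ : ℝ)‖ < 1 := by
    rw [Real.norm_of_nonneg h2]
    exact h3
  have s1 := hasSum_coe_mul_geometric_of_norm_lt_one h4
  have s2 := hasSum_geometric_of_lt_one h2 h3
  have s3 := (s1.add s2).mul_left κ
  have h5 : κ * ((1 - κ) / (1 - (1 - κ)) ^ 2 + (1 - (1 - κ))⁻¹) = 1 / κ := by
    rw [sub_sub_cancel]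
    field_simp
    ring
  rw [h5] at s3
  rw [← s3.tsum_eq, ENNReal.ofReal_tsum_of_nonneg (fun n => by positivity) s3.summable]
  refine tsum_congr fun n => ?_
  rw [← ENNReal.ofReal_natCast, ← ENNReal.ofReal_mul (by positivity)]
  congr 1
  push_cast
  ring

private theorem who_lim {Λ η : ℝ} (hΛ : 0 < Λ) (hη : 0 < η) :
    Tendsto (fun κ : ℝ => ENNReal.ofReal (1 / κ * Real.exp (-(Λ / κ * (η / 2))))) (𝓝[>] 0)
      (𝓝 0) := by
  rw [← ENNReal.ofReal_zero]
  refine ENNReal.tendsto_ofReal ?_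
  have h1 : Tendsto (fun x : ℝ => x ^ 1 * Real.exp (-(Λ * (η / 2)) * x)) atTop (𝓝 0) := by
    have := Real.tendsto_pow_mul_exp_neg_atTop_nhds_zero 1
    have hc : 0 < Λ * (η / 2) := by positivity
    have h2 : Tendsto (fun x : ℝ => (Λ * (η / 2)) * x) atTop atTop :=
      tendsto_id.const_mul_atTop hc
    have h3 := (this.comp h2).const_mul ((Λ * (η / 2))⁻¹)
    rw [mul_zero] at h3
    refine h3.congr fun x => ?_
    simp only [Function.comp_apply, pow_one, neg_mul]
    rw [← mul_assoc, ← mul_assoc, inv_mul_cancel₀ hc.ne', one_mul]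
  refine (h1.comp tendsto_inv_nhdsGT_zero).congr fun κ => ?_
  simp only [Function.comp_apply, pow_one, one_div]
  congr 2
  ring

/-- the pieces of mean duration `κ / Λ`, their number is geometric with mean `1 / κ` -/
theorem wh_osc {C : ℝ≥0 → Ω → ℝ} (h : BM C P) {Λ ε : ℝ} (hΛ : 0 < Λ) (hε : 0 < ε) :
    Tendsto (fun κ : ℝ => ∑' n : ℕ, ENNReal.ofReal (κ * (1 - κ) ^ n) *
      LI (law3 C P (Λ / κ)) (n + 1) (fun l => ind (∃ x ∈ l, ε < x.1))) (𝓝[>] 0) (𝓝 0) := by
  have := h.prob
  rw [ENNReal.tendsto_nhds_zero]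
  intro δ hδ
  obtain ⟨δ', hδ'0, hδ'⟩ : ∃ δ' : ℝ≥0∞, 0 < δ' ∧ δ' + (δ' + δ') ≤ δ := by
    refine ⟨δ / 3, ENNReal.div_pos hδ.ne' (by norm_num), ?_⟩
    rw [← add_assoc, ENNReal.add_thirds]
  -- choice of K
  have hK : Tendsto (fun K : ℝ => ENNReal.ofReal (Real.exp (-(Λ * K)))) atTop (𝓝 0) := by
    rw [← ENNReal.ofReal_zero]
    refine ENNReal.tendsto_ofReal ?_
    exact Real.tendsto_exp_neg_atTop_nhds_zero.comp (tendsto_id.const_mul_atTop hΛ)
  rw [ENNReal.tendsto_nhds_zero] at hK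
  obtain ⟨K, hK1, hK0⟩ := ((hK δ' hδ'0).and (eventually_ge_atTop (0 : ℝ))).exists
  -- choice of η
  have hB := whoBad_lim h hε K
  rw [ENNReal.tendsto_nhds_zero] at hB
  obtain ⟨j, hj⟩ := (hB δ' hδ'0).exists
  set η : ℝ := 1 / ((j : ℝ) + 1) with hη
  have hη0 : 0 < η := by positivity
  have hA := who_lim hΛ hη0
  rw [ENNReal.tendsto_nhds_zero] at hA
  have hκ1 : ∀ᶠ κ : ℝ in 𝓝[>] 0, κ ≤ 1 := by
    filter_upwards [Ioo_mem_nhdsGT (zero_lt_one (α := ℝ))] with κ hκ
    exact hκ.2.le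
  filter_upwards [hA δ' hδ'0, hκ1, self_mem_nhdsWithin] with κ hκA hκ1 hκ0
  have hκ0 : 0 < κ := hκ0
  have hμ : 0 < Λ / κ := div_pos hΛ hκ0
  have h2 : 0 ≤ 1 - κ := by linarith
  have h3 : 1 - κ < 1 := by linarith
  have hw : ∑' n : ℕ, ENNReal.ofReal (κ * (1 - κ) ^ n) = 1 := by
    rw [← ENNReal.ofReal_tsum_of_nonneg (fun n => by positivity)
      ((summable_geometric_of_lt_one h2 h3).mul_left κ), tsum_mul_left,
      tsum_geometric_of_lt_one h2 h3, sub_sub_cancel, mul_inv_cancel₀ hκ0.ne', ENNReal.ofReal_one]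
  calc ∑' n : ℕ, ENNReal.ofReal (κ * (1 - κ) ^ n) *
      LI (law3 C P (Λ / κ)) (n + 1) (fun l => ind (∃ x ∈ l, ε < x.1))
      ≤ ∑' n : ℕ, ENNReal.ofReal (κ * (1 - κ) ^ n) *
        (((n + 1 : ℕ) : ℝ≥0∞) * ENNReal.ofReal (Real.exp (-(Λ / κ * (η / 2)))) +
        (LI (expMeasure (Λ / κ)) (n + 1) (fun v => ind (K < v.sum)) + P (whoBad C ε K η))) :=
        ENNReal.tsum_le_tsum fun n => mul_le_mul_right (who_one C h hμ hε hη0.le (n + 1)) _
    _ = (∑' n : ℕ, ENNReal.ofReal (κ * (1 - κ) ^ n) * ((n + 1 : ℕ) : ℝ≥0∞)) *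
          ENNReal.ofReal (Real.exp (-(Λ / κ * (η / 2)))) +
        ((∑' n : ℕ, ENNReal.ofReal (κ * (1 - κ) ^ n) *
          LI (expMeasure (Λ / κ)) (n + 1) (fun v => ind (K < v.sum))) +
        (∑' n : ℕ, ENNReal.ofReal (κ * (1 - κ) ^ n)) * P (whoBad C ε K η)) := by
        rw [← ENNReal.tsum_mul_right, ← ENNReal.tsum_mul_right, ← ENNReal.tsum_add,
          ← ENNReal.tsum_add]
        refine tsum_congr fun n => ?_
        ring
    _ ≤ δ' + (δ' + δ') := by
        refine add_le_add ?_ (add_le_add ?_ ?_)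
        · rw [who_mean hκ0 hκ1, ← ENNReal.ofReal_mul (by positivity)]
          exact hκA
        · rw [exp_geom_tail hμ hκ0 hκ1 hK0]
          have : κ * (Λ / κ) * K = Λ * K := by
            field_simp
          rw [this]
          exact hK1
        · rw [hw, one_mul]
          exact hj
    _ ≤ δ := hδ'

end Pool.Agent.BSP
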