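import Pool.Agent.BSP.BLap
import Pool.Agent.BSP.CatDU
import Pool.Agent.BSP.WHDet
import Pool.Agent.BSP.WHOsc

set_option autoImplicit false

/-!
# The law of depth and height of Brownian motion at an exponential time
-/

namespace Pool.Agent.BSP

open MeasureTheory ProbabilityTheory Set Filter
open scoped ENNReal NNReal Topology

variable {Ω : Type*} [MeasurableSpace Ω] {P : Measure Ω}

private theorem wh_ind {δ : Type*} [MeasurableSpace δ] {Q : δ → Prop}
    (h : MeasurableSet {z | Q z}) : Measurable (fun z => ind (Q z)) := by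
  classical
  unfold ind
  exact Measurable.ite h measurable_const measurable_const

private theorem wh_ind_mono {A B : Prop} (h : A → B) : ind A ≤ ind B := by
  unfold ind
  by_cases hA : A
  · rw [if_pos hA, if_pos (h hA)]
  · rw [if_neg hA]
    exact zero_le

private theorem wh_ind_or {A B D : Prop} (h : A → B ∨ D) : ind A ≤ ind B + ind D := by
  unfold ind
  by_cases hA : A
  · rcases h hA with hB | hD
    · rw [if_pos hA, if_pos hB]
      exact le_self_add
    · rw [if_pos hA, if_pos hD]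
      exact le_add_self
  · rw [if_neg hA]
    exact zero_le

private theorem wh_mD : Measurable pD := measurable_fst
private theorem wh_mU : Measurable pU := measurable_fst.comp measurable_snd

/-- adjoin the sign `true` -/
private theorem wh_adS : Measurable fun q : Pc3 => adS q true := by
  unfold adS
  fun_prop

private theorem wh_pcs_map (W : ℝ → ℝ) (a : ℝ) (v : List ℝ) :
    (pcs W a v).map (fun q => adS q true) = pcS W (fun _ => true) a v := by
  induction v generalizing a with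
  | nil => rfl
  | cons τ v ih =>
    simp only [pcs, pcS, List.map_cons]
    rw [ih]

/-- the event on lists -/
private theorem wh_mf (x y : ℝ) : MF fun l : List Pc => ind (x < dn l ∧ y < up l) := by
  intro n
  exact wh_ind ((measurableSet_lt measurable_const (meas_dn n)).inter
    (measurableSet_lt measurable_const (meas_up n)))

private theorem wh_mf3 {F : List Pc → ℝ≥0∞} (hF : MF F) :
    MF fun l : List Pc3 => F (l.map fun q => adS q true) :=
  ((hF.mf2 (γ := Unit)).map wh_adS).mf ()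

private theorem wh_meas_dW {C : ℝ≥0 → Ω → ℝ} (h : BM C P) (ω : Ω) :
    Measurable fun t : ℝ => dW (pth C ω) 0 t := by
  have h1 : Measurable fun t : ℝ => mn (pth C ω) 0 t :=
    (meas_mn h.meas h.cont).comp (by fun_prop : Measurable fun t : ℝ => (ω, (0 : ℝ), t))
  exact measurable_const.sub h1

private theorem wh_meas_uW {C : ℝ≥0 → Ω → ℝ} (h : BM C P) (ω : Ω) :
    Measurable fun t : ℝ => uW (pth C ω) 0 t := by
  have h1 : Measurable fun t : ℝ => mn (pth C ω) 0 t :=
    (meas_mn h.meas h.cont).comp (by fun_prop : Measurable fun t : ℝ => (ω, (0 : ℝ), t))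
  have h2 : Measurable fun t : ℝ => pth C ω (0 + t) :=
    (pth_cont h ω).measurable.comp (measurable_const.add measurable_id)
  exact h2.sub h1

/-- the piece of rate `Λ` is the concatenation of a geometric number of pieces of rate `Λ / κ` -/
theorem wh_split {C : ℝ≥0 → Ω → ℝ} (h : BM C P) {Λ κ : ℝ} (hΛ : 0 < Λ) (hκ0 : 0 < κ)
    (hκ1 : κ ≤ 1) {x y : ℝ} : law3 C P Λ {q | x < q.1 ∧ y < q.2.1} =
      ∑' n : ℕ, ENNReal.ofReal (κ * (1 - κ) ^ n) * LI (law3 C P (Λ / κ)) (n + 1)
        (fun l => ind (x < dn (l.map fun q => adS q true) ∧ y < up (l.map fun q => adS q true))) := by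
  have hμ : 0 < Λ / κ := div_pos hΛ hκ0
  have hpe := isProbabilityMeasure_expMeasure hμ
  have hpe' := isProbabilityMeasure_expMeasure hΛ
  have hpP := BM.prob h
  have hms : MeasurableSet {q : Pc3 | x < q.1 ∧ y < q.2.1} :=
    (measurable_fst measurableSet_Ioi).inter
      ((measurable_fst.comp measurable_snd) measurableSet_Ioi)
  have hlhs : law3 C P Λ {q | x < q.1 ∧ y < q.2.1} =
      ∫⁻ ω, ∫⁻ τ, ind (x < dW (pth C ω) 0 τ ∧ y < uW (pth C ω) 0 τ) ∂(expMeasure Λ) ∂P := by
    rw [← law3_lintegral h hΛ (F := fun q => ind (x < q.1 ∧ y < q.2.1)) (wh_ind hms) le_rfl,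
      ← lintegral_indicator_one hms]
    refine lintegral_congr fun q => ?_
    simp [Set.indicator, ind]
  have hMF : MF fun l : List Pc3 =>
      ind (x < dn (l.map fun q => adS q true) ∧ y < up (l.map fun q => adS q true)) :=
    wh_mf3 (wh_mf x y)
  have hn : ∀ n : ℕ, LI (law3 C P (Λ / κ)) (n + 1)
        (fun l => ind (x < dn (l.map fun q => adS q true) ∧
          y < up (l.map fun q => adS q true))) =
      ∫⁻ ω, LI (expMeasure (Λ / κ)) (n + 1) (fun v =>
        ind (x < dn ((pcs (pth C ω) 0 v).map fun q => adS q true) ∧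
          y < up ((pcs (pth C ω) 0 v).map fun q => adS q true))) ∂P := by
    intro n
    rw [← bm_LI h hμ hMF le_rfl (n + 1)]
  have hmeas : ∀ n : ℕ, Measurable fun ω => LI (expMeasure (Λ / κ)) (n + 1) (fun v =>
        ind (x < dn ((pcs (pth C ω) 0 v).map fun q => adS q true) ∧
          y < up ((pcs (pth C ω) 0 v).map fun q => adS q true))) := by
    intro n
    have h1 := (meas_pcs h.meas h.cont (hMF.mf2 (γ := Unit))).comp_left
      (k := fun ω : Ω => ((), ω, (0 : ℝ))) (by fun_prop)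
    exact h1.meas_LI _ (n + 1)
  rw [hlhs]
  simp only [hn]
  have h2 : ∀ n : ℕ, ENNReal.ofReal (κ * (1 - κ) ^ n) *
      ∫⁻ ω, LI (expMeasure (Λ / κ)) (n + 1) (fun v =>
        ind (x < dn ((pcs (pth C ω) 0 v).map fun q => adS q true) ∧
          y < up ((pcs (pth C ω) 0 v).map fun q => adS q true))) ∂P =
      ∫⁻ ω, ENNReal.ofReal (κ * (1 - κ) ^ n) * LI (expMeasure (Λ / κ)) (n + 1) (fun v =>
        ind (x < dn ((pcs (pth C ω) 0 v).map fun q => adS q true) ∧
          y < up ((pcs (pth C ω) 0 v).map fun q => adS q true))) ∂P := by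
    intro n
    rw [lintegral_const_mul _ (hmeas n)]
  simp only [h2]
  rw [← lintegral_tsum fun n => ((hmeas n).const_mul _).aemeasurable]
  refine lintegral_congr fun ω => ?_
  have hG : Measurable fun t : ℝ => ind (x < dW (pth C ω) 0 t ∧ y < uW (pth C ω) 0 t) :=
    wh_ind ((measurableSet_lt measurable_const (wh_meas_dW h ω)).inter
      (measurableSet_lt measurable_const (wh_meas_uW h ω)))
  have h3 := exp_geom hμ hκ0 hκ1 hG
  have h4 : κ * (Λ / κ) = Λ := by field_simp
  rw [h4] at h3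
  rw [← h3]
  refine tsum_congr fun n => ?_
  congr 1
  refine LI_congr_ae _ (exp_pos_ae hμ) fun v hv hpos => ?_
  have hne : v ≠ [] := by
    rintro rfl
    simp at hv
  rw [wh_pcs_map]
  obtain ⟨e1, e2, _⟩ := cat_pcS (pth_cont h ω) (fun _ => true) (a := 0)
    (fun τ hτ => (hpos τ hτ).le) hne
  rw [e1, e2]

/-- a piece whose depth and height are independent exponential variables -/
noncomputable def expPc (θ : ℝ) : Measure Pc :=
  ((expMeasure θ).prod (expMeasure θ)).map fun q => (q.1, q.2, 0, true, true)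

private theorem wh_emb : Measurable fun q : ℝ × ℝ => ((q.1, q.2, 0, true, true) : Pc) := by
  fun_prop

private theorem wh_expPc_prob {θ : ℝ} (hθ : 0 < θ) : IsProbabilityMeasure (expPc θ) := by
  have := isProbabilityMeasure_expMeasure hθ
  exact Measure.isProbabilityMeasure_map wh_emb.aemeasurable

private theorem wh_expPc_DU {θ : ℝ} :
    (expPc θ).map (fun x => (pD x, pU x)) = (expMeasure θ).prod (expMeasure θ) := by
  unfold expPc
  rw [Measure.map_map (wh_mD.prodMk wh_mU) wh_emb]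
  have : (fun x : Pc => (pD x, pU x)) ∘ (fun q : ℝ × ℝ => ((q.1, q.2, 0, true, true) : Pc)) =
      id := by
    funext q
    rfl
  rw [this, Measure.map_id]

private theorem wh_expPc_pos {θ : ℝ} (hθ : 0 < θ) : ∀ᵐ x ∂(expPc θ), 0 < pD x ∧ 0 < pU x := by
  have := isProbabilityMeasure_expMeasure hθ
  have hs : MeasurableSet {x : Pc | 0 < pD x ∧ 0 < pU x} :=
    (measurableSet_lt measurable_const wh_mD).inter (measurableSet_lt measurable_const wh_mU)
  unfold expPc
  rw [ae_map_iff wh_emb.aemeasurable hs]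
  have h1 : ∀ᵐ q ∂((expMeasure θ).prod (expMeasure θ)), 0 < q.1 :=
    Measure.quasiMeasurePreserving_fst.ae (exp_pos_ae hθ)
  have h2 : ∀ᵐ q ∂((expMeasure θ).prod (expMeasure θ)), 0 < q.2 :=
    Measure.quasiMeasurePreserving_snd.ae (exp_pos_ae hθ)
  filter_upwards [h1, h2] with q h3 h4
  exact ⟨h3, h4⟩

/-- the skeletons have the same law -/
theorem wh_skel {C : ℝ≥0 → Ω → ℝ} (h : BM C P) {Λ : ℝ} (hΛ : 0 < Λ) {F : List ℝ → ℝ≥0∞}
    (hF : MF F) (n : ℕ) : LI (law3 C P Λ) n (fun l => F (incs (l.map fun q => adS q true))) =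
      LI (expPc √(2 * Λ)) n (fun l => F (incs l)) := by
  have h2 : 0 < √(2 * Λ) := Real.sqrt_pos.2 (by linarith)
  have hp1 := law3_prob h hΛ
  have hp2 := wh_expPc_prob h2
  have hp3 := isProbabilityMeasure_expMeasure h2
  have hf : Measurable fun x : Pc3 => x.2.1 - x.1 := by fun_prop
  have hg : Measurable fun x : Pc => pU x - pD x := wh_mU.sub wh_mD
  have hlaw : (law3 C P Λ).map (fun x => x.2.1 - x.1) =
      (expPc √(2 * Λ)).map (fun x => pU x - pD x) := by
    rw [law3_incr h hΛ]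
    unfold expPc
    rw [Measure.map_map hg wh_emb]
    rfl
  have e := LI_map_eq (law3 C P Λ) hf hg hlaw hF n
  rw [← LI_congr (ρ := law3 C P Λ) (F := fun l => F (l.map fun x => x.2.1 - x.1))] 
  · exact e
  · intro l _
    simp only [incs, List.map_map]
    rfl

/-! ### Comparison with the skeleton -/

private theorem wh_up_eq {l : List Pc} (hl : l ≠ []) : up l = (incs l).sum + dn l := by
  rw [up_eq hl, tot_eq]

private theorem wh_listA {l : List Pc} (hl : l ≠ []) (x y ε : ℝ) :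
    ind (x < dn l ∧ y < up l) ≤
      ind (x - ε < skl (incs l) ∧ y - ε < (incs l).sum + skl (incs l)) +
        ind (∃ p ∈ l, ε < pD p) := by
  refine wh_ind_or ?_
  rintro ⟨h1, h2⟩
  by_cases hex : ∃ p ∈ l, ε < pD p
  · exact Or.inr hex
  · left
    push Not at hex
    have h3 := dn_le_skl hl hex
    rw [wh_up_eq hl] at h2
    exact ⟨by linarith, by linarith⟩

private theorem wh_listC {l : List Pc} (hl : l ≠ []) (h : ∀ p ∈ l, 0 ≤ pD p) (x y : ℝ) :
    ind (x < skl (incs l) ∧ y < (incs l).sum + skl (incs l)) ≤ ind (x < dn l ∧ y < up l) := by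
  refine wh_ind_mono ?_
  rintro ⟨h1, h2⟩
  have h3 := skl_le_dn hl h
  rw [wh_up_eq hl]
  exact ⟨by linarith, by linarith⟩

private theorem wh_dn_pos {l : List Pc} (hl : l ≠ []) (h : ∀ p ∈ l, 0 < pD p) : 0 < dn l := by
  cases l with
  | nil => exact absurd rfl hl
  | cons a l =>
    have ha := h a List.mem_cons_self
    cases l with
    | nil => exact ha
    | cons b l => exact lt_of_lt_of_le ha (le_max_left _ _)

private theorem wh_up_pos {l : List Pc} (hl : l ≠ []) (h : ∀ p ∈ l, 0 < pU p) : 0 < up l := by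
  induction l with
  | nil => exact absurd rfl hl
  | cons a l ih =>
    cases l with
    | nil => exact h a List.mem_cons_self
    | cons b l =>
      have h1 := ih (List.cons_ne_nil b l) fun p hp => h p (List.mem_cons_of_mem _ hp)
      exact lt_of_lt_of_le h1 (le_max_right _ _)

private theorem wh_listB {l : List Pc} (hl : l ≠ []) (h : ∀ p ∈ l, 0 < pD p ∧ 0 < pU p)
    (x y : ℝ) :
    ind (x < skl (incs l) ∧ y < (incs l).sum + skl (incs l)) ≤
      ind (max x 0 < dn l ∧ max y 0 < up l) := by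
  refine wh_ind_mono ?_
  rintro ⟨h1, h2⟩
  have h3 := skl_le_dn hl fun p hp => (h p hp).1.le
  have h4 := wh_dn_pos hl fun p hp => (h p hp).1
  have h5 := wh_up_pos hl fun p hp => (h p hp).2
  have h6 := wh_up_eq hl
  exact ⟨max_lt (by linarith) h4, max_lt (by linarith) h5⟩

private theorem wh_ne {α : Type*} {l : List α} {n : ℕ} (h : l.length = n + 1) : l ≠ [] := by
  rintro rfl
  simp at h

private theorem wh_map_ne {l : List Pc3} {n : ℕ} (h : l.length = n + 1) :
    (l.map fun q => adS q true) ≠ [] := by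
  have := wh_ne h
  simpa using this

private theorem wh_law3_nonneg {C : ℝ≥0 → Ω → ℝ} (h : BM C P) {Λ : ℝ} (hΛ : 0 < Λ) :
    ∀ᵐ q ∂(law3 C P Λ), 0 ≤ q.1 := by
  have hs : MeasurableSet {q : Pc3 | ¬ 0 ≤ q.1} := by
    have : {q : Pc3 | ¬ 0 ≤ q.1} = Prod.fst ⁻¹' (Set.Iio (0 : ℝ)) := by
      ext q
      simp
    rw [this]
    exact measurable_fst measurableSet_Iio
  rw [ae_iff, ← lintegral_indicator_one hs]
  have h1 : ∫⁻ q, {q : Pc3 | ¬ 0 ≤ q.1}.indicator 1 q ∂(law3 C P Λ) =
      ∫⁻ q, ind (¬ 0 ≤ q.1) ∂(law3 C P Λ) := by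
    refine lintegral_congr fun q => ?_
    simp [Set.indicator, ind]
  rw [h1, law3_lintegral h hΛ (F := fun q => ind (¬ 0 ≤ q.1)) (wh_ind hs) le_rfl]
  have h2 : ∀ ω, ∫⁻ τ, ind (¬ 0 ≤ dW (pth C ω) 0 τ) ∂(expMeasure Λ) = 0 := by
    intro ω
    rw [← lintegral_zero (μ := expMeasure Λ)]
    refine lintegral_congr_ae ?_
    filter_upwards [exp_pos_ae hΛ] with τ hτ
    have h3 := (dW_nonneg (pth_cont h ω) (a := 0) hτ.le).1
    simp [ind, h3]
  simp only [h2, lintegral_zero]

/-- the event for the skeleton -/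
private theorem wh_mf_skel (x y : ℝ) :
    MF fun s : List ℝ => ind (x < skl s ∧ y < s.sum + skl s) := by
  intro n
  have h1 : Measurable fun v : Fin n → ℝ => skl (List.ofFn v) := meas_skl n
  have h2 : Measurable fun v : Fin n → ℝ => (List.ofFn v).sum := by
    simp only [List.sum_ofFn]
    fun_prop
  exact wh_ind ((measurableSet_lt measurable_const h1).inter
    (measurableSet_lt measurable_const (h2.add h1)))

private theorem wh_mf_incs {F : List ℝ → ℝ≥0∞} (hF : MF F) : MF fun l : List Pc => F (incs l) :=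
  ((hF.mf2 (γ := Unit)).map (wh_mU.sub wh_mD)).mf ()

private theorem wh_mf_ex {α : Type*} [MeasurableSpace α] {q : α → Prop}
    (hq : MeasurableSet {x | q x}) : MF fun l : List α => ind (∃ p ∈ l, q p) := by
  intro n
  refine wh_ind ?_
  have : {v : Fin n → α | ∃ p ∈ List.ofFn v, q p} = ⋃ i : Fin n, {v | q (v i)} := by
    ext v
    simp only [Set.mem_iUnion, Set.mem_ofPred_eq, List.mem_ofFn']
    constructor
    · rintro ⟨p, ⟨i, rfl⟩, hp⟩
      exact ⟨i, hp⟩
    · rintro ⟨i, hi⟩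
      exact ⟨v i, ⟨i, rfl⟩, hi⟩
  rw [this]
  exact MeasurableSet.iUnion fun i => (measurable_pi_apply i) hq

/-- the geometric mixture -/
private noncomputable def wh_G {α : Type*} [MeasurableSpace α] (κ : ℝ) (ρ : Measure α)
    (F : List α → ℝ≥0∞) : ℝ≥0∞ :=
  ∑' n : ℕ, ENNReal.ofReal (κ * (1 - κ) ^ n) * LI ρ (n + 1) F

private theorem wh_G_mono {α : Type*} [MeasurableSpace α] (κ : ℝ) (ρ : Measure α)
    {q : α → Prop} (hq : ∀ᵐ x ∂ρ, q x) {F G : List α → ℝ≥0∞}
    (h : ∀ l, l ≠ [] → (∀ x ∈ l, q x) → F l ≤ G l) : wh_G κ ρ F ≤ wh_G κ ρ G := by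
  refine ENNReal.tsum_le_tsum fun n => ?_
  gcongr
  exact LI_mono_ae ρ hq fun l hl hx => h l (wh_ne hl) hx

private theorem wh_G_add {α : Type*} [MeasurableSpace α] (κ : ℝ) (ρ : Measure α) [SFinite ρ]
    {F G : List α → ℝ≥0∞} (hF : MF F) (hG : MF G) :
    wh_G κ ρ (fun l => F l + G l) = wh_G κ ρ F + wh_G κ ρ G := by
  unfold wh_G
  rw [← ENNReal.tsum_add]
  refine tsum_congr fun n => ?_
  rw [LI_add ρ hF hG, mul_add]

private theorem wh_mean {κ : ℝ} (hκ0 : 0 < κ) (hκ1 : κ ≤ 1) :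
    ∑' n : ℕ, ENNReal.ofReal (κ * (1 - κ) ^ n) * ((n + 1 : ℕ) : ℝ≥0∞) =
      ENNReal.ofReal (1 / κ) := by
  have h0 : 0 ≤ 1 - κ := by linarith
  have h1 : ‖(1 - κ : ℝ)‖ < 1 := by
    rw [Real.norm_of_nonneg h0]
    linarith
  have h2 := (hasSum_choose_mul_geometric_of_norm_lt_one 1 h1).mul_left κ
  have h3 : ∀ n : ℕ, ENNReal.ofReal (κ * (1 - κ) ^ n) * ((n + 1 : ℕ) : ℝ≥0∞) =
      ENNReal.ofReal (κ * (((n + 1).choose 1 : ℕ) * (1 - κ) ^ n)) := by
    intro n
    rw [Nat.choose_one_right, ← ENNReal.ofReal_natCast, ← ENNReal.ofReal_mul (by positivity)]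
    congr 1
    ring
  simp only [h3]
  rw [← ENNReal.ofReal_tsum_of_nonneg _ h2.summable, h2.tsum_eq]
  · congr 1
    field_simp
    ring
  · intro n
    positivity

/-- large pieces of the exponential model -/
private theorem wh_expPc_large {θ κ ε : ℝ} (hθ : 0 < θ) (hκ0 : 0 < κ) (hκ1 : κ ≤ 1)
    (hε : 0 < ε) : wh_G κ (expPc θ) (fun l => ind (∃ p ∈ l, ε < pD p)) ≤
      ENNReal.ofReal (1 / κ * Real.exp (-(θ * ε))) := by
  have := isProbabilityMeasure_expMeasure hθ
  have hp := wh_expPc_prob hθ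
  have hs : MeasurableSet {x : Pc | ε < pD x} := measurableSet_lt measurable_const wh_mD
  have h1 : expPc θ {x | ε < pD x} = ENNReal.ofReal (Real.exp (-(θ * ε))) := by
    unfold expPc
    rw [Measure.map_apply wh_emb hs]
    have : (fun q : ℝ × ℝ => ((q.1, q.2, 0, true, true) : Pc)) ⁻¹' {x | ε < pD x} =
        {d : ℝ | ε < d} ×ˢ Set.univ := by
      ext q
      simp [pD]
    rw [this, Measure.prod_prod, exp_tail hθ hε.le, measure_univ, mul_one]
  calc wh_G κ (expPc θ) (fun l => ind (∃ p ∈ l, ε < pD p))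
      ≤ ∑' n : ℕ, ENNReal.ofReal (κ * (1 - κ) ^ n) * (((n + 1 : ℕ) : ℝ≥0∞) *
          expPc θ {x | ε < pD x}) := by
        refine ENNReal.tsum_le_tsum fun n => ?_
        gcongr
        exact LI_exists (expPc θ) hs (n + 1)
    _ = (∑' n : ℕ, ENNReal.ofReal (κ * (1 - κ) ^ n) * ((n + 1 : ℕ) : ℝ≥0∞)) *
          expPc θ {x | ε < pD x} := by
        rw [← ENNReal.tsum_mul_right]
        refine tsum_congr fun n => ?_
        rw [mul_assoc]
    _ = _ := by
        rw [wh_mean hκ0 hκ1, h1, ← ENNReal.ofReal_mul (by positivity)]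

private theorem wh_small {Λ ε : ℝ} (hΛ : 0 < Λ) (hε : 0 < ε) :
    Tendsto (fun κ : ℝ => ENNReal.ofReal (1 / κ * Real.exp (-(√(2 * (Λ / κ)) * ε))))
      (𝓝[>] 0) (𝓝 0) := by
  have h1 : Tendsto (fun κ : ℝ => √(2 * (Λ / κ)) * ε) (𝓝[>] 0) atTop := by
    have h2 : Tendsto (fun κ : ℝ => 2 * (Λ / κ)) (𝓝[>] 0) atTop := by
      have h3 : Tendsto (fun κ : ℝ => κ⁻¹) (𝓝[>] 0) atTop := tendsto_inv_nhdsGT_zero
      have h4 : Tendsto (fun κ : ℝ => (2 * Λ) * κ⁻¹) (𝓝[>] 0) atTop :=
        h3.const_mul_atTop (by linarith)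
      refine h4.congr fun κ => ?_
      rw [div_eq_mul_inv]
      ring
    exact (Real.tendsto_sqrt_atTop.comp h2).atTop_mul_const hε
  have h2 := (Real.tendsto_pow_mul_exp_neg_atTop_nhds_zero 2).comp h1
  have h3 : Tendsto (fun κ : ℝ => 1 / (2 * Λ * ε ^ 2) * ((√(2 * (Λ / κ)) * ε) ^ 2 *
      Real.exp (-(√(2 * (Λ / κ)) * ε)))) (𝓝[>] 0) (𝓝 (1 / (2 * Λ * ε ^ 2) * 0)) :=
    h2.const_mul _
  rw [mul_zero] at h3
  have h4 := ENNReal.tendsto_ofReal h3
  rw [ENNReal.ofReal_zero] at h4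
  refine h4.congr' ?_
  filter_upwards [self_mem_nhdsWithin] with κ hκ
  have hκ0 : 0 < κ := hκ
  congr 1
  rw [mul_pow, Real.sq_sqrt (by positivity)]
  field_simp

/-- the comparison for fixed `κ` and `ε` -/
private theorem wh_bounds {C : ℝ≥0 → Ω → ℝ} (h : BM C P) {Λ κ ε : ℝ} (hΛ : 0 < Λ) (hκ0 : 0 < κ)
    (hκ1 : κ ≤ 1) (hε : 0 < ε) {x y : ℝ} (hx : 0 ≤ x) (hy : 0 ≤ y) :
    (law3 C P Λ {q | x < q.1 ∧ y < q.2.1} ≤
      ENNReal.ofReal (Real.exp (-(√(2 * Λ) * (max (x - ε) 0 + max (y - ε) 0)))) +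
        ∑' n : ℕ, ENNReal.ofReal (κ * (1 - κ) ^ n) *
          LI (law3 C P (Λ / κ)) (n + 1) (fun l => ind (∃ x ∈ l, ε < x.1))) ∧
    (ENNReal.ofReal (Real.exp (-(√(2 * Λ) * ((x + ε) + (y + ε))))) ≤
      law3 C P Λ {q | x < q.1 ∧ y < q.2.1} +
        ENNReal.ofReal (1 / κ * Real.exp (-(√(2 * (Λ / κ)) * ε)))) := by
  have hμ : 0 < Λ / κ := div_pos hΛ hκ0
  have hθ : 0 < √(2 * (Λ / κ)) := Real.sqrt_pos.2 (by linarith)
  have hp1 := law3_prob h hμ
  have hp2 := wh_expPc_prob hθ
  have hsq : √κ * √(2 * (Λ / κ)) = √(2 * Λ) := by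
    rw [← Real.sqrt_mul hκ0.le]
    congr 1
    field_simp
  have hDU : ∀ a b : ℝ, 0 ≤ a → 0 ≤ b →
      wh_G κ (expPc √(2 * (Λ / κ))) (fun l => ind (a < dn l ∧ b < up l)) =
        ENNReal.ofReal (Real.exp (-(√(2 * Λ) * (a + b)))) := by
    intro a b ha hb
    have := cat_DU hθ hκ0 hκ1 (wh_expPc_DU (θ := √(2 * (Λ / κ)))) ha hb
    rw [hsq] at this
    exact this
  have hskel : ∀ F : List ℝ → ℝ≥0∞, MF F →
      wh_G κ (law3 C P (Λ / κ)) (fun l => F (incs (l.map fun q => adS q true))) =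
        wh_G κ (expPc √(2 * (Λ / κ))) (fun l => F (incs l)) := by
    intro F hF
    refine tsum_congr fun n => ?_
    rw [wh_skel h hμ hF]
  have hsplit : law3 C P Λ {q | x < q.1 ∧ y < q.2.1} = wh_G κ (law3 C P (Λ / κ))
      (fun l => ind (x < dn (l.map fun q => adS q true) ∧
        y < up (l.map fun q => adS q true))) := wh_split h hΛ hκ0 hκ1
  constructor
  · rw [hsplit, ← hDU _ _ (le_max_right _ _) (le_max_right _ _)]
    calc wh_G κ (law3 C P (Λ / κ)) (fun l => ind (x < dn (l.map fun q => adS q true) ∧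
          y < up (l.map fun q => adS q true)))
        ≤ wh_G κ (law3 C P (Λ / κ)) (fun l =>
          (fun s : List ℝ => ind (x - ε < skl s ∧ y - ε < s.sum + skl s))
            (incs (l.map fun q => adS q true)) + ind (∃ p ∈ l, ε < p.1)) := by
          refine wh_G_mono κ _ (q := fun _ => True) (Filter.Eventually.of_forall fun _ => trivial)
            fun l hl _ => ?_
          have hl' : (l.map fun q => adS q true) ≠ [] := by simpa using hl
          refine (wh_listA hl' x y ε).trans ?_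
          gcongr
          refine wh_ind_mono ?_
          rintro ⟨p, hp, hpε⟩
          rw [List.mem_map] at hp
          obtain ⟨q, hq, rfl⟩ := hp
          exact ⟨q, hq, hpε⟩
      _ = wh_G κ (law3 C P (Λ / κ)) (fun l =>
          (fun s : List ℝ => ind (x - ε < skl s ∧ y - ε < s.sum + skl s))
            (incs (l.map fun q => adS q true))) +
          wh_G κ (law3 C P (Λ / κ)) (fun l => ind (∃ p ∈ l, ε < p.1)) := by
          have hse : MeasurableSet {p : Pc3 | ε < p.1} := measurable_fst measurableSet_Ioi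
          rw [wh_G_add κ _ (wh_mf3 (wh_mf_incs (wh_mf_skel (x - ε) (y - ε)))) (wh_mf_ex hse)]
      _ ≤ _ := by
          refine add_le_add ?_ le_rfl
          rw [hskel _ (wh_mf_skel (x - ε) (y - ε))]
          exact wh_G_mono κ _ (wh_expPc_pos hθ) fun l hl hq => wh_listB hl hq _ _
  · rw [← hDU _ _ (by linarith) (by linarith)]
    have hse : MeasurableSet {p : Pc | ε < pD p} := measurableSet_lt measurable_const wh_mD
    calc wh_G κ (expPc √(2 * (Λ / κ))) (fun l => ind (x + ε < dn l ∧ y + ε < up l))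
        ≤ wh_G κ (expPc √(2 * (Λ / κ))) (fun l =>
          (fun s : List ℝ => ind (x < skl s ∧ y < s.sum + skl s)) (incs l) +
            ind (∃ p ∈ l, ε < pD p)) := by
          refine wh_G_mono κ _ (q := fun _ => True) (Filter.Eventually.of_forall fun _ => trivial)
            fun l hl _ => ?_
          have := wh_listA hl (x + ε) (y + ε) ε
          rw [add_sub_cancel_right, add_sub_cancel_right] at this
          exact this
      _ = wh_G κ (expPc √(2 * (Λ / κ))) (fun l =>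
          (fun s : List ℝ => ind (x < skl s ∧ y < s.sum + skl s)) (incs l)) +
          wh_G κ (expPc √(2 * (Λ / κ))) (fun l => ind (∃ p ∈ l, ε < pD p)) := by
          rw [wh_G_add κ _ (wh_mf_incs (wh_mf_skel x y)) (wh_mf_ex hse)]
      _ ≤ _ := by
          refine add_le_add ?_ (wh_expPc_large hθ hκ0 hκ1 hε)
          rw [← hskel _ (wh_mf_skel x y), hsplit]
          refine wh_G_mono κ _ (wh_law3_nonneg h hμ) fun l hl hq => ?_
          have hl' : (l.map fun q => adS q true) ≠ [] := by simpa using hl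
          refine wh_listC hl' ?_ x y
          intro p hp
          rw [List.mem_map] at hp
          obtain ⟨q, hq', rfl⟩ := hp
          exact hq q hq'

/-- Wiener-Hopf factorisation -/
theorem wh_tail {C : ℝ≥0 → Ω → ℝ} (h : BM C P) {Λ : ℝ} (hΛ : 0 < Λ) {x y : ℝ} (hx : 0 ≤ x)
    (hy : 0 ≤ y) : law3 C P Λ {q | x < q.1 ∧ y < q.2.1} =
      ENNReal.ofReal (Real.exp (-(√(2 * Λ) * (x + y)))) := by
  have hκ : ∀ᶠ κ : ℝ in 𝓝[>] 0, 0 < κ ∧ κ ≤ 1 := by
    have h1 : Set.Ioo (0 : ℝ) 1 ∈ 𝓝[>] (0 : ℝ) := Ioo_mem_nhdsGT one_pos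
    filter_upwards [h1] with κ hκ
    exact ⟨hκ.1, hκ.2.le⟩
  have hup : ∀ ε : ℝ, 0 < ε → law3 C P Λ {q | x < q.1 ∧ y < q.2.1} ≤
      ENNReal.ofReal (Real.exp (-(√(2 * Λ) * (max (x - ε) 0 + max (y - ε) 0)))) := by
    intro ε hε
    have h1 := (tendsto_const_nhds (x := ENNReal.ofReal
      (Real.exp (-(√(2 * Λ) * (max (x - ε) 0 + max (y - ε) 0)))))).add (wh_osc h hΛ hε)
    rw [add_zero] at h1
    refine ge_of_tendsto h1 ?_
    filter_upwards [hκ] with κ hκ
    exact (wh_bounds h hΛ hκ.1 hκ.2 hε hx hy).1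
  have hlow : ∀ ε : ℝ, 0 < ε →
      ENNReal.ofReal (Real.exp (-(√(2 * Λ) * ((x + ε) + (y + ε))))) ≤
        law3 C P Λ {q | x < q.1 ∧ y < q.2.1} := by
    intro ε hε
    have h1 := (tendsto_const_nhds (x := law3 C P Λ {q | x < q.1 ∧ y < q.2.1})).add
      (wh_small hΛ hε)
    rw [add_zero] at h1
    refine ge_of_tendsto h1 ?_
    filter_upwards [hκ] with κ hκ
    exact (wh_bounds h hΛ hκ.1 hκ.2 hε hx hy).2
  refine le_antisymm ?_ ?_
  · have hc : Continuous fun ε : ℝ => ENNReal.ofReal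
        (Real.exp (-(√(2 * Λ) * (max (x - ε) 0 + max (y - ε) 0)))) := by
      refine ENNReal.continuous_ofReal.comp ?_
      fun_prop
    have h1 : Tendsto (fun ε : ℝ => ENNReal.ofReal
        (Real.exp (-(√(2 * Λ) * (max (x - ε) 0 + max (y - ε) 0))))) (𝓝[>] 0)
        (𝓝 (ENNReal.ofReal (Real.exp (-(√(2 * Λ) * (max (x - 0) 0 + max (y - 0) 0)))))) :=
      (hc.tendsto 0).mono_left nhdsWithin_le_nhds
    rw [sub_zero, sub_zero, max_eq_left hx, max_eq_left hy] at h1
    refine ge_of_tendsto h1 ?_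
    filter_upwards [self_mem_nhdsWithin] with ε hε
    exact hup ε hε
  · have hc : Continuous fun ε : ℝ => ENNReal.ofReal
        (Real.exp (-(√(2 * Λ) * ((x + ε) + (y + ε))))) := by
      refine ENNReal.continuous_ofReal.comp ?_
      fun_prop
    have h1 : Tendsto (fun ε : ℝ => ENNReal.ofReal
        (Real.exp (-(√(2 * Λ) * ((x + ε) + (y + ε)))))) (𝓝[>] 0)
        (𝓝 (ENNReal.ofReal (Real.exp (-(√(2 * Λ) * ((x + 0) + (y + 0))))))) :=
      (hc.tendsto 0).mono_left nhdsWithin_le_nhds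
    rw [add_zero, add_zero] at h1
    refine le_of_tendsto h1 ?_
    filter_upwards [self_mem_nhdsWithin] with ε hε
    exact hlow ε hε

theorem law3_DU {C : ℝ≥0 → Ω → ℝ} (h : BM C P) {Λ : ℝ} (hΛ : 0 < Λ) :
    (law3 C P Λ).map (fun x => (x.1, x.2.1)) =
      (expMeasure √(2 * Λ)).prod (expMeasure √(2 * Λ)) := by
  have hp := law3_prob h hΛ
  have hm : Measurable fun x : Pc3 => (x.1, x.2.1) := by fun_prop
  have hp' : IsProbabilityMeasure ((law3 C P Λ).map (fun x => (x.1, x.2.1))) :=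
    Measure.isProbabilityMeasure_map hm.aemeasurable
  refine law_of_tail (Real.sqrt_pos.2 (by linarith)) ?_
  intro x y hx hy
  have hs : MeasurableSet {q : ℝ × ℝ | x < q.1 ∧ y < q.2} :=
    (measurable_fst measurableSet_Ioi).inter (measurable_snd measurableSet_Ioi)
  rw [Measure.map_apply hm hs]
  exact wh_tail h hΛ hx hy

end Pool.Agent.BSP
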