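import Pool.Agent.BSP.GenDefs
import Pool.Agent.BSP.WH

set_option autoImplicit false

/-!
# Almost all Brownian paths are generic
-/

namespace Pool.Agent.BSP

open MeasureTheory ProbabilityTheory Set Filter
open scoped ENNReal NNReal Topology

variable {Ω : Type*} [MeasurableSpace Ω] {P : Measure Ω}

/-! ### auxiliary facts -/

/-- independent variables, one of them without atoms, are different -/
private theorem bgen_indep_ne [IsProbabilityMeasure P] {U V : Ω → ℝ} (hU : AEMeasurable U P)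
    (hV : AEMeasurable V P) (hind : IndepFun U V P) (hno : ∀ y, P.map U {y} = 0) :
    ∀ᵐ ω ∂P, U ω ≠ V ω := by
  have hmap := (indepFun_iff_map_prod_eq_prod_map_map hU hV).1 hind
  have hms : MeasurableSet {z : ℝ × ℝ | z.1 = z.2} := measurableSet_eq_fun measurable_fst
    measurable_snd
  have : IsProbabilityMeasure (P.map U) := Measure.isProbabilityMeasure_map hU
  have : IsProbabilityMeasure (P.map V) := Measure.isProbabilityMeasure_map hV
  have h0 : (P.map fun ω => (U ω, V ω)) {z : ℝ × ℝ | z.1 = z.2} = 0 := by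
    rw [hmap, Measure.prod_apply_symm hms]
    have : ∀ y : ℝ, (P.map U) ((fun x => (x, y)) ⁻¹' {z : ℝ × ℝ | z.1 = z.2}) = 0 := by
      intro y
      have e : ((fun x : ℝ => (x, y)) ⁻¹' {z : ℝ × ℝ | z.1 = z.2}) = {y} := by
        ext x; simp
      rw [e]; exact hno y
    simp only [this, lintegral_zero]
  rw [Measure.map_apply_of_aemeasurable (hU.prodMk hV) hms] at h0
  rw [ae_iff]
  refine measure_mono_null ?_ h0
  intro ω hω
  simpa using hω

private theorem bgen_Z_atoms {C : ℝ≥0 → Ω → ℝ} (h : BM C P) {b c : ℝ} (hb : 0 ≤ b)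
    (hbc : b < c) (y : ℝ) : P.map (fun ω => C c.toNNReal ω - C b.toNNReal ω) {y} = 0 := by
  have hlaw := h.pre.hasLaw_sub c.toNNReal b.toNNReal
  have e : (fun ω => C c.toNNReal ω - C b.toNNReal ω) = C c.toNNReal - C b.toNNReal := rfl
  rw [e, hlaw.map_eq]
  have hv : (nndist (c.toNNReal : ℝ≥0).1 (b.toNNReal : ℝ≥0).1) ≠ 0 := by
    intro h0
    rw [nndist_eq_zero] at h0
    have h1 : c.toNNReal = b.toNNReal := NNReal.eq h0
    have h2 := (Real.toNNReal_eq_toNNReal_iff (hb.trans hbc.le) hb).1 h1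
    linarith
  have := noAtoms_gaussianReal (μ := 0) hv
  exact measure_singleton y

/-- an increment has no atoms and is independent of the past -/
theorem incr_ne {C : ℝ≥0 → Ω → ℝ} (h : BM C P) {b c : ℝ} (hb : 0 ≤ b) (hbc : b < c)
    {X Y : Ω → ℝ} (hX : Measurable[MeasurableSpace.comap
      (fun ω (t : Set.Iic b.toNNReal) => C t ω) inferInstance] X)
    (hY : Measurable[MeasurableSpace.comap
      (fun ω (t : ℝ≥0) => C (c.toNNReal + t) ω - C c.toNNReal ω) inferInstance] Y) :
    ∀ᵐ ω ∂P, X ω + (pth C ω c - pth C ω b) ≠ Y ω := by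
  haveI := h.prob
  have hbc' : b.toNNReal ≤ c.toNNReal := Real.toNNReal_le_toNNReal hbc.le
  have hpastm : ∀ t0 : ℝ≥0, Measurable fun ω (t : Set.Iic t0) => C t ω := fun t0 =>
    measurable_pi_lambda _ fun t => h.meas _
  have hshm : ∀ t0 : ℝ≥0, Measurable fun ω (t : ℝ≥0) => C (t0 + t) ω - C t0 ω := fun t0 =>
    measurable_pi_lambda _ fun t => (h.meas _).sub (h.meas _)
  have hXm : Measurable X := hX.mono (hpastm _).comap_le le_rfl
  have hYm : Measurable Y := hY.mono (hshm _).comap_le le_rfl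
  set Z : Ω → ℝ := fun ω => C c.toNNReal ω - C b.toNNReal ω with hZ
  have hZm : Measurable Z := (h.meas _).sub (h.meas _)
  -- the past up to `b` is coarser than the past up to `c`
  have hle : MeasurableSpace.comap (fun ω (t : Set.Iic b.toNNReal) => C t ω)
      (inferInstance : MeasurableSpace (Set.Iic b.toNNReal → ℝ)) ≤
      MeasurableSpace.comap (fun ω (t : Set.Iic c.toNNReal) => C t ω)
      (inferInstance : MeasurableSpace (Set.Iic c.toNNReal → ℝ)) := by
    have e : (fun ω (t : Set.Iic b.toNNReal) => C t ω) =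
        (fun (y : Set.Iic c.toNNReal → ℝ) (t : Set.Iic b.toNNReal) =>
          y ⟨t, t.2.trans hbc'⟩) ∘ fun ω (t : Set.Iic c.toNNReal) => C t ω := rfl
    rw [e, ← MeasurableSpace.comap_comp]
    refine MeasurableSpace.comap_mono ?_
    exact (measurable_pi_lambda _ fun t => measurable_pi_apply _ : Measurable
      (fun (y : Set.Iic c.toNNReal → ℝ) (t : Set.Iic b.toNNReal) =>
        y ⟨t, t.2.trans hbc'⟩)).comap_le
  have hind1 : IndepFun Z X P := by
    have h1 := h.pre.indepFun_shift b.toNNReal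
    have h2 : MeasurableSpace.comap Z inferInstance ≤ MeasurableSpace.comap
        (fun ω (t : ℝ≥0) => C (b.toNNReal + t) ω - C b.toNNReal ω) inferInstance := by
      have e : Z = (fun y : ℝ≥0 → ℝ => y (c.toNNReal - b.toNNReal)) ∘
          fun ω (t : ℝ≥0) => C (b.toNNReal + t) ω - C b.toNNReal ω := by
        funext ω
        simp only [hZ, Function.comp_apply]
        rw [add_tsub_cancel_of_le hbc']
      rw [e, ← MeasurableSpace.comap_comp]
      exact MeasurableSpace.comap_mono (measurable_pi_apply _).comap_le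
    have h3 : MeasurableSpace.comap X inferInstance ≤ MeasurableSpace.comap
        (fun ω (t : Set.Iic b.toNNReal) => C t ω) inferInstance := hX.comap_le
    exact indep_of_indep_of_le_left (indep_of_indep_of_le_right h1 h3) h2
  have hS : ∀ y : ℝ, P.map (fun ω => X ω + Z ω) {y} = 0 := by
    intro y
    have h1 := bgen_indep_ne (P := P) (U := Z) (V := fun ω => y - X ω) hZm.aemeasurable
      (measurable_const.sub hXm).aemeasurable
      (hind1.comp measurable_id (measurable_const.sub measurable_id :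
        Measurable fun x : ℝ => y - x)) (bgen_Z_atoms h hb hbc)
    rw [Measure.map_apply (show Measurable (fun ω => X ω + Z ω) from hXm.add hZm)
      (measurableSet_singleton y)]
    refine measure_mono_null ?_ h1
    intro ω hω hcon
    apply hcon
    have : X ω + Z ω = y := hω
    show Z ω = y - X ω
    linarith
  have hind2 : IndepFun (fun ω => X ω + Z ω) Y P := by
    have h1 := (h.pre.indepFun_shift c.toNNReal).symm
    have h2 : MeasurableSpace.comap (fun ω => X ω + Z ω) inferInstance ≤ MeasurableSpace.comap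
        (fun ω (t : Set.Iic c.toNNReal) => C t ω) inferInstance := by
      have hX' : Measurable[MeasurableSpace.comap
        (fun ω (t : Set.Iic c.toNNReal) => C t ω) inferInstance] X := hX.mono hle le_rfl
      have hC : ∀ t0 : ℝ≥0, t0 ≤ c.toNNReal → Measurable[MeasurableSpace.comap
        (fun ω (t : Set.Iic c.toNNReal) => C t ω) inferInstance] (C t0) := by
        intro t0 ht0
        have e : C t0 = (fun y : Set.Iic c.toNNReal → ℝ => y ⟨t0, ht0⟩) ∘
          fun ω (t : Set.Iic c.toNNReal) => C t ω := rfl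
        rw [e]
        exact (measurable_pi_apply _).comp (comap_measurable _)
      exact (hX'.add ((hC _ le_rfl).sub (hC _ hbc'))).comap_le
    exact indep_of_indep_of_le_left (indep_of_indep_of_le_right h1 hY.comap_le) h2
  exact bgen_indep_ne (hXm.add hZm).aemeasurable hYm.aemeasurable hind2 hS

/-- the height of a piece is a function of the past -/
private theorem bgen_uW_past {C : ℝ≥0 → Ω → ℝ} (h : BM C P) {a b : ℝ}
    (hab : a ≤ b) : Measurable[MeasurableSpace.comap
      (fun ω (t : Set.Iic b.toNNReal) => C t ω) inferInstance]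
      fun ω => uW (pth C ω) a (b - a) := by
  have hτ : 0 ≤ b - a := by linarith
  have hmem : ∀ r : ℝ, r ≤ b → r.toNNReal ≤ b.toNNReal := fun r hr =>
    Real.toNNReal_le_toNNReal hr
  have hq : ∀ q : {q : ℚ // 0 ≤ q ∧ q ≤ 1}, a + ((q : ℚ) : ℝ) * (b - a) ≤ b := by
    intro q
    have h1 : ((q : ℚ) : ℝ) ≤ 1 := by exact_mod_cast q.2.2
    have h2 := mul_le_mul_of_nonneg_right h1 hτ
    linarith
  obtain ⟨φ, hφ⟩ : ∃ φ : (Set.Iic b.toNNReal → ℝ) → ℝ, φ = fun y =>
    y ⟨b.toNNReal, hmem _ le_rfl⟩ - ⨅ q : {q : ℚ // 0 ≤ q ∧ q ≤ 1},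
      y ⟨(a + ((q : ℚ) : ℝ) * (b - a)).toNNReal, hmem _ (hq q)⟩ := ⟨_, rfl⟩
  have hφm : Measurable φ := by
    rw [hφ]
    exact (measurable_pi_apply _).sub (Measurable.iInf fun q => measurable_pi_apply _)
  have e : (fun ω => uW (pth C ω) a (b - a)) = φ ∘ fun ω (t : Set.Iic b.toNNReal) => C t ω := by
    funext ω
    rw [hφ, uW, mn_eq_iInf (pth_cont h ω) hτ]
    have e2 : a + (b - a) = b := by ring
    rw [e2]
    rfl
  rw [e]
  exact hφm.comp (comap_measurable _)

/-- the depth of a piece is a function of the future -/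
private theorem bgen_dW_fut {C : ℝ≥0 → Ω → ℝ} (h : BM C P) {c τ : ℝ} (hc : 0 ≤ c) (hτ : 0 ≤ τ) :
    Measurable[MeasurableSpace.comap
      (fun ω (t : ℝ≥0) => C (c.toNNReal + t) ω - C c.toNNReal ω) inferInstance]
      fun ω => dW (pth C ω) c τ := by
  have e : (fun ω => dW (pth C ω) c τ) =
      (fun y : ℝ≥0 → ℝ => (BMarkovAux.pcQ y 0 τ).1) ∘
        fun ω (t : ℝ≥0) => C (c.toNNReal + t) ω - C c.toNNReal ω := by
    funext ω
    have hcont : Continuous fun t : ℝ≥0 => C (c.toNNReal + t) ω - C c.toNNReal ω :=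
      (h.shift c.toNNReal).cont ω
    simp only [Function.comp_apply]
    rw [BMarkovAux.pcQ_eq hcont hτ]
    have h1 := BMarkovAux.shift_eq (C := C) ω (pth_cont h ω) hc (v := [τ]) (by simpa using hτ)
    simp only [pcs, List.cons.injEq, Prod.mk.injEq] at h1
    exact h1.1.1.symm
  rw [e]
  exact (measurable_fst.comp (BMarkovAux.meas_pcQ 0 τ)).comp (comap_measurable _)

theorem bm_ratDist {C : ℝ≥0 → Ω → ℝ} (h : BM C P) : ∀ᵐ ω ∂P, RatDist (pth C ω) := by
  have key : ∀ a b c d : ℚ, ∀ᵐ ω ∂P, 0 ≤ a → a ≤ b → b < c → c ≤ d →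
      mn (pth C ω) a (b - a) ≠ mn (pth C ω) c (d - c) := by
    intro a b c d
    by_cases hyp : 0 ≤ a ∧ a ≤ b ∧ b < c ∧ c ≤ d
    · obtain ⟨h1, h2, h3, h4⟩ := hyp
      have h1' : (0 : ℝ) ≤ a := by exact_mod_cast h1
      have h2' : (a : ℝ) ≤ b := by exact_mod_cast h2
      have h3' : (b : ℝ) < c := by exact_mod_cast h3
      have h4' : (c : ℝ) ≤ d := by exact_mod_cast h4
      filter_upwards [incr_ne h (h1'.trans h2') h3' (bgen_uW_past h h2')
        (bgen_dW_fut h (τ := (d : ℝ) - c) (by linarith) (by linarith))] with ω hω _ _ _ _ hcon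
      apply hω
      rw [uW, dW, hcon]
      have e2 : (a : ℝ) + (b - a) = b := by ring
      rw [e2]
      ring
    · refine Eventually.of_forall fun ω h1 h2 h3 h4 => ?_
      exact absurd ⟨h1, h2, h3, h4⟩ hyp
  have h2 : ∀ᵐ ω ∂P, ∀ a b c d : ℚ, 0 ≤ a → a ≤ b → b < c → c ≤ d →
      mn (pth C ω) a (b - a) ≠ mn (pth C ω) c (d - c) := by
    rw [ae_all_iff]; intro a
    rw [ae_all_iff]; intro b
    rw [ae_all_iff]; intro c
    rw [ae_all_iff]; intro d
    exact key a b c d
  exact h2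

theorem bm_ratNz {C : ℝ≥0 → Ω → ℝ} (h : BM C P) : ∀ᵐ ω ∂P, RatNz (pth C ω) := by
  have key : ∀ a b : ℚ, ∀ᵐ ω ∂P, 0 < a → a ≤ b → mn (pth C ω) a (b - a) ≠ 0 := by
    intro a b
    by_cases hyp : 0 < a ∧ a ≤ b
    · obtain ⟨h1, h2⟩ := hyp
      have h1' : (0 : ℝ) < a := by exact_mod_cast h1
      have h2' : (a : ℝ) ≤ b := by exact_mod_cast h2
      filter_upwards [incr_ne h le_rfl h1' (X := fun _ => (0 : ℝ))
        (@measurable_const _ _ _ (MeasurableSpace.comap
          (fun ω (t : Set.Iic (0 : ℝ).toNNReal) => C t ω) inferInstance) 0)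
        (bgen_dW_fut h (τ := (b : ℝ) - a) h1'.le (by linarith))] with ω hω _ _ hcon
      apply hω
      have e0 : pth C ω 0 = 0 := by
        rw [pth, Real.toNNReal_zero]; exact h.zero ω
      rw [dW, hcon, e0]
      ring
    · refine Eventually.of_forall fun ω h1 h2 => ?_
      exact absurd ⟨h1, h2⟩ hyp
  have h2 : ∀ᵐ ω ∂P, ∀ a b : ℚ, 0 < a → a ≤ b → mn (pth C ω) a (b - a) ≠ 0 := by
    rw [ae_all_iff]; intro a
    rw [ae_all_iff]; intro b
    exact key a b
  exact h2

private theorem bgen_exp_ae {Λ : ℝ} (hΛ : 0 < Λ) {p : ℝ → Prop}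
    (h : ∀ᵐ τ ∂(expMeasure Λ), p τ) : ∀ᵐ τ : ℝ, 0 < τ → p τ := by
  have h3 : expMeasure Λ = volume.withDensity (exponentialPDF Λ) := rfl
  have hm1 : Measurable (exponentialPDF Λ) := (measurable_exponentialPDFReal Λ).ennreal_ofReal
  rw [h3, ae_withDensity_iff hm1] at h
  filter_upwards [h] with τ hτ h0
  apply hτ
  rw [exponentialPDF_of_nonneg h0.le]
  have : 0 < Λ * Real.exp (-(Λ * τ)) := by positivity
  exact (ENNReal.ofReal_pos.2 this).ne'

private theorem bgen_exp_pos {θ : ℝ} (hθ : 0 < θ) : expMeasure θ {u | ¬ 0 < u} = 0 := by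
  have hP : IsProbabilityMeasure (expMeasure θ) := isProbabilityMeasure_expMeasure hθ
  have h1 := exp_pos_ae hθ
  exact h1

/-- depth and height of a piece are positive: `law3_DU` -/
theorem bm_pos {C : ℝ≥0 → Ω → ℝ} (h : BM C P) {a : ℝ} (ha : 0 ≤ a) :
    ∀ᵐ ω ∂P, ∀ᵐ τ : ℝ, 0 < τ → 0 < dW (pth C ω) a τ ∧ 0 < uW (pth C ω) a τ := by
  haveI := h.prob
  haveI : IsProbabilityMeasure (expMeasure (1 : ℝ)) := isProbabilityMeasure_expMeasure one_pos
  have hs : MeasurableSet {x : Pc3 | ¬ (0 < x.1 ∧ 0 < x.2.1)} := by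
    refine MeasurableSet.compl ?_
    exact (measurableSet_lt measurable_const measurable_fst).inter
      (measurableSet_lt measurable_const (measurable_fst.comp measurable_snd))
  have hθ : 0 < √(2 * (1 : ℝ)) := Real.sqrt_pos.2 (by norm_num)
  have h0 : law3 C P 1 {x : Pc3 | ¬ (0 < x.1 ∧ 0 < x.2.1)} = 0 := by
    have hs2 : MeasurableSet {x : ℝ × ℝ | ¬ (0 < x.1 ∧ 0 < x.2)} := by
      refine MeasurableSet.compl ?_
      exact (measurableSet_lt measurable_const measurable_fst).inter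
        (measurableSet_lt measurable_const measurable_snd)
    have e1 : law3 C P 1 {x : Pc3 | ¬ (0 < x.1 ∧ 0 < x.2.1)} =
        (law3 C P 1).map (fun x => (x.1, x.2.1)) {x : ℝ × ℝ | ¬ (0 < x.1 ∧ 0 < x.2)} := by
      rw [Measure.map_apply (by fun_prop) hs2]; rfl
    rw [e1, law3_DU h one_pos]
    haveI : IsProbabilityMeasure (expMeasure √(2 * (1 : ℝ))) :=
      isProbabilityMeasure_expMeasure hθ
    have hsub : {x : ℝ × ℝ | ¬ (0 < x.1 ∧ 0 < x.2)} ⊆
        ({u : ℝ | ¬ 0 < u} ×ˢ univ) ∪ (univ ×ˢ {u : ℝ | ¬ 0 < u}) := by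
      intro x hx
      by_cases h1 : 0 < x.1
      · refine Or.inr ⟨mem_univ _, fun h2 => hx ⟨h1, h2⟩⟩
      · exact Or.inl ⟨h1, mem_univ _⟩
    refine measure_mono_null hsub (measure_union_null ?_ ?_)
    · rw [Measure.prod_prod, bgen_exp_pos hθ, zero_mul]
    · rw [Measure.prod_prod, bgen_exp_pos hθ, mul_zero]
  have hF : Measurable ({x : Pc3 | ¬ (0 < x.1 ∧ 0 < x.2.1)}.indicator (fun _ => (1 : ℝ≥0∞))) :=
    measurable_const.indicator hs
  have h1 := law3_lintegral h one_pos hF ha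
  rw [lintegral_indicator hs, setLIntegral_const, h0, mul_zero] at h1
  have hmj : Measurable fun q : Ω × ℝ => {x : Pc3 | ¬ (0 < x.1 ∧ 0 < x.2.1)}.indicator
      (fun _ => (1 : ℝ≥0∞)) (dW (pth C q.1) a q.2, uW (pth C q.1) a q.2, q.2, true) := by
    refine hF.comp ?_
    have m1 : Measurable fun q : Ω × ℝ => mn (pth C q.1) a q.2 :=
      (meas_mn h.meas h.cont).comp (measurable_fst.prodMk (measurable_const.prodMk measurable_snd))
    have m2 : Measurable fun q : Ω × ℝ => pth C q.1 a :=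
      (meas_pth h.meas h.cont).comp (measurable_fst.prodMk measurable_const)
    have m3 : Measurable fun q : Ω × ℝ => pth C q.1 (a + q.2) :=
      (meas_pth h.meas h.cont).comp (measurable_fst.prodMk (measurable_const.add measurable_snd))
    exact (m2.sub m1).prodMk ((m3.sub m1).prodMk (measurable_snd.prodMk measurable_const))
  have h2 := (lintegral_eq_zero_iff hmj.lintegral_prod_right').1 h1.symm
  filter_upwards [h2] with ω hω
  have h3 : ∫⁻ τ, {x : Pc3 | ¬ (0 < x.1 ∧ 0 < x.2.1)}.indicator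
      (fun _ => (1 : ℝ≥0∞)) (dW (pth C ω) a τ, uW (pth C ω) a τ, τ, true)
        ∂(expMeasure (1 : ℝ)) = 0 := hω
  have h3m : Measurable fun τ : ℝ => {x : Pc3 | ¬ (0 < x.1 ∧ 0 < x.2.1)}.indicator
      (fun _ => (1 : ℝ≥0∞)) (dW (pth C ω) a τ, uW (pth C ω) a τ, τ, true) :=
    hmj.comp measurable_prodMk_left
  rw [lintegral_eq_zero_iff h3m] at h3
  refine bgen_exp_ae one_pos ?_
  filter_upwards [h3] with τ hτ
  by_contra hcon
  have : {x : Pc3 | ¬ (0 < x.1 ∧ 0 < x.2.1)}.indicator
      (fun _ => (1 : ℝ≥0∞)) (dW (pth C ω) a τ, uW (pth C ω) a τ, τ, true) = 1 :=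
    indicator_of_mem (by exact hcon) _
  rw [this] at hτ
  simp at hτ

private theorem bgen_mn_mono {W : ℝ → ℝ} (hW : Continuous W) {a σ τ : ℝ} (hσ : 0 ≤ σ)
    (h : σ ≤ τ) : mn W a τ ≤ mn W a σ := by
  have e : τ = σ + (τ - σ) := by ring
  rw [e, mn_add hW hσ (by linarith)]
  exact min_le_left _ _

theorem bm_gen {C : ℝ≥0 → Ω → ℝ} (h : BM C P) : ∀ᵐ ω ∂P, ∀ᵐ t : ℝ, 0 < t →
    (∀ q : ℚ, 0 ≤ q → (q : ℝ) < t → mn (pth C ω) q (t - q) < pth C ω t) ∧
    (∀ ε : ℚ, 0 < ε → mn (pth C ω) t ε < pth C ω t) := by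
  haveI := h.prob
  -- first part
  have h1 : ∀ᵐ ω ∂P, ∀ᵐ t : ℝ, ∀ q : ℚ, 0 ≤ q → (q : ℝ) < t →
      mn (pth C ω) q (t - q) < pth C ω t := by
    have h2 : ∀ᵐ ω ∂P, ∀ q : ℚ, 0 ≤ q → ∀ᵐ τ : ℝ, 0 < τ → 0 < dW (pth C ω) q τ ∧
        0 < uW (pth C ω) q τ := by
      rw [ae_all_iff]; intro q
      by_cases hq : 0 ≤ q
      · have hq' : (0 : ℝ) ≤ q := by exact_mod_cast hq
        filter_upwards [bm_pos h hq'] with ω hω _
        exact hω
      · exact Eventually.of_forall fun ω hq' => absurd hq' hq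
    filter_upwards [h2] with ω hω
    rw [ae_all_iff]; intro q
    by_cases hq : 0 ≤ q
    · have h3 := hω q hq
      have h4 := (measurePreserving_sub_right volume (q : ℝ)).quasiMeasurePreserving.ae h3
      filter_upwards [h4] with t ht _ hqt
      have h5 := (ht (by linarith)).2
      rw [uW] at h5
      have e : (q : ℝ) + (t - q) = t := by ring
      rw [e] at h5
      linarith
    · exact Eventually.of_forall fun t hq' => absurd hq' hq
  -- second part
  have h2 : ∀ᵐ ω ∂P, ∀ᵐ t : ℝ, 0 < t → ∀ ε : ℚ, 0 < ε → mn (pth C ω) t ε < pth C ω t := by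
    have hms : MeasurableSet {x : Ω × ℝ | 0 < x.2 → ∀ ε : ℚ, 0 < ε →
        mn (pth C x.1) x.2 ε < pth C x.1 x.2} := by
      have e : {x : Ω × ℝ | 0 < x.2 → ∀ ε : ℚ, 0 < ε → mn (pth C x.1) x.2 ε < pth C x.1 x.2} =
          {x : Ω × ℝ | 0 < x.2}ᶜ ∪ ⋂ ε : ℚ, ({_x : Ω × ℝ | 0 < ε}ᶜ ∪
            {x : Ω × ℝ | mn (pth C x.1) x.2 ε < pth C x.1 x.2}) := by
        ext x
        simp only [mem_setOf_eq, mem_union, mem_compl_iff, mem_iInter, imp_iff_not_or]
      rw [e]
      refine (measurableSet_lt measurable_const measurable_snd).compl.union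
        (MeasurableSet.iInter fun ε => (MeasurableSet.const _).compl.union ?_)
      refine measurableSet_lt ?_ (meas_pth h.meas h.cont)
      exact (meas_mn h.meas h.cont).comp
        (measurable_fst.prodMk (measurable_snd.prodMk measurable_const))
    rw [Measure.ae_ae_comm hms]
    refine Eventually.of_forall fun t => ?_
    by_cases ht : 0 < t
    · filter_upwards [bm_pos h ht.le] with ω hω _ ε hε
      have hε' : (0 : ℝ) < ε := by exact_mod_cast hε
      -- a positive time smaller than `ε`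
      obtain ⟨τ, hτ1, hτ2⟩ : ∃ τ : ℝ, τ ∈ Ioo (0 : ℝ) ε ∧
          (0 < τ → 0 < dW (pth C ω) t τ ∧ 0 < uW (pth C ω) t τ) := by
        by_contra hcon
        push Not at hcon
        have h3 : volume (Ioo (0 : ℝ) ε) = 0 := by
          refine measure_mono_null ?_ hω
          intro τ hτ hyp
          obtain ⟨h4, h5⟩ := hcon τ hτ
          exact absurd (hyp h4).2 (not_lt.2 (h5 (hyp h4).1))
        rw [Real.volume_Ioo, ENNReal.ofReal_eq_zero] at h3
        linarith
      have h6 := (hτ2 hτ1.1).1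
      rw [dW] at h6
      have h7 := bgen_mn_mono (pth_cont h ω) (a := t) hτ1.1.le hτ1.2.le
      linarith
    · exact Eventually.of_forall fun ω ht' => absurd ht' ht
  filter_upwards [h1, h2] with ω hω1 hω2
  filter_upwards [hω1, hω2] with t ht1 ht2 ht0
  exact ⟨ht1, ht2 ht0⟩

theorem bm_low {C : ℝ≥0 → Ω → ℝ} (h : BM C P) : ∀ᵐ ω ∂P, ∃ t, 1 < t ∧ pth C ω t < 0 := by
  haveI := h.prob
  have key : ∀ K : ℕ, ∀ᵐ ω ∂P, ∃ n : ℕ, (K : ℝ) < dW (pth C ω) 1 n := by
    intro K
    set G : Set Ω := {ω | ∃ n : ℕ, (K : ℝ) < dW (pth C ω) 1 n} with hG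
    have hmd : ∀ τ : ℝ, Measurable fun ω => dW (pth C ω) 1 τ := by
      intro τ
      have m1 : Measurable fun ω : Ω => mn (pth C ω) 1 τ :=
        (meas_mn h.meas h.cont).comp (measurable_id.prodMk
          (measurable_const.prodMk measurable_const))
      have m2 : Measurable fun ω : Ω => pth C ω 1 :=
        (meas_pth h.meas h.cont).comp (measurable_id.prodMk measurable_const)
      exact m2.sub m1
    have hGm : MeasurableSet G := by
      have e : G = ⋃ n : ℕ, {ω | (K : ℝ) < dW (pth C ω) 1 n} := by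
        ext ω; simp [hG]
      rw [e]
      exact MeasurableSet.iUnion fun n => measurableSet_lt measurable_const (hmd n)
    have hlow : ∀ θ : ℝ, 0 < θ → ENNReal.ofReal (Real.exp (-(θ * K))) ≤ P G := by
      intro θ hθ
      have hΛ : 0 < θ ^ 2 / 2 := by positivity
      haveI : IsProbabilityMeasure (expMeasure (θ ^ 2 / 2)) := isProbabilityMeasure_expMeasure hΛ
      have hsq : √(2 * (θ ^ 2 / 2)) = θ := by
        rw [show 2 * (θ ^ 2 / 2) = θ ^ 2 by ring, Real.sqrt_sq hθ.le]
      haveI : IsProbabilityMeasure (expMeasure θ) := isProbabilityMeasure_expMeasure hθ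
      have hs : MeasurableSet {x : Pc3 | (K : ℝ) < x.1} :=
        measurableSet_lt measurable_const measurable_fst
      have hs2 : MeasurableSet {x : ℝ × ℝ | (K : ℝ) < x.1} :=
        measurableSet_lt measurable_const measurable_fst
      have e1 : law3 C P (θ ^ 2 / 2) {x : Pc3 | (K : ℝ) < x.1} =
          ENNReal.ofReal (Real.exp (-(θ * K))) := by
        have e2 : law3 C P (θ ^ 2 / 2) {x : Pc3 | (K : ℝ) < x.1} =
            (law3 C P (θ ^ 2 / 2)).map (fun x => (x.1, x.2.1)) {x : ℝ × ℝ | (K : ℝ) < x.1} := by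
          rw [Measure.map_apply (by fun_prop) hs2]; rfl
        rw [e2, law3_DU h hΛ, hsq]
        have e3 : {x : ℝ × ℝ | (K : ℝ) < x.1} = {u : ℝ | (K : ℝ) < u} ×ˢ univ := by
          ext x; simp
        rw [e3, Measure.prod_prod, measure_univ, mul_one]
        exact exp_tail hθ (Nat.cast_nonneg K)
      have hF : Measurable ({x : Pc3 | (K : ℝ) < x.1}.indicator (fun _ => (1 : ℝ≥0∞))) :=
        measurable_const.indicator hs
      have h1 := law3_lintegral h hΛ hF (a := 1) zero_le_one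
      rw [lintegral_indicator hs, setLIntegral_const, one_mul, e1] at h1
      rw [h1, ← lintegral_indicator_one hGm]
      refine lintegral_mono fun ω => ?_
      by_cases hω : ω ∈ G
      · rw [indicator_of_mem hω]
        calc ∫⁻ τ, {x : Pc3 | (K : ℝ) < x.1}.indicator (fun _ => (1 : ℝ≥0∞))
              (dW (pth C ω) 1 τ, uW (pth C ω) 1 τ, τ, true) ∂(expMeasure (θ ^ 2 / 2))
            ≤ ∫⁻ _τ, 1 ∂(expMeasure (θ ^ 2 / 2)) :=
              lintegral_mono fun τ => indicator_le_self' (fun _ _ => zero_le') _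
          _ = 1 := by simp
      · rw [indicator_of_notMem hω]
        refine le_of_eq ?_
        have h2 : ∀ᵐ τ ∂(expMeasure (θ ^ 2 / 2)), {x : Pc3 | (K : ℝ) < x.1}.indicator
            (fun _ => (1 : ℝ≥0∞)) (dW (pth C ω) 1 τ, uW (pth C ω) 1 τ, τ, true) = 0 := by
          filter_upwards [exp_pos_ae hΛ] with τ hτ
          refine indicator_of_notMem ?_ _
          intro hcon
          apply hω
          obtain ⟨n, hn⟩ := exists_nat_ge τ
          refine ⟨n, ?_⟩
          have h3 : (K : ℝ) < dW (pth C ω) 1 τ := hcon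
          have h4 := bgen_mn_mono (pth_cont h ω) (a := 1) hτ.le hn
          rw [dW] at h3 ⊢
          linarith
        rw [lintegral_congr_ae h2]
        simp
    have h1le : 1 ≤ P G := by
      have hl : Tendsto (fun θ : ℝ => ENNReal.ofReal (Real.exp (-(θ * K)))) (𝓝[>] 0) (𝓝 1) := by
        have h5 : Continuous fun θ : ℝ => ENNReal.ofReal (Real.exp (-(θ * K))) :=
          ENNReal.continuous_ofReal.comp (by fun_prop)
        have h6 := h5.tendsto 0
        simp only [zero_mul, neg_zero, Real.exp_zero, ENNReal.ofReal_one] at h6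
        exact h6.mono_left nhdsWithin_le_nhds
      refine le_of_tendsto hl ?_
      filter_upwards [self_mem_nhdsWithin] with θ hθ
      exact hlow θ hθ
    have h1eq : P G = 1 := le_antisymm prob_le_one h1le
    exact (prob_compl_eq_zero_iff hGm).2 h1eq
  filter_upwards [ae_all_iff.2 key] with ω hω
  obtain ⟨K, hK⟩ := exists_nat_ge (pth C ω 1)
  obtain ⟨n, hn⟩ := hω K
  obtain ⟨h1, h2, h3, h4⟩ := am_spec (pth_cont h ω) (a := 1) (Nat.cast_nonneg (α := ℝ) n)
  rw [dW, ← h3] at hn
  have h5 : (0 : ℝ) ≤ K := Nat.cast_nonneg K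
  refine ⟨am (pth C ω) 1 n, ?_, by linarith⟩
  rcases h1.eq_or_lt with h6 | h6
  · rw [← h6] at hn
    linarith
  · exact h6

theorem bm_genPath {C : ℝ≥0 → Ω → ℝ} (h : BM C P) : ∀ᵐ ω ∂P, GenPath (pth C ω) := by
  have h5 : ∀ᵐ ω ∂P, pth C ω 1 ≠ 0 := by
    filter_upwards [incr_ne h le_rfl (zero_lt_one (α := ℝ)) (X := fun _ => (0 : ℝ))
      (Y := fun _ => (0 : ℝ))
      (@measurable_const _ _ _ (MeasurableSpace.comap
        (fun ω (t : Set.Iic (0 : ℝ).toNNReal) => C t ω) inferInstance) 0)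
      (@measurable_const _ _ _ (MeasurableSpace.comap
        (fun ω (t : ℝ≥0) => C ((1 : ℝ).toNNReal + t) ω - C (1 : ℝ).toNNReal ω)
          inferInstance) 0)] with ω hω hcon
    apply hω
    have e0 : pth C ω 0 = 0 := by
      rw [pth, Real.toNNReal_zero]; exact h.zero ω
    rw [hcon, e0]
    ring
  filter_upwards [bm_ratDist h, bm_ratNz h, bm_gen h, bm_low h, h5] with ω h1 h2 h3 h4 h5
  refine genPath_of (pth_cont h ω) ?_ h1 h2 h3 h4 h5
  rw [pth, Real.toNNReal_zero]; exact h.zero ω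

end Pool.Agent.BSP
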