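import Pool.Agent.BSP.BPieces

set_option autoImplicit false

/-!
# Brownian motion at an exponential time
-/

namespace Pool.Agent.BSP

open MeasureTheory ProbabilityTheory Set Filter
open scoped ENNReal NNReal Topology

variable {Ω : Type*} [MeasurableSpace Ω] {P : Measure Ω}

private theorem bl_integral {θ : ℝ} (hθ : 0 < θ) (f : ℝ → ℂ) :
    ∫ x, f x ∂(expMeasure θ) = ∫ x in Ioi (0 : ℝ), (θ * Real.exp (-(θ * x))) • f x := by
  have h1 : expMeasure θ = volume.withDensity (exponentialPDF θ) := rfl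
  have h2 : Measurable (exponentialPDF θ) := (measurable_exponentialPDFReal θ).ennreal_ofReal
  rw [h1, integral_withDensity_eq_integral_toReal_smul h2
    (Eventually.of_forall fun x => by unfold exponentialPDF; exact ENNReal.ofReal_lt_top),
    ← integral_Ici_eq_integral_Ioi, ← integral_indicator measurableSet_Ici]
  congr 1
  funext x
  by_cases hx : 0 ≤ x
  · rw [indicator_of_mem (mem_Ici.2 hx), exponentialPDF_of_nonneg hx,
      ENNReal.toReal_ofReal (by positivity)]
  · rw [indicator_of_notMem (by simpa using hx), exponentialPDF_of_neg (not_le.1 hx)]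
    simp

private theorem bl_exp {θ : ℝ} (hθ : 0 < θ) {z : ℂ} (hz : z.re < θ) :
    ∫ x : ℝ, Complex.exp (z * x) ∂(expMeasure θ) = θ / (θ - z) := by
  rw [bl_integral hθ]
  have h0 : (θ : ℂ) - z ≠ 0 := by
    intro h
    have h1 := congrArg Complex.re h
    simp at h1
    linarith
  have h1 : ∀ x : ℝ, (θ * Real.exp (-(θ * x))) • Complex.exp (z * x) =
      (θ : ℂ) * Complex.exp ((z - θ) * x) := by
    intro x
    rw [Complex.real_smul]
    push_cast
    rw [mul_assoc, ← Complex.exp_add]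
    congr 2
    ring
  simp_rw [h1]
  rw [integral_const_mul, integral_exp_mul_complex_Ioi (by simp; linarith)]
  have h2 : z - (θ : ℂ) ≠ 0 := by
    intro h
    apply h0
    linear_combination -h
  simp only [Complex.ofReal_zero, mul_zero, Complex.exp_zero]
  field_simp
  ring

/-- characteristic function of the exponential law -/
theorem exp_charFun {θ : ℝ} (hθ : 0 < θ) (t : ℝ) :
    charFun (expMeasure θ) t = θ / (θ - t * Complex.I) := by
  rw [charFun_apply_real, ← bl_exp hθ (z := t * Complex.I) (by simpa using hθ)]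
  congr 1
  funext x
  congr 1
  ring

/-- the law of the Brownian motion at an exponential time -/
private noncomputable def blm (C : ℝ≥0 → Ω → ℝ) (P : Measure Ω) (Λ : ℝ) : Measure ℝ :=
  (P.prod (expMeasure Λ)).map fun q => pth C q.1 q.2

private theorem blm_charFun {C : ℝ≥0 → Ω → ℝ} (h : BM C P) {Λ : ℝ} (hΛ : 0 < Λ) (t : ℝ) :
    charFun (blm C P Λ) t = Λ / (Λ + t ^ 2 / 2) := by
  have := h.prob
  have := isProbabilityMeasure_expMeasure hΛ
  have hm : Measurable fun q : Ω × ℝ => pth C q.1 q.2 := meas_pth h.meas h.cont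
  have hc : Measurable fun x : ℝ => Complex.exp (t * x * Complex.I) := by fun_prop
  rw [charFun_apply_real]
  unfold blm
  rw [integral_map hm.aemeasurable hc.aestronglyMeasurable]
  have hint : Integrable (fun q : Ω × ℝ => Complex.exp (t * (pth C q.1 q.2 : ℝ) * Complex.I))
      (P.prod (expMeasure Λ)) := by
    refine Integrable.of_bound (hc.comp hm).aestronglyMeasurable 1 (Eventually.of_forall fun q => ?_)
    have h1 : (t * (pth C q.1 q.2 : ℝ) * Complex.I : ℂ) =
        ((t * pth C q.1 q.2 : ℝ) : ℂ) * Complex.I := by push_cast; ring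
    rw [h1, Complex.norm_exp_ofReal_mul_I]
  rw [integral_prod_symm _ hint]
  have h2 : ∫ τ, ∫ ω, Complex.exp (t * (pth C ω τ : ℝ) * Complex.I) ∂P ∂(expMeasure Λ) =
      ∫ τ : ℝ, Complex.exp ((-(t ^ 2 / 2) : ℝ) * τ) ∂(expMeasure Λ) := by
    refine integral_congr_ae ?_
    filter_upwards [exp_pos_ae hΛ] with τ hτ
    have h3 := (h.pre.hasLaw_eval τ.toNNReal)
    have h4 := charFun_gaussianReal (μ := 0) (v := τ.toNNReal) t
    rw [← h3.map_eq, charFun_apply_real,
      integral_map (h.meas _).aemeasurable hc.aestronglyMeasurable] at h4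
    unfold pth
    rw [h4, Real.coe_toNNReal τ hτ.le]
    congr 1
    push_cast
    ring
  rw [h2, bl_exp hΛ (by rw [Complex.ofReal_re]; nlinarith [sq_nonneg t])]
  push_cast
  congr 1
  ring

/-- the law of the difference of two independent exponential variables -/
private noncomputable def bld (s : ℝ) : Measure ℝ :=
  ((expMeasure s).prod (expMeasure s)).map fun q => q.1 - q.2

private theorem bld_charFun {s : ℝ} (hs : 0 < s) (t : ℝ) :
    charFun (bld s) t = s ^ 2 / (s ^ 2 + t ^ 2) := by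
  have := isProbabilityMeasure_expMeasure hs
  have hm : Measurable fun q : ℝ × ℝ => q.1 - q.2 := by fun_prop
  have hc : Measurable fun x : ℝ => Complex.exp (t * x * Complex.I) := by fun_prop
  rw [charFun_apply_real]
  unfold bld
  rw [integral_map hm.aemeasurable hc.aestronglyMeasurable]
  have h1 : ∀ q : ℝ × ℝ, Complex.exp (t * ((q.1 - q.2 : ℝ) : ℂ) * Complex.I) =
      Complex.exp ((t * Complex.I) * q.1) * Complex.exp ((-(t * Complex.I)) * q.2) := by
    intro q
    rw [← Complex.exp_add]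
    congr 1
    push_cast
    ring
  simp_rw [h1]
  rw [integral_prod_mul (fun x : ℝ => Complex.exp ((t * Complex.I) * x))
    (fun x : ℝ => Complex.exp ((-(t * Complex.I)) * x)),
    bl_exp hs (by simpa using hs), bl_exp hs (by simpa using hs)]
  have h2 : ((s : ℂ) - t * Complex.I) * (s - -(t * Complex.I)) = s ^ 2 + t ^ 2 := by
    have h3 := Complex.I_sq
    linear_combination -(t : ℂ) ^ 2 * h3
  rw [div_mul_div_comm, h2, sq]

private theorem bl_eq {C : ℝ≥0 → Ω → ℝ} (h : BM C P) {Λ : ℝ} (hΛ : 0 < Λ) :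
    blm C P Λ = bld √(2 * Λ) := by
  have := h.prob
  have := isProbabilityMeasure_expMeasure hΛ
  have hs : 0 < √(2 * Λ) := Real.sqrt_pos.2 (by linarith)
  have := isProbabilityMeasure_expMeasure hs
  have hm : Measurable fun q : Ω × ℝ => pth C q.1 q.2 := meas_pth h.meas h.cont
  have i1 : IsProbabilityMeasure (blm C P Λ) :=
    Measure.isProbabilityMeasure_map hm.aemeasurable
  have i2 : IsProbabilityMeasure (bld √(2 * Λ)) :=
    Measure.isProbabilityMeasure_map (by fun_prop)
  apply Measure.ext_of_charFun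
  funext t
  rw [blm_charFun h hΛ, bld_charFun hs]
  have h1 : ((√(2 * Λ) : ℝ) : ℂ) ^ 2 = 2 * Λ := by
    rw [← Complex.ofReal_pow, Real.sq_sqrt (by linarith)]
    push_cast
    ring
  rw [h1]
  have h2 : ((2 * Λ + t ^ 2 : ℝ) : ℂ) ≠ 0 := by
    rw [Complex.ofReal_ne_zero]
    nlinarith [sq_nonneg t]
  have h3 : ((Λ + t ^ 2 / 2 : ℝ) : ℂ) ≠ 0 := by
    rw [Complex.ofReal_ne_zero]
    nlinarith [sq_nonneg t]
  push_cast at h2 h3
  rw [div_eq_div_iff h3 h2]
  ring

/-- the value at an exponential time is the difference of two independent exponential variables -/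
theorem bm_laplace {C : ℝ≥0 → Ω → ℝ} (h : BM C P) {Λ : ℝ} (hΛ : 0 < Λ) {F : ℝ → ℝ≥0∞}
    (hF : Measurable F) : ∫⁻ ω, ∫⁻ τ, F (pth C ω τ) ∂(expMeasure Λ) ∂P =
      ∫⁻ u, ∫⁻ d, F (u - d) ∂(expMeasure √(2 * Λ)) ∂(expMeasure √(2 * Λ)) := by
  have := h.prob
  have := isProbabilityMeasure_expMeasure hΛ
  have hs : 0 < √(2 * Λ) := Real.sqrt_pos.2 (by linarith)
  have := isProbabilityMeasure_expMeasure hs
  have hm : Measurable fun q : Ω × ℝ => pth C q.1 q.2 := meas_pth h.meas h.cont
  have e1 : ∫⁻ ω, ∫⁻ τ, F (pth C ω τ) ∂(expMeasure Λ) ∂P = ∫⁻ x, F x ∂(blm C P Λ) := by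
    unfold blm
    rw [lintegral_map hF hm]
    exact (lintegral_prod (fun q : Ω × ℝ => F (pth C q.1 q.2)) (hF.comp hm).aemeasurable).symm
  have hm2 : Measurable fun q : ℝ × ℝ => q.1 - q.2 := by fun_prop
  have e2 : ∫⁻ u, ∫⁻ d, F (u - d) ∂(expMeasure √(2 * Λ)) ∂(expMeasure √(2 * Λ)) =
      ∫⁻ x, F x ∂(bld √(2 * Λ)) := by
    unfold bld
    rw [lintegral_map hF hm2]
    exact (lintegral_prod (fun q : ℝ × ℝ => F (q.1 - q.2)) (hF.comp hm2).aemeasurable).symm
  rw [e1, e2, bl_eq h hΛ]

/-- the law of the increment of a piece -/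
theorem law3_incr {C : ℝ≥0 → Ω → ℝ} (h : BM C P) {Λ : ℝ} (hΛ : 0 < Λ) :
    (law3 C P Λ).map (fun x => x.2.1 - x.1) =
      ((expMeasure √(2 * Λ)).prod (expMeasure √(2 * Λ))).map (fun q => q.2 - q.1) := by
  have := h.prob
  have := isProbabilityMeasure_expMeasure hΛ
  have hs : 0 < √(2 * Λ) := Real.sqrt_pos.2 (by linarith)
  have := isProbabilityMeasure_expMeasure hs
  have hf : Measurable fun x : Pc3 => x.2.1 - x.1 := by fun_prop
  have e1 : (law3 C P Λ).map (fun x => x.2.1 - x.1) = blm C P Λ := by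
    ext s hs'
    have h1 : Measurable (fun x : Pc3 => s.indicator (fun _ => (1 : ℝ≥0∞)) (x.2.1 - x.1)) :=
      (measurable_const.indicator hs').comp hf
    have h2 := law3_lintegral h hΛ h1 (le_refl (0 : ℝ))
    have h3 : Measurable fun q : Ω × ℝ => pth C q.1 q.2 := meas_pth h.meas h.cont
    rw [Measure.map_apply hf hs']
    unfold blm
    rw [Measure.map_apply h3 hs', ← lintegral_indicator_one (hf hs'),
      ← lintegral_indicator_one (h3 hs')]
    have h4 : ∫⁻ x, ((fun x : Pc3 => x.2.1 - x.1) ⁻¹' s).indicator 1 x ∂(law3 C P Λ) =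
        ∫⁻ x : Pc3, s.indicator (fun _ => (1 : ℝ≥0∞)) (x.2.1 - x.1) ∂(law3 C P Λ) := rfl
    rw [h4, h2]
    have h5 : ∫⁻ q, ((fun q : Ω × ℝ => pth C q.1 q.2) ⁻¹' s).indicator 1 q
        ∂(P.prod (expMeasure Λ)) =
        ∫⁻ q : Ω × ℝ, s.indicator (fun _ => (1 : ℝ≥0∞)) (pth C q.1 q.2)
          ∂(P.prod (expMeasure Λ)) := rfl
    have h8 : Measurable fun q : Ω × ℝ => s.indicator (fun _ => (1 : ℝ≥0∞)) (pth C q.1 q.2) :=
      (measurable_const.indicator hs').comp h3
    rw [h5, lintegral_prod _ h8.aemeasurable]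
    refine lintegral_congr fun ω => lintegral_congr fun τ => ?_
    have h6 : uW (pth C ω) 0 τ - dW (pth C ω) 0 τ = pth C ω τ := by
      unfold uW dW
      have h7 : pth C ω 0 = 0 := by
        unfold pth
        rw [Real.toNNReal_zero]
        exact h.zero ω
      rw [h7, zero_add]
      ring
    simp only [h6]
  rw [e1, bl_eq h hΛ]
  unfold bld
  have e2 : ((expMeasure √(2 * Λ)).prod (expMeasure √(2 * Λ))).map Prod.swap =
      (expMeasure √(2 * Λ)).prod (expMeasure √(2 * Λ)) := Measure.prod_swap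
  conv_lhs => rw [← e2]
  rw [Measure.map_map (by fun_prop) measurable_swap]
  rfl

end Pool.Agent.BSP
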