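import Pool.Agent.BSP.BMod

set_option autoImplicit false

/-!
# Markov property and stationarity for the pieces
-/

namespace Pool.Agent.BSP

open MeasureTheory ProbabilityTheory Set Filter
open scoped ENNReal NNReal Topology

variable {Ω : Type*} [MeasurableSpace Ω] {P : Measure Ω}

namespace BMarkovAux

/-- countable version of the minimum -/
noncomputable def mnQ (w : ℝ≥0 → ℝ) (a τ : ℝ) : ℝ :=
  ⨅ q : {q : ℚ // 0 ≤ q ∧ q ≤ 1}, w (a + (q : ℚ) * τ).toNNReal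

noncomputable def pcQ (w : ℝ≥0 → ℝ) (a τ : ℝ) : Pc3 :=
  (w a.toNNReal - mnQ w a τ, w (a + τ).toNNReal - mnQ w a τ, τ, true)

noncomputable def pcsQ (w : ℝ≥0 → ℝ) : ℝ → List ℝ → List Pc3
  | _, [] => []
  | a, τ :: v => pcQ w a τ :: pcsQ w (a + τ) v

theorem meas_mnQ (a τ : ℝ) : Measurable fun w : ℝ≥0 → ℝ => mnQ w a τ := by
  unfold mnQ
  exact Measurable.iInf fun q => measurable_pi_apply _

theorem meas_pcQ (a τ : ℝ) : Measurable fun w : ℝ≥0 → ℝ => pcQ w a τ := by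
  unfold pcQ
  exact ((measurable_pi_apply _).sub (meas_mnQ a τ)).prodMk
    (((measurable_pi_apply _).sub (meas_mnQ a τ)).prodMk
      (measurable_const.prodMk measurable_const))

universe u in
theorem meas_pcsQ (v : List ℝ) : ∀ {γ : Type u} [MeasurableSpace γ] (a : ℝ)
    {F : γ → List Pc3 → ℝ≥0∞} (_ : MF2 F),
    Measurable fun q : γ × (ℝ≥0 → ℝ) => F q.1 (pcsQ q.2 a v) := by
  induction v with
  | nil =>
    intro γ _ a F hF
    exact hF.nil.comp measurable_fst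
  | cons τ v ih =>
    intro γ _ a F hF
    have h1 := ih (a + τ) hF.cons
    have h2 : Measurable fun q : γ × (ℝ≥0 → ℝ) => ((q.1, pcQ q.2 a τ), q.2) :=
      (measurable_fst.prodMk ((meas_pcQ a τ).comp measurable_snd)).prodMk measurable_snd
    exact h1.comp h2

theorem mnQ_eq {w : ℝ≥0 → ℝ} (hw : Continuous w) {a τ : ℝ} (hτ : 0 ≤ τ) :
    mnQ w a τ = mn (fun t => w t.toNNReal) a τ := by
  have hW : Continuous (fun t : ℝ => w t.toNNReal) := hw.comp continuous_real_toNNReal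
  rw [mn_eq_iInf hW hτ]
  rfl

theorem pcQ_eq {w : ℝ≥0 → ℝ} (hw : Continuous w) {a τ : ℝ} (hτ : 0 ≤ τ) :
    pcQ w a τ = (dW (fun t => w t.toNNReal) a τ, uW (fun t => w t.toNNReal) a τ, τ, true) := by
  unfold pcQ dW uW
  rw [mnQ_eq hw hτ]

theorem pcsQ_eq {w : ℝ≥0 → ℝ} (hw : Continuous w) (v : List ℝ) :
    ∀ (a : ℝ) (_ : ∀ τ ∈ v, 0 ≤ τ), pcsQ w a v = pcs (fun t => w t.toNNReal) a v := by
  induction v with
  | nil => intro a _; rfl
  | cons τ v ih =>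
    intro a hv
    unfold pcsQ pcs
    rw [ih (a + τ) (fun τ' h => hv τ' (List.mem_cons_of_mem _ h)),
      pcQ_eq hw (hv τ List.mem_cons_self)]

theorem map_eq {Ω' : Type*} [MeasurableSpace Ω'] {P' : Measure Ω'} {C : ℝ≥0 → Ω → ℝ}
    {C' : ℝ≥0 → Ω' → ℝ} (h : BM C P) (h' : BM C' P') :
    P.map (fun ω t => C t ω) = P'.map (fun ω t => C' t ω) := by
  have hm : Measurable (fun ω t => C t ω) := measurable_pi_lambda _ h.meas
  have hm' : Measurable (fun ω t => C' t ω) := measurable_pi_lambda _ h'.meas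
  have e1 : IsProjectiveLimit (P.map (fun ω t => C t ω)) BrownianReal.projectiveFamily := by
    intro I
    rw [Measure.map_map (by fun_prop) hm]
    exact (h.pre.hasLaw I).map_eq
  have e2 : IsProjectiveLimit (P'.map (fun ω t => C' t ω)) BrownianReal.projectiveFamily := by
    intro I
    rw [Measure.map_map (by fun_prop) hm']
    exact (h'.pre.hasLaw I).map_eq
  exact e1.unique e2

theorem shift_eq {C : ℝ≥0 → Ω → ℝ} (ω : Ω) (hcont : Continuous (pth C ω)) {a : ℝ} (ha : 0 ≤ a)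
    {v : List ℝ} (hv : ∀ τ ∈ v, 0 ≤ τ) :
    pcs (pth (fun t ω => C (a.toNNReal + t) ω - C a.toNNReal ω) ω) 0 v = pcs (pth C ω) a v := by
  refine pcs_shift hcont hv fun t ht => ?_
  unfold pth
  simp only [zero_add, Real.toNNReal_zero, add_zero, sub_self, sub_zero]
  rw [Real.toNNReal_add ha ht]

end BMarkovAux

open BMarkovAux

/-- a continuous path functional which is measurable with respect to the product σ-algebra:
the pieces of a path computed from rational times -/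
theorem pcs_product {F : List Pc3 → ℝ≥0∞} (hF : MF F) {v : List ℝ} (hv : ∀ τ ∈ v, 0 ≤ τ) :
    ∃ G : (ℝ≥0 → ℝ) → ℝ≥0∞, Measurable G ∧ ∀ w : ℝ≥0 → ℝ, Continuous w →
      G w = F (pcs (fun t => w t.toNNReal) 0 v) := by
  refine ⟨fun w => F (pcsQ w 0 v), ?_, fun w hw => ?_⟩
  · have h1 := meas_pcsQ v 0 (hF.mf2 (γ := Unit))
    exact h1.comp (measurable_const.prodMk measurable_id : Measurable fun w : ℝ≥0 → ℝ => (((), w)))
  · simp only
    rw [pcsQ_eq hw v 0 hv]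

/-- the law of the pieces does not depend on the Brownian motion -/
theorem pcs_law {Ω' : Type*} [MeasurableSpace Ω'] {P' : Measure Ω'} {C : ℝ≥0 → Ω → ℝ}
    {C' : ℝ≥0 → Ω' → ℝ} (h : BM C P) (h' : BM C' P') {F : List Pc3 → ℝ≥0∞} (hF : MF F)
    {v : List ℝ} (hv : ∀ τ ∈ v, 0 ≤ τ) :
    ∫⁻ ω, F (pcs (pth C ω) 0 v) ∂P = ∫⁻ ω, F (pcs (pth C' ω) 0 v) ∂P' := by
  obtain ⟨G, hG, hGeq⟩ := pcs_product hF hv
  have hm : Measurable (fun ω t => C t ω) := measurable_pi_lambda _ h.meas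
  have hm' : Measurable (fun ω t => C' t ω) := measurable_pi_lambda _ h'.meas
  have e1 : ∫⁻ ω, F (pcs (pth C ω) 0 v) ∂P = ∫⁻ w, G w ∂(P.map (fun ω t => C t ω)) := by
    rw [lintegral_map hG hm]
    exact lintegral_congr fun ω => (hGeq _ (h.cont ω)).symm
  have e2 : ∫⁻ ω, F (pcs (pth C' ω) 0 v) ∂P' = ∫⁻ w, G w ∂(P'.map (fun ω t => C' t ω)) := by
    rw [lintegral_map hG hm']
    exact lintegral_congr fun ω => (hGeq _ (h'.cont ω)).symm
  rw [e1, e2, map_eq h h']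

/-- stationarity -/
theorem pcs_stat {C : ℝ≥0 → Ω → ℝ} (h : BM C P) {F : List Pc3 → ℝ≥0∞} (hF : MF F)
    {v : List ℝ} (hv : ∀ τ ∈ v, 0 ≤ τ) {a : ℝ} (ha : 0 ≤ a) :
    ∫⁻ ω, F (pcs (pth C ω) a v) ∂P = ∫⁻ ω, F (pcs (pth C ω) 0 v) ∂P := by
  rw [← pcs_law (h.shift a.toNNReal) h hF hv]
  exact lintegral_congr fun ω => by rw [shift_eq ω (pth_cont h ω) ha hv]

/-- Markov property at a deterministic time: the first piece and the other pieces are
independent -/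
theorem pcs_markov {C : ℝ≥0 → Ω → ℝ} (h : BM C P) {F : Pc3 → List Pc3 → ℝ≥0∞} (hF : MF2 F)
    {τ : ℝ} (hτ : 0 ≤ τ) {v : List ℝ} (hv : ∀ τ ∈ v, 0 ≤ τ) {a : ℝ} (ha : 0 ≤ a) :
    ∫⁻ ω, F (dW (pth C ω) a τ, uW (pth C ω) a τ, τ, true) (pcs (pth C ω) (a + τ) v) ∂P =
      ∫⁻ ω, ∫⁻ ω', F (dW (pth C ω) a τ, uW (pth C ω) a τ, τ, true)
        (pcs (pth C ω') (a + τ) v) ∂P ∂P := by
  haveI : IsProbabilityMeasure P := h.prob
  obtain ⟨t0, ht0⟩ : ∃ t0 : ℝ≥0, t0 = (a + τ).toNNReal := ⟨_, rfl⟩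
  set X : Ω → ℝ≥0 → ℝ := fun ω t => C (t0 + t) ω - C t0 ω with hX
  set Y : Ω → Set.Iic t0 → ℝ := fun ω t => C t ω with hY
  have hXm : Measurable X := measurable_pi_lambda _ fun t => (h.meas _).sub (h.meas _)
  have hYm : Measurable Y := measurable_pi_lambda _ fun t => h.meas _
  have hind : IndepFun Y X P := (h.pre.indepFun_shift t0).symm
  have hmem : ∀ r : ℝ, r ≤ a + τ → r.toNNReal ≤ t0 := by
    intro r hr
    rw [ht0]
    exact Real.toNNReal_le_toNNReal hr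
  have hq : ∀ q : {q : ℚ // 0 ≤ q ∧ q ≤ 1}, a + ((q : ℚ) : ℝ) * τ ≤ a + τ := by
    intro q
    have h1 : ((q : ℚ) : ℝ) ≤ 1 := by exact_mod_cast q.2.2
    have h2 := mul_le_mul_of_nonneg_right h1 hτ
    linarith
  obtain ⟨m, hm⟩ : ∃ m : (Set.Iic t0 → ℝ) → ℝ, m = fun y =>
    ⨅ q : {q : ℚ // 0 ≤ q ∧ q ≤ 1}, y ⟨(a + ((q : ℚ) : ℝ) * τ).toNNReal, hmem _ (hq q)⟩ := ⟨_, rfl⟩
  obtain ⟨φ, hφ⟩ : ∃ φ : (Set.Iic t0 → ℝ) → Pc3, φ = fun y =>
    (y ⟨a.toNNReal, hmem _ (by linarith)⟩ - m y, y ⟨(a + τ).toNNReal, hmem _ le_rfl⟩ - m y,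
      τ, true) := ⟨_, rfl⟩
  have hmm : Measurable m := by
    rw [hm]
    exact Measurable.iInf fun q => measurable_pi_apply _
  have hφm : Measurable φ := by
    rw [hφ]
    exact ((measurable_pi_apply _).sub hmm).prodMk
      (((measurable_pi_apply _).sub hmm).prodMk (measurable_const.prodMk measurable_const))
  have hφY : ∀ ω, φ (Y ω) = (dW (pth C ω) a τ, uW (pth C ω) a τ, τ, true) := by
    intro ω
    have h1 := pcQ_eq (h.cont ω) (a := a) hτ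
    have h2 : (fun t : ℝ => C t.toNNReal ω) = pth C ω := rfl
    simp only [h2] at h1
    rw [← h1, hφ, hm]
    rfl
  have hpX : ∀ ω, pcsQ (X ω) 0 v = pcs (pth C ω) (a + τ) v := by
    intro ω
    have h0 : 0 ≤ a + τ := by linarith
    have hc : Continuous (X ω) := (h.shift t0).cont ω
    rw [pcsQ_eq hc v 0 hv, ← shift_eq ω (pth_cont h ω) h0 hv, ← ht0]
    rfl
  have hH : Measurable fun z : Pc3 × (ℝ≥0 → ℝ) => F z.1 (pcsQ z.2 0 v) := meas_pcsQ v 0 hF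
  have hH2 : Measurable fun z : (Set.Iic t0 → ℝ) × (ℝ≥0 → ℝ) => F (φ z.1) (pcsQ z.2 0 v) :=
    hH.comp ((hφm.comp measurable_fst).prodMk measurable_snd)
  have hmap := (indepFun_iff_map_prod_eq_prod_map_map hYm.aemeasurable hXm.aemeasurable).1 hind
  calc ∫⁻ ω, F (dW (pth C ω) a τ, uW (pth C ω) a τ, τ, true) (pcs (pth C ω) (a + τ) v) ∂P
      = ∫⁻ ω, F (φ (Y ω)) (pcsQ (X ω) 0 v) ∂P :=
        lintegral_congr fun ω => by rw [hφY ω, hpX ω]
    _ = ∫⁻ z, F (φ z.1) (pcsQ z.2 0 v) ∂(P.map fun ω => (Y ω, X ω)) :=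
        (lintegral_map hH2 (hYm.prodMk hXm)).symm
    _ = ∫⁻ z, F (φ z.1) (pcsQ z.2 0 v) ∂((P.map Y).prod (P.map X)) := by rw [hmap]
    _ = ∫⁻ y, ∫⁻ x, F (φ y) (pcsQ x 0 v) ∂(P.map X) ∂(P.map Y) :=
        lintegral_prod _ hH2.aemeasurable
    _ = ∫⁻ ω, ∫⁻ x, F (φ (Y ω)) (pcsQ x 0 v) ∂(P.map X) ∂P :=
        lintegral_map hH2.lintegral_prod_right' hYm
    _ = ∫⁻ ω, ∫⁻ ω', F (φ (Y ω)) (pcsQ (X ω') 0 v) ∂P ∂P :=
        lintegral_congr fun ω => lintegral_map (hH2.comp measurable_prodMk_left) hXm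
    _ = _ := lintegral_congr fun ω => lintegral_congr fun ω' => by rw [hφY ω, hpX ω']

end Pool.Agent.BSP
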