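import Pool.Agent.BSP.Path

set_option autoImplicit false

/-!
# Continuous modification, transformations of Brownian motion
-/

namespace Pool.Agent.BSP

open MeasureTheory ProbabilityTheory Set Filter
open scoped ENNReal NNReal Topology

variable {Ω : Type*} [MeasurableSpace Ω] {P : Measure Ω}

theorem BMod_seq (t : ℝ≥0) : ∃ u : ℕ → ℚ, Tendsto (fun n => ((u n : ℚ) : ℝ).toNNReal) atTop (𝓝 t) := by
  have h1 : (t : ℝ) ∈ closure (Set.range ((↑) : ℚ → ℝ)) := Rat.isDenseEmbedding_coe_real.dense _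
  obtain ⟨x, hx, hxt⟩ := mem_closure_iff_seq_limit.1 h1
  choose u hu using hx
  refine ⟨u, ?_⟩
  have h2 := (continuous_real_toNNReal.tendsto (t : ℝ)).comp hxt
  rw [Real.toNNReal_coe] at h2
  refine h2.congr fun n => ?_
  simp only [Function.comp_apply, hu n]

theorem exists_BM {B : ℝ≥0 → Ω → ℝ} (hB : IsBrownianReal B P) :
    ∃ C : ℝ≥0 → Ω → ℝ, BM C P ∧ ∀ᵐ ω ∂P, ∀ t, C t ω = B t ω := by
  classical
  have hB' := hB.toIsPreBrownianReal
  have hae : ∀ᵐ ω ∂P, Continuous (B · ω) ∧ B 0 ω = 0 ∧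
      ∀ q : ℚ, B ((q : ℝ).toNNReal) ω = (hB'.aemeasurable ((q : ℝ).toNNReal)).mk _ ω := by
    filter_upwards [hB.cont, hB'.eval_zero_ae_eq_zero,
      ae_all_iff.2 fun q : ℚ => (hB'.aemeasurable ((q : ℝ).toNNReal)).ae_eq_mk] with ω h1 h2 h3
    exact ⟨h1, h2, h3⟩
  obtain ⟨T, hT1, hT2, hT3⟩ := exists_measurable_superset_of_null (ae_iff.1 hae)
  have hE : ∀ ω, ω ∉ T → Continuous (B · ω) ∧ B 0 ω = 0 ∧
      ∀ q : ℚ, B ((q : ℝ).toNNReal) ω = (hB'.aemeasurable ((q : ℝ).toNNReal)).mk _ ω := by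
    intro ω hω
    by_contra hcon
    exact hω (hT1 hcon)
  have haeT : ∀ᵐ ω ∂P, ω ∉ T := by
    rw [ae_iff]
    simpa using hT3
  set C : ℝ≥0 → Ω → ℝ := fun t ω => if ω ∈ T then 0 else B t ω with hC
  have hCB : ∀ᵐ ω ∂P, ∀ t, C t ω = B t ω := by
    filter_upwards [haeT] with ω hω t
    simp only [hC, hω, if_false]
  have hcont : ∀ ω, Continuous fun t => C t ω := by
    intro ω
    by_cases hω : ω ∈ T
    · simp only [hC, hω, if_true]
      exact continuous_const
    · simp only [hC, hω, if_false]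
      exact (hE ω hω).1
  refine ⟨C, ⟨?_, hcont, ?_, hB'.congr fun t => ?_⟩, hCB⟩
  · have hq : ∀ q : ℚ, Measurable (C ((q : ℝ).toNNReal)) := by
      intro q
      have : C ((q : ℝ).toNNReal) = fun ω => if ω ∈ T then 0 else
          (hB'.aemeasurable ((q : ℝ).toNNReal)).mk _ ω := by
        funext ω
        by_cases hω : ω ∈ T
        · simp only [hC, hω, if_true]
        · simp only [hC, hω, if_false]
          exact (hE ω hω).2.2 q
      rw [this]
      exact Measurable.ite hT2 measurable_const (hB'.aemeasurable _).measurable_mk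
    intro t
    obtain ⟨u, hu⟩ := BMod_seq t
    refine measurable_of_tendsto_metrizable (fun n => hq (u n)) ?_
    rw [tendsto_pi_nhds]
    intro ω
    exact ((hcont ω).tendsto t).comp hu
  · intro ω
    by_cases hω : ω ∈ T
    · simp only [hC, hω, if_true]
    · simp only [hC, hω, if_false]
      exact (hE ω hω).2.1
  · filter_upwards [hCB] with ω hω
    exact (hω t).symm

theorem BM.prob {C : ℝ≥0 → Ω → ℝ} (h : BM C P) : IsProbabilityMeasure P :=
  h.pre.isGaussianProcess.isProbabilityMeasure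

theorem BM.shift {C : ℝ≥0 → Ω → ℝ} (h : BM C P) (s : ℝ≥0) :
    BM (fun t ω => C (s + t) ω - C s ω) P := by
  refine ⟨fun t => (h.meas _).sub (h.meas _), fun ω => ?_, fun ω => by simp, h.pre.shift s⟩
  exact ((h.cont ω).comp (continuous_const.add continuous_id)).sub continuous_const

theorem BM.neg {C : ℝ≥0 → Ω → ℝ} (h : BM C P) : BM (fun t ω => -C t ω) P := by
  refine ⟨fun t => (h.meas _).neg, fun ω => (h.cont ω).neg, fun ω => by simp [h.zero ω], ?_⟩
  exact h.pre.neg

/-- joint measurability of the path -/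
theorem meas_pth {C : ℝ≥0 → Ω → ℝ} (hm : ∀ t, Measurable (C t))
    (hc : ∀ ω, Continuous fun t => C t ω) : Measurable fun q : Ω × ℝ => pth C q.1 q.2 := by
  have h1 : Measurable (Function.uncurry C) := measurable_uncurry_of_continuous_of_measurable hc hm
  exact h1.comp ((measurable_real_toNNReal.comp measurable_snd).prodMk measurable_fst)

theorem BMod_cont {C : ℝ≥0 → Ω → ℝ} (hc : ∀ ω, Continuous fun t => C t ω) (ω : Ω) :
    Continuous (pth C ω) := (hc ω).comp continuous_real_toNNReal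

theorem BMod_mn_neg (W : ℝ → ℝ) {a τ : ℝ} (hτ : τ < 0) : mn W a τ = 0 := by
  unfold mn
  rw [Icc_eq_empty (by linarith), image_empty, Real.sInf_empty]

theorem meas_mn {C : ℝ≥0 → Ω → ℝ} (hm : ∀ t, Measurable (C t))
    (hc : ∀ ω, Continuous fun t => C t ω) :
    Measurable fun q : Ω × ℝ × ℝ => mn (pth C q.1) q.2.1 q.2.2 := by
  classical
  have h1 : (fun q : Ω × ℝ × ℝ => mn (pth C q.1) q.2.1 q.2.2) = fun q : Ω × ℝ × ℝ =>
      if 0 ≤ q.2.2 then ⨅ r : {r : ℚ // 0 ≤ r ∧ r ≤ 1}, pth C q.1 (q.2.1 + ((r : ℚ) : ℝ) * q.2.2)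
      else 0 := by
    funext q
    by_cases hq : 0 ≤ q.2.2
    · simp only [hq, if_true]
      exact mn_eq_iInf (BMod_cont hc q.1) hq
    · simp only [hq, if_false]
      exact BMod_mn_neg _ (not_le.1 hq)
  rw [h1]
  refine Measurable.ite (measurableSet_le measurable_const (by fun_prop)) ?_ measurable_const
  refine Measurable.iInf fun r => ?_
  exact (meas_pth hm hc).comp (measurable_fst.prodMk (by fun_prop))

theorem meas_am {C : ℝ≥0 → Ω → ℝ} (hm : ∀ t, Measurable (C t))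
    (hc : ∀ ω, Continuous fun t => C t ω) :
    Measurable fun q : Ω × ℝ × ℝ => am (pth C q.1) q.2.1 q.2.2 := by
  refine measurable_of_Ioi fun c => ?_
  have h1 : (fun q : Ω × ℝ × ℝ => am (pth C q.1) q.2.1 q.2.2) ⁻¹' Ioi c =
      ({q : Ω × ℝ × ℝ | q.2.2 < 0} ∩ {_q | c < 0}) ∪
      (({q : Ω × ℝ × ℝ | 0 ≤ q.2.2} ∩ {q | c < q.2.1}) ∪
      ({q : Ω × ℝ × ℝ | 0 ≤ q.2.2} ∩ ({q | q.2.1 ≤ c} ∩ ({q | c < q.2.1 + q.2.2} ∩
        {q | mn (pth C q.1) q.2.1 q.2.2 < mn (pth C q.1) q.2.1 (c - q.2.1)})))) := by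
    ext ⟨ω, a, τ⟩
    simp only [mem_preimage, mem_Ioi, mem_union, mem_inter_iff, mem_setOf_eq]
    rcases lt_or_ge τ 0 with hτ | hτ
    · have h2 : am (pth C ω) a τ = 0 := by
        unfold am
        have : {t : ℝ | a ≤ t ∧ t ≤ a + τ ∧ pth C ω t = mn (pth C ω) a τ} = ∅ := by
          ext t
          simp only [mem_setOf_eq, mem_empty_iff_false, iff_false, not_and]
          intro h3 h4
          linarith
        rw [this, Real.sInf_empty]
      rw [h2]
      constructor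
      · intro h; left; exact ⟨hτ, h⟩
      · rintro (h | h | h)
        · exact h.2
        · linarith [h.1]
        · linarith [h.1]
    · obtain ⟨s1, s2, -, -⟩ := am_spec (BMod_cont hc ω) (a := a) hτ
      constructor
      · intro h
        right
        rcases lt_or_ge c a with hca | hca
        · left; exact ⟨hτ, hca⟩
        · right
          have h3 : c < a + τ := lt_of_lt_of_le h s2
          exact ⟨hτ, hca, h3, (lt_am_iff (BMod_cont hc ω) hca h3).1 h⟩
      · rintro (h | h | h)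
        · linarith [h.1]
        · exact lt_of_lt_of_le h.2 s1
        · exact (lt_am_iff (BMod_cont hc ω) h.2.1 h.2.2.1).2 h.2.2.2
  rw [h1]
  have m1 : MeasurableSet {q : Ω × ℝ × ℝ | 0 ≤ q.2.2} :=
    measurableSet_le measurable_const (by fun_prop)
  have m2 : MeasurableSet {q : Ω × ℝ × ℝ | q.2.2 < 0} :=
    measurableSet_lt (by fun_prop) measurable_const
  have m3 : MeasurableSet {q : Ω × ℝ × ℝ | c < q.2.1} :=
    measurableSet_lt measurable_const (by fun_prop)
  have m4 : MeasurableSet {q : Ω × ℝ × ℝ | q.2.1 ≤ c} :=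
    measurableSet_le (by fun_prop) measurable_const
  have m5 : MeasurableSet {q : Ω × ℝ × ℝ | c < q.2.1 + q.2.2} :=
    measurableSet_lt measurable_const (by fun_prop)
  have m6 : MeasurableSet {q : Ω × ℝ × ℝ |
      mn (pth C q.1) q.2.1 q.2.2 < mn (pth C q.1) q.2.1 (c - q.2.1)} := by
    refine measurableSet_lt (meas_mn hm hc) ?_
    have h2 : Measurable fun q : Ω × ℝ × ℝ => (q.1, q.2.1, c - q.2.1) := by fun_prop
    exact (meas_mn hm hc).comp h2
  exact (m2.inter (MeasurableSet.const _)).union ((m1.inter m3).union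
    (m1.inter (m4.inter (m5.inter m6))))

universe u in
theorem BMod_pcs {β : Type*} [MeasurableSpace β] {C : ℝ≥0 → Ω → ℝ} (hm : ∀ t, Measurable (C t))
    (hc : ∀ ω, Continuous fun t => C t ω) (n : ℕ) : ∀ {γ : Type u} [MeasurableSpace γ]
    {F : γ → List Pc3 → β} (_ : MF2 F),
    Measurable fun z : (γ × Ω × ℝ) × (Fin n → ℝ) =>
      F z.1.1 (pcs (pth C z.1.2.1) z.1.2.2 (List.ofFn z.2)) := by
  induction n with
  | zero =>
    intro γ _ F hF
    have h1 : (fun z : (γ × Ω × ℝ) × (Fin 0 → ℝ) =>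
      F z.1.1 (pcs (pth C z.1.2.1) z.1.2.2 (List.ofFn z.2))) = fun z => F z.1.1 [] := by
      funext z
      rw [List.ofFn_zero]
      rfl
    rw [h1]
    exact hF.nil.comp (measurable_fst.comp measurable_fst)
  | succ n ih =>
    intro γ _ F hF
    have h1 := ih hF.cons
    have hmn : Measurable fun z : (γ × Ω × ℝ) × (Fin (n + 1) → ℝ) =>
        mn (pth C z.1.2.1) z.1.2.2 (z.2 0) :=
      (meas_mn hm hc).comp ((by fun_prop : Measurable fun z : (γ × Ω × ℝ) × (Fin (n + 1) → ℝ) =>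
        (z.1.2.1, z.1.2.2, z.2 0)))
    have hw1 : Measurable fun z : (γ × Ω × ℝ) × (Fin (n + 1) → ℝ) =>
        pth C z.1.2.1 z.1.2.2 :=
      (meas_pth hm hc).comp ((by fun_prop : Measurable fun z : (γ × Ω × ℝ) × (Fin (n + 1) → ℝ) =>
        (z.1.2.1, z.1.2.2)))
    have hw2 : Measurable fun z : (γ × Ω × ℝ) × (Fin (n + 1) → ℝ) =>
        pth C z.1.2.1 (z.1.2.2 + z.2 0) :=
      (meas_pth hm hc).comp ((by fun_prop : Measurable fun z : (γ × Ω × ℝ) × (Fin (n + 1) → ℝ) =>
        (z.1.2.1, z.1.2.2 + z.2 0)))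
    have hpc : Measurable fun z : (γ × Ω × ℝ) × (Fin (n + 1) → ℝ) =>
        ((dW (pth C z.1.2.1) z.1.2.2 (z.2 0), uW (pth C z.1.2.1) z.1.2.2 (z.2 0), z.2 0, true) :
          Pc3) :=
      (hw1.sub hmn).prodMk ((hw2.sub hmn).prodMk (Measurable.prodMk (by fun_prop)
        measurable_const))
    have h2 : Measurable fun z : (γ × Ω × ℝ) × (Fin (n + 1) → ℝ) =>
        (((z.1.1, ((dW (pth C z.1.2.1) z.1.2.2 (z.2 0), uW (pth C z.1.2.1) z.1.2.2 (z.2 0),
          z.2 0, true) : Pc3)), z.1.2.1, z.1.2.2 + z.2 0), fun i : Fin n => z.2 i.succ) := by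
      refine Measurable.prodMk (Measurable.prodMk (Measurable.prodMk (by fun_prop) hpc)
        (by fun_prop)) (by fun_prop)
    simp only [List.ofFn_succ]
    exact h1.comp h2

theorem meas_pcs {C : ℝ≥0 → Ω → ℝ} (hm : ∀ t, Measurable (C t))
    (hc : ∀ ω, Continuous fun t => C t ω) {γ β : Type*} [MeasurableSpace γ] [MeasurableSpace β]
    {F : γ → List Pc3 → β} (hF : MF2 F) :
    MF2 fun (q : γ × Ω × ℝ) v => F q.1 (pcs (pth C q.2.1) q.2.2 v) := by
  intro n
  exact BMod_pcs hm hc n hF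

end Pool.Agent.BSP
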