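import Pool.Agent.BSP.Tree

set_option autoImplicit false

/-!
# Laws of pieces
-/

namespace Pool.Agent.BSP

open MeasureTheory ProbabilityTheory
open scoped ENNReal

/-- the law of a sign -/
noncomputable def berM (p : ℝ) : Measure Bool := bw p true • Measure.dirac true +
  bw p false • Measure.dirac false

instance (p : ℝ) : IsFiniteMeasure (berM p) := by
  constructor
  unfold berM bw
  simp only [Measure.coe_add, Measure.coe_smul, Pi.add_apply, Pi.smul_apply, measure_univ,
    smul_eq_mul, mul_one]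
  exact ENNReal.add_lt_top.2 ⟨ENNReal.ofReal_lt_top, ENNReal.ofReal_lt_top⟩

private theorem law_berM_univ (p : ℝ) : berM p Set.univ = bw p true + bw p false := by
  unfold berM
  simp only [Measure.coe_add, Measure.coe_smul, Pi.add_apply, Pi.smul_apply, measure_univ,
    smul_eq_mul, mul_one]

theorem berM_prob {p : ℝ} (h0 : 0 ≤ p) (h1 : p ≤ 1) : IsProbabilityMeasure (berM p) := by
  constructor
  rw [law_berM_univ]
  unfold bw
  simp only [if_true, Bool.false_eq_true, if_false]
  rw [← ENNReal.ofReal_add h0 (by linarith)]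
  simp

/-- adjoin an independent sign -/
noncomputable def sgnProd (p : ℝ) (ρ : Measure (ℝ × ℝ × ℝ × Bool)) : Measure Pc :=
  (ρ.prod (berM p)).map fun q => (q.1.1, q.1.2.1, q.1.2.2.1, q.1.2.2.2, q.2)

/-- the law of a piece: the depth and the height are independent exponential variables of rate
`θ`, the sign is independent of everything else, and `P(mark | cherry) = g` -/
structure PLaw (p g θ : ℝ) (ρ : Measure Pc) : Prop where
  prob : IsProbabilityMeasure ρ
  sgn : ∃ ρ', IsProbabilityMeasure ρ' ∧ ρ = sgnProd p ρ'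
  DU : ρ.map (fun x => (pD x, pU x)) = (expMeasure θ).prod (expMeasure θ)
  chi : ∫⁻ x, (if pX x then ENNReal.ofReal (Real.exp (-(θ * (pD x + pU x)))) else 0) ∂ρ =
    ENNReal.ofReal (g / 4)

private theorem law_meas_emb : Measurable fun q : (ℝ × ℝ × ℝ × Bool) × Bool =>
    ((q.1.1, q.1.2.1, q.1.2.2.1, q.1.2.2.2, q.2) : Pc) := by
  fun_prop

private theorem law_meas_pD : Measurable pD := by unfold pD; fun_prop
private theorem law_meas_pU : Measurable pU := by unfold pU; fun_prop
private theorem law_meas_pT : Measurable pT := by unfold pT; fun_prop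
private theorem law_meas_pX : Measurable pX := by unfold pX; fun_prop
private theorem law_meas_pS : Measurable pS := by unfold pS; fun_prop

private theorem law_meas_swp : Measurable swp := by
  unfold swp
  exact law_meas_pU.prodMk (law_meas_pD.prodMk (law_meas_pT.prodMk
    (law_meas_pX.prodMk law_meas_pS)))

private theorem law_lintegral_berM (p : ℝ) (f : Bool → ℝ≥0∞) :
    ∫⁻ s, f s ∂(berM p) = bw p true * f true + bw p false * f false := by
  unfold berM
  rw [lintegral_add_measure, lintegral_smul_measure, lintegral_smul_measure, lintegral_dirac,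
    lintegral_dirac]
  rfl

private theorem law_lintegral_sgnProd (p : ℝ) (ρ' : Measure (ℝ × ℝ × ℝ × Bool)) {G : Pc → ℝ≥0∞}
    (hG : Measurable G) : ∫⁻ x, G x ∂(sgnProd p ρ') =
      ∫⁻ y, (bw p true * G (y.1, y.2.1, y.2.2.1, y.2.2.2, true) +
        bw p false * G (y.1, y.2.1, y.2.2.1, y.2.2.2, false)) ∂ρ' := by
  unfold sgnProd
  have hc : Measurable fun q : (ℝ × ℝ × ℝ × Bool) × Bool =>
      G (q.1.1, q.1.2.1, q.1.2.2.1, q.1.2.2.2, q.2) := hG.comp law_meas_emb
  rw [lintegral_map hG law_meas_emb, lintegral_prod _ hc.aemeasurable]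
  refine lintegral_congr fun y => ?_
  exact law_lintegral_berM p fun s => G (y.1, y.2.1, y.2.2.1, y.2.2.2, s)

private theorem law_bw_add {p : ℝ} {ρ' : Measure (ℝ × ℝ × ℝ × Bool)} (h' : IsProbabilityMeasure ρ')
    (h : IsProbabilityMeasure (sgnProd p ρ')) : bw p true + bw p false = 1 := by
  have h1 := law_lintegral_sgnProd p ρ' (G := fun _ => 1) measurable_const
  simp only [lintegral_const, measure_univ, mul_one] at h1
  exact h1.symm

theorem PLaw.swap {p g θ : ℝ} {ρ : Measure Pc} (h : PLaw p g θ ρ) :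
    PLaw p g θ (ρ.map swp) := by
  have := h.prob
  refine ⟨Measure.isProbabilityMeasure_map law_meas_swp.aemeasurable, ?_, ?_, ?_⟩
  · obtain ⟨ρ', h', e⟩ := h.sgn
    have hm : Measurable fun y : ℝ × ℝ × ℝ × Bool => (y.2.1, y.1, y.2.2.1, y.2.2.2) := by fun_prop
    refine ⟨ρ'.map fun y => (y.2.1, y.1, y.2.2.1, y.2.2.2),
      Measure.isProbabilityMeasure_map hm.aemeasurable, ?_⟩
    rw [e]
    refine Measure.ext_of_lintegral _ fun G hG => ?_
    have hc : Measurable fun x : Pc => G (swp x) := hG.comp law_meas_swp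
    rw [lintegral_map hG law_meas_swp, law_lintegral_sgnProd p ρ' hc,
      law_lintegral_sgnProd p _ hG, lintegral_map _ hm]
    · rfl
    · have h1 : ∀ s : Bool, Measurable fun y : ℝ × ℝ × ℝ × Bool =>
          G (y.1, y.2.1, y.2.2.1, y.2.2.2, s) := fun s =>
        hG.comp (by fun_prop : Measurable fun y : ℝ × ℝ × ℝ × Bool =>
          ((y.1, y.2.1, y.2.2.1, y.2.2.2, s) : Pc))
      exact ((h1 true).const_mul _).add ((h1 false).const_mul _)
  · rw [Measure.map_map (law_meas_pD.prodMk law_meas_pU) law_meas_swp]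
    have e1 : (fun x => (pD x, pU x)) ∘ swp = Prod.swap ∘ fun x : Pc => (pD x, pU x) := rfl
    rw [e1, ← Measure.map_map measurable_swap (law_meas_pD.prodMk law_meas_pU), h.DU]
    have : SFinite (expMeasure θ) := by
      unfold expMeasure gammaMeasure
      infer_instance
    exact Measure.prod_swap
  · rw [lintegral_map _ law_meas_swp, ← h.chi]
    · refine lintegral_congr fun x => ?_
      have e1 : pX (swp x) = pX x := rfl
      have e2 : pD (swp x) = pU x := rfl
      have e3 : pU (swp x) = pD x := rfl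
      rw [e1, e2, e3, add_comm (pU x)]
    · refine Measurable.ite (law_meas_pX (measurableSet_singleton true)) ?_ measurable_const
      have := law_meas_pD
      have := law_meas_pU
      fun_prop

/-- the sign is independent of depth, height and mark -/
private theorem law_lintegral_S {p g θ : ℝ} {ρ : Measure Pc} (h : PLaw p g θ ρ)
    {F : ℝ → ℝ → Bool → Bool → ℝ≥0∞}
    (hF : Measurable fun q : ℝ × ℝ × Bool × Bool => F q.1 q.2.1 q.2.2.1 q.2.2.2) :
    ∫⁻ x, F (pD x) (pU x) (pX x) (pS x) ∂ρ =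
      bw p true * ∫⁻ x, F (pD x) (pU x) (pX x) true ∂ρ +
      bw p false * ∫⁻ x, F (pD x) (pU x) (pX x) false ∂ρ := by
  obtain ⟨ρ', h', e⟩ := h.sgn
  have hp := h.prob
  have hb : bw p true + bw p false = 1 := law_bw_add h' (e ▸ hp)
  have hs : ∀ s : Bool, Measurable fun x : Pc => F (pD x) (pU x) (pX x) s := fun s =>
    hF.comp (law_meas_pD.prodMk (law_meas_pU.prodMk (law_meas_pX.prodMk measurable_const)))
  have h0 : Measurable fun x : Pc => F (pD x) (pU x) (pX x) (pS x) :=
    hF.comp (law_meas_pD.prodMk (law_meas_pU.prodMk (law_meas_pX.prodMk law_meas_pS)))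
  have hs' : ∀ s : Bool, Measurable fun y : ℝ × ℝ × ℝ × Bool => F y.1 y.2.1 y.2.2.2 s := fun s =>
    hF.comp (by fun_prop : Measurable fun y : ℝ × ℝ × ℝ × Bool => (y.1, y.2.1, y.2.2.2, s))
  have h2 : ∀ s : Bool, ∫⁻ x, F (pD x) (pU x) (pX x) s ∂ρ =
      ∫⁻ y, F y.1 y.2.1 y.2.2.2 s ∂ρ' := by
    intro s
    rw [e, law_lintegral_sgnProd p ρ' (hs s)]
    refine lintegral_congr fun y => ?_
    change bw p true * F y.1 y.2.1 y.2.2.2 s + bw p false * F y.1 y.2.1 y.2.2.2 s =
      F y.1 y.2.1 y.2.2.2 s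
    rw [← add_mul, hb, one_mul]
  rw [h2, h2, e, law_lintegral_sgnProd p ρ' h0, ← lintegral_const_mul _ (hs' true),
    ← lintegral_const_mul _ (hs' false), ← lintegral_add_left ((hs' true).const_mul _)]
  rfl

/-- the depth, the height and the sign of a piece are independent -/
theorem PLaw.lintegral_DUS {p g θ : ℝ} {ρ : Measure Pc} (h : PLaw p g θ ρ) (hθ : 0 < θ)
    {F : ℝ → ℝ → Bool → ℝ≥0∞} (hF : Measurable fun q : ℝ × ℝ × Bool => F q.1 q.2.1 q.2.2) :
    ∫⁻ x, F (pD x) (pU x) (pS x) ∂ρ =
      ∫⁻ d, ∫⁻ u, (bw p true * F d u true + bw p false * F d u false) ∂(expMeasure θ)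
        ∂(expMeasure θ) := by
  have := isProbabilityMeasure_expMeasure hθ
  have hs : ∀ s : Bool, Measurable fun q : ℝ × ℝ => F q.1 q.2 s := fun s =>
    hF.comp (by fun_prop : Measurable fun q : ℝ × ℝ => (q.1, q.2, s))
  have h1 := law_lintegral_S h (F := fun d u _ s => F d u s)
    (hF.comp (by fun_prop : Measurable fun q : ℝ × ℝ × Bool × Bool => (q.1, q.2.1, q.2.2.2)))
  have h2 : ∀ s : Bool, ∫⁻ x, F (pD x) (pU x) s ∂ρ =
      ∫⁻ q, F q.1 q.2 s ∂((expMeasure θ).prod (expMeasure θ)) := by
    intro s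
    rw [← h.DU, lintegral_map (hs s) (law_meas_pD.prodMk law_meas_pU)]
  rw [h1, h2, h2, ← lintegral_const_mul _ (hs true), ← lintegral_const_mul _ (hs false),
    ← lintegral_add_left ((hs true).const_mul _), lintegral_prod]
  exact (((hs true).const_mul _).add ((hs false).const_mul _)).aemeasurable

/-- the sign is independent of depth, height and mark -/
theorem PLaw.lintegral_S {p g θ : ℝ} {ρ : Measure Pc} (h : PLaw p g θ ρ)
    {F : ℝ → ℝ → Bool → Bool → ℝ≥0∞}
    (hF : Measurable fun q : ℝ × ℝ × Bool × Bool => F q.1 q.2.1 q.2.2.1 q.2.2.2) :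
    ∫⁻ x, F (pD x) (pU x) (pX x) (pS x) ∂ρ =
      bw p true * ∫⁻ x, F (pD x) (pU x) (pX x) true ∂ρ +
      bw p false * ∫⁻ x, F (pD x) (pU x) (pX x) false ∂ρ :=
  law_lintegral_S h hF

private theorem law_exp_withDensity (θ : ℝ) :
    expMeasure θ = volume.withDensity (exponentialPDF θ) := rfl

private theorem law_meas_pdf (θ : ℝ) : Measurable (exponentialPDF θ) :=
  (measurable_exponentialPDFReal θ).ennreal_ofReal

/-- integrals over the exponential law above a level -/
theorem lintegral_exp_shift {θ : ℝ} (hθ : 0 < θ) {a : ℝ} (ha : 0 ≤ a) {F : ℝ → ℝ≥0∞}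
    (hF : Measurable F) : ∫⁻ u, (if a < u then F (u - a) else 0) ∂(expMeasure θ) =
      ENNReal.ofReal (Real.exp (-(θ * a))) * ∫⁻ u, F u ∂(expMeasure θ) := by
  have hm : Measurable fun u : ℝ => if a < u then F (u - a) else 0 :=
    Measurable.ite measurableSet_Ioi (hF.comp (by fun_prop)) measurable_const
  rw [law_exp_withDensity, lintegral_withDensity_eq_lintegral_mul _ (law_meas_pdf θ) hm,
    lintegral_withDensity_eq_lintegral_mul _ (law_meas_pdf θ) hF,
    ← lintegral_const_mul _ ((law_meas_pdf θ).mul hF),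
    ← lintegral_add_right_eq_self _ a]
  have h0 : ∀ᵐ v : ℝ, v ≠ 0 := by
    rw [ae_iff]
    simp
  refine lintegral_congr_ae ?_
  filter_upwards [h0] with v hv
  simp only [Pi.mul_apply, lt_add_iff_pos_left, add_sub_cancel_right]
  rcases lt_or_gt_of_ne hv with h1 | h1
  · rw [if_neg (not_lt.2 h1.le), exponentialPDF_of_neg h1]
    simp
  · rw [if_pos h1, exponentialPDF_of_nonneg h1.le, exponentialPDF_of_nonneg (by linarith),
      ← mul_assoc, ← ENNReal.ofReal_mul (Real.exp_pos _).le]
    congr 2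
    have : Real.exp (-(θ * (v + a))) = Real.exp (-(θ * a)) * Real.exp (-(θ * v)) := by
      rw [← Real.exp_add]
      congr 1
      ring
    rw [this]
    ring

theorem exp_pos_ae {θ : ℝ} (hθ : 0 < θ) : ∀ᵐ u ∂(expMeasure θ), 0 < u := by
  rw [ae_iff]
  have e : {u : ℝ | ¬ 0 < u} = Set.Iic 0 := by
    ext u
    simp
  rw [e, law_exp_withDensity, withDensity_apply _ measurableSet_Iic,
    lintegral_exponentialPDF_eq_antiDeriv hθ]
  simp

theorem exp_tail {θ : ℝ} (hθ : 0 < θ) {a : ℝ} (ha : 0 ≤ a) :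
    expMeasure θ {u | a < u} = ENNReal.ofReal (Real.exp (-(θ * a))) := by
  have := isProbabilityMeasure_expMeasure hθ
  have h := lintegral_exp_shift hθ ha (F := fun _ => 1) measurable_const
  simp only [lintegral_const, measure_univ, mul_one] at h
  rw [← h]
  have e : (fun u : ℝ => if a < u then (1 : ℝ≥0∞) else 0) =
      Set.indicator {u | a < u} 1 := by
    ext u
    simp [Set.indicator]
  have hm : MeasurableSet {u : ℝ | a < u} := measurableSet_Ioi
  rw [e, lintegral_indicator_one hm]

end Pool.Agent.BSP
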