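import Pool.Agent.BSP.BMarkov
import Pool.Agent.BSP.LIx
import Pool.Agent.BSP.Law

set_option autoImplicit false

/-!
# The pieces between independent exponential times are independent
-/

namespace Pool.Agent.BSP

open MeasureTheory ProbabilityTheory Set Filter
open scoped ENNReal NNReal Topology

variable {Ω : Type*} [MeasurableSpace Ω] {P : Measure Ω}

/-- the law of the piece of Brownian motion up to an independent exponential time -/
noncomputable def law3 (C : ℝ≥0 → Ω → ℝ) (P : Measure Ω) (Λ : ℝ) : Measure Pc3 :=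
  (P.prod (expMeasure Λ)).map fun q => (dW (pth C q.1) 0 q.2, uW (pth C q.1) 0 q.2, q.2, true)

/-! ### Measurability of a piece -/

/-- the piece of the path `pth C ω` over `[a, a + τ]` -/
private noncomputable def bpx (C : ℝ≥0 → Ω → ℝ) (ω : Ω) (a τ : ℝ) : Pc3 :=
  (dW (pth C ω) a τ, uW (pth C ω) a τ, τ, true)

private theorem bpx_meas3 {C : ℝ≥0 → Ω → ℝ} (h : BM C P) :
    Measurable fun q : Ω × ℝ × ℝ => bpx C q.1 q.2.1 q.2.2 := by
  have h1 := meas_mn h.meas h.cont
  have h2 := meas_pth h.meas h.cont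
  have h3 : Measurable fun q : Ω × ℝ × ℝ => pth C q.1 q.2.1 :=
    h2.comp (measurable_fst.prodMk (measurable_fst.comp measurable_snd))
  have h4 : Measurable fun q : Ω × ℝ × ℝ => pth C q.1 (q.2.1 + q.2.2) :=
    h2.comp (measurable_fst.prodMk ((measurable_fst.comp measurable_snd).add
      (measurable_snd.comp measurable_snd)))
  unfold bpx dW uW
  exact (h3.sub h1).prodMk ((h4.sub h1).prodMk
    ((measurable_snd.comp measurable_snd).prodMk measurable_const))

private theorem bpx_meas {C : ℝ≥0 → Ω → ℝ} (h : BM C P) (a : ℝ) :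
    Measurable fun q : Ω × ℝ => bpx C q.1 a q.2 :=
  (bpx_meas3 h).comp (measurable_fst.prodMk (measurable_const.prodMk measurable_snd))

private theorem bpx_meas' {C : ℝ≥0 → Ω → ℝ} (h : BM C P) (a : ℝ) :
    Measurable fun q : Ω × ℝ => ((dW (pth C q.1) a q.2, uW (pth C q.1) a q.2, q.2, true) : Pc3) :=
  bpx_meas h a

theorem law3_prob {C : ℝ≥0 → Ω → ℝ} (h : BM C P) {Λ : ℝ} (hΛ : 0 < Λ) :
    IsProbabilityMeasure (law3 C P Λ) := by
  have := h.prob
  have := isProbabilityMeasure_expMeasure hΛ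
  exact Measure.isProbabilityMeasure_map (bpx_meas h 0).aemeasurable

theorem law3_T {C : ℝ≥0 → Ω → ℝ} (h : BM C P) {Λ : ℝ} (hΛ : 0 < Λ) :
    (law3 C P Λ).map (fun x => x.2.2.1) = expMeasure Λ := by
  have := h.prob
  have := isProbabilityMeasure_expMeasure hΛ
  unfold law3
  rw [Measure.map_map (by fun_prop) (bpx_meas' h 0)]
  have h1 : ((fun x : Pc3 => x.2.2.1) ∘ fun q : Ω × ℝ =>
      (dW (pth C q.1) 0 q.2, uW (pth C q.1) 0 q.2, q.2, true)) = Prod.snd := by
    funext q
    rfl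
  rw [h1, Measure.map_snd_prod]
  simp

private theorem bp_swap {C : ℝ≥0 → Ω → ℝ} (h : BM C P) {Λ : ℝ} (hΛ : 0 < Λ) {f : Ω → ℝ → ℝ≥0∞}
    (hf : Measurable fun q : Ω × ℝ => f q.1 q.2) :
    ∫⁻ ω, ∫⁻ τ, f ω τ ∂(expMeasure Λ) ∂P = ∫⁻ τ, ∫⁻ ω, f ω τ ∂P ∂(expMeasure Λ) := by
  have := h.prob
  have := isProbabilityMeasure_expMeasure hΛ
  exact lintegral_lintegral_swap hf.aemeasurable

theorem law3_lintegral {C : ℝ≥0 → Ω → ℝ} (h : BM C P) {Λ : ℝ} (hΛ : 0 < Λ) {F : Pc3 → ℝ≥0∞}
    (hF : Measurable F) {a : ℝ} (ha : 0 ≤ a) :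
    ∫⁻ x, F x ∂(law3 C P Λ) =
      ∫⁻ ω, ∫⁻ τ, F (dW (pth C ω) a τ, uW (pth C ω) a τ, τ, true) ∂(expMeasure Λ) ∂P := by
  have := h.prob
  have := isProbabilityMeasure_expMeasure hΛ
  have hF0 : Measurable fun q : Ω × ℝ =>
      F (dW (pth C q.1) 0 q.2, uW (pth C q.1) 0 q.2, q.2, true) := hF.comp (bpx_meas' h 0)
  unfold law3
  rw [lintegral_map hF (bpx_meas' h 0), lintegral_prod _ hF0.aemeasurable]
  rw [bp_swap h hΛ (f := fun ω τ => F (dW (pth C ω) 0 τ, uW (pth C ω) 0 τ, τ, true))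
    (hF.comp (bpx_meas' h 0)),
    bp_swap h hΛ (f := fun ω τ => F (dW (pth C ω) a τ, uW (pth C ω) a τ, τ, true))
    (hF.comp (bpx_meas' h a))]
  refine lintegral_congr_ae ?_
  filter_upwards [exp_pos_ae hΛ] with τ hτ
  have hF' : MF fun l : List Pc3 => F (l.headD (0, 0, 0, true)) := by
    intro n
    cases n with
    | zero =>
      have : (fun v : Fin 0 → Pc3 => F ((List.ofFn v).headD (0, 0, 0, true))) =
          fun _ => F (0, 0, 0, true) := by
        funext v
        simp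
      rw [this]
      exact measurable_const
    | succ n =>
      have : (fun v : Fin (n + 1) → Pc3 => F ((List.ofFn v).headD (0, 0, 0, true))) =
          fun v => F (v 0) := by
        funext v
        rw [List.ofFn_succ]
        rfl
      rw [this]
      exact hF.comp (measurable_pi_apply 0)
  have h1 := pcs_stat h hF' (v := [τ]) (by simpa using hτ.le) ha
  exact h1.symm

/-! ### Independence of the pieces -/

private theorem bp_cons {F : List Pc3 → ℝ≥0∞} (hF : MF F) :
    MF2 fun (x : Pc3) (l : List Pc3) => F (x :: l) := by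
  have h1 : MF2 fun (q : Unit × Pc3) l => F (q.2 :: l) := (hF.mf2 (γ := Unit)).cons
  exact h1.comp_left (k := fun x => ((), x)) (measurable_const.prodMk measurable_id)

/-- joint measurability of the piece and of the pieces after it -/
private theorem bp_joint {C : ℝ≥0 → Ω → ℝ} (h : BM C P) {F : List Pc3 → ℝ≥0∞} (hF : MF F)
    (a : ℝ) : MF2 fun (q : Pc3 × Ω × ℝ) v => F (q.1 :: pcs (pth C q.2.1) (a + q.2.2) v) :=
  (meas_pcs h.meas h.cont (bp_cons hF)).comp_left
    (k := fun q : Pc3 × Ω × ℝ => (q.1, q.2.1, a + q.2.2))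
    (measurable_fst.prodMk ((measurable_fst.comp measurable_snd).prodMk
      (measurable_const.add (measurable_snd.comp measurable_snd))))

/-- the pieces are independent: induction on `n` with `pcs_markov` -/
theorem bm_LI {C : ℝ≥0 → Ω → ℝ} (h : BM C P) {Λ : ℝ} (hΛ : 0 < Λ) {F : List Pc3 → ℝ≥0∞}
    (hF : MF F) {a : ℝ} (ha : 0 ≤ a) (n : ℕ) :
    ∫⁻ ω, LI (expMeasure Λ) n (fun v => F (pcs (pth C ω) a v)) ∂P = LI (law3 C P Λ) n F := by
  have := h.prob
  have := isProbabilityMeasure_expMeasure hΛ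
  have := law3_prob h hΛ
  induction n generalizing F a with
  | zero =>
    simp [LI, pcs]
  | succ n ih =>
    have hj := bp_joint h hF a
    -- the function of the first piece
    have hG : Measurable fun x : Pc3 => LI (law3 C P Λ) n (fun l => F (x :: l)) :=
      MF2.meas_LI (law3 C P Λ) (bp_cons hF) n
    have e1 : ∫⁻ ω, LI (expMeasure Λ) (n + 1) (fun v => F (pcs (pth C ω) a v)) ∂P =
        ∫⁻ ω, ∫⁻ τ, LI (expMeasure Λ) n (fun v => F (bpx C ω a τ :: pcs (pth C ω) (a + τ) v))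
          ∂(expMeasure Λ) ∂P := rfl
    have hm1 : Measurable fun q : Ω × ℝ => LI (expMeasure Λ) n
        (fun v => F (bpx C q.1 a q.2 :: pcs (pth C q.1) (a + q.2) v)) :=
      (MF2.meas_LI (expMeasure Λ) hj n).comp ((bpx_meas h a).prodMk measurable_id)
    have hm2 : Measurable fun q : Ω × ℝ => LI (law3 C P Λ) n (fun l => F (bpx C q.1 a q.2 :: l)) :=
      hG.comp (bpx_meas h a)
    rw [e1, bp_swap h hΛ hm1]
    have e2 : LI (law3 C P Λ) (n + 1) F =
        ∫⁻ x, LI (law3 C P Λ) n (fun l => F (x :: l)) ∂(law3 C P Λ) := rfl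
    rw [e2, law3_lintegral h hΛ hG ha]
    have e3 : ∫⁻ ω, ∫⁻ τ, LI (law3 C P Λ) n (fun l => F ((dW (pth C ω) a τ, uW (pth C ω) a τ, τ,
        true) :: l)) ∂(expMeasure Λ) ∂P =
        ∫⁻ τ, ∫⁻ ω, LI (law3 C P Λ) n (fun l => F (bpx C ω a τ :: l)) ∂P ∂(expMeasure Λ) :=
      bp_swap h hΛ hm2
    rw [e3]
    refine lintegral_congr_ae ?_
    filter_upwards [exp_pos_ae hΛ] with τ hτ
    -- fixed duration of the first piece
    have hx : Measurable fun ω : Ω => bpx C ω a τ :=
      (bpx_meas h a).comp (measurable_id.prodMk measurable_const)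
    have hj2 : MF2 fun (q : Pc3 × Ω) v => F (q.1 :: pcs (pth C q.2) (a + τ) v) :=
      hj.comp_left (k := fun q : Pc3 × Ω => (q.1, q.2, τ))
        (measurable_fst.prodMk (measurable_snd.prodMk measurable_const))
    have hj1 : MF2 fun (ω : Ω) v => F (bpx C ω a τ :: pcs (pth C ω) (a + τ) v) :=
      hj2.comp_left (k := fun ω : Ω => (bpx C ω a τ, ω)) (hx.prodMk measurable_id)
    have hj3 : MF2 fun (q : Ω × Ω) v => F (bpx C q.1 a τ :: pcs (pth C q.2) (a + τ) v) :=
      hj2.comp_left (k := fun q : Ω × Ω => (bpx C q.1 a τ, q.2))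
        ((hx.comp measurable_fst).prodMk measurable_snd)
    have hj4 : MF2 fun (ω : Ω) v => ∫⁻ ω', F (bpx C ω a τ :: pcs (pth C ω') (a + τ) v) ∂P := by
      intro m
      have h1 : Measurable (fun r : (Ω × (Fin m → ℝ)) × Ω =>
          F (bpx C r.1.1 a τ :: pcs (pth C r.2) (a + τ) (List.ofFn r.1.2))) :=
        (hj3 m).comp (((measurable_fst.comp measurable_fst).prodMk measurable_snd).prodMk
          (measurable_snd.comp measurable_fst))
      exact h1.lintegral_prod_right'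
    rw [LI_swap (expMeasure Λ) (μ := P) hj1 n]
    have e4 : LI (expMeasure Λ) n (fun v => ∫⁻ ω, F (bpx C ω a τ :: pcs (pth C ω) (a + τ) v) ∂P) =
        LI (expMeasure Λ) n (fun v => ∫⁻ ω, ∫⁻ ω', F (bpx C ω a τ :: pcs (pth C ω') (a + τ) v)
          ∂P ∂P) := by
      refine LI_congr_ae (expMeasure Λ) (exp_pos_ae hΛ) ?_
      intro v _ hv
      exact pcs_markov h (F := fun x l => F (x :: l)) (bp_cons hF) hτ.le
        (fun τ' hτ' => (hv τ' hτ').le) ha
    rw [e4, ← LI_swap (expMeasure Λ) (μ := P) hj4 n]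
    refine lintegral_congr fun ω => ?_
    have hj5 : MF2 fun (ω' : Ω) v => F (bpx C ω a τ :: pcs (pth C ω') (a + τ) v) :=
      hj3.comp_left (k := fun ω' : Ω => (ω, ω')) (measurable_const.prodMk measurable_id)
    rw [← LI_swap (expMeasure Λ) (μ := P) hj5 n]
    exact ih ((bp_cons hF).mf (bpx C ω a τ)) (by linarith)

end Pool.Agent.BSP
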