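import Pool.Agent.BSP.GWDefs

set_option autoImplicit false

/-!
# Concatenation of pieces
-/

namespace Pool.Agent.BSP

open MeasureTheory ProbabilityTheory
open scoped ENNReal

/-- total displacement -/
def tot : List Pc → ℝ
  | [] => 0
  | x :: l => pU x - pD x + tot l

/-- depth of the minimum of the concatenation below the start -/
noncomputable def dn : List Pc → ℝ
  | [] => 0
  | [x] => pD x
  | x :: y :: l => max (pD x) (pD x - pU x + dn (y :: l))

/-- height of the end of the concatenation above the minimum -/
noncomputable def up : List Pc → ℝ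
  | [] => 0
  | [x] => pU x
  | x :: y :: l => max (pU x + tot (y :: l)) (up (y :: l))

/-- duration of the concatenation -/
def dur : List Pc → ℝ
  | [] => 0
  | x :: l => pT x + dur l

open Classical in
/-- sign of the minimum of the concatenation -/
noncomputable def sg : List Pc → Bool
  | [] => true
  | [x] => pS x
  | x :: y :: l => if pD x - pU x + dn (y :: l) ≤ pD x then pS x else sg (y :: l)

/-- there is an excursion above the minimum of one of the pieces which contains `N` marked
cherries in increasing position -/
def HasGood (N : ℕ) (l : List Pc) : Prop :=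
  ∃ (l1 : List Pc) (x : Pc) (l2 : List Pc) (y : Pc) (l3 : List Pc) (t : Tr),
    l = l1 ++ x :: (l2 ++ y :: l3) ∧ Exc (pU x) l2 (pD y) 0 ∧ HasShape t (mins (pU x) l2) ∧
      N ≤ t.valX

open Classical in
/-- remove the marks of the short pieces -/
noncomputable def thin (r : ℝ) (x : Pc) : Pc :=
  (pD x, pU x, pT x, pX x && decide (r ≤ pT x), pS x)

open Classical in
/-- the concatenation as a piece; it is marked if there is a good excursion -/
noncomputable def cat (N : ℕ) (r : ℝ) (l : List Pc) : Pc :=
  (dn l, up l, dur l, decide (HasGood N (l.map (thin r))), sg l)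

theorem up_eq {l : List Pc} (hl : l ≠ []) : up l = tot l + dn l := by
  induction l with
  | nil => exact absurd rfl hl
  | cons x l ih =>
    cases l with
    | nil => simp only [up, tot, dn]; ring
    | cons y l =>
      have h := ih (List.cons_ne_nil y l)
      simp only [up, dn]
      rw [h]
      have e : tot (x :: y :: l) = pU x - pD x + tot (y :: l) := rfl
      rw [e, ← max_add_add_left]
      congr 1 <;> ring

theorem dn_mins {l : List Pc} (hl : l ≠ []) (u : ℝ) :
    (∀ z ∈ mins u l, u - dn l ≤ z.1) ∧ ∃ z ∈ mins u l, z.1 = u - dn l := by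
  induction l generalizing u with
  | nil => exact absurd rfl hl
  | cons x l ih =>
    cases l with
    | nil =>
      refine ⟨fun z hz => ?_, (u - pD x, pS x, pX x), ?_, rfl⟩
      · simp only [mins, List.mem_singleton] at hz
        rw [hz]
        exact le_refl _
      · simp [mins]
    | cons y l =>
      obtain ⟨h1, z0, h2, h3⟩ := ih (List.cons_ne_nil y l) (u - pD x + pU x)
      have e : mins u (x :: y :: l) =
        (u - pD x, pS x, pX x) :: mins (u - pD x + pU x) (y :: l) := rfl
      have ed : dn (x :: y :: l) = max (pD x) (pD x - pU x + dn (y :: l)) := rfl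
      rw [e, ed]
      constructor
      · intro z hz
        rcases List.mem_cons.1 hz with hz | hz
        · rw [hz]
          have := le_max_left (pD x) (pD x - pU x + dn (y :: l))
          simp only
          linarith
        · have := h1 z hz
          have := le_max_right (pD x) (pD x - pU x + dn (y :: l))
          linarith
      · rcases le_total (pD x) (pD x - pU x + dn (y :: l)) with h | h
        · refine ⟨z0, List.mem_cons_of_mem _ h2, ?_⟩
          rw [max_eq_right h, h3]
          ring
        · refine ⟨(u - pD x, pS x, pX x), List.mem_cons_self, ?_⟩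
          rw [max_eq_left h]

theorem pos_eq (u : ℝ) (l : List Pc) : pos u l = u + tot l := by
  induction l generalizing u with
  | nil => simp [pos, tot]
  | cons x l ih =>
    simp only [pos, tot]
    rw [ih]
    ring

/-- reversal exchanges depth and height -/
theorem dn_rev {l : List Pc} : dn (l.map swp).reverse = up l := by
  rcases eq_or_ne l [] with rfl | hl
  · rfl
  have hl' : (l.map swp).reverse ≠ [] := by
    simpa using hl
  obtain ⟨a1, z1, a2, a3⟩ := dn_mins hl' 0
  obtain ⟨b1, w1, b2, b3⟩ := dn_mins hl 0
  have hu := up_eq hl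
  have hp := pos_eq 0 l
  rw [mins_rev 0 0 l] at a1 a2
  have c1 : 0 - dn (l.map swp).reverse ≤ w1.1 - (pos 0 l - 0) := by
    refine a1 (w1.1 - (pos 0 l - 0), w1.2) ?_
    rw [List.mem_reverse, List.mem_map]
    exact ⟨w1, b2, rfl⟩
  rw [List.mem_reverse, List.mem_map] at a2
  obtain ⟨z2, c2, c3⟩ := a2
  have c4 := b1 z2 c2
  have c5 : z1.1 = z2.1 - (pos 0 l - 0) := by rw [← c3]
  linarith

/-! ### Measurability -/

private theorem meas_ind_iff {δ : Type*} [MeasurableSpace δ] {P : δ → Prop} :
    Measurable (fun z => ind (P z)) ↔ MeasurableSet {z | P z} := by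
  classical
  constructor
  · intro h
    have h1 := h (measurableSet_singleton (1 : ℝ≥0∞))
    have : (fun z => ind (P z)) ⁻¹' {1} = {z | P z} := by
      ext z
      simp only [Set.mem_preimage, Set.mem_singleton_iff, Set.mem_ofPred_eq, ind]
      by_cases hz : P z <;> simp [hz]
    rwa [this] at h1
  · intro h
    unfold ind
    exact Measurable.ite h measurable_const measurable_const

private theorem meas_tail' {n : ℕ} :
    Measurable (fun (v : Fin (n + 1) → Pc) => (fun i : Fin n => v i.succ)) :=
  measurable_pi_lambda _ fun i => measurable_pi_apply i.succ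

private theorem MF_rec1 {β : Type*} [MeasurableSpace β] {F : List Pc → β} {g : Pc → β}
    {h : Pc × β → β} (hg : Measurable g) (hh : Measurable h) (h1 : ∀ x, F [x] = g x)
    (h2 : ∀ x y l, F (x :: y :: l) = h (x, F (y :: l))) : MF F := by
  intro n
  cases n with
  | zero =>
    have : (fun v : Fin 0 → Pc => F (List.ofFn v)) = fun _ => F [] := by
      funext v; simp
    rw [this]
    exact measurable_const
  | succ n =>
    induction n with
    | zero =>
      have : (fun v : Fin (0 + 1) → Pc => F (List.ofFn v)) = g ∘ fun v => v 0 := by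
        funext v
        simp only [Function.comp_apply, List.ofFn_succ]
        rw [← h1]
        simp
      rw [this]
      exact hg.comp (measurable_pi_apply 0)
    | succ n ih =>
      have : (fun v : Fin (n + 1 + 1) → Pc => F (List.ofFn v)) =
          h ∘ fun v => (v 0, (fun w : Fin (n + 1) → Pc => F (List.ofFn w))
            (fun i => v i.succ)) := by
        funext v
        simp only [Function.comp_apply]
        rw [List.ofFn_succ (f := v), List.ofFn_succ (f := fun i => v i.succ), h2]
      rw [this]
      exact hh.comp ((measurable_pi_apply 0).prodMk (ih.comp meas_tail'))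

private theorem measD : Measurable pD := measurable_fst
private theorem measU : Measurable pU := measurable_fst.comp measurable_snd
private theorem measT : Measurable pT :=
  measurable_fst.comp (measurable_snd.comp measurable_snd)
private theorem measX : Measurable pX :=
  measurable_fst.comp (measurable_snd.comp (measurable_snd.comp measurable_snd))
private theorem measS : Measurable pS :=
  measurable_snd.comp (measurable_snd.comp (measurable_snd.comp measurable_snd))

/-! ### Countability of the set of shapes -/

private def encTr : Tr → ℕ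
  | .leaf => 0
  | .cherry s x => 2 * (Nat.pair s.toNat x.toNat) + 1
  | .node s l r => 2 * (Nat.pair s.toNat (Nat.pair (encTr l) (encTr r))) + 2

private theorem toNat_inj {a b : Bool} (h : a.toNat = b.toNat) : a = b := by
  cases a <;> cases b <;> simp_all

private theorem encTr_inj : Function.Injective encTr := by
  intro a
  induction a with
  | leaf =>
    intro b h
    cases b with
    | leaf => rfl
    | cherry s x => simp only [encTr] at h; omega
    | node s l r => simp only [encTr] at h; omega
  | cherry s x =>
    intro b h
    cases b with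
    | leaf => simp only [encTr] at h; omega
    | cherry s' x' =>
      simp only [encTr] at h
      have h1 : Nat.pair s.toNat x.toNat = Nat.pair s'.toNat x'.toNat := by omega
      obtain ⟨h2, h3⟩ := Nat.pair_eq_pair.1 h1
      rw [toNat_inj h2, toNat_inj h3]
    | node s' l r => simp only [encTr] at h; omega
  | node s l r ihl ihr =>
    intro b h
    cases b with
    | leaf => simp only [encTr] at h; omega
    | cherry s' x' => simp only [encTr] at h; omega
    | node s' l' r' =>
      simp only [encTr] at h
      have h1 : Nat.pair s.toNat (Nat.pair (encTr l) (encTr r)) =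
        Nat.pair s'.toNat (Nat.pair (encTr l') (encTr r')) := by omega
      obtain ⟨h2, h3⟩ := Nat.pair_eq_pair.1 h1
      obtain ⟨h4, h5⟩ := Nat.pair_eq_pair.1 h3
      rw [toNat_inj h2, ihl h4, ihr h5]

private theorem countable_Tr : Countable Tr := encTr_inj.countable

/-! ### Good excursions -/

private theorem hasGood_ofFn (N n : ℕ) (v : Fin n → Pc) : HasGood N (List.ofFn v) ↔
    ∃ (i j : ℕ) (t : Tr) (h : i + 1 + j < n), N ≤ t.valX ∧
      (Exc (pU (v ⟨i, by omega⟩)) (List.ofFn fun a : Fin j => v ⟨i + 1 + a, by omega⟩)
        (pD (v ⟨i + 1 + j, h⟩)) 0 ∧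
      HasShape t (mins (pU (v ⟨i, by omega⟩))
        (List.ofFn fun a : Fin j => v ⟨i + 1 + a, by omega⟩))) := by
  constructor
  · rintro ⟨l1, x, l2, y, l3, t, hl, hE, hS, hN⟩
    have hlen : n = l1.length + 1 + l2.length + 1 + l3.length := by
      have := congrArg List.length hl
      simp only [List.length_ofFn, List.length_append, List.length_cons] at this
      omega
    have hget : ∀ (k : ℕ) (hk : k < n) (hk' : k < (l1 ++ x :: (l2 ++ y :: l3)).length),
        v ⟨k, hk⟩ = (l1 ++ x :: (l2 ++ y :: l3))[k] := by
      intro k hk hk'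
      have h0 : k < (List.ofFn v).length := by simpa using hk
      have h1 : (List.ofFn v)[k] = v ⟨k, hk⟩ := by simp
      rw [← h1]
      congr 1
    have hx : ∀ (h : l1.length < n), v ⟨l1.length, h⟩ = x := by
      intro h
      rw [hget _ h (by simp)]
      simp
    have hy : ∀ (h : l1.length + 1 + l2.length < n),
        v ⟨l1.length + 1 + l2.length, h⟩ = y := by
      intro h
      rw [hget _ h (by simp; omega)]
      rw [List.getElem_append_right (by omega)]
      have e : l1.length + 1 + l2.length - l1.length = l2.length + 1 := by omega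
      simp only [e, List.getElem_cons_succ]
      rw [List.getElem_append_right (le_refl _)]
      simp
    have hl2 : ∀ (h : ∀ a : Fin l2.length, l1.length + 1 + (a : ℕ) < n),
        (List.ofFn fun a : Fin l2.length => v ⟨l1.length + 1 + a, h a⟩) = l2 := by
      intro h
      apply List.ext_getElem
      · simp
      · intro k h1 h2
        rw [List.getElem_ofFn]
        simp only
        rw [hget _ _ (by simp; omega)]
        rw [List.getElem_append_right (by omega)]
        have e : l1.length + 1 + k - l1.length = k + 1 := by omega
        simp only [e, List.getElem_cons_succ]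
        rw [List.getElem_append_left h2]
    refine ⟨l1.length, l2.length, t, by omega, hN, ?_⟩
    rw [hx, hy, hl2]
    exact ⟨hE, hS⟩
  · rintro ⟨i, j, t, h, hN, hE, hS⟩
    refine ⟨(List.ofFn v).take i, v ⟨i, by omega⟩,
      List.ofFn fun a : Fin j => v ⟨i + 1 + a, by omega⟩, v ⟨i + 1 + j, h⟩,
      (List.ofFn v).drop (i + 1 + j + 1), t, ?_, hE, hS, hN⟩
    have h1 : (List.ofFn v).drop i = v ⟨i, by omega⟩ :: (List.ofFn v).drop (i + 1) := by
      rw [List.drop_eq_getElem_cons (by simp; omega)]
      simp
    have h2 : (List.ofFn v).drop (i + 1) =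
        (List.ofFn fun a : Fin j => v ⟨i + 1 + a, by omega⟩) ++
          (List.ofFn v).drop (i + 1 + j) := by
      have h3 : ((List.ofFn v).drop (i + 1)).take j =
          List.ofFn fun a : Fin j => v ⟨i + 1 + a, by omega⟩ := by
        apply List.ext_getElem
        · simp
          omega
        · intro k hk1 hk2
          simp
      rw [← h3]
      have h4 := (List.take_append_drop j ((List.ofFn v).drop (i + 1))).symm
      rw [List.drop_drop] at h4
      exact h4
    have h5 : (List.ofFn v).drop (i + 1 + j) =
        v ⟨i + 1 + j, h⟩ :: (List.ofFn v).drop (i + 1 + j + 1) := by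
      rw [List.drop_eq_getElem_cons (by simp; omega)]
      simp
    rw [← h5, ← h2, ← h1, List.take_append_drop]

theorem meas_hasGood (N : ℕ) : MF fun l => ind (HasGood N l) := by
  intro n
  rw [meas_ind_iff]
  have := countable_Tr
  have e : {v : Fin n → Pc | HasGood N (List.ofFn v)} =
      ⋃ (i : ℕ) (j : ℕ) (t : Tr) (h : i + 1 + j < n) (_ : N ≤ t.valX),
        {v : Fin n → Pc |
          Exc (pU (v ⟨i, by omega⟩)) (List.ofFn fun a : Fin j => v ⟨i + 1 + a, by omega⟩)
            (pD (v ⟨i + 1 + j, h⟩)) 0 ∧
          HasShape t (mins (pU (v ⟨i, by omega⟩))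
            (List.ofFn fun a : Fin j => v ⟨i + 1 + a, by omega⟩))} := by
    ext v
    simp only [Set.mem_iUnion, Set.mem_ofPred_eq]
    rw [hasGood_ofFn]
    constructor
    · rintro ⟨i, j, t, h, hN, hE⟩
      exact ⟨i, j, t, h, hN, hE⟩
    · rintro ⟨i, j, t, h, hN, hE⟩
      exact ⟨i, j, t, h, hN, hE⟩
  rw [e]
  refine MeasurableSet.iUnion fun i => MeasurableSet.iUnion fun j => MeasurableSet.iUnion fun t =>
    MeasurableSet.iUnion fun h => MeasurableSet.iUnion fun _ => ?_
  rw [← meas_ind_iff]
  have hm : Measurable fun v : Fin n → Pc =>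
      (((pU (v ⟨i, by omega⟩), pD (v ⟨i + 1 + j, h⟩), (0 : ℝ)) : ℝ × ℝ × ℝ),
        (fun a : Fin j => v ⟨i + 1 + a, by omega⟩)) := by
    refine Measurable.prodMk ?_ (measurable_pi_lambda _ fun a => measurable_pi_apply _)
    exact (measU.comp (measurable_pi_apply _)).prodMk
      ((measD.comp (measurable_pi_apply _)).prodMk measurable_const)
  exact (meas_exc_shape t j).comp hm

theorem meas_dn : MF dn := by
  refine MF_rec1 (g := pD) (h := fun q => max (pD q.1) (pD q.1 - pU q.1 + q.2)) measD ?_
    (fun _ => rfl) (fun _ _ _ => rfl)
  have h1 : Measurable fun q : Pc × ℝ => pD q.1 := measD.comp measurable_fst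
  have h2 : Measurable fun q : Pc × ℝ => pU q.1 := measU.comp measurable_fst
  exact h1.max ((h1.sub h2).add measurable_snd)

theorem meas_up : MF up := by
  have h : MF fun l => (up l, tot l) := by
    refine MF_rec1 (g := fun x => (pU x, pU x - pD x + 0))
      (h := fun q => (max (pU q.1 + q.2.2) q.2.1, pU q.1 - pD q.1 + q.2.2)) ?_ ?_
      (fun _ => rfl) (fun _ _ _ => rfl)
    · exact measU.prodMk ((measU.sub measD).add measurable_const)
    · have h1 : Measurable fun q : Pc × ℝ × ℝ => pD q.1 := measD.comp measurable_fst
      have h2 : Measurable fun q : Pc × ℝ × ℝ => pU q.1 := measU.comp measurable_fst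
      have h3 : Measurable fun q : Pc × ℝ × ℝ => q.2.1 := measurable_fst.comp measurable_snd
      have h4 : Measurable fun q : Pc × ℝ × ℝ => q.2.2 := measurable_snd.comp measurable_snd
      exact ((h2.add h4).max h3).prodMk ((h2.sub h1).add h4)
  intro n
  exact measurable_fst.comp (h n)

theorem meas_dur : MF dur := by
  refine MF_rec1 (g := fun x => pT x + 0) (h := fun q => pT q.1 + q.2)
    (measT.add measurable_const) ?_ (fun _ => rfl) (fun _ _ _ => rfl)
  exact (measT.comp measurable_fst).add measurable_snd

theorem meas_sg : MF sg := by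
  classical
  have h : MF fun l => (sg l, dn l) := by
    refine MF_rec1 (g := fun x => (pS x, pD x))
      (h := fun q => (if pD q.1 - pU q.1 + q.2.2 ≤ pD q.1 then pS q.1 else q.2.1,
        max (pD q.1) (pD q.1 - pU q.1 + q.2.2))) ?_ ?_
      (fun _ => rfl) (fun _ _ _ => ?_)
    · exact measS.prodMk measD
    · have h1 : Measurable fun q : Pc × Bool × ℝ => pD q.1 := measD.comp measurable_fst
      have h2 : Measurable fun q : Pc × Bool × ℝ => pU q.1 := measU.comp measurable_fst
      have h3 : Measurable fun q : Pc × Bool × ℝ => q.2.1 := measurable_fst.comp measurable_snd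
      have h4 : Measurable fun q : Pc × Bool × ℝ => q.2.2 := measurable_snd.comp measurable_snd
      have h5 : Measurable fun q : Pc × Bool × ℝ => pS q.1 := measS.comp measurable_fst
      refine Measurable.prodMk ?_ (h1.max ((h1.sub h2).add h4))
      exact Measurable.ite (measurableSet_le ((h1.sub h2).add h4) h1) h5 h3
    · simp only [sg, dn]
  intro n
  exact measurable_fst.comp (h n)

private theorem meas_and {δ : Type*} [MeasurableSpace δ] {f g : δ → Bool} (hf : Measurable f)
    (hg : Measurable g) : Measurable fun z => (f z && g z) := by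
  have h : Measurable fun q : Bool × Bool => (q.1 && q.2) := Measurable.of_discrete
  exact h.comp (hf.prodMk hg)

theorem meas_thin (r : ℝ) : Measurable (thin r) := by
  classical
  have h : Measurable fun x : Pc => decide (r ≤ pT x) := by
    refine measurable_to_bool ?_
    have : (fun x : Pc => decide (r ≤ pT x)) ⁻¹' {true} = {x | r ≤ pT x} := by
      ext x
      simp
    rw [this]
    exact measurableSet_le measurable_const measT
  refine measD.prodMk (measU.prodMk (measT.prodMk (Measurable.prodMk ?_ measS)))
  convert meas_and measX h using 2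

theorem meas_cat (N : ℕ) (r : ℝ) : MF (cat N r) := by
  classical
  intro n
  have h : MF fun l => ind (HasGood N (l.map (thin r))) :=
    (((meas_hasGood N).mf2 (γ := Unit)).map (meas_thin r)).mf ()
  have h1 : Measurable fun v : Fin n → Pc =>
      decide (HasGood N ((List.ofFn v).map (thin r))) := by
    refine measurable_to_bool ?_
    have : (fun v : Fin n → Pc => decide (HasGood N ((List.ofFn v).map (thin r)))) ⁻¹' {true} =
        {v | HasGood N ((List.ofFn v).map (thin r))} := by
      ext x
      simp
    rw [this, ← meas_ind_iff]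
    exact h n
  refine (meas_dn n).prodMk ((meas_up n).prodMk ((meas_dur n).prodMk
    (Measurable.prodMk ?_ (meas_sg n))))
  convert h1 using 2

/-- the law of the concatenation of a geometric number of independent pieces -/
noncomputable def catLaw (N : ℕ) (r κ : ℝ) (ρ : Measure Pc) : Measure Pc :=
  Measure.sum fun n : ℕ => ENNReal.ofReal (κ * (1 - κ) ^ n) •
    (Measure.pi fun _ : Fin (n + 1) => ρ).map fun v => cat N r (List.ofFn v)

theorem lintegral_catLaw (N : ℕ) (r κ : ℝ) (ρ : Measure Pc) [IsProbabilityMeasure ρ]
    {F : Pc → ℝ≥0∞} (hF : Measurable F) : ∫⁻ x, F x ∂(catLaw N r κ ρ) =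
      ∑' n : ℕ, ENNReal.ofReal (κ * (1 - κ) ^ n) * LI ρ (n + 1) (fun l => F (cat N r l)) := by
  rw [catLaw, lintegral_sum_measure]
  refine tsum_congr fun n => ?_
  rw [lintegral_smul_measure, smul_eq_mul, lintegral_map hF (meas_cat N r (n + 1))]
  congr 1
  rw [LI_pi ρ (F := fun l => F (cat N r l)) (fun m => hF.comp (meas_cat N r m)) (n + 1)]

theorem catLaw_prob (N : ℕ) (r : ℝ) {κ : ℝ} (h0 : 0 < κ) (h1 : κ ≤ 1) (ρ : Measure Pc)
    [IsProbabilityMeasure ρ] : IsProbabilityMeasure (catLaw N r κ ρ) := by
  constructor
  rw [← lintegral_one, lintegral_catLaw N r κ ρ measurable_const]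
  simp only [LI_const, mul_one]
  have h2 : 0 ≤ 1 - κ := by linarith
  have h3 : 1 - κ < 1 := by linarith
  rw [← ENNReal.ofReal_tsum_of_nonneg (fun n => mul_nonneg h0.le (pow_nonneg h2 n))
    ((summable_geometric_of_lt_one h2 h3).mul_left κ), tsum_mul_left,
    tsum_geometric_of_lt_one h2 h3]
  have : κ * (1 - (1 - κ))⁻¹ = 1 := by
    rw [sub_sub_cancel]
    exact mul_inv_cancel₀ h0.ne'
  rw [this, ENNReal.ofReal_one]

end Pool.Agent.BSP
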