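import Pool.Agent.BSP.CatDefs

set_option autoImplicit false

/-!
# The sign of the minimum of a concatenation is independent of everything else
-/

namespace Pool.Agent.BSP

open MeasureTheory ProbabilityTheory
open scoped ENNReal

open Classical in
/-- index of the (first) lowest minimum -/
noncomputable def lowIdx : List Pc → ℕ
  | [] => 0
  | [_] => 0
  | x :: y :: l => if pD x - pU x + dn (y :: l) ≤ pD x then 0 else lowIdx (y :: l) + 1

/-- change of the sign of a piece -/
def setS (x : Pc) (b : Bool) : Pc := (pD x, pU x, pT x, pX x, b)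

theorem lowIdx_lt {l : List Pc} (h : l ≠ []) : lowIdx l < l.length := by
  induction l with
  | nil => exact absurd rfl h
  | cons x l ih =>
    cases l with
    | nil => simp [lowIdx]
    | cons y l =>
      have h1 := ih (List.cons_ne_nil y l)
      simp only [lowIdx]
      split_ifs
      · simp
      · simp only [List.length_cons] at h1 ⊢
        omega

theorem sg_eq {l : List Pc} (h : l ≠ []) : sg l = (l.map pS).getD (lowIdx l) true := by
  induction l with
  | nil => exact absurd rfl h
  | cons x l ih =>
    cases l with
    | nil => simp [lowIdx, sg]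
    | cons y l =>
      have h1 := ih (List.cons_ne_nil y l)
      simp only [lowIdx, sg]
      split_ifs
      · simp
      · rw [h1]
        simp

/-! ### Lists which differ only in the signs -/

/-- two lists of pieces which agree up to the signs -/
private def CatSign_sim (l l' : List Pc) : Prop :=
  l.map (fun x => setS x true) = l'.map (fun x => setS x true)

private theorem CatSign_setS_inj {x y : Pc} (h : setS x true = setS y true) :
    pD x = pD y ∧ pU x = pU y ∧ pT x = pT y ∧ pX x = pX y := by
  simp only [setS, Prod.mk.injEq] at h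
  exact ⟨h.1, h.2.1, h.2.2.1, h.2.2.2.1⟩

private theorem CatSign_sim_cons {x : Pc} {l l' : List Pc} (h : CatSign_sim (x :: l) l') :
    ∃ (y : Pc) (l'' : List Pc), l' = y :: l'' ∧ setS x true = setS y true ∧ CatSign_sim l l'' := by
  cases l' with
  | nil => simp [CatSign_sim] at h
  | cons y l'' =>
    simp only [CatSign_sim, List.map_cons, List.cons.injEq] at h
    exact ⟨y, l'', rfl, h.1, h.2⟩

private theorem CatSign_sim_eqs {l l' : List Pc} (h : CatSign_sim l l') :
    dn l = dn l' ∧ up l = up l' ∧ dur l = dur l' ∧ tot l = tot l' ∧ lowIdx l = lowIdx l' := by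
  induction l generalizing l' with
  | nil =>
    have : l' = [] := by
      cases l' with
      | nil => rfl
      | cons y l'' => simp [CatSign_sim] at h
    rw [this]
    exact ⟨rfl, rfl, rfl, rfl, rfl⟩
  | cons x l ih =>
    obtain ⟨x', m, rfl, h1, h2⟩ := CatSign_sim_cons h
    obtain ⟨a1, a2, a3, a4⟩ := CatSign_setS_inj h1
    cases l with
    | nil =>
      have : m = [] := by
        cases m with
        | nil => rfl
        | cons y l'' => simp [CatSign_sim] at h2
      rw [this]
      simp only [dn, up, dur, tot, lowIdx, a1, a2, a3, and_self]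
    | cons y l =>
      obtain ⟨y', m', rfl, h3, h4⟩ := CatSign_sim_cons h2
      obtain ⟨b1, b2, b3, b4, b5⟩ := ih h2
      refine ⟨?_, ?_, ?_, ?_, ?_⟩
      · simp only [dn, a1, a2, b1]
      · simp only [up, a2, b2, b4]
      · have e1 : dur (x :: y :: l) = pT x + dur (y :: l) := rfl
        have e2 : dur (x' :: y' :: m') = pT x' + dur (y' :: m') := rfl
        rw [e1, e2, a3, b3]
      · have e1 : tot (x :: y :: l) = pU x - pD x + tot (y :: l) := rfl
        have e2 : tot (x' :: y' :: m') = pU x' - pD x' + tot (y' :: m') := rfl
        rw [e1, e2, a1, a2, b4]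
      · simp only [lowIdx, a1, a2, b1, b5]

private theorem CatSign_sim_modify (l : List Pc) (i : ℕ) (b : Bool) :
    CatSign_sim l (l.modify i fun x => setS x b) := by
  unfold CatSign_sim
  apply List.ext_getElem
  · simp
  · intro k h1 h2
    simp only [List.getElem_map, List.getElem_modify]
    split_ifs
    · rfl
    · rfl

/-- the value at the lowest index -/
private theorem CatSign_low {l : List Pc} (h : l ≠ []) (u : ℝ) :
    ∃ hl : lowIdx l < (mins u l).length, ((mins u l)[lowIdx l]'hl).1 = u - dn l := by
  induction l generalizing u with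
  | nil => exact absurd rfl h
  | cons x l ih =>
    cases l with
    | nil => exact ⟨by simp [mins, lowIdx], by simp [mins, lowIdx, dn]⟩
    | cons y l =>
      obtain ⟨h1, h2⟩ := ih (List.cons_ne_nil y l) (u - pD x + pU x)
      have e : mins u (x :: y :: l) =
        (u - pD x, pS x, pX x) :: mins (u - pD x + pU x) (y :: l) := rfl
      have ed : dn (x :: y :: l) = max (pD x) (pD x - pU x + dn (y :: l)) := rfl
      by_cases hc : pD x - pU x + dn (y :: l) ≤ pD x
      · have e0 : lowIdx (x :: y :: l) = 0 := by simp only [lowIdx, if_pos hc]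
        refine ⟨by rw [e0, e]; simp, ?_⟩
        simp only [e0, e, List.getElem_cons_zero, ed]
        rw [max_eq_left hc]
      · have e0 : lowIdx (x :: y :: l) = lowIdx (y :: l) + 1 := by simp only [lowIdx, if_neg hc]
        refine ⟨by rw [e0, e, List.length_cons]; omega, ?_⟩
        simp only [e0, e, List.getElem_cons_succ, ed]
        rw [h2, max_eq_right (not_le.1 hc).le]
        ring

/-- the lowest minimum is not inside an excursion above another minimum -/
private theorem CatSign_out {l1 l2 l3 : List Pc} {x y : Pc}
    (hE : ∀ z ∈ mins (pU x) l2, 0 < z.1) (k : ℕ) (hk : k < l2.length) :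
    lowIdx (l1 ++ x :: (l2 ++ y :: l3)) ≠ l1.length + 1 + k := by
  intro hi
  set L := l1 ++ x :: (l2 ++ y :: l3) with hL
  have hne : L ≠ [] := by rw [hL]; simp
  obtain ⟨h1, h2⟩ := CatSign_low hne 0
  obtain ⟨h3, -⟩ := dn_mins hne 0
  set p := pos 0 l1 with hp
  have e : mins 0 L = mins 0 l1 ++ (p - pD x, pS x, pX x) ::
      (mins (p - pD x + pU x) l2 ++ mins (pos (p - pD x + pU x) l2) (y :: l3)) := by
    rw [hL, mins_append, ← hp]
    simp only [mins, mins_append]
  have h4 := h3 (p - pD x, pS x, pX x) (by rw [e]; simp)
  have e2 : mins (p - pD x + pU x) l2 =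
      (mins (pU x) l2).map fun z => (z.1 + (p - pD x), z.2) := by
    rw [← mins_shift]
    congr 1
    ring
  have hlen2 : (mins (p - pD x + pU x) l2).length = l2.length := length_mins _ _
  have h5 : ((mins 0 L)[lowIdx L]'h1) ∈ mins (p - pD x + pU x) l2 := by
    have h6 : (mins 0 L)[lowIdx L]'h1 = (mins (p - pD x + pU x) l2)[k]'(by rw [hlen2]; exact hk) := by
      have hlen1 : (mins 0 l1).length = l1.length := length_mins _ _
      simp only [e]
      rw [List.getElem_append_right (by rw [hlen1, hi]; omega)]
      have e3 : lowIdx L - (mins 0 l1).length = k + 1 := by rw [hlen1, hi]; omega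
      simp only [e3, List.getElem_cons_succ]
      rw [List.getElem_append_left]
    rw [h6]
    exact List.getElem_mem _
  rw [e2] at h5
  obtain ⟨z, hz1, hz2⟩ := List.mem_map.1 h5
  have h7 := hE z hz1
  rw [← hz2] at h2
  simp only at h2 h4
  linarith

private theorem CatSign_modify_append {α : Type*} (f : α → α) (a c : List α) (i : ℕ) :
    (a ++ c).modify i f = if i < a.length then a.modify i f ++ c
      else a ++ c.modify (i - a.length) f := by
  induction a generalizing i with
  | nil => simp
  | cons x a ih =>
    cases i with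
    | zero => simp
    | succ i =>
      simp only [List.cons_append, List.modify_succ_cons, ih, List.length_cons,
        Nat.add_lt_add_iff_right, Nat.add_sub_add_right]
      split_ifs <;> rfl

private theorem CatSign_good_of {N : ℕ} {l : List Pc} {b : Bool} (h : HasGood N l) :
    HasGood N (l.modify (lowIdx l) fun x => setS x b) := by
  obtain ⟨l1, x, l2, y, l3, t, rfl, hE, hS, hN⟩ := h
  set i := lowIdx (l1 ++ x :: (l2 ++ y :: l3)) with hi
  have hout := fun k hk => CatSign_out (l1 := l1) (l3 := l3) (y := y) hE.1 k hk
  rw [← hi] at hout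
  rw [CatSign_modify_append]
  split_ifs with h1
  · exact ⟨_, x, l2, y, l3, t, rfl, hE, hS, hN⟩
  · rcases Nat.eq_zero_or_pos (i - l1.length) with h2 | h2
    · rw [h2, List.modify_zero_cons]
      exact ⟨l1, _, l2, y, l3, t, rfl, hE, hS, hN⟩
    · obtain ⟨j, hj⟩ : ∃ j, i - l1.length = j + 1 := ⟨i - l1.length - 1, by omega⟩
      rw [hj, List.modify_succ_cons, CatSign_modify_append]
      split_ifs with h3
      · exact absurd (by omega) (hout j h3)
      · rcases Nat.eq_zero_or_pos (j - l2.length) with h4 | h4
        · rw [h4, List.modify_zero_cons]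
          exact ⟨l1, x, l2, _, l3, t, rfl, hE, hS, hN⟩
        · obtain ⟨k, hk⟩ : ∃ k, j - l2.length = k + 1 := ⟨j - l2.length - 1, by omega⟩
          rw [hk, List.modify_succ_cons]
          exact ⟨l1, x, l2, y, _, t, rfl, hE, hS, hN⟩

private theorem CatSign_modify_self {l : List Pc} (h : l ≠ []) :
    l.modify (lowIdx l) (fun x => setS x (sg l)) = l := by
  apply List.ext_getElem
  · simp
  · intro k h1 h2
    rw [List.getElem_modify]
    split_ifs with h3
    · have e : sg l = pS l[k] := by
        rw [sg_eq h, h3, List.getD_eq_getElem _ _ (by simpa using h2)]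
        simp
      exact (congrArg (setS l[k]) e).trans rfl
    · rfl

private theorem CatSign_modify_twice (l : List Pc) (i : ℕ) (b b' : Bool) :
    (l.modify i fun x => setS x b).modify i (fun x => setS x b') =
      l.modify i fun x => setS x b' := by
  rw [List.modify_modify_eq]
  rfl

private theorem CatSign_good_iff {N : ℕ} {l : List Pc} (h : l ≠ []) (b : Bool) :
    HasGood N (l.modify (lowIdx l) fun x => setS x b) ↔ HasGood N l := by
  constructor
  · intro hg
    have h1 := CatSign_good_of (b := sg l) hg
    have e := (CatSign_sim_eqs (CatSign_sim_modify l (lowIdx l) b)).2.2.2.2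
    rw [← e, CatSign_modify_twice, CatSign_modify_self h] at h1
    exact h1
  · exact CatSign_good_of

private theorem CatSign_map_thin (r : ℝ) (l : List Pc) (i : ℕ) (b : Bool) :
    (l.modify i fun x => setS x b).map (thin r) =
      (l.map (thin r)).modify i fun x => setS x b := by
  apply List.ext_getElem
  · simp
  · intro k h1 h2
    simp only [List.getElem_map, List.getElem_modify]
    split_ifs
    · rfl
    · rfl

private theorem CatSign_dn_thin (r : ℝ) (l : List Pc) : dn (l.map (thin r)) = dn l := by
  induction l with
  | nil => rfl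
  | cons x l ih =>
    cases l with
    | nil => rfl
    | cons y l =>
      simp only [List.map_cons] at ih ⊢
      simp only [dn, ih]
      rfl

private theorem CatSign_low_thin (r : ℝ) (l : List Pc) : lowIdx (l.map (thin r)) = lowIdx l := by
  induction l with
  | nil => rfl
  | cons x l ih =>
    cases l with
    | nil => rfl
    | cons y l =>
      have h1 := CatSign_dn_thin r (y :: l)
      simp only [List.map_cons] at ih h1 ⊢
      simp only [lowIdx, ih, h1]
      rfl

/-- everything except `sg` does not depend on the sign of the lowest minimum -/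
theorem cat_modify (N : ℕ) (r : ℝ) {l : List Pc} (h : l ≠ []) (b : Bool) :
    cat N r (l.modify (lowIdx l) fun x => setS x b) = setS (cat N r l) b := by
  obtain ⟨a1, a2, a3, a4, a5⟩ := CatSign_sim_eqs (CatSign_sim_modify l (lowIdx l) b)
  have hne : (l.modify (lowIdx l) fun x => setS x b) ≠ [] := by
    intro h0
    have := congrArg List.length h0
    simp only [List.length_modify, List.length_nil] at this
    exact h (List.length_eq_zero_iff.1 this)
  have hs : sg (l.modify (lowIdx l) fun x => setS x b) = b := by
    rw [sg_eq hne, ← a5]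
    have hlt := lowIdx_lt h
    rw [List.getD_eq_getElem _ _ (by simpa using hlt)]
    simp only [List.getElem_map, List.getElem_modify, if_true]
    rfl
  have hg : HasGood N ((l.modify (lowIdx l) fun x => setS x b).map (thin r)) ↔
      HasGood N (l.map (thin r)) := by
    rw [CatSign_map_thin, ← CatSign_low_thin r l]
    exact CatSign_good_iff (by simpa using h) b
  unfold cat
  rw [← a1, ← a2, ← a3, hs]
  exact congrArg (fun z => (dn l, up l, dur l, z, b)) (decide_eq_decide.2 hg)

private theorem CatSign_bw_add {p : ℝ} (hp0 : 0 ≤ p) (hp1 : p ≤ 1) :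
    bw p true + bw p false = 1 := by
  unfold bw
  simp only [if_true, Bool.false_eq_true, if_false]
  rw [← ENNReal.ofReal_add hp0 (by linarith)]
  simp

private theorem CatSign_lintegral_berM (p : ℝ) (f : Bool → ℝ≥0∞) :
    ∫⁻ s, f s ∂(berM p) = bw p true * f true + bw p false * f false := by
  unfold berM
  rw [lintegral_add_measure, lintegral_smul_measure, lintegral_smul_measure, lintegral_dirac,
    lintegral_dirac]
  rfl

/-- independent signs: the sign at an index which depends only on the rest of the data is
independent of the functions which do not depend on this sign -/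
theorem LI_resample {β : Type*} [MeasurableSpace β] {p : ℝ} (hp0 : 0 ≤ p) (hp1 : p ≤ 1)
    {n j : ℕ} (hj : j < n) {G : List Bool → Bool → ℝ≥0∞}
    (hG : ∀ (c : List Bool) (b b' : Bool), c.length = n → G (c.set j b') b = G c b) :
    LI (berM p) n (fun c => G c (c.getD j true)) =
      bw p true * LI (berM p) n (fun c => G c true) +
      bw p false * LI (berM p) n (fun c => G c false) := by
  induction n generalizing j G with
  | zero => exact absurd hj (Nat.not_lt_zero j)
  | succ n ih =>
    simp only [LI, CatSign_lintegral_berM]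
    have hb := CatSign_bw_add hp0 hp1
    cases j with
    | zero =>
      simp only [List.getD_cons_zero]
      have e : ∀ b : Bool, LI (berM p) n (fun l => G (true :: l) b) =
          LI (berM p) n (fun l => G (false :: l) b) := by
        intro b
        refine LI_congr _ fun l hl => ?_
        have := hG (false :: l) b true (by simp [hl])
        simpa using this
      rw [e true, e false, ← add_mul, ← add_mul, hb, one_mul, one_mul]
    | succ j =>
      simp only [List.getD_cons_succ]
      have h1 : ∀ x : Bool, LI (berM p) n (fun l => G (x :: l) (l.getD j true)) =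
          bw p true * LI (berM p) n (fun l => G (x :: l) true) +
          bw p false * LI (berM p) n (fun l => G (x :: l) false) := by
        intro x
        refine ih (j := j) (G := fun l b => G (x :: l) b) (by omega) ?_
        intro c b b' hc
        have := hG (x :: c) b b' (by simp [hc])
        simpa using this
      rw [h1, h1]
      ring

private theorem CatSign_emb : Measurable fun q : (ℝ × ℝ × ℝ × Bool) × Bool =>
    ((q.1.1, q.1.2.1, q.1.2.2.1, q.1.2.2.2, q.2) : Pc) := by
  fun_prop

private theorem CatSign_lintegral_sgnProd (p : ℝ) (ρ' : Measure (ℝ × ℝ × ℝ × Bool))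
    {G : Pc → ℝ≥0∞} (hG : Measurable G) : ∫⁻ x, G x ∂(sgnProd p ρ') =
      ∫⁻ y, (bw p true * G (y.1, y.2.1, y.2.2.1, y.2.2.2, true) +
        bw p false * G (y.1, y.2.1, y.2.2.1, y.2.2.2, false)) ∂ρ' := by
  unfold sgnProd
  have hc : Measurable fun q : (ℝ × ℝ × ℝ × Bool) × Bool =>
      G (q.1.1, q.1.2.1, q.1.2.2.1, q.1.2.2.2, q.2) := hG.comp CatSign_emb
  rw [lintegral_map hG CatSign_emb, lintegral_prod _ hc.aemeasurable]
  refine lintegral_congr fun y => ?_
  exact CatSign_lintegral_berM p fun s => G (y.1, y.2.1, y.2.2.1, y.2.2.2, s)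

private theorem CatSign_MF_bool {F : List Bool → ℝ≥0∞} : MF F := by
  intro n
  exact Measurable.of_discrete

private theorem CatSign_key (N : ℕ) (r : ℝ) {p : ℝ} (hp0 : 0 ≤ p) (hp1 : p ≤ 1)
    {ρ : Measure (ℝ × ℝ × ℝ × Bool)} [IsProbabilityMeasure ρ] (n : ℕ) {G : Pc → ℝ≥0∞}
    (hG : Measurable G) :
    LI (sgnProd p ρ) (n + 1) (fun l => G (cat N r l)) =
      LI (sgnProd p ρ) (n + 1) (fun l => bw p true * G (setS (cat N r l) true) +
        bw p false * G (setS (cat N r l) false)) := by
  have := berM_prob hp0 hp1
  have hset : ∀ b : Bool, Measurable fun x : Pc => setS x b := by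
    intro b
    unfold setS pD pU pT pX
    fun_prop
  have hF1 : MF fun l => G (cat N r l) := fun m => hG.comp (meas_cat N r m)
  have hF2 : MF fun l => bw p true * G (setS (cat N r l) true) +
      bw p false * G (setS (cat N r l) false) := by
    intro m
    exact ((hG.comp ((hset true).comp (meas_cat N r m))).const_mul _).add
      ((hG.comp ((hset false).comp (meas_cat N r m))).const_mul _)
  unfold sgnProd
  rw [LI_map CatSign_emb hF1, LI_map CatSign_emb hF2]
  have hmap : ∀ {F : List Pc → ℝ≥0∞}, MF F → MF fun l : List ((ℝ × ℝ × ℝ × Bool) × Bool) =>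
      F (l.map fun q => (q.1.1, q.1.2.1, q.1.2.2.1, q.1.2.2.2, q.2)) := by
    intro F hF
    exact ((hF.mf2 (γ := Unit)).map CatSign_emb).mf ()
  rw [LI_prod ρ (hmap hF1), LI_prod ρ (hmap hF2)]
  refine LI_congr _ fun l hl => ?_
  set E : (ℝ × ℝ × ℝ × Bool) × Bool → Pc :=
    fun q => (q.1.1, q.1.2.1, q.1.2.2.1, q.1.2.2.2, q.2) with hE
  set j := lowIdx (l.map fun y => E (y, true)) with hj
  have hjlt : j < n + 1 := by
    have := lowIdx_lt (l := l.map fun y => E (y, true)) (by
      intro h0
      have := congrArg List.length h0
      simp [hl] at this)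
    rw [List.length_map, hl] at this
    exact this
  have hlow : ∀ c : List Bool, c.length = n + 1 → lowIdx ((l.zip c).map E) = j := by
    intro c hc
    have hsim : CatSign_sim (l.map fun y => E (y, true)) ((l.zip c).map E) := by
      unfold CatSign_sim
      apply List.ext_getElem
      · simp [hl, hc]
      · intro k h1 h2
        simp only [List.getElem_map, List.getElem_zip]
        rfl
    exact ((CatSign_sim_eqs hsim).2.2.2.2).symm
  have hne : ∀ c : List Bool, c.length = n + 1 → (l.zip c).map E ≠ [] := by
    intro c hc h0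
    have := congrArg List.length h0
    simp [hl, hc] at this
  have hsg : ∀ c : List Bool, c.length = n + 1 → sg ((l.zip c).map E) = c.getD j true := by
    intro c hc
    rw [sg_eq (hne c hc), hlow c hc]
    congr 1
    apply List.ext_getElem
    · simp [hl, hc]
    · intro k h1 h2
      simp only [List.getElem_map, List.getElem_zip]
      rfl
  have hmod : ∀ (c : List Bool) (b : Bool), c.length = n + 1 →
      (l.zip (c.set j b)).map E = ((l.zip c).map E).modify j fun x => setS x b := by
    intro c b hc
    apply List.ext_getElem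
    · simp
    · intro k h1 h2
      simp only [List.getElem_map, List.getElem_zip, List.getElem_modify, List.getElem_set]
      split_ifs
      · rfl
      · rfl
  have hres := LI_resample (β := Bool) hp0 hp1 (n := n + 1) (j := j) hjlt
    (G := fun c b => G (setS (cat N r ((l.zip c).map E)) b)) (by
      intro c b b' hc
      rw [hmod c b' hc, ← hlow c hc, cat_modify N r (hne c hc)]
      rfl)
  have e1 : LI (berM p) (n + 1) (fun c => G (cat N r ((l.zip c).map E))) =
      LI (berM p) (n + 1) (fun c => G (setS (cat N r ((l.zip c).map E)) (c.getD j true))) := by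
    refine LI_congr _ fun c hc => ?_
    rw [← hsg c hc]
    rfl
  have e2 : LI (berM p) (n + 1) (fun c =>
      bw p true * G (setS (cat N r ((l.zip c).map E)) true) +
        bw p false * G (setS (cat N r ((l.zip c).map E)) false)) =
      bw p true * LI (berM p) (n + 1) (fun c => G (setS (cat N r ((l.zip c).map E)) true)) +
      bw p false * LI (berM p) (n + 1) (fun c => G (setS (cat N r ((l.zip c).map E)) false)) := by
    rw [LI_add _ CatSign_MF_bool CatSign_MF_bool, LI_const_mul _ _ CatSign_MF_bool,
      LI_const_mul _ _ CatSign_MF_bool]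
  rw [e1, hres, ← e2]

theorem catLaw_sgn (N : ℕ) (r : ℝ) {p κ : ℝ} (hp0 : 0 ≤ p) (hp1 : p ≤ 1) (hκ0 : 0 < κ)
    (hκ1 : κ ≤ 1) {ρ : Measure (ℝ × ℝ × ℝ × Bool)} [IsProbabilityMeasure ρ] :
    ∃ ρ' : Measure (ℝ × ℝ × ℝ × Bool), IsProbabilityMeasure ρ' ∧
      catLaw N r κ (sgnProd p ρ) = sgnProd p ρ' := by
  have hbp := berM_prob hp0 hp1
  have hsp : IsProbabilityMeasure (sgnProd p ρ) := by
    unfold sgnProd
    exact Measure.isProbabilityMeasure_map CatSign_emb.aemeasurable
  have hcp := catLaw_prob N r hκ0 hκ1 (sgnProd p ρ)
  have hπ : Measurable fun x : Pc => (pD x, pU x, pT x, pX x) := by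
    unfold pD pU pT pX
    fun_prop
  have hset : ∀ b : Bool, Measurable fun x : Pc => setS x b := by
    intro b
    unfold setS pD pU pT pX
    fun_prop
  refine ⟨(catLaw N r κ (sgnProd p ρ)).map fun x => (pD x, pU x, pT x, pX x),
    Measure.isProbabilityMeasure_map hπ.aemeasurable, ?_⟩
  have hρ' : IsProbabilityMeasure ((catLaw N r κ (sgnProd p ρ)).map
    fun x => (pD x, pU x, pT x, pX x)) := Measure.isProbabilityMeasure_map hπ.aemeasurable
  refine Measure.ext_of_lintegral _ fun G hG => ?_
  have hGs : ∀ b : Bool, Measurable fun x : Pc => G (setS x b) := fun b => hG.comp (hset b)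
  rw [CatSign_lintegral_sgnProd p _ hG]
  have hm : Measurable fun y : ℝ × ℝ × ℝ × Bool =>
      bw p true * G (y.1, y.2.1, y.2.2.1, y.2.2.2, true) +
        bw p false * G (y.1, y.2.1, y.2.2.1, y.2.2.2, false) := by
    have h1 : ∀ s : Bool, Measurable fun y : ℝ × ℝ × ℝ × Bool =>
        G (y.1, y.2.1, y.2.2.1, y.2.2.2, s) := fun s =>
      hG.comp (by fun_prop : Measurable fun y : ℝ × ℝ × ℝ × Bool =>
        ((y.1, y.2.1, y.2.2.1, y.2.2.2, s) : Pc))
    exact ((h1 true).const_mul _).add ((h1 false).const_mul _)
  rw [lintegral_map hm hπ]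
  have e : ∀ x : Pc, bw p true * G (pD x, pU x, pT x, pX x, true) +
      bw p false * G (pD x, pU x, pT x, pX x, false) =
      bw p true * G (setS x true) + bw p false * G (setS x false) := fun x => rfl
  simp only [e]
  have hm2 : Measurable fun x : Pc => bw p true * G (setS x true) + bw p false * G (setS x false) :=
    ((hGs true).const_mul _).add ((hGs false).const_mul _)
  rw [lintegral_catLaw N r κ _ hG, lintegral_catLaw N r κ _ hm2]
  refine tsum_congr fun n => ?_
  rw [CatSign_key N r hp0 hp1 n hG]

end Pool.Agent.BSP
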