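import Pool.Agent.BSP.Conv

set_option autoImplicit false

/-!
# Comparison principle for the recursion
-/

namespace Pool.Agent.BSP

/-- the sequence `1, 1 - 1/2, ...` -/
noncomputable def compM : ℕ → ℝ
  | 0 => 1
  | j + 1 => compM j - compM j ^ 2 / 2

theorem compM_bd (j : ℕ) : 0 ≤ compM j ∧ compM j ≤ 1 := by
  induction j with
  | zero => simp [compM]
  | succ j ih =>
    obtain ⟨h1, h2⟩ := ih
    constructor
    · show 0 ≤ compM j - compM j ^ 2 / 2
      nlinarith
    · show compM j - compM j ^ 2 / 2 ≤ 1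
      nlinarith [sq_nonneg (compM j)]

theorem compM_le (j : ℕ) : compM j ≤ 2 / (j + 2) := by
  induction j with
  | zero => simp [compM]
  | succ j ih =>
    obtain ⟨h1, h2⟩ := compM_bd j
    have hj : (0 : ℝ) ≤ j := Nat.cast_nonneg j
    have h3 : (2 : ℝ) / (j + 2) ≤ 1 := by
      rw [div_le_one (by linarith)]
      linarith
    -- the map `x ↦ x - x² / 2` is increasing on `[0, 1]`
    have h4 : compM j - compM j ^ 2 / 2 ≤ 2 / (j + 2 : ℝ) - (2 / (j + 2 : ℝ)) ^ 2 / 2 := by
      nlinarith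
    have h5 : 2 / (j + 2 : ℝ) - (2 / (j + 2 : ℝ)) ^ 2 / 2 ≤ 2 / ((j : ℝ) + 1 + 2) := by
      have e : 2 / (j + 2 : ℝ) - (2 / (j + 2 : ℝ)) ^ 2 / 2 = 2 * (j + 1) / (j + 2) ^ 2 := by
        have : (j + 2 : ℝ) ≠ 0 := by linarith
        field_simp
        ring
      rw [e, div_le_div_iff₀ (by positivity) (by linarith)]
      nlinarith
    show compM j - compM j ^ 2 / 2 ≤ 2 / (((j + 1 : ℕ) : ℝ) + 2)
    push_cast
    linarith

/-- Comparison principle. Proof: `F ≤ M + (1 - M) G` for `M = 1`; if it holds for some `M ∈ [0, 1]`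
then it holds for `M - M² / 2` (`op_mono`, `op_mix`); the sequence `M ↦ M - M² / 2` tends to `0`. -/
theorem comp {p : ℝ} (h0 : 0 ≤ p) (h1 : p ≤ 1) {F G : ℕ → ℝ} (hF : IsTail F) (hG : IsTail G)
    (h : ∀ n, F n ≤ G n ∨ ∃ k, F n ≤ op p F k ∧ op p G k ≤ G n) : ∀ n, F n ≤ G n := by
  have key : ∀ j n, F n ≤ compM j + (1 - compM j) * G n := by
    intro j
    induction j with
    | zero =>
      intro n
      simp only [compM]
      linarith [hF.le_one n]
    | succ j ih =>
      intro n
      obtain ⟨hM0, hM1⟩ := compM_bd j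
      obtain ⟨hM0', hM1'⟩ := compM_bd (j + 1)
      rcases h n with h2 | ⟨k, h2, h3⟩
      · nlinarith [hG.le_one n, hG.nonneg n]
      · set M := compM j with hM
        have hH : IsTail (fun n => M + (1 - M) * G n) := by
          refine ⟨fun a b hab => ?_, fun n => ?_, fun n => ?_⟩
          · have := mul_le_mul_of_nonneg_left (hG.anti hab) (by linarith : 0 ≤ 1 - M)
            show M + (1 - M) * G b ≤ M + (1 - M) * G a
            linarith
          · have := mul_nonneg (by linarith : 0 ≤ 1 - M) (hG.nonneg n)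
            show 0 ≤ M + (1 - M) * G n
            linarith
          · have := mul_le_mul_of_nonneg_left (hG.le_one n) (by linarith : 0 ≤ 1 - M)
            show M + (1 - M) * G n ≤ 1
            linarith
        have h4 := op_mono h0 h1 hF hH k (fun i _ => ih i)
        rw [op_mix] at h4
        have h5 : (1 - M) ^ 2 * op p G k ≤ (1 - M) ^ 2 * G n :=
          mul_le_mul_of_nonneg_left h3 (sq_nonneg _)
        have h6 : (1 - M) ^ 2 * G n ≤ (1 - (M - M ^ 2 / 2)) * G n :=
          mul_le_mul_of_nonneg_right (by nlinarith) (hG.nonneg n)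
        show F n ≤ (M - M ^ 2 / 2) + (1 - (M - M ^ 2 / 2)) * G n
        linarith
  intro n
  refine le_of_forall_pos_le_add fun ε hε => ?_
  obtain ⟨j, hj⟩ := exists_nat_gt (2 / ε)
  have h2 := key j n
  obtain ⟨hM0, hM1⟩ := compM_bd j
  have h3 := compM_le j
  have h4 : 2 / ((j : ℝ) + 2) ≤ ε := by
    have hj0 : (0 : ℝ) ≤ j := Nat.cast_nonneg j
    rw [div_le_iff₀ (by linarith)]
    rw [div_lt_iff₀ hε] at hj
    nlinarith
  nlinarith [hG.nonneg n, hG.le_one n]

end Pool.Agent.BSP
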