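import Mathlib

set_option autoImplicit false

/-!
# Tails of sums and of maxima of independent variables
-/

namespace Pool.Agent.BSP

open Finset

/-- `F n = P(X > n)` for a random variable `X` with values in `ℕ ∪ {∞}` -/
structure IsTail (F : ℕ → ℝ) : Prop where
  anti : Antitone F
  nonneg : ∀ n, 0 ≤ F n
  le_one : ∀ n, F n ≤ 1

/-- `P(X + Y > n)` for independent `X`, `Y` with tails `F`, `G` -/
def cv2 (F G : ℕ → ℝ) (n : ℕ) : ℝ :=
  F n + G n + ∑ i ∈ range n, F i * G (n - 1 - i) - ∑ i ∈ range (n + 1), F i * G (n - i)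

/-- `P(X + Y > n)` for independent `X`, `Y` with tail `F` -/
def cv (F : ℕ → ℝ) (n : ℕ) : ℝ := cv2 F F n

/-- the operator of the recursion: `½ (p P(X + Y > n) + (1 - p) P(max(X, Y) > n))` -/
noncomputable def op (p : ℝ) (F : ℕ → ℝ) (n : ℕ) : ℝ :=
  p / 2 * cv F n + (1 - p) / 2 * (2 * F n - F n ^ 2)

theorem cv2_comm (F G : ℕ → ℝ) (n : ℕ) : cv2 F G n = cv2 G F n := by
  have h1 : ∑ i ∈ range n, F i * G (n - 1 - i) = ∑ i ∈ range n, G i * F (n - 1 - i) := by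
    rw [← sum_range_reflect (fun i => F i * G (n - 1 - i)) n]
    refine sum_congr rfl fun i hi => ?_
    have hi' := mem_range.1 hi
    have e : n - 1 - (n - 1 - i) = i := by omega
    rw [e, mul_comm]
  have h2 : ∑ i ∈ range (n + 1), F i * G (n - i) = ∑ i ∈ range (n + 1), G i * F (n - i) := by
    rw [← sum_range_reflect (fun i => F i * G (n - i)) (n + 1)]
    refine sum_congr rfl fun i hi => ?_
    have hi' := mem_range.1 hi
    have e : n + 1 - 1 - i = n - i := by omega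
    have e2 : n - (n - i) = i := by omega
    rw [e, e2, mul_comm]
  rw [cv2, cv2, h1, h2]
  ring

theorem conv_cv2_eq (F G : ℕ → ℝ) (n : ℕ) : cv2 F G n =
    F n + (1 - F 0) * G n + ∑ i ∈ range n, (F i - F (i + 1)) * G (n - 1 - i) := by
  have h : ∑ i ∈ range (n + 1), F i * G (n - i) =
      ∑ i ∈ range n, F (i + 1) * G (n - 1 - i) + F 0 * G n := by
    rw [sum_range_succ']
    congr 1
    refine sum_congr rfl fun i hi => ?_
    have e : n - (i + 1) = n - 1 - i := by omega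
    rw [e]
  rw [cv2, h]
  simp only [sub_mul, sum_sub_distrib]
  ring

theorem conv_tele (F : ℕ → ℝ) (n : ℕ) : ∑ i ∈ range n, (F i - F (i + 1)) = F 0 - F n := by
  induction n with
  | zero => simp
  | succ n ih => rw [sum_range_succ, ih]; ring

theorem cv2_mono {F G G' : ℕ → ℝ} (hF : IsTail F) (n : ℕ) (h : ∀ k ≤ n, G k ≤ G' k) :
    cv2 F G n ≤ cv2 F G' n := by
  rw [conv_cv2_eq, conv_cv2_eq]
  have h1 : (1 - F 0) * G n ≤ (1 - F 0) * G' n :=
    mul_le_mul_of_nonneg_left (h n le_rfl) (by linarith [hF.le_one 0])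
  have h2 : ∑ i ∈ range n, (F i - F (i + 1)) * G (n - 1 - i) ≤
      ∑ i ∈ range n, (F i - F (i + 1)) * G' (n - 1 - i) := by
    refine sum_le_sum fun i hi => ?_
    exact mul_le_mul_of_nonneg_left (h _ (by omega)) (by linarith [hF.anti (Nat.le_succ i)])
  linarith

theorem cv_mono {F G : ℕ → ℝ} (hF : IsTail F) (hG : IsTail G) (n : ℕ)
    (h : ∀ k ≤ n, F k ≤ G k) : cv F n ≤ cv G n := by
  have h1 : cv F n ≤ cv2 F G n := cv2_mono hF n h
  have h2 : cv2 G F n ≤ cv G n := cv2_mono hG n h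
  rw [cv2_comm] at h2
  exact h1.trans h2

theorem cv_nonneg {F : ℕ → ℝ} (hF : IsTail F) (n : ℕ) : 0 ≤ cv F n := by
  rw [cv, conv_cv2_eq]
  have h1 : 0 ≤ (1 - F 0) * F n := mul_nonneg (by linarith [hF.le_one 0]) (hF.nonneg n)
  have h2 : 0 ≤ ∑ i ∈ range n, (F i - F (i + 1)) * F (n - 1 - i) :=
    sum_nonneg fun i _ => mul_nonneg (by linarith [hF.anti (Nat.le_succ i)]) (hF.nonneg _)
  linarith [hF.nonneg n]

theorem cv_le_one {F : ℕ → ℝ} (hF : IsTail F) (n : ℕ) : cv F n ≤ 1 := by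
  have h1 : cv F n ≤ cv2 F (fun _ => 1) n := cv2_mono hF n fun k _ => hF.le_one k
  have h2 : cv2 F (fun _ => 1) n = 1 := by
    rw [conv_cv2_eq]
    simp only [mul_one]
    rw [conv_tele]
    ring
  rwa [h2] at h1

theorem cv_mix (F : ℕ → ℝ) (M : ℝ) (n : ℕ) :
    cv (fun n => M + (1 - M) * F n) n = (2 * M - M ^ 2) + (1 - M) ^ 2 * cv F n := by
  rw [cv, cv, conv_cv2_eq, conv_cv2_eq]
  have h1 : ∑ i ∈ range n, (M + (1 - M) * F i - (M + (1 - M) * F (i + 1))) *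
      (M + (1 - M) * F (n - 1 - i)) = (1 - M) * M * (F 0 - F n) +
      (1 - M) ^ 2 * ∑ i ∈ range n, (F i - F (i + 1)) * F (n - 1 - i) := by
    rw [← conv_tele F n, mul_sum, mul_sum, ← sum_add_distrib]
    refine sum_congr rfl fun i _ => ?_
    ring
  rw [h1]
  ring

theorem op_mono {p : ℝ} (h0 : 0 ≤ p) (h1 : p ≤ 1) {F G : ℕ → ℝ} (hF : IsTail F) (hG : IsTail G)
    (n : ℕ) (h : ∀ k ≤ n, F k ≤ G k) : op p F n ≤ op p G n := by
  have h2 : p / 2 * cv F n ≤ p / 2 * cv G n :=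
    mul_le_mul_of_nonneg_left (cv_mono hF hG n h) (by linarith)
  have h3 : 2 * F n - F n ^ 2 ≤ 2 * G n - G n ^ 2 := by
    nlinarith [h n le_rfl, hF.le_one n, hG.le_one n]
  have h4 : (1 - p) / 2 * (2 * F n - F n ^ 2) ≤ (1 - p) / 2 * (2 * G n - G n ^ 2) :=
    mul_le_mul_of_nonneg_left h3 (by linarith)
  unfold op
  linarith

theorem op_mix (p : ℝ) (F : ℕ → ℝ) (M : ℝ) (n : ℕ) :
    op p (fun n => M + (1 - M) * F n) n = (M - M ^ 2 / 2) + (1 - M) ^ 2 * op p F n := by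
  unfold op
  rw [cv_mix]
  ring

theorem op_le_half {p : ℝ} (h0 : 0 ≤ p) (h1 : p ≤ 1) {F : ℕ → ℝ} (hF : IsTail F) (n : ℕ) :
    op p F n ≤ 1 / 2 := by
  have h2 : p / 2 * cv F n ≤ p / 2 * 1 :=
    mul_le_mul_of_nonneg_left (cv_le_one hF n) (by linarith)
  have h3 : (1 - p) / 2 * (2 * F n - F n ^ 2) ≤ (1 - p) / 2 * 1 :=
    mul_le_mul_of_nonneg_left (by nlinarith [sq_nonneg (1 - F n)]) (by linarith)
  unfold op
  linarith

end Pool.Agent.BSP
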