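import Pool.Agent.BSP.Conv

set_option autoImplicit false

/-!
# The operators in terms of probabilities
-/

namespace Pool.Agent.BSP

open MeasureTheory
open scoped ENNReal

/-- the value of `cv` through the point masses -/
theorem cvMeas_alg (F : ℕ → ℝ) (m : ℕ → ℝ) (h0 : m 0 = 1 - F 0)
    (h1 : ∀ i, m (i + 1) = F i - F (i + 1)) (n : ℕ) :
    F n + ∑ i ∈ Finset.range (n + 1), m i * F (n - i) = cv F n := by
  unfold cv cv2
  rw [Finset.sum_range_succ', Finset.sum_range_succ' (fun i => F i * F (n - i)), h0]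
  have h2 : ∑ i ∈ Finset.range n, m (i + 1) * F (n - (i + 1)) =
      ∑ i ∈ Finset.range n, F i * F (n - 1 - i) -
        ∑ i ∈ Finset.range n, F (i + 1) * F (n - (i + 1)) := by
    rw [← Finset.sum_sub_distrib]
    refine Finset.sum_congr rfl fun i _ => ?_
    rw [h1, show n - (i + 1) = n - 1 - i by omega]
    ring
  rw [h2, Nat.sub_zero]
  ring

/-- `cv` is the tail of the sum of two independent variables -/
theorem cv_meas {α : Type*} [MeasurableSpace α] (μ : Measure α) [IsProbabilityMeasure μ]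
    (Y : α → ℕ) (hY : Measurable Y) (n : ℕ) :
    (μ.prod μ) {q | n < Y q.1 + Y q.2} =
      ENNReal.ofReal (cv (fun k => (μ {a | k < Y a}).toReal) n) := by
  have hA : ∀ k, MeasurableSet {a | k < Y a} := fun k =>
    measurableSet_lt measurable_const hY
  have hB : ∀ i, MeasurableSet {a | Y a = i} := fun i => hY (measurableSet_singleton i)
  have hset : {q : α × α | n < Y q.1 + Y q.2} = ({a | n < Y a} ×ˢ (Set.univ : Set α)) ∪
      ⋃ i ∈ Finset.range (n + 1), ({a | Y a = i} ×ˢ {a | n - i < Y a}) := by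
    ext ⟨a, b⟩
    simp only [Set.mem_ofPred_eq, Set.mem_union, Set.mem_prod, Set.mem_univ, and_true,
      Set.mem_iUnion, Finset.mem_range, exists_prop]
    constructor
    · intro h
      by_cases h' : n < Y a
      · exact Or.inl h'
      · exact Or.inr ⟨Y a, by omega, rfl, by omega⟩
    · rintro (h | ⟨i, hi, rfl, h⟩)
      · omega
      · omega
  have hdisj : Disjoint ({a | n < Y a} ×ˢ (Set.univ : Set α))
      (⋃ i ∈ Finset.range (n + 1), ({a | Y a = i} ×ˢ {a | n - i < Y a})) := by
    rw [Set.disjoint_left]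
    rintro ⟨a, b⟩ h1 h2
    simp only [Set.mem_ofPred_eq, Set.mem_prod, Set.mem_univ, and_true,
      Set.mem_iUnion, Finset.mem_range, exists_prop] at h1 h2
    obtain ⟨i, hi, h3, -⟩ := h2
    omega
  have hpw : Set.PairwiseDisjoint (↑(Finset.range (n + 1)))
      (fun i => ({a | Y a = i} ×ˢ {a | n - i < Y a} : Set (α × α))) := by
    intro i _ j _ hij
    rw [Function.onFun, Set.disjoint_left]
    rintro ⟨a, b⟩ h1 h2
    exact hij (h1.1.symm.trans h2.1)
  have hms : ∀ i ∈ Finset.range (n + 1),
      MeasurableSet ({a | Y a = i} ×ˢ {a | n - i < Y a} : Set (α × α)) :=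
    fun i _ => (hB i).prod (hA _)
  rw [hset, measure_union hdisj (Finset.measurableSet_biUnion _ hms),
    measure_biUnion_finset hpw hms]
  simp only [Measure.prod_prod, measure_univ, mul_one]
  -- pass to real numbers
  set F : ℕ → ℝ := fun k => (μ {a | k < Y a}).toReal with hF
  set m : ℕ → ℝ := fun i => (μ {a | Y a = i}).toReal with hm
  have h0 : m 0 = 1 - F 0 := by
    have h : {a | Y a = 0} = {a | 0 < Y a}ᶜ := by
      ext a; simp
    simp only [hm, hF]
    rw [h, prob_compl_eq_one_sub (hA 0), ENNReal.toReal_sub_of_le prob_le_one ENNReal.one_ne_top,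
      ENNReal.toReal_one]
  have h1 : ∀ i, m (i + 1) = F i - F (i + 1) := by
    intro i
    have h : {a | i < Y a} = {a | Y a = i + 1} ∪ {a | i + 1 < Y a} := by
      ext a
      simp only [Set.mem_ofPred_eq, Set.mem_union]
      omega
    have hd : Disjoint {a | Y a = i + 1} {a | i + 1 < Y a} := by
      rw [Set.disjoint_left]
      intro a h2 h3
      simp only [Set.mem_ofPred_eq] at h2 h3
      omega
    simp only [hm, hF]
    rw [h, measure_union hd (hA _), ENNReal.toReal_add (measure_ne_top _ _) (measure_ne_top _ _)]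
    ring
  rw [← cvMeas_alg F m h0 h1 n, ENNReal.ofReal_add ENNReal.toReal_nonneg
    (Finset.sum_nonneg fun i _ => mul_nonneg ENNReal.toReal_nonneg ENNReal.toReal_nonneg),
    ENNReal.ofReal_sum_of_nonneg fun i _ =>
      mul_nonneg ENNReal.toReal_nonneg ENNReal.toReal_nonneg]
  congr 1
  · rw [ENNReal.ofReal_toReal (measure_ne_top _ _)]
  · refine Finset.sum_congr rfl fun i _ => ?_
    rw [ENNReal.ofReal_mul ENNReal.toReal_nonneg, ENNReal.ofReal_toReal (measure_ne_top _ _),
      ENNReal.ofReal_toReal (measure_ne_top _ _)]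

theorem isTail_tsum {ι : Type*} (w : ι → ℝ≥0∞) (v : ι → ℕ) (hw : ∑' t, w t ≤ 1) :
    IsTail (fun k => (∑' t, if k < v t then w t else 0).toReal) := by
  have hle : ∀ k, (∑' t, if k < v t then w t else 0) ≤ 1 := fun k =>
    (ENNReal.tsum_le_tsum fun t => by split_ifs <;> simp).trans hw
  refine ⟨?_, fun n => ENNReal.toReal_nonneg, fun n => ?_⟩
  · intro k l hkl
    refine ENNReal.toReal_mono (ne_top_of_le_ne_top ENNReal.one_ne_top (hle k)) ?_
    refine ENNReal.tsum_le_tsum fun t => ?_
    by_cases h : l < v t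
    · rw [if_pos h, if_pos (lt_of_le_of_lt hkl h)]
    · rw [if_neg h]
      exact zero_le
  · have := ENNReal.toReal_mono ENNReal.one_ne_top (hle n)
    simpa using this

/-- the measure with point masses `w` -/
noncomputable def cvMeas_mu {ι : Type*} (w : ι → ℝ≥0∞) : @Measure ι ⊤ :=
  @Measure.sum ι ι ⊤ fun t => w t • @Measure.dirac ι ⊤ t

theorem cvMeas_lintegral {ι : Type*} (w : ι → ℝ≥0∞) (f : ι → ℝ≥0∞) :
    @lintegral ι ⊤ (cvMeas_mu w) f = ∑' t, w t * f t := by
  let _ : MeasurableSpace ι := ⊤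
  rw [cvMeas_mu, lintegral_sum_measure]
  refine tsum_congr fun t => ?_
  rw [lintegral_smul_measure, lintegral_dirac, smul_eq_mul]

theorem cvMeas_apply {ι : Type*} (w : ι → ℝ≥0∞) (p : ι → Prop) [DecidablePred p] :
    cvMeas_mu w {t | p t} = ∑' t, if p t then w t else 0 := by
  let _ : MeasurableSpace ι := ⊤
  rw [← lintegral_indicator_one (MeasurableSpace.measurableSet_top), cvMeas_lintegral]
  refine tsum_congr fun t => ?_
  by_cases h : p t
  · rw [if_pos h, Set.indicator_of_mem (by exact h)]; simp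
  · rw [if_neg h, Set.indicator_of_notMem (by exact h)]; simp

theorem cvMeas_prod {ι : Type*} (w : ι → ℝ≥0∞) (p : ι → ι → Prop)
    [∀ a b, Decidable (p a b)] (hp : @MeasurableSet (ι × ι) (@Prod.instMeasurableSpace ι ι ⊤ ⊤)
      {q | p q.1 q.2}) (hw : ∑' t, w t = 1) :
    @Measure.prod ι ι ⊤ ⊤ (cvMeas_mu w) (cvMeas_mu w) {q | p q.1 q.2} =
      ∑' a, ∑' b, if p a b then w a * w b else 0 := by
  let _ : MeasurableSpace ι := ⊤
  have : IsProbabilityMeasure (cvMeas_mu w) := ⟨by
    have := cvMeas_apply w (fun _ => True)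
    simpa [hw] using this⟩
  rw [Measure.prod_apply hp, cvMeas_lintegral]
  refine tsum_congr fun a => ?_
  have : Prod.mk a ⁻¹' {q : ι × ι | p q.1 q.2} = {b | p a b} := rfl
  rw [this, cvMeas_apply, ← ENNReal.tsum_mul_left]
  refine tsum_congr fun b => ?_
  by_cases h : p a b <;> simp [h]

/-- the same for sums over a (countable) index set -/
theorem cv_tsum {ι : Type*} [Countable ι] (w : ι → ℝ≥0∞) (v : ι → ℕ) (hw : ∑' t, w t = 1) (n : ℕ) :
    (∑' a, ∑' b, if n < v a + v b then w a * w b else 0) =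
      ENNReal.ofReal (cv (fun k => (∑' t, if k < v t then w t else 0).toReal) n) := by
  let _ : MeasurableSpace ι := ⊤
  have : IsProbabilityMeasure (cvMeas_mu w) := ⟨by
    have := cvMeas_apply w (fun _ => True)
    simpa [hw] using this⟩
  have hv : Measurable v := measurable_from_top
  rw [← cvMeas_prod w (fun a b => n < v a + v b) (measurableSet_lt measurable_const
    ((hv.comp measurable_fst).add (hv.comp measurable_snd))) hw, cv_meas (cvMeas_mu w) v hv n]
  simp only [cvMeas_apply]

theorem max_tsum {ι : Type*} [Countable ι] (w : ι → ℝ≥0∞) (v : ι → ℕ) (hw : ∑' t, w t = 1)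
    (n : ℕ) :
    (∑' a, ∑' b, if n < max (v a) (v b) then w a * w b else 0) =
      ENNReal.ofReal (2 * (∑' t, if n < v t then w t else 0).toReal -
        (∑' t, if n < v t then w t else 0).toReal ^ 2) := by
  let _ : MeasurableSpace ι := ⊤
  have : IsProbabilityMeasure (cvMeas_mu w) := ⟨by
    have := cvMeas_apply w (fun _ => True)
    simpa [hw] using this⟩
  have hv : Measurable v := measurable_from_top
  rw [← cvMeas_prod w (fun a b => n < max (v a) (v b)) (measurableSet_lt measurable_const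
    ((hv.comp measurable_fst).max (hv.comp measurable_snd))) hw, ← cvMeas_apply w (fun t => n < v t)]
  have hA : MeasurableSet {t | n < v t} := measurableSet_lt measurable_const hv
  have hset : {q : ι × ι | n < max (v q.1) (v q.2)} = ({t | n < v t} ×ˢ (Set.univ : Set ι)) ∪
      ({t | n < v t}ᶜ ×ˢ {t | n < v t}) := by
    ext ⟨a, b⟩
    simp only [Set.mem_ofPred_eq, Set.mem_union, Set.mem_prod, Set.mem_univ, and_true,
      Set.mem_compl_iff, lt_max_iff]
    tauto
  have hdisj : Disjoint ({t | n < v t} ×ˢ (Set.univ : Set ι))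
      ({t | n < v t}ᶜ ×ˢ {t | n < v t}) := by
    rw [Set.disjoint_left]
    rintro ⟨a, b⟩ h1 h2
    exact h2.1 h1.1
  rw [hset, measure_union hdisj (hA.compl.prod hA), Measure.prod_prod, Measure.prod_prod,
    measure_univ, mul_one, prob_compl_eq_one_sub hA]
  set m := cvMeas_mu w {t | n < v t} with hm
  have hm1 : m ≤ 1 := prob_le_one
  have hmt : m ≠ ∞ := ne_top_of_le_ne_top ENNReal.one_ne_top hm1
  have h2 : 0 ≤ m.toReal := ENNReal.toReal_nonneg
  have h3 : m.toReal ≤ 1 := by
    have := ENNReal.toReal_mono ENNReal.one_ne_top hm1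
    simpa using this
  rw [show 2 * m.toReal - m.toReal ^ 2 = m.toReal + (1 - m.toReal) * m.toReal by ring,
    ENNReal.ofReal_add h2 (mul_nonneg (by linarith) h2), ENNReal.ofReal_mul (by linarith),
    ENNReal.ofReal_sub _ h2, ENNReal.ofReal_toReal hmt, ENNReal.ofReal_one]

end Pool.Agent.BSP
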