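import Pool.Agent.BSP.DOrd

set_option autoImplicit false

/-!
# Blocks
-/

namespace Pool.Agent.BSP

open MeasureTheory Set Filter
open scoped ENNReal NNReal Topology

variable {e : ℝ → ℝ} {s : ℝ → Bool}

/-! ### helper lemmas -/

private theorem dblk_fin {S : Set ℝ} (h : S ⊆ Icc (0 : ℝ) 1) : volume S ≠ ∞ := by
  refine ne_top_of_le_ne_top ?_ (measure_mono h)
  rw [Real.volume_Icc]
  exact ENNReal.ofReal_ne_top

private theorem dblk_null (he : Nice e) (a b : ℝ) :
    volume ((Icc (0 : ℝ) 1 \ Tg e) ∪ {a, b}) = 0 := by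
  refine measure_union_null ?_ ?_
  · have h := he.ae
    rw [ae_restrict_iff' measurableSet_Icc, ae_iff] at h
    refine measure_mono_null ?_ h
    intro z hz
    simp only [mem_ofPred_eq]
    intro h1
    exact hz.2 (h1 hz.1)
  · exact (Set.toFinite ({a, b} : Set ℝ)).measure_zero volume

private theorem dblk_mono (he : Nice e) (a b : ℝ) {A B : Set ℝ} (hA : A ⊆ Icc (0 : ℝ) 1)
    (hB : B ⊆ Icc (0 : ℝ) 1) (h : ∀ z ∈ A, z ∈ Tg e → z ≠ a → z ≠ b → z ∈ B) :
    (volume A).toReal ≤ (volume B).toReal := by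
  refine ENNReal.toReal_mono (dblk_fin hB) ?_
  have h1 : A ⊆ B ∪ ((Icc (0 : ℝ) 1 \ Tg e) ∪ {a, b}) := by
    intro z hz
    by_cases h2 : z ∈ Tg e
    · by_cases h3 : z = a
      · right; right; rw [h3]; simp
      · by_cases h4 : z = b
        · right; right; rw [h4]; simp
        · left; exact h z hz h2 h3 h4
    · right; left; exact ⟨hA hz, h2⟩
  calc volume A ≤ volume (B ∪ ((Icc (0 : ℝ) 1 \ Tg e) ∪ {a, b})) := measure_mono h1
    _ ≤ volume B + volume ((Icc (0 : ℝ) 1 \ Tg e) ∪ {a, b}) := measure_union_le _ _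
    _ = volume B := by rw [dblk_null he, add_zero]

private theorem dblk_Ioo_sub {a b : ℝ} (ha : 0 ≤ a) (hb : b ≤ 1) : Ioo a b ⊆ Icc (0 : ℝ) 1 :=
  fun _ hz => ⟨ha.trans hz.1.le, hz.2.le.trans hb⟩

/-- adding a disjoint open interval -/
private theorem dblk_add {A : Set ℝ} (hA : A ⊆ Icc (0 : ℝ) 1) {a b : ℝ} (ha : 0 ≤ a)
    (hab : a ≤ b) (hb : b ≤ 1) (hd : ∀ z ∈ A, ¬ (a < z ∧ z < b)) :
    (volume (A ∪ Ioo a b)).toReal = (volume A).toReal + (b - a) := by
  rw [measure_union _ measurableSet_Ioo, ENNReal.toReal_add (dblk_fin hA)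
    (dblk_fin (dblk_Ioo_sub ha hb)), Real.volume_Ioo, ENNReal.toReal_ofReal (by linarith)]
  rw [disjoint_left]
  exact fun z hz hz' => hd z hz hz'

private theorem dblk_X_sub (t : ℝ) : {x | x ∈ Icc (0 : ℝ) 1 ∧ Rel e s x t} ⊆ Icc (0 : ℝ) 1 :=
  fun _ hz => hz.1

private theorem dblk_Xd_sub (t l r : ℝ) :
    {x | x ∈ Icc (0 : ℝ) 1 ∧ Rel e s x t} \ Icc l r ⊆ Icc (0 : ℝ) 1 :=
  fun _ hz => hz.1.1

private theorem dblk_lo_sub (l r : ℝ) : {z | z ∈ Icc (0 : ℝ) 1 ∧ (z < l ∨ r < z) ∧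
    ∀ t ∈ Tg e, l < t → t < r → Rel e s z t} ⊆ Icc (0 : ℝ) 1 :=
  fun _ hz => hz.1

/-! ### the statements -/

theorem IsBlk.rel' (he : Nice e) {l r : ℝ} (hB : IsBlk e s l r) {z t t' : ℝ} (hz : z ∈ Tg e)
    (hz' : z < l ∨ r < z) (ht : t ∈ Tg e) (hlt : l < t) (htr : t < r) (ht' : t' ∈ Tg e)
    (hlt' : l < t') (htr' : t' < r) (h : Rel e s t z) : Rel e s t' z := by
  have hne : t' ≠ z := by
    rintro rfl
    rcases hz' with h1 | h1
    · exact lt_asymm h1 hlt'
    · exact lt_asymm h1 htr'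
  rcases rel_total (s := s) he ht' hz hne with h1 | h1
  · exact h1
  · exact absurd (hB.rel z hz hz' t' ht' hlt' htr' t ht hlt htr h1) (rel_asymm h)

/-- the lower coordinate of a block can be computed from any of its points -/
theorem lo_eq (he : Nice e) {l r : ℝ} (hB : IsBlk e s l r) {t : ℝ} (ht : t ∈ Tg e) (hlt : l < t)
    (htr : t < r) :
    lo e s l r = (volume ({x | x ∈ Icc (0 : ℝ) 1 ∧ Rel e s x t} \ Icc l r)).toReal := by
  unfold lo
  apply le_antisymm
  · refine dblk_mono he 0 0 (dblk_lo_sub l r) (dblk_Xd_sub t l r) ?_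
    intro z hz _ _ _
    refine ⟨⟨hz.1, hz.2.2 t ht hlt htr⟩, fun h => ?_⟩
    rcases hz.2.1 with h1 | h1
    · exact absurd h.1 (not_le.2 h1)
    · exact absurd h.2 (not_le.2 h1)
  · refine dblk_mono he 0 0 (dblk_Xd_sub t l r) (dblk_lo_sub l r) ?_
    intro z hz hzT _ _
    have hz' : z < l ∨ r < z := by
      by_contra h
      push Not at h
      exact hz.2 h
    exact ⟨hz.1.1, hz', fun t' ht' hlt' htr' =>
      hB.rel z hzT hz' t ht hlt htr t' ht' hlt' htr' hz.1.2⟩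

theorem lo_zero_one : lo e s 0 1 = 0 := by
  unfold lo
  have : {z | z ∈ Icc (0 : ℝ) 1 ∧ (z < 0 ∨ 1 < z) ∧
    ∀ t ∈ Tg e, 0 < t → t < 1 → Rel e s z t} = ∅ := by
    ext z
    simp only [mem_ofPred_eq, mem_empty_iff_false, iff_false]
    rintro ⟨h1, h2, -⟩
    rcases h2 with h2 | h2
    · exact absurd h1.1 (not_le.2 h2)
    · exact absurd h1.2 (not_le.2 h2)
  rw [this]
  simp

theorem lo_nonneg (l r : ℝ) : 0 ≤ lo e s l r := ENNReal.toReal_nonneg

private theorem dblk_Icc {l r : ℝ} (h : l ≤ r) : (volume (Icc l r)).toReal = r - l := by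
  rw [Real.volume_Icc, ENNReal.toReal_ofReal (by linarith)]

/-- the values of `psi` in a block -/
theorem psi_mem_block (he : Nice e) {l r : ℝ} (hB : IsBlk e s l r) {t : ℝ} (ht : t ∈ Tg e)
    (hlt : l < t) (htr : t < r) : psi e s t ∈ Icc (lo e s l r) (lo e s l r + (r - l)) := by
  rw [lo_eq he hB ht hlt htr]
  unfold psi
  have h1 : (volume {x | x ∈ Icc (0 : ℝ) 1 ∧ Rel e s x t}).toReal =
      (volume ({x | x ∈ Icc (0 : ℝ) 1 ∧ Rel e s x t} ∩ Icc l r)).toReal +
      (volume ({x | x ∈ Icc (0 : ℝ) 1 ∧ Rel e s x t} \ Icc l r)).toReal := by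
    rw [← ENNReal.toReal_add, measure_inter_add_sdiff _ measurableSet_Icc]
    · exact dblk_fin (fun z hz => hz.1.1)
    · exact dblk_fin (dblk_Xd_sub t l r)
  have h2 : (volume ({x | x ∈ Icc (0 : ℝ) 1 ∧ Rel e s x t} ∩ Icc l r)).toReal ≤ r - l := by
    rw [← dblk_Icc hB.lt.le]
    refine ENNReal.toReal_mono ?_ (measure_mono inter_subset_right)
    rw [Real.volume_Icc]
    exact ENNReal.ofReal_ne_top
  have h3 : 0 ≤ (volume ({x | x ∈ Icc (0 : ℝ) 1 ∧ Rel e s x t} ∩ Icc l r)).toReal :=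
    ENNReal.toReal_nonneg
  rw [h1]
  constructor <;> linarith

theorem lo_add_le_one (he : Nice e) {l r : ℝ} (hB : IsBlk e s l r) :
    lo e s l r + (r - l) ≤ 1 := by
  obtain ⟨t, ht, hlt, htr⟩ := exists_Tg he hB.zero_le hB.lt hB.le_one
  rw [lo_eq he hB ht hlt htr, ← dblk_add (dblk_Xd_sub t l r) hB.zero_le hB.lt.le hB.le_one
    (fun z hz h => hz.2 ⟨h.1.le, h.2.le⟩)]
  have h1 : (volume (Icc (0 : ℝ) 1)).toReal = 1 := by
    rw [dblk_Icc zero_le_one]
    norm_num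
  refine le_trans (ENNReal.toReal_mono (dblk_fin (Subset.refl _)) (measure_mono ?_)) h1.le
  exact union_subset (dblk_Xd_sub t l r) (dblk_Ioo_sub hB.zero_le hB.le_one)

/-- union bound with a closed interval -/
private theorem dblk_union_Icc {A B : Set ℝ} (hB : B ⊆ Icc (0 : ℝ) 1) {l r : ℝ} (hlr : l ≤ r)
    (h : A ⊆ B ∪ Icc l r) : (volume A).toReal ≤ (volume B).toReal + (r - l) := by
  have h1 : volume (Icc l r) ≠ ∞ := by
    rw [Real.volume_Icc]
    exact ENNReal.ofReal_ne_top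
  rw [← dblk_Icc hlr, ← ENNReal.toReal_add (dblk_fin hB) h1]
  refine ENNReal.toReal_mono (ENNReal.add_ne_top.2 ⟨dblk_fin hB, h1⟩) ?_
  exact (measure_mono h).trans (measure_union_le _ _)

/-- nested blocks -/
theorem lo_nested (he : Nice e) {l r l' r' : ℝ} (hB : IsBlk e s l r) (hB' : IsBlk e s l' r')
    (hl : l ≤ l') (hr : r' ≤ r) : lo e s l r ≤ lo e s l' r' ∧
      lo e s l' r' + (r' - l') ≤ lo e s l r + (r - l) := by
  obtain ⟨t, ht, hlt, htr⟩ := exists_Tg he hB'.zero_le hB'.lt hB'.le_one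
  rw [lo_eq he hB' ht hlt htr, lo_eq he hB ht (hl.trans_lt hlt) (htr.trans_le hr)]
  constructor
  · refine ENNReal.toReal_mono (dblk_fin (dblk_Xd_sub t l' r')) (measure_mono ?_)
    intro z hz
    exact ⟨hz.1, fun h => hz.2 ⟨hl.trans h.1, h.2.trans hr⟩⟩
  · rw [← dblk_add (dblk_Xd_sub t l' r') hB'.zero_le hB'.lt.le hB'.le_one
      (fun z hz h => hz.2 ⟨h.1.le, h.2.le⟩)]
    refine dblk_union_Icc (dblk_Xd_sub t l r) hB.lt.le ?_
    intro z hz
    rcases hz with hz | hz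
    · by_cases h : z ∈ Icc l r
      · right; exact h
      · left; exact ⟨hz.1, h⟩
    · right; exact ⟨hl.trans hz.1.le, hz.2.le.trans hr⟩

/-- an interval near an outer point -/
private theorem dblk_near {l r l' r' t ε : ℝ} (hε : 0 < ε) (hlt : l < t) (htr : t < r)
    (ho : t < l' ∨ r' < t) : ∃ a b, a < b ∧ l ≤ a ∧ b ≤ r ∧ (b ≤ l' ∨ r' ≤ a) ∧
      ∀ z, a < z → z < b → |z - t| < ε := by
  rcases ho with ho | ho
  · refine ⟨t, min (min (t + ε) l') r, lt_min (lt_min (by linarith) ho) htr, hlt.le,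
      min_le_right _ _, Or.inl ((min_le_left _ _).trans (min_le_right _ _)), ?_⟩
    intro z h1 h2
    have h3 : z < t + ε := h2.trans_le ((min_le_left _ _).trans (min_le_left _ _))
    rw [abs_lt]
    constructor <;> linarith
  · refine ⟨max (max (t - ε) r') l, t, max_lt (max_lt (by linarith) ho) hlt,
      le_max_right _ _, htr.le, Or.inr ((le_max_right _ _).trans (le_max_left _ _)), ?_⟩
    intro z h1 h2
    have h3 : t - ε < z := lt_of_le_of_lt ((le_max_left _ _).trans (le_max_left _ _)) h1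
    rw [abs_lt]
    constructor <;> linarith

/-- points outside of the inner block -/
theorem psi_outside (he : Nice e) {l r l' r' : ℝ} (hB : IsBlk e s l r) (hB' : IsBlk e s l' r')
    (hl : l ≤ l') (hr : r' ≤ r) {t : ℝ} (ht : t ∈ Tg e) (hlt : l < t) (htr : t < r)
    (ho : t < l' ∨ r' < t) :
    (psi e s t ≤ lo e s l' r' ∧ lo e s l r < lo e s l' r') ∨
      (lo e s l' r' + (r' - l') ≤ psi e s t ∧
        lo e s l' r' + (r' - l') < lo e s l r + (r - l)) := by
  obtain ⟨t', ht', hlt', htr'⟩ := exists_Tg he hB'.zero_le hB'.lt hB'.le_one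
  have hl2 : l < t' := hl.trans_lt hlt'
  have hr2 : t' < r := htr'.trans_le hr
  have hne : t ≠ t' := by
    rintro rfl
    rcases ho with h1 | h1
    · exact lt_asymm h1 hlt'
    · exact lt_asymm h1 htr'
  rw [lo_eq he hB' ht' hlt' htr', lo_eq he hB ht' hl2 hr2]
  rcases rel_total (s := s) he ht ht' hne with h1 | h1
  · left
    constructor
    · unfold psi
      refine dblk_mono he l' r' (dblk_X_sub t) (dblk_Xd_sub t' l' r') ?_
      intro z hz hzT hzl hzr
      refine ⟨⟨hz.1, rel_trans he hzT ht ht' hz.2 h1⟩, fun h => ?_⟩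
      exact rel_asymm h1 (hB'.rel' he ht ho hzT (lt_of_le_of_ne h.1 (Ne.symm hzl))
        (lt_of_le_of_ne h.2 hzr) ht' hlt' htr' hz.2)
    · obtain ⟨ε, hε, hst⟩ := rel_stable he h1
      obtain ⟨a, b, hab, hla, hbr, hout, hnear⟩ := dblk_near hε hlt htr ho
      have ha0 : 0 ≤ a := hB.zero_le.trans hla
      have hb1 : b ≤ 1 := hbr.trans hB.le_one
      have h2 := dblk_add (dblk_Xd_sub (e := e) (s := s) t' l r) ha0 hab.le hb1
        (fun z hz h => hz.2 ⟨hla.trans h.1.le, h.2.le.trans hbr⟩)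
      have h3 : (volume (({x | x ∈ Icc (0 : ℝ) 1 ∧ Rel e s x t'} \ Icc l r) ∪ Ioo a b)).toReal ≤
          (volume ({x | x ∈ Icc (0 : ℝ) 1 ∧ Rel e s x t'} \ Icc l' r')).toReal := by
        refine ENNReal.toReal_mono (dblk_fin (dblk_Xd_sub t' l' r')) (measure_mono ?_)
        intro z hz
        rcases hz with hz | hz
        · exact ⟨hz.1, fun h => hz.2 ⟨hl.trans h.1, h.2.trans hr⟩⟩
        · refine ⟨⟨⟨ha0.trans hz.1.le, hz.2.le.trans hb1⟩, hst z (hnear z hz.1 hz.2)⟩, fun h => ?_⟩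
          rcases hout with h4 | h4
          · exact absurd h.1 (not_le.2 (hz.2.trans_le h4))
          · exact absurd h.2 (not_le.2 (h4.trans_lt hz.1))
      linarith
  · right
    constructor
    · rw [← dblk_add (dblk_Xd_sub t' l' r') hB'.zero_le hB'.lt.le hB'.le_one
        (fun z hz h => hz.2 ⟨h.1.le, h.2.le⟩)]
      unfold psi
      refine dblk_mono he 0 0 (union_subset (dblk_Xd_sub t' l' r')
        (dblk_Ioo_sub hB'.zero_le hB'.le_one)) (dblk_X_sub t) ?_
      intro z hz hzT _ _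
      rcases hz with hz | hz
      · exact ⟨hz.1.1, rel_trans he hzT ht' ht hz.1.2 h1⟩
      · exact ⟨dblk_Ioo_sub hB'.zero_le hB'.le_one hz,
          hB'.rel' he ht ho ht' hlt' htr' hzT hz.1 hz.2 h1⟩
    · obtain ⟨ε, hε, hst⟩ := rel_stable' he h1
      obtain ⟨a, b, hab, hla, hbr, hout, hnear⟩ := dblk_near hε hlt htr ho
      have ha0 : 0 ≤ a := hB.zero_le.trans hla
      have hb1 : b ≤ 1 := hbr.trans hB.le_one
      have h2 := dblk_add (dblk_Xd_sub (e := e) (s := s) t' l' r') hB'.zero_le hB'.lt.le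
        hB'.le_one (fun z hz h => hz.2 ⟨h.1.le, h.2.le⟩)
      have h3 := dblk_add (A := ({x | x ∈ Icc (0 : ℝ) 1 ∧ Rel e s x t'} \ Icc l' r') ∪ Ioo l' r')
        (union_subset (dblk_Xd_sub t' l' r') (dblk_Ioo_sub hB'.zero_le hB'.le_one))
        ha0 hab.le hb1 (by
          intro z hz h
          rcases hz with hz | hz
          · exact rel_asymm (hst z (hnear z h.1 h.2)) hz.1.2
          · rcases hout with h4 | h4
            · exact lt_asymm (h.2.trans_le h4) hz.1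
            · exact lt_asymm (h4.trans_lt h.1) hz.2)
      have h4 : (volume ((({x | x ∈ Icc (0 : ℝ) 1 ∧ Rel e s x t'} \ Icc l' r') ∪ Ioo l' r') ∪
          Ioo a b)).toReal ≤
          (volume ({x | x ∈ Icc (0 : ℝ) 1 ∧ Rel e s x t'} \ Icc l r)).toReal + (r - l) := by
        refine dblk_union_Icc (dblk_Xd_sub t' l r) hB.lt.le ?_
        intro z hz
        rcases hz with (hz | hz) | hz
        · by_cases h : z ∈ Icc l r
          · right; exact h
          · left; exact ⟨hz.1, h⟩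
        · right; exact ⟨hl.trans hz.1.le, hz.2.le.trans hr⟩
        · right; exact ⟨hla.trans hz.1.le, hz.2.le.trans hbr⟩
      linarith

/-- two adjacent blocks, the left one is below the right one -/
theorem lo_plus (he : Nice e) {l m r : ℝ} (hlm : l < m) (hmr : m < r) (h1 : IsBlk e s l m)
    (h2 : IsBlk e s m r) (h3 : IsBlk e s l r)
    (h : ∀ t ∈ Tg e, l < t → t < m → ∀ t' ∈ Tg e, m < t' → t' < r → Rel e s t t') :
    lo e s l m = lo e s l r ∧ lo e s m r = lo e s l r + (m - l) := by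
  constructor
  · obtain ⟨t, ht, hlt, htr⟩ := exists_Tg he h1.zero_le h1.lt h1.le_one
    rw [lo_eq he h1 ht hlt htr, lo_eq he h3 ht hlt (htr.trans hmr)]
    apply le_antisymm
    · refine dblk_mono he r r (dblk_Xd_sub t l m) (dblk_Xd_sub t l r) ?_
      intro z hz hzT hzr _
      refine ⟨hz.1, fun h4 => ?_⟩
      have h5 : m < z := by
        by_contra h6
        exact hz.2 ⟨h4.1, not_lt.1 h6⟩
      exact rel_asymm (h t ht hlt htr z hzT h5 (lt_of_le_of_ne h4.2 hzr)) hz.1.2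
    · refine ENNReal.toReal_mono (dblk_fin (dblk_Xd_sub t l m)) (measure_mono ?_)
      intro z hz
      exact ⟨hz.1, fun h4 => hz.2 ⟨h4.1, h4.2.trans hmr.le⟩⟩
  · obtain ⟨t, ht, hlt, htr⟩ := exists_Tg he h2.zero_le h2.lt h2.le_one
    have hm1 : m ≤ 1 := h1.le_one
    rw [lo_eq he h2 ht hlt htr, lo_eq he h3 ht (hlm.trans hlt) htr,
      ← dblk_add (dblk_Xd_sub t l r) h3.zero_le hlm.le hm1
        (fun z hz h4 => hz.2 ⟨h4.1.le, (h4.2.trans hmr).le⟩)]
    apply le_antisymm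
    · refine dblk_mono he l m (dblk_Xd_sub t m r) (union_subset (dblk_Xd_sub t l r)
        (dblk_Ioo_sub h3.zero_le hm1)) ?_
      intro z hz hzT hzl hzm
      by_cases h4 : z ∈ Icc l r
      · right
        refine ⟨lt_of_le_of_ne h4.1 (Ne.symm hzl), ?_⟩
        by_contra h5
        exact hz.2 ⟨not_lt.1 h5, h4.2⟩
      · left; exact ⟨hz.1, h4⟩
    · refine dblk_mono he 0 0 (union_subset (dblk_Xd_sub t l r)
        (dblk_Ioo_sub h3.zero_le hm1)) (dblk_Xd_sub t m r) ?_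
      intro z hz hzT _ _
      rcases hz with hz | hz
      · exact ⟨hz.1, fun h4 => hz.2 ⟨hlm.le.trans h4.1, h4.2⟩⟩
      · exact ⟨⟨dblk_Ioo_sub h3.zero_le hm1 hz, h z hzT hz.1 hz.2 t ht hlt htr⟩,
          fun h4 => absurd h4.1 (not_le.2 hz.2)⟩

/-- two adjacent blocks, the right one is below the left one -/
theorem lo_minus (he : Nice e) {l m r : ℝ} (hlm : l < m) (hmr : m < r) (h1 : IsBlk e s l m)
    (h2 : IsBlk e s m r) (h3 : IsBlk e s l r)
    (h : ∀ t ∈ Tg e, l < t → t < m → ∀ t' ∈ Tg e, m < t' → t' < r → Rel e s t' t) :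
    lo e s m r = lo e s l r ∧ lo e s l m = lo e s l r + (r - m) := by
  constructor
  · obtain ⟨t, ht, hlt, htr⟩ := exists_Tg he h2.zero_le h2.lt h2.le_one
    rw [lo_eq he h2 ht hlt htr, lo_eq he h3 ht (hlm.trans hlt) htr]
    apply le_antisymm
    · refine dblk_mono he l l (dblk_Xd_sub t m r) (dblk_Xd_sub t l r) ?_
      intro z hz hzT hzl _
      refine ⟨hz.1, fun h4 => ?_⟩
      have h5 : z < m := by
        by_contra h6
        exact hz.2 ⟨not_lt.1 h6, h4.2⟩
      exact rel_asymm (h z hzT (lt_of_le_of_ne h4.1 (Ne.symm hzl)) h5 t ht hlt htr) hz.1.2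
    · refine ENNReal.toReal_mono (dblk_fin (dblk_Xd_sub t m r)) (measure_mono ?_)
      intro z hz
      exact ⟨hz.1, fun h4 => hz.2 ⟨hlm.le.trans h4.1, h4.2⟩⟩
  · obtain ⟨t, ht, hlt, htr⟩ := exists_Tg he h1.zero_le h1.lt h1.le_one
    have hm0 : 0 ≤ m := h2.zero_le
    rw [lo_eq he h1 ht hlt htr, lo_eq he h3 ht hlt (htr.trans hmr),
      ← dblk_add (dblk_Xd_sub t l r) hm0 hmr.le h3.le_one
        (fun z hz h4 => hz.2 ⟨(hlm.trans h4.1).le, h4.2.le⟩)]
    apply le_antisymm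
    · refine dblk_mono he r m (dblk_Xd_sub t l m) (union_subset (dblk_Xd_sub t l r)
        (dblk_Ioo_sub hm0 h3.le_one)) ?_
      intro z hz hzT hzr hzm
      by_cases h4 : z ∈ Icc l r
      · right
        refine ⟨?_, lt_of_le_of_ne h4.2 hzr⟩
        by_contra h5
        exact hz.2 ⟨h4.1, not_lt.1 h5⟩
      · left; exact ⟨hz.1, h4⟩
    · refine dblk_mono he 0 0 (union_subset (dblk_Xd_sub t l r)
        (dblk_Ioo_sub hm0 h3.le_one)) (dblk_Xd_sub t l m) ?_
      intro z hz hzT _ _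
      rcases hz with hz | hz
      · exact ⟨hz.1, fun h4 => hz.2 ⟨h4.1, h4.2.trans hmr.le⟩⟩
      · exact ⟨⟨dblk_Ioo_sub hm0 h3.le_one hz, h t ht hlt htr z hzT hz.1 hz.2⟩,
          fun h4 => absurd h4.2 (not_le.2 hz.1)⟩

end Pool.Agent.BSP
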