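import Pool.Agent.BSP.DDefs

set_option autoImplicit false

/-!
# Coverings
-/

namespace Pool.Agent.BSP

open MeasureTheory Set Filter
open scoped ENNReal NNReal Topology

theorem Cv.mono {X Y : Set (ℝ × ℝ)} {n k : ℕ} {δ : ℝ} (h : Cv Y n δ) (hX : X ⊆ Y)
    (hn : n ≤ k) : Cv X k δ := by
  obtain ⟨F, hF, hd⟩ := h
  refine ⟨fun i => if hi : (i : ℕ) < n then F ⟨i, hi⟩ else ∅, ?_, ?_⟩
  · intro x hx
    obtain ⟨i, hi⟩ := mem_iUnion.1 (hF (hX hx))
    refine mem_iUnion.2 ⟨⟨i, lt_of_lt_of_le i.2 hn⟩, ?_⟩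
    simp only [i.2, dif_pos]
    exact hi
  · intro i p hp q hq
    by_cases hi : (i : ℕ) < n
    · simp only [hi, dif_pos] at hp hq
      exact hd _ p hp q hq
    · simp only [hi, dif_neg, not_false_iff] at hp
      exact absurd hp (notMem_empty _)

theorem Cv.union {X Y : Set (ℝ × ℝ)} {n k : ℕ} {δ : ℝ} (h : Cv X n δ) (h' : Cv Y k δ) :
    Cv (X ∪ Y) (n + k) δ := by
  obtain ⟨F, hF, hd⟩ := h
  obtain ⟨G, hG, hd'⟩ := h'
  refine ⟨Fin.append F G, ?_, ?_⟩
  · rintro x (hx | hx)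
    · obtain ⟨i, hi⟩ := mem_iUnion.1 (hF hx)
      refine mem_iUnion.2 ⟨Fin.castAdd k i, ?_⟩
      rw [Fin.append_left]
      exact hi
    · obtain ⟨i, hi⟩ := mem_iUnion.1 (hG hx)
      refine mem_iUnion.2 ⟨Fin.natAdd n i, ?_⟩
      rw [Fin.append_right]
      exact hi
  · intro i
    refine Fin.addCases (fun j => ?_) (fun j => ?_) i
    · intro p hp q hq
      rw [Fin.append_left] at hp hq
      exact hd j p hp q hq
    · intro p hp q hq
      rw [Fin.append_right] at hp hq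
      exact hd' j p hp q hq

theorem Cv.empty (n : ℕ) (δ : ℝ) : Cv ∅ n δ :=
  ⟨fun _ => ∅, empty_subset _, fun _ _ hp => absurd hp (notMem_empty _)⟩

theorem Cv.rect {a b c d δ : ℝ} (h1 : b - a ≤ δ) (h2 : d - c ≤ δ) :
    Cv (Icc a b ×ˢ Icc c d) 1 δ := by
  refine ⟨fun _ => Icc a b ×ˢ Icc c d, fun x hx => mem_iUnion.2 ⟨0, hx⟩, ?_⟩
  intro _ p hp q hq
  obtain ⟨⟨hp1, hp2⟩, hp3, hp4⟩ := hp
  obtain ⟨⟨hq1, hq2⟩, hq3, hq4⟩ := hq
  rw [Prod.dist_eq]
  refine max_le ?_ ?_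
  · rw [Real.dist_eq, abs_le]
    constructor <;> linarith
  · rw [Real.dist_eq, abs_le]
    constructor <;> linarith

/-- the Euclidean metric and the maximum metric give the same dimension -/
theorem dimE_eq (A : Set (ℝ × ℝ)) : dimE A = dimH A := by
  unfold dimE
  apply le_antisymm
  · exact (WithLp.prod_lipschitzWith_toLp 2 ℝ ℝ).dimH_image_le A
  · have h := (WithLp.prod_lipschitzWith_ofLp 2 ℝ ℝ).dimH_image_le
      ((WithLp.toLp 2 : ℝ × ℝ → _) '' A)
    rw [image_image] at h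
    simpa using h

theorem dimH_le_of_Cv {A : Set (ℝ × ℝ)} {β : ℝ} (hβ : 0 ≤ β)
    (H : ∀ ε : ℝ, 0 < ε → ∃ (n : ℕ) (δ : ℝ), 0 < δ ∧ Cv A n δ ∧ δ < ε ∧ n * δ ^ β < ε) :
    dimH A ≤ ENNReal.ofReal β := by
  rcases eq_or_lt_of_le hβ with hβ0 | hβ0
  · -- `β = 0`
    obtain ⟨n, δ, hδ, ⟨F, hF, -⟩, -, hn⟩ := H 1 one_pos
    rw [← hβ0, Real.rpow_zero, mul_one] at hn
    have hn0 : n = 0 := by
      have : n < 1 := by exact_mod_cast hn
      omega
    subst hn0
    have hA : A = ∅ := by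
      rw [eq_empty_iff_forall_notMem]
      intro x hx
      obtain ⟨i, -⟩ := mem_iUnion.1 (hF hx)
      exact i.elim0
    rw [hA, dimH_empty]
    exact bot_le
  · -- `β > 0`
    have hpos : ∀ k : ℕ, (0 : ℝ) < 1 / ((k : ℝ) + 1) := fun k => by positivity
    choose n δ hδ hC hδlt hn using fun k : ℕ => H _ (hpos k)
    choose F hF hd using hC
    have hlim : Tendsto (fun k : ℕ => 1 / ((k : ℝ) + 1)) atTop (𝓝 0) :=
      tendsto_one_div_add_atTop_nhds_zero_nat
    have hδ0 : Tendsto (fun k => ENNReal.ofReal (δ k)) atTop (𝓝 0) := by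
      have h1 : Tendsto δ atTop (𝓝 0) :=
        squeeze_zero (fun k => (hδ k).le) (fun k => (hδlt k).le) hlim
      have h2 := (ENNReal.continuous_ofReal.tendsto 0).comp h1
      rw [ENNReal.ofReal_zero] at h2
      exact h2
    have hdiam : ∀ k i, Metric.ediam (F k i) ≤ ENNReal.ofReal (δ k) := by
      intro k i
      refine Metric.ediam_le fun p hp q hq => ?_
      rw [edist_dist]
      exact ENNReal.ofReal_le_ofReal (hd k i p hp q hq)
    have hle := Measure.hausdorffMeasure_le_liminf_sum β A (l := atTop)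
      (fun k => ENNReal.ofReal (δ k)) hδ0 F (Eventually.of_forall fun k i => hdiam k i)
      (Eventually.of_forall fun k => hF k)
    have hsum : ∀ k, ∑ i, Metric.ediam (F k i) ^ β ≤ ENNReal.ofReal (1 / ((k : ℝ) + 1)) := by
      intro k
      calc ∑ i, Metric.ediam (F k i) ^ β ≤ ∑ _i : Fin (n k), ENNReal.ofReal (δ k) ^ β :=
            Finset.sum_le_sum fun i _ => ENNReal.rpow_le_rpow (hdiam k i) hβ
        _ = (n k : ℝ≥0∞) * ENNReal.ofReal (δ k) ^ β := by simp
        _ = ENNReal.ofReal (n k * δ k ^ β) := by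
            rw [ENNReal.ofReal_mul (Nat.cast_nonneg _), ENNReal.ofReal_natCast,
              ENNReal.ofReal_rpow_of_pos (hδ k)]
        _ ≤ _ := ENNReal.ofReal_le_ofReal (hn k).le
    have hlim2 : Tendsto (fun k : ℕ => ENNReal.ofReal (1 / ((k : ℝ) + 1))) atTop (𝓝 0) := by
      have h2 := (ENNReal.continuous_ofReal.tendsto 0).comp hlim
      rw [ENNReal.ofReal_zero] at h2
      exact h2
    have hzero : μH[β] A ≤ 0 := by
      refine hle.trans ?_
      rw [← hlim2.liminf_eq]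
      exact liminf_le_liminf (Eventually.of_forall hsum)
    have hβN : (β.toNNReal : ℝ) = β := Real.coe_toNNReal β hβ
    have : μH[(β.toNNReal : ℝ)] A ≠ ∞ := by
      rw [hβN]
      exact ne_top_of_le_ne_top ENNReal.zero_ne_top hzero
    exact dimH_le_of_hausdorffMeasure_ne_top this

end Pool.Agent.BSP
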