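import Pool.Agent.BSP.DOrd

set_option autoImplicit false

/-!
# Excursion intervals are blocks
-/

namespace Pool.Agent.BSP

open MeasureTheory Set Filter
open scoped ENNReal NNReal Topology

variable {e : ℝ → ℝ} {s : ℝ → Bool}

theorem isExc_root (he : Nice e) : IsExc e 0 1 0 :=
  ⟨le_refl _, one_pos, le_refl _, he.zero, he.one, he.pos⟩

private theorem argmin_extend {z t t' μ : ℝ} (h : IsArgmin e z t μ) (hμ : μ < t')
    (hx : ∀ x, t < x → x ≤ t' → e μ < e x) : IsArgmin e z t' μ := by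
  refine ⟨h.1, hμ, fun x h1 h2 h3 => ?_⟩
  rcases le_or_gt x t with h4 | h4
  · exact h.2.2 x h1 h4 h3
  · exact hx x h4 h2

private theorem argmin_extend' {z t t' μ : ℝ} (h : IsArgmin e t z μ) (hμ : t' < μ)
    (hx : ∀ x, t' ≤ x → x < t → e μ < e x) : IsArgmin e t' z μ := by
  refine ⟨hμ, h.2.1, fun x h1 h2 h3 => ?_⟩
  rcases le_or_gt t x with h4 | h4
  · exact h.2.2 x h4 h2 h3
  · exact hx x h1 h4

private theorem isBlk_of (he : Nice e) {l r : ℝ} (h0 : 0 ≤ l) (hlr : l < r) (h1 : r ≤ 1)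
    (hL : ∀ z ∈ Tg e, z < l → ∃ y, z ≤ y ∧ y ≤ l ∧ ∀ x, l < x → x < r → e y < e x)
    (hR : ∀ z ∈ Tg e, r < z → ∃ y, r ≤ y ∧ y ≤ z ∧ ∀ x, l < x → x < r → e y < e x) :
    IsBlk e s l r := by
  refine ⟨h0, hlr, h1, fun z hz hz' t ht hlt htr t' ht' hlt' htr' h => ?_⟩
  rcases hz' with hz' | hz'
  · obtain ⟨y, hy1, hy2, hy3⟩ := hL z hz hz'
    obtain ⟨μ, hμ⟩ := exists_argmin_Tg he hz ht (hz'.trans hlt)
    have h2 : μ ≤ l := by
      by_contra hcon
      push Not at hcon
      have h3 := hy3 μ hcon (hμ.2.1.trans htr)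
      have h4 := hμ.2.2 y hy1 (by linarith) (by intro hh; rw [hh] at hy2; linarith)
      exact absurd h3 (not_lt.mpr h4.le)
    have h5 : e μ ≤ e y := by
      by_cases hh : y = μ
      · rw [hh]
      · exact (hμ.2.2 y hy1 (by linarith) hh).le
    have h6 : IsArgmin e z t' μ := argmin_extend hμ (by linarith) fun x hx1 hx2 =>
      h5.trans_lt (hy3 x (by linarith) (by linarith))
    exact (rel_iff_of_argmin h6).mpr ((rel_iff_of_argmin hμ).mp h)
  · obtain ⟨y, hy1, hy2, hy3⟩ := hR z hz hz'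
    obtain ⟨μ, hμ⟩ := exists_argmin_Tg he ht hz (htr.trans hz')
    have h2 : r ≤ μ := by
      by_contra hcon
      push Not at hcon
      have h3 := hy3 μ (hlt.trans hμ.1) hcon
      have h4 := hμ.2.2 y (by linarith) hy2 (by intro hh; rw [hh] at hy1; linarith)
      exact absurd h3 (not_lt.mpr h4.le)
    have h5 : e μ ≤ e y := by
      by_cases hh : y = μ
      · rw [hh]
      · exact (hμ.2.2 y (by linarith) hy2 hh).le
    have h6 : IsArgmin e t' z μ := argmin_extend' hμ (by linarith) fun x hx1 hx2 =>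
      h5.trans_lt (hy3 x (by linarith) (by linarith))
    exact (rel_iff_of_argmin' h6).mpr ((rel_iff_of_argmin' hμ).mp h)

/-- if `z < l`, then the minimum of `e` over `[z, t]` is attained at a point of `(z, l]` which does
not depend on `t` -/
theorem IsExc.isBlk (he : Nice e) {l r h : ℝ} (hE : IsExc e l r h) : IsBlk e s l r :=
  isBlk_of he hE.zero_le hE.lt hE.le_one
    (fun _ _ hz' => ⟨l, hz'.le, le_refl _, fun x h1 h2 => by
      rw [hE.left]
      exact hE.above x h1 h2⟩)
    (fun _ _ hz' => ⟨r, le_refl _, hz'.le, fun x h1 h2 => by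
      rw [hE.right]
      exact hE.above x h1 h2⟩)

private theorem exists_left {f : ℝ → ℝ} (hf : Continuous f) {l m ε : ℝ} (hlm : l < m)
    (hε : 0 < ε) (hv : f l < f m) (hst : ∀ z, m - ε < z → z < m → f m < f z) :
    ∃ l', l < l' ∧ l' < m ∧ f l' = f m ∧ ∀ z, l' < z → z < m → f m < f z := by
  have h1 : l ≤ m - ε := by
    by_contra hcon
    push Not at hcon
    exact absurd (hst l hcon hlm) (not_lt.mpr hv.le)
  have hcl : IsCompact {z | z ∈ Icc l (m - ε) ∧ f z ≤ f m} :=
    (isCompact_Icc (a := l) (b := m - ε)).inter_right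
      (isClosed_le hf continuous_const)
  obtain ⟨l', hl', hmax⟩ := hcl.exists_isGreatest
    ⟨l, ⟨⟨le_refl _, h1⟩, hv.le⟩⟩
  obtain ⟨⟨hl1, hl2⟩, hl3⟩ := hl'
  have h2 : l' < m := by linarith
  have h3 : ∀ z, l' < z → z < m → f m < f z := by
    intro z hz1 hz2
    rcases lt_or_ge (m - ε) z with h4 | h4
    · exact hst z h4 hz2
    · by_contra hcon
      push Not at hcon
      have := hmax ⟨⟨by linarith, h4⟩, hcon⟩
      linarith
  have h4 : f m ≤ f l' := by
    have h5 : Tendsto f (𝓝[>] l') (𝓝 (f l')) := hf.continuousWithinAt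
    refine ge_of_tendsto h5 ?_
    filter_upwards [Ioo_mem_nhdsGT h2] with z hz
    exact (h3 z hz.1 hz.2).le
  have h5 : f l' = f m := le_antisymm hl3 h4
  refine ⟨l', lt_of_le_of_ne hl1 ?_, h2, h5, h3⟩
  rintro rfl
  exact absurd h5 hv.ne

private theorem strict_min (he : Nice e) {m : ℝ} (h0 : 0 < m) (h1 : m < 1)
    (hm : IsLocalMin e m) : ∃ ε, 0 < ε ∧ ∀ z, |z - m| < ε → z ≠ m → e m < e z := by
  have h2 : ∀ᶠ z in 𝓝 m, e m ≤ e z ∧ 0 < z ∧ z < 1 :=
    hm.and ((lt_mem_nhds h0).and (gt_mem_nhds h1))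
  obtain ⟨ε, hε, h3⟩ := Metric.eventually_nhds_iff.mp h2
  refine ⟨ε, hε, fun z hz hzm => ?_⟩
  have h4 := h3 (show dist z m < ε from hz)
  refine lt_of_le_of_ne h4.1 fun h5 => hzm ?_
  have h6 : IsLocalMin e z := by
    refine Metric.eventually_nhds_iff.mpr ⟨ε - |z - m|, by linarith, fun x hx => ?_⟩
    rw [← h5]
    refine (h3 ?_).1
    have h7 : |x - m| ≤ |x - z| + |z - m| := abs_sub_le x z m
    rw [Real.dist_eq] at hx ⊢
    linarith
  exact (he.dist m z h0 h1 h4.2.1 h4.2.2 hm h6 h5).symm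

/-- the interval around a local minimum `m` above the level `e m` -/
theorem exists_inner (he : Nice e) {l r h m : ℝ} (hE : IsExc e l r h) (hlm : l < m)
    (hmr : m < r) (hm : IsLocalMin e m) : ∃ l' r', l < l' ∧ l' < m ∧ m < r' ∧ r' < r ∧
      IsExc e l' m (e m) ∧ IsExc e m r' (e m) ∧ IsBlk e s l' r' ∧ l' ∉ Tg e ∧ m ∉ Tg e ∧
      r' ∉ Tg e ∧
      (s m = true → ∀ t ∈ Tg e, l' < t → t < m → ∀ t' ∈ Tg e, m < t' → t' < r' →
        Rel e s t t') ∧
      (s m = false → ∀ t ∈ Tg e, l' < t → t < m → ∀ t' ∈ Tg e, m < t' → t' < r' →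
        Rel e s t' t) ∧
      (∀ z, z < m → (∀ x, z ≤ x → x < m → e m < e x) → l' < z) ∧
      (∀ z, m < z → (∀ x, m < x → x ≤ z → e m < e x) → z < r') := by
  have hl0 := hE.zero_le
  have hr1 := hE.le_one
  have hm0 : 0 < m := by linarith
  have hm1 : m < 1 := by linarith
  have hv : h < e m := hE.above m hlm hmr
  obtain ⟨ε, hε, hst⟩ := strict_min he hm0 hm1 hm
  obtain ⟨l', hl1, hl2, hl3, hl4⟩ := exists_left he.cont hlm hε (by rw [hE.left]; exact hv)
    (fun z h1 h2 => hst z (by rw [abs_lt]; constructor <;> linarith) h2.ne)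
  obtain ⟨r0, hr1', hr2', hr3', hr4'⟩ := exists_left (f := fun x => e (-x)) (l := -r) (m := -m)
    (he.cont.comp continuous_neg) (by linarith) hε
    (by simp only [neg_neg]; rw [hE.right]; exact hv)
    (fun z h1 h2 => by
      simp only [neg_neg]
      exact hst (-z) (by rw [abs_lt]; constructor <;> linarith) (by intro hh; linarith))
  simp only [neg_neg] at hr3' hr4'
  obtain ⟨r', rfl⟩ : ∃ r', r0 = -r' := ⟨-r0, by ring⟩
  simp only [neg_neg] at hr3'
  have hr2 : m < r' := by linarith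
  have hr3 : r' < r := by linarith
  have hr4 : ∀ z, m < z → z < r' → e m < e z := by
    intro z hz1 hz2
    have := hr4' (-z) (by linarith) (by linarith)
    simpa using this
  have hge : ∀ x, l' < x → x < r' → e m ≤ e x := by
    intro x hx1 hx2
    rcases lt_trichotomy x m with h1 | h1 | h1
    · exact (hl4 x hx1 h1).le
    · rw [h1]
    · exact (hr4 x h1 hx2).le
  have hnl : ¬ IsLocalMin e l' := fun h1 =>
    hl2.ne (he.dist l' m (by linarith) (by linarith) hm0 hm1 h1 hm hl3)
  have hnr : ¬ IsLocalMin e r' := fun h1 =>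
    hr2.ne' (he.dist r' m (by linarith) (by linarith) hm0 hm1 h1 hm hr3')
  have hargm : ∀ t t', l' < t → t < m → m < t' → t' < r' → IsArgmin e t t' m := by
    intro t t' h1 h2 h3 h4
    refine ⟨h2, h3, fun z h5 h6 h7 => ?_⟩
    rcases lt_or_gt_of_ne h7 with h8 | h8
    · exact hl4 z (by linarith) h8
    · exact hr4 z h8 (by linarith)
  refine ⟨l', r', hl1, hl2, hr2, hr3, ⟨by linarith, hl2, hm1.le, hl3, rfl, hl4⟩,
    ⟨hm0.le, hr2, by linarith, rfl, hr3', hr4⟩, ?_, ?_, ?_, ?_, ?_, ?_, ?_, ?_⟩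
  · refine isBlk_of he (by linarith) (by linarith) (by linarith) (fun z _ hz => ?_)
      (fun z _ hz => ?_)
    · by_contra hcon
      push Not at hcon
      refine hnl (Metric.eventually_nhds_iff.mpr ⟨min (l' - z) (m - l'),
        lt_min (by linarith) (by linarith), fun x hx => ?_⟩)
      rw [Real.dist_eq, abs_lt] at hx
      have h1 := min_le_left (l' - z) (m - l')
      have h2 := min_le_right (l' - z) (m - l')
      rcases lt_or_ge l' x with h3 | h3
      · rw [hl3]
        exact (hl4 x h3 (by linarith)).le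
      · by_contra h4
        push Not at h4
        rw [hl3] at h4
        obtain ⟨x', h5, h6, h7⟩ := hcon x (by linarith) h3
        have := hge x' h5 h6
        linarith
    · by_contra hcon
      push Not at hcon
      refine hnr (Metric.eventually_nhds_iff.mpr ⟨min (z - r') (r' - m),
        lt_min (by linarith) (by linarith), fun x hx => ?_⟩)
      rw [Real.dist_eq, abs_lt] at hx
      have h1 := min_le_left (z - r') (r' - m)
      have h2 := min_le_right (z - r') (r' - m)
      rcases lt_or_ge x r' with h3 | h3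
      · rw [hr3']
        exact (hr4 x (by linarith) h3).le
      · by_contra h4
        push Not at h4
        rw [hr3'] at h4
        obtain ⟨x', h5, h6, h7⟩ := hcon x h3 (by linarith)
        have := hge x' h5 h6
        linarith
  · rintro ⟨_, _, _, h1⟩
    obtain ⟨z, h2, h3, h4⟩ := h1 (m - l') (by linarith)
    have := hl4 z h2 (by linarith)
    linarith
  · rintro ⟨_, _, _, h1⟩
    obtain ⟨z, h2, h3, h4⟩ := h1 (r' - m) (by linarith)
    have := hr4 z h2 (by linarith)
    linarith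
  · rintro ⟨_, _, h1, _⟩
    obtain ⟨z, h2, h3, h4⟩ := h1 (r' - m) (by linarith)
    have := hr4 z (by linarith) h3
    linarith
  · intro hs t _ h1 h2 t' _ h3 h4
    exact (rel_iff_of_argmin (hargm t t' h1 h2 h3 h4)).mpr hs
  · intro hs t _ h1 h2 t' _ h3 h4
    exact (rel_iff_of_argmin' (hargm t t' h1 h2 h3 h4)).mpr hs
  · intro z h1 h2
    by_contra hcon
    push Not at hcon
    have := h2 l' hcon hl2
    linarith
  · intro z h1 h2
    by_contra hcon
    push Not at hcon
    have := h2 r' hr2 hcon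
    linarith

end Pool.Agent.BSP
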