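import Pool.Agent.BSP.DBlk
import Pool.Agent.BSP.DExc
import Pool.Agent.BSP.DCv

set_option autoImplicit false

/-!
# The covering of a block: one step
-/

namespace Pool.Agent.BSP

open MeasureTheory Set Filter
open scoped ENNReal NNReal Topology

variable {e : ℝ → ℝ} {s : ℝ → Bool}

theorem cover_leaf (he : Nice e) {η l r h : ℝ} (hE : IsExc e l r h) (hη : r - l ≤ 2 * η) :
    HasCover e s η l r 1 := by
  have hB : IsBlk e s l r := hE.isBlk he
  have hC : Cv (Icc l r ×ˢ Icc (lo e s l r) (lo e s l r + (r - l))) 1 (2 * η) :=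
    Cv.rect (by linarith) (by linarith)
  refine ⟨Icc l r ×ˢ Icc (lo e s l r) (lo e s l r + (r - l)), isClosed_Icc.prod isClosed_Icc,
    Subset.rfl, ?_, hC.mono inter_subset_left (by norm_num), hC.mono inter_subset_left (by norm_num),
    hC.mono inter_subset_left (by norm_num), hC.mono inter_subset_left (by norm_num), ?_⟩
  · intro t ht h1 h2
    exact ⟨⟨h1.le, h2.le⟩, psi_mem_block he hB ht h1 h2⟩
  · intro A _
    exact hC.mono inter_subset_right (by norm_num)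

/-- if an increasing set meets a set in the rectangle `[l', m] × [c, c + a]` and a set in the
rectangle `[m, r'] × [c - b, c]`, then it meets them only in the lines `x = m` and `y = c` -/
theorem incr_cross {A : Set (ℝ × ℝ)} (hA : Incr A) {m c : ℝ} {P Q : ℝ × ℝ} (hP : P ∈ A)
    (hQ : Q ∈ A) (hP1 : P.1 ≤ m) (hP2 : c ≤ P.2) (hQ1 : m ≤ Q.1) (hQ2 : Q.2 ≤ c) :
    (P.1 = m ∨ P.2 = c) ∧ (Q.1 = m ∨ Q.2 = c) := by
  rcases hA P hP hQ with h | h
  · obtain ⟨⟨_, h2⟩, _, _⟩ := h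
    exact ⟨Or.inl (le_antisymm hP1 (hQ1.trans h2)), Or.inl (le_antisymm (h2.trans hP1) hQ1)⟩
  · obtain ⟨_, ⟨h3, _⟩⟩ := h
    exact ⟨Or.inr (le_antisymm (h3.trans hQ2) hP2), Or.inr (le_antisymm hQ2 (hP2.trans h3))⟩

private theorem corner_iff {a b l l' r' r : ℝ} {Bt Tp : Set ℝ} {p1 p2 : Prop} {c d : ℝ}
    (hBtm : ∀ y, y ∈ Bt ↔ p1 ∧ a ≤ y ∧ y ≤ b) (hTpm : ∀ y, y ∈ Tp ↔ p2 ∧ c ≤ y ∧ y ≤ d)
    (q : ℝ × ℝ) : q ∈ (Icc l l' ×ˢ Bt ∪ Icc r' r ×ˢ Bt) ∪ (Icc l l' ×ˢ Tp ∪ Icc r' r ×ˢ Tp) ↔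
      ((l ≤ q.1 ∧ q.1 ≤ l') ∨ (r' ≤ q.1 ∧ q.1 ≤ r)) ∧
      ((p1 ∧ a ≤ q.2 ∧ q.2 ≤ b) ∨ (p2 ∧ c ≤ q.2 ∧ q.2 ≤ d)) := by
  simp only [mem_union, mem_prod, mem_Icc, hBtm, hTpm]
  rw [← or_and_right, ← or_and_right, ← and_or_left]

/-- the covering step, without reference to the function -/
private theorem node_core {sg : Bool} {c c' b1 b2 l r l' r' m η : ℝ} {S1 S2 : Set (ℝ × ℝ)}
    {G : Set ℝ} {ψ : ℝ → ℝ} (hl : l < l') (hlm : l' < m) (hmr : m < r') (hr : r' < r)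
    (hN1 : c ≤ c') (hN2 : c' + (r' - l') ≤ c + (r - l))
    (hpos : (sg = true ∧ b1 = c' ∧ b2 = c' + (m - l')) ∨
      (sg = false ∧ b2 = c' ∧ b1 = c' + (r' - m)))
    (hψ : ∀ t ∈ G, l < t → t < r → ψ t ∈ Icc c (c + (r - l)))
    (hout : ∀ t ∈ G, l < t → t < r → (t < l' ∨ r' < t) →
      (ψ t ≤ c' ∧ c < c') ∨ (c' + (r' - l') ≤ ψ t ∧ c' + (r' - l') < c + (r - l)))
    (hTl : l' ∉ G) (hTm : m ∉ G) (hTr : r' ∉ G)
    (hη1 : l' - l ≤ η) (hη2 : r - r' ≤ η) {z1 z2 : ℕ} (hz1 : 1 ≤ z1)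
    (hS1c : IsClosed S1) (hS2c : IsClosed S2)
    (hS1s : S1 ⊆ Icc l' m ×ˢ Icc b1 (b1 + (m - l')))
    (hS2s : S2 ⊆ Icc m r' ×ˢ Icc b2 (b2 + (r' - m)))
    (hS1p : ∀ t ∈ G, l' < t → t < m → (t, ψ t) ∈ S1)
    (hS2p : ∀ t ∈ G, m < t → t < r' → (t, ψ t) ∈ S2)
    (hS1r : Cv (S1 ∩ {q | q.1 = m}) 2 (2 * η)) (hS1b : Cv (S1 ∩ {q | q.2 = b1}) 2 (2 * η))
    (hS1t : Cv (S1 ∩ {q | q.2 = b1 + (m - l')}) 2 (2 * η))
    (hS2l : Cv (S2 ∩ {q | q.1 = m}) 2 (2 * η)) (hS2b : Cv (S2 ∩ {q | q.2 = b2}) 2 (2 * η))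
    (hS2t : Cv (S2 ∩ {q | q.2 = b2 + (r' - m)}) 2 (2 * η))
    (hS1A : ∀ A, Incr A → Cv (A ∩ S1) (8 * z1) (2 * η))
    (hS2A : ∀ A, Incr A → Cv (A ∩ S2) (8 * z2) (2 * η)) :
    ∃ S : Set (ℝ × ℝ), IsClosed S ∧ S ⊆ Icc l r ×ˢ Icc c (c + (r - l)) ∧
      (∀ t ∈ G, l < t → t < r → (t, ψ t) ∈ S) ∧
      Cv (S ∩ {q | q.1 = l}) 2 (2 * η) ∧ Cv (S ∩ {q | q.1 = r}) 2 (2 * η) ∧
      Cv (S ∩ {q | q.2 = c}) 2 (2 * η) ∧ Cv (S ∩ {q | q.2 = c + (r - l)}) 2 (2 * η) ∧
      ∀ A, Incr A → Cv (A ∩ S) (8 * (1 + comb sg z1 z2)) (2 * η) := by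
  classical
  have hb1c : c' ≤ b1 := by rcases hpos with ⟨_, h, _⟩ | ⟨_, _, h⟩ <;> linarith
  have hb2c : c' ≤ b2 := by rcases hpos with ⟨_, _, h⟩ | ⟨_, h, _⟩ <;> linarith
  have hb1t : b1 + (m - l') ≤ c' + (r' - l') := by
    rcases hpos with ⟨_, h, _⟩ | ⟨_, _, h⟩ <;> linarith
  have hb2t : b2 + (r' - m) ≤ c' + (r' - l') := by
    rcases hpos with ⟨_, _, h⟩ | ⟨_, h, _⟩ <;> linarith
  set Bt : Set ℝ := if c < c' then Icc c c' else ∅ with hBt
  set Tp : Set ℝ := if c' + (r' - l') < c + (r - l) then Icc (c' + (r' - l')) (c + (r - l)) else ∅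
    with hTp
  have hBtc : IsClosed Bt := by
    rw [hBt]; split_ifs
    · exact isClosed_Icc
    · exact isClosed_empty
  have hTpc : IsClosed Tp := by
    rw [hTp]; split_ifs
    · exact isClosed_Icc
    · exact isClosed_empty
  have hBtm : ∀ y, y ∈ Bt ↔ c < c' ∧ c ≤ y ∧ y ≤ c' := by
    intro y
    rw [hBt]; split_ifs with h
    · simp only [mem_Icc, h, true_and]
    · simp only [h, false_and, mem_empty_iff_false]
  have hTpm : ∀ y, y ∈ Tp ↔ c' + (r' - l') < c + (r - l) ∧ c' + (r' - l') ≤ y ∧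
      y ≤ c + (r - l) := by
    intro y
    rw [hTp]; split_ifs with h
    · simp only [mem_Icc, h, true_and]
    · simp only [h, false_and, mem_empty_iff_false]
  have cvB : ∀ a b : ℝ, b - a ≤ η → Cv (Icc a b ×ˢ Bt) 1 (2 * η) := by
    intro a b hab
    have : Cv (Icc a b ×ˢ Icc c c') 1 (2 * η) := Cv.rect (by linarith) (by linarith)
    refine this.mono ?_ le_rfl
    intro q hq
    exact ⟨hq.1, ((hBtm _).1 hq.2).2⟩
  have cvT : ∀ a b : ℝ, b - a ≤ η → Cv (Icc a b ×ˢ Tp) 1 (2 * η) := by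
    intro a b hab
    have : Cv (Icc a b ×ˢ Icc (c' + (r' - l')) (c + (r - l))) 1 (2 * η) :=
      Cv.rect (by linarith) (by linarith)
    refine this.mono ?_ le_rfl
    intro q hq
    exact ⟨hq.1, ((hTpm _).1 hq.2).2⟩
  set K : Set (ℝ × ℝ) := (Icc l l' ×ˢ Bt ∪ Icc r' r ×ˢ Bt) ∪ (Icc l l' ×ˢ Tp ∪ Icc r' r ×ˢ Tp)
    with hK
  have hK4 : Cv K 4 (2 * η) :=
    ((cvB l l' hη1).union (cvB r' r hη2)).union ((cvT l l' hη1).union (cvT r' r hη2))
  have hKc : IsClosed K :=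
    ((isClosed_Icc.prod hBtc).union (isClosed_Icc.prod hBtc)).union
      ((isClosed_Icc.prod hTpc).union (isClosed_Icc.prod hTpc))
  -- description of the points of the corners
  have hKm : ∀ q : ℝ × ℝ, q ∈ K ↔ ((l ≤ q.1 ∧ q.1 ≤ l') ∨ (r' ≤ q.1 ∧ q.1 ≤ r)) ∧
      ((c < c' ∧ c ≤ q.2 ∧ q.2 ≤ c') ∨ (c' + (r' - l') < c + (r - l) ∧
        c' + (r' - l') ≤ q.2 ∧ q.2 ≤ c + (r - l))) := by
    intro q
    rw [hK]
    exact corner_iff hBtm hTpm q
  have hS1m : ∀ q : ℝ × ℝ, q ∈ S1 → l' ≤ q.1 ∧ q.1 ≤ m ∧ b1 ≤ q.2 ∧ q.2 ≤ b1 + (m - l') := by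
    intro q hq
    obtain ⟨⟨h1, h2⟩, h3, h4⟩ := hS1s hq
    exact ⟨h1, h2, h3, h4⟩
  have hS2m : ∀ q : ℝ × ℝ, q ∈ S2 → m ≤ q.1 ∧ q.1 ≤ r' ∧ b2 ≤ q.2 ∧ q.2 ≤ b2 + (r' - m) := by
    intro q hq
    obtain ⟨⟨h1, h2⟩, h3, h4⟩ := hS2s hq
    exact ⟨h1, h2, h3, h4⟩
  refine ⟨K ∪ (S1 ∪ S2), hKc.union (hS1c.union hS2c), ?_, ?_, ?_, ?_, ?_, ?_, ?_⟩
  · -- the set is contained in the rectangle
    rintro q (hq | hq | hq)
    · obtain ⟨h1, h2⟩ := (hKm q).1 hq
      refine ⟨⟨?_, ?_⟩, ?_, ?_⟩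
      · rcases h1 with h1 | h1 <;> linarith [h1.1, h1.2]
      · rcases h1 with h1 | h1 <;> linarith [h1.1, h1.2]
      · rcases h2 with h2 | h2 <;> linarith [h2.1, h2.2.1, h2.2.2]
      · rcases h2 with h2 | h2 <;> linarith [h2.1, h2.2.1, h2.2.2]
    · obtain ⟨h1, h2, h3, h4⟩ := hS1m q hq
      exact ⟨⟨by linarith, by linarith⟩, by linarith, by linarith⟩
    · obtain ⟨h1, h2, h3, h4⟩ := hS2m q hq
      exact ⟨⟨by linarith, by linarith⟩, by linarith, by linarith⟩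
  · -- the points `(t, psi t)`
    intro t ht h1 h2
    have hne1 : t ≠ l' := fun h => hTl (h ▸ ht)
    have hne2 : t ≠ m := fun h => hTm (h ▸ ht)
    have hne3 : t ≠ r' := fun h => hTr (h ▸ ht)
    have hps := hψ t ht h1 h2
    rcases lt_or_gt_of_ne hne1 with h3 | h3
    · left
      rw [hKm]
      refine ⟨Or.inl ⟨h1.le, h3.le⟩, ?_⟩
      rcases hout t ht h1 h2 (Or.inl h3) with ⟨h4, h5⟩ | ⟨h4, h5⟩
      · exact Or.inl ⟨h5, hps.1, h4⟩
      · exact Or.inr ⟨h5, h4, hps.2⟩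
    · rcases lt_or_gt_of_ne hne3 with h4 | h4
      · right
        rcases lt_or_gt_of_ne hne2 with h5 | h5
        · exact Or.inl (hS1p t ht h3 h5)
        · exact Or.inr (hS2p t ht h5 h4)
      · left
        rw [hKm]
        refine ⟨Or.inr ⟨h4.le, h2.le⟩, ?_⟩
        rcases hout t ht h1 h2 (Or.inr h4) with ⟨h4, h5⟩ | ⟨h4, h5⟩
        · exact Or.inl ⟨h5, hps.1, h4⟩
        · exact Or.inr ⟨h5, h4, hps.2⟩
  · -- left line
    refine ((cvB l l' hη1).union (cvT l l' hη1)).mono ?_ le_rfl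
    rintro q ⟨hq | hq | hq, hq1⟩
    · have hq1' : q.1 = l := hq1
      obtain ⟨_, h2⟩ := (hKm q).1 hq
      rcases h2 with h2 | h2
      · left
        exact ⟨⟨by linarith, by linarith⟩, (hBtm _).2 h2⟩
      · right
        exact ⟨⟨by linarith, by linarith⟩, (hTpm _).2 h2⟩
    · have hq1' : q.1 = l := hq1
      obtain ⟨h1, _⟩ := hS1m q hq
      exact absurd h1 (by linarith)
    · have hq1' : q.1 = l := hq1
      obtain ⟨h1, _⟩ := hS2m q hq
      exact absurd h1 (by linarith)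
  · -- right line
    refine ((cvB r' r hη2).union (cvT r' r hη2)).mono ?_ le_rfl
    rintro q ⟨hq | hq | hq, hq1⟩
    · have hq1' : q.1 = r := hq1
      obtain ⟨_, h2⟩ := (hKm q).1 hq
      rcases h2 with h2 | h2
      · left
        exact ⟨⟨by linarith, by linarith⟩, (hBtm _).2 h2⟩
      · right
        exact ⟨⟨by linarith, by linarith⟩, (hTpm _).2 h2⟩
    · have hq1' : q.1 = r := hq1
      obtain ⟨_, h1, _⟩ := hS1m q hq
      exact absurd h1 (by linarith)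
    · have hq1' : q.1 = r := hq1
      obtain ⟨_, h1, _⟩ := hS2m q hq
      exact absurd h1 (by linarith)
  · -- bottom line
    by_cases hcc : c < c'
    · refine ((cvB l l' hη1).union (cvB r' r hη2)).mono ?_ le_rfl
      rintro q ⟨hq | hq | hq, hq1⟩
      · have hq1' : q.2 = c := hq1
        obtain ⟨h1, h2⟩ := (hKm q).1 hq
        rcases h2 with h2 | h2
        · rcases h1 with h1 | h1
          · exact Or.inl ⟨h1, (hBtm _).2 h2⟩
          · exact Or.inr ⟨h1, (hBtm _).2 h2⟩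
        · exact absurd h2.2.1 (by linarith)
      · have hq1' : q.2 = c := hq1
        obtain ⟨_, _, h1, _⟩ := hS1m q hq
        exact absurd h1 (by linarith)
      · have hq1' : q.2 = c := hq1
        obtain ⟨_, _, h1, _⟩ := hS2m q hq
        exact absurd h1 (by linarith)
    · have hcc' : c' = c := le_antisymm (not_lt.1 hcc) hN1
      rcases hpos with ⟨_, hp1, hp2⟩ | ⟨_, hp1, hp2⟩
      · refine hS1b.mono ?_ le_rfl
        rintro q ⟨hq | hq | hq, hq1⟩
        · have hq1' : q.2 = c := hq1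
          obtain ⟨_, h2⟩ := (hKm q).1 hq
          rcases h2 with h2 | h2
          · exact absurd h2.1 hcc
          · exact absurd h2.2.1 (by linarith)
        · have hq1' : q.2 = c := hq1
          exact ⟨hq, show q.2 = b1 by linarith⟩
        · have hq1' : q.2 = c := hq1
          obtain ⟨_, _, h1, _⟩ := hS2m q hq
          exact absurd h1 (by linarith)
      · refine hS2b.mono ?_ le_rfl
        rintro q ⟨hq | hq | hq, hq1⟩
        · have hq1' : q.2 = c := hq1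
          obtain ⟨_, h2⟩ := (hKm q).1 hq
          rcases h2 with h2 | h2
          · exact absurd h2.1 hcc
          · exact absurd h2.2.1 (by linarith)
        · have hq1' : q.2 = c := hq1
          obtain ⟨_, _, h1, _⟩ := hS1m q hq
          exact absurd h1 (by linarith)
        · have hq1' : q.2 = c := hq1
          exact ⟨hq, show q.2 = b2 by linarith⟩
  · -- top line
    by_cases hcc : c' + (r' - l') < c + (r - l)
    · refine ((cvT l l' hη1).union (cvT r' r hη2)).mono ?_ le_rfl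
      rintro q ⟨hq | hq | hq, hq1⟩
      · have hq1' : q.2 = c + (r - l) := hq1
        obtain ⟨h1, h2⟩ := (hKm q).1 hq
        rcases h2 with h2 | h2
        · exact absurd h2.2.2 (by linarith)
        · rcases h1 with h1 | h1
          · exact Or.inl ⟨h1, (hTpm _).2 h2⟩
          · exact Or.inr ⟨h1, (hTpm _).2 h2⟩
      · have hq1' : q.2 = c + (r - l) := hq1
        obtain ⟨_, _, _, h1⟩ := hS1m q hq
        exact absurd h1 (by linarith)
      · have hq1' : q.2 = c + (r - l) := hq1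
        obtain ⟨_, _, _, h1⟩ := hS2m q hq
        exact absurd h1 (by linarith)
    · have hcc' : c' + (r' - l') = c + (r - l) := le_antisymm hN2 (not_lt.1 hcc)
      rcases hpos with ⟨_, hp1, hp2⟩ | ⟨_, hp1, hp2⟩
      · refine hS2t.mono ?_ le_rfl
        rintro q ⟨hq | hq | hq, hq1⟩
        · have hq1' : q.2 = c + (r - l) := hq1
          obtain ⟨_, h2⟩ := (hKm q).1 hq
          rcases h2 with h2 | h2
          · exact absurd h2.2.2 (by linarith)
          · exact absurd h2.1 hcc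
        · have hq1' : q.2 = c + (r - l) := hq1
          obtain ⟨_, _, _, h1⟩ := hS1m q hq
          exact absurd h1 (by linarith)
        · have hq1' : q.2 = c + (r - l) := hq1
          exact ⟨hq, show q.2 = b2 + (r' - m) by linarith⟩
      · refine hS1t.mono ?_ le_rfl
        rintro q ⟨hq | hq | hq, hq1⟩
        · have hq1' : q.2 = c + (r - l) := hq1
          obtain ⟨_, h2⟩ := (hKm q).1 hq
          rcases h2 with h2 | h2
          · exact absurd h2.2.2 (by linarith)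
          · exact absurd h2.1 hcc
        · have hq1' : q.2 = c + (r - l) := hq1
          exact ⟨hq, show q.2 = b1 + (m - l') by linarith⟩
        · have hq1' : q.2 = c + (r - l) := hq1
          obtain ⟨_, _, _, h1⟩ := hS2m q hq
          exact absurd h1 (by linarith)
  · -- increasing sets
    intro A hA
    have hAS : A ∩ (K ∪ (S1 ∪ S2)) ⊆ K ∪ (A ∩ S1 ∪ A ∩ S2) := by
      rintro q ⟨hqA, hq | hq | hq⟩
      · exact Or.inl hq
      · exact Or.inr (Or.inl ⟨hqA, hq⟩)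
      · exact Or.inr (Or.inr ⟨hqA, hq⟩)
    rcases hpos with ⟨hs, _, _⟩ | ⟨hs, hp1, hp2⟩
    · refine (hK4.union ((hS1A A hA).union (hS2A A hA))).mono hAS ?_
      rw [hs]
      simp only [comb, if_true]
      omega
    · rw [hs]
      have hcomb : comb false z1 z2 = max z1 z2 := by simp [comb]
      rw [hcomb]
      by_cases he1 : (A ∩ S1).Nonempty
      · by_cases he2 : (A ∩ S2).Nonempty
        · obtain ⟨P, hPA, hP⟩ := he1
          obtain ⟨Q, hQA, hQ⟩ := he2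
          have hx1 : A ∩ S1 ⊆ S1 ∩ {q | q.1 = m} ∪ S1 ∩ {q | q.2 = b1} := by
            rintro q ⟨hqA, hq⟩
            obtain ⟨_, g1, g2, _⟩ := hS1m q hq
            obtain ⟨g3, _, _, g4⟩ := hS2m Q hQ
            rcases (incr_cross hA hqA hQA g1 g2 g3 (by linarith)).1 with h | h
            · exact Or.inl ⟨hq, h⟩
            · exact Or.inr ⟨hq, h⟩
          have hx2 : A ∩ S2 ⊆ S2 ∩ {q | q.1 = m} ∪ S2 ∩ {q | q.2 = b2 + (r' - m)} := by
            rintro q ⟨hqA, hq⟩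
            obtain ⟨_, g1, g2, _⟩ := hS1m P hP
            obtain ⟨g3, _, _, g4⟩ := hS2m q hq
            rcases (incr_cross hA hPA hqA g1 g2 g3 (by linarith)).2 with h | h
            · exact Or.inl ⟨hq, h⟩
            · refine Or.inr ⟨hq, show q.2 = b2 + (r' - m) by linarith⟩
          refine (hK4.union ((hS1r.union hS1b).union (hS2l.union hS2t))).mono
            (hAS.trans (union_subset_union_right _ (union_subset_union hx1 hx2))) ?_
          have := le_max_left z1 z2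
          omega
        · rw [not_nonempty_iff_eq_empty] at he2
          refine (hK4.union (hS1A A hA)).mono ?_ ?_
          · refine hAS.trans ?_
            rw [he2, union_empty]
          · have := le_max_left z1 z2
            omega
      · rw [not_nonempty_iff_eq_empty] at he1
        refine (hK4.union (hS2A A hA)).mono ?_ ?_
        · refine hAS.trans ?_
          rw [he1, empty_union]
        · have := le_max_right z1 z2
          omega

/-- the set is the union of the two sets of the parts and of the corner squares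
`[l, l'] × [c, c']`, `[r', r] × [c, c']` (if `c < c'`),
`[l, l'] × [c' + w', c + w]`, `[r', r] × [c' + w', c + w]` (if `c' + w' < c + w`), where
`c = lo l r`, `w = r - l`, `c' = lo l' r'`, `w' = r' - l'` -/
theorem cover_node (he : Nice e) {η l r h m l' r' : ℝ} (hE : IsExc e l r h) (hl : l < l')
    (hlm : l' < m) (hmr : m < r') (hr : r' < r) (hE1 : IsExc e l' m (e m))
    (hE2 : IsExc e m r' (e m)) (hB : IsBlk e s l' r') (hTl : l' ∉ Tg e) (hTm : m ∉ Tg e)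
    (hTr : r' ∉ Tg e)
    (hp : s m = true → ∀ t ∈ Tg e, l' < t → t < m → ∀ t' ∈ Tg e, m < t' → t' < r' →
        Rel e s t t')
    (hm : s m = false → ∀ t ∈ Tg e, l' < t → t < m → ∀ t' ∈ Tg e, m < t' → t' < r' →
        Rel e s t' t)
    (hη1 : l' - l ≤ η) (hη2 : r - r' ≤ η) {z1 z2 : ℕ} (hz1 : 1 ≤ z1) (hz2 : 1 ≤ z2)
    (h1 : HasCover e s η l' m z1) (h2 : HasCover e s η m r' z2) :
    HasCover e s η l r (1 + comb (s m) z1 z2) := by
  have _ := hz2
  have hBo : IsBlk e s l r := hE.isBlk he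
  have hB1 : IsBlk e s l' m := hE1.isBlk he
  have hB2 : IsBlk e s m r' := hE2.isBlk he
  obtain ⟨hN1, hN2⟩ := lo_nested he hBo hB hl.le hr.le
  have hpos : (s m = true ∧ lo e s l' m = lo e s l' r' ∧ lo e s m r' = lo e s l' r' + (m - l')) ∨
      (s m = false ∧ lo e s m r' = lo e s l' r' ∧ lo e s l' m = lo e s l' r' + (r' - m)) := by
    cases hs : s m with
    | true => exact Or.inl ⟨rfl, lo_plus he hlm hmr hB1 hB2 hB (hp hs)⟩
    | false => exact Or.inr ⟨rfl, lo_minus he hlm hmr hB1 hB2 hB (hm hs)⟩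
  obtain ⟨S1, hS1c, hS1s, hS1p, hS1l, hS1r, hS1b, hS1t, hS1A⟩ := h1
  obtain ⟨S2, hS2c, hS2s, hS2p, hS2l, hS2r, hS2b, hS2t, hS2A⟩ := h2
  exact node_core hl hlm hmr hr hN1 hN2 hpos
    (fun t ht h1 h2 => psi_mem_block he hBo ht h1 h2)
    (fun t ht h1 h2 h3 => psi_outside he hBo hB hl.le hr.le ht h1 h2 h3)
    hTl hTm hTr hη1 hη2 hz1 hS1c hS2c hS1s hS2s hS1p hS2p hS1r hS1b hS1t hS2l hS2b hS2t hS1A hS2A

end Pool.Agent.BSP
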