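import Pool.Agent.BSP.LI

set_option autoImplicit false

/-!
# Binary trees of a finite sequence of distinct minima
-/

namespace Pool.Agent.BSP

open MeasureTheory
open scoped ENNReal

/-- shapes: `leaf` is the shape of the empty list, `cherry s x` of a list with one item with sign
`s` and mark `x`, `node s l r` of a longer list whose lowest item has sign `s` -/
inductive Tr : Type
  | leaf : Tr
  | cherry (s x : Bool) : Tr
  | node (s : Bool) (l r : Tr) : Tr
  deriving DecidableEq

/-- an item: height of a minimum, sign, mark -/
abbrev It := ℝ × Bool × Bool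

/-- number of items -/
def Tr.size : Tr → ℕ
  | .leaf => 0
  | .cherry _ _ => 1
  | .node _ l r => l.size + 1 + r.size

/-- mirror image -/
def Tr.mir : Tr → Tr
  | .leaf => .leaf
  | .cherry s x => .cherry s x
  | .node s l r => .node s r.mir l.mir

/-- the list `L` has the shape `t` -/
def HasShape : Tr → List It → Prop
  | .leaf, L => L = []
  | .cherry s x, L => ∃ m : ℝ, L = [(m, s, x)]
  | .node s l r, L => 2 ≤ L.length ∧ ∃ (L1 : List It) (m : ℝ) (x : Bool) (L2 : List It),
      L = L1 ++ (m, s, x) :: L2 ∧ (∀ z ∈ L1, m < z.1) ∧ (∀ z ∈ L2, m < z.1) ∧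
      HasShape l L1 ∧ HasShape r L2

/-- `⊕` adds, `⊖` takes the maximum -/
def comb (s : Bool) (a b : ℕ) : ℕ := if s then a + b else max a b

/-- number of edges in the covering of an increasing set -/
def Tr.valZ : Tr → ℕ
  | .leaf => 1
  | .cherry s _ => 1 + comb s 1 1
  | .node s l r => 1 + comb s l.valZ r.valZ

/-- maximal number of marked cherries in increasing position -/
def Tr.valX : Tr → ℕ
  | .leaf => 0
  | .cherry _ x => x.toNat
  | .node s l r => comb s l.valX r.valX

theorem Tree_split_unique {L1 L2 L1' L2' : List It} {a a' : It}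
    (e : L1 ++ a :: L2 = L1' ++ a' :: L2')
    (h1 : ∀ z ∈ L1, a.1 < z.1) (h2 : ∀ z ∈ L2, a.1 < z.1)
    (h1' : ∀ z ∈ L1', a'.1 < z.1) (h2' : ∀ z ∈ L2', a'.1 < z.1) :
    L1 = L1' ∧ a = a' ∧ L2 = L2' := by
  rcases List.append_eq_append_iff.1 e with ⟨as, e1, e2⟩ | ⟨as, e1, e2⟩
  · cases as with
    | nil =>
      simp only [List.nil_append, List.cons.injEq] at e2
      simp only [List.append_nil] at e1
      exact ⟨e1.symm, e2.1, e2.2⟩
    | cons b as =>
      simp only [List.cons_append, List.cons.injEq] at e2
      exfalso
      have g1 := h1' a (by rw [e1, e2.1]; simp)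
      have g2 := h2 a' (by rw [e2.2]; simp)
      exact absurd g1 (not_lt.2 g2.le)
  · cases as with
    | nil =>
      simp only [List.nil_append, List.cons.injEq] at e2
      simp only [List.append_nil] at e1
      exact ⟨e1, e2.1.symm, e2.2.symm⟩
    | cons b as =>
      simp only [List.cons_append, List.cons.injEq] at e2
      exfalso
      have g1 := h1 a' (by rw [e1, e2.1]; simp)
      have g2 := h2' a (by rw [e2.2]; simp)
      exact absurd g1 (not_lt.2 g2.le)

theorem Tree_exists_min {L : List It} (h : L ≠ []) : ∃ z ∈ L, ∀ y ∈ L, z.1 ≤ y.1 := by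
  induction L with
  | nil => exact absurd rfl h
  | cons a L ih =>
    by_cases hL : L = []
    · subst hL
      exact ⟨a, by simp, fun y hy => by simp only [List.mem_singleton] at hy; rw [hy]⟩
    · obtain ⟨z, hz, hmin⟩ := ih hL
      rcases le_total a.1 z.1 with hc | hc
      · refine ⟨a, by simp, fun y hy => ?_⟩
        rcases List.mem_cons.1 hy with rfl | hy
        · exact le_refl _
        · exact hc.trans (hmin y hy)
      · refine ⟨z, by simp [hz], fun y hy => ?_⟩
        rcases List.mem_cons.1 hy with rfl | hy
        · exact hc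
        · exact hmin y hy

theorem Tree_mir_eq_leaf (t : Tr) : t.mir = .leaf ↔ t = .leaf := by
  cases t with
  | leaf => exact Iff.rfl
  | cherry s x => exact Iff.rfl
  | node s l r =>
    constructor
    · intro h; simp [Tr.mir] at h
    · intro h; simp at h

theorem HasShape.length {t : Tr} {L : List It} (h : HasShape t L) : L.length = t.size := by
  induction t generalizing L with
  | leaf => simp only [HasShape] at h; subst h; rfl
  | cherry s x => obtain ⟨m, rfl⟩ := h; rfl
  | node s l r ihl ihr =>
    obtain ⟨_, L1, m, x, L2, rfl, _, _, h1, h2⟩ := h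
    have e1 := ihl h1
    have e2 := ihr h2
    simp only [List.length_append, List.length_cons, Tr.size]
    omega

theorem HasShape.unique {t t' : Tr} {L : List It} (h : HasShape t L) (h' : HasShape t' L) :
    t = t' := by
  induction t generalizing t' L with
  | leaf =>
    simp only [HasShape] at h
    subst h
    cases t' with
    | leaf => rfl
    | cherry s x => obtain ⟨m, hm⟩ := h'; simp at hm
    | node s l r => obtain ⟨h2, _⟩ := h'; simp at h2
  | cherry s x =>
    obtain ⟨m, rfl⟩ := h
    cases t' with
    | leaf => simp only [HasShape] at h'; simp at h'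
    | cherry s' x' =>
      obtain ⟨m', hm⟩ := h'
      simp only [List.cons.injEq, Prod.mk.injEq, and_true] at hm
      obtain ⟨_, rfl, rfl⟩ := hm
      rfl
    | node s l r => obtain ⟨h2, _⟩ := h'; simp at h2
  | node s l r ihl ihr =>
    obtain ⟨hl, L1, m, x, L2, rfl, a1, a2, h1, h2⟩ := h
    cases t' with
    | leaf => simp only [HasShape] at h'; simp at h'
    | cherry s' x' =>
      obtain ⟨m', hm⟩ := h'
      rw [hm] at hl
      simp at hl
    | node s' l' r' =>
      obtain ⟨_, L1', m', x', L2', e, b1, b2, h1', h2'⟩ := h'
      obtain ⟨c1, c2, c3⟩ := Tree_split_unique e a1 a2 b1 b2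
      subst c1
      subst c3
      simp only [Prod.mk.injEq] at c2
      obtain ⟨_, rfl, _⟩ := c2
      rw [ihl h1 h1', ihr h2 h2']

theorem exists_hasShape {L : List It} (h : L.Pairwise fun a b => a.1 ≠ b.1) :
    ∃ t, HasShape t L := by
  obtain ⟨n, hn⟩ : ∃ n, L.length = n := ⟨_, rfl⟩
  induction n using Nat.strong_induction_on generalizing L with
  | _ n ih =>
    match L, h, hn with
    | [], _, _ => exact ⟨.leaf, rfl⟩
    | [z], _, _ => exact ⟨.cherry z.2.1 z.2.2, z.1, rfl⟩
    | z1 :: z2 :: L', h, hn =>
      obtain ⟨z, hz, hmin⟩ := Tree_exists_min (L := z1 :: z2 :: L') (by simp)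
      obtain ⟨L1, L2, e⟩ := List.append_of_mem hz
      rw [e] at h hmin
      rw [List.pairwise_append] at h
      obtain ⟨p1, p2, p3⟩ := h
      rw [List.pairwise_cons] at p2
      obtain ⟨p2, p4⟩ := p2
      have hlen : L1.length + (L2.length + 1) = n := by
        rw [← hn, e]; simp
      obtain ⟨t1, ht1⟩ := ih L1.length (by omega) p1 rfl
      obtain ⟨t2, ht2⟩ := ih L2.length (by omega) p4 rfl
      refine ⟨.node z.2.1 t1 t2, by simp, L1, z.1, z.2.2, L2, e, ?_, ?_, ht1, ht2⟩
      · intro y hy
        have q1 := hmin y (by simp [hy])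
        have q2 := p3 y hy z (by simp)
        exact lt_of_le_of_ne q1 (Ne.symm q2)
      · intro y hy
        have q1 := hmin y (by simp [hy])
        have q2 := p2 y hy
        exact lt_of_le_of_ne q1 q2

theorem HasShape.mir {t : Tr} {L : List It} (h : HasShape t L) : HasShape t.mir L.reverse := by
  induction t generalizing L with
  | leaf => simp only [HasShape] at h; subst h; rfl
  | cherry s x => obtain ⟨m, rfl⟩ := h; exact ⟨m, rfl⟩
  | node s l r ihl ihr =>
    obtain ⟨hl, L1, m, x, L2, rfl, a1, a2, h1, h2⟩ := h
    refine ⟨by rw [List.length_reverse]; exact hl, L2.reverse, m, x, L1.reverse, by simp, ?_, ?_,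
      ihr h2, ihl h1⟩
    · intro z hz; exact a2 z (List.mem_reverse.1 hz)
    · intro z hz; exact a1 z (List.mem_reverse.1 hz)

theorem Tr.mir_mir (t : Tr) : t.mir.mir = t := by
  induction t with
  | leaf => rfl
  | cherry s x => rfl
  | node s l r ihl ihr => simp only [Tr.mir, ihl, ihr]

theorem Tr.size_mir (t : Tr) : t.mir.size = t.size := by
  induction t with
  | leaf => rfl
  | cherry s x => rfl
  | node s l r ihl ihr => simp only [Tr.mir, Tr.size, ihl, ihr]; omega

theorem HasShape.map {t : Tr} {L : List It} (h : HasShape t L) {f : ℝ → ℝ} (hf : StrictMono f) :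
    HasShape t (L.map fun z => (f z.1, z.2)) := by
  induction t generalizing L with
  | leaf => simp only [HasShape] at h; subst h; rfl
  | cherry s x => obtain ⟨m, rfl⟩ := h; exact ⟨f m, rfl⟩
  | node s l r ihl ihr =>
    obtain ⟨hl, L1, m, x, L2, rfl, a1, a2, h1, h2⟩ := h
    refine ⟨by rw [List.length_map]; exact hl, L1.map fun z => (f z.1, z.2), f m, x,
      L2.map fun z => (f z.1, z.2), by simp, ?_, ?_, ihl h1, ihr h2⟩
    · intro z hz
      obtain ⟨y, hy, rfl⟩ := List.mem_map.1 hz
      exact hf (a1 y hy)
    · intro z hz
      obtain ⟨y, hy, rfl⟩ := List.mem_map.1 hz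
      exact hf (a2 y hy)

theorem Tr.one_le_valZ (t : Tr) : 1 ≤ t.valZ := by
  cases t with
  | leaf => exact le_refl 1
  | cherry s x => simp only [Tr.valZ]; omega
  | node s l r => simp only [Tr.valZ]; omega

/-- weight of a sign -/
noncomputable def bw (p : ℝ) (s : Bool) : ℝ≥0∞ := ENNReal.ofReal (if s then p else 1 - p)

/-- the weights of the critical binary branching process -/
noncomputable def Tr.w (p g : ℝ) : Tr → ℝ≥0∞
  | .leaf => 1 / 2
  | .cherry s x => bw p s * bw g x / 8
  | .node s l r => if l = .leaf ∧ r = .leaf then 0 else bw p s * l.w p g * r.w p g / 2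

theorem Tr.w_mir (p g : ℝ) (t : Tr) : t.mir.w p g = t.w p g := by
  induction t with
  | leaf => rfl
  | cherry s x => rfl
  | node s l r ihl ihr =>
    simp only [Tr.mir, Tr.w, ihl, ihr]
    by_cases h : l = .leaf ∧ r = .leaf
    · rw [if_pos h, if_pos ⟨(Tree_mir_eq_leaf r).2 h.2, (Tree_mir_eq_leaf l).2 h.1⟩]
    · rw [if_neg h, if_neg (fun h' => h ⟨(Tree_mir_eq_leaf l).1 h'.2, (Tree_mir_eq_leaf r).1 h'.1⟩)]
      rw [mul_right_comm]

/-! ### Paths described by lists of pieces -/

/-- a piece of a path: depth of the minimum below the start, height of the end above the minimum,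
duration, mark, sign of the minimum -/
abbrev Pc := ℝ × ℝ × ℝ × Bool × Bool

def pD (x : Pc) : ℝ := x.1
def pU (x : Pc) : ℝ := x.2.1
def pT (x : Pc) : ℝ := x.2.2.1
def pX (x : Pc) : Bool := x.2.2.2.1
def pS (x : Pc) : Bool := x.2.2.2.2

/-- the minima of a path which starts at height `u` and consists of the given pieces -/
def mins : ℝ → List Pc → List It
  | _, [] => []
  | u, x :: l => (u - pD x, pS x, pX x) :: mins (u - pD x + pU x) l

/-- the end point of a path which starts at height `u` and consists of the given pieces -/
def pos : ℝ → List Pc → ℝ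
  | u, [] => u
  | u, x :: l => pos (u - pD x + pU x) l

/-- the path which starts at height `u`, consists of the given pieces and then goes down by `d`,
stays positive until the last downward step, which ends below `-y` -/
def Exc (u : ℝ) (l : List Pc) (d y : ℝ) : Prop := (∀ z ∈ mins u l, 0 < z.1) ∧ pos u l - d < -y

theorem mins_append (u : ℝ) (l l' : List Pc) : mins u (l ++ l') = mins u l ++ mins (pos u l) l' := by
  induction l generalizing u with
  | nil => rfl
  | cons x l ih => simp only [List.cons_append, mins, pos, ih]

theorem pos_append (u : ℝ) (l l' : List Pc) : pos u (l ++ l') = pos (pos u l) l' := by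
  induction l generalizing u with
  | nil => rfl
  | cons x l ih => simp only [List.cons_append, pos, ih]

theorem mins_shift (u c : ℝ) (l : List Pc) :
    mins (u + c) l = (mins u l).map fun z => (z.1 + c, z.2) := by
  induction l generalizing u with
  | nil => rfl
  | cons x l ih =>
    have e : u + c - pD x + pU x = u - pD x + pU x + c := by ring
    have e2 : u + c - pD x = u - pD x + c := by ring
    simp only [mins, List.map_cons]
    rw [e, ih, e2]

theorem pos_shift (u c : ℝ) (l : List Pc) : pos (u + c) l = pos u l + c := by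
  induction l generalizing u with
  | nil => rfl
  | cons x l ih =>
    have e : u + c - pD x + pU x = u - pD x + pU x + c := by ring
    simp only [pos, e, ih]

theorem length_mins (u : ℝ) (l : List Pc) : (mins u l).length = l.length := by
  induction l generalizing u with
  | nil => rfl
  | cons x l ih => simp only [mins, List.length_cons, ih]

/-- exchange of the two sides of a piece -/
def swp (x : Pc) : Pc := (pU x, pD x, pT x, pX x, pS x)

theorem Tree_pos_rev (u d : ℝ) (l : List Pc) :
    pos d (l.map swp).reverse = u - (pos u l - d) := by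
  induction l generalizing u with
  | nil => simp only [List.map_nil, List.reverse_nil, pos]; ring
  | cons x l ih =>
    rw [List.map_cons, List.reverse_cons, pos_append, ih (u - pD x + pU x)]
    simp only [pos]
    have e1 : pD (swp x) = pU x := rfl
    have e2 : pU (swp x) = pD x := rfl
    rw [e1, e2]
    ring

/-- time reversal -/
theorem mins_rev (u d : ℝ) (l : List Pc) : mins d (l.map swp).reverse =
    ((mins u l).map fun z => (z.1 - (pos u l - d), z.2)).reverse := by
  induction l generalizing u with
  | nil => rfl
  | cons x l ih =>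
    rw [List.map_cons, List.reverse_cons, mins_append, ih (u - pD x + pU x),
      Tree_pos_rev (u - pD x + pU x)]
    simp only [mins, pos, List.map_cons, List.reverse_cons]
    have e1 : pD (swp x) = pU x := rfl
    have e3 : pS (swp x) = pS x := rfl
    have e4 : pX (swp x) = pX x := rfl
    rw [e1, e3, e4]
    have e5 : u - pD x + pU x - (pos (u - pD x + pU x) l - d) - pU x
        = u - pD x - (pos (u - pD x + pU x) l - d) := by ring
    rw [e5]

theorem pos_rev (u d : ℝ) (l : List Pc) :
    pos d (l.map swp).reverse = u - (pos u l - d) := by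
  exact Tree_pos_rev u d l

end Pool.Agent.BSP
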