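import Pool.Agent.BSP.Defs
import Pool.Agent.BSP.Tree

set_option autoImplicit false

/-!
# Definitions for the deterministic part
-/

namespace Pool.Agent.BSP

open MeasureTheory Set Filter
open scoped ENNReal NNReal Topology

/-- the points of `(0, 1)` with lower values of `e` arbitrarily close on both sides -/
def Tg (e : ℝ → ℝ) : Set ℝ :=
  {t | 0 < t ∧ t < 1 ∧ (∀ ε, 0 < ε → ∃ z, t - ε < z ∧ z < t ∧ e z < e t) ∧
    ∀ ε, 0 < ε → ∃ z, t < z ∧ z < t + ε ∧ e z < e t}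

/-- the properties of the excursion which are used in the deterministic part -/
structure Nice (e : ℝ → ℝ) : Prop where
  cont : Continuous e
  zero : e 0 = 0
  one : e 1 = 0
  pos : ∀ t, 0 < t → t < 1 → 0 < e t
  dist : ∀ m m', 0 < m → m < 1 → 0 < m' → m' < 1 → IsLocalMin e m → IsLocalMin e m' →
    e m = e m' → m = m'
  ae : ∀ᵐ t ∂(volume.restrict (Icc (0 : ℝ) 1)), t ∈ Tg e

/-- all points of `Tg e` outside of `[l, r]` are related in the same way to all points of `Tg e`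
in `(l, r)` -/
structure IsBlk (e : ℝ → ℝ) (s : ℝ → Bool) (l r : ℝ) : Prop where
  zero_le : 0 ≤ l
  lt : l < r
  le_one : r ≤ 1
  rel : ∀ z ∈ Tg e, (z < l ∨ r < z) → ∀ t ∈ Tg e, l < t → t < r → ∀ t' ∈ Tg e, l < t' → t' < r →
    Rel e s z t → Rel e s z t'

/-- the mass below the block `(l, r)` -/
noncomputable def lo (e : ℝ → ℝ) (s : ℝ → Bool) (l r : ℝ) : ℝ :=
  (volume {z | z ∈ Icc (0 : ℝ) 1 ∧ (z < l ∨ r < z) ∧
    ∀ t ∈ Tg e, l < t → t < r → Rel e s z t}).toReal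

/-- `(l, r)` is an excursion interval of `e` above the level `h` -/
structure IsExc (e : ℝ → ℝ) (l r h : ℝ) : Prop where
  zero_le : 0 ≤ l
  lt : l < r
  le_one : r ≤ 1
  left : e l = h
  right : e r = h
  above : ∀ t, l < t → t < r → h < e t

/-- marks `t 0 < ... < t n` in the interval `(l, r)`, the minima `m i` between them, and the
mesh is at most `η` -/
structure IsMarks (e : ℝ → ℝ) (η l r : ℝ) (n : ℕ) (t m : ℕ → ℝ) : Prop where
  left : l < t 0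
  left' : t 0 - l ≤ η
  right : t n < r
  right' : r - t n ≤ η
  argmin : ∀ i < n, IsArgmin e (t i) (t (i + 1)) (m i)
  mesh : ∀ i < n, t (i + 1) - t i ≤ η

/-- the list of the items of the minima `m 0, ..., m (n - 1)` -/
def itemsOf (e : ℝ → ℝ) (s : ℝ → Bool) (n : ℕ) (m : ℕ → ℝ) : List It :=
  (List.range n).map fun i => (e (m i), s (m i), true)

/-- `X` is covered by `n` sets of diameter at most `δ` -/
def Cv (X : Set (ℝ × ℝ)) (n : ℕ) (δ : ℝ) : Prop :=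
  ∃ F : Fin n → Set (ℝ × ℝ), X ⊆ ⋃ i, F i ∧ ∀ i, ∀ p ∈ F i, ∀ q ∈ F i, dist p q ≤ δ

/-- the covering property of the block `(l, r)` -/
def HasCover (e : ℝ → ℝ) (s : ℝ → Bool) (η l r : ℝ) (z : ℕ) : Prop :=
  ∃ S : Set (ℝ × ℝ), IsClosed S ∧
    S ⊆ Icc l r ×ˢ Icc (lo e s l r) (lo e s l r + (r - l)) ∧
    (∀ t ∈ Tg e, l < t → t < r → (t, psi e s t) ∈ S) ∧
    Cv (S ∩ {q | q.1 = l}) 2 (2 * η) ∧ Cv (S ∩ {q | q.1 = r}) 2 (2 * η) ∧
    Cv (S ∩ {q | q.2 = lo e s l r}) 2 (2 * η) ∧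
    Cv (S ∩ {q | q.2 = lo e s l r + (r - l)}) 2 (2 * η) ∧
    ∀ A, Incr A → Cv (A ∩ S) (8 * z) (2 * η)

/-- nested families of intervals in increasing position -/
def Inn (e : ℝ → ℝ) (s : ℝ → Bool) (N : ℕ) (Q : ℝ) : ℕ → ℝ → ℝ → ℝ → Prop
  | 0, _, _, _ => True
  | k + 1, r, a, b => ∃ x y : Fin N → ℝ,
      (∀ i, a ≤ x i ∧ y i ≤ b ∧ r ≤ y i - x i ∧ Inn e s N Q k (r / Q) (x i) (y i)) ∧
      ∀ i j, i < j → y i ≤ x j ∧ ∃ m, s m = true ∧ y i ≤ m ∧ m ≤ x j ∧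
        ∀ z, x i ≤ z → z ≤ y j → z ≠ m → e m < e z

end Pool.Agent.BSP
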