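import Pool.Agent.BSP.Defs

set_option autoImplicit false

/-!
# Measurability of the relation and of the function `psi`

For every function `e` the set of all `m` with `IsArgmin e x y m` for some `x`, `y` is countable
(choose rationals `x < q < m < q' < y`; two different such `m` cannot have the same pair `(q, q')`),
and `{(x, y) : IsArgmin e x y m}` is the product of two intervals (order connected sets).
-/

namespace Pool.Agent.BSP

open MeasureTheory Set Filter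
open scoped ENNReal NNReal Topology

theorem IsArgmin.unique {e : ℝ → ℝ} {x y m m' : ℝ} (h : IsArgmin e x y m)
    (h' : IsArgmin e x y m') : m = m' := by
  by_contra hne
  exact lt_asymm (h.2.2 m' h'.1.le h'.2.1.le (Ne.symm hne)) (h'.2.2 m h.1.le h.2.1.le hne)

theorem countable_argmin (e : ℝ → ℝ) : {m | ∃ x y, IsArgmin e x y m}.Countable := by
  refine Set.Countable.mono (s₂ := ⋃ q : ℚ, ⋃ q' : ℚ, {m | IsArgmin e q q' m}) ?_ ?_
  · rintro m ⟨x, y, hm⟩
    obtain ⟨q, hq1, hq2⟩ := exists_rat_btwn hm.1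
    obtain ⟨q', hq1', hq2'⟩ := exists_rat_btwn hm.2.1
    simp only [mem_iUnion]
    exact ⟨q, q', hq2, hq1', fun z h1 h2 h3 => hm.2.2 z (by linarith) (by linarith) h3⟩
  · refine countable_iUnion fun q => countable_iUnion fun q' => Set.Subsingleton.countable ?_
    intro m hm m' hm'
    exact IsArgmin.unique hm hm'

theorem measurableSet_argmin (e : ℝ → ℝ) (m : ℝ) :
    MeasurableSet {q : ℝ × ℝ | IsArgmin e q.1 q.2 m} := by
  have h : {q : ℝ × ℝ | IsArgmin e q.1 q.2 m} =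
      {x | x < m ∧ ∀ z, x ≤ z → z < m → e m < e z} ×ˢ
        {y | m < y ∧ ∀ z, m < z → z ≤ y → e m < e z} := by
    ext ⟨x, y⟩
    constructor
    · rintro ⟨h1, h2, h3⟩
      exact ⟨⟨h1, fun z hz hz' => h3 z hz (hz'.trans h2).le hz'.ne⟩,
        h2, fun z hz hz' => h3 z (h1.trans hz).le hz' hz.ne'⟩
    · rintro ⟨⟨h1, h2⟩, h3, h4⟩
      refine ⟨h1, h3, fun z hz hz' hne => ?_⟩
      rcases lt_or_gt_of_ne hne with h | h
      · exact h2 z hz h
      · exact h4 z h hz'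
  rw [h]
  refine MeasurableSet.prod (Set.OrdConnected.measurableSet ⟨?_⟩)
    (Set.OrdConnected.measurableSet ⟨?_⟩)
  · rintro a ⟨_, ha⟩ b ⟨hb, _⟩ x ⟨hx1, hx2⟩
    exact ⟨lt_of_le_of_lt hx2 hb, fun z hz hz' => ha z (hx1.trans hz) hz'⟩
  · rintro a ⟨ha, _⟩ b ⟨_, hb⟩ x ⟨hx1, hx2⟩
    exact ⟨lt_of_lt_of_le ha hx1, fun z hz hz' => hb z hz (hz'.trans hx2)⟩

theorem measurableSet_rel (e : ℝ → ℝ) (s : ℝ → Bool) :
    MeasurableSet {q : ℝ × ℝ | Rel e s q.1 q.2} := by
  have h : {q : ℝ × ℝ | Rel e s q.1 q.2} =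
      (⋃ m ∈ {m | (∃ x y, IsArgmin e x y m) ∧ s m = true}, {q : ℝ × ℝ | IsArgmin e q.1 q.2 m}) ∪
      (⋃ m ∈ {m | (∃ x y, IsArgmin e x y m) ∧ s m = false},
        {q : ℝ × ℝ | IsArgmin e q.2 q.1 m}) := by
    ext ⟨x, y⟩
    simp only [Rel, mem_union, mem_iUnion]
    constructor
    · rintro (⟨m, h1, h2⟩ | ⟨m, h1, h2⟩)
      · exact Or.inl ⟨m, ⟨⟨x, y, h1⟩, h2⟩, h1⟩
      · exact Or.inr ⟨m, ⟨⟨y, x, h1⟩, h2⟩, h1⟩
    · rintro (⟨m, ⟨_, h2⟩, h1⟩ | ⟨m, ⟨_, h2⟩, h1⟩)
      · exact Or.inl ⟨m, h1, h2⟩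
      · exact Or.inr ⟨m, h1, h2⟩
  rw [h]
  refine MeasurableSet.union (MeasurableSet.biUnion ?_ fun m _ => measurableSet_argmin e m)
    (MeasurableSet.biUnion ?_ fun m _ => measurable_swap (measurableSet_argmin e m))
  · exact (countable_argmin e).mono fun m hm => hm.1
  · exact (countable_argmin e).mono fun m hm => hm.1

theorem measurableSet_rel_left (e : ℝ → ℝ) (s : ℝ → Bool) (t : ℝ) :
    MeasurableSet {x | x ∈ Icc (0 : ℝ) 1 ∧ Rel e s x t} :=
  measurableSet_Icc.inter ((measurable_id.prodMk measurable_const) (measurableSet_rel e s))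

theorem measurable_psi (e : ℝ → ℝ) (s : ℝ → Bool) : Measurable (psi e s) := by
  have hS : MeasurableSet {q : ℝ × ℝ | q.1 ∈ Icc (0 : ℝ) 1 ∧ Rel e s q.1 q.2} :=
    (measurable_fst measurableSet_Icc).inter (measurableSet_rel e s)
  exact (measurable_measure_prodMk_right (μ := volume) hS).ennreal_toReal

theorem psi_nonneg (e : ℝ → ℝ) (s : ℝ → Bool) (t : ℝ) : 0 ≤ psi e s t := ENNReal.toReal_nonneg

theorem psi_le_one (e : ℝ → ℝ) (s : ℝ → Bool) (t : ℝ) : psi e s t ≤ 1 := by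
  have h : volume {x | x ∈ Icc (0 : ℝ) 1 ∧ Rel e s x t} ≤ 1 := by
    refine (measure_mono (t := Icc (0 : ℝ) 1) fun x hx => hx.1).trans ?_
    rw [Real.volume_Icc]
    simp
  exact ENNReal.toReal_le_of_le_ofReal zero_le_one (by simpa using h)

theorem perm_prob (e : ℝ → ℝ) (s : ℝ → Bool) : IsProbabilityMeasure (perm e s) := by
  have : IsProbabilityMeasure (volume.restrict (Icc (0 : ℝ) 1)) := by
    constructor
    rw [Measure.restrict_apply_univ, Real.volume_Icc]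
    simp
  exact Measure.isProbabilityMeasure_map
    (measurable_id.prodMk (measurable_psi e s)).aemeasurable

end Pool.Agent.BSP
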