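import Pool.Agent.BSP.DMeas
import Pool.Agent.BSP.DDefs

set_option autoImplicit false

/-!
# The order on the points of `Tg e`
-/

namespace Pool.Agent.BSP

open MeasureTheory Set Filter
open scoped ENNReal NNReal Topology

variable {e : ℝ → ℝ} {s : ℝ → Bool}

theorem exists_argmin_Tg (he : Nice e) {x y : ℝ} (hx : x ∈ Tg e) (hy : y ∈ Tg e) (hxy : x < y) :
    ∃ m, IsArgmin e x y m := by
  obtain ⟨m, hm, hmin⟩ := isCompact_Icc.exists_isMinOn (nonempty_Icc.2 hxy.le)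
    he.cont.continuousOn
  have hend : ∀ z, x ≤ z → z ≤ y → e z ≤ e m → x < z ∧ z < y := by
    intro z hz1 hz2 hz3
    constructor
    · refine lt_of_le_of_ne hz1 ?_
      rintro rfl
      obtain ⟨u, hu1, hu2, hu3⟩ := hx.2.2.2 (y - x) (by linarith)
      have h1 : e m ≤ e u := hmin ⟨hu1.le, by linarith⟩
      linarith
    · refine lt_of_le_of_ne hz2 ?_
      rintro rfl
      obtain ⟨u, hu1, hu2, hu3⟩ := hy.2.2.1 (z - x) (by linarith)
      have h1 : e m ≤ e u := hmin ⟨by linarith, hu2.le⟩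
      linarith
  have hloc : ∀ z, x ≤ z → z ≤ y → e z ≤ e m → 0 < z ∧ z < 1 ∧ IsLocalMin e z := by
    intro z hz1 hz2 hz3
    obtain ⟨h1, h2⟩ := hend z hz1 hz2 hz3
    refine ⟨by linarith [hx.1], by linarith [hy.2.1], ?_⟩
    filter_upwards [Ioo_mem_nhds h1 h2] with u hu
    have h3 : e m ≤ e u := hmin ⟨hu.1.le, hu.2.le⟩
    linarith
  obtain ⟨hm1, hm2⟩ := hend m hm.1 hm.2 le_rfl
  obtain ⟨hm3, hm4, hm5⟩ := hloc m hm.1 hm.2 le_rfl
  refine ⟨m, hm1, hm2, ?_⟩
  intro z hz1 hz2 hzm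
  by_contra hcon
  push Not at hcon
  have h1 : e m ≤ e z := hmin ⟨hz1, hz2⟩
  obtain ⟨h2, h3, h4⟩ := hloc z hz1 hz2 hcon
  exact hzm (he.dist z m h2 h3 hm3 hm4 h4 hm5 (le_antisymm hcon h1))

theorem IsArgmin.isLocalMin {x y m : ℝ} (h : IsArgmin e x y m) : IsLocalMin e m := by
  filter_upwards [Ioo_mem_nhds h.1 h.2.1] with u hu
  by_cases hum : u = m
  · rw [hum]
  · exact (h.2.2 u hu.1.le hu.2.le hum).le

theorem IsArgmin.notMem_Tg {x y m : ℝ} (h : IsArgmin e x y m) : m ∉ Tg e := by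
  intro hm
  obtain ⟨u, hu1, hu2, hu3⟩ := hm.2.2.1 (m - x) (by linarith [h.1])
  have h1 := h.2.2 u (by linarith) (by linarith [h.2.1]) hu2.ne
  linarith

theorem rel_iff_of_argmin {x y m : ℝ} (h : IsArgmin e x y m) : Rel e s x y ↔ s m = true := by
  constructor
  · rintro (⟨m', hm', hs⟩ | ⟨m', hm', hs⟩)
    · rw [h.unique hm']
      exact hs
    · have h1 := h.1
      have h2 := h.2.1
      have h3 := hm'.1
      have h4 := hm'.2.1
      linarith
  · intro hs
    exact Or.inl ⟨m, h, hs⟩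

theorem rel_iff_of_argmin' {x y m : ℝ} (h : IsArgmin e x y m) : Rel e s y x ↔ s m = false := by
  constructor
  · rintro (⟨m', hm', hs⟩ | ⟨m', hm', hs⟩)
    · have h1 := h.1
      have h2 := h.2.1
      have h3 := hm'.1
      have h4 := hm'.2.1
      linarith
    · rw [h.unique hm']
      exact hs
  · intro hs
    exact Or.inr ⟨m, h, hs⟩

theorem rel_asymm {x y : ℝ} (h : Rel e s x y) : ¬ Rel e s y x := by
  rcases h with ⟨m, hm, hs⟩ | ⟨m, hm, hs⟩
  · rw [rel_iff_of_argmin' hm, hs]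
    decide
  · rw [rel_iff_of_argmin hm, hs]
    decide

theorem rel_irrefl (x : ℝ) : ¬ Rel e s x x := by
  intro h
  exact rel_asymm h h

theorem rel_total (he : Nice e) {x y : ℝ} (hx : x ∈ Tg e) (hy : y ∈ Tg e) (hxy : x ≠ y) :
    Rel e s x y ∨ Rel e s y x := by
  rcases lt_or_gt_of_ne hxy with h | h
  · obtain ⟨m, hm⟩ := exists_argmin_Tg he hx hy h
    rw [rel_iff_of_argmin hm, rel_iff_of_argmin' hm]
    cases s m
    · exact Or.inr rfl
    · exact Or.inl rfl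
  · obtain ⟨m, hm⟩ := exists_argmin_Tg he hy hx h
    rw [rel_iff_of_argmin hm, rel_iff_of_argmin' hm]
    cases s m
    · exact Or.inl rfl
    · exact Or.inr rfl

private theorem argmin_join_DOrd (he : Nice e) {a b c m₁ m₂ : ℝ} (ha : a ∈ Tg e) (hc : c ∈ Tg e)
    (h1 : IsArgmin e a b m₁) (h2 : IsArgmin e b c m₂) :
    IsArgmin e a c m₁ ∨ IsArgmin e a c m₂ := by
  have a1 := h1.1
  have a2 := h1.2.1
  have a3 := h2.1
  have a4 := h2.2.1
  have a5 := ha.1
  have a6 := hc.2.1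
  have hne : e m₁ ≠ e m₂ := by
    intro h
    have := he.dist m₁ m₂ (by linarith) (by linarith) (by linarith) (by linarith)
      h1.isLocalMin h2.isLocalMin h
    linarith
  rcases lt_or_gt_of_ne hne with h | h
  · left
    refine ⟨a1, by linarith, fun z hz1 hz2 hz3 => ?_⟩
    by_cases hzb : z ≤ b
    · exact h1.2.2 z hz1 hzb hz3
    · push Not at hzb
      by_cases hz4 : z = m₂
      · rw [hz4]
        exact h
      · exact h.trans (h2.2.2 z hzb.le hz2 hz4)
  · right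
    refine ⟨by linarith, a4, fun z hz1 hz2 hz3 => ?_⟩
    by_cases hzb : z ≤ b
    · by_cases hz4 : z = m₁
      · rw [hz4]
        exact h
      · exact lt_trans h (h1.2.2 z hz1 hzb hz4)
    · push Not at hzb
      exact h2.2.2 z hzb.le hz2 hz3

theorem rel_trans (he : Nice e) {x y z : ℝ} (hx : x ∈ Tg e) (hy : y ∈ Tg e) (hz : z ∈ Tg e)
    (h1 : Rel e s x y) (h2 : Rel e s y z) : Rel e s x z := by
  have hxy : x ≠ y := by
    rintro rfl
    exact rel_irrefl _ h1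
  have hyz : y ≠ z := by
    rintro rfl
    exact rel_irrefl _ h2
  have hxz : x ≠ z := by
    rintro rfl
    exact rel_asymm h1 h2
  have key : ∀ a b c : ℝ, a ∈ Tg e → b ∈ Tg e → c ∈ Tg e → a < b → b < c →
      ∃ m₁ m₂ m, IsArgmin e a b m₁ ∧ IsArgmin e b c m₂ ∧ IsArgmin e a c m ∧
        (m = m₁ ∨ m = m₂) := by
    intro a b c ha hb hc hab hbc
    obtain ⟨m₁, hm₁⟩ := exists_argmin_Tg he ha hb hab
    obtain ⟨m₂, hm₂⟩ := exists_argmin_Tg he hb hc hbc
    rcases argmin_join_DOrd he ha hc hm₁ hm₂ with h | h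
    · exact ⟨m₁, m₂, m₁, hm₁, hm₂, h, Or.inl rfl⟩
    · exact ⟨m₁, m₂, m₂, hm₁, hm₂, h, Or.inr rfl⟩
  rcases lt_or_gt_of_ne hxy with hxy' | hxy' <;> rcases lt_or_gt_of_ne hyz with hyz' | hyz' <;>
    rcases lt_or_gt_of_ne hxz with hxz' | hxz'
  · obtain ⟨m₁, m₂, m, g1, g2, g3, g4⟩ := key x y z hx hy hz hxy' hyz'
    rw [rel_iff_of_argmin g1] at h1
    rw [rel_iff_of_argmin g2] at h2
    rw [rel_iff_of_argmin g3]
    rcases g4 with rfl | rfl
    · exact h1
    · exact h2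
  · linarith
  · obtain ⟨m₁, m₂, m, g1, g2, g3, g4⟩ := key x z y hx hz hy hxz' hyz'
    rw [rel_iff_of_argmin g3] at h1
    rw [rel_iff_of_argmin' g2] at h2
    rw [rel_iff_of_argmin g1]
    rcases g4 with rfl | rfl
    · exact h1
    · rw [h1] at h2
      exact absurd h2 (by decide)
  · obtain ⟨m₁, m₂, m, g1, g2, g3, g4⟩ := key z x y hz hx hy hxz' hxy'
    rw [rel_iff_of_argmin g2] at h1
    rw [rel_iff_of_argmin' g3] at h2
    rw [rel_iff_of_argmin' g1]
    rcases g4 with rfl | rfl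
    · exact h2
    · rw [h1] at h2
      exact absurd h2 (by decide)
  · obtain ⟨m₁, m₂, m, g1, g2, g3, g4⟩ := key y x z hy hx hz hxy' hxz'
    rw [rel_iff_of_argmin' g1] at h1
    rw [rel_iff_of_argmin g3] at h2
    rw [rel_iff_of_argmin g2]
    rcases g4 with rfl | rfl
    · rw [h1] at h2
      exact absurd h2 (by decide)
    · exact h2
  · obtain ⟨m₁, m₂, m, g1, g2, g3, g4⟩ := key y z x hy hz hx hyz' hxz'
    rw [rel_iff_of_argmin' g3] at h1
    rw [rel_iff_of_argmin g1] at h2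
    rw [rel_iff_of_argmin' g2]
    rcases g4 with rfl | rfl
    · rw [h1] at h2
      exact absurd h2 (by decide)
    · exact h1
  · linarith
  · obtain ⟨m₁, m₂, m, g1, g2, g3, g4⟩ := key z y x hz hy hx hyz' hxy'
    rw [rel_iff_of_argmin' g2] at h1
    rw [rel_iff_of_argmin' g1] at h2
    rw [rel_iff_of_argmin' g3]
    rcases g4 with rfl | rfl
    · exact h2
    · exact h1

theorem psi_mono (he : Nice e) {x y : ℝ} (hx : x ∈ Tg e) (hy : y ∈ Tg e) (h : Rel e s x y) :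
    psi e s x ≤ psi e s y := by
  unfold psi
  refine ENNReal.toReal_mono ?_ ?_
  · have h1 : volume (Icc (0 : ℝ) 1) < ⊤ := by simp
    exact (lt_of_le_of_lt (measure_mono (fun z hz => hz.1)) h1).ne
  · refine measure_mono_ae ?_
    have h1 := (ae_restrict_iff' measurableSet_Icc).1 he.ae
    filter_upwards [h1] with z hz hz'
    exact ⟨hz'.1, rel_trans he (hz hz'.1) hx hy hz'.2 h⟩

private theorem argmin_left_DOrd (he : Nice e) {x y m : ℝ} (h : IsArgmin e x y m) :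
    ∃ ε, 0 < ε ∧ ∀ z, |z - x| < ε → IsArgmin e z y m := by
  have h1 : e m < e x := h.2.2 x le_rfl (h.1.le.trans h.2.1.le) h.1.ne
  have h2 : ∀ᶠ z in 𝓝 x, e m < e z := he.cont.continuousAt.eventually_const_lt h1
  obtain ⟨ε, hε, hb⟩ := Metric.eventually_nhds_iff.1 h2
  refine ⟨min ε (m - x), lt_min hε (by linarith [h.1]), fun z hz => ?_⟩
  have hz1 : |z - x| < ε := lt_of_lt_of_le hz (min_le_left _ _)
  have hz2 : |z - x| < m - x := lt_of_lt_of_le hz (min_le_right _ _)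
  refine ⟨by linarith [(abs_lt.1 hz2).2], h.2.1, fun u hu1 hu2 hu3 => ?_⟩
  by_cases hux : x ≤ u
  · exact h.2.2 u hux hu2 hu3
  · push Not at hux
    refine hb ?_
    rw [Real.dist_eq, abs_lt]
    constructor
    · linarith [(abs_lt.1 hz1).1]
    · linarith

private theorem argmin_right_DOrd (he : Nice e) {x y m : ℝ} (h : IsArgmin e y x m) :
    ∃ ε, 0 < ε ∧ ∀ z, |z - x| < ε → IsArgmin e y z m := by
  have h1 : e m < e x := h.2.2 x (h.1.le.trans h.2.1.le) le_rfl h.2.1.ne'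
  have h2 : ∀ᶠ z in 𝓝 x, e m < e z := he.cont.continuousAt.eventually_const_lt h1
  obtain ⟨ε, hε, hb⟩ := Metric.eventually_nhds_iff.1 h2
  refine ⟨min ε (x - m), lt_min hε (by linarith [h.2.1]), fun z hz => ?_⟩
  have hz1 : |z - x| < ε := lt_of_lt_of_le hz (min_le_left _ _)
  have hz2 : |z - x| < x - m := lt_of_lt_of_le hz (min_le_right _ _)
  refine ⟨h.1, by linarith [(abs_lt.1 hz2).1], fun u hu1 hu2 hu3 => ?_⟩
  by_cases hux : u ≤ x
  · exact h.2.2 u hu1 hux hu3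
  · push Not at hux
    refine hb ?_
    rw [Real.dist_eq, abs_lt]
    constructor
    · linarith
    · linarith [(abs_lt.1 hz1).2]

/-- the relation is stable under small perturbations of the first point -/
theorem rel_stable (he : Nice e) {x y : ℝ} (h : Rel e s x y) :
    ∃ ε, 0 < ε ∧ ∀ z, |z - x| < ε → Rel e s z y := by
  rcases h with ⟨m, hm, hs⟩ | ⟨m, hm, hs⟩
  · obtain ⟨ε, hε, hb⟩ := argmin_left_DOrd he hm
    exact ⟨ε, hε, fun z hz => Or.inl ⟨m, hb z hz, hs⟩⟩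
  · obtain ⟨ε, hε, hb⟩ := argmin_right_DOrd he hm
    exact ⟨ε, hε, fun z hz => Or.inr ⟨m, hb z hz, hs⟩⟩

/-- the relation is stable under small perturbations of the second point -/
theorem rel_stable' (he : Nice e) {x y : ℝ} (h : Rel e s y x) :
    ∃ ε, 0 < ε ∧ ∀ z, |z - x| < ε → Rel e s y z := by
  rcases h with ⟨m, hm, hs⟩ | ⟨m, hm, hs⟩
  · obtain ⟨ε, hε, hb⟩ := argmin_right_DOrd he hm
    exact ⟨ε, hε, fun z hz => Or.inl ⟨m, hb z hz, hs⟩⟩
  · obtain ⟨ε, hε, hb⟩ := argmin_left_DOrd he hm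
    exact ⟨ε, hε, fun z hz => Or.inr ⟨m, hb z hz, hs⟩⟩

/-- almost all points satisfy a property: there are such points in every interval -/
theorem exists_mem_of_ae {P : ℝ → Prop} (h : ∀ᵐ t ∂(volume.restrict (Icc (0 : ℝ) 1)), P t)
    {a b : ℝ} (ha : 0 ≤ a) (hab : a < b) (hb : b ≤ 1) : ∃ t, P t ∧ a < t ∧ t < b := by
  by_contra hcon
  push Not at hcon
  have h1 := (ae_restrict_iff' measurableSet_Icc).1 h
  rw [ae_iff] at h1
  have h2 : Ioo a b ⊆ {t | ¬ (t ∈ Icc (0 : ℝ) 1 → P t)} := by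
    intro t ht
    rw [mem_ofPred_eq, Classical.not_imp]
    refine ⟨⟨by linarith [ht.1], by linarith [ht.2]⟩, fun hP => ?_⟩
    have := hcon t hP ht.1
    linarith [ht.2]
  have h3 := measure_mono_null h2 h1
  rw [Real.volume_Ioo, ENNReal.ofReal_eq_zero] at h3
  linarith

theorem exists_Tg (he : Nice e) {a b : ℝ} (ha : 0 ≤ a) (hab : a < b) (hb : b ≤ 1) :
    ∃ t ∈ Tg e, a < t ∧ t < b := by
  obtain ⟨t, h1, h2, h3⟩ := exists_mem_of_ae he.ae ha hab hb
  exact ⟨t, h1, h2, h3⟩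

end Pool.Agent.BSP
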