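import Pool.Agent.BSP.DMeas

set_option autoImplicit false

/-!
# The support of the permuton

The complement of `supp μ` is covered by open sets of measure zero, so by the Lindelöf property
`μ (supp μ)ᶜ = 0` (see also `MeasureTheory.Measure.support`).
-/

namespace Pool.Agent.BSP

open MeasureTheory Set Filter
open scoped ENNReal NNReal Topology

variable (e : ℝ → ℝ) (s : ℝ → Bool)

private theorem ds_meas : Measurable fun t : ℝ => (t, psi e s t) :=
  measurable_id.prodMk (measurable_psi e s)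

private theorem ds_one {S : Set (ℝ × ℝ)} (hS : IsClosed S)
    (h : ∀ᵐ t ∂(volume.restrict (Icc (0 : ℝ) 1)), (t, psi e s t) ∈ S) : perm e s S = 1 := by
  unfold perm
  rw [Measure.map_apply (ds_meas e s) hS.measurableSet]
  have h1 : (fun t : ℝ => (t, psi e s t)) ⁻¹' S =ᵐ[volume.restrict (Icc (0 : ℝ) 1)] univ :=
    eventuallyEq_univ.2 h
  rw [measure_congr h1]
  simp

theorem isClosed_supp (μ : Measure (ℝ × ℝ)) : IsClosed (supp μ) :=
  isClosed_sInter fun _ hK => hK.1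

theorem supp_subset_square : supp (perm e s) ⊆ Icc (0 : ℝ) 1 ×ˢ Icc (0 : ℝ) 1 := by
  apply sInter_subset_of_mem
  refine ⟨isClosed_Icc.prod isClosed_Icc, Subset.rfl, ?_⟩
  apply ds_one e s (isClosed_Icc.prod isClosed_Icc)
  filter_upwards [ae_restrict_mem measurableSet_Icc] with t ht
  exact ⟨ht, psi_nonneg e s t, psi_le_one e s t⟩

theorem supp_subset {S : Set (ℝ × ℝ)} (hS : IsClosed S)
    (hS1 : S ⊆ Icc (0 : ℝ) 1 ×ˢ Icc (0 : ℝ) 1)
    (h : ∀ᵐ t ∂(volume.restrict (Icc (0 : ℝ) 1)), (t, psi e s t) ∈ S) :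
    supp (perm e s) ⊆ S :=
  sInter_subset_of_mem ⟨hS, hS1, ds_one e s hS h⟩

private theorem ds_null : perm e s (supp (perm e s))ᶜ = 0 := by
  have hp := perm_prob e s
  obtain ⟨T, hT1, hT2, hT3⟩ := TopologicalSpace.isOpen_sUnion_countable
    (compl '' {K : Set (ℝ × ℝ) | IsClosed K ∧ K ⊆ Icc (0 : ℝ) 1 ×ˢ Icc (0 : ℝ) 1 ∧
      perm e s K = 1}) (by
        rintro U ⟨K, hK, rfl⟩
        exact hK.1.isOpen_compl)
  have h1 : (supp (perm e s))ᶜ = ⋃₀ T := by
    rw [hT3]
    unfold supp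
    rw [compl_sInter]
  rw [h1, measure_sUnion_null_iff hT1]
  intro U hU
  obtain ⟨K, hK, rfl⟩ := hT2 hU
  rw [prob_compl_eq_zero_iff hK.1.measurableSet]
  exact hK.2.2

theorem ae_mem_supp :
    ∀ᵐ t ∂(volume.restrict (Icc (0 : ℝ) 1)), (t, psi e s t) ∈ supp (perm e s) := by
  have h1 : ∀ᵐ q ∂(perm e s), q ∈ supp (perm e s) := by
    rw [ae_iff]
    exact ds_null e s
  unfold perm at h1
  exact ae_of_ae_map (ds_meas e s).aemeasurable h1

end Pool.Agent.BSP
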