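import Pool.Agent.BSP.DCov
import Pool.Agent.BSP.DSupp

set_option autoImplicit false

/-!
# The covering of a block: induction over the shape
-/

namespace Pool.Agent.BSP

open MeasureTheory Set Filter
open scoped ENNReal NNReal Topology

variable {e : ℝ → ℝ} {s : ℝ → Bool}

theorem itemsOf_split {n : ℕ} {m : ℕ → ℝ} {L1 L2 : List It} {y : It}
    (h : itemsOf e s n m = L1 ++ y :: L2) : L1.length < n ∧
      L1 = itemsOf e s L1.length m ∧ y = (e (m L1.length), s (m L1.length), true) ∧
      L2 = itemsOf e s (n - L1.length - 1) fun i => m (i + L1.length + 1) := by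
  have hlen : n = L1.length + (L2.length + 1) := by
    have := congrArg List.length h
    simpa [itemsOf] using this
  have hget : ∀ i (hi : i < (L1 ++ y :: L2).length),
      (L1 ++ y :: L2)[i] = (e (m i), s (m i), true) := by
    intro i hi
    have h2 : (L1 ++ y :: L2)[i] = (itemsOf e s n m)[i]'(by rw [h]; exact hi) := by
      simp only [h]
    rw [h2]
    simp [itemsOf]
  refine ⟨by omega, ?_, ?_, ?_⟩
  · refine List.ext_getElem (by simp [itemsOf]) fun i h1 h2 => ?_
    have h3 := hget i (by simp; omega)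
    rw [List.getElem_append_left h1] at h3
    rw [h3]
    simp [itemsOf]
  · have h3 := hget L1.length (by simp)
    rw [← h3]
    simp
  · refine List.ext_getElem (by simp [itemsOf]; omega) fun i h1 h2 => ?_
    have h3 := hget (L1.length + (i + 1)) (by simp; omega)
    have h4 : (L1 ++ y :: L2)[L1.length + (i + 1)]'(by simp; omega) = L2[i] := by
      rw [List.getElem_append_right (by omega)]
      simp
    rw [← h4, h3]
    have h5 : L1.length + (i + 1) = i + L1.length + 1 := by omega
    simp [itemsOf, h5]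

private theorem marks_lt {η l r : ℝ} {n : ℕ} {t m : ℕ → ℝ} (hM : IsMarks e η l r n t m) :
    ∀ k i, i + k ≤ n → t i ≤ t (i + k) := by
  intro k
  induction k with
  | zero => intro i _; exact le_refl _
  | succ k ih =>
    intro i hi
    have h1 := ih i (by omega)
    obtain ⟨h2, h3, _⟩ := hM.argmin (i + k) (by omega)
    have h4 : t (i + k) ≤ t (i + (k + 1)) := (h2.trans h3).le
    exact h1.trans h4

private theorem marks_find {t : ℕ → ℝ} {z : ℝ} : ∀ n : ℕ, 0 < n → t 0 ≤ z → z ≤ t n →
    ∃ j < n, t j ≤ z ∧ z ≤ t (j + 1) := by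
  intro n
  induction n with
  | zero => intro h; exact absurd h (lt_irrefl 0)
  | succ n ih =>
    intro _ h0 h1
    by_cases hz : z ≤ t n
    · rcases Nat.eq_zero_or_pos n with rfl | hn
      · exact ⟨0, by omega, h0, h1⟩
      · obtain ⟨j, hj, h2, h3⟩ := ih hn h0 hz
        exact ⟨j, by omega, h2, h3⟩
    · exact ⟨n, by omega, (not_le.mp hz).le, h1⟩

/-- the lowest of the minima is the strict minimum over the convex hull of the marks -/
theorem IsMarks.lowest {η l r : ℝ} {n : ℕ} {t m : ℕ → ℝ} (hM : IsMarks e η l r n t m) {i : ℕ}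
    (hi : i < n) (h : ∀ j < n, j ≠ i → e (m i) < e (m j)) :
    ∀ z, t 0 ≤ z → z ≤ t n → z ≠ m i → e (m i) < e z := by
  intro z h0 h1 hz
  obtain ⟨j, hj, h2, h3⟩ := marks_find n (by omega) h0 h1
  obtain ⟨_, _, h4⟩ := hM.argmin j hj
  by_cases hji : j = i
  · subst hji
    exact h4 z h2 h3 hz
  · have h5 := h j hj hji
    by_cases hzj : z = m j
    · rw [hzj]
      exact h5
    · exact h5.trans (h4 z h2 h3 hzj)

private theorem shape_step (he : Nice e) {η l r h : ℝ} {n : ℕ} {t m : ℕ → ℝ}
    (hE : IsExc e l r h) (hM : IsMarks e η l r n t m) {i : ℕ} (hi : i < n)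
    (hlow : ∀ j < n, j ≠ i → e (m i) < e (m j)) {z1 z2 : ℕ} (hz1 : 1 ≤ z1) (hz2 : 1 ≤ z2)
    (h1 : ∀ l', IsExc e l' (m i) (e (m i)) → IsMarks e η l' (m i) i t m →
      HasCover e s η l' (m i) z1)
    (h2 : ∀ r', IsExc e (m i) r' (e (m i)) →
      IsMarks e η (m i) r' (n - i - 1) (fun k => t (k + i + 1)) (fun k => m (k + i + 1)) →
      HasCover e s η (m i) r' z2) :
    HasCover e s η l r (1 + comb (s (m i)) z1 z2) := by
  have hlow' := hM.lowest hi hlow
  obtain ⟨ha1, ha2, ha3⟩ := hM.argmin i hi
  have ht0 : t 0 ≤ t i := by simpa using marks_lt hM i 0 (by omega)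
  have htn : t (i + 1) ≤ t n := by
    have := marks_lt hM (n - i - 1) (i + 1) (by omega)
    rwa [show i + 1 + (n - i - 1) = n by omega] at this
  have hmesh := hM.mesh i hi
  have hl0 := hM.left
  have hl1 := hM.left'
  have hr0 := hM.right
  have hr1 := hM.right'
  obtain ⟨l', r', g1, g2, g3, g4, g5, g6, g7, g8, g9, g10, g11, g12, g13, g14⟩ :=
    exists_inner (s := s) he hE (m := m i) (by linarith) (by linarith)
      (hM.argmin i hi).isLocalMin
  have hlt : l' < t 0 := g13 (t 0) (by linarith) fun x hx1 hx2 =>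
    hlow' x hx1 (by linarith) hx2.ne
  have hrt : t n < r' := g14 (t n) (by linarith) fun x hx1 hx2 =>
    hlow' x (by linarith) hx2 hx1.ne'
  refine cover_node he hE g1 g2 g3 g4 g5 g6 g7 g8 g9 g10 g11 g12 (by linarith) (by linarith)
    hz1 hz2 (h1 l' g5 ?_) (h2 r' g6 ?_)
  · exact ⟨hlt, by linarith, ha1, by linarith, fun j hj => hM.argmin j (by omega),
      fun j hj => hM.mesh j (by omega)⟩
  · have hn : n - i - 1 + i + 1 = n := by omega
    refine ⟨?_, ?_, ?_, ?_, fun j hj => ?_, fun j hj => ?_⟩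
    · simpa using ha2
    · simp only [Nat.zero_add]
      linarith
    · simpa only [hn] using hrt
    · simp only [hn]
      linarith
    · have := hM.argmin (j + i + 1) (by omega)
      rwa [show j + i + 1 + 1 = j + 1 + i + 1 by omega] at this
    · have := hM.mesh (j + i + 1) (by omega)
      rwa [show j + i + 1 + 1 = j + 1 + i + 1 by omega] at this

private theorem one_le_valZ' (T : Tr) : 1 ≤ T.valZ := by
  cases T with
  | leaf => exact le_refl _
  | cherry s x => simp [Tr.valZ]
  | node s l r => simp [Tr.valZ]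

private theorem mem_items {n : ℕ} {m : ℕ → ℝ} {j : ℕ} (hj : j < n) :
    ((e (m j), s (m j), true) : It) ∈ itemsOf e s n m := by
  simp only [itemsOf, List.mem_map, List.mem_range]
  exact ⟨j, hj, rfl⟩

theorem cover_shape (he : Nice e) {η : ℝ} : ∀ (T : Tr) (n : ℕ) (l r h : ℝ) (t m : ℕ → ℝ),
    IsExc e l r h → IsMarks e η l r n t m → HasShape T (itemsOf e s n m) →
    HasCover e s η l r T.valZ := by
  intro T
  induction T with
  | leaf =>
    intro n l r h t m hE hM hS
    have hn : n = 0 := by
      simpa [HasShape, itemsOf] using hS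
    subst hn
    exact cover_leaf he hE (by have := hM.left'; have := hM.right'; linarith)
  | cherry s' x =>
    intro n l r h t m hE hM hS
    obtain ⟨m', hm'⟩ := hS
    obtain ⟨h1, _, h3, h4⟩ := itemsOf_split (L1 := []) (L2 := []) hm'
    have hn : n = 1 := by
      have := congrArg List.length hm'
      simpa [itemsOf] using this
    subst hn
    have hs : s' = s (m 0) := by
      simp only [List.length_nil, Prod.mk.injEq] at h3
      exact h3.2.1
    rw [hs]
    refine shape_step he hE hM (i := 0) (by omega) (fun j hj hj' => by omega) le_rfl le_rfl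
      (fun l' g1 g2 => cover_leaf he g1 ?_) (fun r' g1 g2 => cover_leaf he g1 ?_)
    · have := g2.left'; have := g2.right'; linarith
    · have h5 : t 1 - m 0 ≤ η := by simpa using g2.left'
      have h6 : r' - t 1 ≤ η := by simpa using g2.right'
      linarith
  | node s' L R ihL ihR =>
    intro n l r h t m hE hM hS
    obtain ⟨_, L1, m', x, L2, hl, hL1, hL2, hSL, hSR⟩ := hS
    obtain ⟨h1, h2, h3, h4⟩ := itemsOf_split hl
    set i := L1.length with hi
    have hs : s' = s (m i) := by
      simp only [Prod.mk.injEq] at h3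
      exact h3.2.1
    have hm' : m' = e (m i) := by
      simp only [Prod.mk.injEq] at h3
      exact h3.1
    rw [h2] at hL1 hSL
    rw [h4] at hL2 hSR
    show HasCover e s η l r (1 + comb s' L.valZ R.valZ)
    rw [hs]
    refine shape_step he hE hM h1 (fun j hj hj' => ?_) (one_le_valZ' L) (one_le_valZ' R)
      (fun l' g1 g2 => ihL i l' (m i) _ t m g1 g2 hSL)
      (fun r' g1 g2 => ihR (n - i - 1) (m i) r' _ _ _ g1 g2 hSR)
    rcases Nat.lt_or_gt_of_ne hj' with hj1 | hj1
    · have := hL1 _ (mem_items (e := e) (s := s) (m := m) hj1)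
      rwa [hm'] at this
    · have := hL2 _ (mem_items (e := e) (s := s) (m := fun k => m (k + i + 1))
        (j := j - i - 1) (n := n - i - 1) (by omega))
      simp only [hm', show j - i - 1 + i + 1 = j by omega] at this
      exact this

theorem cover_main (he : Nice e) {η : ℝ} {n : ℕ} {t m : ℕ → ℝ} {T : Tr}
    (hM : IsMarks e η 0 1 n t m) (hT : HasShape T (itemsOf e s n m)) {A : Set (ℝ × ℝ)}
    (hA : A ⊆ supp (perm e s)) (hI : Incr A) : Cv A (8 * T.valZ) (2 * η) := by
  obtain ⟨S, hS1, hS2, hS3, _, _, _, _, hS8⟩ :=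
    cover_shape he T n 0 1 0 t m (isExc_root he) hM hT
  rw [lo_zero_one] at hS2
  have hsub : supp (perm e s) ⊆ S := by
    refine supp_subset e s hS1 (by simpa using hS2) ?_
    filter_upwards [he.ae] with t ht
    exact hS3 t ht ht.1 ht.2.1
  have h1 : A ∩ S = A := inter_eq_left.mpr (hA.trans hsub)
  have h2 := hS8 A hI
  rwa [h1] at h2

/-- upper bound for the dimension of increasing subsets of the support -/
theorem upper_det (he : Nice e) {β : ℝ} (hβ : 0 ≤ β)
    (H : ∀ ε : ℝ, 0 < ε → ∃ (η : ℝ) (n : ℕ) (t m : ℕ → ℝ) (T : Tr), η < ε ∧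
      IsMarks e η 0 1 n t m ∧ HasShape T (itemsOf e s n m) ∧ T.valZ * η ^ β < ε)
    {A : Set (ℝ × ℝ)} (hA : A ⊆ supp (perm e s)) (hI : Incr A) :
    dimE A ≤ ENNReal.ofReal β := by
  rw [dimE_eq]
  refine dimH_le_of_Cv hβ fun ε hε => ?_
  have h2 : (0 : ℝ) < 2 ^ β := Real.rpow_pos_of_pos two_pos β
  obtain ⟨η, n, t, m, T, h3, h4, h5, h6⟩ := H (min (ε / 2) (ε / (8 * 2 ^ β)))
    (lt_min (by positivity) (by positivity))
  have hη : 0 < η := by
    have := h4.left
    have := h4.left'
    linarith
  refine ⟨8 * T.valZ, 2 * η, by positivity, cover_main he h4 h5 hA hI, ?_, ?_⟩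
  · have := h3.trans_le (min_le_left _ _)
    linarith
  · have h7 := h6.trans_le (min_le_right _ _)
    rw [lt_div_iff₀ (by positivity)] at h7
    rw [Real.mul_rpow two_pos.le hη.le]
    push_cast
    calc 8 * (T.valZ : ℝ) * (2 ^ β * η ^ β) = T.valZ * η ^ β * (8 * 2 ^ β) := by ring
      _ < ε := h7

end Pool.Agent.BSP
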