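import Mathlib

set_option autoImplicit false

/-!
# The Brownian separable permuton: definitions

All definitions used in the statement of the theorem on increasing subsets of the Brownian
separable permuton.
-/

namespace Pool.Agent.BSP

open MeasureTheory ProbabilityTheory Set Filter
open scoped ENNReal NNReal Topology

/-- `m` is the only point of `[x, y]` at which `e` attains its minimum over `[x, y]`, and
`x < m < y` (so that `m` is a strict local minimum of `e`) -/
def IsArgmin (e : ℝ → ℝ) (x y m : ℝ) : Prop :=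
  x < m ∧ m < y ∧ ∀ z, x ≤ z → z ≤ y → z ≠ m → e m < e z

/-- the relation `x ⊲ y` defined by the function `e` and the signs `s` of its local minima
(`true` stands for `⊕` and `false` for `⊖`) -/
def Rel (e : ℝ → ℝ) (s : ℝ → Bool) (x y : ℝ) : Prop :=
  (∃ m, IsArgmin e x y m ∧ s m = true) ∨ (∃ m, IsArgmin e y x m ∧ s m = false)

/-- the function `ψ(t) = Leb {x ∈ [0, 1] : x ⊲ t}` -/
noncomputable def psi (e : ℝ → ℝ) (s : ℝ → Bool) (t : ℝ) : ℝ :=
  (volume {x | x ∈ Icc (0 : ℝ) 1 ∧ Rel e s x t}).toReal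

/-- the permuton: the image of Lebesgue measure on `[0, 1]` under `t ↦ (t, ψ(t))` -/
noncomputable def perm (e : ℝ → ℝ) (s : ℝ → Bool) : Measure (ℝ × ℝ) :=
  (volume.restrict (Icc (0 : ℝ) 1)).map (fun t => (t, psi e s t))

/-- the support: the intersection of all closed subsets of the unit square of full measure -/
def supp (μ : Measure (ℝ × ℝ)) : Set (ℝ × ℝ) :=
  ⋂₀ {K | IsClosed K ∧ K ⊆ Icc (0 : ℝ) 1 ×ˢ Icc (0 : ℝ) 1 ∧ μ K = 1}

/-- increasing subsets of the unit square -/
def Incr (A : Set (ℝ × ℝ)) : Prop :=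
  ∀ P ∈ A, A ⊆ (Icc 0 P.1 ×ˢ Icc 0 P.2) ∪ (Icc P.1 1 ×ˢ Icc P.2 1)

/-- Hausdorff dimension of a subset of the plane with respect to the Euclidean metric -/
noncomputable def dimE (A : Set (ℝ × ℝ)) : ℝ≥0∞ := dimH ((WithLp.toLp 2 : ℝ × ℝ → _) '' A)

/-- the supremum of the dimensions of the increasing subsets of the support of `μ` -/
noncomputable def incDim (μ : Measure (ℝ × ℝ)) : ℝ≥0∞ :=
  ⨆ A ∈ {A : Set (ℝ × ℝ) | A ⊆ supp μ ∧ Incr A}, dimE A

/-- the last zero of the path `w` before time `1` -/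
noncomputable def gL (w : ℝ≥0 → ℝ) : ℝ := sSup {t : ℝ | 0 ≤ t ∧ t ≤ 1 ∧ w t.toNNReal = 0}

/-- the first zero of the path `w` after time `1` -/
noncomputable def dR (w : ℝ≥0 → ℝ) : ℝ := sInf {t : ℝ | 1 ≤ t ∧ w t.toNNReal = 0}

/-- the normalised excursion of the path `w` straddling time `1`:
`e(t) = |w(g + t(d - g))| / √(d - g)`. If `w` is a Brownian motion, this is the normalised
Brownian excursion. -/
noncomputable def exc (w : ℝ≥0 → ℝ) (t : ℝ) : ℝ :=
  |w (gL w + t * (dR w - gL w)).toNNReal| / √(dR w - gL w)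

/-- strict local minimum -/
def IsStrictMin (e : ℝ → ℝ) (m : ℝ) : Prop := ∀ᶠ z in 𝓝[≠] m, e m < e z

open Classical in
/-- the sign of the point `m`: the label of the index `k` with `loc k = m` -/
noncomputable def signAt (loc : ℕ → ℝ) (sgn : ℕ → Bool) (m : ℝ) : Bool :=
  if h : ∃ k, loc k = m then sgn h.choose else true

/-- `(loc k)` is a measurable enumeration (without repetitions) of a set which contains the
strict local minima of the excursion `exc B`, and the signs `sgn k` are independent of each other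
and of `B` and `loc`, and are equal to `⊕` with probability `p` -/
structure IsSigning {Ω : Type*} [MeasurableSpace Ω] (P : Measure Ω) (p : ℝ) (B : ℝ≥0 → Ω → ℝ)
    (loc : ℕ → Ω → ℝ) (sgn : ℕ → Ω → Bool) : Prop where
  loc_meas : ∀ k, Measurable (loc k)
  sgn_meas : ∀ k, Measurable (sgn k)
  loc_inj : ∀ᵐ ω ∂P, ∀ j k, j ≠ k → loc j ω ≠ loc k ω
  loc_all : ∀ᵐ ω ∂P, ∀ m, 0 < m → m < 1 → IsStrictMin (exc fun t => B t ω) m → ∃ k, loc k ω = m
  law : ∀ k, P {ω | sgn k ω = true} = ENNReal.ofReal p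
  indep : iIndepFun sgn P
  indep' : IndepFun (fun ω k => sgn k ω) (fun ω => ((fun t => B t ω), fun k => loc k ω)) P

/-- the permuton of the excursion `exc B` with signs -/
noncomputable def rperm {Ω : Type*} (B : ℝ≥0 → Ω → ℝ) (loc : ℕ → Ω → ℝ) (sgn : ℕ → Ω → Bool)
    (ω : Ω) : Measure (ℝ × ℝ) :=
  perm (exc fun t => B t ω) (signAt (fun k => loc k ω) fun k => sgn k ω)

end Pool.Agent.BSP
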