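import Pool.Agent.BSP.DCv

set_option autoImplicit false

/-!
# A lower bound for the dimension of an image of the space of digits
-/

namespace Pool.Agent.BSP

open MeasureTheory Set Filter
open scoped ENNReal NNReal Topology

private theorem edim_holder_aux {N : ℕ} (hN : 2 ≤ N) {Q r : ℝ} (hQ : 1 < Q) (hr : 0 < r)
    (P : (ℕ → Fin N) → ℝ × ℝ)
    (hP : ∀ w w' : ℕ → Fin N, ∀ j : ℕ,
      2 / (N : ℝ) ^ (j + 1) < Real.ofDigits w' - Real.ofDigits w → r / Q ^ j ≤ dist (P w) (P w'))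
    (w w' : ℕ → Fin N) (hD : 0 < Real.ofDigits w' - Real.ofDigits w) :
    Real.ofDigits w' - Real.ofDigits w ≤
      2 * (r⁻¹ * dist (P w) (P w')) ^ (Real.log N / Real.log Q) := by
  set D := Real.ofDigits w' - Real.ofDigits w with hDdef
  have hN1 : (1 : ℝ) < N := by exact_mod_cast (by omega : 1 < N)
  have hN0 : (0 : ℝ) < N := by linarith
  have hlN : 0 < Real.log N := Real.log_pos hN1
  have hlQ : 0 < Real.log Q := Real.log_pos hQ
  have hQ0 : 0 < Q := by linarith
  set s := Real.log N / Real.log Q with hs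
  have hs0 : 0 < s := div_pos hlN hlQ
  have hQs : Q ^ s = N := by
    rw [Real.rpow_def_of_pos hQ0, hs, mul_div_cancel₀ _ hlQ.ne', Real.exp_log hN0]
  have hD1 : D ≤ 1 := by
    have h1 := Real.ofDigits_le_one w'
    have h2 := Real.ofDigits_nonneg w
    linarith
  have hex : ∃ j : ℕ, 2 / (N : ℝ) ^ (j + 1) < D := by
    have ht : Tendsto (fun j : ℕ => 2 * ((N : ℝ)⁻¹) ^ (j + 1)) atTop (𝓝 (2 * 0)) :=
      ((tendsto_pow_atTop_nhds_zero_of_lt_one (inv_nonneg.2 hN0.le)
        (inv_lt_one_of_one_lt₀ hN1)).comp (tendsto_add_atTop_nat 1)).const_mul 2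
    rw [mul_zero] at ht
    obtain ⟨j, hj⟩ := (ht.eventually (gt_mem_nhds hD)).exists
    refine ⟨j, ?_⟩
    rw [inv_pow] at hj
    simpa [div_eq_mul_inv] using hj
  classical
  have hspec := Nat.find_spec hex
  set j := Nat.find hex with hj
  have hd := hP w w' j hspec
  have key : ∀ j : ℕ, ((1 : ℝ) / Q ^ j) ^ s = 1 / (N : ℝ) ^ j := by
    intro j
    rw [Real.div_rpow zero_le_one (by positivity), Real.one_rpow, ← Real.rpow_natCast,
      ← Real.rpow_mul hQ0.le, mul_comm, Real.rpow_mul hQ0.le, hQs, Real.rpow_natCast]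
  have hmono : ((1 : ℝ) / Q ^ j) ^ s ≤ (r⁻¹ * dist (P w) (P w')) ^ s := by
    refine Real.rpow_le_rpow (by positivity) ?_ hs0.le
    have : (1 : ℝ) / Q ^ j = r⁻¹ * (r / Q ^ j) := by field_simp
    rw [this]
    exact mul_le_mul_of_nonneg_left hd (inv_nonneg.2 hr.le)
  rw [key] at hmono
  rcases Nat.eq_zero_or_pos j with h0 | h0
  · rw [h0] at hmono
    simp only [pow_zero, div_one] at hmono
    linarith
  · have hmin := Nat.find_min hex (m := j - 1) (by omega)
    rw [not_lt, Nat.sub_add_cancel h0] at hmin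
    calc D ≤ 2 / (N : ℝ) ^ j := hmin
      _ = 2 * (1 / (N : ℝ) ^ j) := by ring
      _ ≤ _ := by linarith

/-- `Real.ofDigits (choice of a preimage)` is a Hölder map of the range of `P` onto `[0, 1]` with
the exponent `log N / log Q`: if `j` is minimal with `2 / N ^ (j + 1) < |φ w - φ w'|`, then
`|φ w - φ w'| ≤ 2 / N ^ j = 2 (1 / Q ^ j) ^ (log N / log Q)` (or `≤ 1` if `j = 0`) -/
theorem dimE_range_ge {N : ℕ} (hN : 2 ≤ N) {Q r : ℝ} (hQ : 1 < Q) (hr : 0 < r)
    (P : (ℕ → Fin N) → ℝ × ℝ)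
    (hP : ∀ w w' : ℕ → Fin N, ∀ j : ℕ,
      2 / (N : ℝ) ^ (j + 1) < Real.ofDigits w' - Real.ofDigits w → r / Q ^ j ≤ dist (P w) (P w')) :
    ENNReal.ofReal (Real.log N / Real.log Q) ≤ dimE (range P) := by
  classical
  have hN1 : (1 : ℝ) < N := by exact_mod_cast (by omega : 1 < N)
  have hlN : 0 < Real.log N := Real.log_pos hN1
  have hlQ : 0 < Real.log Q := Real.log_pos hQ
  have hs0 : 0 < Real.log N / Real.log Q := div_pos hlN hlQ
  rw [dimE_eq]
  set s := Real.log N / Real.log Q with hs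
  have hH : ∀ w w' : ℕ → Fin N, |Real.ofDigits w' - Real.ofDigits w| ≤
      2 * (r⁻¹ * dist (P w) (P w')) ^ s := by
    intro w w'
    rcases lt_trichotomy (Real.ofDigits w' - Real.ofDigits w) 0 with h | h | h
    · have h' : 0 < Real.ofDigits w - Real.ofDigits w' := by linarith
      have := edim_holder_aux hN hQ hr P hP w' w h'
      rw [abs_of_neg h, dist_comm]
      linarith
    · rw [h, abs_zero]
      have : 0 ≤ r⁻¹ * dist (P w) (P w') := mul_nonneg (inv_nonneg.2 hr.le) dist_nonneg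
      positivity
    · rw [abs_of_pos h]
      exact edim_holder_aux hN hQ hr P hP w w' h
  -- the map
  let g : ℝ × ℝ → ℝ := fun p => if h : ∃ w, P w = p then Real.ofDigits h.choose else 0
  have hg : ∀ w, g (P w) = Real.ofDigits w := by
    intro w
    have hex : ∃ w', P w' = P w := ⟨w, rfl⟩
    have h1 : g (P w) = Real.ofDigits hex.choose := by
      simp only [g]
      rw [dif_pos hex]
    rw [h1]
    have h2 := hH w hex.choose
    rw [hex.choose_spec, dist_self, mul_zero, Real.zero_rpow hs0.ne', mul_zero] at h2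
    exact sub_eq_zero.1 (abs_nonpos_iff.1 h2)
  have hhol : HolderOnWith (2 * (r⁻¹).toNNReal ^ s) s.toNNReal g (range P) := by
    rintro _ ⟨w, rfl⟩ _ ⟨w', rfl⟩
    rw [hg, hg, edist_dist, edist_dist, Real.coe_toNNReal s hs0.le,
      ENNReal.ofReal_rpow_of_nonneg dist_nonneg hs0.le]
    have h1 : ((2 * (r⁻¹).toNNReal ^ s : ℝ≥0) : ℝ≥0∞) = ENNReal.ofReal (2 * r⁻¹ ^ s) := by
      rw [ENNReal.ofReal, Real.toNNReal_mul (by norm_num),
        ← Real.toNNReal_rpow_of_nonneg (inv_nonneg.2 hr.le)]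
      norm_num
    rw [h1, ← ENNReal.ofReal_mul (by positivity)]
    refine ENNReal.ofReal_le_ofReal ?_
    rw [Real.dist_eq, abs_sub_comm]
    refine (hH w w').trans (le_of_eq ?_)
    rw [Real.mul_rpow (inv_nonneg.2 hr.le) dist_nonneg]
    ring
  have hr1 : 0 < s.toNNReal := Real.toNNReal_pos.2 hs0
  have h3 := hhol.dimH_image_le hr1
  have h4 : Icc (0 : ℝ) 1 ⊆ g '' range P := by
    intro x hx
    have : NeZero N := ⟨by omega⟩
    obtain ⟨w, -, hw⟩ := Real.ofDigits_SurjOn (b := N) (by omega) hx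
    exact ⟨P w, ⟨w, rfl⟩, by rw [hg, hw]⟩
  have h5 : (1 : ℝ≥0∞) ≤ dimH (g '' range P) := by
    have h6 : dimH (Icc (0 : ℝ) 1) = 1 := by
      have := Real.dimH_of_nonempty_interior (E := ℝ) (s := Icc (0 : ℝ) 1)
        (by rw [interior_Icc]; exact ⟨1 / 2, by norm_num, by norm_num⟩)
      simpa using this
    rw [← h6]
    exact dimH_mono h4
  have h7 := h5.trans h3
  rw [ENNReal.le_div_iff_mul_le (Or.inl (by exact_mod_cast hr1.ne'))
    (Or.inl ENNReal.coe_ne_top), one_mul] at h7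
  exact h7

end Pool.Agent.BSP
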