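import Pool.Agent.BSP.EPts
import Pool.Agent.BSP.EDim
import Pool.Agent.BSP.DSupp

set_option autoImplicit false

/-!
# Lower bound for the dimension of increasing subsets of the support

For every word `w` the points `(T k w, psi (T k w))` of `supp` converge along an ultrafilter.
-/

namespace Pool.Agent.BSP

open MeasureTheory Set Filter
open scoped ENNReal NNReal Topology

variable {e : ℝ → ℝ} {s : ℝ → Bool}

private theorem em_first {N : ℕ} {w w' : ℕ → Fin N} (h : w ≠ w') :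
    ∃ i, (∀ j < i, w j = w' j) ∧ (w i < w' i ∨ w' i < w i) := by
  classical
  have h' : ∃ i, w i ≠ w' i := by
    by_contra hc
    push Not at hc
    exact h (funext hc)
  refine ⟨Nat.find h', fun j hj => ?_, lt_or_gt_of_ne (Nat.find_spec h')⟩
  have := Nat.find_min h' hj
  push Not at this
  exact this

theorem lower_det (he : Nice e) {N : ℕ} (hN : 2 ≤ N) {Q : ℝ} (hQ : 1 < Q) {r a b : ℝ}
    (hr : 0 < r) (ha : 0 ≤ a) (hb : b ≤ 1) (H : ∀ k, Inn e s N Q k r a b) :
    ∃ A : Set (ℝ × ℝ), A ⊆ supp (perm e s) ∧ Incr A ∧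
      ENNReal.ofReal (Real.log N / Real.log Q) ≤ dimE A := by
  have hab : a < b := by
    obtain ⟨x, y, h1, _⟩ := H 1
    obtain ⟨h2, h3, h4, _⟩ := h1 ⟨0, by omega⟩
    linarith
  have hG : ∀ a b : ℝ, 0 ≤ a → a < b → b ≤ 1 →
      ∃ t ∈ {t | t ∈ Tg e ∧ (t, psi e s t) ∈ supp (perm e s)}, a < t ∧ t < b := by
    intro a b ha hab hb
    obtain ⟨t, h1, h2⟩ := exists_mem_of_ae (he.ae.and (ae_mem_supp e s)) ha hab hb
    exact ⟨t, h1, h2⟩
  choose T hT1 hT2 _ _ hT5 using fun k => inn_points (s := s) hG hN hQ k r a b hr ha hab hb (H k)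
  have hK : IsCompact (supp (perm e s)) :=
    (isCompact_Icc.prod isCompact_Icc).of_isClosed_subset (isClosed_supp _)
      (supp_subset_square e s)
  have hlim : ∀ w : ℕ → Fin N, ∃ p ∈ supp (perm e s),
      Tendsto (fun k => (T k w, psi e s (T k w))) (hyperfilter ℕ : Filter ℕ) (𝓝 p) := by
    intro w
    obtain ⟨p, hp, h⟩ := hK.ultrafilter_le_nhds
      ((hyperfilter ℕ).map fun k => (T k w, psi e s (T k w))) (by
        rw [le_principal_iff, Ultrafilter.coe_map, mem_map]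
        exact Filter.univ_mem' fun k => (hT1 k w).1.2)
    exact ⟨p, hp, by rwa [Ultrafilter.coe_map] at h⟩
  choose P hP hPlim using hlim
  have hev : ∀ i : ℕ, ∀ᶠ k in (hyperfilter ℕ : Filter ℕ), i < k := fun i =>
    Nat.hyperfilter_le_atTop (eventually_gt_atTop i)
  have hfst : ∀ w, Tendsto (fun k => T k w) (hyperfilter ℕ : Filter ℕ) (𝓝 (P w).1) := fun w =>
    (continuous_fst.tendsto _).comp (hPlim w)
  have hsnd : ∀ w, Tendsto (fun k => psi e s (T k w)) (hyperfilter ℕ : Filter ℕ)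
      (𝓝 (P w).2) := fun w => (continuous_snd.tendsto _).comp (hPlim w)
  have hsq : ∀ w, P w ∈ Icc (0 : ℝ) 1 ×ˢ Icc (0 : ℝ) 1 := fun w =>
    supp_subset_square e s (hP w)
  have hle : ∀ w w' : ℕ → Fin N, ∀ i, (∀ j < i, w j = w' j) → w i < w' i →
      (P w).1 ≤ (P w').1 ∧ (P w).2 ≤ (P w').2 := by
    intro w w' i h1 h2
    refine ⟨le_of_tendsto_of_tendsto (hfst w) (hfst w') ?_,
      le_of_tendsto_of_tendsto (hsnd w) (hsnd w') ?_⟩
    · filter_upwards [hev i] with k hk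
      exact (hT2 k w w' i hk h1 h2).1.le
    · filter_upwards [hev i] with k hk
      exact psi_mono he (hT1 k w).1.1 (hT1 k w').1.1 (hT2 k w w' i hk h1 h2).2
  refine ⟨range P, ?_, ?_, dimE_range_ge hN hQ hr P ?_⟩
  · rintro _ ⟨w, rfl⟩
    exact hP w
  · rintro _ ⟨w, rfl⟩ _ ⟨w', rfl⟩
    have h1 := hsq w
    have h2 := hsq w'
    by_cases hne : w = w'
    · subst hne
      left
      exact ⟨⟨h1.1.1, le_rfl⟩, ⟨h1.2.1, le_rfl⟩⟩
    · obtain ⟨i, h3, h4⟩ := em_first hne
      rcases h4 with h4 | h4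
      · have h5 := hle w w' i h3 h4
        right
        exact ⟨⟨h5.1, h2.1.2⟩, ⟨h5.2, h2.2.2⟩⟩
      · have h5 := hle w' w i (fun j hj => (h3 j hj).symm) h4
        left
        exact ⟨⟨h2.1.1, h5.1⟩, ⟨h2.2.1, h5.2⟩⟩
  · intro w w' j hj
    have h1 : r / Q ^ j ≤ (P w').1 - (P w).1 := by
      refine ge_of_tendsto ((hfst w').sub (hfst w)) ?_
      filter_upwards [hev j] with k hk
      exact hT5 k w w' j hk hj
    have h2 : dist (P w).1 (P w').1 ≤ dist (P w) (P w') := by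
      rw [Prod.dist_eq]
      exact le_max_left _ _
    have h3 : (P w').1 - (P w).1 ≤ dist (P w).1 (P w').1 := by
      rw [Real.dist_eq, abs_sub_comm]
      exact le_abs_self _
    linarith

end Pool.Agent.BSP
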