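import Pool.Agent.BSP.DOrd

set_option autoImplicit false

/-!
# Points in the nested families of intervals

Induction on `k` for arbitrary `r`, `a`, `b`; `φ w = Real.ofDigits w = (w 0 + φ (shift w)) / N`.
-/

namespace Pool.Agent.BSP

open MeasureTheory Set Filter
open scoped ENNReal NNReal Topology

variable {e : ℝ → ℝ} {s : ℝ → Bool}

theorem ofDigits_cons {N : ℕ} (w : ℕ → Fin N) : Real.ofDigits w =
    ((w 0 : ℕ) + Real.ofDigits fun i => w (i + 1)) / N := by
  rw [Real.ofDigits_eq_sum_add_ofDigits w 1, Finset.sum_range_one, Real.ofDigitsTerm, zero_add,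
    pow_one, add_div, div_eq_mul_inv, div_eq_inv_mul]

private theorem scale_lt {N : ℕ} (hN : 2 ≤ N) {c j : ℕ} {y : ℝ} :
    ((c : ℝ) / (N : ℝ) ^ (j + 1 + 1) < y / N) ↔ (c : ℝ) / (N : ℝ) ^ (j + 1) < y := by
  have hN0 : (0 : ℝ) < N := by
    have : 0 < N := by omega
    exact_mod_cast this
  have h : (c : ℝ) / (N : ℝ) ^ (j + 1 + 1) = (c : ℝ) / (N : ℝ) ^ (j + 1) / N := by
    rw [div_div, ← pow_succ]
  rw [h, div_lt_div_iff_of_pos_right hN0]

/-- `G` is a dense set (the set of good points) -/
theorem inn_points {G : Set ℝ} (hG : ∀ a b : ℝ, 0 ≤ a → a < b → b ≤ 1 → ∃ t ∈ G, a < t ∧ t < b)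
    {N : ℕ} (hN : 2 ≤ N) {Q : ℝ} (hQ : 1 < Q) : ∀ (k : ℕ) (r a b : ℝ), 0 < r → 0 ≤ a → a < b →
    b ≤ 1 → Inn e s N Q k r a b → ∃ T : (ℕ → Fin N) → ℝ,
      (∀ w, T w ∈ G ∧ a < T w ∧ T w < b) ∧
      (∀ w w' : ℕ → Fin N, ∀ i < k, (∀ j < i, w j = w' j) → w i < w' i →
        T w < T w' ∧ Rel e s (T w) (T w')) ∧
      (∀ w : ℕ → Fin N, ∀ j < k, 1 / (N : ℝ) ^ (j + 1) < Real.ofDigits w →
        r / Q ^ j ≤ T w - a) ∧
      (∀ w : ℕ → Fin N, ∀ j < k, 1 / (N : ℝ) ^ (j + 1) < 1 - Real.ofDigits w →
        r / Q ^ j ≤ b - T w) ∧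
      (∀ w w' : ℕ → Fin N, ∀ j < k, 2 / (N : ℝ) ^ (j + 1) < Real.ofDigits w' - Real.ofDigits w →
        r / Q ^ j ≤ T w' - T w) := by
  have hN0 : (0 : ℝ) < N := by
    have : 0 < N := by omega
    exact_mod_cast this
  have hQ0 : 0 < Q := one_pos.trans hQ
  intro k
  induction k with
  | zero =>
    intro r a b hr ha hab hb _
    obtain ⟨t, htG, h1, h2⟩ := hG a b ha hab hb
    exact ⟨fun _ => t, fun _ => ⟨htG, h1, h2⟩, fun _ _ i hi => absurd hi (Nat.not_lt_zero i),
      fun _ j hj => absurd hj (Nat.not_lt_zero j), fun _ j hj => absurd hj (Nat.not_lt_zero j),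
      fun _ _ j hj => absurd hj (Nat.not_lt_zero j)⟩
  | succ k ih =>
    intro r a b hr ha hab hb hI
    obtain ⟨x, y, hxy, hsep⟩ := hI
    have hrQ : 0 < r / Q := div_pos hr hQ0
    have hlt : ∀ i, x i < y i := fun i => by
      have := (hxy i).2.2.1
      linarith
    have hT : ∀ i, ∃ T : (ℕ → Fin N) → ℝ,
      (∀ w, T w ∈ G ∧ x i < T w ∧ T w < y i) ∧
      (∀ w w' : ℕ → Fin N, ∀ i < k, (∀ j < i, w j = w' j) → w i < w' i →
        T w < T w' ∧ Rel e s (T w) (T w')) ∧
      (∀ w : ℕ → Fin N, ∀ j < k, 1 / (N : ℝ) ^ (j + 1) < Real.ofDigits w →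
        r / Q / Q ^ j ≤ T w - x i) ∧
      (∀ w : ℕ → Fin N, ∀ j < k, 1 / (N : ℝ) ^ (j + 1) < 1 - Real.ofDigits w →
        r / Q / Q ^ j ≤ y i - T w) ∧
      (∀ w w' : ℕ → Fin N, ∀ j < k, 2 / (N : ℝ) ^ (j + 1) < Real.ofDigits w' - Real.ofDigits w →
        r / Q / Q ^ j ≤ T w' - T w) := fun i =>
      ih (r / Q) (x i) (y i) hrQ (ha.trans (hxy i).1) (hlt i) ((hxy i).2.1.trans hb)
        (hxy i).2.2.2
    choose T hT1 hT2 hT3 hT4 hT5 using hT
    have hrle : ∀ j : ℕ, r / Q ^ j ≤ r := fun j => div_le_self hr.le (one_le_pow₀ hQ.le)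
    have hrj : ∀ j : ℕ, r / Q ^ (j + 1) = r / Q / Q ^ j := fun j => by
      rw [div_div, ← pow_succ']
    have hstep : ∀ i : Fin N, ∀ u, x i < T i u ∧ T i u < y i := fun i u => (hT1 i u).2
    refine ⟨fun w => T (w 0) fun i => w (i + 1), ?_, ?_, ?_, ?_, ?_⟩
    · intro w
      have h1 := hT1 (w 0) fun i => w (i + 1)
      exact ⟨h1.1, lt_of_le_of_lt (hxy _).1 h1.2.1, lt_of_lt_of_le h1.2.2 (hxy _).2.1⟩
    · intro w w' i hi heq hlt'
      rcases i with _ | i
      · obtain ⟨h1, m, hm1, hm2, hm3, hm4⟩ := hsep _ _ hlt'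
        have h2 := hstep (w 0) fun i => w (i + 1)
        have h3 := hstep (w' 0) fun i => w' (i + 1)
        refine ⟨by show T (w 0) _ < T (w' 0) _; linarith, Or.inl ⟨m, ⟨?_, ?_, ?_⟩, hm1⟩⟩
        · show T (w 0) _ < m
          linarith
        · show m < T (w' 0) _
          linarith
        · intro z hz1 hz2 hz3
          exact hm4 z (h2.1.le.trans hz1) (hz2.trans h3.2.le) hz3
      · have h0 : w 0 = w' 0 := heq 0 (Nat.succ_pos i)
        have h1 := hT2 (w 0) (fun i => w (i + 1)) (fun i => w' (i + 1)) i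
          (Nat.lt_of_succ_lt_succ hi) (fun j hj => heq (j + 1) (Nat.succ_lt_succ hj)) hlt'
        show T (w 0) _ < T (w' 0) _ ∧ Rel e s (T (w 0) _) (T (w' 0) _)
        rw [← h0]
        exact h1
    · intro w j hj hφ
      show r / Q ^ j ≤ T (w 0) _ - a
      have h2 := hstep (w 0) fun i => w (i + 1)
      rcases Nat.eq_zero_or_pos (w 0 : ℕ) with h0 | h0
      · rw [ofDigits_cons, h0, Nat.cast_zero, zero_add] at hφ
        rcases j with _ | j
        · exfalso
          rw [zero_add, pow_one, div_lt_div_iff_of_pos_right hN0] at hφ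
          exact absurd hφ (not_lt.mpr (Real.ofDigits_le_one _))
        · have h3 : 1 / (N : ℝ) ^ (j + 1) < Real.ofDigits fun i => w (i + 1) := by
            have := (scale_lt hN (c := 1) (j := j)
              (y := Real.ofDigits fun i => w (i + 1))).mp (by rw [Nat.cast_one]; exact hφ)
            rwa [Nat.cast_one] at this
          have h4 := hT3 (w 0) (fun i => w (i + 1)) j (Nat.lt_of_succ_lt_succ hj) h3
          rw [hrj]
          have h5 := (hxy (w 0)).1
          linarith
      · have h3 : (⟨0, by omega⟩ : Fin N) < w 0 := h0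
        have h4 := (hsep _ _ h3).1
        have h5 := hxy (⟨0, by omega⟩ : Fin N)
        have h6 := hrle j
        linarith [h5.1, h5.2.2.1]
    · intro w j hj hφ
      show r / Q ^ j ≤ b - T (w 0) _
      have h2 := hstep (w 0) fun i => w (i + 1)
      rcases Nat.lt_or_ge ((w 0 : ℕ) + 1) N with h0 | h0
      · have h3 : w 0 < (⟨N - 1, by omega⟩ : Fin N) := by
          rw [Fin.lt_def]
          show (w 0 : ℕ) < N - 1
          omega
        have h4 := (hsep _ _ h3).1
        have h5 := hxy (⟨N - 1, by omega⟩ : Fin N)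
        have h6 := hrle j
        linarith [h5.2.1, h5.2.2.1]
      · have h00 : (w 0 : ℕ) + 1 = N := le_antisymm (w 0).isLt h0
        have h01 : ((w 0 : ℕ) : ℝ) = N - 1 := by
          have : (((w 0 : ℕ) + 1 : ℕ) : ℝ) = N := by rw [h00]
          push_cast at this
          linarith
        have h02 : 1 - Real.ofDigits w = (1 - Real.ofDigits fun i => w (i + 1)) / N := by
          rw [ofDigits_cons, h01]
          field_simp
          ring
        rw [h02] at hφ
        rcases j with _ | j
        · exfalso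
          rw [zero_add, pow_one, div_lt_div_iff_of_pos_right hN0] at hφ
          linarith [Real.ofDigits_nonneg fun i => w (i + 1)]
        · have h3 : 1 / (N : ℝ) ^ (j + 1) < 1 - Real.ofDigits fun i => w (i + 1) := by
            have := (scale_lt hN (c := 1) (j := j)
              (y := 1 - Real.ofDigits fun i => w (i + 1))).mp (by rw [Nat.cast_one]; exact hφ)
            rwa [Nat.cast_one] at this
          have h4 := hT4 (w 0) (fun i => w (i + 1)) j (Nat.lt_of_succ_lt_succ hj) h3
          rw [hrj]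
          have h5 := (hxy (w 0)).2.1
          linarith
    · intro w w' j hj hφ
      show r / Q ^ j ≤ T (w' 0) _ - T (w 0) _
      have h2 := hstep (w 0) fun i => w (i + 1)
      have h3 := hstep (w' 0) fun i => w' (i + 1)
      have hl1 := Real.ofDigits_le_one fun i => w (i + 1)
      have hl2 := Real.ofDigits_le_one fun i => w' (i + 1)
      have hn1 := Real.ofDigits_nonneg fun i => w (i + 1)
      have hn2 := Real.ofDigits_nonneg fun i => w' (i + 1)
      have hdiff : Real.ofDigits w' - Real.ofDigits w =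
          (((w' 0 : ℕ) : ℝ) - ((w 0 : ℕ) : ℝ) + ((Real.ofDigits fun i => w' (i + 1)) -
            Real.ofDigits fun i => w (i + 1))) / N := by
        rw [ofDigits_cons w', ofDigits_cons w]
        ring
      rw [hdiff] at hφ
      rcases lt_trichotomy (w' 0 : ℕ) (w 0 : ℕ) with hc | hc | hc
      · exfalso
        have hc' : ((w' 0 : ℕ) : ℝ) + 1 ≤ ((w 0 : ℕ) : ℝ) := by exact_mod_cast hc
        have h4 : (0 : ℝ) < 2 / (N : ℝ) ^ (j + 1) := by positivity
        have h5 := (div_pos_iff_of_pos_right hN0).mp (h4.trans hφ)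
        linarith
      · rw [hc, sub_self, zero_add] at hφ
        have hc' : w' 0 = w 0 := Fin.ext hc
        rcases j with _ | j
        · exfalso
          rw [zero_add, pow_one, div_lt_div_iff_of_pos_right hN0] at hφ
          linarith
        · have h4 : 2 / (N : ℝ) ^ (j + 1) < (Real.ofDigits fun i => w' (i + 1)) -
              Real.ofDigits fun i => w (i + 1) := by
            have := (scale_lt hN (c := 2) (j := j) (y := (Real.ofDigits fun i => w' (i + 1)) -
              Real.ofDigits fun i => w (i + 1))).mp (by rw [Nat.cast_ofNat]; exact hφ)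
            rwa [Nat.cast_ofNat] at this
          have h5 := hT5 (w 0) (fun i => w (i + 1)) (fun i => w' (i + 1)) j
            (Nat.lt_of_succ_lt_succ hj) h4
          rw [hrj, hc']
          exact h5
      · rcases Nat.lt_or_ge ((w 0 : ℕ) + 1) (w' 0 : ℕ) with hc2 | hc2
        · have h4 : w 0 < (⟨(w 0 : ℕ) + 1, hc2.trans (w' 0).isLt⟩ : Fin N) := by
            rw [Fin.lt_def]
            exact Nat.lt_succ_self _
          have h5 : (⟨(w 0 : ℕ) + 1, hc2.trans (w' 0).isLt⟩ : Fin N) < w' 0 := by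
            rw [Fin.lt_def]
            exact hc2
          have h6 := (hsep _ _ h4).1
          have h7 := (hsep _ _ h5).1
          have h8 := (hxy (⟨(w 0 : ℕ) + 1, hc2.trans (w' 0).isLt⟩ : Fin N)).2.2.1
          have h9 := hrle j
          linarith
        · have hc3 : (w' 0 : ℕ) = (w 0 : ℕ) + 1 := le_antisymm hc2 hc
          have hc4 : ((w' 0 : ℕ) : ℝ) - ((w 0 : ℕ) : ℝ) = 1 := by
            rw [hc3]
            push_cast
            ring
          rw [hc4] at hφ
          rcases j with _ | j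
          · exfalso
            rw [zero_add, pow_one, div_lt_div_iff_of_pos_right hN0] at hφ
            linarith
          · have h4 : 2 / (N : ℝ) ^ (j + 1) < 1 + ((Real.ofDigits fun i => w' (i + 1)) -
                Real.ofDigits fun i => w (i + 1)) := by
              have := (scale_lt hN (c := 2) (j := j)
                (y := 1 + ((Real.ofDigits fun i => w' (i + 1)) -
                  Real.ofDigits fun i => w (i + 1)))).mp (by rw [Nat.cast_ofNat]; exact hφ)
              rwa [Nat.cast_ofNat] at this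
            have hww : w 0 < w' 0 := hc
            have h6 := (hsep _ _ hww).1
            rw [hrj]
            rcases lt_or_ge (1 / (N : ℝ) ^ (j + 1)) (1 - Real.ofDigits fun i => w (i + 1)) with
              h5 | h5
            · have h7 := hT4 (w 0) (fun i => w (i + 1)) j (Nat.lt_of_succ_lt_succ hj) h5
              linarith
            · have h8 : 1 / (N : ℝ) ^ (j + 1) < Real.ofDigits fun i => w' (i + 1) := by
                have h9 : 2 / (N : ℝ) ^ (j + 1) = 1 / (N : ℝ) ^ (j + 1) + 1 / (N : ℝ) ^ (j + 1) := by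
                  ring
                linarith
              have h7 := hT3 (w' 0) (fun i => w' (i + 1)) j (Nat.lt_of_succ_lt_succ hj) h8
              linarith

end Pool.Agent.BSP
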