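import Pool.Agent.BSP.ExcPath
import Pool.Agent.BSP.DDefs

set_option autoImplicit false

/-!
# The excursion is generic; transfer of nested families
-/

namespace Pool.Agent.BSP

open MeasureTheory ProbabilityTheory Set Filter
open scoped ENNReal NNReal Topology

theorem exc_nice {w : ℝ≥0 → ℝ} (h : GenPath (tr w)) (h1 : 0 < w 1) : Nice (exc w) := by
  refine ⟨exc_cont h, (exc_pos h h1).1, (exc_pos h h1).2.1, (exc_pos h h1).2.2,
    fun m m' hm0 hm1 hm0' hm1' hm hm' he => exc_dist h h1 hm0 hm1 hm hm0' hm1' hm' he, ?_⟩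
  rw [← Measure.restrict_congr_set (Ioo_ae_eq_Icc (a := (0 : ℝ)) (b := 1)),
    ae_restrict_iff' measurableSet_Ioo]
  filter_upwards [exc_gen h h1] with t ht htI
  exact ⟨htI.1, htI.2, ht htI.1 htI.2⟩

theorem Inn.mono {e : ℝ → ℝ} {s : ℝ → Bool} {N : ℕ} {Q : ℝ} {k : ℕ} {r a b a' b' : ℝ}
    (h : Inn e s N Q k r a b) (ha : a' ≤ a) (hb : b ≤ b') : Inn e s N Q k r a' b' := by
  cases k with
  | zero => exact trivial
  | succ k =>
    obtain ⟨x, y, h1, h2⟩ := h
    exact ⟨x, y, fun i => ⟨ha.trans (h1 i).1, (h1 i).2.1.trans hb, (h1 i).2.2⟩, h2⟩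

theorem Inn.pred {e : ℝ → ℝ} {s : ℝ → Bool} {N : ℕ} {Q : ℝ} {k : ℕ} {r a b : ℝ}
    (h : Inn e s N Q (k + 1) r a b) : Inn e s N Q k r a b := by
  induction k generalizing r a b with
  | zero => exact trivial
  | succ k ih =>
    obtain ⟨x, y, h1, h2⟩ := h
    exact ⟨x, y, fun i => ⟨(h1 i).1, (h1 i).2.1, (h1 i).2.2.1, ih (h1 i).2.2.2⟩, h2⟩

/-- transfer of nested families from the path to the excursion -/
theorem inn_exc {w : ℝ≥0 → ℝ} (h : GenPath (tr w)) (h1 : 0 < w 1) (loc : ℕ → ℝ) (sgn : ℕ → Bool)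
    {N : ℕ} {Q : ℝ} (hQ : 0 ≤ Q) (k : ℕ) {r a b : ℝ} (hr : 0 ≤ r) (ha : gL w ≤ a) (hb : b ≤ dR w)
    (hI : Inn (tr w) (fun m => signAt loc sgn ((m - gL w) / (dR w - gL w))) N Q k r a b) :
    Inn (exc w) (signAt loc sgn) N Q k (r / (dR w - gL w)) ((a - gL w) / (dR w - gL w))
      ((b - gL w) / (dR w - gL w)) := by
  obtain ⟨hg0, hg1, hd1, -, -, -⟩ := exc_ends h h1
  have hdg : 0 < dR w - gL w := by linarith
  induction k generalizing r a b with
  | zero => exact trivial
  | succ k ih =>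
    obtain ⟨x, y, H1, H2⟩ := hI
    refine ⟨fun i => (x i - gL w) / (dR w - gL w), fun i => (y i - gL w) / (dR w - gL w),
      fun i => ⟨?_, ?_, ?_, ?_⟩, fun i j hij => ⟨?_, ?_⟩⟩
    · exact div_le_div_of_nonneg_right (by linarith [(H1 i).1]) hdg.le
    · exact div_le_div_of_nonneg_right (by linarith [(H1 i).2.1]) hdg.le
    · rw [← sub_div]
      exact div_le_div_of_nonneg_right (by linarith [(H1 i).2.2.1]) hdg.le
    · rw [div_right_comm]
      exact ih (div_nonneg hr hQ) (ha.trans (H1 i).1) ((H1 i).2.1.trans hb) (H1 i).2.2.2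
    · exact div_le_div_of_nonneg_right (by linarith [(H2 i j hij).1]) hdg.le
    · obtain ⟨-, m, hm, hm1, hm2, hm3⟩ := H2 i j hij
      have hgx : gL w ≤ x i := ha.trans (H1 i).1
      have hyd : y j ≤ dR w := (H1 j).2.1.trans hb
      have hgm : gL w ≤ m := by linarith [(H1 i).2.2.1]
      have hmd : m ≤ dR w := by linarith [(H1 j).2.2.1]
      refine ⟨(m - gL w) / (dR w - gL w), hm,
        div_le_div_of_nonneg_right (by linarith) hdg.le,
        div_le_div_of_nonneg_right (by linarith) hdg.le, fun z hz1 hz2 hz3 => ?_⟩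
      rw [div_le_iff₀ hdg] at hz1
      rw [le_div_iff₀ hdg] at hz2
      have hz0 : 0 ≤ z := by
        by_contra hc
        rw [not_le] at hc
        nlinarith [mul_neg_of_neg_of_pos hc hdg]
      have hz11 : z ≤ 1 := by
        by_contra hc
        rw [not_le] at hc
        have := mul_pos (sub_pos.2 hc) hdg
        nlinarith
      have hzm : gL w + z * (dR w - gL w) ≠ m := by
        intro hc
        apply hz3
        rw [← hc, add_sub_cancel_left, mul_div_cancel_right₀ _ hdg.ne']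
      have h3 := hm3 (gL w + z * (dR w - gL w)) (by linarith) (by linarith) hzm
      rw [exc_eq h h1 hz0 hz11, exc_eq h h1 (div_nonneg (by linarith) hdg.le)
        ((div_le_one hdg).2 (by linarith)), div_mul_cancel₀ _ hdg.ne', add_sub_cancel]
      exact div_lt_div_of_pos_right h3 (Real.sqrt_pos.2 hdg)

end Pool.Agent.BSP
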