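import Pool.Agent.BSP.GenDefs

set_option autoImplicit false

/-!
# The excursion which straddles time `1`
-/

namespace Pool.Agent.BSP

open MeasureTheory ProbabilityTheory Set Filter
open scoped ENNReal NNReal Topology

/-- the path `w` as a function on the real line -/
def tr (w : ℝ≥0 → ℝ) (t : ℝ) : ℝ := w t.toNNReal

variable {w : ℝ≥0 → ℝ}

theorem exc_ends (h : GenPath (tr w)) (h1 : 0 < w 1) : 0 ≤ gL w ∧ gL w < 1 ∧ 1 < dR w ∧
    tr w (gL w) = 0 ∧ tr w (dR w) = 0 ∧ ∀ t, gL w < t → t < dR w → 0 < tr w t := by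
  have hc := h.cont
  have hone : 0 < tr w 1 := by
    unfold tr; rw [Real.toNNReal_one]; exact h1
  -- the last zero
  have hS0 : gL w = sSup {t : ℝ | 0 ≤ t ∧ t ≤ 1 ∧ tr w t = 0} := rfl
  have hT0 : dR w = sInf {t : ℝ | 1 ≤ t ∧ tr w t = 0} := rfl
  set S : Set ℝ := {t : ℝ | 0 ≤ t ∧ t ≤ 1 ∧ tr w t = 0} with hS
  set T : Set ℝ := {t : ℝ | 1 ≤ t ∧ tr w t = 0} with hT
  have hSc : IsClosed S :=
    (isClosed_le continuous_const continuous_id).inter
      ((isClosed_le continuous_id continuous_const).inter (isClosed_eq hc continuous_const))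
  have hTc : IsClosed T :=
    (isClosed_le continuous_const continuous_id).inter (isClosed_eq hc continuous_const)
  have hSn : S.Nonempty := ⟨0, le_rfl, zero_le_one, h.zero⟩
  have hSb : BddAbove S := ⟨1, fun t ht => ht.2.1⟩
  have hTb : BddBelow T := ⟨1, fun t ht => ht.1⟩
  have hTn : T.Nonempty := by
    obtain ⟨t, ht1, ht2⟩ := h.low
    have := intermediate_value_Icc' (f := tr w) ht1.le hc.continuousOn
    obtain ⟨s, hs, hs'⟩ := this ⟨ht2.le, hone.le⟩
    exact ⟨s, hs.1, hs'⟩
  have hg : gL w ∈ S := by rw [hS0]; exact hSc.csSup_mem hSn hSb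
  have hd : dR w ∈ T := by rw [hT0]; exact hTc.csInf_mem hTn hTb
  have hg1 : gL w < 1 := by
    refine lt_of_le_of_ne hg.2.1 fun he => ?_
    have := hg.2.2
    rw [he] at this
    linarith
  have hd1 : 1 < dR w := by
    refine lt_of_le_of_ne hd.1 fun he => ?_
    have := hd.2
    rw [← he] at this
    linarith
  refine ⟨hg.1, hg1, hd1, hg.2.2, hd.2, fun t ht1 ht2 => ?_⟩
  by_contra hneg
  rw [not_lt] at hneg
  rcases le_total t 1 with ht | ht
  · have := intermediate_value_Icc (f := tr w) ht hc.continuousOn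
    obtain ⟨s, hs, hs'⟩ := this ⟨hneg, hone.le⟩
    have h2 : s ∈ S := ⟨(hg.1.trans ht1.le).trans hs.1, hs.2, hs'⟩
    have h3 : s ≤ gL w := by rw [hS0]; exact le_csSup hSb h2
    linarith [hs.1]
  · have := intermediate_value_Icc' (f := tr w) ht hc.continuousOn
    obtain ⟨s, hs, hs'⟩ := this ⟨hneg, hone.le⟩
    have h2 : s ∈ T := ⟨hs.1, hs'⟩
    have h3 : dR w ≤ s := by rw [hT0]; exact csInf_le hTb h2
    linarith [hs.2]

theorem exc_eq (h : GenPath (tr w)) (h1 : 0 < w 1) {t : ℝ} (ht0 : 0 ≤ t) (ht1 : t ≤ 1) :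
    exc w t = tr w (gL w + t * (dR w - gL w)) / √(dR w - gL w) := by
  obtain ⟨a0, a1, a2, a3, a4, a5⟩ := exc_ends h h1
  have hL : 0 < dR w - gL w := by linarith
  have hnn : 0 ≤ tr w (gL w + t * (dR w - gL w)) := by
    rcases ht0.eq_or_lt with rfl | h0
    · simp [a3]
    · rcases ht1.eq_or_lt with rfl | h1'
      · rw [one_mul, add_sub_cancel, a4]
      · exact (a5 _ (by nlinarith) (by nlinarith)).le
  unfold exc
  change |tr w (gL w + t * (dR w - gL w))| / √(dR w - gL w) = _
  rw [abs_of_nonneg hnn]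

theorem exc_cont (h : GenPath (tr w)) : Continuous (exc w) := by
  have h1 : Continuous fun t : ℝ => |tr w (gL w + t * (dR w - gL w))| / √(dR w - gL w) :=
    (continuous_abs.comp (h.cont.comp
      (continuous_const.add (continuous_id.mul continuous_const)))).div_const _
  exact h1

theorem exc_pos (h : GenPath (tr w)) (h1 : 0 < w 1) : exc w 0 = 0 ∧ exc w 1 = 0 ∧
    ∀ t, 0 < t → t < 1 → 0 < exc w t := by
  obtain ⟨a0, a1, a2, a3, a4, a5⟩ := exc_ends h h1
  have hL : 0 < dR w - gL w := by linarith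
  refine ⟨?_, ?_, fun t ht0 ht1 => ?_⟩
  · rw [exc_eq h h1 le_rfl zero_le_one, zero_mul, add_zero, a3, zero_div]
  · rw [exc_eq h h1 zero_le_one le_rfl, one_mul, add_sub_cancel, a4, zero_div]
  · rw [exc_eq h h1 ht0.le ht1.le]
    exact div_pos (a5 _ (by nlinarith) (by nlinarith)) (Real.sqrt_pos.mpr hL)

/-- local minima of the excursion are local minima of the path -/
theorem exc_locMin (h : GenPath (tr w)) (h1 : 0 < w 1) {m : ℝ} (hm0 : 0 < m) (hm1 : m < 1)
    (hm : IsLocalMin (exc w) m) : IsLocalMin (tr w) (gL w + m * (dR w - gL w)) := by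
  obtain ⟨a0, a1, a2, a3, a4, a5⟩ := exc_ends h h1
  have hL : 0 < dR w - gL w := by linarith
  have hs : 0 < √(dR w - gL w) := Real.sqrt_pos.mpr hL
  -- near `m` the excursion is at least its value at `m`
  have hev : ∀ᶠ z in 𝓝 m, 0 < z ∧ z < 1 ∧ exc w m ≤ exc w z :=
    (lt_mem_nhds hm0).and ((gt_mem_nhds hm1).and hm)
  have hc : Continuous fun s : ℝ => (s - gL w) / (dR w - gL w) :=
    (continuous_id.sub continuous_const).div_const _
  have hval : (gL w + m * (dR w - gL w) - gL w) / (dR w - gL w) = m := by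
    field_simp
    ring
  have ht : Tendsto (fun s : ℝ => (s - gL w) / (dR w - gL w))
      (𝓝 (gL w + m * (dR w - gL w))) (𝓝 m) := by
    have := hc.tendsto (gL w + m * (dR w - gL w))
    rwa [hval] at this
  filter_upwards [ht.eventually hev] with s hs'
  obtain ⟨b1, b2, b3⟩ := hs'
  rw [exc_eq h h1 hm0.le hm1.le, exc_eq h h1 b1.le b2.le] at b3
  have hback : gL w + (s - gL w) / (dR w - gL w) * (dR w - gL w) = s := by
    field_simp
    ring
  rw [hback] at b3
  exact (div_le_div_iff_of_pos_right hs).mp b3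

theorem exc_dist (h : GenPath (tr w)) (h1 : 0 < w 1) {m m' : ℝ} (hm0 : 0 < m) (hm1 : m < 1)
    (hm : IsLocalMin (exc w) m) (hm0' : 0 < m') (hm1' : m' < 1)
    (hm' : IsLocalMin (exc w) m') (he : exc w m = exc w m') : m = m' := by
  obtain ⟨a0, a1, a2, a3, a4, a5⟩ := exc_ends h h1
  have hL : 0 < dR w - gL w := by linarith
  have hs : 0 < √(dR w - gL w) := Real.sqrt_pos.mpr hL
  rw [exc_eq h h1 hm0.le hm1.le, exc_eq h h1 hm0'.le hm1'.le] at he
  have he' : tr w (gL w + m * (dR w - gL w)) = tr w (gL w + m' * (dR w - gL w)) := by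
    exact (div_left_inj' hs.ne').mp he
  have := h.dist _ _ (by positivity) (by positivity) (exc_locMin h h1 hm0 hm1 hm)
    (exc_locMin h h1 hm0' hm1' hm') he'
  have h2 : m * (dR w - gL w) = m' * (dR w - gL w) := by linarith
  exact mul_right_cancel₀ hL.ne' h2

theorem exc_gen (h : GenPath (tr w)) (h1 : 0 < w 1) :
    ∀ᵐ t : ℝ, 0 < t → t < 1 → (∀ ε, 0 < ε → ∃ z, t - ε < z ∧ z < t ∧ exc w z < exc w t) ∧
      (∀ ε, 0 < ε → ∃ z, t < z ∧ z < t + ε ∧ exc w z < exc w t) := by
  obtain ⟨a0, a1, a2, a3, a4, a5⟩ := exc_ends h h1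
  have hL : 0 < dR w - gL w := by linarith
  have hs : 0 < √(dR w - gL w) := Real.sqrt_pos.mpr hL
  -- the affine map preserves null sets
  have hq : ∀ᵐ t : ℝ, 0 < gL w + t * (dR w - gL w) →
      (∀ ε, 0 < ε → ∃ z, gL w + t * (dR w - gL w) - ε < z ∧ z < gL w + t * (dR w - gL w) ∧
        tr w z < tr w (gL w + t * (dR w - gL w))) ∧
      (∀ ε, 0 < ε → ∃ z, gL w + t * (dR w - gL w) < z ∧ z < gL w + t * (dR w - gL w) + ε ∧
        tr w z < tr w (gL w + t * (dR w - gL w))) := by
    have hg := h.gen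
    rw [ae_iff] at hg ⊢
    have hpre := Real.volume_preimage_mul_right (a := dR w - gL w) hL.ne'
      ((fun x => gL w + x) ⁻¹' {a : ℝ | ¬ (0 < a → (∀ ε, 0 < ε → ∃ z, a - ε < z ∧ z < a ∧
        tr w z < tr w a) ∧ (∀ ε, 0 < ε → ∃ z, a < z ∧ z < a + ε ∧ tr w z < tr w a))})
    rw [measure_preimage_add, hg, mul_zero] at hpre
    exact hpre
  filter_upwards [hq] with t ht ht0 ht1
  obtain ⟨b1, b2⟩ := ht (by positivity)
  constructor
  · intro ε hε
    -- shrink `ε` so that the point stays inside the excursion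
    obtain ⟨z, c1, c2, c3⟩ := b1 (min ε t * (dR w - gL w))
      (mul_pos (lt_min hε ht0) hL)
    refine ⟨(z - gL w) / (dR w - gL w), ?_, ?_, ?_⟩
    · rw [lt_div_iff₀ hL]
      have := min_le_left ε t
      nlinarith
    · rw [div_lt_iff₀ hL]
      linarith
    · have hz0 : 0 ≤ (z - gL w) / (dR w - gL w) := by
        apply div_nonneg _ hL.le
        have := min_le_right ε t
        nlinarith
      have hz1 : (z - gL w) / (dR w - gL w) ≤ 1 := by
        rw [div_le_one hL]
        nlinarith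
      rw [exc_eq h h1 hz0 hz1, exc_eq h h1 ht0.le ht1.le]
      have hback : gL w + (z - gL w) / (dR w - gL w) * (dR w - gL w) = z := by
        field_simp
        ring
      rw [hback]
      exact (div_lt_div_iff_of_pos_right hs).mpr c3
  · intro ε hε
    obtain ⟨z, c1, c2, c3⟩ := b2 (min ε (1 - t) * (dR w - gL w))
      (mul_pos (lt_min hε (by linarith)) hL)
    refine ⟨(z - gL w) / (dR w - gL w), ?_, ?_, ?_⟩
    · rw [lt_div_iff₀ hL]
      linarith
    · rw [div_lt_iff₀ hL]
      have := min_le_left ε (1 - t)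
      nlinarith
    · have hz0 : 0 ≤ (z - gL w) / (dR w - gL w) := by
        apply div_nonneg _ hL.le
        nlinarith
      have hz1 : (z - gL w) / (dR w - gL w) ≤ 1 := by
        rw [div_le_one hL]
        have := min_le_right ε (1 - t)
        nlinarith
      rw [exc_eq h h1 hz0 hz1, exc_eq h h1 ht0.le ht1.le]
      have hback : gL w + (z - gL w) / (dR w - gL w) * (dR w - gL w) = z := by
        field_simp
        ring
      rw [hback]
      exact (div_lt_div_iff_of_pos_right hs).mpr c3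

/-- transfer of `IsArgmin` from the path to the excursion -/
theorem exc_argmin (h : GenPath (tr w)) (h1 : 0 < w 1) {x y m : ℝ} (hx : gL w ≤ x)
    (hy : y ≤ dR w) (hm : IsArgmin (tr w) x y m) :
    IsArgmin (exc w) ((x - gL w) / (dR w - gL w)) ((y - gL w) / (dR w - gL w))
      ((m - gL w) / (dR w - gL w)) := by
  obtain ⟨a0, a1, a2, a3, a4, a5⟩ := exc_ends h h1
  have hL : 0 < dR w - gL w := by linarith
  have hs : 0 < √(dR w - gL w) := Real.sqrt_pos.mpr hL
  obtain ⟨b1, b2, b3⟩ := hm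
  have hback : ∀ z : ℝ, gL w + (z - gL w) / (dR w - gL w) * (dR w - gL w) = z := by
    intro z
    field_simp
    ring
  refine ⟨?_, ?_, fun z hz1 hz2 hz3 => ?_⟩
  · rw [div_lt_div_iff_of_pos_right hL]; linarith
  · rw [div_lt_div_iff_of_pos_right hL]; linarith
  · have hm0 : 0 ≤ (m - gL w) / (dR w - gL w) := div_nonneg (by linarith) hL.le
    have hm1 : (m - gL w) / (dR w - gL w) ≤ 1 := by
      rw [div_le_one hL]; linarith
    have hz0 : 0 ≤ z := (div_nonneg (by linarith) hL.le).trans hz1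
    have hz1' : z ≤ 1 := hz2.trans (by rw [div_le_one hL]; linarith)
    rw [exc_eq h h1 hm0 hm1, exc_eq h h1 hz0 hz1', hback]
    refine (div_lt_div_iff_of_pos_right hs).mpr (b3 _ ?_ ?_ ?_)
    · rw [div_le_iff₀ hL] at hz1; linarith
    · rw [le_div_iff₀ hL] at hz2; linarith
    · intro he
      apply hz3
      rw [← he]
      field_simp
      ring

/-- the argmin of a piece inside the excursion is a strict local minimum of the excursion -/
theorem exc_strictMin (h : GenPath (tr w)) (h1 : 0 < w 1) {x y m : ℝ} (hx : gL w ≤ x)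
    (hy : y ≤ dR w) (hm : IsArgmin (tr w) x y m) :
    0 < (m - gL w) / (dR w - gL w) ∧ (m - gL w) / (dR w - gL w) < 1 ∧
      IsStrictMin (exc w) ((m - gL w) / (dR w - gL w)) := by
  obtain ⟨a0, a1, a2, a3, a4, a5⟩ := exc_ends h h1
  have hL : 0 < dR w - gL w := by linarith
  obtain ⟨b1, b2, b3⟩ := exc_argmin h h1 hx hy hm
  refine ⟨div_pos (by linarith [hm.1]) hL, ?_, ?_⟩
  · rw [div_lt_one hL]; linarith [hm.2.1]
  · unfold IsStrictMin
    rw [eventually_nhdsWithin_iff]
    filter_upwards [lt_mem_nhds b1, gt_mem_nhds b2] with z hz1 hz2 hz3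
    exact b3 z hz1.le hz2.le hz3

end Pool.Agent.BSP
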