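import Pool.Agent.BSP.Tree
import Pool.Agent.BSP.CvMeas

set_option autoImplicit false

/-!
# Sums over trees

Decompose sums over `Tr` by the equivalence `Tr ≃ Unit ⊕ (Bool × Bool) ⊕ (Bool × Tr × Tr)`.
-/

namespace Pool.Agent.BSP

open MeasureTheory
open scoped ENNReal

/-- the trees as an iterated sum type -/
def treeSumEquiv : (Unit ⊕ (Bool × Bool)) ⊕ (Bool × Tr × Tr) ≃ Tr where
  toFun
    | .inl (.inl _) => .leaf
    | .inl (.inr (s, x)) => .cherry s x
    | .inr (s, l, r) => .node s l r
  invFun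
    | .leaf => .inl (.inl ())
    | .cherry s x => .inl (.inr (s, x))
    | .node s l r => .inr (s, l, r)
  left_inv := by
    rintro ((_ | ⟨s, x⟩) | ⟨s, l, r⟩) <;> rfl
  right_inv := by
    rintro (_ | ⟨s, x⟩ | ⟨s, l, r⟩) <;> rfl

/-- a code of a tree as a list of numbers -/
def Tr.code : Tr → List ℕ
  | .leaf => [0]
  | .cherry s x => [1 + s.toNat + 2 * x.toNat]
  | .node s l r => (5 + s.toNat) :: (l.code ++ r.code)

theorem Tr.code_append_inj (t : Tr) : ∀ (t' : Tr) (a b : List ℕ), t.code ++ a = t'.code ++ b →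
    t = t' ∧ a = b := by
  induction t with
  | leaf =>
    intro t' a b h
    rcases t' with _ | ⟨s', x'⟩ | ⟨s', l', r'⟩
    · simpa [Tr.code] using h
    · simp only [Tr.code, List.cons_append, List.nil_append, List.cons.injEq] at h
      omega
    · simp only [Tr.code, List.cons_append, List.nil_append, List.cons.injEq] at h
      omega
  | cherry s x =>
    intro t' a b h
    rcases t' with _ | ⟨s', x'⟩ | ⟨s', l', r'⟩
    · simp only [Tr.code, List.cons_append, List.nil_append, List.cons.injEq] at h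
      omega
    · simp only [Tr.code, List.cons_append, List.nil_append, List.cons.injEq] at h
      obtain ⟨h1, h2⟩ := h
      refine ⟨?_, h2⟩
      revert h1
      cases s <;> cases x <;> cases s' <;> cases x' <;> simp
    · simp only [Tr.code, List.cons_append, List.nil_append, List.cons.injEq] at h
      obtain ⟨h1, h2⟩ := h
      exfalso
      revert h1
      cases s <;> cases x <;> cases s' <;> simp
  | node s l r ihl ihr =>
    intro t' a b h
    rcases t' with _ | ⟨s', x'⟩ | ⟨s', l', r'⟩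
    · simp only [Tr.code, List.cons_append, List.nil_append, List.cons.injEq] at h
      omega
    · simp only [Tr.code, List.cons_append, List.nil_append, List.cons.injEq] at h
      obtain ⟨h1, h2⟩ := h
      exfalso
      revert h1
      cases s <;> cases x' <;> cases s' <;> simp
    · simp only [Tr.code, List.cons_append, List.append_assoc, List.cons.injEq] at h
      obtain ⟨h1, h2⟩ := h
      obtain ⟨e1, h3⟩ := ihl _ _ _ h2
      obtain ⟨e2, h4⟩ := ihr _ _ _ h3
      refine ⟨?_, h4⟩
      rw [e1, e2]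
      revert h1
      cases s <;> cases s' <;> simp

instance : Countable Tr := by
  have h : Function.Injective Tr.code := by
    intro t t' h
    exact (Tr.code_append_inj t t' [] [] (by rw [h])).1
  exact h.countable

theorem tsum_Tr (f : Tr → ℝ≥0∞) : ∑' t, f t = f .leaf + (∑' s, ∑' x, f (.cherry s x)) +
    ∑' s, ∑' l, ∑' r, f (.node s l r) := by
  rw [← treeSumEquiv.tsum_eq f, ENNReal.summable.tsum_sum ENNReal.summable,
    ENNReal.summable.tsum_sum ENNReal.summable]
  congr 1
  · congr 1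
    · rw [tsum_fintype]
      simp [treeSumEquiv]
    · rw [ENNReal.tsum_prod']
      rfl
  · rw [ENNReal.tsum_prod']
    apply tsum_congr
    intro s
    rw [ENNReal.tsum_prod']
    rfl

theorem bw_add {p : ℝ} (hp0 : 0 ≤ p) (hp1 : p ≤ 1) : bw p true + bw p false = 1 := by
  unfold bw
  simp only [if_true, Bool.false_eq_true, if_false]
  rw [← ENNReal.ofReal_add hp0 (by linarith)]
  simp

/-- the general recursion for sums over trees -/
theorem treeSum_rec {p g : ℝ} (φ : Tr → ℝ≥0∞) (K : Bool → Tr → Tr → ℝ≥0∞)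
    (h1 : ∀ s, φ (.cherry s true) + φ (.cherry s false) = bw p s * K s .leaf .leaf / 8)
    (h2 : ∀ s l r, φ (.node s l r) =
      if l = .leaf ∧ r = .leaf then 0 else bw p s * (K s l r * (l.w p g * r.w p g)) / 2) :
    ∑' t, φ t = φ .leaf +
      (bw p true / 2 * ∑' l : Tr, ∑' r : Tr, K true l r * (l.w p g * r.w p g) +
      bw p false / 2 * ∑' l : Tr, ∑' r : Tr, K false l r * (l.w p g * r.w p g)) := by
  have key : ∀ s, (φ (.cherry s true) + φ (.cherry s false)) + ∑' l, ∑' r, φ (.node s l r) =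
      bw p s / 2 * ∑' l : Tr, ∑' r : Tr, K s l r * (l.w p g * r.w p g) := by
    intro s
    have e1 : bw p s / 2 * ∑' l : Tr, ∑' r : Tr, K s l r * (l.w p g * r.w p g) =
        ∑' l : Tr, ∑' r : Tr, bw p s * (K s l r * (l.w p g * r.w p g)) / 2 := by
      rw [← ENNReal.tsum_mul_left]
      apply tsum_congr
      intro l
      rw [← ENNReal.tsum_mul_left]
      apply tsum_congr
      intro r
      simp only [div_eq_mul_inv]
      ring
    have e2 : ∀ l r : Tr, bw p s * (K s l r * (l.w p g * r.w p g)) / 2 =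
        φ (.node s l r) + (if l = .leaf then (if r = .leaf then bw p s * K s .leaf .leaf / 8 else 0)
          else 0) := by
      intro l r
      rw [h2]
      by_cases hl : l = .leaf
      · by_cases hr : r = .leaf
        · subst hl hr
          simp only [and_self, if_true, zero_add, Tr.w]
          have h8 : (8 : ℝ≥0∞)⁻¹ = 2⁻¹ * 2⁻¹ * 2⁻¹ := by
            rw [← ENNReal.mul_inv (by simp) (by simp), ← ENNReal.mul_inv (by simp) (by simp)]
            norm_num
          simp only [div_eq_mul_inv, one_mul, h8]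
          ring
        · simp [hl, hr]
      · simp [hl]
    rw [e1]
    have e3 : ∑' l : Tr, ∑' r : Tr, bw p s * (K s l r * (l.w p g * r.w p g)) / 2 =
        ∑' l : Tr, ∑' r : Tr, φ (.node s l r) + ∑' l : Tr, ∑' r : Tr,
          (if l = .leaf then (if r = .leaf then bw p s * K s .leaf .leaf / 8 else 0) else 0) := by
      rw [← ENNReal.tsum_add]
      apply tsum_congr
      intro l
      rw [← ENNReal.tsum_add]
      apply tsum_congr
      intro r
      exact e2 l r
    rw [e3, h1, add_comm]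
    congr 1
    rw [tsum_eq_single .leaf]
    · rw [tsum_eq_single .leaf]
      · simp
      · intro r hr
        simp [hr]
    · intro l hl
      simp [hl]
  rw [tsum_Tr, tsum_fintype, tsum_fintype]
  simp only [Fintype.sum_bool, tsum_bool]
  rw [← key true, ← key false]
  abel

theorem tsum_mul_tsum (a b : Tr → ℝ≥0∞) : ∑' l : Tr, ∑' r : Tr, a l * b r =
    (∑' l, a l) * ∑' r, b r := by
  rw [← ENNReal.tsum_mul_right]
  apply tsum_congr
  intro l
  rw [ENNReal.tsum_mul_left]

theorem gen_rec {p g : ℝ} (hp0 : 0 ≤ p) (hp1 : p ≤ 1) (hg0 : 0 ≤ g) (hg1 : g ≤ 1) (s : ℝ)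
    (hs0 : 0 ≤ s) :
    ∑' t : Tr, t.w p g * ENNReal.ofReal (s ^ (t.size + 1)) = ENNReal.ofReal s / 2 +
      (∑' t : Tr, t.w p g * ENNReal.ofReal (s ^ (t.size + 1))) *
      (∑' t : Tr, t.w p g * ENNReal.ofReal (s ^ (t.size + 1))) / 2 := by
  refine (treeSum_rec (p := p) (g := g) (fun t : Tr => t.w p g * ENNReal.ofReal (s ^ (t.size + 1)))
    (fun _ l r => ENNReal.ofReal (s ^ (l.size + 1)) * ENNReal.ofReal (s ^ (r.size + 1)))
    ?_ ?_).trans ?_
  rotate_left 2
  · have e1 : ∑' l : Tr, ∑' r : Tr, ENNReal.ofReal (s ^ (l.size + 1)) *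
        ENNReal.ofReal (s ^ (r.size + 1)) * (l.w p g * r.w p g) =
        (∑' t : Tr, t.w p g * ENNReal.ofReal (s ^ (t.size + 1))) *
        (∑' t : Tr, t.w p g * ENNReal.ofReal (s ^ (t.size + 1))) := by
      rw [← tsum_mul_tsum]
      apply tsum_congr
      intro l
      apply tsum_congr
      intro r
      ring
    rw [e1, ← add_mul, ← ENNReal.add_div, bw_add hp0 hp1]
    congr 1
    · simp only [Tr.w, Tr.size, zero_add, pow_one, div_eq_mul_inv, one_mul]
      rw [mul_comm]
    · simp only [div_eq_mul_inv, one_mul]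
      rw [mul_comm]
  · intro b
    simp only [Tr.w, Tr.size]
    rw [← add_mul, ← ENNReal.add_div, ← mul_add, bw_add hg0 hg1, mul_one,
      ← ENNReal.ofReal_mul (by positivity)]
    have : s ^ (0 + 1) * s ^ (0 + 1) = s ^ (1 + 1) := by ring
    rw [this]
    simp only [div_eq_mul_inv]
    ring
  · intro b l r
    simp only [Tr.w, Tr.size]
    split_ifs with h
    · simp
    · rw [← ENNReal.ofReal_mul (by positivity)]
      have : s ^ (l.size + 1) * s ^ (r.size + 1) = s ^ (l.size + 1 + r.size + 1) := by ring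
      rw [this]
      simp only [div_eq_mul_inv]
      ring

/-- truncated sums -/
noncomputable def gTr (p g s : ℝ) (h : ℕ) (t : Tr) : ℝ≥0∞ :=
  if t.size < h then t.w p g * ENNReal.ofReal (s ^ (t.size + 1)) else 0

theorem gTr_rec {p g : ℝ} (hp0 : 0 ≤ p) (hp1 : p ≤ 1) (hg0 : 0 ≤ g) (hg1 : g ≤ 1) (s : ℝ)
    (hs0 : 0 ≤ s) (h : ℕ) :
    ∑' t : Tr, gTr p g s (h + 1) t ≤ ENNReal.ofReal s / 2 +
      (∑' t : Tr, gTr p g s h t) * (∑' t : Tr, gTr p g s h t) / 2 := by
  rw [treeSum_rec (p := p) (g := g) (gTr p g s (h + 1))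
    (fun _ l r => if l.size + 1 + r.size < h + 1 then
      ENNReal.ofReal (s ^ (l.size + 1)) * ENNReal.ofReal (s ^ (r.size + 1)) else 0)]
  · have e1 : ∑' l : Tr, ∑' r : Tr, (if l.size + 1 + r.size < h + 1 then
        ENNReal.ofReal (s ^ (l.size + 1)) * ENNReal.ofReal (s ^ (r.size + 1)) else 0) *
          (l.w p g * r.w p g) ≤
        (∑' t : Tr, gTr p g s h t) * (∑' t : Tr, gTr p g s h t) := by
      rw [← tsum_mul_tsum]
      apply ENNReal.tsum_le_tsum
      intro l
      apply ENNReal.tsum_le_tsum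
      intro r
      split_ifs with hh
      · unfold gTr
        rw [if_pos (by omega), if_pos (by omega)]
        apply le_of_eq
        ring
      · simp
    have e2 := bw_add hp0 hp1
    calc gTr p g s (h + 1) Tr.leaf + (bw p true / 2 * ∑' l : Tr, ∑' r : Tr,
          (if l.size + 1 + r.size < h + 1 then
        ENNReal.ofReal (s ^ (l.size + 1)) * ENNReal.ofReal (s ^ (r.size + 1)) else 0) *
          (l.w p g * r.w p g) + bw p false / 2 * ∑' l : Tr, ∑' r : Tr,
          (if l.size + 1 + r.size < h + 1 then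
        ENNReal.ofReal (s ^ (l.size + 1)) * ENNReal.ofReal (s ^ (r.size + 1)) else 0) *
          (l.w p g * r.w p g))
        = gTr p g s (h + 1) Tr.leaf + (∑' l : Tr, ∑' r : Tr,
          (if l.size + 1 + r.size < h + 1 then
        ENNReal.ofReal (s ^ (l.size + 1)) * ENNReal.ofReal (s ^ (r.size + 1)) else 0) *
          (l.w p g * r.w p g)) / 2 := by
          rw [← add_mul, ← ENNReal.add_div, e2]
          simp only [div_eq_mul_inv, one_mul]
          rw [mul_comm]
      _ ≤ _ := by
          gcongr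
          unfold gTr
          simp only [Tr.w, Tr.size, zero_add, pow_one, Nat.succ_pos', if_true]
          rw [mul_comm]
          simp [div_eq_mul_inv]
  · intro b
    simp only [gTr, Tr.w, Tr.size]
    by_cases hh : 1 < h + 1
    · have hh' : 0 + 1 + 0 < h + 1 := by omega
      simp only [hh, hh', if_true]
      rw [← add_mul, ← ENNReal.add_div, ← mul_add, bw_add hg0 hg1, mul_one,
        ← ENNReal.ofReal_mul (by positivity)]
      have : s ^ (0 + 1) * s ^ (0 + 1) = s ^ (1 + 1) := by ring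
      rw [this]
      simp only [div_eq_mul_inv]
      ring
    · have hh' : ¬ 0 + 1 + 0 < h + 1 := by omega
      simp only [hh, hh', if_false]
      simp
  · intro b l r
    simp only [gTr, Tr.w, Tr.size]
    by_cases hh : l.size + 1 + r.size < h + 1
    · simp only [hh, if_true]
      split_ifs with h
      · simp
      · rw [← ENNReal.ofReal_mul (by positivity)]
        have : s ^ (l.size + 1) * s ^ (r.size + 1) = s ^ (l.size + 1 + r.size + 1) := by ring
        rw [this]
        simp only [div_eq_mul_inv]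
        ring
    · simp only [hh, if_false]
      simp

/-- generating function of the number of leaves -/
theorem gen_sum {p g : ℝ} (hp0 : 0 ≤ p) (hp1 : p ≤ 1) (hg0 : 0 ≤ g) (hg1 : g ≤ 1) {s : ℝ}
    (hs0 : 0 ≤ s) (hs1 : s ≤ 1) :
    ∑' t : Tr, t.w p g * ENNReal.ofReal (s ^ (t.size + 1)) = ENNReal.ofReal (1 - √(1 - s)) := by
  have hsq : √(1 - s) * √(1 - s) = 1 - s := Real.mul_self_sqrt (by linarith)
  have hsq0 : 0 ≤ √(1 - s) := Real.sqrt_nonneg _
  have hsq1 : √(1 - s) ≤ 1 :=
    (Real.sqrt_le_sqrt (by linarith : 1 - s ≤ 1)).trans_eq Real.sqrt_one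
  -- the truncated sums are bounded
  have hb : ∀ h : ℕ, ∑' t : Tr, gTr p g s h t ≤ ENNReal.ofReal (1 - √(1 - s)) := by
    intro h
    induction h with
    | zero => simp [gTr]
    | succ h ih =>
      refine (gTr_rec hp0 hp1 hg0 hg1 s hs0 h).trans ?_
      calc ENNReal.ofReal s / 2 + (∑' t : Tr, gTr p g s h t) * (∑' t : Tr, gTr p g s h t) / 2
          ≤ ENNReal.ofReal s / 2 + ENNReal.ofReal (1 - √(1 - s)) *
              ENNReal.ofReal (1 - √(1 - s)) / 2 := by gcongr
        _ = ENNReal.ofReal (1 - √(1 - s)) := by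
            rw [← ENNReal.ofReal_mul (by linarith), ← ENNReal.add_div,
              ← ENNReal.ofReal_add hs0 (by nlinarith),
              show (2 : ℝ≥0∞) = ENNReal.ofReal 2 by simp,
              ← ENNReal.ofReal_div_of_pos (by norm_num)]
            congr 1
            nlinarith
  set G := ∑' t : Tr, t.w p g * ENNReal.ofReal (s ^ (t.size + 1)) with hG
  have hle : G ≤ ENNReal.ofReal (1 - √(1 - s)) := by
    rw [hG, ENNReal.tsum_eq_iSup_sum]
    apply iSup_le
    intro F
    have hF : ∀ t ∈ F, t.size < F.sup Tr.size + 1 := by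
      intro t ht
      have := Finset.le_sup (f := Tr.size) ht
      omega
    calc ∑ t ∈ F, t.w p g * ENNReal.ofReal (s ^ (t.size + 1))
        = ∑ t ∈ F, gTr p g s (F.sup Tr.size + 1) t := by
          apply Finset.sum_congr rfl
          intro t ht
          rw [gTr, if_pos (hF t ht)]
      _ ≤ ∑' t : Tr, gTr p g s (F.sup Tr.size + 1) t := ENNReal.sum_le_tsum _
      _ ≤ _ := hb _
  have hfin : G ≠ ∞ := ne_top_of_le_ne_top ENNReal.ofReal_ne_top hle
  have hrec := gen_rec hp0 hp1 hg0 hg1 s hs0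
  rw [← hG] at hrec
  -- pass to real numbers
  have hreal : G.toReal = s / 2 + G.toReal * G.toReal / 2 := by
    have h2 : (G / 1) ≠ ∞ := by simpa using hfin
    have h3 : (G * G / 2) ≠ ∞ := by
      apply ENNReal.div_ne_top
      · exact ENNReal.mul_ne_top hfin hfin
      · simp
    have h4 : (ENNReal.ofReal s / 2) ≠ ∞ := by
      apply ENNReal.div_ne_top
      · exact ENNReal.ofReal_ne_top
      · simp
    have h5 := congrArg ENNReal.toReal hrec
    rw [ENNReal.toReal_add h4 h3, ENNReal.toReal_div, ENNReal.toReal_div, ENNReal.toReal_mul,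
      ENNReal.toReal_ofReal hs0] at h5
    simpa using h5
  have hle' : G.toReal ≤ 1 - √(1 - s) := by
    rw [← ENNReal.toReal_ofReal (show 0 ≤ 1 - √(1 - s) by linarith)]
    exact ENNReal.toReal_mono ENNReal.ofReal_ne_top hle
  rw [← ENNReal.ofReal_toReal hfin]
  congr 1
  nlinarith

theorem sum_w {p g : ℝ} (hp0 : 0 ≤ p) (hp1 : p ≤ 1) (hg0 : 0 ≤ g) (hg1 : g ≤ 1) :
    ∑' t : Tr, t.w p g = 1 := by
  have h := gen_sum hp0 hp1 hg0 hg1 (s := 1) (by norm_num) le_rfl
  simpa using h

/-- `P(Z > n)` -/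
noncomputable def FZ (p : ℝ) (n : ℕ) : ℝ :=
  (∑' t : Tr, if n < t.valZ then t.w p 1 else 0).toReal

/-- `P(X > n)` -/
noncomputable def FX (p g : ℝ) (n : ℕ) : ℝ :=
  (∑' t : Tr, if n < t.valX then t.w p g else 0).toReal

theorem FZ_isTail {p : ℝ} (hp0 : 0 ≤ p) (hp1 : p ≤ 1) : IsTail (FZ p) :=
  isTail_tsum (fun t : Tr => t.w p 1) Tr.valZ (sum_w hp0 hp1 zero_le_one le_rfl).le

theorem FX_isTail {p g : ℝ} (hp0 : 0 ≤ p) (hp1 : p ≤ 1) (hg0 : 0 ≤ g) (hg1 : g ≤ 1) :
    IsTail (FX p g) :=
  isTail_tsum (fun t : Tr => t.w p g) Tr.valX (sum_w hp0 hp1 hg0 hg1).le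

/-- the operator from the two double sums -/
theorem op_of_tsum {p g : ℝ} (hp0 : 0 ≤ p) (hp1 : p ≤ 1) (hg0 : 0 ≤ g) (hg1 : g ≤ 1)
    (v : Tr → ℕ) (n : ℕ) :
    (bw p true / 2 * ∑' l : Tr, ∑' r : Tr,
        (if n < comb true (v l) (v r) then 1 else 0) * (l.w p g * r.w p g) +
      bw p false / 2 * ∑' l : Tr, ∑' r : Tr,
        (if n < comb false (v l) (v r) then 1 else 0) * (l.w p g * r.w p g)).toReal =
      op p (fun k => (∑' t : Tr, if k < v t then t.w p g else 0).toReal) n := by
  have hw := sum_w hp0 hp1 hg0 hg1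
  have hT := isTail_tsum (fun t : Tr => t.w p g) v hw.le
  have h1 := cv_tsum (fun t : Tr => t.w p g) v hw n
  have h2 := max_tsum (fun t : Tr => t.w p g) v hw n
  have e1 : ∑' l : Tr, ∑' r : Tr,
        (if n < comb true (v l) (v r) then (1 : ℝ≥0∞) else 0) * (l.w p g * r.w p g) =
      ∑' l : Tr, ∑' r : Tr, (if n < v l + v r then l.w p g * r.w p g else 0) := by
    apply tsum_congr
    intro l
    apply tsum_congr
    intro r
    simp only [comb, if_true]
    split_ifs <;> simp
  have e2 : ∑' l : Tr, ∑' r : Tr,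
        (if n < comb false (v l) (v r) then (1 : ℝ≥0∞) else 0) * (l.w p g * r.w p g) =
      ∑' l : Tr, ∑' r : Tr, (if n < max (v l) (v r) then l.w p g * r.w p g else 0) := by
    apply tsum_congr
    intro l
    apply tsum_congr
    intro r
    simp only [comb, Bool.false_eq_true, if_false]
    split_ifs <;> simp
  rw [e1, e2, h1, h2]
  have hb : ∀ b, bw p b / 2 ≠ ∞ := by
    intro b
    apply ENNReal.div_ne_top
    · exact ENNReal.ofReal_ne_top
    · simp
  rw [ENNReal.toReal_add (ENNReal.mul_ne_top (hb _) ENNReal.ofReal_ne_top)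
    (ENNReal.mul_ne_top (hb _) ENNReal.ofReal_ne_top), ENNReal.toReal_mul, ENNReal.toReal_mul,
    ENNReal.toReal_div, ENNReal.toReal_div]
  have hF0 := hT.nonneg n
  have hF1 := hT.le_one n
  rw [ENNReal.toReal_ofReal (cv_nonneg hT n), ENNReal.toReal_ofReal (by nlinarith)]
  unfold op bw
  simp only [if_true, Bool.false_eq_true, if_false]
  rw [ENNReal.toReal_ofReal hp0, ENNReal.toReal_ofReal (by linarith)]
  simp

theorem FZ_succ {p : ℝ} (hp0 : 0 ≤ p) (hp1 : p ≤ 1) (n : ℕ) : FZ p (n + 1) = op p (FZ p) n := by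
  have h := op_of_tsum (g := 1) hp0 hp1 zero_le_one le_rfl Tr.valZ n
  change _ = op p (fun k => (∑' t : Tr, if k < t.valZ then t.w p 1 else 0).toReal) n
  rw [← h]
  unfold FZ
  congr 1
  rw [treeSum_rec (p := p) (g := 1) (fun t : Tr => if n + 1 < t.valZ then t.w p 1 else 0)
    (fun s l r => if n < comb s l.valZ r.valZ then 1 else 0)]
  · simp [Tr.valZ]
  · intro s
    simp only [Tr.valZ, Tr.w]
    have hc : n + 1 < 1 + comb s 1 1 ↔ n < comb s 1 1 := by omega
    by_cases h : n < comb s 1 1
    · simp only [hc, h, if_true]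
      rw [← ENNReal.add_div, ← mul_add, bw_add zero_le_one le_rfl]
    · simp only [hc, h, if_false]
      simp
  · intro s l r
    simp only [Tr.valZ, Tr.w]
    have hc : n + 1 < 1 + comb s l.valZ r.valZ ↔ n < comb s l.valZ r.valZ := by omega
    simp only [hc]
    by_cases h : n < comb s l.valZ r.valZ
    · simp only [h, if_true, one_mul, mul_assoc]
    · simp only [h, if_false, zero_mul, mul_zero, ENNReal.zero_div, ite_self]

theorem FX_eq {p g : ℝ} (hp0 : 0 ≤ p) (hp1 : p ≤ 1) (hg0 : 0 ≤ g) (hg1 : g ≤ 1) (n : ℕ)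
    (hn : 1 ≤ n) : FX p g n = op p (FX p g) n := by
  have h := op_of_tsum hp0 hp1 hg0 hg1 Tr.valX n
  change _ = op p (fun k => (∑' t : Tr, if k < t.valX then t.w p g else 0).toReal) n
  rw [← h]
  unfold FX
  congr 1
  rw [treeSum_rec (p := p) (g := g) (fun t : Tr => if n < t.valX then t.w p g else 0)
    (fun s l r => if n < comb s l.valX r.valX then 1 else 0)]
  · simp [Tr.valX]
  · intro s
    have h1 : ¬ n < Bool.toNat true := by simp; omega
    have h2 : ¬ n < Bool.toNat false := by simp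
    have h3 : ¬ n < comb s 0 0 := by
      unfold comb
      split_ifs <;> simp
    simp only [Tr.valX, h1, h2, h3, if_false]
    simp
  · intro s l r
    simp only [Tr.valX, Tr.w]
    by_cases h : n < comb s l.valX r.valX
    · simp only [h, if_true, one_mul, mul_assoc]
    · simp only [h, if_false, zero_mul, mul_zero, ENNReal.zero_div, ite_self]

theorem le_FX_zero {p g : ℝ} (hp0 : 0 ≤ p) (hp1 : p ≤ 1) (hg0 : 0 ≤ g) (hg1 : g ≤ 1) :
    g / 8 ≤ FX p g 0 := by
  have hw := sum_w hp0 hp1 hg0 hg1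
  unfold FX
  have hfin : (∑' t : Tr, if 0 < t.valX then t.w p g else 0) ≠ ∞ := by
    apply ne_top_of_le_ne_top ENNReal.one_ne_top
    rw [← hw]
    apply ENNReal.tsum_le_tsum
    intro t
    split_ifs
    · exact le_rfl
    · exact bot_le
  rw [← ENNReal.ofReal_le_iff_le_toReal hfin, tsum_Tr]
  have e1 : ENNReal.ofReal (g / 8) ≤ ∑' s : Bool, ∑' x : Bool,
      if 0 < (Tr.cherry s x).valX then (Tr.cherry s x).w p g else 0 := by
    rw [tsum_bool, tsum_bool, tsum_bool]
    simp only [Tr.valX, Tr.w, Bool.toNat_true, Bool.toNat_false, lt_irrefl, if_false, zero_add,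
      zero_lt_one, if_true]
    rw [← ENNReal.add_div, ← add_mul, add_comm, bw_add hp0 hp1]
    unfold bw
    rw [ENNReal.ofReal_div_of_pos (by norm_num)]
    simp
  exact e1.trans (le_trans le_add_self le_self_add)

end Pool.Agent.BSP
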