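import Pool.Agent.BSP.GWNode
import Pool.Agent.BSP.TreeSum

set_option autoImplicit false

/-!
# First passage below the starting level
-/

namespace Pool.Agent.BSP

open MeasureTheory ProbabilityTheory
open scoped ENNReal

/-- probability that the first `n` minima are positive -/
noncomputable def surv (θ : ℝ) (ρ : Measure Pc) (n : ℕ) : ℝ≥0∞ :=
  ∫⁻ u, LI ρ n (fun l => ind (∀ z ∈ mins u l, 0 < z.1)) ∂(expMeasure θ)

/-- probability that the first passage occurs in the piece `n` -/
noncomputable def fpass (θ : ℝ) (ρ : Measure Pc) (n : ℕ) : ℝ≥0∞ :=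
  gwInt θ ρ n (fun u l d => ind (Exc u l d 0))

/-! ### Auxiliary facts on `gwInt` -/

private theorem fp_mf2 {E : Measure ℝ} [SFinite E] {H : ℝ → List Pc → ℝ → ℝ≥0∞}
    (h : MF2 fun (q : ℝ × ℝ) l => H q.1 l q.2) : MF2 fun (u : ℝ) l => ∫⁻ d, H u l d ∂E := by
  intro n
  have h1 : Measurable (fun r : (ℝ × (Fin n → Pc)) × ℝ => H r.1.1 (List.ofFn r.1.2) r.2) :=
    (h n).comp (((measurable_fst.comp measurable_fst).prodMk measurable_snd).prodMk
      (measurable_snd.comp measurable_fst))
  exact h1.lintegral_prod_right'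

private theorem fp_congr {θ : ℝ} {ρ : Measure Pc} {n : ℕ} {H H' : ℝ → List Pc → ℝ → ℝ≥0∞}
    (h : ∀ u l d, l.length = n → H u l d = H' u l d) : gwInt θ ρ n H = gwInt θ ρ n H' := by
  unfold gwInt
  congr 1
  funext u
  apply LI_congr
  intro l hl
  congr 1
  funext d
  exact h u l d hl

private theorem fp_mono {θ : ℝ} {ρ : Measure Pc} {n : ℕ} {H H' : ℝ → List Pc → ℝ → ℝ≥0∞}
    (h : ∀ u l d, l.length = n → H u l d ≤ H' u l d) : gwInt θ ρ n H ≤ gwInt θ ρ n H' := by
  unfold gwInt
  apply lintegral_mono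
  intro u
  apply LI_mono
  intro l hl
  apply lintegral_mono
  intro d
  exact h u l d hl

private theorem fp_tsum {θ : ℝ} {ρ : Measure Pc} [SFinite ρ] [SFinite (expMeasure θ)] {n : ℕ}
    {ι : Type*} [Countable ι] {H : ι → ℝ → List Pc → ℝ → ℝ≥0∞}
    (h : ∀ i, MF2 fun (q : ℝ × ℝ) l => H i q.1 l q.2) :
    gwInt θ ρ n (fun u l d => ∑' i, H i u l d) = ∑' i, gwInt θ ρ n (H i) := by
  unfold gwInt
  have h1 : ∀ u l, l.length = n → ∫⁻ d, ∑' i, H i u l d ∂(expMeasure θ) =
      ∑' i, ∫⁻ d, H i u l d ∂(expMeasure θ) := by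
    intro u l hl
    apply lintegral_tsum
    intro i
    have h2 := (h i) l.length
    have h3 : Measurable (fun d : ℝ => H i u (List.ofFn l.get) d) :=
      h2.comp ((measurable_const.prodMk measurable_id).prodMk measurable_const)
    rw [List.ofFn_get] at h3
    exact h3.aemeasurable
  have h2 : ∀ u, LI ρ n (fun l => ∫⁻ d, ∑' i, H i u l d ∂(expMeasure θ)) =
      ∑' i, LI ρ n (fun l => ∫⁻ d, H i u l d ∂(expMeasure θ)) := by
    intro u
    rw [LI_congr ρ (fun l hl => h1 u l hl)]
    apply LI_tsum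
    intro i
    exact (fp_mf2 (h i)).mf u
  simp_rw [h2]
  apply lintegral_tsum
  intro i
  exact ((fp_mf2 (h i)).meas_LI ρ n).aemeasurable

private theorem fp_add {θ : ℝ} {ρ : Measure Pc} [SFinite ρ] [SFinite (expMeasure θ)] {n : ℕ}
    {H H' : ℝ → List Pc → ℝ → ℝ≥0∞} (h : MF2 fun (q : ℝ × ℝ) l => H q.1 l q.2)
    (h' : MF2 fun (q : ℝ × ℝ) l => H' q.1 l q.2) :
    gwInt θ ρ n (fun u l d => H u l d + H' u l d) = gwInt θ ρ n H + gwInt θ ρ n H' := by
  have h1 := fp_tsum (θ := θ) (ρ := ρ) (n := n)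
    (H := fun b : Bool => if b then H else H') (fun b => by cases b <;> simpa using by assumption)
  simp only [tsum_bool] at h1
  rw [add_comm (gwInt θ ρ n H)]
  simpa [add_comm] using h1

private theorem fp_zero {θ : ℝ} {ρ : Measure Pc} [IsProbabilityMeasure ρ] (n : ℕ) :
    gwInt θ ρ n (fun _ _ _ => 0) = 0 := by
  unfold gwInt
  simp only [lintegral_zero]
  rw [LI_const]
  simp

private theorem fp_mulc {θ : ℝ} {ρ : Measure Pc} [SFinite ρ] [SFinite (expMeasure θ)] {n : ℕ}
    {H : ℝ → List Pc → ℝ → ℝ≥0∞} (c : ℝ≥0∞) (hc : c = 0 ∨ c = 1) (h0 : gwInt θ ρ n (fun _ _ _ => 0) = 0) :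
    gwInt θ ρ n (fun u l d => H u l d * c) = gwInt θ ρ n H * c := by
  rcases hc with rfl | rfl
  · simp only [mul_zero]
    exact h0
  · simp only [mul_one]

private theorem ind_true {P : Prop} (h : P) : ind P = 1 := by
  unfold ind
  exact if_pos h

private theorem ind_false {P : Prop} (h : ¬ P) : ind P = 0 := by
  unfold ind
  exact if_neg h

private theorem ind_mono {P Q : Prop} (h : P → Q) : ind P ≤ ind Q := by
  by_cases hP : P
  · rw [ind_true hP, ind_true (h hP)]
  · rw [ind_false hP]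
    exact zero_le

private theorem ind_or01 (P : Prop) : ind P = 0 ∨ ind P = 1 := by
  by_cases hP : P
  · exact Or.inr (ind_true hP)
  · exact Or.inl (ind_false hP)

private theorem fp_shape_sum (P : Prop) (L : List It) (A : Tr → Prop) :
    ∑' t : Tr, ind (P ∧ HasShape t L) * ind (A t) = ind (P ∧ ∃ t, HasShape t L ∧ A t) := by
  by_cases h : ∃ t₀, HasShape t₀ L
  · obtain ⟨t₀, h0⟩ := h
    rw [tsum_eq_single t₀]
    · rw [← ind_and]
      congr 1
      apply propext
      constructor
      · rintro ⟨⟨hP, _⟩, hA⟩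
        exact ⟨hP, t₀, h0, hA⟩
      · rintro ⟨hP, t, ht, hA⟩
        have := ht.unique h0
        subst this
        exact ⟨⟨hP, h0⟩, hA⟩
    · intro t ht
      rw [ind_false (fun hh => ht (hh.2.unique h0)), zero_mul]
  · rw [ind_false (fun hh => h ⟨hh.2.choose, hh.2.choose_spec.1⟩)]
    rw [ENNReal.tsum_eq_zero]
    intro t
    rw [ind_false (fun hh => h ⟨t, hh.2⟩), zero_mul]

variable {p g : ℝ} {θ : ℝ} {ρ : Measure Pc}

private theorem fp_meas_shape (t : Tr) : MF2 fun (q : ℝ × ℝ) l =>
    ind (Exc q.1 l q.2 0 ∧ HasShape t (mins q.1 l)) :=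
  (meas_exc_shape t).comp_left
    (k := fun q : ℝ × ℝ => (q.1, q.2, (0 : ℝ)))
    (measurable_fst.prodMk (measurable_snd.prodMk measurable_const))

private theorem fp_meas_exc : MF2 fun (q : ℝ × ℝ) l => ind (Exc q.1 l q.2 0) :=
  meas_exc.comp_left (k := fun q : ℝ × ℝ => (q.1, q.2, (0 : ℝ)))
    (measurable_fst.prodMk (measurable_snd.prodMk measurable_const))

private theorem fp_K {θ : ℝ} (hθ : 0 < θ) (h : ℝ) :
    ∫⁻ d, ind (0 < h - d) ∂(expMeasure θ) + ∫⁻ d, ind (h - d < -0) ∂(expMeasure θ) ≤ 1 := by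
  have : IsProbabilityMeasure (expMeasure θ) := isProbabilityMeasure_expMeasure hθ
  have hm : Measurable (fun d : ℝ => ind (0 < h - d)) := by
    unfold ind
    exact Measurable.ite (measurableSet_lt measurable_const (measurable_const.sub measurable_id))
      measurable_const measurable_const
  rw [← lintegral_add_left hm]
  calc ∫⁻ d, (ind (0 < h - d) + ind (h - d < -0)) ∂(expMeasure θ) ≤
      ∫⁻ _, 1 ∂(expMeasure θ) := by
        apply lintegral_mono
        intro d
        by_cases h1 : 0 < h - d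
        · have h2 : ¬ (h - d < -0) := by
            rw [neg_zero]
            exact not_lt.2 h1.le
          show ind (0 < h - d) + ind (h - d < -0) ≤ 1
          rw [ind_true h1, ind_false h2, add_zero]
        · show ind (0 < h - d) + ind (h - d < -0) ≤ 1
          rw [ind_false h1, zero_add]
          rcases ind_or01 (h - d < -0) with h3 | h3 <;> rw [h3]
          exact zero_le_one
    _ = 1 := by simp

theorem surv_succ (hθ : 0 < θ) (hρ : PLaw p g θ ρ) (n : ℕ) :
    surv θ ρ (n + 1) + fpass θ ρ n ≤ surv θ ρ n := by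
  have := hρ.prob
  have : IsProbabilityMeasure (expMeasure θ) := isProbabilityMeasure_expMeasure hθ
  -- the last piece
  have hlast : ∀ u, LI ρ (n + 1) (fun l => ind (∀ z ∈ mins u l, 0 < z.1)) =
      LI ρ n (fun l => ∫⁻ d, ind ((∀ z ∈ mins u l, 0 < z.1) ∧ 0 < pos u l - d)
        ∂(expMeasure θ)) := by
    intro u
    rw [LI_append]
    apply LI_congr
    intro l _
    show ∫⁻ x, ind (∀ z ∈ mins u (l ++ [x]), 0 < z.1) ∂ρ = _
    have h1 : ∀ x : Pc, ind (∀ z ∈ mins u (l ++ [x]), 0 < z.1) =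
        ind ((∀ z ∈ mins u l, 0 < z.1) ∧ 0 < pos u l - pD x) := by
      intro x
      congr 1
      apply propext
      rw [mins_append]
      constructor
      · intro h
        refine ⟨fun z hz => h z (List.mem_append_left _ hz), ?_⟩
        exact h (pos u l - pD x, pS x, pX x) (List.mem_append_right _ (by simp [mins]))
      · rintro ⟨ha, hb⟩ z hz
        rcases List.mem_append.1 hz with hz | hz
        · exact ha z hz
        · simp only [mins, List.mem_singleton] at hz
          rw [hz]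
          exact hb
    simp_rw [h1]
    have hm : Measurable (fun d : ℝ => ind ((∀ z ∈ mins u l, 0 < z.1) ∧ 0 < pos u l - d)) := by
      unfold ind
      apply Measurable.ite ?_ measurable_const measurable_const
      by_cases hA : ∀ z ∈ mins u l, 0 < z.1
      · have : {d : ℝ | (∀ z ∈ mins u l, 0 < z.1) ∧ 0 < pos u l - d} = {d | 0 < pos u l - d} := by
          ext d
          exact ⟨fun h => h.2, fun h => ⟨hA, h⟩⟩
        rw [this]
        exact measurableSet_lt measurable_const (measurable_const.sub measurable_id)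
      · have : {d : ℝ | (∀ z ∈ mins u l, 0 < z.1) ∧ 0 < pos u l - d} = ∅ := by
          ext d
          exact ⟨fun h => hA h.1, fun h => absurd h (Set.notMem_empty _)⟩
        rw [this]
        exact MeasurableSet.empty
    have hpD : ρ.map pD = expMeasure θ := by
      have h2 : (ρ.map (fun x => (pD x, pU x))).map Prod.fst = expMeasure θ := by
        rw [hρ.DU]
        rw [Measure.map_fst_prod]
        simp
      rw [Measure.map_map measurable_fst (by unfold pD pU; fun_prop)] at h2
      exact h2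
    rw [← hpD, lintegral_map (by rw [← hpD] at *; exact hm) (by unfold pD; fun_prop)]
  have hmf : MF2 fun (q : ℝ × ℝ) l => ind ((∀ z ∈ mins q.1 l, 0 < z.1) ∧ 0 < pos q.1 l - q.2) := by
    intro m
    simp only [ind_and]
    apply Measurable.mul
    · exact (meas_above.comp_left (k := fun q : ℝ × ℝ => (q.1, (0 : ℝ)))
        (measurable_fst.prodMk measurable_const)) m
    · have h3 : Measurable (fun q : (ℝ × ℝ) × (Fin m → Pc) => pos q.1.1 (List.ofFn q.2)) :=
        (meas_pos.comp_left (k := fun q : ℝ × ℝ => q.1) measurable_fst) m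
      unfold ind
      exact Measurable.ite (measurableSet_lt measurable_const
        (h3.sub (measurable_snd.comp measurable_fst))) measurable_const measurable_const
  have hs : surv θ ρ (n + 1) =
      gwInt θ ρ n (fun u l d => ind ((∀ z ∈ mins u l, 0 < z.1) ∧ 0 < pos u l - d)) := by
    unfold surv gwInt
    simp_rw [hlast]
  rw [hs]
  unfold fpass
  rw [← fp_add hmf fp_meas_exc]
  unfold gwInt surv
  apply lintegral_mono
  intro u
  apply LI_mono
  intro l _
  by_cases hA : ∀ z ∈ mins u l, 0 < z.1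
  · rw [ind_true hA]
    refine le_trans ?_ (fp_K hθ (pos u l))
    have hm : Measurable (fun d : ℝ => ind (0 < pos u l - d)) := by
      unfold ind
      exact Measurable.ite (measurableSet_lt measurable_const
        (measurable_const.sub measurable_id)) measurable_const measurable_const
    rw [← lintegral_add_left hm]
    apply lintegral_mono
    intro d
    apply add_le_add
    · exact ind_mono (fun h => h.2)
    · exact ind_mono (fun h => h.2)
  · rw [ind_false hA]
    have h4 : ∀ d, ind ((∀ z ∈ mins u l, 0 < z.1) ∧ 0 < pos u l - d) + ind (Exc u l d 0) = 0 := by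
      intro d
      rw [ind_false (fun h => hA h.1), ind_false (fun h : Exc u l d 0 => hA h.1), add_zero]
    simp_rw [h4]
    simp

theorem surv_le (hθ : 0 < θ) (hρ : PLaw p g θ ρ) (n : ℕ) :
    surv θ ρ n + ∑ k ∈ Finset.range n, fpass θ ρ k ≤ 1 := by
  have := hρ.prob
  have : IsProbabilityMeasure (expMeasure θ) := isProbabilityMeasure_expMeasure hθ
  induction n with
  | zero =>
    unfold surv
    have h1 : ∀ u : ℝ, LI ρ 0 (fun l => ind (∀ z ∈ mins u l, 0 < z.1)) = 1 := by
      intro u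
      show ind (∀ z ∈ mins u [], 0 < z.1) = 1
      exact ind_true (by simp [mins])
    simp_rw [h1]
    simp
  | succ n ih =>
    rw [Finset.sum_range_succ, add_comm (∑ k ∈ Finset.range n, fpass θ ρ k), ← add_assoc]
    exact (add_le_add (surv_succ hθ hρ n) le_rfl).trans ih

variable (hp0 : 0 ≤ p) (hp1 : p ≤ 1) (hg0 : 0 ≤ g) (hg1 : g ≤ 1)

include hp0 hp1 hg0 hg1

private theorem fp_one_shape (hθ : 0 < θ) (hρ : PLaw p g θ ρ) (n : ℕ) (t : Tr) :
    gwInt θ ρ n (fun u l d => ind (Exc u l d 0 ∧ HasShape t (mins u l))) =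
      if t.size = n then t.w p g else 0 := by
  have := hρ.prob
  by_cases h : t.size = n
  · rw [if_pos h, ← h]
    exact gw hp0 hp1 hg0 hg1 hθ hρ t
  · rw [if_neg h, ← fp_zero (θ := θ) (ρ := ρ) n]
    apply fp_congr
    intro u l d hl
    apply ind_false
    rintro ⟨_, hs⟩
    apply h
    rw [← hs.length, length_mins, hl]

theorem fpass_shape (hθ : 0 < θ) (hρ : PLaw p g θ ρ) (n : ℕ) (A : Tr → Prop) :
    gwInt θ ρ n (fun u l d => ind (Exc u l d 0 ∧ ∃ t, HasShape t (mins u l) ∧ A t)) =
      ∑' t : Tr, (if t.size = n then t.w p g else 0) * ind (A t) := by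
  have := hρ.prob
  have : IsProbabilityMeasure (expMeasure θ) := isProbabilityMeasure_expMeasure hθ
  simp_rw [← fp_shape_sum]
  rw [fp_tsum]
  · congr 1
    funext t
    rw [fp_mulc _ (ind_or01 _) (fp_zero n), fp_one_shape hp0 hp1 hg0 hg1 hθ hρ n t]
  · intro t n
    exact ((fp_meas_shape t) n).mul_const _

private theorem fp_shape_true (hθ : 0 < θ) (hρ : PLaw p g θ ρ) (n : ℕ) :
    gwInt θ ρ n (fun u l d => ind (Exc u l d 0 ∧ ∃ t, HasShape t (mins u l) ∧ True)) =
      ∑' t : Tr, (if t.size = n then t.w p g else 0) := by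
  rw [fpass_shape hp0 hp1 hg0 hg1 hθ hρ n (fun _ => True)]
  congr 1
  funext t
  rw [ind_true trivial, mul_one]

/-- the weights of the trees sum up to `1`, so almost all excursions have a shape -/
theorem fpass_eq (hθ : 0 < θ) (hρ : PLaw p g θ ρ) (n : ℕ) :
    fpass θ ρ n = ∑' t : Tr, if t.size = n then t.w p g else 0 := by
  have := hρ.prob
  have hle : ∀ m, (∑' t : Tr, if t.size = m then t.w p g else 0) ≤ fpass θ ρ m := by
    intro m
    rw [← fp_shape_true hp0 hp1 hg0 hg1 hθ hρ m]
    unfold fpass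
    apply fp_mono
    intro u l d _
    exact ind_mono (fun h => h.1)
  have hsum : ∑' m, (∑' t : Tr, if t.size = m then t.w p g else 0) = 1 := by
    rw [ENNReal.tsum_comm, ← sum_w hp0 hp1 hg0 hg1]
    congr 1
    funext t
    rw [tsum_eq_single t.size]
    · rw [if_pos rfl]
    · intro m hm
      rw [if_neg (fun h => hm h.symm)]
  have hsum2 : ∑' m, fpass θ ρ m ≤ 1 := by
    rw [ENNReal.tsum_eq_iSup_nat]
    apply iSup_le
    intro m
    exact le_trans (le_add_left le_rfl) (surv_le hθ hρ m)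
  by_contra hne
  have hlt : (∑' t : Tr, if t.size = n then t.w p g else 0) < fpass θ ρ n :=
    lt_of_le_of_ne (hle n) (fun h => hne h.symm)
  have h3 := ENNReal.tsum_lt_tsum (f := fun m => ∑' t : Tr, if t.size = m then t.w p g else 0)
    (g := fun m => fpass θ ρ m) (i := n) (by rw [hsum]; exact ENNReal.one_ne_top) hle hlt
  rw [hsum] at h3
  exact absurd hsum2 (not_le.2 h3)

private theorem fp_fin (hθ : 0 < θ) (hρ : PLaw p g θ ρ) (n : ℕ) : fpass θ ρ n ≠ ⊤ := by
  have h1 : fpass θ ρ n ≤ 1 := by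
    refine le_trans ?_ (surv_le hθ hρ (n + 1))
    refine le_trans ?_ (le_add_left le_rfl)
    exact Finset.single_le_sum (fun _ _ => zero_le) (Finset.mem_range.2 (Nat.lt_succ_self n))
  exact ne_top_of_le_ne_top ENNReal.one_ne_top h1

theorem fpass_noshape (hθ : 0 < θ) (hρ : PLaw p g θ ρ) (n : ℕ) :
    gwInt θ ρ n (fun u l d => ind (Exc u l d 0 ∧ ¬ ∃ t, HasShape t (mins u l))) = 0 := by
  have := hρ.prob
  have : IsProbabilityMeasure (expMeasure θ) := isProbabilityMeasure_expMeasure hθ
  have hs : ∀ u l d, ind (Exc u l d 0 ∧ ¬ ∃ t, HasShape t (mins u l)) =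
      ind (Exc u l d 0) - ∑' t : Tr, ind (Exc u l d 0 ∧ HasShape t (mins u l)) := by
    intro u l d
    have h1 := fp_shape_sum (Exc u l d 0) (mins u l) (fun _ => True)
    simp only [ind_true trivial, mul_one] at h1
    rw [h1]
    by_cases hE : Exc u l d 0
    · by_cases hT : ∃ t, HasShape t (mins u l)
      · obtain ⟨t, ht⟩ := hT
        rw [ind_false (fun h => h.2 ⟨t, ht⟩), ind_true hE, ind_true ⟨hE, t, ht, trivial⟩, tsub_self]
      · rw [ind_true ⟨hE, hT⟩, ind_true hE,
          ind_false (fun h => hT ⟨h.2.choose, h.2.choose_spec.1⟩), tsub_zero]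
    · rw [ind_false (fun h => hE h.1), ind_false hE, zero_tsub]
  have hm1 : MF2 fun (q : ℝ × ℝ) l => ind (Exc q.1 l q.2 0 ∧ ¬ ∃ t, HasShape t (mins q.1 l)) := by
    intro m
    simp only [hs]
    exact (fp_meas_exc m).sub (Measurable.ennreal_tsum fun t => (fp_meas_shape t) m)
  have hm2 : MF2 fun (q : ℝ × ℝ) l =>
      ind (Exc q.1 l q.2 0 ∧ ∃ t, HasShape t (mins q.1 l) ∧ True) := by
    intro m
    simp only [← fp_shape_sum]
    exact Measurable.ennreal_tsum fun t => ((fp_meas_shape t) m).mul_const _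
  have h1 : fpass θ ρ n =
      gwInt θ ρ n (fun u l d => ind (Exc u l d 0 ∧ ∃ t, HasShape t (mins u l) ∧ True)) +
      gwInt θ ρ n (fun u l d => ind (Exc u l d 0 ∧ ¬ ∃ t, HasShape t (mins u l))) := by
    rw [← fp_add hm2 hm1]
    unfold fpass
    apply fp_congr
    intro u l d _
    by_cases hE : Exc u l d 0
    · by_cases hT : ∃ t, HasShape t (mins u l)
      · obtain ⟨t, ht⟩ := hT
        rw [ind_true hE, ind_true ⟨hE, t, ht, trivial⟩, ind_false (fun h => h.2 ⟨t, ht⟩), add_zero]
      · rw [ind_true hE, ind_false (fun h => hT ⟨h.2.choose, h.2.choose_spec.1⟩),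
          ind_true ⟨hE, hT⟩, zero_add]
    · rw [ind_false hE, ind_false (fun h => hE h.1), ind_false (fun h => hE h.1), add_zero]
  rw [fp_shape_true hp0 hp1 hg0 hg1 hθ hρ n, ← fpass_eq hp0 hp1 hg0 hg1 hθ hρ n] at h1
  have h2 := fp_fin hp0 hp1 hg0 hg1 hθ hρ n
  have h3 : fpass θ ρ n + 0 = fpass θ ρ n +
      gwInt θ ρ n (fun u l d => ind (Exc u l d 0 ∧ ¬ ∃ t, HasShape t (mins u l))) := by
    rw [add_zero]
    exact h1
  exact ((ENNReal.add_right_inj h2).1 h3).symm

theorem surv_eq (hθ : 0 < θ) (hρ : PLaw p g θ ρ) (n : ℕ) :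
    surv θ ρ n ≤ ∑' t : Tr, if n ≤ t.size then t.w p g else 0 := by
  have h1 := surv_le hθ hρ n
  have h2 : ∑ k ∈ Finset.range n, fpass θ ρ k = ∑' t : Tr, if t.size < n then t.w p g else 0 := by
    rw [Finset.sum_congr rfl (fun k _ => fpass_eq hp0 hp1 hg0 hg1 hθ hρ k)]
    rw [← Summable.tsum_finsetSum (fun _ _ => ENNReal.summable)]
    congr 1
    funext t
    rw [Finset.sum_ite_eq]
    simp only [Finset.mem_range]
  have h3 : (∑' t : Tr, if n ≤ t.size then t.w p g else 0) +
      (∑' t : Tr, if t.size < n then t.w p g else 0) = 1 := by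
    rw [← ENNReal.tsum_add, ← sum_w hp0 hp1 hg0 hg1]
    congr 1
    funext t
    by_cases h : n ≤ t.size
    · rw [if_pos h, if_neg (not_lt.2 h), add_zero]
    · rw [if_neg h, if_pos (not_le.1 h), zero_add]
  rw [h2, ← h3] at h1
  refine (ENNReal.add_le_add_iff_right ?_).1 h1
  refine ne_top_of_le_ne_top ENNReal.one_ne_top ?_
  rw [← h3]
  exact le_add_left le_rfl

end Pool.Agent.BSP
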