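import Pool.Agent.BSP.GWDefs

set_option autoImplicit false

/-!
# The law of the shape of an excursion: leaf and cherry
-/

namespace Pool.Agent.BSP

open MeasureTheory ProbabilityTheory
open scoped ENNReal

/-- `E exp(-θ u) = 1/2` for an exponential variable `u` of rate `θ` -/
theorem gwb_exp_exp {θ : ℝ} (hθ : 0 < θ) :
    ∫⁻ u, ENNReal.ofReal (Real.exp (-(θ * u))) ∂(expMeasure θ) = 1 / 2 := by
  have hm : Measurable (exponentialPDF θ) := (measurable_exponentialPDFReal θ).ennreal_ofReal
  have h1 : (expMeasure θ) = volume.withDensity (exponentialPDF θ) := rfl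
  rw [h1, lintegral_withDensity_eq_lintegral_mul _ hm (by fun_prop)]
  have h2 : ∀ u : ℝ, (exponentialPDF θ * fun u => ENNReal.ofReal (Real.exp (-(θ * u)))) u =
      ENNReal.ofReal (1 / 2) * exponentialPDF (2 * θ) u := by
    intro u
    simp only [Pi.mul_apply]
    rcases lt_or_ge u 0 with hu | hu
    · rw [exponentialPDF_of_neg hu, exponentialPDF_of_neg hu]; simp
    · rw [exponentialPDF_of_nonneg hu, exponentialPDF_of_nonneg hu,
        ← ENNReal.ofReal_mul (by positivity), ← ENNReal.ofReal_mul (by norm_num)]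
      congr 1
      have : Real.exp (-(2 * θ * u)) = Real.exp (-(θ * u)) * Real.exp (-(θ * u)) := by
        rw [← Real.exp_add]; congr 1; ring
      rw [this]
      ring
  have hm2 : Measurable (exponentialPDF (2 * θ)) :=
    (measurable_exponentialPDFReal (2 * θ)).ennreal_ofReal
  rw [lintegral_congr h2, lintegral_const_mul _ hm2,
    lintegral_exponentialPDF_eq_one (by linarith), mul_one]
  rw [ENNReal.ofReal_div_of_pos (by norm_num)]
  simp

/-- integral of an indicator over the last step -/
theorem gwb_last (μ : Measure ℝ) (A : Prop) (a y : ℝ) :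
    ∫⁻ d, ind (A ∧ a - d < -y) ∂μ = ind A * μ {d | a + y < d} := by
  classical
  by_cases hA : A
  · have h1 : ∀ d, ind (A ∧ a - d < -y) = ({d : ℝ | a + y < d}).indicator (fun _ => (1 : ℝ≥0∞)) d := by
      intro d
      unfold ind
      by_cases hd : a + y < d
      · rw [if_pos ⟨hA, by linarith⟩, Set.indicator_of_mem (show d ∈ {d : ℝ | a + y < d} from hd)]
      · rw [if_neg (fun h => hd (by linarith [h.2])),
          Set.indicator_of_notMem (show d ∉ {d : ℝ | a + y < d} from hd)]
    have hms : MeasurableSet {d : ℝ | a + y < d} := measurableSet_Ioi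
    rw [lintegral_congr h1, lintegral_indicator hms]
    simp [ind, hA]
  · have h1 : ∀ d, ind (A ∧ a - d < -y) = 0 := by
      intro d
      unfold ind
      rw [if_neg (fun h => hA h.1)]
    rw [lintegral_congr h1]
    simp [ind, hA]

theorem gw_leaf (p g : ℝ) : GWprop p g .leaf := by
  intro θ hθ ρ hρ y hy
  simp only [Tr.size, gwInt, LI]
  have h1 : ∀ u : ℝ, ∫⁻ d, ind (Exc u [] d y ∧ HasShape Tr.leaf (mins u [])) ∂(expMeasure θ) =
      expMeasure θ {d | u + y < d} := by
    intro u
    have h2 : ∀ d : ℝ, ind (Exc u [] d y ∧ HasShape Tr.leaf (mins u [])) =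
        ind (True ∧ u - d < -y) := by
      intro d
      congr 1
      simp [Exc, mins, pos, HasShape]
    rw [lintegral_congr h2, gwb_last]
    simp [ind]
  rw [lintegral_congr h1]
  have h3 : ∫⁻ u, expMeasure θ {d | u + y < d} ∂(expMeasure θ) =
      ∫⁻ u, ENNReal.ofReal (Real.exp (-(θ * u))) * ENNReal.ofReal (Real.exp (-(θ * y)))
        ∂(expMeasure θ) := by
    refine lintegral_congr_ae ?_
    filter_upwards [exp_pos_ae hθ] with u hu
    rw [exp_tail hθ (by linarith), ← ENNReal.ofReal_mul (Real.exp_pos _).le, ← Real.exp_add]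
    congr 2
    ring
  rw [h3, lintegral_mul_const _ (by fun_prop), gwb_exp_exp hθ]
  simp [Tr.w]

/-- depth and height of a piece are positive -/
theorem gwb_pos {p g θ : ℝ} {ρ : Measure Pc} (h : PLaw p g θ ρ) (hθ : 0 < θ) :
    ∀ᵐ x ∂ρ, 0 < pD x ∧ 0 < pU x := by
  have := h.prob
  have : IsProbabilityMeasure (expMeasure θ) := isProbabilityMeasure_expMeasure hθ
  have hm : Measurable fun x : Pc => (pD x, pU x) := by
    unfold pD pU
    fun_prop
  have h1 : ∀ᵐ q ∂((expMeasure θ).prod (expMeasure θ)), 0 < q.1 ∧ 0 < q.2 := by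
    have h2 : ∀ᵐ q ∂((expMeasure θ).prod (expMeasure θ)), 0 < q.1 :=
      Measure.quasiMeasurePreserving_fst.ae (exp_pos_ae hθ)
    have h3 : ∀ᵐ q ∂((expMeasure θ).prod (expMeasure θ)), 0 < q.2 :=
      Measure.quasiMeasurePreserving_snd.ae (exp_pos_ae hθ)
    filter_upwards [h2, h3] with q a b using ⟨a, b⟩
  rw [← h.DU] at h1
  exact ae_of_ae_map hm.aemeasurable h1

theorem gwb_quarter {p g θ : ℝ} {ρ : Measure Pc} (h : PLaw p g θ ρ) (hθ : 0 < θ) :
    ∫⁻ x, ENNReal.ofReal (Real.exp (-(θ * (pD x + pU x)))) ∂ρ = ENNReal.ofReal (1 / 4) := by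
  have : IsProbabilityMeasure (expMeasure θ) := isProbabilityMeasure_expMeasure hθ
  have hm : Measurable fun x : Pc => (pD x, pU x) := by
    unfold pD pU
    fun_prop
  have h1 : ∫⁻ x, ENNReal.ofReal (Real.exp (-(θ * (pD x + pU x)))) ∂ρ =
      ∫⁻ q, ENNReal.ofReal (Real.exp (-(θ * (q.1 + q.2)))) ∂(ρ.map fun x => (pD x, pU x)) := by
    rw [lintegral_map (by fun_prop) hm]
  rw [h1, h.DU, lintegral_prod _ (by fun_prop)]
  have h2 : ∀ a : ℝ, ∫⁻ b, ENNReal.ofReal (Real.exp (-(θ * (a + b)))) ∂(expMeasure θ) =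
      ENNReal.ofReal (Real.exp (-(θ * a))) * (1 / 2) := by
    intro a
    rw [← gwb_exp_exp hθ, ← lintegral_const_mul _ (by fun_prop)]
    refine lintegral_congr fun b => ?_
    rw [← ENNReal.ofReal_mul (Real.exp_pos _).le, ← Real.exp_add]
    congr 2
    ring
  simp only [h2]
  rw [lintegral_mul_const _ (by fun_prop), gwb_exp_exp hθ]
  rw [show (1 / 4 : ℝ) = 1 / 2 * (1 / 2) by norm_num, ENNReal.ofReal_mul (by norm_num),
    ENNReal.ofReal_div_of_pos (by norm_num)]
  simp

theorem gwb_mark {p g θ : ℝ} {ρ : Measure Pc} (h : PLaw p g θ ρ) (hθ : 0 < θ) (hg0 : 0 ≤ g)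
    (hg1 : g ≤ 1) (x' : Bool) :
    ∫⁻ x, ind (pX x = x') * ENNReal.ofReal (Real.exp (-(θ * (pD x + pU x)))) ∂ρ =
      bw g x' * ENNReal.ofReal (1 / 4) := by
  have ht : ∫⁻ x, ind (pX x = true) * ENNReal.ofReal (Real.exp (-(θ * (pD x + pU x)))) ∂ρ =
      ENNReal.ofReal (g / 4) := by
    rw [← h.chi]
    refine lintegral_congr fun x => ?_
    unfold ind
    by_cases hx : pX x = true <;> simp [hx]
  have hXm : Measurable fun x : Pc => pX x := by
    unfold pX
    fun_prop
  have hmt : Measurable fun x : Pc =>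
      ind (pX x = true) * ENNReal.ofReal (Real.exp (-(θ * (pD x + pU x)))) := by
    have e : (fun x : Pc => ind (pX x = true)) = fun x : Pc => (if pX x = true then 1 else 0 : ℝ≥0∞) := by
      funext x
      unfold ind
      by_cases hx : pX x = true <;> simp [hx]
    have h1 : Measurable fun x : Pc => ind (pX x = true) := by
      rw [e]
      exact Measurable.ite (hXm (measurableSet_singleton true)) measurable_const measurable_const
    refine h1.mul ?_
    unfold pD pU
    fun_prop
  have hsum : ∫⁻ x, ind (pX x = true) * ENNReal.ofReal (Real.exp (-(θ * (pD x + pU x)))) ∂ρ +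
      ∫⁻ x, ind (pX x = false) * ENNReal.ofReal (Real.exp (-(θ * (pD x + pU x)))) ∂ρ =
      ENNReal.ofReal (1 / 4) := by
    rw [← gwb_quarter h hθ, ← lintegral_add_left hmt]
    refine lintegral_congr fun x => ?_
    unfold ind
    cases hx : pX x <;> simp
  cases x' with
  | true =>
    rw [ht]
    unfold bw
    rw [← ENNReal.ofReal_mul (by simpa using hg0)]
    congr 1
    simp
    ring
  | false =>
    rw [ht] at hsum
    have h2 : ENNReal.ofReal (g / 4) + bw g false * ENNReal.ofReal (1 / 4) =
        ENNReal.ofReal (1 / 4) := by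
      unfold bw
      have h3 : (0 : ℝ) ≤ 1 - g := by linarith
      rw [← ENNReal.ofReal_mul (by simpa using hg1), ← ENNReal.ofReal_add (by linarith)
        (by simpa using h3)]
      congr 1
      simp
      ring
    have h4 := hsum.trans h2.symm
    exact (ENNReal.add_right_inj ENNReal.ofReal_ne_top).1 h4

theorem gw_cherry {p g : ℝ} (hp0 : 0 ≤ p) (hp1 : p ≤ 1) (hg0 : 0 ≤ g) (hg1 : g ≤ 1)
    (s x : Bool) : GWprop p g (.cherry s x) := by
  intro θ hθ ρ hρ y hy
  have : IsProbabilityMeasure (expMeasure θ) := isProbabilityMeasure_expMeasure hθ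
  have := hρ.prob
  simp only [Tr.size, gwInt, LI]
  -- the tail of the last step
  set tl : ℝ → ℝ≥0∞ := fun r => expMeasure θ {d | r < d} with htl
  have htlm : Measurable tl := by
    apply Antitone.measurable
    intro a b hab
    exact measure_mono fun d (hd : b < d) => lt_of_le_of_lt hab hd
  have h1 : ∀ (u : ℝ) (z : Pc), ∫⁻ d, ind (Exc u [z] d y ∧ HasShape (.cherry s x) (mins u [z]))
      ∂(expMeasure θ) = ind (pX z = x) * ind (pS z = s) *
        (if pD z < u then tl (u - pD z + pU z + y) else 0) := by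
    intro u z
    have h2 : ∀ d : ℝ, ind (Exc u [z] d y ∧ HasShape (.cherry s x) (mins u [z])) =
        ind ((pD z < u ∧ pX z = x ∧ pS z = s) ∧ (u - pD z + pU z) - d < -y) := by
      intro d
      congr 1
      simp only [Exc, mins, pos, HasShape, List.mem_singleton, forall_eq, List.cons.injEq,
        Prod.mk.injEq, and_true, eq_iff_iff]
      constructor
      · rintro ⟨⟨ha, hb⟩, m, hm, hs, hx⟩
        exact ⟨⟨by linarith, hx, hs⟩, hb⟩
      · rintro ⟨⟨ha, hx, hs⟩, hb⟩
        exact ⟨⟨by linarith, hb⟩, _, rfl, hs, hx⟩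
    rw [lintegral_congr h2, gwb_last]
    simp only [ind]
    by_cases a : pD z < u <;> by_cases b : pX z = x <;> by_cases c : pS z = s <;>
      simp [a, b, c, tl]
  have h1' : ∀ u : ℝ, ∫⁻ z, ∫⁻ d, ind (Exc u [z] d y ∧ HasShape (.cherry s x) (mins u [z]))
      ∂(expMeasure θ) ∂ρ = ∫⁻ z, ind (pX z = x) * ind (pS z = s) *
        (if pD z < u then tl (u - pD z + pU z + y) else 0) ∂ρ := fun u => lintegral_congr (h1 u)
  rw [lintegral_congr h1']
  have hmX : Measurable fun z : Pc => ind (pX z = x) := by
    have hXm : Measurable fun x : Pc => pX x := by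
      unfold pX
      fun_prop
    unfold ind
    exact Measurable.ite (hXm (measurableSet_singleton x)) measurable_const measurable_const
  have hmS : Measurable fun z : Pc => ind (pS z = s) := by
    have hSm : Measurable fun x : Pc => pS x := by
      unfold pS
      fun_prop
    unfold ind
    exact Measurable.ite (hSm (measurableSet_singleton s)) measurable_const measurable_const
  have hmD : Measurable pD := by unfold pD; fun_prop
  have hmU : Measurable pU := by unfold pU; fun_prop
  rw [lintegral_lintegral_swap]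
  swap
  · apply Measurable.aemeasurable
    simp only [Function.uncurry_def]
    refine ((hmX.comp measurable_snd).mul (hmS.comp measurable_snd)).mul ?_
    refine Measurable.ite (measurableSet_lt (hmD.comp measurable_snd) measurable_fst) ?_
      measurable_const
    exact htlm.comp (((measurable_fst.sub (hmD.comp measurable_snd)).add
      (hmU.comp measurable_snd)).add_const y)
  have h5 : ∫⁻ z, ∫⁻ u, ind (pX z = x) * ind (pS z = s) *
        (if pD z < u then tl (u - pD z + pU z + y) else 0) ∂(expMeasure θ) ∂ρ =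
      ∫⁻ z, (1 / 2 * ENNReal.ofReal (Real.exp (-(θ * y)))) * (ind (pX z = x) * ind (pS z = s) *
        ENNReal.ofReal (Real.exp (-(θ * (pD z + pU z))))) ∂ρ := by
    refine lintegral_congr_ae ?_
    filter_upwards [gwb_pos hρ hθ] with z hz
    rw [lintegral_const_mul _ (by
      refine Measurable.ite (measurableSet_lt measurable_const measurable_id) ?_ measurable_const
      exact htlm.comp (((measurable_id.sub_const _).add_const _).add_const y))]
    have h6 := lintegral_exp_shift hθ hz.1.le (F := fun r => tl (r + pU z + y))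
      (htlm.comp ((measurable_id.add_const _).add_const y))
    rw [h6]
    have h7 : ∫⁻ u, tl (u + pU z + y) ∂(expMeasure θ) =
        ∫⁻ u, ENNReal.ofReal (Real.exp (-(θ * u))) *
          ENNReal.ofReal (Real.exp (-(θ * (pU z + y)))) ∂(expMeasure θ) := by
      refine lintegral_congr_ae ?_
      filter_upwards [exp_pos_ae hθ] with u hu
      rw [htl]
      simp only
      rw [exp_tail hθ (by linarith [hz.2]), ← ENNReal.ofReal_mul (Real.exp_pos _).le,
        ← Real.exp_add]
      congr 2
      ring
    rw [h7, lintegral_mul_const _ (by fun_prop), gwb_exp_exp hθ]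
    have h8 : ENNReal.ofReal (Real.exp (-(θ * (pD z + pU z)))) *
        ENNReal.ofReal (Real.exp (-(θ * y))) = ENNReal.ofReal (Real.exp (-(θ * pD z))) *
        ENNReal.ofReal (Real.exp (-(θ * (pU z + y)))) := by
      rw [← ENNReal.ofReal_mul (Real.exp_pos _).le, ← ENNReal.ofReal_mul (Real.exp_pos _).le,
        ← Real.exp_add, ← Real.exp_add]
      congr 2
      ring
    calc ind (pX z = x) * ind (pS z = s) * (ENNReal.ofReal (Real.exp (-(θ * pD z))) *
          (1 / 2 * ENNReal.ofReal (Real.exp (-(θ * (pU z + y))))))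
        = 1 / 2 * (ind (pX z = x) * ind (pS z = s)) * (ENNReal.ofReal (Real.exp (-(θ * pD z))) *
          ENNReal.ofReal (Real.exp (-(θ * (pU z + y))))) := by ring
      _ = _ := by rw [← h8]; ring
  rw [h5, lintegral_const_mul _ (by
    refine (hmX.mul hmS).mul ?_
    unfold pD pU
    fun_prop)]
  have h9 : ∫⁻ z, ind (pX z = x) * ind (pS z = s) *
        ENNReal.ofReal (Real.exp (-(θ * (pD z + pU z)))) ∂ρ =
      bw p s * (bw g x * ENNReal.ofReal (1 / 4)) := by
    have hF : Measurable fun q : ℝ × ℝ × Bool × Bool => ind (q.2.2.1 = x) * ind (q.2.2.2 = s) *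
        ENNReal.ofReal (Real.exp (-(θ * (q.1 + q.2.1)))) := by
      refine Measurable.mul (Measurable.mul ?_ ?_) (by fun_prop)
      · unfold ind
        exact Measurable.ite ((measurable_fst.comp (measurable_snd.comp measurable_snd))
          (measurableSet_singleton x)) measurable_const measurable_const
      · unfold ind
        exact Measurable.ite ((measurable_snd.comp (measurable_snd.comp measurable_snd))
          (measurableSet_singleton s)) measurable_const measurable_const
    have h10 := hρ.lintegral_S (F := fun a b c d => ind (c = x) * ind (d = s) *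
      ENNReal.ofReal (Real.exp (-(θ * (a + b))))) hF
    rw [h10]
    have h11 : ∀ t : Bool, ∫⁻ z, ind (pX z = x) * ind (t = s) *
        ENNReal.ofReal (Real.exp (-(θ * (pD z + pU z)))) ∂ρ =
        ind (t = s) * (bw g x * ENNReal.ofReal (1 / 4)) := by
      intro t
      rw [← gwb_mark hρ hθ hg0 hg1 x, ← lintegral_const_mul _ (by
        refine hmX.mul ?_
        unfold pD pU
        fun_prop)]
      refine lintegral_congr fun z => ?_
      ring
    rw [h11, h11]
    cases s <;> simp [ind]
  rw [h9]
  have h12 : (1 / 2 : ℝ≥0∞) * ENNReal.ofReal (1 / 4) = 1 / 8 := by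
    rw [ENNReal.ofReal_div_of_pos (by norm_num)]
    simp only [ENNReal.ofReal_one, one_div]
    rw [show ENNReal.ofReal 4 = 4 by simp, ← ENNReal.mul_inv (by norm_num) (by norm_num)]
    norm_num
  simp only [Tr.w]
  calc 1 / 2 * ENNReal.ofReal (Real.exp (-(θ * y))) * (bw p s * (bw g x * ENNReal.ofReal (1 / 4)))
      = bw p s * bw g x * (1 / 2 * ENNReal.ofReal (1 / 4)) *
        ENNReal.ofReal (Real.exp (-(θ * y))) := by ring
    _ = _ := by
      rw [h12]
      simp only [div_eq_mul_inv, one_mul]

end Pool.Agent.BSP
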