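import Pool.Agent.BSP.Law

set_option autoImplicit false

/-!
# The law of the shape of an excursion: definitions and measurability
-/

namespace Pool.Agent.BSP

open MeasureTheory ProbabilityTheory
open scoped ENNReal

/-- integral over a path which goes up by `u`, consists of `n` pieces and goes down by `d` -/
noncomputable def gwInt (θ : ℝ) (ρ : Measure Pc) (n : ℕ) (H : ℝ → List Pc → ℝ → ℝ≥0∞) : ℝ≥0∞ :=
  ∫⁻ u, LI ρ n (fun l => ∫⁻ d, H u l d ∂(expMeasure θ)) ∂(expMeasure θ)

/-- the shape of an excursion has the law `Tr.w`, the overshoot is an independent exponential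
variable -/
def GWprop (p g : ℝ) (t : Tr) : Prop := ∀ θ : ℝ, 0 < θ → ∀ ρ : Measure Pc, PLaw p g θ ρ →
  ∀ y : ℝ, 0 ≤ y →
    gwInt θ ρ t.size (fun u l d => ind (Exc u l d y ∧ HasShape t (mins u l))) =
      t.w p g * ENNReal.ofReal (Real.exp (-(θ * y)))

theorem ind_and (P Q : Prop) : ind (P ∧ Q) = ind P * ind Q := by
  unfold ind
  by_cases hP : P <;> by_cases hQ : Q <;> simp [hP, hQ]

private theorem gwd_ind {δ : Type*} [MeasurableSpace δ] {P : δ → Prop} :
    Measurable (fun q => ind (P q)) ↔ MeasurableSet {q | P q} := by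
  constructor
  · intro h
    have : {q | P q} = (fun q => ind (P q)) ⁻¹' {1} := by
      ext q
      by_cases hq : P q <;> simp [ind, hq]
    rw [this]
    exact h (measurableSet_singleton 1)
  · intro h
    unfold ind
    classical
    exact Measurable.ite h measurable_const measurable_const

private theorem gwd_pD : Measurable pD := measurable_fst
private theorem gwd_pU : Measurable pU := measurable_fst.comp measurable_snd
private theorem gwd_pX : Measurable pX :=
  measurable_fst.comp (measurable_snd.comp (measurable_snd.comp measurable_snd))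
private theorem gwd_pS : Measurable pS :=
  measurable_snd.comp (measurable_snd.comp (measurable_snd.comp measurable_snd))

private theorem gwd_next : Measurable fun q : ℝ × Pc => q.1 - pD q.2 + pU q.2 :=
  (measurable_fst.sub (gwd_pD.comp measurable_snd)).add (gwd_pU.comp measurable_snd)

theorem meas_pos : MF2 pos :=
  MF2_rec (g := fun u => u) (k := fun q : ℝ × Pc => q.1 - pD q.2 + pU q.2)
    (h := fun q : (ℝ × Pc) × ℝ => q.2) measurable_id gwd_next measurable_snd
    (fun _ => rfl) (fun _ _ _ => rfl)

theorem meas_above : MF2 fun (q : ℝ × ℝ) l => ind (∀ z ∈ mins q.1 l, q.2 < z.1) := by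
  refine MF2_rec (g := fun _ => 1)
    (k := fun q : (ℝ × ℝ) × Pc => (q.1.1 - pD q.2 + pU q.2, q.1.2))
    (h := fun q : ((ℝ × ℝ) × Pc) × ℝ≥0∞ => ind (q.1.1.2 < q.1.1.1 - pD q.1.2) * q.2)
    measurable_const ?_ ?_ ?_ ?_
  · exact (gwd_next.comp ((measurable_fst.comp measurable_fst).prodMk measurable_snd)).prodMk
      (measurable_snd.comp measurable_fst)
  · refine Measurable.mul (gwd_ind.2 ?_) measurable_snd
    refine measurableSet_lt ?_ ?_
    · exact measurable_snd.comp (measurable_fst.comp measurable_fst)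
    · exact (measurable_fst.comp (measurable_fst.comp measurable_fst)).sub
        (gwd_pD.comp (measurable_snd.comp measurable_fst))
  · intro q
    simp [mins, ind]
  · intro q x l
    show _ = ind _ * ind _
    rw [← ind_and]
    congr 1
    simp [mins]

/-- splitting of a list at one item -/
private theorem gwd_split {α : Type*} {n : ℕ} (v : Fin n → α) (i : Fin n) :
    List.ofFn v = List.ofFn (fun j : Fin (i : ℕ) => v ⟨j, j.2.trans i.2⟩) ++
      v i :: List.ofFn (fun j : Fin (n - 1 - i) => v ⟨i + 1 + j, by omega⟩) := by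
  apply List.ext_getElem
  · simp; omega
  · intro k h1 h2
    rw [List.getElem_append]
    simp only [List.length_ofFn, List.getElem_ofFn]
    split_ifs with h3
    · rfl
    · rw [List.getElem_cons]
      split_ifs with h4
      · congr 1
        ext
        simp; omega
      · rw [List.getElem_ofFn]
        congr 1
        ext
        simp; omega

private theorem gwd_node_iff (s : Bool) (l r : Tr) {n : ℕ} (u : ℝ) (v : Fin n → Pc) :
    HasShape (.node s l r) (mins u (List.ofFn v)) ↔ 2 ≤ n ∧ ∃ i : Fin n,
      pS (v i) = s ∧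
      (∀ z ∈ mins u (List.ofFn (fun j : Fin (i : ℕ) => v ⟨j, j.2.trans i.2⟩)),
        pos u (List.ofFn (fun j : Fin (i : ℕ) => v ⟨j, j.2.trans i.2⟩)) - pD (v i) < z.1) ∧
      (∀ z ∈ mins (pos u (List.ofFn (fun j : Fin (i : ℕ) => v ⟨j, j.2.trans i.2⟩)) -
          pD (v i) + pU (v i))
          (List.ofFn (fun j : Fin (n - 1 - i) => v ⟨i + 1 + j, by omega⟩)),
        pos u (List.ofFn (fun j : Fin (i : ℕ) => v ⟨j, j.2.trans i.2⟩)) - pD (v i) < z.1) ∧
      HasShape l (mins u (List.ofFn (fun j : Fin (i : ℕ) => v ⟨j, j.2.trans i.2⟩))) ∧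
      HasShape r (mins (pos u (List.ofFn (fun j : Fin (i : ℕ) => v ⟨j, j.2.trans i.2⟩)) -
          pD (v i) + pU (v i))
          (List.ofFn (fun j : Fin (n - 1 - i) => v ⟨i + 1 + j, by omega⟩))) := by
  have hsplit : ∀ i : Fin n, mins u (List.ofFn v) =
      mins u (List.ofFn (fun j : Fin (i : ℕ) => v ⟨j, j.2.trans i.2⟩)) ++
      (pos u (List.ofFn (fun j : Fin (i : ℕ) => v ⟨j, j.2.trans i.2⟩)) - pD (v i),
        pS (v i), pX (v i)) ::
      mins (pos u (List.ofFn (fun j : Fin (i : ℕ) => v ⟨j, j.2.trans i.2⟩)) -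
          pD (v i) + pU (v i))
          (List.ofFn (fun j : Fin (n - 1 - i) => v ⟨i + 1 + j, by omega⟩)) := by
    intro i
    conv_lhs => rw [gwd_split v i]
    rw [mins_append]
    rfl
  have hlen : (mins u (List.ofFn v)).length = n := by rw [length_mins]; simp
  simp only [HasShape, hlen]
  refine and_congr_right fun _ => ?_
  constructor
  · rintro ⟨L1, m, x, L2, h1, h2, h3, h4, h5⟩
    have hlt : L1.length < n := by
      have := congrArg List.length h1
      rw [hlen] at this
      simp at this; omega
    have h6 := hsplit ⟨L1.length, hlt⟩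
    rw [h1] at h6
    have h7 : L1.length = (mins u (List.ofFn (fun j : Fin L1.length =>
        v ⟨j, j.2.trans hlt⟩))).length := by rw [length_mins]; simp
    obtain ⟨h8, h9⟩ := List.append_inj h6 h7
    obtain ⟨h10, h11⟩ := List.cons.inj h9
    obtain ⟨h12, h13⟩ := Prod.ext_iff.1 h10
    obtain ⟨h14, _⟩ := Prod.ext_iff.1 h13
    simp only at h12 h14
    refine ⟨⟨L1.length, hlt⟩, h14.symm, ?_, ?_, ?_, ?_⟩
    · rw [← h8, ← h12]; exact h2
    · rw [← h11, ← h12]; exact h3
    · rw [← h8]; exact h4
    · rw [← h11]; exact h5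
  · rintro ⟨i, h1, h2, h3, h4, h5⟩
    refine ⟨_, _, pX (v i), _, ?_, h2, h3, h4, h5⟩
    rw [← h1]
    exact hsplit i

theorem meas_shape (t : Tr) : MF2 fun (u : ℝ) l => ind (HasShape t (mins u l)) := by
  induction t with
  | leaf =>
    refine MF2_step ?_ ?_
    · simp only [HasShape, mins]
      exact measurable_const
    · intro n
      have : (fun q : (ℝ × Pc) × (Fin n → Pc) =>
          ind (HasShape .leaf (mins q.1.1 (q.1.2 :: List.ofFn q.2)))) = fun _ => 0 := by
        funext q; simp [HasShape, mins, ind]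
      rw [this]
      exact measurable_const
  | cherry s x =>
    refine MF2_step ?_ ?_
    · simp only [HasShape, mins]
      exact measurable_const
    refine MF2_step ?_ ?_
    · refine gwd_ind.2 ?_
      have : {y : ℝ × Pc | HasShape (.cherry s x) (mins y.1 [y.2])} =
          {y : ℝ × Pc | pS y.2 = s} ∩ {y : ℝ × Pc | pX y.2 = x} := by
        ext y
        simp [HasShape, mins]
      rw [this]
      exact (measurableSet_eq_fun (gwd_pS.comp measurable_snd) measurable_const).inter
        (measurableSet_eq_fun (gwd_pX.comp measurable_snd) measurable_const)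
    · intro n
      have : (fun q : ((ℝ × Pc) × Pc) × (Fin n → Pc) => ind (HasShape (.cherry s x)
          (mins q.1.1.1 (q.1.1.2 :: q.1.2 :: List.ofFn q.2)))) = fun _ => 0 := by
        funext q; simp [HasShape, mins, ind]
      rw [this]
      exact measurable_const
  | node s l r ihl ihr =>
    intro n
    refine gwd_ind.2 ?_
    simp only [gwd_node_iff]
    rw [Set.ofPred_and]
    refine (MeasurableSet.const _).inter ?_
    rw [Set.ofPred_exists]
    refine MeasurableSet.iUnion fun i => ?_
    -- the parts of the list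
    have hv : Measurable fun q : ℝ × (Fin n → Pc) => q.2 i :=
      (measurable_pi_apply i).comp measurable_snd
    have hA : Measurable fun q : ℝ × (Fin n → Pc) =>
        (fun j : Fin (i : ℕ) => q.2 ⟨j, j.2.trans i.2⟩) :=
      measurable_pi_lambda _ fun j => (measurable_pi_apply _).comp measurable_snd
    have hB : Measurable fun q : ℝ × (Fin n → Pc) =>
        (fun j : Fin (n - 1 - i) => q.2 ⟨i + 1 + j, by omega⟩) :=
      measurable_pi_lambda _ fun j => (measurable_pi_apply _).comp measurable_snd
    have hpos : Measurable fun q : ℝ × (Fin n → Pc) =>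
        pos q.1 (List.ofFn (fun j : Fin (i : ℕ) => q.2 ⟨j, j.2.trans i.2⟩)) :=
      (meas_pos (i : ℕ)).comp (measurable_fst.prodMk hA)
    have hm : Measurable fun q : ℝ × (Fin n → Pc) =>
        pos q.1 (List.ofFn (fun j : Fin (i : ℕ) => q.2 ⟨j, j.2.trans i.2⟩)) - pD (q.2 i) :=
      hpos.sub (gwd_pD.comp hv)
    have hm' : Measurable fun q : ℝ × (Fin n → Pc) =>
        pos q.1 (List.ofFn (fun j : Fin (i : ℕ) => q.2 ⟨j, j.2.trans i.2⟩)) - pD (q.2 i) +
          pU (q.2 i) := hm.add (gwd_pU.comp hv)
    simp only [Set.ofPred_and]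
    refine (measurableSet_eq_fun (gwd_pS.comp hv) measurable_const).inter ?_
    refine MeasurableSet.inter ?_ (MeasurableSet.inter ?_ (MeasurableSet.inter ?_ ?_))
    · exact gwd_ind.1 ((meas_above (i : ℕ)).comp ((measurable_fst.prodMk hm).prodMk hA))
    · exact gwd_ind.1 ((meas_above (n - 1 - i)).comp ((hm'.prodMk hm).prodMk hB))
    · exact gwd_ind.1 ((ihl (i : ℕ)).comp (measurable_fst.prodMk hA))
    · exact gwd_ind.1 ((ihr (n - 1 - i)).comp (hm'.prodMk hB))

theorem meas_exc : MF2 fun (q : ℝ × ℝ × ℝ) l => ind (Exc q.1 l q.2.1 q.2.2) := by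
  intro n
  simp only [Exc, ind_and]
  refine Measurable.mul ?_ ?_
  · exact (meas_above n).comp (((measurable_fst.comp measurable_fst).prodMk
      (measurable_const (a := (0 : ℝ)))).prodMk measurable_snd)
  · refine gwd_ind.2 ?_
    refine measurableSet_lt (Measurable.sub ?_ ?_) ?_
    · exact (meas_pos n).comp ((measurable_fst.comp measurable_fst).prodMk measurable_snd)
    · exact measurable_fst.comp (measurable_snd.comp measurable_fst)
    · exact (measurable_snd.comp (measurable_snd.comp measurable_fst)).neg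

theorem meas_exc_shape (t : Tr) : MF2 fun (q : ℝ × ℝ × ℝ) l =>
    ind (Exc q.1 l q.2.1 q.2.2 ∧ HasShape t (mins q.1 l)) := by
  intro n
  simp only [ind_and]
  refine (meas_exc n).mul ?_
  exact (meas_shape t n).comp ((measurable_fst.comp measurable_fst).prodMk measurable_snd)

end Pool.Agent.BSP
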