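import Pool.Agent.BSP.GWDefs

set_option autoImplicit false

/-!
# The law of the shape of an excursion: the part to the left of the lowest minimum
-/

namespace Pool.Agent.BSP

open MeasureTheory ProbabilityTheory
open scoped ENNReal

theorem gl_MF2_right {θ : ℝ} (hθ : 0 < θ) {G : ℝ → List Pc → ℝ → ℝ≥0∞}
    (hG : MF2 fun (q : ℝ × ℝ) l => G q.1 l q.2) :
    MF2 (fun (u : ℝ) l => ∫⁻ d, G u l d ∂(expMeasure θ)) := by
  have := isProbabilityMeasure_expMeasure hθ
  intro n
  have : Measurable (fun z : (ℝ × (Fin n → Pc)) × ℝ => G z.1.1 (List.ofFn z.1.2) z.2) :=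
    (hG n).comp (((measurable_fst.comp measurable_fst).prodMk measurable_snd).prodMk
      (measurable_snd.comp measurable_fst))
  exact this.lintegral_prod_right'

theorem gl_MF2_left {θ : ℝ} (hθ : 0 < θ) {G : ℝ → List Pc → ℝ → ℝ≥0∞}
    (hG : MF2 fun (q : ℝ × ℝ) l => G q.1 l q.2) :
    MF2 (fun (d : ℝ) l => ∫⁻ u, G u l d ∂(expMeasure θ)) := by
  have := isProbabilityMeasure_expMeasure hθ
  intro n
  have : Measurable (fun z : (ℝ × (Fin n → Pc)) × ℝ => G z.2 (List.ofFn z.1.2) z.1.1) :=
    (hG n).comp ((measurable_snd.prodMk (measurable_fst.comp measurable_fst)).prodMk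
      (measurable_snd.comp measurable_fst))
  exact this.lintegral_prod_right'

/-- `gwInt` as an integral over a product -/
theorem gl_gwInt_eq {θ : ℝ} (hθ : 0 < θ) {ρ : Measure Pc} [IsProbabilityMeasure ρ]
    {G : ℝ → List Pc → ℝ → ℝ≥0∞} (hG : MF2 fun (q : ℝ × ℝ) l => G q.1 l q.2) (n : ℕ) :
    gwInt θ ρ n G = ∫⁻ q : ℝ × (Fin n → Pc) × ℝ, G q.1 (List.ofFn q.2.1) q.2.2
      ∂((expMeasure θ).prod ((Measure.pi fun _ : Fin n => ρ).prod (expMeasure θ))) := by
  have := isProbabilityMeasure_expMeasure hθ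
  have h1 : Measurable fun q : ℝ × (Fin n → Pc) × ℝ => G q.1 (List.ofFn q.2.1) q.2.2 :=
    (hG n).comp ((measurable_fst.prodMk (measurable_snd.comp measurable_snd)).prodMk
      (measurable_fst.comp measurable_snd))
  rw [lintegral_prod _ h1.aemeasurable]
  unfold gwInt
  refine lintegral_congr fun u => ?_
  rw [LI_pi ρ ((gl_MF2_right hθ hG).mf u) n]
  have h2 : Measurable fun q : (Fin n → Pc) × ℝ => G u (List.ofFn q.1) q.2 :=
    h1.comp (measurable_const.prodMk measurable_id)
  rw [lintegral_prod _ h2.aemeasurable]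

/-- exchange of the first and the last step -/
theorem gl_gwInt_swap {θ : ℝ} (hθ : 0 < θ) {ρ : Measure Pc} [IsProbabilityMeasure ρ]
    {G : ℝ → List Pc → ℝ → ℝ≥0∞} (hG : MF2 fun (q : ℝ × ℝ) l => G q.1 l q.2) (n : ℕ) :
    gwInt θ ρ n G = gwInt θ ρ n (fun u l d => G d l u) := by
  have := isProbabilityMeasure_expMeasure hθ
  unfold gwInt
  rw [LI_swap ρ (gl_MF2_right hθ hG) n, LI_swap ρ (F := fun u l => ∫⁻ d, G d l u ∂(expMeasure θ))
    (gl_MF2_left hθ hG) n, LI_pi, LI_pi]
  · refine lintegral_congr fun v => ?_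
    rw [lintegral_lintegral_swap]
    have h1 : Measurable fun q : ℝ × ℝ => G q.1 (List.ofFn v) q.2 :=
      (hG n).comp (measurable_id.prodMk measurable_const)
    exact h1.aemeasurable
  · intro k
    have : Measurable (fun z : (Fin k → Pc) × ℝ =>
        ∫⁻ d, G d (List.ofFn z.1) z.2 ∂(expMeasure θ)) :=
      (gl_MF2_left hθ hG k).comp (measurable_snd.prodMk measurable_fst)
    exact this.lintegral_prod_right'
  · intro k
    have : Measurable (fun z : (Fin k → Pc) × ℝ =>
        ∫⁻ d, G z.2 (List.ofFn z.1) d ∂(expMeasure θ)) :=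
      (gl_MF2_right hθ hG k).comp (measurable_snd.prodMk measurable_fst)
    exact this.lintegral_prod_right'

theorem gl_meas_pos (n : ℕ) : Measurable fun q : ℝ × (Fin n → Pc) × ℝ =>
    q.2.2 - pos q.1 (List.ofFn q.2.1) := by
  have h := (meas_pos n).comp (measurable_fst.prodMk (measurable_fst.comp measurable_snd) :
    Measurable fun q : ℝ × (Fin n → Pc) × ℝ => (q.1, q.2.1))
  exact (measurable_snd.comp measurable_snd).sub h

theorem gl_meas_over {H : ℝ → ℝ≥0∞} (hH : Measurable H) :
    MF2 fun (q : ℝ × ℝ) l => H (q.2 - pos q.1 l) := by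
  intro n
  refine hH.comp ?_
  have h := (meas_pos n).comp ((measurable_fst.comp measurable_fst).prodMk measurable_snd :
    Measurable fun q : (ℝ × ℝ) × (Fin n → Pc) => (q.1.1, q.2))
  exact (measurable_snd.comp measurable_fst).sub h

theorem gl_meas_main (t : Tr) {H : ℝ → ℝ≥0∞} (hH : Measurable H) :
    MF2 fun (q : ℝ × ℝ) l =>
      ind (Exc q.1 l q.2 0 ∧ HasShape t (mins q.1 l)) * H (q.2 - pos q.1 l) := by
  intro n
  have h1 : MF2 fun (q : ℝ × ℝ) l => ind (Exc q.1 l q.2 0 ∧ HasShape t (mins q.1 l)) :=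
    (meas_exc_shape t).comp_left (k := fun q : ℝ × ℝ => (q.1, q.2, (0 : ℝ)))
      (measurable_fst.prodMk (measurable_snd.prodMk measurable_const))
  exact (h1 n).mul (gl_meas_over hH n)

theorem gl_ind_congr {P Q : Prop} (h : P ↔ Q) : ind P = ind Q := by
  rw [propext h]

theorem gl_ind_mul (P : Prop) (y z : ℝ) :
    ind P * (Set.Ioi y).indicator (1 : ℝ → ℝ≥0∞) z = ind (P ∧ y < z) := by
  by_cases hP : P <;> by_cases hz : y < z <;> simp [ind, hP, hz]

theorem gl_ind_le_one (P : Prop) : ind P ≤ 1 := by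
  unfold ind
  split_ifs <;> simp

/-- integral of a function of the overshoot, from `GWprop` -/
theorem GWprop.integral {p g : ℝ} {t : Tr} (h : GWprop p g t) {θ : ℝ} (hθ : 0 < θ)
    {ρ : Measure Pc} (hρ : PLaw p g θ ρ) {H : ℝ → ℝ≥0∞} (hH : Measurable H) :
    gwInt θ ρ t.size (fun u l d => ind (Exc u l d 0 ∧ HasShape t (mins u l)) * H (d - pos u l)) =
      t.w p g * ∫⁻ y, H y ∂(expMeasure θ) := by
  have := isProbabilityMeasure_expMeasure hθ
  have := hρ.prob
  set M := (expMeasure θ).prod ((Measure.pi fun _ : Fin t.size => ρ).prod (expMeasure θ)) with hM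
  set φ : ℝ × (Fin t.size → Pc) × ℝ → ℝ≥0∞ := fun q =>
    ind (Exc q.1 (List.ofFn q.2.1) q.2.2 0 ∧ HasShape t (mins q.1 (List.ofFn q.2.1))) with hφ
  set f : ℝ × (Fin t.size → Pc) × ℝ → ℝ := fun q => q.2.2 - pos q.1 (List.ofFn q.2.1) with hf
  have hfm : Measurable f := gl_meas_pos t.size
  have hφm : Measurable φ := by
    have h1 : MF2 fun (q : ℝ × ℝ) l => ind (Exc q.1 l q.2 0 ∧ HasShape t (mins q.1 l)) :=
      (meas_exc_shape t).comp_left (k := fun q : ℝ × ℝ => (q.1, q.2, (0 : ℝ)))
        (measurable_fst.prodMk (measurable_snd.prodMk measurable_const))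
    exact (h1 t.size).comp ((measurable_fst.prodMk (measurable_snd.comp measurable_snd)).prodMk
      (measurable_fst.comp measurable_snd))
  set ν : Measure ℝ := (M.withDensity φ).map f with hν
  -- integrals against ν
  have hint : ∀ K : ℝ → ℝ≥0∞, Measurable K → ∫⁻ y, K y ∂ν =
      gwInt θ ρ t.size (fun u l d =>
        ind (Exc u l d 0 ∧ HasShape t (mins u l)) * K (d - pos u l)) := by
    intro K hK
    rw [hν, lintegral_map hK hfm, gl_gwInt_eq hθ (gl_meas_main t hK) t.size]
    exact lintegral_withDensity_eq_lintegral_mul M hφm (hK.comp hfm)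
  have hνfin : IsFiniteMeasure ν := by
    have : IsFiniteMeasure (M.withDensity φ) := by
      refine isFiniteMeasure_withDensity ?_
      have h1 : ∫⁻ q, φ q ∂M ≤ ∫⁻ _, 1 ∂M := lintegral_mono fun q => gl_ind_le_one _
      have h2 : ∫⁻ _, (1 : ℝ≥0∞) ∂M = 1 := by simp
      rw [h2] at h1
      exact (lt_of_le_of_lt h1 ENNReal.one_lt_top).ne
    infer_instance
  have hIoi : ∀ y : ℝ, ν (Set.Ioi y) = t.w p g * expMeasure θ (Set.Ioi y) := by
    intro y
    have h1 : ν (Set.Ioi y) = ∫⁻ z, (Set.Ioi y).indicator 1 z ∂ν := by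
      rw [lintegral_indicator_one measurableSet_Ioi]
    rw [h1, hint _ (measurable_one.indicator measurableSet_Ioi)]
    rcases le_total 0 y with hy | hy
    · have h2 : (fun (u : ℝ) (l : List Pc) (d : ℝ) =>
          ind (Exc u l d 0 ∧ HasShape t (mins u l)) *
            (Set.Ioi y).indicator (1 : ℝ → ℝ≥0∞) (d - pos u l)) =
          fun u l d => ind (Exc u l d y ∧ HasShape t (mins u l)) := by
        funext u l d
        rw [gl_ind_mul]
        apply gl_ind_congr
        unfold Exc
        constructor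
        · rintro ⟨⟨⟨h3, h4⟩, h5⟩, h6⟩
          exact ⟨⟨h3, by linarith⟩, h5⟩
        · rintro ⟨⟨h3, h4⟩, h5⟩
          exact ⟨⟨⟨h3, by linarith⟩, h5⟩, by linarith⟩
      rw [h2, h θ hθ ρ hρ y hy]
      congr 1
      exact (exp_tail hθ hy).symm
    · have h2 : (fun (u : ℝ) (l : List Pc) (d : ℝ) =>
          ind (Exc u l d 0 ∧ HasShape t (mins u l)) *
            (Set.Ioi y).indicator (1 : ℝ → ℝ≥0∞) (d - pos u l)) =
          fun u l d => ind (Exc u l d 0 ∧ HasShape t (mins u l)) := by
        funext u l d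
        rw [gl_ind_mul]
        apply gl_ind_congr
        unfold Exc
        constructor
        · rintro ⟨⟨⟨h3, h4⟩, h5⟩, h6⟩
          exact ⟨⟨h3, h4⟩, h5⟩
        · rintro ⟨⟨h3, h4⟩, h5⟩
          exact ⟨⟨⟨h3, h4⟩, h5⟩, by linarith⟩
      rw [h2, h θ hθ ρ hρ 0 le_rfl]
      have h5 : expMeasure θ (Set.Ioi y) = 1 := by
        apply le_antisymm prob_le_one
        have h6 := exp_tail hθ (le_refl (0 : ℝ))
        rw [mul_zero, neg_zero, Real.exp_zero, ENNReal.ofReal_one] at h6
        rw [← h6]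
        exact measure_mono fun z hz => lt_of_le_of_lt hy hz
      rw [h5]
      simp
  have huniv : ν Set.univ = t.w p g := by
    have h1 : ν Set.univ = ∫⁻ _, 1 ∂ν := by simp
    rw [h1, hint _ measurable_const]
    have := h θ hθ ρ hρ 0 le_rfl
    rw [mul_zero, neg_zero, Real.exp_zero, ENNReal.ofReal_one, mul_one] at this
    rw [← this]
    simp
  have hνeq : ν = t.w p g • expMeasure θ := by
    apply Measure.ext_of_Iic
    intro a
    rw [← Set.compl_Ioi, measure_compl measurableSet_Ioi (measure_ne_top ν _), huniv, hIoi,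
      Measure.smul_apply, smul_eq_mul, prob_compl_eq_one_sub measurableSet_Ioi,
      ENNReal.mul_sub, mul_one]
    intro _ _
    rw [← huniv]
    exact measure_ne_top ν _
  rw [← hint H hH, hνeq, lintegral_smul_measure, smul_eq_mul]

theorem gl_shape_map_iff {t : Tr} {L : List It} (c : ℝ) :
    HasShape t (L.map fun z => (z.1 + c, z.2)) ↔ HasShape t L := by
  constructor
  · intro h
    have h1 := h.map (f := fun x => x + (-c)) (fun a b hab => by simpa using hab)
    have h2 : ((L.map fun z => (z.1 + c, z.2)).map fun z => ((fun x => x + (-c)) z.1, z.2)) =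
        L := by
      rw [List.map_map]
      have : ((fun z : It => ((fun x => x + (-c)) z.1, z.2)) ∘ fun z : It => (z.1 + c, z.2)) =
          id := by
        funext z
        simp
      rw [this, List.map_id]
    rw [h2] at h1
    exact h1
  · intro h
    exact h.map (f := fun x => x + c) (fun a b hab => by simpa using hab)

theorem gl_shape_mir_iff {t : Tr} {L : List It} :
    HasShape t.mir L.reverse ↔ HasShape t L := by
  constructor
  · intro h
    have h1 := h.mir
    rw [Tr.mir_mir, List.reverse_reverse] at h1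
    exact h1
  · intro h
    exact h.mir

theorem gl_meas_swp : Measurable swp := by
  unfold swp pU pD pT pX pS
  fun_prop

/-- the part to the left of the lowest minimum: reverse time (`mins_rev`, `pos_rev`,
`HasShape.mir`, `LI_reverse`, `LI_map`, `PLaw.swap`, `LI_swap`) -/
theorem gw_left {p g : ℝ} {t : Tr} (h : GWprop p g t.mir) {θ : ℝ} (hθ : 0 < θ)
    {ρ : Measure Pc} (hρ : PLaw p g θ ρ) {H : ℝ → ℝ≥0∞} (hH : Measurable H) :
    gwInt θ ρ t.size (fun u l d => ind ((∀ z ∈ mins u l, pos u l - d < z.1) ∧ 0 < pos u l - d ∧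
      HasShape t (mins u l)) * H (pos u l - d)) = t.w p g * ∫⁻ y, H y ∂(expMeasure θ) := by
  have := isProbabilityMeasure_expMeasure hθ
  have := hρ.prob
  have h0 := h.integral hθ hρ.swap hH
  have hPm : IsProbabilityMeasure (ρ.map swp) := hρ.swap.prob
  rw [Tr.size_mir, Tr.w_mir] at h0
  rw [← h0]
  have hG := gl_meas_main t.mir hH
  have hsw := gl_gwInt_swap (ρ := ρ.map swp) (G := fun u l d =>
    ind (Exc u l d 0 ∧ HasShape t.mir (mins u l)) * H (d - pos u l)) hθ hG t.size
  rw [hsw]
  unfold gwInt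
  refine lintegral_congr fun u => ?_
  have hML := gl_MF2_left (G := fun u l d =>
    ind (Exc u l d 0 ∧ HasShape t.mir (mins u l)) * H (d - pos u l)) hθ hG
  have hMF : MF (fun l => ∫⁻ d, ind (Exc d l u 0 ∧ HasShape t.mir (mins d l)) *
      H (u - pos d l) ∂(expMeasure θ)) := hML.mf u
  rw [LI_map gl_meas_swp hMF t.size]
  have hMF' : MF (fun l : List Pc => ∫⁻ d, ind (Exc d (l.map swp) u 0 ∧
      HasShape t.mir (mins d (l.map swp))) * H (u - pos d (l.map swp)) ∂(expMeasure θ)) :=
    (hML.map gl_meas_swp).mf u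
  rw [← LI_reverse ρ hMF' t.size]
  refine LI_congr ρ fun l _ => lintegral_congr fun d => ?_
  beta_reduce
  rw [List.map_reverse, pos_rev u d l, show u - (u - (pos u l - d)) = pos u l - d by ring]
  congr 1
  · apply gl_ind_congr
    unfold Exc
    rw [mins_rev u d l, pos_rev u d l, gl_shape_mir_iff]
    have e : ((mins u l).map fun z => (z.1 - (pos u l - d), z.2)) =
        ((mins u l).map fun z => (z.1 + (-(pos u l - d)), z.2)) := by
      simp only [sub_eq_add_neg]
    rw [e, gl_shape_map_iff]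
    constructor
    · rintro ⟨h1, h2, h3⟩
      refine ⟨⟨?_, by linarith⟩, h3⟩
      intro z hz
      rw [List.mem_reverse, List.mem_map] at hz
      obtain ⟨z', hz', rfl⟩ := hz
      have := h1 z' hz'
      simp only
      linarith
    · rintro ⟨⟨h1, h2⟩, h3⟩
      refine ⟨?_, by linarith, h3⟩
      intro z hz
      have := h1 (z.1 + (-(pos u l - d)), z.2) (by
        rw [List.mem_reverse, List.mem_map]
        exact ⟨z, hz, rfl⟩)
      simp only at this
      linarith

/-- the part to the right of the lowest minimum `m` -/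
theorem gw_right {p g : ℝ} {t : Tr} (h : GWprop p g t) {θ : ℝ} (hθ : 0 < θ)
    {ρ : Measure Pc} (hρ : PLaw p g θ ρ) {m y : ℝ} (hm : 0 ≤ m) (hy : 0 ≤ y) :
    gwInt θ ρ t.size (fun u l d => ind ((∀ z ∈ mins (m + u) l, m < z.1) ∧
      pos (m + u) l - d < -y ∧ HasShape t (mins (m + u) l))) =
      t.w p g * ENNReal.ofReal (Real.exp (-(θ * (m + y)))) := by
  rw [← h θ hθ ρ hρ (m + y) (by linarith)]
  unfold gwInt
  refine lintegral_congr fun u => LI_congr ρ fun l _ => lintegral_congr fun d => ?_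
  apply gl_ind_congr
  unfold Exc
  rw [add_comm m u, mins_shift, pos_shift, gl_shape_map_iff]
  constructor
  · rintro ⟨h1, h2, h3⟩
    refine ⟨⟨?_, by linarith⟩, h3⟩
    intro z hz
    have := h1 (z.1 + m, z.2) (List.mem_map.mpr ⟨z, hz, rfl⟩)
    simp only at this
    linarith
  · rintro ⟨⟨h1, h2⟩, h3⟩
    refine ⟨?_, by linarith, h3⟩
    intro z hz
    rw [List.mem_map] at hz
    obtain ⟨z', hz', rfl⟩ := hz
    have := h1 z' hz'
    simp only
    linarith

end Pool.Agent.BSP
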