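import Pool.Agent.BSP.GWBase
import Pool.Agent.BSP.GWLeft

set_option autoImplicit false

/-!
# The law of the shape of an excursion: induction step and main theorem
-/

namespace Pool.Agent.BSP

open MeasureTheory ProbabilityTheory
open scoped ENNReal

/-! ### auxiliary facts -/

private theorem gwn_ind_true {P : Prop} (h : P) : ind P = 1 := if_pos h

private theorem gwn_ind_false {P : Prop} (h : ¬ P) : ind P = 0 := if_neg h

private theorem gwn_meas_fix {α β γ : Type*} [MeasurableSpace α] [MeasurableSpace β]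
    [MeasurableSpace γ] {F : γ → List α → β} (h : MF2 F) (l : List α) :
    Measurable fun y => F y l := by
  have h1 : (fun y => F y l) = (fun q : γ × (Fin l.length → α) => F q.1 (List.ofFn q.2)) ∘
      fun y => (y, fun i => l.get i) := by
    funext y
    simp
  rw [h1]
  exact (h l.length).comp (measurable_id.prodMk measurable_const)

private theorem gwn_meas_lint {α γ : Type*} [MeasurableSpace α] [MeasurableSpace γ]
    {μ : Measure ℝ} [SFinite μ] {F : γ × ℝ → List α → ℝ≥0∞} (h : MF2 F) :
    MF2 fun (y : γ) l => ∫⁻ d, F (y, d) l ∂μ := by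
  intro n
  have h1 : Measurable fun z : (γ × (Fin n → α)) × ℝ => F (z.1.1, z.2) (List.ofFn z.1.2) :=
    (h n).comp ((measurable_fst.comp measurable_fst).prodMk measurable_snd |>.prodMk
      (measurable_snd.comp measurable_fst))
  exact h1.lintegral_prod_right'

private theorem gwn_half {θ : ℝ} (hθ : 0 < θ) :
    ∫⁻ m, ENNReal.ofReal (Real.exp (-(θ * m))) ∂(expMeasure θ) = 1 / 2 := by
  have h2 : ∀ m : ℝ, exponentialPDF θ m * ENNReal.ofReal (Real.exp (-(θ * m)))
      = (1 / 2) * exponentialPDF (2 * θ) m := by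
    intro m
    rcases lt_or_ge m 0 with hm | hm
    · rw [exponentialPDF_of_neg hm, exponentialPDF_of_neg hm]; simp
    · rw [exponentialPDF_of_nonneg hm, exponentialPDF_of_nonneg hm,
        ← ENNReal.ofReal_mul (by positivity)]
      have e1 : (1 / 2 : ℝ≥0∞) = ENNReal.ofReal (1 / 2) := by
        rw [ENNReal.ofReal_div_of_pos (by norm_num)]
        simp
      rw [e1, ← ENNReal.ofReal_mul (by norm_num)]
      congr 1
      have e2 : Real.exp (-(2 * θ * m)) = Real.exp (-(θ * m)) * Real.exp (-(θ * m)) := by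
        rw [← Real.exp_add]; congr 1; ring
      rw [e2]
      ring
  have h3 : expMeasure θ = volume.withDensity (exponentialPDF θ) := rfl
  have hm1 : Measurable (exponentialPDF θ) :=
    (measurable_exponentialPDFReal θ).ennreal_ofReal
  have hm2 : Measurable (exponentialPDF (2 * θ)) :=
    (measurable_exponentialPDFReal (2 * θ)).ennreal_ofReal
  rw [h3, lintegral_withDensity_eq_lintegral_mul _ hm1 (by fun_prop)]
  simp only [Pi.mul_apply, h2]
  rw [lintegral_const_mul _ hm2, lintegral_exponentialPDF_eq_one (by positivity), mul_one]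

/-- the lowest item splits the list at a known position -/
private theorem gwn_split {s : Bool} {l r : Tr} (hne : ¬ (l = .leaf ∧ r = .leaf)) {u y d : ℝ}
    {L1 L2 : List Pc} {x : Pc} (h1 : L1.length = l.size) (h2 : L2.length = r.size) :
    (Exc u (L1 ++ x :: L2) d y ∧ HasShape (.node s l r) (mins u (L1 ++ x :: L2))) ↔
      (((∀ z ∈ mins u L1, pos u L1 - pD x < z.1) ∧ 0 < pos u L1 - pD x ∧
        HasShape l (mins u L1)) ∧ pS x = s ∧
        ((∀ z ∈ mins (pos u L1 - pD x + pU x) L2, pos u L1 - pD x < z.1) ∧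
          pos (pos u L1 - pD x + pU x) L2 - d < -y ∧
          HasShape r (mins (pos u L1 - pD x + pU x) L2))) := by
  have hm : mins u (L1 ++ x :: L2) = mins u L1 ++ (pos u L1 - pD x, pS x, pX x) ::
      mins (pos u L1 - pD x + pU x) L2 := by
    rw [mins_append, mins]
  have hp : pos u (L1 ++ x :: L2) = pos (pos u L1 - pD x + pU x) L2 := by
    rw [pos_append, pos]
  unfold Exc
  rw [hm, hp]
  constructor
  · rintro ⟨⟨hpos, hend⟩, hlen, L1', m, x', L2', heq, hA, hB, hl, hr⟩
    have hl1 : (mins u L1).length = L1'.length := by rw [length_mins, h1, hl.length]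
    obtain ⟨e1, e2⟩ := List.append_inj heq hl1
    rw [List.cons.injEq] at e2
    obtain ⟨e2, e3⟩ := e2
    simp only [Prod.mk.injEq] at e2
    obtain ⟨e4, e5, e6⟩ := e2
    subst e1
    subst e3
    subst e4
    refine ⟨⟨hA, ?_, hl⟩, e5, hB, hend, hr⟩
    exact hpos (pos u L1 - pD x, pS x, pX x) (by simp)
  · rintro ⟨⟨hA, h0, hl⟩, hs, hB, hend, hr⟩
    refine ⟨⟨?_, hend⟩, ?_, mins u L1, pos u L1 - pD x, pX x, _, by rw [hs], hA, hB, hl, hr⟩
    · intro z hz
      rw [List.mem_append, List.mem_cons] at hz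
      rcases hz with hz | hz | hz
      · exact h0.trans (hA z hz)
      · rw [hz]; exact h0
      · exact h0.trans (hB z hz)
    · rw [List.length_append, List.length_cons, length_mins, length_mins, h1, h2]
      by_contra hcon
      have hl0 : l.size = 0 := by omega
      have hr0 : r.size = 0 := by omega
      apply hne
      constructor
      · cases l with
        | leaf => rfl
        | cherry _ _ => simp [Tr.size] at hl0
        | node _ _ _ => simp [Tr.size] at hl0
      · cases r with
        | leaf => rfl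
        | cherry _ _ => simp [Tr.size] at hr0
        | node _ _ _ => simp [Tr.size] at hr0

/-- decomposition at the lowest minimum: `LI_append`, `gw_left`, `gw_right`,
`PLaw.lintegral_DUS` and `∫ θ e^(-θ m) e^(-θ (m + y)) dm = e^(-θ y) / 2` -/
theorem gw_node {p g : ℝ} {s : Bool} {l r : Tr} (hl : GWprop p g l.mir) (hr : GWprop p g r) :
    GWprop p g (.node s l r) := by
  intro θ hθ ρ hρ y hy
  have hρP := hρ.prob
  have hexpP : IsProbabilityMeasure (expMeasure θ) := isProbabilityMeasure_expMeasure hθ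
  by_cases hne : l = .leaf ∧ r = .leaf
  · -- the event is empty
    obtain ⟨rfl, rfl⟩ := hne
    have h0 : ∀ u : ℝ, LI ρ (Tr.node s .leaf .leaf).size (fun L => ∫⁻ d,
        ind (Exc u L d y ∧ HasShape (.node s .leaf .leaf) (mins u L)) ∂(expMeasure θ)) = 0 := by
      intro u
      rw [← LI_const ρ (Tr.node s .leaf .leaf).size 0]
      refine LI_congr ρ fun L hL => ?_
      have : ∀ d : ℝ, ind (Exc u L d y ∧ HasShape (.node s .leaf .leaf) (mins u L)) = 0 := by
        intro d
        refine gwn_ind_false ?_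
        rintro ⟨_, h2, _⟩
        rw [length_mins, hL] at h2
        simp [Tr.size] at h2
      simp only [this, lintegral_const, zero_mul]
    unfold gwInt
    simp only [h0, lintegral_const, zero_mul, Tr.w]
    simp
  -- the integrand of the right part
  set B : (ℝ × ℝ) × ℝ → List Pc → ℝ≥0∞ := fun q L =>
    ind ((∀ z ∈ mins (q.1.1 + q.1.2) L, q.1.1 < z.1) ∧
      pos (q.1.1 + q.1.2) L - q.2 < -y ∧ HasShape r (mins (q.1.1 + q.1.2) L)) with hB
  set A : ℝ → List Pc → ℝ → ℝ≥0∞ := fun u L D =>
    ind ((∀ z ∈ mins u L, pos u L - D < z.1) ∧ 0 < pos u L - D ∧ HasShape l (mins u L)) with hA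
  have hBm : MF2 B := by
    have hB1 : MF2 fun (q : (ℝ × ℝ) × ℝ) L =>
        ind (∀ z ∈ mins (q.1.1 + q.1.2) L, q.1.1 < z.1) :=
      meas_above.comp_left (k := fun q : (ℝ × ℝ) × ℝ => (q.1.1 + q.1.2, q.1.1)) (by fun_prop)
    have hB2 : MF2 fun (q : (ℝ × ℝ) × ℝ) L =>
        ind (pos (q.1.1 + q.1.2) L - q.2 < -y) := by
      intro n
      have h1 := (meas_pos.comp_left (k := fun q : (ℝ × ℝ) × ℝ => q.1.1 + q.1.2)
        (by fun_prop)) n
      have h2 : Measurable fun q : ((ℝ × ℝ) × ℝ) × (Fin n → Pc) =>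
          pos (q.1.1.1 + q.1.1.2) (List.ofFn q.2) - q.1.2 := h1.sub (by fun_prop)
      have h3 : MeasurableSet {q : ((ℝ × ℝ) × ℝ) × (Fin n → Pc) |
          pos (q.1.1.1 + q.1.1.2) (List.ofFn q.2) - q.1.2 < -y} :=
        measurableSet_lt h2 measurable_const
      classical
      exact Measurable.ite h3 measurable_const measurable_const
    have hB3 : MF2 fun (q : (ℝ × ℝ) × ℝ) L =>
        ind (HasShape r (mins (q.1.1 + q.1.2) L)) :=
      (meas_shape r).comp_left (k := fun q : (ℝ × ℝ) × ℝ => q.1.1 + q.1.2) (by fun_prop)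
    intro n
    have h4 := (hB1 n).mul ((hB2 n).mul (hB3 n))
    simp only [hB, ind_and]
    exact h4
  have hAm : ∀ u L, Measurable (A u L) := by
    intro u L
    have h1 : Measurable fun D : ℝ => ind (∀ z ∈ mins u L, pos u L - D < z.1) :=
      gwn_meas_fix (meas_above.comp_left (k := fun D : ℝ => (u, pos u L - D)) (by fun_prop)) L
    have h2 : Measurable fun D : ℝ => ind (0 < pos u L - D) := by
      have h3 : MeasurableSet {D : ℝ | 0 < pos u L - D} :=
        measurableSet_lt measurable_const (by fun_prop)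
      classical
      exact Measurable.ite h3 measurable_const measurable_const
    have h4 := h1.mul (h2.mul (measurable_const (a := ind (HasShape l (mins u L)))))
    simp only [hA, ind_and]
    exact h4
  set K : ℝ × ℝ → ℝ≥0∞ := fun q => LI ρ r.size (fun L => ∫⁻ d, B (q, d) L ∂(expMeasure θ))
    with hK
  have hKm : Measurable K := (gwn_meas_lint (μ := expMeasure θ) hBm).meas_LI ρ r.size
  have hKint : ∀ m : ℝ, 0 ≤ m → ∫⁻ U, K (m, U) ∂(expMeasure θ) =
      r.w p g * ENNReal.ofReal (Real.exp (-(θ * (m + y)))) := fun m hm =>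
    gw_right hr hθ hρ hm hy
  set H : ℝ → ℝ≥0∞ := fun m =>
    bw p s * (r.w p g * ENNReal.ofReal (Real.exp (-(θ * (m + y))))) with hH
  have hHm : Measurable H := by rw [hH]; fun_prop
  have hmain : gwInt θ ρ (Tr.node s l r).size
      (fun u L d => ind (Exc u L d y ∧ HasShape (.node s l r) (mins u L))) =
      gwInt θ ρ l.size (fun u L D => A u L D * H (pos u L - D)) := by
    unfold gwInt
    refine lintegral_congr fun u => ?_
    have hsize : (Tr.node s l r).size = l.size + (r.size + 1) := by
      simp only [Tr.size]; omega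
    rw [hsize, LI_append]
    refine LI_congr ρ fun L1 hL1 => ?_
    rw [LI]
    have hx : ∀ x : Pc, LI ρ r.size (fun L2 => ∫⁻ d, ind (Exc u (L1 ++ x :: L2) d y ∧
        HasShape (.node s l r) (mins u (L1 ++ x :: L2))) ∂(expMeasure θ)) =
        A u L1 (pD x) * (ind (pS x = s) * K (pos u L1 - pD x, pU x)) := by
      intro x
      have e1 : LI ρ r.size (fun L2 => ∫⁻ d, ind (Exc u (L1 ++ x :: L2) d y ∧
          HasShape (.node s l r) (mins u (L1 ++ x :: L2))) ∂(expMeasure θ)) =
          LI ρ r.size (fun L2 => ∫⁻ d, A u L1 (pD x) * (ind (pS x = s) *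
            B ((pos u L1 - pD x, pU x), d) L2) ∂(expMeasure θ)) := by
        refine LI_congr ρ fun L2 hL2 => lintegral_congr fun d => ?_
        simp only [hA, hB]
        rw [gwn_split hne hL1 hL2, ind_and, ind_and (pS x = s)]
      rw [e1]
      by_cases hPA : (∀ z ∈ mins u L1, pos u L1 - pD x < z.1) ∧ 0 < pos u L1 - pD x ∧
        HasShape l (mins u L1)
      · have hA1 : A u L1 (pD x) = 1 := gwn_ind_true hPA
        by_cases hS : pS x = s
        · simp only [hA1, gwn_ind_true hS, one_mul, hK]
        · simp only [gwn_ind_false hS, zero_mul, mul_zero, lintegral_const, LI_const]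
      · have hA0 : A u L1 (pD x) = 0 := gwn_ind_false hPA
        simp only [hA0, zero_mul, lintegral_const, LI_const]
    simp only [hx]
    have hF : Measurable fun q : ℝ × ℝ × Bool =>
        A u L1 q.1 * (ind (q.2.2 = s) * K (pos u L1 - q.1, q.2.1)) := by
      refine ((hAm u L1).comp measurable_fst).mul (Measurable.mul ?_ ?_)
      · exact (measurable_of_finite fun b : Bool => ind (b = s)).comp
          (measurable_snd.comp measurable_snd)
      · exact hKm.comp (by fun_prop)
    rw [hρ.lintegral_DUS hθ (F := fun D U S => A u L1 D * (ind (S = s) *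
      K (pos u L1 - D, U))) hF]
    refine lintegral_congr fun D => ?_
    have hs2 : ∀ U : ℝ, bw p true * (A u L1 D * (ind (true = s) * K (pos u L1 - D, U))) +
        bw p false * (A u L1 D * (ind (false = s) * K (pos u L1 - D, U))) =
        (A u L1 D * bw p s) * K (pos u L1 - D, U) := by
      intro U
      cases s
      · rw [gwn_ind_true rfl, gwn_ind_false (by simp)]; ring
      · rw [gwn_ind_true rfl, gwn_ind_false (by simp)]; ring
    simp only [hs2]
    have hKu : Measurable fun U => K (pos u L1 - D, U) := hKm.comp (by fun_prop)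
    rw [lintegral_const_mul _ hKu]
    by_cases hPA : (∀ z ∈ mins u L1, pos u L1 - D < z.1) ∧ 0 < pos u L1 - D ∧
        HasShape l (mins u L1)
    · rw [hKint _ hPA.2.1.le, hH]; ring
    · have hA0 : A u L1 D = 0 := gwn_ind_false hPA
      rw [hA0]; ring
  rw [hmain]
  have hleft := gw_left hl hθ hρ hHm
  simp only [hA]
  rw [hleft]
  have hHint : ∫⁻ m, H m ∂(expMeasure θ) =
      bw p s * (r.w p g * (ENNReal.ofReal (Real.exp (-(θ * y))) * (1 / 2))) := by
    have e1 : ∀ m : ℝ, H m = bw p s * (r.w p g * ENNReal.ofReal (Real.exp (-(θ * y)))) *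
        ENNReal.ofReal (Real.exp (-(θ * m))) := by
      intro m
      have : Real.exp (-(θ * (m + y))) = Real.exp (-(θ * y)) * Real.exp (-(θ * m)) := by
        rw [← Real.exp_add]; congr 1; ring
      rw [hH]
      simp only []
      rw [this, ENNReal.ofReal_mul (Real.exp_pos _).le]
      ring
    simp only [e1]
    rw [lintegral_const_mul _ (by fun_prop), gwn_half hθ]
    ring
  rw [hHint, Tr.w, if_neg hne, ENNReal.div_eq_inv_mul, ENNReal.div_eq_inv_mul]
  ring

theorem gw_all {p g : ℝ} (hp0 : 0 ≤ p) (hp1 : p ≤ 1) (hg0 : 0 ≤ g) (hg1 : g ≤ 1) (t : Tr) :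
    GWprop p g t ∧ GWprop p g t.mir := by
  induction t with
  | leaf => exact ⟨gw_leaf p g, gw_leaf p g⟩
  | cherry s x => exact ⟨gw_cherry hp0 hp1 hg0 hg1 s x, gw_cherry hp0 hp1 hg0 hg1 s x⟩
  | node s l r ihl ihr =>
    refine ⟨gw_node ihl.2 ihr.1, ?_⟩
    rw [Tr.mir]
    exact gw_node (by rw [Tr.mir_mir]; exact ihr.1) ihl.2

theorem gw {p g : ℝ} (hp0 : 0 ≤ p) (hp1 : p ≤ 1) (hg0 : 0 ≤ g) (hg1 : g ≤ 1) {θ : ℝ}
    (hθ : 0 < θ) {ρ : Measure Pc} (hρ : PLaw p g θ ρ) (t : Tr) :
    gwInt θ ρ t.size (fun u l d => ind (Exc u l d 0 ∧ HasShape t (mins u l))) = t.w p g := by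
  have h := (gw_all hp0 hp1 hg0 hg1 t).1 θ hθ ρ hρ 0 le_rfl
  rw [h]
  simp

end Pool.Agent.BSP
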