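import Pool.Agent.BSP.Path

set_option autoImplicit false

/-!
# Generic paths
-/

namespace Pool.Agent.BSP

open MeasureTheory ProbabilityTheory Set Filter
open scoped ENNReal NNReal Topology

/-- almost sure properties of the Brownian path -/
structure GenPath (W : ℝ → ℝ) : Prop where
  cont : Continuous W
  zero : W 0 = 0
  dist : ∀ m m', 0 < m → 0 < m' → IsLocalMin W m → IsLocalMin W m' → W m = W m' → m = m'
  nz : ∀ m, 0 < m → IsLocalMin W m → W m ≠ 0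
  gen : ∀ᵐ t : ℝ, 0 < t → (∀ ε, 0 < ε → ∃ z, t - ε < z ∧ z < t ∧ W z < W t) ∧
    (∀ ε, 0 < ε → ∃ z, t < z ∧ z < t + ε ∧ W z < W t)
  low : ∃ t, 1 < t ∧ W t < 0
  one : W 1 ≠ 0

/-- the minima over disjoint rational intervals are different -/
def RatDist (W : ℝ → ℝ) : Prop := ∀ a b c d : ℚ, 0 ≤ a → a ≤ b → b < c → c ≤ d →
  mn W a (b - a) ≠ mn W c (d - c)

/-- the minima over rational intervals are not zero -/
def RatNz (W : ℝ → ℝ) : Prop := ∀ a b : ℚ, 0 < a → a ≤ b → mn W a (b - a) ≠ 0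

private theorem gp_mn {W : ℝ → ℝ} {a τ m : ℝ} (h1 : a ≤ m) (h2 : m ≤ a + τ)
    (h : ∀ z, a ≤ z → z ≤ a + τ → W m ≤ W z) : mn W a τ = W m := by
  unfold mn
  apply IsLeast.csInf_eq
  refine ⟨⟨m, ⟨h1, h2⟩, rfl⟩, ?_⟩
  rintro _ ⟨z, ⟨hz1, hz2⟩, rfl⟩
  exact h z hz1 hz2

private theorem gp_lt {W : ℝ → ℝ} {a τ y : ℝ} (hτ : 0 ≤ τ) (h : mn W a τ < y) :
    ∃ z, a ≤ z ∧ z ≤ a + τ ∧ W z < y := by
  unfold mn at h
  obtain ⟨_, ⟨z, ⟨h1, h2⟩, rfl⟩, h3⟩ := exists_lt_of_csInf_lt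
    (⟨W a, a, ⟨le_rfl, by linarith⟩, rfl⟩ : (W '' Icc a (a + τ)).Nonempty) h
  exact ⟨z, h1, h2, h3⟩

/-- rational interval around a local minimum -/
private theorem gp_rat {W : ℝ → ℝ} {m l r : ℝ} (hm : IsLocalMin W m) (hl : l < m) (hr : m < r) :
    ∃ a b : ℚ, l < a ∧ (a : ℝ) < m ∧ m < b ∧ (b : ℝ) < r ∧ a ≤ b ∧
      mn W a (b - a) = W m := by
  obtain ⟨ε, hε, h⟩ := Metric.eventually_nhds_iff.1 hm
  obtain ⟨a, ha1, ha2⟩ := exists_rat_btwn (max_lt hl (sub_lt_self m hε))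
  obtain ⟨b, hb1, hb2⟩ := exists_rat_btwn (lt_min hr (lt_add_of_pos_right m hε))
  refine ⟨a, b, (le_max_left _ _).trans_lt ha1, ha2, hb1, hb2.trans_le (min_le_left _ _), ?_, ?_⟩
  · exact_mod_cast (ha2.trans hb1).le
  · refine gp_mn ha2.le (by linarith) ?_
    intro z hz1 hz2
    apply h
    rw [Real.dist_eq, abs_lt]
    have h1 := (le_max_right l (m - ε)).trans_lt ha1
    have h2 := hb2.trans_le (min_le_right r (m + ε))
    constructor <;> linarith

private theorem gp_dist {W : ℝ → ℝ} (h1 : RatDist W) {m m' : ℝ} (h0 : 0 < m) (hlt : m < m')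
    (hm : IsLocalMin W m) (hm' : IsLocalMin W m') (h : W m = W m') : False := by
  have hc : m < (m + m') / 2 := by linarith
  have hc' : (m + m') / 2 < m' := by linarith
  obtain ⟨a, b, ha, ha', hb, hb', hab, e1⟩ := gp_rat hm h0 hc
  obtain ⟨c, d, hcc, hcc', hd, hd', hcd, e2⟩ := gp_rat hm' hc' (lt_add_one m')
  refine h1 a b c d ?_ hab ?_ hcd ?_
  · exact_mod_cast ha.le
  · exact_mod_cast hb'.trans hcc
  · rw [e1, e2, h]

theorem genPath_of {W : ℝ → ℝ} (hc : Continuous W) (h0 : W 0 = 0) (h1 : RatDist W)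
    (h2 : RatNz W) (h3 : ∀ᵐ t : ℝ, 0 < t →
      (∀ q : ℚ, 0 ≤ q → (q : ℝ) < t → mn W q (t - q) < W t) ∧
      (∀ ε : ℚ, 0 < ε → mn W t ε < W t)) (h4 : ∃ t, 1 < t ∧ W t < 0) (h5 : W 1 ≠ 0) :
    GenPath W := by
  refine ⟨hc, h0, ?_, ?_, ?_, h4, h5⟩
  · intro m m' hm hm' l l' h
    rcases lt_trichotomy m m' with h6 | h6 | h6
    · exact (gp_dist h1 hm h6 l l' h).elim
    · exact h6
    · exact (gp_dist h1 hm' h6 l' l h.symm).elim
  · intro m hm l h
    obtain ⟨a, b, ha, _, _, _, hab, e1⟩ := gp_rat l hm (lt_add_one m)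
    refine h2 a b ?_ hab ?_
    · exact_mod_cast ha
    · rw [e1, h]
  · filter_upwards [h3] with t ht h6
    obtain ⟨h7, h8⟩ := ht h6
    constructor
    · intro ε hε
      obtain ⟨q, hq1, hq2⟩ := exists_rat_btwn (max_lt h6 (sub_lt_self t hε))
      have hq0 : (0 : ℝ) < q := (le_max_left _ _).trans_lt hq1
      have h9 := h7 q (by exact_mod_cast hq0.le) hq2
      obtain ⟨z, hz1, hz2, hz3⟩ := gp_lt (by linarith) h9
      have h10 := (le_max_right 0 (t - ε)).trans_lt hq1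
      refine ⟨z, by linarith, ?_, hz3⟩
      rcases lt_or_eq_of_le (show z ≤ t by linarith) with h11 | h11
      · exact h11
      · rw [h11] at hz3
        exact absurd hz3 (lt_irrefl _)
    · intro ε hε
      obtain ⟨q, hq1, hq2⟩ := exists_rat_btwn hε
      have h9 := h8 q (by exact_mod_cast hq1)
      obtain ⟨z, hz1, hz2, hz3⟩ := gp_lt hq1.le h9
      refine ⟨z, ?_, by linarith, hz3⟩
      rcases lt_or_eq_of_le hz1 with h11 | h11
      · exact h11
      · rw [← h11] at hz3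
        exact absurd hz3 (lt_irrefl _)

/-- the argmin of a piece with positive depth and height -/
theorem GenPath.isArgmin {W : ℝ → ℝ} (h : GenPath W) {a τ : ℝ} (ha : 0 ≤ a) (hτ : 0 < τ)
    (hd : 0 < dW W a τ) (hu : 0 < uW W a τ) : IsArgmin W a (a + τ) (am W a τ) := by
  obtain ⟨h1, h2, h3, h4⟩ := am_spec h.cont (a := a) hτ.le
  have key : ∀ z, a ≤ z → z ≤ a + τ → W z = mn W a τ → a < z ∧ z < a + τ := by
    intro z hz1 hz2 hz3
    constructor
    · rcases lt_or_eq_of_le hz1 with h5 | h5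
      · exact h5
      · unfold dW at hd
        rw [← hz3, ← h5] at hd
        simp at hd
    · rcases lt_or_eq_of_le hz2 with h5 | h5
      · exact h5
      · unfold uW at hu
        rw [← hz3, ← h5] at hu
        simp at hu
  have kloc : ∀ z, a ≤ z → z ≤ a + τ → W z = mn W a τ → IsLocalMin W z := by
    intro z hz1 hz2 hz3
    obtain ⟨h5, h6⟩ := key z hz1 hz2 hz3
    filter_upwards [Ioo_mem_nhds h5 h6] with y hy
    rw [hz3]
    exact h4 y hy.1.le hy.2.le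
  obtain ⟨h5, h6⟩ := key _ h1 h2 h3
  refine ⟨h5, h6, ?_⟩
  intro z hz1 hz2 hz3
  rw [h3]
  refine lt_of_le_of_ne (h4 z hz1 hz2) ?_
  intro h7
  obtain ⟨h8, h9⟩ := key z hz1 hz2 h7.symm
  exact hz3 (h.dist z _ (by linarith) (by linarith) (kloc z hz1 hz2 h7.symm)
    (kloc _ h1 h2 h3) (by rw [← h7, h3]))

end Pool.Agent.BSP
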