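import Pool.Agent.BSP.HRec

set_option autoImplicit false

/-!
# Bound for the probability of `¬ HasGood`
-/

namespace Pool.Agent.BSP

open MeasureTheory ProbabilityTheory
open scoped ENNReal

variable {p g : ℝ} {θ : ℝ} {ρ : Measure Pc}

/-- superadditivity of the iterated integrals (no measurability needed) -/
theorem hbound_LI_add (n : ℕ) (F G : List Pc → ℝ≥0∞) :
    LI ρ n F + LI ρ n G ≤ LI ρ n (fun l => F l + G l) := by
  induction n generalizing F G with
  | zero => exact le_rfl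
  | succ n ih =>
    simp only [LI]
    refine (le_lintegral_add _ _).trans (lintegral_mono fun x => ?_)
    exact ih _ _

theorem hbound_gw_add (n : ℕ) (H K : ℝ → List Pc → ℝ → ℝ≥0∞) :
    gwInt θ ρ n H + gwInt θ ρ n K ≤ gwInt θ ρ n (fun u l d => H u l d + K u l d) := by
  unfold gwInt
  refine (le_lintegral_add _ _).trans (lintegral_mono fun u => ?_)
  exact (hbound_LI_add n _ _).trans (LI_mono _ fun l _ => le_lintegral_add _ _)

theorem hbound_gw_mono (n : ℕ) {H K : ℝ → List Pc → ℝ → ℝ≥0∞}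
    (h : ∀ u l d, H u l d ≤ K u l d) : gwInt θ ρ n H ≤ gwInt θ ρ n K := by
  unfold gwInt
  exact lintegral_mono fun u => LI_mono _ fun l _ => lintegral_mono fun d => h u l d

theorem hbound_nb (N : ℕ) (hp0 : 0 ≤ p) (hp1 : p ≤ 1) (hg0 : 0 ≤ g) (hg1 : g ≤ 1)
    (hθ : 0 < θ) (hρ : PLaw p g θ ρ) (j : ℕ) :
    nbP N θ ρ j + ∑' t : Tr, (if t.size = j then t.w p g else 0) * ind (N ≤ t.valX) ≤
      ∑' t : Tr, (if t.size = j then t.w p g else 0) * 1 := by
  rw [← fpass_shape hp0 hp1 hg0 hg1 hθ hρ j fun t => N ≤ t.valX]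
  simp_rw [mul_one]
  rw [← fpass_eq hp0 hp1 hg0 hg1 hθ hρ j]
  unfold nbP fpass
  refine (hbound_gw_add j _ _).trans (hbound_gw_mono j fun u l d => ?_)
  unfold ind GS
  by_cases h1 : Exc u l d 0
  · by_cases h2 : ∃ t, HasShape t (mins u l) ∧ N ≤ t.valX
    · simp [h1, h2]
    · simp [h1, h2]
  · simp [h1]

theorem hbound_swap (c : Tr → ℝ≥0∞) :
    ∑' j : ℕ, ∑' t : Tr, (if t.size = j then t.w p g else 0) * c t = ∑' t : Tr, t.w p g * c t := by
  rw [ENNReal.tsum_comm]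
  refine tsum_congr fun t => ?_
  rw [tsum_eq_single t.size]
  · rw [if_pos rfl]
  · intro j hj
    rw [if_neg hj.symm, zero_mul]

theorem hbound_geom {κ : ℝ} (hκ0 : 0 < κ) (hκ1 : κ ≤ 1) (N : ℕ) :
    ∑' n : ℕ, ENNReal.ofReal (κ * (1 - κ) ^ n) * (if n ≤ N then 1 else 0) =
      ENNReal.ofReal (1 - (1 - κ) ^ (N + 1)) := by
  rw [tsum_eq_sum (s := Finset.range (N + 1))]
  · have h1 : ∀ n ∈ Finset.range (N + 1),
        ENNReal.ofReal (κ * (1 - κ) ^ n) * (if n ≤ N then 1 else 0) =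
          ENNReal.ofReal (κ * (1 - κ) ^ n) := by
      intro n hn
      rw [Finset.mem_range] at hn
      rw [if_pos (by omega), mul_one]
    rw [Finset.sum_congr rfl h1, ← ENNReal.ofReal_sum_of_nonneg]
    · congr 1
      rw [← Finset.mul_sum]
      have h := geom_sum_mul (1 - κ) (N + 1)
      have : (∑ i ∈ Finset.range (N + 1), (1 - κ) ^ i) * (1 - κ - 1) = (1 - κ) ^ (N + 1) - 1 := h
      linear_combination -this
    · intro n _
      have : 0 ≤ 1 - κ := by linarith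
      positivity
  · intro n hn
    rw [Finset.mem_range] at hn
    rw [if_neg (by omega), mul_zero]

/-- `gen_sum` for `s = 1 - κ` -/
theorem surv_sum (hp0 : 0 ≤ p) (hp1 : p ≤ 1) (hg0 : 0 ≤ g) (hg1 : g ≤ 1) (hθ : 0 < θ)
    (hρ : PLaw p g θ ρ) {κ : ℝ} (hκ0 : 0 < κ) (hκ1 : κ ≤ 1) :
    ∑' n : ℕ, ENNReal.ofReal (κ * (1 - κ) ^ n) * surv θ ρ n ≤ ENNReal.ofReal √κ := by
  have h0 : 0 ≤ 1 - κ := by linarith
  have h1 : 1 - κ ≤ 1 := by linarith
  have hs1 : √κ ≤ 1 := (Real.sqrt_le_sqrt hκ1).trans_eq Real.sqrt_one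
  calc ∑' n : ℕ, ENNReal.ofReal (κ * (1 - κ) ^ n) * surv θ ρ n
      ≤ ∑' n : ℕ, ENNReal.ofReal (κ * (1 - κ) ^ n) *
          ∑' t : Tr, (if n ≤ t.size then t.w p g else 0) := by
        refine ENNReal.tsum_le_tsum fun n => ?_
        exact mul_le_mul_right (surv_eq hp0 hp1 hg0 hg1 hθ hρ n) _
    _ = ∑' t : Tr, t.w p g * ENNReal.ofReal (1 - (1 - κ) ^ (t.size + 1)) := by
        simp_rw [← ENNReal.tsum_mul_left]
        rw [ENNReal.tsum_comm]
        refine tsum_congr fun t => ?_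
        rw [← hbound_geom hκ0 hκ1 t.size, ← ENNReal.tsum_mul_left]
        refine tsum_congr fun n => ?_
        split_ifs
        · ring
        · simp
    _ = ENNReal.ofReal √κ := by
        have hsum : ∑' t : Tr, t.w p g * ENNReal.ofReal (1 - (1 - κ) ^ (t.size + 1)) +
            ∑' t : Tr, t.w p g * ENNReal.ofReal ((1 - κ) ^ (t.size + 1)) = 1 := by
          rw [← ENNReal.tsum_add, ← sum_w hp0 hp1 hg0 hg1]
          refine tsum_congr fun t => ?_
          have h2 : 0 ≤ (1 - κ) ^ (t.size + 1) := pow_nonneg h0 _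
          have h3 : (1 - κ) ^ (t.size + 1) ≤ 1 := pow_le_one₀ h0 h1
          rw [← mul_add, ← ENNReal.ofReal_add (by linarith) h2]
          simp
        rw [gen_sum hp0 hp1 hg0 hg1 h0 h1] at hsum
        have h4 : 1 - (1 - κ) = κ := by ring
        rw [h4] at hsum
        have h5 : ENNReal.ofReal √κ + ENNReal.ofReal (1 - √κ) = 1 := by
          rw [← ENNReal.ofReal_add (Real.sqrt_nonneg _) (by linarith)]
          simp
        have h6 : ENNReal.ofReal (1 - √κ) ≠ ∞ := ENNReal.ofReal_ne_top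
        exact (ENNReal.add_left_inj h6).mp (hsum.trans h5.symm)

/-- almost all excursions have a shape (`fpass_shape`, `fpass_noshape`), and
`∑ (1 - κ)^(size + 1) w = 1 - √κ` -/
theorem nb_sum (N : ℕ) (hN : 1 ≤ N) (hp0 : 0 ≤ p) (hp1 : p ≤ 1) (hg0 : 0 ≤ g) (hg1 : g ≤ 1)
    (hθ : 0 < θ) (hρ : PLaw p g θ ρ) {κ : ℝ} (hκ0 : 0 < κ) (hκ1 : κ ≤ 1) :
    (∑' j : ℕ, ENNReal.ofReal ((1 - κ) ^ (j + 1)) * nbP N θ ρ j) +
      ENNReal.ofReal (FX p g (N - 1)) ≤ 1 := by
  have h0 : 0 ≤ 1 - κ := by linarith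
  have h1 : 1 - κ ≤ 1 := by linarith
  have hF : ENNReal.ofReal (FX p g (N - 1)) = ∑' t : Tr, t.w p g * ind (N ≤ t.valX) := by
    unfold FX
    have e : (∑' t : Tr, if N - 1 < t.valX then t.w p g else 0) =
        ∑' t : Tr, t.w p g * ind (N ≤ t.valX) := by
      refine tsum_congr fun t => ?_
      unfold ind
      by_cases h : N ≤ t.valX
      · rw [if_pos (by omega), if_pos h, mul_one]
      · rw [if_neg (by omega), if_neg h, mul_zero]
    rw [e, ENNReal.ofReal_toReal]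
    refine ne_top_of_le_ne_top ENNReal.one_ne_top ?_
    rw [← sum_w hp0 hp1 hg0 hg1]
    refine ENNReal.tsum_le_tsum fun t => ?_
    unfold ind
    split_ifs <;> simp
  calc (∑' j : ℕ, ENNReal.ofReal ((1 - κ) ^ (j + 1)) * nbP N θ ρ j) +
      ENNReal.ofReal (FX p g (N - 1))
      ≤ (∑' j : ℕ, nbP N θ ρ j) + ∑' t : Tr, t.w p g * ind (N ≤ t.valX) := by
        rw [hF]
        refine add_le_add ?_ le_rfl
        refine ENNReal.tsum_le_tsum fun j => ?_
        have h2 : ENNReal.ofReal ((1 - κ) ^ (j + 1)) ≤ 1 := by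
          rw [← ENNReal.ofReal_one]
          exact ENNReal.ofReal_le_ofReal (pow_le_one₀ h0 h1)
        exact (mul_le_mul_left h2 _).trans_eq (one_mul _)
    _ = ∑' j : ℕ, (nbP N θ ρ j +
          ∑' t : Tr, (if t.size = j then t.w p g else 0) * ind (N ≤ t.valX)) := by
        rw [ENNReal.tsum_add, hbound_swap]
    _ ≤ ∑' j : ℕ, ∑' t : Tr, (if t.size = j then t.w p g else 0) * 1 :=
        ENNReal.tsum_le_tsum fun j => hbound_nb N hp0 hp1 hg0 hg1 hθ hρ j
    _ = 1 := by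
        rw [hbound_swap fun _ => 1]
        simp_rw [mul_one]
        exact sum_w hp0 hp1 hg0 hg1

theorem hasGood_bound (N : ℕ) (hN : 1 ≤ N) (hp0 : 0 ≤ p) (hp1 : p ≤ 1) (hg0 : 0 ≤ g)
    (hg1 : g ≤ 1) (hθ : 0 < θ) (hρ : PLaw p g θ ρ) {κ : ℝ} (hκ0 : 0 < κ) (hκ1 : κ ≤ 1) :
    (∑' n : ℕ, ENNReal.ofReal (κ * (1 - κ) ^ n) *
      LI ρ (n + 1) (fun l => ind (¬ HasGood N l))) * ENNReal.ofReal (FX p g (N - 1)) ≤
      ENNReal.ofReal √κ := by
  have := hρ.prob
  have h0 : 0 ≤ 1 - κ := by linarith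
  have h1 : 1 - κ < 1 := by linarith
  set q : ℝ≥0∞ := ∑' n : ℕ, ENNReal.ofReal (κ * (1 - κ) ^ n) *
      LI ρ (n + 1) (fun l => ind (¬ HasGood N l)) with hq
  have hq1 : q ≤ 1 := by
    calc q ≤ ∑' n : ℕ, ENNReal.ofReal (κ * (1 - κ) ^ n) := by
          refine ENNReal.tsum_le_tsum fun n => ?_
          have h2 : LI ρ (n + 1) (fun l => ind (¬ HasGood N l)) ≤ 1 := by
            refine (LI_mono (G := fun _ => 1) _ fun l _ => ?_).trans_eq (LI_const _ _ _)
            unfold ind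
            split_ifs <;> simp
          exact (mul_le_mul_right h2 _).trans_eq (mul_one _)
      _ = 1 := by
          rw [← ENNReal.ofReal_tsum_of_nonneg (fun n => mul_nonneg hκ0.le (pow_nonneg h0 n))
            ((summable_geometric_of_lt_one h0 h1).mul_left _), tsum_mul_left,
            tsum_geometric_of_lt_one h0 h1]
          have : κ * (1 - (1 - κ))⁻¹ = 1 := by
            rw [show 1 - (1 - κ) = κ by ring, mul_inv_cancel₀ hκ0.ne']
          rw [this, ENNReal.ofReal_one]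
  have hqt : q ≠ ∞ := ne_top_of_le_ne_top ENNReal.one_ne_top hq1
  set B : ℝ≥0∞ := ∑' j : ℕ, ENNReal.ofReal ((1 - κ) ^ (j + 1)) * nbP N θ ρ j with hB
  have hrec : q ≤ ENNReal.ofReal √κ + B * q := by
    have h2 := ngP_sum N hθ hρ hκ0 hκ1
    exact h2.trans (add_le_add (surv_sum hp0 hp1 hg0 hg1 hθ hρ hκ0 hκ1) le_rfl)
  have hnb : B + ENNReal.ofReal (FX p g (N - 1)) ≤ 1 := nb_sum N hN hp0 hp1 hg0 hg1 hθ hρ hκ0 hκ1
  have hBt : B * q ≠ ∞ := by
    refine ne_top_of_le_ne_top hqt ?_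
    exact (mul_le_mul_left (le_self_add.trans hnb) _).trans_eq (one_mul _)
  have h3 : q * ENNReal.ofReal (FX p g (N - 1)) + B * q ≤ ENNReal.ofReal √κ + B * q := by
    refine le_trans ?_ hrec
    calc q * ENNReal.ofReal (FX p g (N - 1)) + B * q
        = (B + ENNReal.ofReal (FX p g (N - 1))) * q := by ring
      _ ≤ 1 * q := mul_le_mul_left hnb _
      _ = q := one_mul _
  exact (ENNReal.add_le_add_iff_right hBt).mp h3

end Pool.Agent.BSP
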