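import Pool.Agent.BSP.CatDefs

set_option autoImplicit false

/-!
# Decomposition of the event `¬ HasGood` at the end of the first excursion
-/

namespace Pool.Agent.BSP

open MeasureTheory ProbabilityTheory
open scoped ENNReal

/-- the list of pieces `l`, started at the height `u`, has a shape with at least `N` marked cherries
in increasing position -/
def GS (N : ℕ) (u : ℝ) (l : List Pc) : Prop := ∃ t, HasShape t (mins u l) ∧ N ≤ t.valX

/-! ### Auxiliary facts -/

private theorem hdet_ind_iff {δ : Type*} [MeasurableSpace δ] {P : δ → Prop} :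
    Measurable (fun z => ind (P z)) ↔ MeasurableSet {z | P z} := by
  classical
  constructor
  · intro h
    have h1 := h (measurableSet_singleton (1 : ℝ≥0∞))
    have : (fun z => ind (P z)) ⁻¹' {1} = {z | P z} := by
      ext z
      simp only [Set.mem_preimage, Set.mem_singleton_iff, Set.mem_ofPred_eq, ind]
      by_cases hz : P z <;> simp [hz]
    rwa [this] at h1
  · intro h
    unfold ind
    exact Measurable.ite h measurable_const measurable_const

private def hdet_enc : Tr → ℕ
  | .leaf => 0
  | .cherry s x => 2 * (Nat.pair s.toNat x.toNat) + 1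
  | .node s l r => 2 * (Nat.pair s.toNat (Nat.pair (hdet_enc l) (hdet_enc r))) + 2

private theorem hdet_toNat_inj {a b : Bool} (h : a.toNat = b.toNat) : a = b := by
  cases a <;> cases b <;> simp_all

private theorem hdet_enc_inj : Function.Injective hdet_enc := by
  intro a
  induction a with
  | leaf =>
    intro b h
    cases b with
    | leaf => rfl
    | cherry s x => simp only [hdet_enc] at h; omega
    | node s l r => simp only [hdet_enc] at h; omega
  | cherry s x =>
    intro b h
    cases b with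
    | leaf => simp only [hdet_enc] at h; omega
    | cherry s' x' =>
      simp only [hdet_enc] at h
      have h1 : Nat.pair s.toNat x.toNat = Nat.pair s'.toNat x'.toNat := by omega
      obtain ⟨h2, h3⟩ := Nat.pair_eq_pair.1 h1
      rw [hdet_toNat_inj h2, hdet_toNat_inj h3]
    | node s' l r => simp only [hdet_enc] at h; omega
  | node s l r ihl ihr =>
    intro b h
    cases b with
    | leaf => simp only [hdet_enc] at h; omega
    | cherry s' x' => simp only [hdet_enc] at h; omega
    | node s' l' r' =>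
      simp only [hdet_enc] at h
      have h1 : Nat.pair s.toNat (Nat.pair (hdet_enc l) (hdet_enc r)) =
        Nat.pair s'.toNat (Nat.pair (hdet_enc l') (hdet_enc r')) := by omega
      obtain ⟨h2, h3⟩ := Nat.pair_eq_pair.1 h1
      obtain ⟨h4, h5⟩ := Nat.pair_eq_pair.1 h3
      rw [hdet_toNat_inj h2, ihl h4, ihr h5]

private theorem hdet_countable_Tr : Countable Tr := hdet_enc_inj.countable

theorem meas_GS (N : ℕ) : MF2 fun (q : ℝ × ℝ × ℝ) l =>
    ind (Exc q.1 l q.2.1 q.2.2 ∧ ¬ GS N q.1 l) := by
  intro n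
  have hc := hdet_countable_Tr
  rw [hdet_ind_iff]
  have e : {z : (ℝ × ℝ × ℝ) × (Fin n → Pc) | Exc z.1.1 (List.ofFn z.2) z.1.2.1 z.1.2.2 ∧
      ¬ GS N z.1.1 (List.ofFn z.2)} =
      {z : (ℝ × ℝ × ℝ) × (Fin n → Pc) | Exc z.1.1 (List.ofFn z.2) z.1.2.1 z.1.2.2} \
      ⋃ (t : Tr) (_ : N ≤ t.valX), {z : (ℝ × ℝ × ℝ) × (Fin n → Pc) |
        Exc z.1.1 (List.ofFn z.2) z.1.2.1 z.1.2.2 ∧
        HasShape t (mins z.1.1 (List.ofFn z.2))} := by
    ext z
    simp only [Set.mem_ofPred_eq, Set.mem_sdiff, Set.mem_iUnion, GS]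
    constructor
    · rintro ⟨h1, h2⟩
      refine ⟨h1, ?_⟩
      rintro ⟨t, h3, h4, h5⟩
      exact h2 ⟨t, h5, h3⟩
    · rintro ⟨h1, h2⟩
      refine ⟨h1, ?_⟩
      rintro ⟨t, h3, h4⟩
      exact h2 ⟨t, h4, h1, h3⟩
  rw [e]
  refine MeasurableSet.diff (hdet_ind_iff.1 (meas_exc n)) ?_
  refine MeasurableSet.iUnion fun t => MeasurableSet.iUnion fun _ => ?_
  exact hdet_ind_iff.1 (meas_exc_shape t n)

private theorem hdet_congr_aux (N : ℕ) {x x' : Pc} (h : pU x = pU x') (l : List Pc)
    (hg : HasGood N (x :: l)) : HasGood N (x' :: l) := by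
  obtain ⟨l1, x0, l2, y, l3, t, h1, h2, h3, h4⟩ := hg
  cases l1 with
  | nil =>
    rw [List.nil_append] at h1
    obtain ⟨h5, h6⟩ := List.cons.inj h1
    refine ⟨[], x', l2, y, l3, t, ?_, ?_, ?_, h4⟩
    · rw [List.nil_append, h6]
    · rw [← h, h5]
      exact h2
    · rw [← h, h5]
      exact h3
  | cons a l1 =>
    rw [List.cons_append] at h1
    obtain ⟨h5, h6⟩ := List.cons.inj h1
    refine ⟨x' :: l1, x0, l2, y, l3, t, ?_, h2, h3, h4⟩
    rw [List.cons_append, h6]

/-- `HasGood` of a list depends on the first piece only through its height -/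
theorem hasGood_congr (N : ℕ) {x x' : Pc} (h : pU x = pU x') (l : List Pc) :
    HasGood N (x :: l) ↔ HasGood N (x' :: l) :=
  ⟨hdet_congr_aux N h l, hdet_congr_aux N h.symm l⟩

private theorem hdet_first (l : List Pc) : ∀ u : ℝ, (∀ z ∈ mins u l, 0 < z.1) ∨
    ∃ (l2 : List Pc) (y : Pc) (l3 : List Pc), l = l2 ++ y :: l3 ∧
      (∀ z ∈ mins u l2, 0 < z.1) ∧ pos u l2 ≤ pD y := by
  induction l with
  | nil =>
    intro u
    left
    intro z hz
    simp [mins] at hz
  | cons x l ih =>
    intro u
    by_cases hx : 0 < u - pD x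
    · rcases ih (u - pD x + pU x) with h | ⟨l2, y, l3, h1, h2, h3⟩
      · left
        intro z hz
        simp only [mins, List.mem_cons] at hz
        rcases hz with hz | hz
        · rw [hz]
          exact hx
        · exact h z hz
      · right
        refine ⟨x :: l2, y, l3, ?_, ?_, ?_⟩
        · rw [h1, List.cons_append]
        · intro z hz
          simp only [mins, List.mem_cons] at hz
          rcases hz with hz | hz
          · rw [hz]
            exact hx
          · exact h2 z hz
        · simpa only [pos] using h3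
    · right
      refine ⟨[], x, l, rfl, ?_, ?_⟩
      · intro z hz
        simp [mins] at hz
      · simp only [pos]
        linarith

private theorem hdet_ind_true {P : Prop} (h : P) : ind P = 1 := by
  unfold ind
  exact if_pos h

private theorem hdet_ind_false {P : Prop} (h : ¬ P) : ind P = 0 := by
  unfold ind
  exact if_neg h

/-- either the first excursion is not finished, or it is not good and the rest is not good -/
theorem not_hasGood_le (N : ℕ) (x : Pc) (l : List Pc) :
    ind (¬ HasGood N (x :: l)) ≤ ind (∀ z ∈ mins (pU x) l, 0 < z.1) +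
      ∑ j ∈ Finset.range l.length, ind (∃ (l2 : List Pc) (y : Pc) (l3 : List Pc),
        l = l2 ++ y :: l3 ∧ l2.length = j ∧ Exc (pU x) l2 (pD y) 0 ∧ ¬ GS N (pU x) l2 ∧
        ¬ HasGood N (y :: l3)) + ind (∃ (l2 : List Pc) (y : Pc) (l3 : List Pc),
        l = l2 ++ y :: l3 ∧ (∀ z ∈ mins (pU x) l2, 0 < z.1) ∧ pos (pU x) l2 = pD y) := by
  by_cases hg : HasGood N (x :: l)
  · rw [hdet_ind_false (not_not.2 hg)]
    exact zero_le
  rw [hdet_ind_true hg]
  rcases hdet_first l (pU x) with h | ⟨l2, y, l3, h1, h2, h3⟩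
  · rw [hdet_ind_true h, add_assoc]
    exact le_self_add
  rcases h3.lt_or_eq with h3 | h3
  · -- the excursion is finished
    have hE : Exc (pU x) l2 (pD y) 0 := ⟨h2, by linarith⟩
    have hG : ¬ GS N (pU x) l2 := by
      rintro ⟨t, h4, h5⟩
      refine hg ⟨[], x, l2, y, l3, t, ?_, hE, h4, h5⟩
      rw [List.nil_append, h1]
    have hR : ¬ HasGood N (y :: l3) := by
      rintro ⟨m1, x0, m2, y0, m3, t, h4, h5, h6, h7⟩
      refine hg ⟨x :: (l2 ++ m1), x0, m2, y0, m3, t, ?_, h5, h6, h7⟩
      rw [h1, h4, List.cons_append, List.append_assoc]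
    have hlen : l2.length < l.length := by
      rw [h1]
      simp
    have h8 : (1 : ℝ≥0∞) ≤ ∑ j ∈ Finset.range l.length,
        ind (∃ (l2 : List Pc) (y : Pc) (l3 : List Pc),
        l = l2 ++ y :: l3 ∧ l2.length = j ∧ Exc (pU x) l2 (pD y) 0 ∧ ¬ GS N (pU x) l2 ∧
        ¬ HasGood N (y :: l3)) := by
      refine le_trans (le_of_eq ?_) (Finset.single_le_sum (fun _ _ => zero_le)
        (Finset.mem_range.2 hlen))
      rw [hdet_ind_true]
      exact ⟨l2, y, l3, h1, rfl, hE, hG, hR⟩
    exact (h8.trans le_add_self).trans le_self_add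
  · refine le_trans (le_of_eq ?_) le_add_self
    rw [hdet_ind_true]
    exact ⟨l2, y, l3, h1, h2, h3⟩

end Pool.Agent.BSP
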