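import Pool.Agent.BSP.HDet
import Pool.Agent.BSP.FirstPass

set_option autoImplicit false

/-!
# Renewal inequality for the probability of `¬ HasGood`
-/

namespace Pool.Agent.BSP

open MeasureTheory ProbabilityTheory
open scoped ENNReal

/-- `P(¬ HasGood N)` for `n + 1` pieces -/
noncomputable def ngP (N : ℕ) (ρ : Measure Pc) (n : ℕ) : ℝ≥0∞ :=
  LI ρ (n + 1) (fun l => ind (¬ HasGood N l))

/-- probability that the first excursion ends in the piece `j` and is not good -/
noncomputable def nbP (N : ℕ) (θ : ℝ) (ρ : Measure Pc) (j : ℕ) : ℝ≥0∞ :=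
  gwInt θ ρ j (fun u l d => ind (Exc u l d 0 ∧ ¬ GS N u l))

/-! ### Indicators -/

private theorem hr_true {P : Prop} (h : P) : ind P = 1 := by
  unfold ind
  exact if_pos h

private theorem hr_false {P : Prop} (h : ¬ P) : ind P = 0 := by
  unfold ind
  exact if_neg h

private theorem hr_ind {δ : Type*} [MeasurableSpace δ] {P : δ → Prop} :
    Measurable (fun q => ind (P q)) ↔ MeasurableSet {q | P q} := by
  constructor
  · intro h
    have : {q | P q} = (fun q => ind (P q)) ⁻¹' {1} := by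
      ext q
      by_cases hq : P q <;> simp [ind, hq]
    rw [this]
    exact h (measurableSet_singleton 1)
  · intro h
    unfold ind
    classical
    exact Measurable.ite h measurable_const measurable_const

private theorem hr_not {δ : Type*} [MeasurableSpace δ] {P : δ → Prop}
    (h : Measurable (fun q => ind (P q))) : Measurable (fun q => ind (¬ P q)) :=
  hr_ind.2 (hr_ind.1 h).compl

private theorem hr_pD : Measurable pD := by unfold pD; fun_prop
private theorem hr_pU : Measurable pU := by unfold pU; fun_prop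

/-! ### Splitting a list at a given place -/

/-- indicator of a property of the parts of the list `l` around the item number `j` -/
private noncomputable def hsp (j : ℕ) (F : List Pc → Pc → List Pc → Prop) (l : List Pc) : ℝ≥0∞ :=
  ind (∃ (l2 : List Pc) (y : Pc) (l3 : List Pc), l = l2 ++ y :: l3 ∧ l2.length = j ∧ F l2 y l3)

private theorem hsp_app {j : ℕ} {F : List Pc → Pc → List Pc → Prop} {l2 : List Pc} {y : Pc}
    {l3 : List Pc} (h : l2.length = j) : hsp j F (l2 ++ y :: l3) = ind (F l2 y l3) := by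
  unfold hsp
  congr 1
  apply propext
  constructor
  · rintro ⟨a, b, c, h1, h2, h3⟩
    obtain ⟨h4, h5⟩ := List.append_inj h1 (by rw [h, h2])
    obtain ⟨h6, h7⟩ := List.cons.inj h5
    rw [h4, h6, h7]
    exact h3
  · intro h3
    exact ⟨l2, y, l3, rfl, h, h3⟩

private theorem hsp_short {j : ℕ} {F : List Pc → Pc → List Pc → Prop} {l : List Pc}
    (h : l.length ≤ j) : hsp j F l = 0 := by
  unfold hsp
  rw [hr_false]
  rintro ⟨a, b, c, h1, h2, _⟩
  rw [h1, List.length_append, List.length_cons] at h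
  omega

private theorem hr_split {α : Type*} {n : ℕ} (v : Fin n → α) (i : Fin n) :
    List.ofFn v = List.ofFn (fun j : Fin (i : ℕ) => v ⟨j, j.2.trans i.2⟩) ++
      v i :: List.ofFn (fun j : Fin (n - 1 - i) => v ⟨i + 1 + j, by omega⟩) := by
  apply List.ext_getElem
  · simp; omega
  · intro k h1 h2
    rw [List.getElem_append]
    simp only [List.length_ofFn, List.getElem_ofFn]
    split_ifs with h3
    · rfl
    · rw [List.getElem_cons]
      split_ifs with h4
      · congr 1
        ext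
        simp; omega
      · rw [List.getElem_ofFn]
        congr 1
        ext
        simp; omega

private theorem hsp_mf2 {γ : Type*} [MeasurableSpace γ] {F : γ → List Pc → Pc → List Pc → Prop}
    (h : ∀ a b, Measurable (fun q : γ × (Fin a → Pc) × Pc × (Fin b → Pc) =>
      ind (F q.1 (List.ofFn q.2.1) q.2.2.1 (List.ofFn q.2.2.2)))) (j : ℕ) :
    MF2 fun y l => hsp j (F y) l := by
  intro n
  by_cases hj : j < n
  · have h1 : (fun q : γ × (Fin n → Pc) => hsp j (F q.1) (List.ofFn q.2)) =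
        (fun q : γ × (Fin j → Pc) × Pc × (Fin (n - 1 - j) → Pc) =>
          ind (F q.1 (List.ofFn q.2.1) q.2.2.1 (List.ofFn q.2.2.2))) ∘
        fun q => (q.1, (fun i => q.2 ⟨i, i.2.trans hj⟩), q.2 ⟨j, hj⟩,
          fun i => q.2 ⟨j + 1 + i, by omega⟩) := by
      funext q
      simp only [Function.comp_apply]
      conv_lhs => rw [hr_split q.2 ⟨j, hj⟩]
      rw [hsp_app (by simp)]
    rw [h1]
    refine (h j (n - 1 - j)).comp ?_
    refine measurable_fst.prodMk (Measurable.prodMk ?_ (Measurable.prodMk ?_ ?_))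
    · exact measurable_pi_lambda _ fun i => (measurable_pi_apply _).comp measurable_snd
    · exact (measurable_pi_apply _).comp measurable_snd
    · exact measurable_pi_lambda _ fun i => (measurable_pi_apply _).comp measurable_snd
  · have h1 : (fun q : γ × (Fin n → Pc) => hsp j (F q.1) (List.ofFn q.2)) = fun _ => 0 := by
      funext q
      exact hsp_short (by simp; omega)
    rw [h1]
    exact measurable_const

private theorem hsp_LI (ρ : Measure Pc) (j m : ℕ) (F : List Pc → Pc → List Pc → Prop) :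
    LI ρ (j + (m + 1)) (hsp j F) =
      LI ρ j (fun l2 => ∫⁻ y, LI ρ m (fun l3 => ind (F l2 y l3)) ∂ρ) := by
  rw [LI_append]
  apply LI_congr
  intro l2 hl
  show ∫⁻ y, LI ρ m (fun l3 => hsp j F (l2 ++ y :: l3)) ∂ρ = _
  simp_rw [hsp_app hl]

private theorem hr_sum {ρ : Measure Pc} [SFinite ρ] {n : ℕ} (s : Finset ℕ)
    {F : ℕ → List Pc → ℝ≥0∞} (hF : ∀ j, MF (F j)) :
    LI ρ n (fun l => ∑ j ∈ s, F j l) = ∑ j ∈ s, LI ρ n (F j) := by
  induction s using Finset.induction_on with
  | empty =>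
    simp only [Finset.sum_empty]
    have h1 := LI_const_mul ρ (n := n) 0 (hF 0)
    simpa using h1
  | insert a s ha ih =>
    simp only [Finset.sum_insert ha]
    rw [LI_add ρ (hF a) (fun m => Finset.measurable_fun_sum s fun j _ => hF j m), ih]

variable {p g : ℝ} {θ : ℝ} {ρ : Measure Pc}

/-! ### The law of a piece -/

private theorem hr_DU (hθ : 0 < θ) (hρ : PLaw p g θ ρ) {f h : ℝ → ℝ≥0∞} (hf : Measurable f)
    (hh : Measurable h) : ∫⁻ y, f (pD y) * h (pU y) ∂ρ =
      (∫⁻ d, f d ∂(expMeasure θ)) * ∫⁻ u, h u ∂(expMeasure θ) := by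
  have : IsProbabilityMeasure (expMeasure θ) := isProbabilityMeasure_expMeasure hθ
  have h1 := lintegral_prod_mul (μ := expMeasure θ) (ν := expMeasure θ) hf.aemeasurable
    hh.aemeasurable
  rw [← h1, ← hρ.DU, lintegral_map]
  · exact (hf.comp measurable_fst).mul (hh.comp measurable_snd)
  · exact hr_pD.prodMk hr_pU

private theorem hr_U (hθ : 0 < θ) (hρ : PLaw p g θ ρ) {h : ℝ → ℝ≥0∞} (hh : Measurable h) :
    ∫⁻ y, h (pU y) ∂ρ = ∫⁻ u, h u ∂(expMeasure θ) := by
  have : IsProbabilityMeasure (expMeasure θ) := isProbabilityMeasure_expMeasure hθ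
  have h1 := hr_DU hθ hρ (f := fun _ => 1) measurable_const hh
  simpa using h1

private theorem hr_D (hθ : 0 < θ) (hρ : PLaw p g θ ρ) {f : ℝ → ℝ≥0∞} (hf : Measurable f) :
    ∫⁻ y, f (pD y) ∂ρ = ∫⁻ d, f d ∂(expMeasure θ) := by
  have : IsProbabilityMeasure (expMeasure θ) := isProbabilityMeasure_expMeasure hθ
  have h1 := hr_DU hθ hρ (h := fun _ => 1) hf measurable_const
  simpa using h1

private theorem hr_atom (θ c : ℝ) : ∫⁻ d, ind (c = d) ∂(expMeasure θ) = 0 := by
  have h1 : expMeasure θ {c} = 0 := by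
    have h2 : expMeasure θ ≪ volume := by
      unfold expMeasure gammaMeasure
      exact withDensity_absolutelyContinuous _ _
    exact h2 (by simp)
  have h3 : (fun d => ind (c = d)) = Set.indicator {c} (fun _ => (1 : ℝ≥0∞)) := by
    funext d
    by_cases hd : c = d
    · rw [hr_true hd, Set.indicator_of_mem (by simpa using hd.symm)]
    · rw [hr_false hd, Set.indicator_of_notMem (by simpa using fun h => hd h.symm)]
  rw [h3, lintegral_indicator (measurableSet_singleton c)]
  simp [h1]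

/-! ### The probability of `¬ HasGood` given the first height -/

/-- a piece with upward part `u` -/
private def ypc (u : ℝ) : Pc := (0, u, 0, false, false)

private theorem ypc_pU (u : ℝ) : pU (ypc u) = u := rfl

private theorem ypc_meas : Measurable ypc := by unfold ypc; fun_prop

private theorem hr_ng (N : ℕ) : MF fun l : List Pc => ind (¬ HasGood N l) :=
  fun n => hr_not (meas_hasGood N n)

private theorem hr_ngc (N : ℕ) : MF2 fun (x : Pc) (l : List Pc) => ind (¬ HasGood N (x :: l)) := by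
  have h1 : MF2 fun (q : Unit × Pc) l => ind (¬ HasGood N (q.2 :: l)) :=
    ((hr_ng N).mf2 (γ := Unit)).cons
  exact h1.comp_left (k := fun x => ((), x)) (measurable_const.prodMk measurable_id)

private noncomputable def hgu (N : ℕ) (ρ : Measure Pc) (n : ℕ) (u : ℝ) : ℝ≥0∞ :=
  LI ρ n (fun l => ind (¬ HasGood N (ypc u :: l)))

private theorem hgu_meas (N : ℕ) (ρ : Measure Pc) [SFinite ρ] (n : ℕ) :
    Measurable (hgu N ρ n) :=
  MF2.meas_LI ρ ((hr_ngc N).comp_left (k := ypc) ypc_meas) n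

private theorem hgu_eq (N : ℕ) (ρ : Measure Pc) (n : ℕ) (x : Pc) :
    LI ρ n (fun l => ind (¬ HasGood N (x :: l))) = hgu N ρ n (pU x) := by
  unfold hgu
  apply LI_congr
  intro l _
  rw [hasGood_congr N (show pU x = pU (ypc (pU x)) from rfl) l]

private theorem hr_ngP (N : ℕ) (hθ : 0 < θ) (hρ : PLaw p g θ ρ) (n : ℕ) :
    ngP N ρ n = ∫⁻ u, hgu N ρ n u ∂(expMeasure θ) := by
  have := hρ.prob
  rw [← hr_U hθ hρ (hgu_meas N ρ n)]
  unfold ngP
  show ∫⁻ x, LI ρ n (fun l => ind (¬ HasGood N (x :: l))) ∂ρ = _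
  simp_rw [hgu_eq]

/-! ### The terms of the bound -/

private def evE (N : ℕ) (u : ℝ) (l2 : List Pc) (y : Pc) (l3 : List Pc) : Prop :=
  Exc u l2 (pD y) 0 ∧ ¬ GS N u l2 ∧ ¬ HasGood N (y :: l3)

private def evZ (u : ℝ) (l2 : List Pc) (y : Pc) (_l3 : List Pc) : Prop :=
  pos u l2 = pD y

private theorem evE_ind (N : ℕ) (u : ℝ) (l2 : List Pc) (y : Pc) (l3 : List Pc) :
    ind (evE N u l2 y l3) =
      ind (Exc u l2 (pD y) 0 ∧ ¬ GS N u l2) * ind (¬ HasGood N (y :: l3)) := by
  rw [← ind_and]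
  congr 1
  unfold evE
  rw [and_assoc]

private theorem evE_mf2 (N j : ℕ) : MF2 fun u l => hsp j (evE N u) l := by
  refine hsp_mf2 (fun a b => ?_) j
  simp only [evE_ind]
  refine Measurable.mul ?_ ?_
  · have h1 : Measurable fun q : ℝ × (Fin a → Pc) × Pc × (Fin b → Pc) =>
        ((q.1, pD q.2.2.1, (0 : ℝ)), q.2.1) :=
      (measurable_fst.prodMk ((hr_pD.comp (measurable_fst.comp
        (measurable_snd.comp measurable_snd))).prodMk measurable_const)).prodMk
        (measurable_fst.comp measurable_snd)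
    exact ((meas_GS N) a).comp h1
  · exact (hr_ngc N b).comp ((measurable_fst.comp (measurable_snd.comp measurable_snd)).prodMk
      (measurable_snd.comp (measurable_snd.comp measurable_snd)))

private theorem evZ_mf2 (j : ℕ) : MF2 fun u l => hsp j (evZ u) l := by
  refine hsp_mf2 (fun a b => ?_) j
  refine hr_ind.2 (measurableSet_eq_fun ?_ ?_)
  · exact (meas_pos a).comp (measurable_fst.prodMk (measurable_fst.comp measurable_snd))
  · exact hr_pD.comp (measurable_fst.comp (measurable_snd.comp measurable_snd))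

private theorem evE_val (N : ℕ) (hθ : 0 < θ) (hρ : PLaw p g θ ρ) (j m : ℕ) (u : ℝ) :
    LI ρ (j + (m + 1)) (hsp j (evE N u)) =
      ngP N ρ m * LI ρ j (fun l2 => ∫⁻ d, ind (Exc u l2 d 0 ∧ ¬ GS N u l2) ∂(expMeasure θ)) := by
  have := hρ.prob
  have : IsProbabilityMeasure (expMeasure θ) := isProbabilityMeasure_expMeasure hθ
  have hm : MF2 fun (q : ℝ × ℝ) l => ind (Exc q.1 l q.2 0 ∧ ¬ GS N q.1 l) :=
    (meas_GS N).comp_left (k := fun q : ℝ × ℝ => (q.1, q.2, (0 : ℝ)))
      (measurable_fst.prodMk (measurable_snd.prodMk measurable_const))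
  rw [hsp_LI]
  have h1 : ∀ l2 : List Pc, ∫⁻ y, LI ρ m (fun l3 => ind (evE N u l2 y l3)) ∂ρ =
      ngP N ρ m * ∫⁻ d, ind (Exc u l2 d 0 ∧ ¬ GS N u l2) ∂(expMeasure θ) := by
    intro l2
    have hmd : Measurable fun d : ℝ => ind (Exc u l2 d 0 ∧ ¬ GS N u l2) := by
      have h2 : Measurable (fun d : ℝ => ind (Exc u (List.ofFn l2.get) d 0 ∧
          ¬ GS N u (List.ofFn l2.get))) :=
        (hm l2.length).comp ((measurable_const.prodMk measurable_id).prodMk measurable_const)
      rw [List.ofFn_get] at h2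
      exact h2
    have h3 : ∀ y : Pc, LI ρ m (fun l3 => ind (evE N u l2 y l3)) =
        ind (Exc u l2 (pD y) 0 ∧ ¬ GS N u l2) * hgu N ρ m (pU y) := by
      intro y
      simp only [evE_ind]
      rw [LI_const_mul ρ _ ((hr_ngc N).mf y), hgu_eq]
    simp_rw [h3]
    rw [hr_DU hθ hρ hmd (hgu_meas N ρ m), hr_ngP N hθ hρ m, mul_comm]
  simp_rw [h1]
  apply LI_const_mul
  intro k
  have h4 : Measurable (fun r : (Fin k → Pc) × ℝ => ind (Exc u (List.ofFn r.1) r.2 0 ∧
      ¬ GS N u (List.ofFn r.1))) :=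
    (hm k).comp ((measurable_const.prodMk measurable_snd).prodMk measurable_fst)
  exact h4.lintegral_prod_right'

private theorem evZ_val (hθ : 0 < θ) (hρ : PLaw p g θ ρ) (j m : ℕ) (u : ℝ) :
    LI ρ (j + (m + 1)) (hsp j (evZ u)) = 0 := by
  have := hρ.prob
  rw [hsp_LI]
  have h1 : ∀ l2 : List Pc, ∫⁻ y, LI ρ m (fun l3 => ind (evZ u l2 y l3)) ∂ρ = 0 := by
    intro l2
    have h3 : ∀ y : Pc, LI ρ m (fun l3 => ind (evZ u l2 y l3)) = ind (pos u l2 = pD y) :=
      fun y => LI_const ρ m (ind (pos u l2 = pD y))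
    simp_rw [h3]
    rw [hr_D hθ hρ (f := fun d => ind (pos u l2 = d))
      (hr_ind.2 (measurableSet_eq_fun measurable_const measurable_id))]
    exact hr_atom θ _
  simp_rw [h1]
  exact LI_const ρ j 0

private theorem hr_bound (N : ℕ) (x : Pc) (l : List Pc) (n : ℕ) (hl : l.length = n) :
    ind (¬ HasGood N (x :: l)) ≤ ind (∀ z ∈ mins (pU x) l, 0 < z.1) +
      (∑ j ∈ Finset.range n, hsp j (evE N (pU x)) l +
        ∑ j ∈ Finset.range n, hsp j (evZ (pU x)) l) := by
  refine (not_hasGood_le N x l).trans ?_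
  rw [hl, add_assoc]
  refine add_le_add le_rfl (add_le_add le_rfl ?_)
  by_cases h : ∃ (l2 : List Pc) (y : Pc) (l3 : List Pc), l = l2 ++ y :: l3 ∧
      (∀ z ∈ mins (pU x) l2, 0 < z.1) ∧ pos (pU x) l2 = pD y
  · rw [hr_true h]
    obtain ⟨l2, y, l3, h1, _, h3⟩ := h
    have h4 : l2.length ∈ Finset.range n := by
      rw [Finset.mem_range, ← hl, h1, List.length_append, List.length_cons]
      omega
    refine le_trans ?_ (Finset.single_le_sum (fun _ _ => zero_le) h4)
    unfold hsp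
    rw [hr_true ⟨l2, y, l3, h1, rfl, h3⟩]
  · rw [hr_false h]
    exact zero_le

theorem ngP_le (N : ℕ) (hθ : 0 < θ) (hρ : PLaw p g θ ρ) (n : ℕ) :
    ngP N ρ n ≤ surv θ ρ n + ∑ j ∈ Finset.range n, nbP N θ ρ j * ngP N ρ (n - 1 - j) := by
  have := hρ.prob
  have : IsProbabilityMeasure (expMeasure θ) := isProbabilityMeasure_expMeasure hθ
  have hm0 : MF2 fun (u : ℝ) l => ind (∀ z ∈ mins u l, 0 < z.1) :=
    meas_above.comp_left (k := fun u : ℝ => (u, (0 : ℝ))) (measurable_id.prodMk measurable_const)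
  have hmE : MF2 fun (u : ℝ) l => ∑ j ∈ Finset.range n, hsp j (evE N u) l :=
    fun m => Finset.measurable_fun_sum _ fun j _ => evE_mf2 N j m
  have hmZ : MF2 fun (u : ℝ) l => ∑ j ∈ Finset.range n, hsp j (evZ u) l :=
    fun m => Finset.measurable_fun_sum _ fun j _ => evZ_mf2 j m
  have hmEZ : MF2 fun (u : ℝ) l => ∑ j ∈ Finset.range n, hsp j (evE N u) l +
      ∑ j ∈ Finset.range n, hsp j (evZ u) l := fun m => (hmE m).add (hmZ m)
  have hmB : MF2 fun (u : ℝ) l => ind (∀ z ∈ mins u l, 0 < z.1) +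
      (∑ j ∈ Finset.range n, hsp j (evE N u) l + ∑ j ∈ Finset.range n, hsp j (evZ u) l) :=
    fun m => (hm0 m).add (hmEZ m)
  have h1 : ngP N ρ n ≤ ∫⁻ u, LI ρ n (fun l => ind (∀ z ∈ mins u l, 0 < z.1) +
      (∑ j ∈ Finset.range n, hsp j (evE N u) l + ∑ j ∈ Finset.range n, hsp j (evZ u) l))
        ∂(expMeasure θ) := by
    rw [← hr_U hθ hρ (MF2.meas_LI ρ hmB n)]
    unfold ngP
    show ∫⁻ x, LI ρ n (fun l => ind (¬ HasGood N (x :: l))) ∂ρ ≤ _
    apply lintegral_mono
    intro x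
    apply LI_mono
    intro l hl
    exact hr_bound N x l n hl
  refine h1.trans (le_of_eq ?_)
  have h2 : ∀ u : ℝ, LI ρ n (fun l => ind (∀ z ∈ mins u l, 0 < z.1) +
      (∑ j ∈ Finset.range n, hsp j (evE N u) l + ∑ j ∈ Finset.range n, hsp j (evZ u) l)) =
      LI ρ n (fun l => ind (∀ z ∈ mins u l, 0 < z.1)) +
        ∑ j ∈ Finset.range n, LI ρ n (hsp j (evE N u)) := by
    intro u
    rw [LI_add ρ (hm0.mf u) (hmEZ.mf u), LI_add ρ (hmE.mf u) (hmZ.mf u),
      hr_sum _ (fun j => (evE_mf2 N j).mf u), hr_sum _ (fun j => (evZ_mf2 j).mf u)]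
    have h3 : ∑ j ∈ Finset.range n, LI ρ n (hsp j (evZ u)) = 0 := by
      apply Finset.sum_eq_zero
      intro j hj
      rw [Finset.mem_range] at hj
      have h4 := evZ_val hθ hρ j (n - 1 - j) u
      rwa [show j + (n - 1 - j + 1) = n by omega] at h4
    rw [h3, add_zero]
  simp_rw [h2]
  rw [lintegral_add_left (MF2.meas_LI ρ hm0 n)]
  congr 1
  rw [lintegral_finsetSum _ (fun j _ => MF2.meas_LI ρ (evE_mf2 N j) n)]
  apply Finset.sum_congr rfl
  intro j hj
  rw [Finset.mem_range] at hj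
  have h5 : ∀ u, LI ρ n (hsp j (evE N u)) = ngP N ρ (n - 1 - j) *
      LI ρ j (fun l2 => ∫⁻ d, ind (Exc u l2 d 0 ∧ ¬ GS N u l2) ∂(expMeasure θ)) := by
    intro u
    have h6 := evE_val N hθ hρ j (n - 1 - j) u
    rwa [show j + (n - 1 - j + 1) = n by omega] at h6
  simp_rw [h5]
  rw [lintegral_const_mul, mul_comm]
  · rfl
  · refine MF2.meas_LI ρ (F := fun u l2 => ∫⁻ d, ind (Exc u l2 d 0 ∧ ¬ GS N u l2)
      ∂(expMeasure θ)) ?_ j
    intro k
    have h7 : Measurable (fun r : (ℝ × (Fin k → Pc)) × ℝ => ind (Exc r.1.1 (List.ofFn r.1.2) r.2 0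
        ∧ ¬ GS N r.1.1 (List.ofFn r.1.2))) :=
      ((meas_GS N) k).comp (((measurable_fst.comp measurable_fst).prodMk
        (measurable_snd.prodMk measurable_const)).prodMk (measurable_snd.comp measurable_fst))
    exact h7.lintegral_prod_right'

/-! ### Summation -/

private theorem hr_tail (f : ℕ → ℝ≥0∞) (j : ℕ) :
    ∑' n : ℕ, (if j < n then f n else 0) = ∑' m : ℕ, f (j + 1 + m) := by
  rw [← Summable.sum_add_tsum_nat_add' (k := j + 1)
    (f := fun n => if j < n then f n else 0) ENNReal.summable]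
  rw [Finset.sum_eq_zero, zero_add]
  · congr 1
    funext m
    rw [if_pos (by omega)]
    congr 1
    omega
  · intro n hn
    rw [Finset.mem_range] at hn
    exact if_neg (by omega)

private theorem hr_cauchy (a b c r : ℕ → ℝ≥0∞) (h : ∀ j m, a (j + 1 + m) = r j * a m) :
    ∑' n : ℕ, a n * ∑ j ∈ Finset.range n, b j * c (n - 1 - j) =
      (∑' j : ℕ, r j * b j) * ∑' m : ℕ, a m * c m := by
  have h1 : ∀ n : ℕ, a n * ∑ j ∈ Finset.range n, b j * c (n - 1 - j) =
      ∑' j : ℕ, if j < n then a n * (b j * c (n - 1 - j)) else 0 := by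
    intro n
    rw [Finset.mul_sum, tsum_eq_sum (s := Finset.range n)]
    · apply Finset.sum_congr rfl
      intro j hj
      rw [if_pos (Finset.mem_range.1 hj)]
    · intro j hj
      rw [Finset.mem_range] at hj
      exact if_neg hj
  simp_rw [h1]
  rw [ENNReal.tsum_comm, ← ENNReal.tsum_mul_right]
  congr 1
  funext j
  rw [hr_tail (fun n => a n * (b j * c (n - 1 - j))) j, ← ENNReal.tsum_mul_left]
  congr 1
  funext m
  rw [h, show j + 1 + m - 1 - j = m by omega]
  ring

/-- sum over a geometric number of pieces -/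
theorem ngP_sum (N : ℕ) (hθ : 0 < θ) (hρ : PLaw p g θ ρ) {κ : ℝ} (hκ0 : 0 < κ) (hκ1 : κ ≤ 1) :
    ∑' n : ℕ, ENNReal.ofReal (κ * (1 - κ) ^ n) * ngP N ρ n ≤
      ∑' n : ℕ, ENNReal.ofReal (κ * (1 - κ) ^ n) * surv θ ρ n +
      (∑' j : ℕ, ENNReal.ofReal ((1 - κ) ^ (j + 1)) * nbP N θ ρ j) *
        ∑' n : ℕ, ENNReal.ofReal (κ * (1 - κ) ^ n) * ngP N ρ n := by
  have hk : 0 ≤ 1 - κ := by linarith
  rw [← hr_cauchy (fun n => ENNReal.ofReal (κ * (1 - κ) ^ n)) (nbP N θ ρ) (ngP N ρ)
    (fun j => ENNReal.ofReal ((1 - κ) ^ (j + 1)))]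
  · rw [← ENNReal.tsum_add]
    apply ENNReal.tsum_le_tsum
    intro n
    rw [← mul_add]
    exact mul_le_mul_right (ngP_le N hθ hρ n) _
  · intro j m
    rw [← ENNReal.ofReal_mul (pow_nonneg hk _)]
    congr 1
    ring

end Pool.Agent.BSP
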