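import Pool.Agent.BSP.Tree

set_option autoImplicit false

/-!
# Marked cherries in increasing position
-/

namespace Pool.Agent.BSP

/-- auxiliary form with a function on the natural numbers -/
def ExtGX (L : List It) (n : ℕ) (f : ℕ → ℕ) : Prop :=
  (∀ i < n, ∃ z, L[f i]? = some z ∧ z.2.2 = true) ∧
    ∀ i j, i < j → j < n → f i < f j ∧ ∃ k z, f i < k ∧ k < f j ∧ L[k]? = some z ∧ z.2.1 = true ∧
      ∀ (k' : ℕ) (z' : It), f i ≤ k' → k' ≤ f j → k' ≠ k → L[k']? = some z' → z.1 < z'.1

theorem extGX_lt {L : List It} {n : ℕ} {f : ℕ → ℕ} (h : ExtGX L n f) {i : ℕ} (hi : i < n) :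
    f i < L.length := by
  obtain ⟨z, hz, _⟩ := h.1 i hi
  exact (List.getElem?_eq_some_iff.mp hz).1

theorem extGX_append_left {L L' : List It} {n : ℕ} {f : ℕ → ℕ} (h : ExtGX L n f) :
    ExtGX (L ++ L') n f := by
  refine ⟨fun i hi => ?_, fun i j hij hj => ?_⟩
  · obtain ⟨z, hz, hz'⟩ := h.1 i hi
    exact ⟨z, by rw [List.getElem?_append_left (extGX_lt h hi), hz], hz'⟩
  · have hjl := extGX_lt h hj
    obtain ⟨h1, k, z, h2, h3, h4, h5, h6⟩ := h.2 i j hij hj
    refine ⟨h1, k, z, h2, h3, ?_, h5, ?_⟩
    · rw [List.getElem?_append_left (by omega), h4]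
    · intro k' z' a b c d
      rw [List.getElem?_append_left (by omega)] at d
      exact h6 k' z' a b c d

theorem extGX_append_right {L L' : List It} {n : ℕ} {f : ℕ → ℕ} (h : ExtGX L n f) :
    ExtGX (L' ++ L) n fun i => L'.length + f i := by
  have key : ∀ k, (L' ++ L)[L'.length + k]? = L[k]? := fun k => by
    rw [List.getElem?_append_right (by omega)]
    congr 1
    omega
  refine ⟨fun i hi => ?_, fun i j hij hj => ?_⟩
  · obtain ⟨z, hz, hz'⟩ := h.1 i hi
    exact ⟨z, by rw [key, hz], hz'⟩
  · obtain ⟨h1, k, z, h2, h3, h4, h5, h6⟩ := h.2 i j hij hj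
    beta_reduce
    refine ⟨by omega, L'.length + k, z, by omega, by omega, ?_, h5, ?_⟩
    · rw [key, h4]
    · intro k' z' a b c d
      obtain ⟨k'', rfl⟩ : ∃ k'', k' = L'.length + k'' := ⟨k' - L'.length, by omega⟩
      rw [key] at d
      exact h6 k'' z' (by omega) (by omega) (by omega) d

theorem extGX_mono {L : List It} {n n' : ℕ} {f : ℕ → ℕ} (h : ExtGX L n f) (hn : n' ≤ n) :
    ExtGX L n' f :=
  ⟨fun i hi => h.1 i (by omega), fun i j hij hj => h.2 i j hij (by omega)⟩

theorem extGX_node {L1 L2 : List It} {m : ℝ} {x : Bool} {a b : ℕ} {f g : ℕ → ℕ}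
    (h1 : ∀ z ∈ L1, m < z.1) (h2 : ∀ z ∈ L2, m < z.1) (hf : ExtGX L1 a f) (hg : ExtGX L2 b g) :
    ExtGX (L1 ++ (m, true, x) :: L2) (a + b)
      fun i => if i < a then f i else L1.length + 1 + g (i - a) := by
  have hf' : ExtGX (L1 ++ (m, true, x) :: L2) a f := extGX_append_left hf
  have hg' : ExtGX (L1 ++ (m, true, x) :: L2) b fun i => L1.length + 1 + g i := by
    have := extGX_append_right (L' := L1 ++ [(m, true, x)]) hg
    simpa using this
  refine ⟨fun i hi => ?_, fun i j hij hj => ?_⟩
  · by_cases hia : i < a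
    · simpa [hia] using hf'.1 i hia
    · have := hg'.1 (i - a) (by omega)
      simpa [hia] using this
  · by_cases hja : j < a
    · have hia : i < a := by omega
      simpa only [hia, hja, if_true] using hf'.2 i j hij hja
    · by_cases hia : i < a
      · simp only [hia, hja, if_true, if_false]
        have hl := extGX_lt hf hia
        refine ⟨by omega, L1.length, (m, true, x), hl, by omega, ?_, rfl, ?_⟩
        · rw [List.getElem?_append_right le_rfl]
          simp
        · intro k' z' _ _ hk hz
          rcases lt_or_ge k' L1.length with hlt | hge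
          · rw [List.getElem?_append_left hlt] at hz
            exact h1 z' (List.mem_of_getElem? hz)
          · rw [List.getElem?_append_right hge] at hz
            obtain ⟨d, hd⟩ : ∃ d, k' - L1.length = d + 1 := ⟨k' - L1.length - 1, by omega⟩
            rw [hd, List.getElem?_cons_succ] at hz
            exact h2 z' (List.mem_of_getElem? hz)
      · simpa only [hia, hja, if_false] using hg'.2 (i - a) (j - a) (by omega) (by omega)

theorem extGX_exists {t : Tr} {L : List It} (h : HasShape t L) : ∃ f, ExtGX L t.valX f := by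
  induction t generalizing L with
  | leaf => exact ⟨fun _ => 0, fun i hi => absurd hi (Nat.not_lt_zero i), fun i j _ hj =>
      absurd hj (Nat.not_lt_zero j)⟩
  | cherry s x =>
    obtain ⟨m, rfl⟩ := h
    refine ⟨fun _ => 0, fun i hi => ?_, fun i j hij hj => ?_⟩
    · cases x with
      | false => exact absurd hi (Nat.not_lt_zero i)
      | true => exact ⟨(m, s, true), rfl, rfl⟩
    · exfalso
      cases x with
      | false => exact absurd hj (Nat.not_lt_zero j)
      | true =>
        have : j < 1 := hj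
        omega
  | node s l r ihl ihr =>
    obtain ⟨_, L1, m, x, L2, rfl, h1, h2, hl, hr⟩ := h
    obtain ⟨f, hf⟩ := ihl hl
    obtain ⟨g, hg⟩ := ihr hr
    cases s with
    | true =>
      exact ⟨fun i => if i < l.valX then f i else L1.length + 1 + g (i - l.valX),
        extGX_node (x := x) h1 h2 hf hg⟩
    | false =>
      have hv : Tr.valX (.node false l r) = max l.valX r.valX := rfl
      rw [hv]
      rcases le_total l.valX r.valX with hle | hle
      · rw [max_eq_right hle]
        refine ⟨fun i => (L1 ++ [(m, false, x)]).length + g i, ?_⟩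
        have := extGX_append_right (L' := L1 ++ [(m, false, x)]) hg
        rw [List.append_assoc] at this
        exact this
      · rw [max_eq_left hle]
        exact ⟨f, extGX_append_left hf⟩

/-- a list with `valX` equal to `n` contains `n` marked items, between any two of them there is an
item with sign `⊕` which is lower than all other items from the first to the second one -/
theorem extract {t : Tr} {L : List It} (h : HasShape t L) : ∃ f : Fin t.valX → ℕ,
    (∀ i, ∃ z, L[f i]? = some z ∧ z.2.2 = true) ∧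
    ∀ i j, i < j → f i < f j ∧ ∃ k z, f i < k ∧ k < f j ∧ L[k]? = some z ∧ z.2.1 = true ∧
      ∀ (k' : ℕ) (z' : It), f i ≤ k' → k' ≤ f j → k' ≠ k → L[k']? = some z' → z.1 < z'.1 := by
  obtain ⟨f, hf⟩ := extGX_exists h
  exact ⟨fun i => f i, fun i => hf.1 i i.2, fun i j hij => hf.2 i j hij j.2⟩

/-- the same for a number which is at most `valX` -/
theorem extract_le {t : Tr} {L : List It} (h : HasShape t L) {N : ℕ} (hN : N ≤ t.valX) :
    ∃ f : Fin N → ℕ, (∀ i, ∃ z, L[f i]? = some z ∧ z.2.2 = true) ∧
    ∀ i j, i < j → f i < f j ∧ ∃ k z, f i < k ∧ k < f j ∧ L[k]? = some z ∧ z.2.1 = true ∧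
      ∀ (k' : ℕ) (z' : It), f i ≤ k' → k' ≤ f j → k' ≠ k → L[k']? = some z' → z.1 < z'.1 := by
  obtain ⟨f, hf⟩ := extGX_exists h
  have hf' := extGX_mono hf hN
  exact ⟨fun i => f i, fun i => hf'.1 i i.2, fun i j hij => hf'.2 i j hij j.2⟩

end Pool.Agent.BSP
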