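import Pool.Agent.BSP.LPat
import Pool.Agent.BSP.LExtract
import Pool.Agent.BSP.GenDefs
import Pool.Agent.BSP.DDefs

set_option autoImplicit false

/-!
# The marks of the pieces of level `k` are correct
-/

namespace Pool.Agent.BSP

open MeasureTheory ProbabilityTheory Set Filter
open scoped ENNReal NNReal Topology

/-- all pieces are nondegenerate -/
def Nondeg (W : ℝ → ℝ) (a : ℝ) (v : List ℝ) : Prop :=
  ∀ (v1 : List ℝ) (τ : ℝ) (v2 : List ℝ), v = v1 ++ τ :: v2 →
    0 < τ ∧ 0 < dW W (a + v1.sum) τ ∧ 0 < uW W (a + v1.sum) τ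

private theorem Nondeg.tail {W : ℝ → ℝ} {a τ : ℝ} {v : List ℝ} (h : Nondeg W a (τ :: v)) :
    Nondeg W (a + τ) v := by
  intro v1 σ v2 hv
  have := h (τ :: v1) σ v2 (by simp [hv])
  simpa [add_assoc] using this

private theorem Nondeg.head {W : ℝ → ℝ} {a τ : ℝ} {v : List ℝ} (h : Nondeg W a (τ :: v)) :
    0 < τ ∧ 0 < dW W a τ ∧ 0 < uW W a τ := by
  simpa using h [] τ v rfl

private theorem Nondeg.cons {W : ℝ → ℝ} {a τ : ℝ} {v : List ℝ} (h1 : 0 < τ) (h2 : 0 < dW W a τ)
    (h3 : 0 < uW W a τ) (h : Nondeg W (a + τ) v) : Nondeg W a (τ :: v) := by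
  intro v1 σ v2 hv
  cases v1 with
  | nil =>
    simp only [List.nil_append, List.cons.injEq] at hv
    obtain ⟨rfl, rfl⟩ := hv
    simpa using ⟨h1, h2, h3⟩
  | cons y v1 =>
    simp only [List.cons_append, List.cons.injEq] at hv
    obtain ⟨rfl, hv⟩ := hv
    have := h v1 σ v2 hv
    simpa [add_assoc] using this

private theorem Nondeg.nonneg {W : ℝ → ℝ} : ∀ {v : List ℝ} {a : ℝ}, Nondeg W a v → ∀ τ ∈ v, 0 ≤ τ
  | [], _, _ => by simp
  | τ :: v, a, h => by
    intro σ hσ
    simp only [List.mem_cons] at hσ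
    rcases hσ with rfl | hσ
    · exact h.head.1.le
    · exact Nondeg.nonneg h.tail σ hσ

private theorem Nondeg.left {W : ℝ → ℝ} {a : ℝ} {v v' : List ℝ} (h : Nondeg W a (v ++ v')) :
    Nondeg W a v := by
  intro v1 σ v2 hv
  exact h v1 σ (v2 ++ v') (by simp [hv])

private theorem Nondeg.right {W : ℝ → ℝ} {a : ℝ} {v v' : List ℝ} (h : Nondeg W a (v ++ v')) :
    Nondeg W (a + v.sum) v' := by
  intro v1 σ v2 hv
  have := h (v ++ v1) σ v2 (by simp [hv])
  simpa [add_assoc] using this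

private theorem sum_nonneg' {v : List ℝ} (h : ∀ τ ∈ v, 0 ≤ τ) : 0 ≤ v.sum :=
  List.sum_nonneg h

private theorem uW_add {W : ℝ → ℝ} (hW : Continuous W) {a σ τ : ℝ} (hσ : 0 ≤ σ) (hτ : 0 ≤ τ) :
    uW W a (σ + τ) = max (uW W a σ + (W (a + (σ + τ)) - W (a + σ))) (uW W (a + σ) τ) := by
  unfold uW
  rw [mn_add hW hσ hτ]
  rcases le_total (mn W a σ) (mn W (a + σ) τ) with h | h
  · rw [min_eq_left h, max_eq_left]
    · ring
    · rw [show a + (σ + τ) = a + σ + τ by ring]; linarith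
  · rw [min_eq_right h, max_eq_right]
    · rw [show a + (σ + τ) = a + σ + τ by ring]
    · rw [show a + (σ + τ) = a + σ + τ by ring]; linarith

theorem nondeg_dW {W : ℝ → ℝ} (h : GenPath W) {a : ℝ} (ha : 0 ≤ a) {v : List ℝ} (hv : v ≠ [])
    (hn : Nondeg W a v) : 0 < v.sum ∧ 0 < dW W a v.sum ∧ 0 < uW W a v.sum := by
  induction v generalizing a with
  | nil => exact absurd rfl hv
  | cons τ v ih =>
    have h0 := hn.head
    rcases eq_or_ne v [] with rfl | hne
    · simpa using h0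
    · have h1 := ih (by linarith [h0.1]) hne hn.tail
      have hnn : 0 ≤ v.sum := h1.1.le
      rw [List.sum_cons]
      refine ⟨by linarith [h0.1], ?_, ?_⟩
      · rw [dW_add h.cont h0.1.le hnn]
        exact lt_max_of_lt_left h0.2.1
      · rw [uW_add h.cont h0.1.le hnn]
        exact lt_max_of_lt_right h1.2.2

/-- the list of pieces `L` represents the pieces of `W` -/
private def RepI (W : ℝ → ℝ) (s : ℝ → Bool) (I : ℝ → ℝ → Prop) : ℝ → List ℝ → List Pc → Prop
  | _, [], L => L = []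
  | a, τ :: v, L => ∃ (x : Pc) (L' : List Pc), L = x :: L' ∧ 0 < τ ∧ 0 < dW W a τ ∧ 0 < uW W a τ ∧
      pD x = dW W a τ ∧ pU x = uW W a τ ∧ pT x = τ ∧ pS x = s (am W a τ) ∧
      (pX x = true → I a (a + τ)) ∧ RepI W s I (a + τ) v L'

private theorem RepI.nondeg {W : ℝ → ℝ} {s : ℝ → Bool} {I : ℝ → ℝ → Prop} :
    ∀ {v : List ℝ} {a : ℝ} {L : List Pc}, RepI W s I a v L → Nondeg W a v
  | [], a, L, _ => by intro v1 τ v2 h; simp at h
  | τ :: v, a, L, h => by
    obtain ⟨x, L', _, h1, h2, h3, _, _, _, _, _, h4⟩ := h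
    exact Nondeg.cons h1 h2 h3 (RepI.nondeg h4)

private theorem RepI.length {W : ℝ → ℝ} {s : ℝ → Bool} {I : ℝ → ℝ → Prop} :
    ∀ {v : List ℝ} {a : ℝ} {L : List Pc}, RepI W s I a v L → L.length = v.length
  | [], a, L, h => by have : L = [] := h; simp [this]
  | τ :: v, a, L, h => by
    obtain ⟨x, L', rfl, _, _, _, _, _, _, _, _, h4⟩ := h
    simp [RepI.length h4]

private theorem RepI.get {W : ℝ → ℝ} {s : ℝ → Bool} {I : ℝ → ℝ → Prop} :
    ∀ {v1 : List ℝ} {τ : ℝ} {v2 : List ℝ} {a : ℝ} {L : List Pc}, RepI W s I a (v1 ++ τ :: v2) L →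
    ∃ x : Pc, L[v1.length]? = some x ∧ pD x = dW W (a + v1.sum) τ ∧ pU x = uW W (a + v1.sum) τ ∧
      pT x = τ ∧ pS x = s (am W (a + v1.sum) τ) ∧
      (pX x = true → I (a + v1.sum) (a + v1.sum + τ))
  | [], τ, v2, a, L, h => by
    obtain ⟨x, L', rfl, _, _, _, h1, h2, h3, h4, h5, _⟩ := h
    exact ⟨x, by simp, by simpa using h1, by simpa using h2, h3, by simpa using h4,
      by simpa using h5⟩
  | σ :: v1, τ, v2, a, L, h => by
    obtain ⟨x, L', rfl, _, _, _, h1, h2, h3, h4, h5, h6⟩ := h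
    obtain ⟨y, hy⟩ := RepI.get (v1 := v1) (τ := τ) (v2 := v2) h6
    refine ⟨y, ?_⟩
    simpa [add_assoc] using hy

private theorem RepI.ne {W : ℝ → ℝ} {s : ℝ → Bool} {I : ℝ → ℝ → Prop} {a τ : ℝ} {v : List ℝ}
    {L : List Pc} (h : RepI W s I a (τ :: v) L) : L ≠ [] := by
  obtain ⟨x, L', rfl, _⟩ := h
  simp

private theorem RepI.cat {W : ℝ → ℝ} (hW : Continuous W) {s : ℝ → Bool} {I : ℝ → ℝ → Prop} :
    ∀ {v : List ℝ} {a : ℝ} {L : List Pc}, v ≠ [] → RepI W s I a v L →
    dn L = dW W a v.sum ∧ up L = uW W a v.sum ∧ dur L = v.sum ∧ sg L = s (am W a v.sum) ∧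
      tot L = W (a + v.sum) - W a
  | [], a, L, hv, _ => absurd rfl hv
  | [τ], a, L, _, h => by
    obtain ⟨x, L', rfl, _, _, _, h1, h2, h3, h4, _, h5⟩ := h
    have : L' = [] := h5
    subst this
    simp only [dn, up, dur, sg, tot, List.sum_cons, List.sum_nil, add_zero]
    refine ⟨h1, h2, h3, h4, ?_⟩
    rw [h1, h2]; unfold dW uW; ring
  | τ :: σ :: v, a, L, _, h => by
    have hnd := h.nondeg
    obtain ⟨x, L', rfl, h0, _, _, h1, h2, h3, h4, _, h5⟩ := h
    have ih := RepI.cat hW (by simp) h5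
    have hnn : 0 ≤ (σ :: v).sum := sum_nonneg' hnd.tail.nonneg
    obtain ⟨y, L'', rfl, _⟩ := id h5
    obtain ⟨i1, i2, i3, i4, i5⟩ := ih
    rw [List.sum_cons]
    refine ⟨?_, ?_, ?_, ?_, ?_⟩
    · rw [dn, i1, h1, h2, dW_add hW h0.le hnn]
    · rw [up, i2, i5, h2, uW_add hW h0.le hnn]
      rw [show a + τ + (σ :: v).sum = a + (τ + (σ :: v).sum) by ring]
    · rw [dur, i3, h3]
    · rw [sg, i1, h1, h2, i4, h4, am_add hW h0.le hnn]
      have : (dW W a τ - uW W a τ + dW W (a + τ) (σ :: v).sum ≤ dW W a τ) ↔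
          mn W a τ ≤ mn W (a + τ) (σ :: v).sum := by
        unfold dW uW; constructor <;> intro h <;> linarith
      by_cases hc : mn W a τ ≤ mn W (a + τ) (σ :: v).sum
      · rw [if_pos (this.2 hc), if_pos hc]
      · rw [if_neg (fun h => hc (this.1 h)), if_neg hc]
    · rw [tot, i5, h1, h2]
      unfold dW uW
      rw [show a + τ + (σ :: v).sum = a + (τ + (σ :: v).sum) by ring]; ring

/-- sums of initial segments -/
private noncomputable def psA (a : ℝ) (v : List ℝ) (q : ℕ) : ℝ := a + (v.take q).sum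

private theorem psA_succ (a : ℝ) (v : List ℝ) {q : ℕ} (hq : q < v.length) :
    psA a v (q + 1) = psA a v q + v[q] := by
  unfold psA
  rw [List.take_add_one, List.getElem?_eq_getElem hq, Option.toList_some, List.sum_append]
  simp [add_assoc]

private theorem psA_mono {a : ℝ} {v : List ℝ} (hv : ∀ τ ∈ v, 0 ≤ τ) {p q : ℕ} (h : p ≤ q) :
    psA a v p ≤ psA a v q := by
  induction q, h using Nat.le_induction with
  | base => exact le_rfl
  | succ q _ ih =>
    rcases lt_or_ge q v.length with hq | hq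
    · rw [psA_succ a v hq]
      have := hv _ (List.getElem_mem hq)
      linarith
    · have : psA a v (q + 1) = psA a v q := by
        unfold psA
        rw [List.take_of_length_le (by omega), List.take_of_length_le hq]
      rw [this]; exact ih

private theorem psA_find {a : ℝ} {v : List ℝ} {z : ℝ} {p1 : ℕ} :
    ∀ {p2 : ℕ}, p1 ≤ p2 → psA a v p1 ≤ z → z ≤ psA a v (p2 + 1) →
    ∃ p, p1 ≤ p ∧ p ≤ p2 ∧ psA a v p ≤ z ∧ z ≤ psA a v (p + 1) := by
  intro p2 h h1 h2
  induction p2, h using Nat.le_induction with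
  | base => exact ⟨p1, le_rfl, le_rfl, h1, h2⟩
  | succ q hq ih =>
    rcases le_total z (psA a v (q + 1)) with hz | hz
    · obtain ⟨p, hp⟩ := ih hz
      exact ⟨p, hp.1, by omega, hp.2.2⟩
    · exact ⟨q + 1, by omega, le_rfl, hz, h2⟩

private theorem mins_get : ∀ (u : ℝ) (l : List Pc) (i : ℕ) (x : Pc), l[i]? = some x →
    (mins u l)[i]? = some (u + tot (l.take i) - pD x, pS x, pX x)
  | u, [], i, x, h => by simp at h
  | u, y :: l, 0, x, h => by
    simp only [List.getElem?_cons_zero, Option.some.injEq] at h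
    subst h
    simp [mins, tot]
  | u, y :: l, i + 1, x, h => by
    simp only [List.getElem?_cons_succ] at h
    have := mins_get (u - pD y + pU y) l i x h
    rw [mins, List.getElem?_cons_succ, this]
    simp only [List.take_succ_cons, tot, Option.some.injEq, Prod.mk.injEq, and_true]
    ring

private theorem tot_append' : ∀ (l l' : List Pc), tot (l ++ l') = tot l + tot l'
  | [], l' => by simp [tot]
  | x :: l, l' => by simp [tot, tot_append' l l', add_assoc]

private theorem tot_thin (r : ℝ) : ∀ l : List Pc, tot (l.map (thin r)) = tot l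
  | [] => rfl
  | x :: l => by simp [tot, tot_thin r l, thin, pU, pD]

theorem hasGood_inn {W : ℝ → ℝ} (h : GenPath W) (s : ℝ → Bool) {N : ℕ} {Q : ℝ} {k : ℕ} {r a : ℝ}
    (ha : 0 ≤ a) {v : List ℝ} (hn : Nondeg W a v) {L : List Pc} (hL : L.length = v.length)
    (hd : ∀ (v1 : List ℝ) (τ : ℝ) (v2 : List ℝ), v = v1 ++ τ :: v2 → ∃ x : Pc,
      L[v1.length]? = some x ∧ pD x = dW W (a + v1.sum) τ ∧ pU x = uW W (a + v1.sum) τ ∧
      pT x = τ ∧ pS x = s (am W (a + v1.sum) τ) ∧
      (pX x = true → Inn W s N Q k (r / Q) (a + v1.sum) (a + v1.sum + τ)))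
    (hg : HasGood N (L.map (thin r))) : Inn W s N Q (k + 1) r a (a + v.sum) := by
  have hv0 : ∀ τ ∈ v, 0 ≤ τ := hn.nonneg
  -- the data of the piece `q`
  have hq : ∀ (q : ℕ) (hq : q < v.length), ∃ x : Pc, L[q]? = some x ∧
      pD x = dW W (psA a v q) v[q] ∧ pU x = uW W (psA a v q) v[q] ∧ pT x = v[q] ∧
      pS x = s (am W (psA a v q) v[q]) ∧
      (pX x = true → Inn W s N Q k (r / Q) (psA a v q) (psA a v (q + 1))) ∧
      IsArgmin W (psA a v q) (psA a v (q + 1)) (am W (psA a v q) v[q]) := by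
    intro q hq
    have hs : v = v.take q ++ v[q] :: v.drop (q + 1) := by
      rw [List.cons_getElem_drop_succ, List.take_append_drop]
    obtain ⟨x, h1, h2, h3, h4, h5, h6⟩ := hd _ _ _ hs
    have hlen : (v.take q).length = q := by simp; omega
    rw [hlen] at h1
    have hA := psA_succ a v hq
    have h0 := hn _ _ _ hs
    refine ⟨x, h1, h2, h3, h4, h5, ?_, ?_⟩
    · rw [hA]; exact h6
    · rw [hA]
      refine h.isArgmin ?_ h0.1 h0.2.1 h0.2.2
      have := sum_nonneg' (fun τ hτ => hv0 τ (List.mem_of_mem_take (i := q) hτ))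
      exact add_nonneg ha this
  have htot : ∀ q, q ≤ v.length → tot (L.take q) = W (psA a v q) - W a := by
    intro q
    induction q with
    | zero => intro _; simp [tot, psA]
    | succ q ih =>
      intro hq'
      obtain ⟨x, h1, h2, h3, _⟩ := hq q (by omega)
      rw [List.take_add_one, h1, Option.toList_some, tot_append', ih (by omega)]
      simp only [tot]
      rw [h2, h3, psA_succ a v (by omega)]
      unfold dW uW; ring
  obtain ⟨l1, x, l2, y, l3, t, hl, _, hsh, hN⟩ := hg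
  obtain ⟨f, hf1, hf2⟩ := extract_le hsh hN
  set q0 := l1.length + 1 with hq0
  have hlen : v.length = l1.length + 1 + l2.length + 1 + l3.length := by
    have := congrArg List.length hl
    simp only [List.length_map, List.length_append, List.length_cons] at this
    omega
  -- the items of `l2`
  have hitem : ∀ i, i < l2.length → ∃ (hi : q0 + i < v.length), ∃ xx : Pc, L[q0 + i]? = some xx ∧
      (mins (pU x) l2)[i]? = some (pU x - W (psA a v q0) + mn W (psA a v (q0 + i)) v[q0 + i],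
        s (am W (psA a v (q0 + i)) v[q0 + i]), pX xx && decide (r ≤ v[q0 + i])) ∧
      (pX xx = true → Inn W s N Q k (r / Q) (psA a v (q0 + i)) (psA a v (q0 + i + 1))) := by
    intro i hi
    have hi' : q0 + i < v.length := by omega
    obtain ⟨xx, h1, h2, h3, h4, h5, h6, h7⟩ := hq (q0 + i) hi'
    refine ⟨hi', xx, h1, ?_, h6⟩
    have hl2 : l2 = (((L.map (thin r)).drop q0).take l2.length) := by
      rw [hl, hq0]
      rw [show l1 ++ x :: (l2 ++ y :: l3) = (l1 ++ [x]) ++ (l2 ++ y :: l3) by simp]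
      rw [List.drop_left' (by simp), List.take_left']
      rfl
    have h8 : l2[i]? = some (thin r xx) := by
      rw [hl2, List.getElem?_take, if_pos hi, List.getElem?_drop, List.getElem?_map, h1]
      rfl
    rw [mins_get _ _ _ _ h8]
    have h9 : tot (l2.take i) = W (psA a v (q0 + i)) - W (psA a v q0) := by
      have e1 : l2.take i = (((L.drop q0).take i).map (thin r)) := by
        rw [hl2, List.take_take, min_eq_left hi.le, ← List.map_drop, ← List.map_take]
      have e2 : tot (L.take (q0 + i)) = tot (L.take q0) + tot ((L.drop q0).take i) := by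
        rw [List.take_add, tot_append']
      rw [e1, tot_thin]
      rw [htot _ (by omega), htot _ (by omega)] at e2
      linarith
    rw [h9]
    have t1 : pD (thin r xx) = pD xx := rfl
    have t2 : pS (thin r xx) = pS xx := rfl
    have t3 : pX (thin r xx) = (pX xx && decide (r ≤ pT xx)) := rfl
    rw [t1, t2, t3, h2, h5, h4]
    simp only [Option.some.injEq, Prod.mk.injEq, and_true]
    unfold dW; ring
  have hlm : (mins (pU x) l2).length = l2.length := length_mins _ _
  have hfl : ∀ i, f i < l2.length := by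
    intro i
    obtain ⟨z, hz, _⟩ := hf1 i
    have := (List.getElem?_eq_some_iff.1 hz).1
    omega
  refine ⟨fun i => psA a v (q0 + f i), fun i => psA a v (q0 + f i + 1), ?_, ?_⟩
  · intro i
    obtain ⟨hi', xx, h1, h2, h3⟩ := hitem (f i) (hfl i)
    obtain ⟨z, hz, hz2⟩ := hf1 i
    rw [h2] at hz
    simp only [Option.some.injEq] at hz
    subst hz
    simp only [Bool.and_eq_true, decide_eq_true_eq] at hz2
    refine ⟨?_, ?_, ?_, h3 hz2.1⟩
    · have := psA_mono (a := a) hv0 (Nat.zero_le (q0 + f i))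
      simpa [psA] using this
    · have := psA_mono (a := a) hv0 (show q0 + f i + 1 ≤ v.length by omega)
      simpa [psA] using this
    · show r ≤ psA a v (q0 + f i + 1) - psA a v (q0 + f i)
      rw [psA_succ a v hi']; linarith [hz2.2]
  · intro i j hij
    obtain ⟨hfij, kk, z, hk1, hk2, hk3, hk4, hk5⟩ := hf2 i j hij
    have hkl : kk < l2.length := lt_trans hk2 (hfl j)
    obtain ⟨hk', xk, g1, g2, g3⟩ := hitem kk hkl
    rw [g2] at hk3
    simp only [Option.some.injEq] at hk3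
    subst hk3
    obtain ⟨_, _, _, _, _, _, _, harg⟩ := hq (q0 + kk) hk'
    have ham := am_spec h.cont (a := psA a v (q0 + kk)) (hv0 _ (List.getElem_mem hk'))
    refine ⟨psA_mono hv0 (by omega), am W (psA a v (q0 + kk)) v[q0 + kk], hk4, ?_, ?_, ?_⟩
    · exact le_trans (psA_mono hv0 (by omega)) harg.1.le
    · exact le_trans harg.2.1.le (psA_mono hv0 (by omega))
    · intro zz hz1 hz2 hz3
      obtain ⟨p, hp1, hp2, hp3, hp4⟩ := psA_find (show q0 + f i ≤ q0 + f j by omega) hz1 hz2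
      obtain ⟨p', rfl⟩ : ∃ p', p = q0 + p' := ⟨p - q0, by omega⟩
      rcases eq_or_ne p' kk with rfl | hne
      · exact harg.2.2 zz hp3 hp4 hz3
      · have hp'l : p' < l2.length := by have := hfl j; omega
        obtain ⟨hp'v, xp, e1, e2, e3⟩ := hitem p' hp'l
        have hlt := hk5 p' _ (by omega) (by omega) hne e2
        simp only at hlt
        have ham' := am_spec h.cont (a := psA a v (q0 + p')) (hv0 _ (List.getElem_mem hp'v))
        have := ham'.2.2.2 zz hp3 (by rw [← psA_succ a v hp'v]; exact hp4)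
        rw [ham.2.2.1]
        linarith

private theorem length_pcS' (W : ℝ → ℝ) (s : ℝ → Bool) : ∀ (a : ℝ) (v : List ℝ),
    (pcS W s a v).length = v.length
  | _, [] => rfl
  | a, τ :: v => by simp [pcS, length_pcS' W s (a + τ) v]

private theorem splitMap_rep {W : ℝ → ℝ} (h : GenPath W) (s : ℝ → Bool) {N Q : ℕ} (k : ℕ)
    {Λ : ℝ} {I : ℝ → ℝ → Prop}
    (hk : ∀ {π : Pat k}, Proper k π → ∀ {a : ℝ}, 0 ≤ a → ∀ {v : List ℝ},
      v.length = plen k π → Nondeg W a v →
      pD (pfold N Q k Λ π (pcS W s a v)) = dW W a v.sum ∧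
      pU (pfold N Q k Λ π (pcS W s a v)) = uW W a v.sum ∧
      pT (pfold N Q k Λ π (pcS W s a v)) = v.sum ∧
      pS (pfold N Q k Λ π (pcS W s a v)) = s (am W a v.sum) ∧
      (pX (pfold N Q k Λ π (pcS W s a v)) = true → I a (a + v.sum))) :
    ∀ {πs : List (Pat k)}, (∀ π ∈ πs, Proper k π) → ∀ {a : ℝ}, 0 ≤ a → ∀ {v : List ℝ},
      v.length = (πs.map (plen k)).sum → Nondeg W a v → ∃ v' : List ℝ, v'.sum = v.sum ∧
        v'.length = πs.length ∧
        RepI W s I a v' (splitMap (pfold N Q k Λ) (plen k) πs (pcS W s a v))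
  | [], _, a, _, v, hl, _ => by
    have : v = [] := List.eq_nil_of_length_eq_zero (by simpa using hl)
    subst this
    exact ⟨[], rfl, rfl, rfl⟩
  | π :: πs, hp, a, ha, v, hl, hn => by
    simp only [List.map_cons, List.sum_cons] at hl
    obtain ⟨v1, v2, rfl, hv1⟩ : ∃ v1 v2 : List ℝ, v = v1 ++ v2 ∧ v1.length = plen k π :=
      ⟨v.take (plen k π), v.drop (plen k π), (List.take_append_drop _ _).symm, by simp; omega⟩
    have hπ : Proper k π := hp π (by simp)
    have h1 := hπ.one_le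
    have hne : v1 ≠ [] := by rintro rfl; simp at hv1; omega
    have hspec := hk hπ ha hv1 hn.left
    have hnd := nondeg_dW h ha hne hn.left
    obtain ⟨v', e1, e2, e3⟩ := splitMap_rep h s k hk (πs := πs) (fun π' h' => hp π' (by simp [h']))
      (a := a + v1.sum) (by linarith [hnd.1]) (v := v2) (by simp at hl; omega) hn.right
    refine ⟨v1.sum :: v', by simp [e1], by simp [e2], ?_⟩
    have ht : (pcS W s a (v1 ++ v2)).take (plen k π) = pcS W s a v1 := by
      rw [pcS_append, List.take_left' (by rw [length_pcS', hv1])]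
    have hdr : (pcS W s a (v1 ++ v2)).drop (plen k π) = pcS W s (a + v1.sum) v2 := by
      rw [pcS_append, List.drop_left' (by rw [length_pcS', hv1])]
    rw [splitMap, ht, hdr]
    exact ⟨_, _, rfl, hnd.1, hnd.2.1, hnd.2.2, hspec.1, hspec.2.1, hspec.2.2.1, hspec.2.2.2.1,
      hspec.2.2.2.2, e3⟩

/-- the pieces of level `k` -/
theorem pfold_spec {W : ℝ → ℝ} (h : GenPath W) (s : ℝ → Bool) {N Q : ℕ} (hQ : 1 ≤ Q) (k : ℕ)
    {Λ : ℝ} (hΛ : 0 < Λ) {π : Pat k} (hπ : Proper k π) {a : ℝ} (ha : 0 ≤ a) {v : List ℝ}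
    (hl : v.length = plen k π) (hn : Nondeg W a v) :
    pD (pfold N Q k Λ π (pcS W s a v)) = dW W a v.sum ∧
    pU (pfold N Q k Λ π (pcS W s a v)) = uW W a v.sum ∧
    pT (pfold N Q k Λ π (pcS W s a v)) = v.sum ∧
    pS (pfold N Q k Λ π (pcS W s a v)) = s (am W a v.sum) ∧
    (pX (pfold N Q k Λ π (pcS W s a v)) = true →
      Inn W s N Q k (1 / (32 * (Q * Λ))) a (a + v.sum)) := by
  induction k generalizing Λ a v with
  | zero =>
    have h1 : v.length = 1 := hl
    obtain ⟨τ, rfl⟩ := List.length_eq_one_iff.1 h1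
    simp only [List.sum_cons, List.sum_nil, add_zero]
    exact ⟨rfl, rfl, rfl, rfl, fun _ => trivial⟩
  | succ k ih =>
    have hQΛ : 0 < (Q : ℝ) * Λ := mul_pos (by exact_mod_cast hQ) hΛ
    obtain ⟨hne, hp⟩ := hπ
    obtain ⟨v', e1, e2, e3⟩ := splitMap_rep (N := N) (Q := Q) (Λ := Q * Λ) h s k
      (I := fun a b => Inn W s N Q k (1 / (32 * (Q * (Q * Λ)))) a b)
      (fun {π} hπ {a} ha {v} hl hn => ih hQΛ hπ ha hl hn) (πs := unPat π) hp ha (v := v) hl hn
    have hv' : v' ≠ [] := by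
      rintro rfl
      exact hne (List.eq_nil_of_length_eq_zero (by simpa using e2.symm))
    obtain ⟨c1, c2, c3, c4, c5⟩ := e3.cat h.cont hv'
    rw [e1] at c1 c2 c3 c4
    refine ⟨c1, c2, c3, c4, ?_⟩
    intro hX
    have hg : HasGood N ((splitMap (pfold N Q k (Q * Λ)) (plen k) (unPat π) (pcS W s a v)).map
        (thin (1 / (32 * (Q * Λ))))) := by
      classical
      have : pX (cat N (1 / (32 * (Q * Λ)))
          (splitMap (pfold N Q k (Q * Λ)) (plen k) (unPat π) (pcS W s a v))) = true := hX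
      simpa [cat, pX] using this
    rw [← e1]
    refine hasGood_inn h s ha e3.nondeg e3.length ?_ hg
    intro v1 τ v2 hv
    rw [hv] at e3
    obtain ⟨x, g1, g2, g3, g4, g5, g6⟩ := e3.get
    refine ⟨x, g1, g2, g3, g4, g5, ?_⟩
    have hQ0 : (Q : ℝ) ≠ 0 := by have : (0 : ℝ) < Q := by exact_mod_cast hQ
                                 exact this.ne'
    have hr : (1 / (32 * ((Q : ℝ) * Λ))) / Q = 1 / (32 * (Q * (Q * Λ))) := by
      field_simp
    rw [hr]
    exact g6

private theorem inn_mono' {e : ℝ → ℝ} {s : ℝ → Bool} {N : ℕ} {Q : ℝ} {k : ℕ} {r a b a' b' : ℝ}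
    (h : Inn e s N Q k r a b) (ha : a' ≤ a) (hb : b ≤ b') : Inn e s N Q k r a' b' := by
  cases k with
  | zero => trivial
  | succ k =>
    obtain ⟨x, y, h1, h2⟩ := h
    exact ⟨x, y, fun i => ⟨ha.trans (h1 i).1, (h1 i).2.1.trans hb, (h1 i).2.2⟩, h2⟩

private theorem repI_marked {W : ℝ → ℝ} {s : ℝ → Bool} {I : ℝ → ℝ → Prop} :
    ∀ {v : List ℝ} {a : ℝ} {L : List Pc}, RepI W s I a v L → (L.map pT).sum = v.sum ∧
      ((∃ x ∈ L, pX x = true) → ∃ b c, a ≤ b ∧ c ≤ a + v.sum ∧ I b c)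
  | [], a, L, h => by have : L = [] := h; subst this; simp
  | τ :: v, a, L, h => by
    have hnn : 0 ≤ v.sum := sum_nonneg' (h.nondeg.tail.nonneg)
    obtain ⟨x, L', rfl, h0, _, _, _, _, h3, _, h5, h6⟩ := h
    obtain ⟨i1, i2⟩ := repI_marked h6
    refine ⟨by simp [i1, h3], ?_⟩
    rintro ⟨z, hz, hz2⟩
    simp only [List.mem_cons] at hz
    rcases hz with rfl | hz
    · exact ⟨a, a + τ, le_rfl, by rw [List.sum_cons]; linarith, h5 hz2⟩
    · obtain ⟨b, c, hb, hc, hI⟩ := i2 ⟨z, hz, hz2⟩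
      exact ⟨b, c, by linarith, by rw [List.sum_cons]; linarith, hI⟩

/-- several pieces of level `k`: if one of them is marked then there is a nested family -/
theorem splitMap_inn {W : ℝ → ℝ} (h : GenPath W) (s : ℝ → Bool) {N Q : ℕ} (hQ : 1 ≤ Q) (k : ℕ)
    {Λ : ℝ} (hΛ : 0 < Λ) {πs : List (Pat k)} {a : ℝ} (ha : 0 ≤ a) {v : List ℝ}
    (hp : ∀ π ∈ πs, Proper k π)
    (hl : v.length = (πs.map (plen k)).sum) (hn : Nondeg W a v) :
    ((splitMap (pfold N Q k Λ) (plen k) πs (pcS W s a v)).map pT).sum = v.sum ∧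
    ((∃ x ∈ splitMap (pfold N Q k Λ) (plen k) πs (pcS W s a v), pX x = true) →
      Inn W s N Q k (1 / (32 * (Q * Λ))) a (a + v.sum)) := by
  obtain ⟨v', e1, e2, e3⟩ := splitMap_rep (N := N) (Q := Q) (Λ := Λ) h s k
      (I := fun a b => Inn W s N Q k (1 / (32 * (Q * Λ))) a b)
      (fun {π} hπ {a} ha {v} hl hn => pfold_spec h s hQ k hΛ hπ ha hl hn) hp ha (v := v) hl hn
  obtain ⟨i1, i2⟩ := repI_marked e3
  refine ⟨by rw [i1, e1], fun hx => ?_⟩
  obtain ⟨b, c, hb, hc, hI⟩ := i2 hx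
  rw [e1] at hc
  exact inn_mono' hI hb hc

end Pool.Agent.BSP
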