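import Mathlib

set_option autoImplicit false

/-!
# Iterated integrals over lists

`LI ρ n F` is the expectation of `F [x₁, ..., x_n]` for independent `x_i` with law `ρ`.
-/

namespace Pool.Agent.BSP

open MeasureTheory
open scoped ENNReal

/-- `n`-fold iterated integral of a function of lists -/
noncomputable def LI {α : Type*} [MeasurableSpace α] (ρ : Measure α) :
    ℕ → (List α → ℝ≥0∞) → ℝ≥0∞
  | 0, F => F []
  | n + 1, F => ∫⁻ x, LI ρ n (fun l => F (x :: l)) ∂ρ

/-- measurable functions of lists -/
def MF {α β : Type*} [MeasurableSpace α] [MeasurableSpace β] (F : List α → β) : Prop :=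
  ∀ n, Measurable (fun v : Fin n → α => F (List.ofFn v))

/-- measurable functions of a parameter and a list -/
def MF2 {γ α β : Type*} [MeasurableSpace γ] [MeasurableSpace α] [MeasurableSpace β]
    (F : γ → List α → β) : Prop :=
  ∀ n, Measurable (fun q : γ × (Fin n → α) => F q.1 (List.ofFn q.2))

open Classical in
/-- indicator of a proposition -/
noncomputable def ind (P : Prop) : ℝ≥0∞ := if P then 1 else 0

variable {α β γ : Type*} [MeasurableSpace α] [MeasurableSpace β] [MeasurableSpace γ]

section aux

private theorem li_meas_cons {δ : Type*} [MeasurableSpace δ] {n : ℕ} {f : δ → α}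
    {g : δ → Fin n → α} (hf : Measurable f) (hg : Measurable g) :
    Measurable (fun z => (Fin.cons (f z) (g z) : Fin (n + 1) → α)) := by
  refine measurable_pi_lambda _ fun i => ?_
  refine Fin.cases ?_ (fun j => ?_) i
  · simpa using hf
  · have h : Measurable fun c => g c j := (measurable_pi_apply j).comp hg
    simpa using h

private theorem li_meas_tail {δ : Type*} [MeasurableSpace δ] {n : ℕ}
    {g : δ → Fin (n + 1) → α} (hg : Measurable g) :
    Measurable (fun z => (fun i : Fin n => g z i.succ)) :=
  measurable_pi_lambda _ fun i => (measurable_pi_apply i.succ).comp hg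

private theorem li_meas_append {δ : Type*} [MeasurableSpace δ] {m n : ℕ} {f : δ → Fin m → α}
    {g : δ → Fin n → α} (hf : Measurable f) (hg : Measurable g) :
    Measurable (fun z => Fin.append (f z) (g z)) := by
  refine measurable_pi_lambda _ fun i => ?_
  refine Fin.addCases (fun j => ?_) (fun j => ?_) i
  · have h : Measurable fun c => f c j := (measurable_pi_apply j).comp hf
    simpa using h
  · have h : Measurable fun c => g c j := (measurable_pi_apply j).comp hg
    simpa using h

omit [MeasurableSpace α] in
private theorem li_ofFn_cons {n : ℕ} (a : α) (v : Fin n → α) :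
    List.ofFn (Fin.cons a v : Fin (n + 1) → α) = a :: List.ofFn v := by
  rw [List.ofFn_succ]; simp

end aux

theorem MF2_step {F : γ → List α → β} (h0 : Measurable fun y => F y [])
    (h1 : MF2 fun (q : γ × α) l => F q.1 (q.2 :: l)) : MF2 F := by
  intro n
  cases n with
  | zero =>
    have : (fun q : γ × (Fin 0 → α) => F q.1 (List.ofFn q.2)) = (fun y => F y []) ∘ Prod.fst := by
      funext q; simp
    rw [this]
    exact h0.comp measurable_fst
  | succ n =>
    have : (fun q : γ × (Fin (n + 1) → α) => F q.1 (List.ofFn q.2)) =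
        (fun q : (γ × α) × (Fin n → α) => F q.1.1 (q.1.2 :: List.ofFn q.2)) ∘
          fun q => ((q.1, q.2 0), fun i => q.2 i.succ) := by
      funext q; simp only [Function.comp_apply, List.ofFn_succ]
    rw [this]
    refine (h1 n).comp ?_
    exact (measurable_fst.prodMk ((measurable_pi_apply 0).comp measurable_snd)).prodMk
      (li_meas_tail measurable_snd)

theorem MF2.cons {F : γ → List α → β} (h : MF2 F) :
    MF2 fun (q : γ × α) l => F q.1 (q.2 :: l) := by
  intro n
  have : (fun q : (γ × α) × (Fin n → α) => F q.1.1 (q.1.2 :: List.ofFn q.2)) =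
      (fun q : γ × (Fin (n + 1) → α) => F q.1 (List.ofFn q.2)) ∘
        fun q => (q.1.1, Fin.cons q.1.2 q.2) := by
    funext q; simp only [Function.comp_apply, li_ofFn_cons]
  rw [this]
  refine (h (n + 1)).comp ?_
  exact (measurable_fst.comp measurable_fst).prodMk
    (li_meas_cons (measurable_snd.comp measurable_fst) measurable_snd)

theorem MF2.nil {F : γ → List α → β} (h : MF2 F) : Measurable fun y => F y [] := by
  have : (fun y => F y []) = (fun q : γ × (Fin 0 → α) => F q.1 (List.ofFn q.2)) ∘
      fun y => (y, fun i : Fin 0 => i.elim0) := by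
    funext y; simp
  rw [this]
  exact (h 0).comp (measurable_id.prodMk measurable_const)

theorem MF2.mf {F : γ → List α → β} (h : MF2 F) (y : γ) : MF (F y) := by
  intro n
  exact (h n).comp (measurable_const.prodMk measurable_id)

theorem MF.mf2 {F : List α → β} (h : MF F) : MF2 fun (_ : γ) l => F l := by
  intro n
  exact (h n).comp measurable_snd

theorem MF2.comp_left {δ : Type*} [MeasurableSpace δ] {F : γ → List α → β} (h : MF2 F)
    {k : δ → γ} (hk : Measurable k) : MF2 fun y l => F (k y) l := by
  intro n
  exact (h n).comp ((hk.comp measurable_fst).prodMk measurable_snd)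

/-- functions defined by recursion on the list -/
theorem MF2_rec {G : γ → List α → β} {g : γ → β} {k : γ × α → γ} {h : (γ × α) × β → β}
    (hg : Measurable g) (hk : Measurable k) (hh : Measurable h) (h0 : ∀ y, G y [] = g y)
    (h1 : ∀ y x l, G y (x :: l) = h ((y, x), G (k (y, x)) l)) : MF2 G := by
  intro n
  induction n with
  | zero =>
    have : (fun q : γ × (Fin 0 → α) => G q.1 (List.ofFn q.2)) = g ∘ Prod.fst := by
      funext q; simp [h0]
    rw [this]
    exact hg.comp measurable_fst
  | succ n ih =>
    have : (fun q : γ × (Fin (n + 1) → α) => G q.1 (List.ofFn q.2)) =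
        h ∘ fun q => ((q.1, q.2 0), (fun q' : γ × (Fin n → α) => G q'.1 (List.ofFn q'.2))
          (k (q.1, q.2 0), fun i => q.2 i.succ)) := by
      funext q; simp only [Function.comp_apply, List.ofFn_succ, h1]
    rw [this]
    have h2 : Measurable fun q : γ × (Fin (n + 1) → α) => (q.1, q.2 0) :=
      measurable_fst.prodMk ((measurable_pi_apply 0).comp measurable_snd)
    refine hh.comp (h2.prodMk (ih.comp ?_))
    exact (hk.comp h2).prodMk (li_meas_tail measurable_snd)

/-- joint measurability in a splitting of the list -/
theorem MF2.append {F : γ → List α → β} (h : MF2 F) (m n : ℕ) :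
    Measurable (fun q : γ × (Fin m → α) × (Fin n → α) =>
      F q.1 (List.ofFn q.2.1 ++ List.ofFn q.2.2)) := by
  have : (fun q : γ × (Fin m → α) × (Fin n → α) =>
      F q.1 (List.ofFn q.2.1 ++ List.ofFn q.2.2)) =
      (fun q : γ × (Fin (m + n) → α) => F q.1 (List.ofFn q.2)) ∘
        fun q => (q.1, Fin.append q.2.1 q.2.2) := by
    funext q; simp only [Function.comp_apply, List.ofFn_fin_append]
  rw [this]
  exact (h (m + n)).comp (measurable_fst.prodMk
    (li_meas_append (measurable_fst.comp measurable_snd) (measurable_snd.comp measurable_snd)))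

omit [MeasurableSpace α] in
private theorem li_reverse_ofFn {n : ℕ} (v : Fin n → α) :
    (List.ofFn v).reverse = List.ofFn (fun i => v (Fin.rev i)) := by
  apply List.ext_getElem
  · simp
  · intro i h1 h2
    simp only [List.getElem_reverse, List.getElem_ofFn, List.length_ofFn]
    congr 1
    ext
    simp only [Fin.val_rev]
    omega

theorem MF2.reverse {F : γ → List α → β} (h : MF2 F) : MF2 fun y l => F y l.reverse := by
  intro n
  have : (fun q : γ × (Fin n → α) => F q.1 (List.ofFn q.2).reverse) =
      (fun q : γ × (Fin n → α) => F q.1 (List.ofFn q.2)) ∘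
        fun q => (q.1, fun i => q.2 (Fin.rev i)) := by
    funext q; simp only [Function.comp_apply, li_reverse_ofFn]
  rw [this]
  refine (h n).comp (measurable_fst.prodMk (measurable_pi_lambda _ fun i => ?_))
  exact (measurable_pi_apply _).comp measurable_snd

theorem MF2.map {δ : Type*} [MeasurableSpace δ] {F : γ → List α → β} (h : MF2 F) {f : δ → α}
    (hf : Measurable f) : MF2 fun y l => F y (l.map f) := by
  intro n
  have : (fun q : γ × (Fin n → δ) => F q.1 ((List.ofFn q.2).map f)) =
      (fun q : γ × (Fin n → α) => F q.1 (List.ofFn q.2)) ∘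
        fun q => (q.1, fun i => f (q.2 i)) := by
    funext q; simp only [Function.comp_apply, List.map_ofFn]; rfl
  rw [this]
  refine (h n).comp (measurable_fst.prodMk (measurable_pi_lambda _ fun i => ?_))
  exact hf.comp ((measurable_pi_apply _).comp measurable_snd)

variable (ρ : Measure α)

theorem LI_congr {n : ℕ} {F G : List α → ℝ≥0∞} (h : ∀ l, l.length = n → F l = G l) :
    LI ρ n F = LI ρ n G := by
  induction n generalizing F G with
  | zero => exact h [] rfl
  | succ n ih =>
    simp only [LI]
    refine lintegral_congr fun x => ih fun l hl => h (x :: l) (by simp [hl])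

theorem LI_mono {n : ℕ} {F G : List α → ℝ≥0∞} (h : ∀ l, l.length = n → F l ≤ G l) :
    LI ρ n F ≤ LI ρ n G := by
  induction n generalizing F G with
  | zero => exact h [] rfl
  | succ n ih =>
    simp only [LI]
    refine lintegral_mono fun x => ih fun l hl => h (x :: l) (by simp [hl])

theorem LI_append (m n : ℕ) (F : List α → ℝ≥0∞) :
    LI ρ (m + n) F = LI ρ m (fun l => LI ρ n (fun l' => F (l ++ l'))) := by
  induction m generalizing F with
  | zero => simp [LI]
  | succ m ih =>
    rw [show m + 1 + n = (m + n) + 1 by omega]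
    simp only [LI]
    refine lintegral_congr fun x => ?_
    rw [ih]
    simp only [List.cons_append]

theorem LI_const [IsProbabilityMeasure ρ] (n : ℕ) (c : ℝ≥0∞) : LI ρ n (fun _ => c) = c := by
  induction n with
  | zero => rfl
  | succ n ih => simp only [LI, ih]; simp

/-- measurability of the inner integrals -/
private theorem li_tail_aux [SFinite ρ] {F : γ → List α → ℝ≥0∞} (h : MF2 F) (n : ℕ) :
    ∀ k, Measurable (fun q : γ × (Fin k → α) =>
      LI ρ n (fun l' => F q.1 (List.ofFn q.2 ++ l'))) := by
  induction n with
  | zero =>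
    intro k
    simp only [LI, List.append_nil]
    exact h k
  | succ n ih =>
    intro k
    simp only [LI]
    have h1 : Measurable (fun z : (γ × (Fin k → α)) × α =>
        LI ρ n (fun l => F z.1.1 (List.ofFn z.1.2 ++ z.2 :: l))) := by
      have : (fun z : (γ × (Fin k → α)) × α =>
          LI ρ n (fun l => F z.1.1 (List.ofFn z.1.2 ++ z.2 :: l))) =
          (fun q : γ × (Fin (k + 1) → α) =>
            LI ρ n (fun l' => F q.1 (List.ofFn q.2 ++ l'))) ∘
          fun z => (z.1.1, Fin.append z.1.2 (fun _ : Fin 1 => z.2)) := by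
        funext z
        simp only [Function.comp_apply, List.ofFn_fin_append]
        congr 1
        funext l
        congr 1
        simp
      rw [this]
      refine (ih (k + 1)).comp ((measurable_fst.comp measurable_fst).prodMk
        (li_meas_append (measurable_snd.comp measurable_fst) ?_))
      exact measurable_pi_lambda _ fun _ => measurable_snd
    exact h1.lintegral_prod_right'

theorem MF2.meas_LI [SFinite ρ] {F : γ → List α → ℝ≥0∞} (h : MF2 F) (n : ℕ) :
    Measurable fun y => LI ρ n (F y) := by
  have h1 : (fun y => LI ρ n (F y)) = (fun q : γ × (Fin 0 → α) =>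
      LI ρ n (fun l' => F q.1 (List.ofFn q.2 ++ l'))) ∘ fun y => (y, fun i : Fin 0 => i.elim0) := by
    funext y
    simp
  rw [h1]
  exact (li_tail_aux ρ h n 0).comp (measurable_id.prodMk measurable_const)

/-- integrating out the end of the list keeps measurability -/
theorem MF2.LI_tail [SFinite ρ] {F : γ → List α → ℝ≥0∞} (h : MF2 F) (n : ℕ) :
    MF2 fun y l => LI ρ n (fun l' => F y (l ++ l')) := li_tail_aux ρ h n

private theorem li_cons {F : List α → β} (h : MF F) : MF2 fun (x : α) l => F (x :: l) := by
  have h1 : MF2 fun (q : Unit × α) l => F (q.2 :: l) := (h.mf2 (γ := Unit)).cons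
  exact h1.comp_left (k := fun x => ((), x)) (measurable_const.prodMk measurable_id)

private theorem li_fix {F : List α → β} (h : MF F) (x : α) : MF fun l => F (x :: l) :=
  (li_cons h).mf x

theorem LI_swap [SFinite ρ] {μ : Measure γ} [SFinite μ] {F : γ → List α → ℝ≥0∞} (h : MF2 F)
    (n : ℕ) : ∫⁻ y, LI ρ n (F y) ∂μ = LI ρ n (fun l => ∫⁻ y, F y l ∂μ) := by
  induction n generalizing F with
  | zero => rfl
  | succ n ih =>
    simp only [LI]
    rw [lintegral_lintegral_swap]
    · refine lintegral_congr fun x => ?_
      exact ih (h.cons.comp_left (k := fun y => (y, x)) (measurable_id.prodMk measurable_const))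
    · exact (MF2.meas_LI ρ h.cons n).aemeasurable

theorem LI_swap_LI [SFinite ρ] {σ : Measure β} [SFinite σ] {F : List β → List α → ℝ≥0∞}
    (h : ∀ m n, Measurable (fun q : (Fin m → β) × (Fin n → α) =>
      F (List.ofFn q.1) (List.ofFn q.2))) (m n : ℕ) :
    LI σ m (fun l => LI ρ n (F l)) = LI ρ n (fun l' => LI σ m (fun l => F l l')) := by
  induction m generalizing F with
  | zero => rfl
  | succ m ih =>
    have h' : ∀ k j, Measurable (fun q : (β × (Fin j → α)) × (Fin k → β) =>
        F (q.1.1 :: List.ofFn q.2) (List.ofFn q.1.2)) := by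
      intro k j
      have : (fun q : (β × (Fin j → α)) × (Fin k → β) =>
          F (q.1.1 :: List.ofFn q.2) (List.ofFn q.1.2)) =
          (fun q : (Fin (k + 1) → β) × (Fin j → α) => F (List.ofFn q.1) (List.ofFn q.2)) ∘
          fun q => (Fin.cons q.1.1 q.2, q.1.2) := by
        funext q; simp only [Function.comp_apply, li_ofFn_cons]
      rw [this]
      exact (h (k + 1) j).comp ((li_meas_cons (measurable_fst.comp measurable_fst)
        measurable_snd).prodMk (measurable_snd.comp measurable_fst))
    simp only [LI]
    have h2 : ∀ x, LI σ m (fun l => LI ρ n (F (x :: l))) =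
        LI ρ n (fun l' => LI σ m (fun l => F (x :: l) l')) := by
      intro x
      refine ih fun k j => ?_
      exact (h' k j).comp ((measurable_const.prodMk measurable_snd).prodMk measurable_fst)
    simp only [h2]
    refine LI_swap ρ (F := fun x l' => LI σ m (fun l => F (x :: l) l')) ?_ n
    intro j
    have h3 : MF2 fun (q : β × (Fin j → α)) l => F (q.1 :: l) (List.ofFn q.2) :=
      fun k => h' k j
    exact MF2.meas_LI σ h3 m

theorem LI_const_mul {n : ℕ} (c : ℝ≥0∞) {F : List α → ℝ≥0∞} (h : MF F) [SFinite ρ] :
    LI ρ n (fun l => c * F l) = c * LI ρ n F := by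
  induction n generalizing F with
  | zero => rfl
  | succ n ih =>
    simp only [LI]
    rw [← lintegral_const_mul c (MF2.meas_LI ρ (li_cons h) n)]
    exact lintegral_congr fun x => ih (li_fix h x)

theorem LI_add {n : ℕ} {F G : List α → ℝ≥0∞} (hF : MF F) (hG : MF G) [SFinite ρ] :
    LI ρ n (fun l => F l + G l) = LI ρ n F + LI ρ n G := by
  induction n generalizing F G with
  | zero => rfl
  | succ n ih =>
    simp only [LI]
    rw [← lintegral_add_left (MF2.meas_LI ρ (li_cons hF) n)]
    exact lintegral_congr fun x => ih (li_fix hF x) (li_fix hG x)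

theorem LI_tsum {ι : Type*} [Countable ι] {n : ℕ} {F : ι → List α → ℝ≥0∞} (hF : ∀ i, MF (F i))
    [SFinite ρ] : LI ρ n (fun l => ∑' i, F i l) = ∑' i, LI ρ n (F i) := by
  induction n generalizing F with
  | zero => rfl
  | succ n ih =>
    simp only [LI]
    rw [← lintegral_tsum fun i => (MF2.meas_LI ρ (li_cons (hF i)) n).aemeasurable]
    exact lintegral_congr fun x => ih fun i => li_fix (hF i) x

theorem LI_reverse [SFinite ρ] {F : List α → ℝ≥0∞} (h : MF F) (n : ℕ) :
    LI ρ n (fun l => F l.reverse) = LI ρ n F := by
  induction n generalizing F with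
  | zero => rfl
  | succ n ih =>
    have h1 : MF2 fun (x : α) l => F (l ++ [x]) := by
      intro k
      have : (fun q : α × (Fin k → α) => F (List.ofFn q.2 ++ [q.1])) =
          (fun v : Fin (k + 1) → α => F (List.ofFn v)) ∘
          fun q => Fin.append q.2 (fun _ : Fin 1 => q.1) := by
        funext q
        simp only [Function.comp_apply, List.ofFn_fin_append]
        simp
      rw [this]
      refine (h (k + 1)).comp (li_meas_append measurable_snd ?_)
      exact measurable_pi_lambda _ fun _ => measurable_fst
    rw [LI_append ρ n 1 F]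
    simp only [LI]
    rw [← LI_swap ρ h1 n]
    refine lintegral_congr fun x => ?_
    simp only [List.reverse_cons]
    exact ih (h1.mf x)

theorem LI_map {f : β → α} (hf : Measurable f) {F : List α → ℝ≥0∞} (h : MF F)
    {σ : Measure β} [SFinite σ] (n : ℕ) : LI (σ.map f) n F = LI σ n (fun l => F (l.map f)) := by
  induction n generalizing F with
  | zero => rfl
  | succ n ih =>
    simp only [LI]
    rw [lintegral_map (MF2.meas_LI _ (li_cons h) n) hf]
    exact lintegral_congr fun x => ih (li_fix h (f x))

theorem LI_pi [SigmaFinite ρ] {F : List α → ℝ≥0∞} (h : MF F) (n : ℕ) :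
    LI ρ n F = ∫⁻ v, F (List.ofFn v) ∂(Measure.pi fun _ : Fin n => ρ) := by
  induction n generalizing F with
  | zero =>
    rw [Measure.pi_of_empty, lintegral_dirac' _ (h 0)]
    simp [LI]
  | succ n ih =>
    have hmp := measurePreserving_piFinSuccAbove (fun _ : Fin (n + 1) => ρ) 0
    have hm : Measurable (fun q : α × (Fin n → α) => F (q.1 :: List.ofFn q.2)) := li_cons h n
    have e1 : ∫⁻ v, F (List.ofFn v) ∂(Measure.pi fun _ : Fin (n + 1) => ρ) =
        ∫⁻ q, F (q.1 :: List.ofFn q.2) ∂(ρ.prod (Measure.pi fun _ : Fin n => ρ)) := by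
      rw [← hmp.lintegral_comp hm]
      refine lintegral_congr fun v => ?_
      rw [List.ofFn_succ]
      rfl
    rw [e1, lintegral_prod _ hm.aemeasurable]
    simp only [LI]
    exact lintegral_congr fun x => ih (li_fix h x)

omit [MeasurableSpace α] [MeasurableSpace β] in
private theorem li_zip_ofFn {m n : ℕ} (v : Fin m → α) (w : Fin n → β) :
    (List.ofFn v).zip (List.ofFn w) = List.ofFn (fun i : Fin (min m n) =>
      (v ⟨i, lt_of_lt_of_le i.2 (min_le_left _ _)⟩,
        w ⟨i, lt_of_lt_of_le i.2 (min_le_right _ _)⟩)) := by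
  apply List.ext_getElem
  · simp
  · intro i h1 h2
    simp

/-- independent coordinates -/
theorem LI_prod {σ : Measure β} [SFinite ρ] [SFinite σ] {F : List (α × β) → ℝ≥0∞} (h : MF F)
    (n : ℕ) : LI (ρ.prod σ) n F = LI ρ n (fun l => LI σ n (fun l' => F (l.zip l'))) := by
  induction n generalizing F with
  | zero => rfl
  | succ n ih =>
    simp only [LI]
    rw [lintegral_prod _ (MF2.meas_LI _ (li_cons h) n).aemeasurable]
    refine lintegral_congr fun x => ?_
    have h1 : ∀ y, LI (ρ.prod σ) n (fun l => F ((x, y) :: l)) =
        LI ρ n (fun l => LI σ n (fun l' => F ((x, y) :: l.zip l'))) := fun y => ih (li_fix h (x, y))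
    simp only [h1, List.zip_cons_cons]
    refine LI_swap ρ (F := fun y l => LI σ n (fun l' => F ((x, y) :: l.zip l'))) ?_ n
    intro k
    have h3 : MF2 fun (q : β × (Fin k → α)) (l' : List β) =>
        F ((x, q.1) :: (List.ofFn q.2).zip l') := by
      intro m
      have : (fun q : (β × (Fin k → α)) × (Fin m → β) =>
          F ((x, q.1.1) :: (List.ofFn q.1.2).zip (List.ofFn q.2))) =
          (fun q : (α × β) × (Fin (min k m) → α × β) => F (q.1 :: List.ofFn q.2)) ∘
          fun q => ((x, q.1.1), fun i : Fin (min k m) =>
            (q.1.2 ⟨i, lt_of_lt_of_le i.2 (min_le_left _ _)⟩,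
              q.2 ⟨i, lt_of_lt_of_le i.2 (min_le_right _ _)⟩)) := by
        funext q; simp only [Function.comp_apply, li_zip_ofFn]
      rw [this]
      refine (li_cons h (min k m)).comp ((measurable_const.prodMk
        (measurable_fst.comp measurable_fst)).prodMk (measurable_pi_lambda _ fun i => ?_))
      exact ((measurable_pi_apply _).comp (measurable_snd.comp measurable_fst)).prodMk
        ((measurable_pi_apply _).comp measurable_snd)
    exact MF2.meas_LI σ h3 n

end Pool.Agent.BSP
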