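import Pool.Agent.BSP.LemmaH
import Pool.Agent.BSP.CatDU
import Pool.Agent.BSP.ExpGeom
import Pool.Agent.BSP.CatSign

set_option autoImplicit false

/-!
# The laws of the marked pieces of all levels
-/

namespace Pool.Agent.BSP

open MeasureTheory ProbabilityTheory
open scoped ENNReal

/-- the law of a marked piece of mean duration `1 / Λ` -/
structure LLaw (p Λ : ℝ) (ρ : Measure Pc) : Prop where
  prob : IsProbabilityMeasure ρ
  sgn : ∃ ρ', IsProbabilityMeasure ρ' ∧ ρ = sgnProd p ρ'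
  DU : ρ.map (fun x => (pD x, pU x)) = (expMeasure √(2 * Λ)).prod (expMeasure √(2 * Λ))
  T : ρ.map pT = expMeasure Λ
  mark : ρ {x | pX x = false} ≤ 1 / 16

private theorem ll_mD : Measurable pD := measurable_fst
private theorem ll_mU : Measurable pU := measurable_fst.comp measurable_snd
private theorem ll_mT : Measurable pT :=
  measurable_fst.comp (measurable_snd.comp measurable_snd)
private theorem ll_mX : Measurable pX :=
  measurable_fst.comp (measurable_snd.comp (measurable_snd.comp measurable_snd))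

private theorem ll_exp_half {θ : ℝ} (hθ : 0 < θ) :
    ∫⁻ x, ENNReal.ofReal (Real.exp (-(θ * x))) ∂(expMeasure θ) = ENNReal.ofReal (1 / 2) := by
  have h1 : expMeasure θ = volume.withDensity (exponentialPDF θ) := rfl
  have hm : Measurable (fun x : ℝ => ENNReal.ofReal (Real.exp (-(θ * x)))) := by fun_prop
  have hp : Measurable (exponentialPDF θ) := by
    unfold exponentialPDF
    exact (measurable_exponentialPDFReal θ).ennreal_ofReal
  have hp2 : Measurable (exponentialPDF (2 * θ)) := by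
    unfold exponentialPDF
    exact (measurable_exponentialPDFReal (2 * θ)).ennreal_ofReal
  rw [h1, lintegral_withDensity_eq_lintegral_mul _ hp hm]
  have h2 : ∀ x, (exponentialPDF θ * fun x : ℝ => ENNReal.ofReal (Real.exp (-(θ * x)))) x =
      ENNReal.ofReal (1 / 2) * exponentialPDF (2 * θ) x := by
    intro x
    show exponentialPDF θ x * ENNReal.ofReal (Real.exp (-(θ * x))) = _
    rcases lt_or_ge x 0 with hx | hx
    · rw [exponentialPDF_of_neg hx, exponentialPDF_of_neg hx, zero_mul, mul_zero]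
    · rw [exponentialPDF_of_nonneg hx, exponentialPDF_of_nonneg hx,
        ← ENNReal.ofReal_mul (by positivity), ← ENNReal.ofReal_mul (by positivity)]
      congr 1
      have h3 : Real.exp (-(2 * θ * x)) = Real.exp (-(θ * x)) * Real.exp (-(θ * x)) := by
        rw [← Real.exp_add]
        congr 1
        ring
      rw [h3]
      ring
  rw [lintegral_congr h2, lintegral_const_mul _ hp2,
    lintegral_exponentialPDF_eq_one (by positivity), mul_one]

private theorem ll_E {θ : ℝ} (hθ : 0 < θ) {ρ : Measure Pc}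
    (hρ : ρ.map (fun x => (pD x, pU x)) = (expMeasure θ).prod (expMeasure θ)) :
    ∫⁻ x, ENNReal.ofReal (Real.exp (-(θ * (pD x + pU x)))) ∂ρ = ENNReal.ofReal (1 / 4) := by
  have : IsProbabilityMeasure (expMeasure θ) := isProbabilityMeasure_expMeasure hθ
  have h1 : ∫⁻ x, ENNReal.ofReal (Real.exp (-(θ * (pD x + pU x)))) ∂ρ =
      ∫⁻ q, ENNReal.ofReal (Real.exp (-(θ * (q.1 + q.2))))
        ∂(ρ.map (fun x => (pD x, pU x))) := by
    rw [lintegral_map (by fun_prop) (ll_mD.prodMk ll_mU)]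
  rw [h1, hρ]
  have h2 : ∀ q : ℝ × ℝ, ENNReal.ofReal (Real.exp (-(θ * (q.1 + q.2)))) =
      ENNReal.ofReal (Real.exp (-(θ * q.1))) * ENNReal.ofReal (Real.exp (-(θ * q.2))) := by
    intro q
    rw [← ENNReal.ofReal_mul (Real.exp_pos _).le, ← Real.exp_add]
    congr 2
    ring
  rw [lintegral_congr h2]
  rw [lintegral_prod_mul (f := fun x : ℝ => ENNReal.ofReal (Real.exp (-(θ * x))))
    (g := fun x : ℝ => ENNReal.ofReal (Real.exp (-(θ * x)))) (by fun_prop) (by fun_prop)]
  rw [ll_exp_half hθ, ← ENNReal.ofReal_mul (by norm_num)]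
  norm_num

private theorem ll_Ele {θ : ℝ} (hθ : 0 < θ) {ρ : Measure Pc}
    (hρ : ρ.map (fun x => (pD x, pU x)) = (expMeasure θ).prod (expMeasure θ)) :
    ∀ᵐ x ∂ρ, ENNReal.ofReal (Real.exp (-(θ * (pD x + pU x)))) ≤ 1 := by
  have : IsProbabilityMeasure (expMeasure θ) := isProbabilityMeasure_expMeasure hθ
  have h1 : ∀ᵐ q ∂((expMeasure θ).prod (expMeasure θ)), 0 < q.1 ∧ 0 < q.2 := by
    have ha : ∀ᵐ q ∂((expMeasure θ).prod (expMeasure θ)), 0 < q.1 :=
      Measure.quasiMeasurePreserving_fst.ae (exp_pos_ae hθ)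
    have hb : ∀ᵐ q ∂((expMeasure θ).prod (expMeasure θ)), 0 < q.2 :=
      Measure.quasiMeasurePreserving_snd.ae (exp_pos_ae hθ)
    filter_upwards [ha, hb] with q h2 h3
    exact ⟨h2, h3⟩
  rw [← hρ] at h1
  have h2 := ae_of_ae_map (ll_mD.prodMk ll_mU).aemeasurable h1
  filter_upwards [h2] with x hx
  rw [ENNReal.ofReal_le_one]
  apply Real.exp_le_one_iff.2
  have h3 : 0 ≤ θ * (pD x + pU x) := by
    apply mul_nonneg hθ.le
    exact add_nonneg hx.1.le hx.2.le
  linarith

private theorem ll_short {Λ : ℝ} (hΛ : 0 < Λ) :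
    expMeasure Λ {t | t < 1 / (32 * Λ)} ≤ ENNReal.ofReal (1 / 32) := by
  have : IsProbabilityMeasure (expMeasure Λ) := isProbabilityMeasure_expMeasure hΛ
  have hr : (0 : ℝ) ≤ 1 / (32 * Λ) := by positivity
  have h1 := exp_tail hΛ hr
  have h2 : {t : ℝ | t < 1 / (32 * Λ)} ⊆ {t : ℝ | 1 / (32 * Λ) < t}ᶜ := by
    intro t ht hc
    have ht1 : t < 1 / (32 * Λ) := ht
    have ht2 : 1 / (32 * Λ) < t := hc
    exact lt_asymm ht1 ht2
  refine (measure_mono h2).trans ?_
  have hms : MeasurableSet {t : ℝ | 1 / (32 * Λ) < t} := measurableSet_Ioi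
  rw [prob_compl_eq_one_sub hms, h1]
  have h3 : Λ * (1 / (32 * Λ)) = 1 / 32 := by field_simp
  rw [h3, ← ENNReal.ofReal_one, ← ENNReal.ofReal_sub _ (Real.exp_pos _).le]
  apply ENNReal.ofReal_le_ofReal
  have h4 := Real.add_one_le_exp (-(1 / 32 : ℝ))
  linarith

/-- thinning without the sign -/
private noncomputable def ll_thin' (r : ℝ) (x : ℝ × ℝ × ℝ × Bool) : ℝ × ℝ × ℝ × Bool :=
  (x.1, x.2.1, x.2.2.1, pX (thin r (x.1, x.2.1, x.2.2.1, x.2.2.2, true)))

private theorem ll_mthin' (r : ℝ) : Measurable (ll_thin' r) := by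
  have h1 : Measurable (fun x : ℝ × ℝ × ℝ × Bool =>
      ((x.1, x.2.1, x.2.2.1, x.2.2.2, true) : Pc)) := by fun_prop
  have h2 := ll_mX.comp ((meas_thin r).comp h1)
  unfold ll_thin'
  exact measurable_fst.prodMk ((measurable_fst.comp measurable_snd).prodMk
    ((measurable_fst.comp (measurable_snd.comp measurable_snd)).prodMk h2))

private theorem ll_sgnProd_thin (p r : ℝ) (ρ : Measure (ℝ × ℝ × ℝ × Bool)) [SFinite ρ] :
    (sgnProd p ρ).map (thin r) = sgnProd p (ρ.map (ll_thin' r)) := by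
  have hf : Measurable (fun q : (ℝ × ℝ × ℝ × Bool) × Bool =>
      ((q.1.1, q.1.2.1, q.1.2.2.1, q.1.2.2.2, q.2) : Pc)) := by fun_prop
  unfold sgnProd
  rw [Measure.map_map (meas_thin r) hf]
  have h1 : (ρ.map (ll_thin' r)).prod (berM p) =
      (ρ.prod (berM p)).map (Prod.map (ll_thin' r) id) := by
    have h2 := Measure.map_prod_map ρ (berM p) (ll_mthin' r) measurable_id
    rw [Measure.map_id] at h2
    exact h2
  rw [h1, Measure.map_map hf ((ll_mthin' r).prodMap measurable_id)]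
  congr 1

private theorem ll_pX_cat (N : ℕ) (r : ℝ) (l : List Pc) :
    pX (cat N r l) = true ↔ HasGood N (l.map (thin r)) := by
  classical
  simp only [pX, cat]
  exact decide_eq_true_iff

theorem LLaw.thin {p Λ : ℝ} (hp0 : 0 ≤ p) (hp1 : p ≤ 1) (hΛ : 0 < Λ) {ρ : Measure Pc}
    (h : LLaw p Λ ρ) : ∃ g : ℝ, 1 / 2 ≤ g ∧ g ≤ 1 ∧
      PLaw p g √(2 * Λ) (ρ.map (thin (1 / (32 * Λ)))) := by
  have := h.prob
  set θ : ℝ := √(2 * Λ) with hθd
  have hθ : 0 < θ := Real.sqrt_pos.2 (by positivity)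
  set r : ℝ := 1 / (32 * Λ) with hrd
  let E : Pc → ℝ≥0∞ := fun x => ENNReal.ofReal (Real.exp (-(θ * (pD x + pU x))))
  have hE : Measurable E := by
    have h1 : Measurable (fun q : ℝ × ℝ => ENNReal.ofReal (Real.exp (-(θ * (q.1 + q.2))))) := by
      fun_prop
    exact h1.comp (ll_mD.prodMk ll_mU)
  have hgood : MeasurableSet {x : Pc | pX (Pool.Agent.BSP.thin r x) = true} :=
    (ll_mX.comp (meas_thin r)) (measurableSet_singleton true)
  let I : ℝ≥0∞ := ∫⁻ x, (if pX (Pool.Agent.BSP.thin r x) = true then E x else 0) ∂ρ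
  have hI1 : I ≤ ENNReal.ofReal (1 / 4) := by
    rw [← ll_E hθ h.DU]
    apply lintegral_mono
    intro x
    show (if pX (Pool.Agent.BSP.thin r x) = true then E x else 0) ≤ E x
    split_ifs
    · exact le_rfl
    · exact zero_le
  have hbadX : ρ {x | pX x = false} ≤ ENNReal.ofReal (1 / 16) := by
    refine h.mark.trans (le_of_eq ?_)
    rw [ENNReal.ofReal_div_of_pos (by norm_num)]
    norm_num
  have hbadT : ρ {x | pT x < r} ≤ ENNReal.ofReal (1 / 32) := by
    have h1 := ll_short hΛ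
    have hms : MeasurableSet {t : ℝ | t < 1 / (32 * Λ)} := measurableSet_Iio
    rw [← h.T, Measure.map_apply ll_mT hms] at h1
    exact h1
  have hI2 : ENNReal.ofReal (1 / 4) ≤ I + (ENNReal.ofReal (1 / 16) + ENNReal.ofReal (1 / 32)) := by
    rw [← ll_E hθ h.DU]
    have hm1 : Measurable (fun x : Pc => if pX (Pool.Agent.BSP.thin r x) = true then E x else 0) :=
      Measurable.ite hgood hE measurable_const
    have hmX : MeasurableSet {x : Pc | pX x = false} := ll_mX (measurableSet_singleton false)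
    have hmT : MeasurableSet {x : Pc | pT x < r} := measurableSet_lt ll_mT measurable_const
    calc ∫⁻ x, E x ∂ρ ≤ ∫⁻ x, ((if pX (Pool.Agent.BSP.thin r x) = true then E x else 0) +
          (({x : Pc | pX x = false}.indicator 1 x) +
            ({x : Pc | pT x < r}.indicator 1 x))) ∂ρ := by
          apply lintegral_mono_ae
          filter_upwards [ll_Ele hθ h.DU] with x hx
          by_cases h1 : pX (Pool.Agent.BSP.thin r x) = true
          · rw [if_pos h1]
            exact le_add_right le_rfl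
          · rw [if_neg h1, zero_add]
            refine le_trans hx ?_
            by_cases h2 : pX x = false
            · rw [Set.indicator_of_mem (show x ∈ {x : Pc | pX x = false} from h2)]
              exact le_add_right le_rfl
            · have h3 : x ∈ {x : Pc | pT x < r} := by
                by_contra h4
                apply h1
                have h5 : pX x = true := by simpa using h2
                have h6 : r ≤ pT x := not_lt.1 h4
                show (pX x && decide (r ≤ pT x)) = true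
                rw [h5, Bool.true_and]
                exact decide_eq_true h6
              rw [Set.indicator_of_mem h3]
              exact le_add_left le_rfl
      _ = I + (ρ {x | pX x = false} + ρ {x | pT x < r}) := by
          rw [lintegral_add_left hm1, lintegral_add_left (measurable_one.indicator hmX),
            lintegral_indicator_one hmX, lintegral_indicator_one hmT]
      _ ≤ _ := add_le_add le_rfl (add_le_add hbadX hbadT)
  have hIf : I ≠ ⊤ := ne_top_of_le_ne_top ENNReal.ofReal_ne_top hI1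
  refine ⟨4 * I.toReal, ?_, ?_, ?_⟩
  · have h1 := ENNReal.toReal_mono (by
      exact ENNReal.add_ne_top.2 ⟨hIf, ENNReal.add_ne_top.2
        ⟨ENNReal.ofReal_ne_top, ENNReal.ofReal_ne_top⟩⟩) hI2
    rw [ENNReal.toReal_ofReal (by norm_num), ENNReal.toReal_add hIf (by
      exact ENNReal.add_ne_top.2 ⟨ENNReal.ofReal_ne_top, ENNReal.ofReal_ne_top⟩),
      ENNReal.toReal_add ENNReal.ofReal_ne_top ENNReal.ofReal_ne_top,
      ENNReal.toReal_ofReal (by norm_num), ENNReal.toReal_ofReal (by norm_num)] at h1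
    linarith
  · have h1 := ENNReal.toReal_mono ENNReal.ofReal_ne_top hI1
    rw [ENNReal.toReal_ofReal (by norm_num)] at h1
    linarith
  · obtain ⟨ρ', hρ', hρ⟩ := h.sgn
    refine ⟨?_, ?_, ?_, ?_⟩
    · exact Measure.isProbabilityMeasure_map (meas_thin r).aemeasurable
    · refine ⟨ρ'.map (ll_thin' r), ?_, ?_⟩
      · exact Measure.isProbabilityMeasure_map (ll_mthin' r).aemeasurable
      · rw [hρ, ll_sgnProd_thin]
    · rw [Measure.map_map (ll_mD.prodMk ll_mU) (meas_thin r)]
      exact h.DU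
    · have hm : Measurable (fun x : Pc => if pX x = true then E x else 0) :=
        Measurable.ite (ll_mX (measurableSet_singleton true)) hE measurable_const
      show ∫⁻ x, (if pX x = true then E x else 0) ∂(ρ.map (Pool.Agent.BSP.thin r)) = _
      rw [lintegral_map hm (meas_thin r)]
      have h1 : 4 * I.toReal / 4 = I.toReal := by ring
      rw [h1, ENNReal.ofReal_toReal hIf]
      rfl

theorem LLaw.step {p α δ : ℝ} (hp0 : 0 < p) (hp1 : p < 1) (hα0 : 1 / 2 < α) (hα1 : α < 1)
    (hr : rr (1 / (2 * α)) = (1 - p) / p) (hδ : 0 < δ) :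
    ∃ Q0 : ℕ, 2 ≤ Q0 ∧ ∀ Q : ℕ, Q0 ≤ Q → ∀ N : ℕ, 1 ≤ N → (N : ℝ) ≤ (Q : ℝ) ^ (α - δ) →
      ∀ (Λ : ℝ) (ρ : Measure Pc), 0 < Λ → LLaw p (Q * Λ) ρ →
        LLaw p Λ (catLaw N (1 / (32 * (Q * Λ))) (1 / (Q : ℝ)) ρ) := by
  obtain ⟨Q0, hQ0, hH⟩ := lemmaH hp0 hp1 hα0 hα1 hr hδ
  refine ⟨Q0, hQ0, ?_⟩
  intro Q hQ N hN hNQ Λ ρ hΛ h
  have := h.prob
  have hQpos : (0 : ℝ) < Q := by
    have : 0 < Q := by omega
    exact_mod_cast this
  have hQ1 : (1 : ℝ) ≤ Q := by
    have : 1 ≤ Q := by omega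
    exact_mod_cast this
  have hκ0 : (0 : ℝ) < 1 / (Q : ℝ) := by positivity
  have hκ1 : 1 / (Q : ℝ) ≤ 1 := by
    rw [div_le_one hQpos]
    exact hQ1
  have hQΛ : 0 < (Q : ℝ) * Λ := by positivity
  have hθ : 0 < √(2 * ((Q : ℝ) * Λ)) := Real.sqrt_pos.2 (by positivity)
  set r : ℝ := 1 / (32 * ((Q : ℝ) * Λ)) with hrd
  have hsq : √(1 / (Q : ℝ)) * √(2 * ((Q : ℝ) * Λ)) = √(2 * Λ) := by
    rw [← Real.sqrt_mul hκ0.le]
    congr 1
    field_simp
  refine ⟨catLaw_prob N r hκ0 hκ1 ρ, ?_, ?_, ?_, ?_⟩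
  · obtain ⟨ρ', hρ', hρ⟩ := h.sgn
    rw [hρ]
    exact catLaw_sgn N r hp0.le hp1.le hκ0 hκ1
  · rw [catLaw_DU N r hθ hκ0 hκ1 h.DU, hsq]
  · rw [catLaw_T N r hQΛ hκ0 hκ1 h.T]
    congr 1
    field_simp
  · obtain ⟨g, hg0, hg1, hg⟩ := LLaw.thin hp0.le hp1.le hQΛ h
    have h1 := hH Q hQ N hN hNQ g _ _ hg0 hg1 hθ hg
    refine le_trans (le_of_eq ?_) h1
    have hmX : MeasurableSet {x : Pc | pX x = false} := ll_mX (measurableSet_singleton false)
    rw [← lintegral_indicator_one hmX,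
      lintegral_catLaw N r _ ρ (measurable_one.indicator hmX)]
    congr 1
    funext n
    congr 1
    have hMF : MF (fun l : List Pc => ind (¬ HasGood N l)) := by
      intro m
      have h2 := meas_hasGood N m
      have h3 : (fun v : Fin m → Pc => ind (¬ HasGood N (List.ofFn v))) =
          fun v : Fin m → Pc => 1 - ind (HasGood N (List.ofFn v)) := by
        funext v
        unfold ind
        by_cases hh : HasGood N (List.ofFn v)
        · simp [hh]
        · simp [hh]
      rw [h3]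
      exact measurable_const.sub h2
    rw [LI_map (meas_thin r) hMF]
    apply LI_congr
    intro l _
    unfold ind
    by_cases hh : HasGood N (l.map (Pool.Agent.BSP.thin r))
    · rw [Set.indicator_of_notMem, if_neg (not_not.2 hh)]
      show ¬ (pX (cat N r l) = false)
      rw [(ll_pX_cat N r l).2 hh]
      exact Bool.noConfusion
    · have hmem : cat N r l ∈ {x : Pc | pX x = false} := by
        show pX (cat N r l) = false
        rw [Bool.eq_false_iff]
        exact fun hx => hh ((ll_pX_cat N r l).1 hx)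
      rw [Set.indicator_of_mem hmem, if_pos hh]
      rfl

/-- the laws of the pieces of level `K`, from the laws of the unmarked pieces -/
noncomputable def levLaw (N Q : ℕ) (base : ℝ → Measure Pc) : ℕ → ℝ → Measure Pc
  | 0, Λ => base Λ
  | K + 1, Λ => catLaw N (1 / (32 * (Q * Λ))) (1 / (Q : ℝ)) (levLaw N Q base K (Q * Λ))

theorem levLaw_LLaw {p α δ : ℝ} (hp0 : 0 < p) (hp1 : p < 1) (hα0 : 1 / 2 < α) (hα1 : α < 1)
    (hr : rr (1 / (2 * α)) = (1 - p) / p) (hδ : 0 < δ) :
    ∃ Q0 : ℕ, 2 ≤ Q0 ∧ ∀ Q : ℕ, Q0 ≤ Q → ∀ N : ℕ, 1 ≤ N → (N : ℝ) ≤ (Q : ℝ) ^ (α - δ) →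
      ∀ base : ℝ → Measure Pc, (∀ Λ, 0 < Λ → LLaw p Λ (base Λ)) →
      ∀ (K : ℕ) (Λ : ℝ), 0 < Λ → LLaw p Λ (levLaw N Q base K Λ) := by
  obtain ⟨Q0, hQ0, hS⟩ := LLaw.step hp0 hp1 hα0 hα1 hr hδ
  refine ⟨Q0, hQ0, ?_⟩
  intro Q hQ N hN hNQ base hbase K
  have hQpos : (0 : ℝ) < Q := by
    have : 0 < Q := by omega
    exact_mod_cast this
  induction K with
  | zero => exact hbase
  | succ K ih =>
    intro Λ hΛ
    exact hS Q hQ N hN hNQ Λ _ hΛ (ih (Q * Λ) (by positivity))

end Pool.Agent.BSP
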