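import Pool.Agent.BSP.LProb
import Pool.Agent.BSP.ExcNice
import Pool.Agent.BSP.BGen
import Pool.Agent.BSP.EMain

set_option autoImplicit false

/-!
# Lower bound
-/

namespace Pool.Agent.BSP

open MeasureTheory ProbabilityTheory Set Filter
open scoped ENNReal NNReal Topology

variable {Ω : Type*} [MeasurableSpace Ω] {P : Measure Ω}

private theorem nested_aux {p : ℝ} (hp0 : 0 < p) (hp1 : p < 1) {C : ℝ≥0 → Ω → ℝ} (hC : BM C P)
    {loc : ℕ → Ω → ℝ} {sgn : ℕ → Ω → Bool} (hs : Sgn P p C loc sgn) {N Q : ℕ} (hQ : 1 ≤ Q)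
    (hL : ∀ (K : ℕ) (Λ : ℝ), 0 < Λ →
      LLaw p Λ (levLaw N Q (fun Λ => sgnProd p (law3 C P Λ)) K Λ)) :
    ∀ᵐ ω ∂P, 0 < C 1 ω → ∃ ℓ r : ℝ, 0 < ℓ ∧ 1 + ℓ < dR (fun t => C t ω) ∧ 0 < r ∧
        ∀ K, Inn (pth C ω) (sw (fun t => C t ω) (fun k => loc k ω) fun k => sgn k ω) N Q K r
          1 (1 + ℓ) := by
  have hP := hC.prob
  have hQ0 : (0 : ℝ) < Q := by exact_mod_cast hQ
  set Bad : Set Ω := {ω | GenPath (pth C ω) ∧ 0 < C 1 ω ∧ ¬ ∃ ℓ r : ℝ, 0 < ℓ ∧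
    1 + ℓ < dR (fun t => C t ω) ∧ 0 < r ∧
        ∀ K, Inn (pth C ω) (sw (fun t => C t ω) (fun k => loc k ω) fun k => sgn k ω) N Q K r
          1 (1 + ℓ)} with hBad
  set T : ℕ → Set Ω := fun j => {ω | 0 < C 1 ω ∧ dR (fun t => C t ω) ≤ 1 + 1 / ((j : ℝ) + 1)}
    with hT
  have hTm : ∀ j, MeasurableSet (T j) := fun j =>
    (measurableSet_lt measurable_const (hC.meas 1)).inter
      (measurableSet_le (meas_dR hC.meas hC.cont) measurable_const)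
  have hTa : Antitone T := by
    intro i j hij ω hω
    refine ⟨hω.1, hω.2.trans ?_⟩
    have : 1 / ((j : ℝ) + 1) ≤ 1 / ((i : ℝ) + 1) := by
      apply one_div_le_one_div_of_le (by positivity)
      have : (i : ℝ) ≤ j := by exact_mod_cast hij
      linarith
    linarith
  have hgen := bm_genPath hC
  have hT0 : P (⋂ j, T j) = 0 := by
    refine measure_mono_null ?_ hgen
    intro ω hω hg
    simp only [mem_iInter] at hω
    have h1 : 0 < C 1 ω := (hω 0).1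
    have h2 : dR (fun t => C t ω) ≤ 1 := by
      have ht : Tendsto (fun j : ℕ => 1 + 1 / ((j : ℝ) + 1)) atTop (𝓝 (1 + 0)) :=
        tendsto_const_nhds.add tendsto_one_div_add_atTop_nhds_zero_nat
      rw [add_zero] at ht
      exact ge_of_tendsto' ht fun j => (hω j).2
    have h3 := (exc_ends (w := fun t => C t ω) hg h1).2.2.1
    linarith
  have hTt : Tendsto (fun j => P (T j)) atTop (𝓝 0) := by
    have := tendsto_measure_iInter_atTop (μ := P) (fun j => (hTm j).nullMeasurableSet) hTa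
      ⟨0, measure_ne_top _ _⟩
    rwa [hT0] at this
  -- main estimate
  have key : ∀ (j n : ℕ) (Λ : ℝ), 1 ≤ n → 0 < Λ → P Bad ≤ P (T j) + ((1 / 16) ^ n +
      n * ENNReal.ofReal (Real.exp (-(Λ * (1 / ((j : ℝ) + 1)) / n)))) := by
    intro j n Λ hn hΛ
    set ℓ : ℝ := 1 / ((j : ℝ) + 1) with hℓ
    have hℓ0 : 0 < ℓ := by positivity
    set E : ℕ → Set Ω := fun K => {ω | GenPath (pth C ω) ∧ 0 < C 1 ω ∧
      1 + ℓ < dR (fun t => C t ω) ∧
      ¬ Inn (pth C ω) (sw (fun t => C t ω) (fun k => loc k ω) fun k => sgn k ω) N Q K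
        (1 / (32 * (Q * Λ))) 1 (1 + ℓ)} with hE
    have hEm : Monotone E := by
      refine monotone_nat_of_le_succ fun K ω hω => ⟨hω.1, hω.2.1, hω.2.2.1, fun h => ?_⟩
      exact hω.2.2.2 h.pred
    have hEP : P (⋃ K, E K) ≤ (1 / 16) ^ n +
        n * ENNReal.ofReal (Real.exp (-(Λ * ℓ / n))) := by
      rw [hEm.measure_iUnion]
      exact iSup_le fun K => low_event hp0.le hp1.le hC hs hQ hΛ hℓ0 (hL K Λ hΛ) hn
    have hsub : Bad ⊆ T j ∪ ⋃ K, E K := by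
      intro ω hω
      obtain ⟨hg, h1, h2⟩ := hω
      by_cases hd : dR (fun t => C t ω) ≤ 1 + ℓ
      · exact Or.inl ⟨h1, hd⟩
      · right
        rw [mem_iUnion]
        by_contra hcon
        refine h2 ⟨ℓ, 1 / (32 * (Q * Λ)), hℓ0, not_le.1 hd, by positivity, fun K => ?_⟩
        by_contra hK
        exact hcon ⟨K, hg, h1, not_le.1 hd, hK⟩
    exact (measure_mono hsub).trans ((measure_union_le _ _).trans (add_le_add le_rfl hEP))
  have key2 : ∀ (j n : ℕ), 1 ≤ n → P Bad ≤ P (T j) + (1 / 16) ^ n := by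
    intro j n hn
    have hn0 : (0 : ℝ) < n := by exact_mod_cast hn
    have ht : Tendsto (fun m : ℕ => P (T j) + ((1 / 16 : ℝ≥0∞) ^ n + n * ENNReal.ofReal
        (Real.exp (-(((m : ℝ) + 1) * (1 / ((j : ℝ) + 1)) / n))))) atTop
        (𝓝 (P (T j) + ((1 / 16) ^ n + n * 0))) := by
      refine tendsto_const_nhds.add (tendsto_const_nhds.add ?_)
      refine ENNReal.Tendsto.const_mul ?_ (Or.inr (ENNReal.natCast_ne_top n))
      rw [← ENNReal.ofReal_zero]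
      refine ENNReal.tendsto_ofReal (Real.tendsto_exp_neg_atTop_nhds_zero.comp ?_)
      have : (fun m : ℕ => ((m : ℝ) + 1) * (1 / ((j : ℝ) + 1)) / n) =
          fun m : ℕ => ((m : ℝ) + 1) * (1 / ((j : ℝ) + 1) / n) := by
        funext m; ring
      rw [this]
      exact (tendsto_atTop_add_const_right _ _ tendsto_natCast_atTop_atTop).atTop_mul_const
        (by positivity)
    simp only [mul_zero, add_zero] at ht
    exact ge_of_tendsto' ht fun m => key j n _ hn (by positivity)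
  have key3 : ∀ j, P Bad ≤ P (T j) := by
    intro j
    have ht : Tendsto (fun n : ℕ => P (T j) + (1 / 16 : ℝ≥0∞) ^ n) atTop (𝓝 (P (T j) + 0)) := by
      refine tendsto_const_nhds.add (ENNReal.tendsto_pow_atTop_nhds_zero_of_lt_one ?_)
      rw [ENNReal.div_lt_iff (by simp) (by simp)]
      norm_num
    rw [add_zero] at ht
    refine ge_of_tendsto ht ?_
    filter_upwards [eventually_ge_atTop 1] with n hn using key2 j n hn
  have hBad0 : P Bad = 0 := le_antisymm (ge_of_tendsto' hTt key3) bot_le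
  have : ∀ᵐ ω ∂P, ω ∉ Bad := measure_eq_zero_iff_ae_notMem.1 hBad0
  filter_upwards [this, hgen] with ω h1 h2 h3
  by_contra hcon
  exact h1 ⟨h2, h3, hcon⟩

/-- on almost every path with `C 1 > 0` there are nested families of all depths close to time `1`:
`low_event` (`Inn.pred`, `Inn.mono`: the exceptional events increase with the depth) -/
theorem low_nested {p α δ : ℝ} (hp0 : 0 < p) (hp1 : p < 1) (hα0 : 1 / 2 < α) (hα1 : α < 1)
    (hr : rr (1 / (2 * α)) = (1 - p) / p) (hδ : 0 < δ) {C : ℝ≥0 → Ω → ℝ} (hC : BM C P)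
    {loc : ℕ → Ω → ℝ} {sgn : ℕ → Ω → Bool} (hs : Sgn P p C loc sgn) :
    ∃ Q0 : ℕ, 2 ≤ Q0 ∧ ∀ Q : ℕ, Q0 ≤ Q → ∀ N : ℕ, 1 ≤ N → (N : ℝ) ≤ (Q : ℝ) ^ (α - δ) →
      ∀ᵐ ω ∂P, 0 < C 1 ω → ∃ ℓ r : ℝ, 0 < ℓ ∧ 1 + ℓ < dR (fun t => C t ω) ∧ 0 < r ∧
        ∀ K, Inn (pth C ω) (sw (fun t => C t ω) (fun k => loc k ω) fun k => sgn k ω) N Q K r
          1 (1 + ℓ) := by
  obtain ⟨Q0, h2, H⟩ := levLaw_LLaw hp0 hp1 hα0 hα1 hr hδ
  refine ⟨Q0, h2, fun Q hQ N hN hNQ => ?_⟩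
  exact nested_aux hp0 hp1 hC hs (by omega) (H Q hQ N hN hNQ _
    fun Λ hΛ => base_LLaw hp0.le hp1.le hC hΛ)

/-- choice of `Q` and `N` -/
theorem lower_exponents {α β : ℝ} (hα0 : 1 / 2 < α) (hα1 : α < 1) (hβ0 : 0 < β) (hβ : β < α) :
    ∃ δ : ℝ, 0 < δ ∧ ∀ Q0 : ℕ, ∃ Q N : ℕ, Q0 ≤ Q ∧ 2 ≤ Q ∧ 2 ≤ N ∧
      (N : ℝ) ≤ (Q : ℝ) ^ (α - δ) ∧ β ≤ Real.log N / Real.log Q := by
  refine ⟨(α - β) / 2, by linarith, fun Q0 => ?_⟩
  set γ : ℝ := α - (α - β) / 2 with hγ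
  have hγ0 : 0 < γ := by rw [hγ]; linarith
  have hγβ : 0 < γ - β := by rw [hγ]; linarith
  have h1 := ((tendsto_rpow_atTop hγ0).comp tendsto_natCast_atTop_atTop).eventually_ge_atTop 4
  have h2 := ((tendsto_rpow_atTop hγβ).comp tendsto_natCast_atTop_atTop).eventually_ge_atTop 2
  obtain ⟨Q, hQ1, hQ2, hQ3, hQ4⟩ := (h1.and (h2.and ((eventually_ge_atTop Q0).and
    (eventually_ge_atTop 2)))).exists
  simp only [Function.comp] at hQ1 hQ2
  have hQ0 : (1 : ℝ) < Q := by exact_mod_cast (by omega : 1 < Q)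
  have hlog : 0 < Real.log Q := Real.log_pos hQ0
  have hpos : (0 : ℝ) < (Q : ℝ) ^ γ := by positivity
  have hN1 : (Q : ℝ) ^ γ / 2 ≤ (⌊(Q : ℝ) ^ γ⌋₊ : ℝ) := by
    have := (Nat.lt_floor_add_one ((Q : ℝ) ^ γ)).le
    linarith
  refine ⟨Q, ⌊(Q : ℝ) ^ γ⌋₊, hQ3, hQ4, ?_, Nat.floor_le hpos.le, ?_⟩
  · have : (2 : ℝ) ≤ (⌊(Q : ℝ) ^ γ⌋₊ : ℝ) := by linarith
    exact_mod_cast this
  · rw [le_div_iff₀ hlog]
    have h5 : Real.log ((Q : ℝ) ^ γ / 2) ≤ Real.log (⌊(Q : ℝ) ^ γ⌋₊ : ℝ) :=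
      Real.log_le_log (by positivity) hN1
    rw [Real.log_div hpos.ne' (by norm_num), Real.log_rpow (by linarith)] at h5
    have h6 : Real.log 2 ≤ (γ - β) * Real.log Q := by
      rw [← Real.log_rpow (by linarith)]
      exact Real.log_le_log (by norm_num) hQ2
    nlinarith

theorem lower_as {p α : ℝ} (hp0 : 0 < p) (hp1 : p < 1) (hα0 : 1 / 2 < α) (hα1 : α < 1)
    (hr : rr (1 / (2 * α)) = (1 - p) / p) {C : ℝ≥0 → Ω → ℝ} (hC : BM C P)
    {loc : ℕ → Ω → ℝ} {sgn : ℕ → Ω → Bool} (hs : Sgn P p C loc sgn) :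
    ∀ᵐ ω ∂P, 0 < C 1 ω → ∀ β : ℝ, β < α → ∃ A : Set (ℝ × ℝ), A ⊆ supp (perm (exc fun t => C t ω)
      (signAt (fun k => loc k ω) fun k => sgn k ω)) ∧ Incr A ∧ ENNReal.ofReal β ≤ dimE A := by
  have main : ∀ β : ℝ, 0 < β → β < α → ∀ᵐ ω ∂P, 0 < C 1 ω → ∃ A : Set (ℝ × ℝ),
      A ⊆ supp (perm (exc fun t => C t ω)
      (signAt (fun k => loc k ω) fun k => sgn k ω)) ∧ Incr A ∧ ENNReal.ofReal β ≤ dimE A := by
    intro β hβ0 hβ
    obtain ⟨δ, hδ, H⟩ := lower_exponents hα0 hα1 hβ0 hβ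
    obtain ⟨Q0, _, H'⟩ := low_nested hp0 hp1 hα0 hα1 hr hδ hC hs
    obtain ⟨Q, N, h1, h2, h3, h4, h5⟩ := H Q0
    filter_upwards [H' Q h1 N (by omega) h4, bm_genPath hC] with ω hω hg h0
    obtain ⟨ℓ, r, hℓ, hd, hr, hI⟩ := hω h0
    obtain ⟨e1, e2, e3, e4, e5, e6⟩ := exc_ends (w := fun t => C t ω) hg h0
    have hdg : 0 < dR (fun t => C t ω) - gL (fun t => C t ω) := by linarith
    obtain ⟨A, hA1, hA2, hA3⟩ := lower_det (e := exc fun t => C t ω)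
      (s := signAt (fun k => loc k ω) fun k => sgn k ω) (exc_nice (w := fun t => C t ω) hg h0) h3
      (Q := Q) (by exact_mod_cast (by omega : 1 < Q)) (div_pos hr hdg)
      (a := (1 - gL (fun t => C t ω)) / (dR (fun t => C t ω) - gL (fun t => C t ω)))
      (b := (1 + ℓ - gL (fun t => C t ω)) / (dR (fun t => C t ω) - gL (fun t => C t ω)))
      (div_nonneg (by linarith) hdg.le) ((div_le_one hdg).2 (by linarith))
      (fun k => inn_exc (w := fun t => C t ω) hg h0 _ _ (Nat.cast_nonneg Q) k hr.le e2.le hd.le (hI k))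
    exact ⟨A, hA1, hA2, (ENNReal.ofReal_le_ofReal h5).trans hA3⟩
  have hseq : ∀ᵐ ω ∂P, ∀ j : ℕ, 0 < C 1 ω → ∃ A : Set (ℝ × ℝ),
      A ⊆ supp (perm (exc fun t => C t ω)
      (signAt (fun k => loc k ω) fun k => sgn k ω)) ∧ Incr A ∧
      ENNReal.ofReal (α - 1 / ((j : ℝ) + 3)) ≤ dimE A := by
    refine ae_all_iff.2 fun j => main _ ?_ ?_
    · have : 1 / ((j : ℝ) + 3) ≤ 1 / 3 := by
        apply one_div_le_one_div_of_le (by norm_num)
        have : (0 : ℝ) ≤ j := Nat.cast_nonneg j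
        linarith
      linarith
    · have : 0 < 1 / ((j : ℝ) + 3) := by positivity
      linarith
  filter_upwards [hseq] with ω hω h0 β hβ
  obtain ⟨j, hj⟩ := exists_nat_one_div_lt (sub_pos.2 hβ)
  obtain ⟨A, h1, h2, h3⟩ := hω j h0
  refine ⟨A, h1, h2, (ENNReal.ofReal_le_ofReal ?_).trans h3⟩
  have : 1 / ((j : ℝ) + 3) ≤ 1 / ((j : ℝ) + 1) := by
    apply one_div_le_one_div_of_le (by positivity)
    linarith
  linarith

end Pool.Agent.BSP
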