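import Pool.Agent.BSP.LLaw
import Pool.Agent.BSP.LIx

set_option autoImplicit false

/-!
# Patterns: the numbers of pieces of all levels
-/

namespace Pool.Agent.BSP

open MeasureTheory ProbabilityTheory
open scoped ENNReal

/-- patterns of level `k`: nested lists -/
def Pat : ℕ → Type
  | 0 => Unit
  | k + 1 => List (Pat k)

instance (k : ℕ) : MeasurableSpace (Pat k) := ⊤

/-- number of pieces of level `0` -/
def plen : (k : ℕ) → Pat k → ℕ
  | 0, _ => 1
  | k + 1, l => (List.map (plen k) l).sum

/-- apply `f` to consecutive parts of a list -/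
def splitMap {α : Type} (f : α → List Pc → Pc) (len : α → ℕ) : List α → List Pc → List Pc
  | [], _ => []
  | π :: πs, l => f π (l.take (len π)) :: splitMap f len πs (l.drop (len π))

/-- the marked piece of level `k` with the pattern `π` and the list `l` of pieces of level `0` -/
noncomputable def pfold (N Q : ℕ) : (k : ℕ) → ℝ → Pat k → List Pc → Pc
  | 0, _, _, l => l.headD default
  | k + 1, Λ, π, l => cat N (1 / (32 * (Q * Λ))) (splitMap (pfold N Q k (Q * Λ)) (plen k) π l)

/-- a list of patterns as a pattern -/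
def mkPat (k : ℕ) {n : ℕ} (v : Fin n → Pat k) : Pat (k + 1) := List.ofFn v

/-- the law of the pattern -/
noncomputable def patM (Q : ℕ) : (k : ℕ) → Measure (Pat k)
  | 0 => Measure.dirac ()
  | k + 1 => Measure.sum fun n : ℕ =>
      ENNReal.ofReal (1 / (Q : ℝ) * (1 - 1 / (Q : ℝ)) ^ n) •
        (Measure.pi fun _ : Fin (n + 1) => patM Q k).map (mkPat k)

instance (k : ℕ) : Countable (Pat k) := by
  induction k with
  | zero => exact inferInstanceAs (Countable Unit)
  | succ k ih =>
    have : Countable (Pat k) := ih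
    exact inferInstanceAs (Countable (List (Pat k)))

namespace LPatAux

instance (k : ℕ) : DiscreteMeasurableSpace (Pat k) :=
  inferInstanceAs (@DiscreteMeasurableSpace (Pat k) ⊤)

theorem meas_mkPat (k n : ℕ) : Measurable (mkPat k : (Fin n → Pat k) → Pat (k + 1)) :=
  Measurable.of_discrete

theorem mf_pat {k : ℕ} {β : Type*} [MeasurableSpace β] (F : List (Pat k) → β) : MF F :=
  fun _ => Measurable.of_discrete

theorem tsum_geo {Q : ℕ} (hQ : 1 ≤ Q) :
    ∑' n : ℕ, ENNReal.ofReal (1 / (Q : ℝ) * (1 - 1 / (Q : ℝ)) ^ n) = 1 := by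
  have hQR : (1 : ℝ) ≤ Q := by exact_mod_cast hQ
  have h0 : (0 : ℝ) < 1 / Q := by positivity
  have h1 : 1 / (Q : ℝ) ≤ 1 := by
    rw [div_le_one (by linarith)]
    exact hQR
  have h2 : 0 ≤ 1 - 1 / (Q : ℝ) := by linarith
  have h3 : 1 - 1 / (Q : ℝ) < 1 := by linarith
  rw [← ENNReal.ofReal_tsum_of_nonneg (fun n => mul_nonneg h0.le (pow_nonneg h2 n))
    ((summable_geometric_of_lt_one h2 h3).mul_left _), tsum_mul_left,
    tsum_geometric_of_lt_one h2 h3]
  have h4 : (1 - (1 - 1 / (Q : ℝ)))⁻¹ = Q := by
    rw [sub_sub_cancel, one_div, inv_inv]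
  rw [h4, one_div, inv_mul_cancel₀ (by linarith), ENNReal.ofReal_one]

end LPatAux

open LPatAux

theorem patM_prob {Q : ℕ} (hQ : 1 ≤ Q) (k : ℕ) : IsProbabilityMeasure (patM Q k) := by
  induction k with
  | zero =>
    have h0 : patM Q 0 = Measure.dirac () := rfl
    rw [h0]
    exact Measure.dirac.isProbabilityMeasure
  | succ k ih =>
    constructor
    unfold patM
    rw [Measure.sum_apply _ MeasurableSet.univ]
    have h1 : ∀ n : ℕ, (ENNReal.ofReal (1 / (Q : ℝ) * (1 - 1 / (Q : ℝ)) ^ n) •
        (Measure.pi fun _ : Fin (n + 1) => patM Q k).map (mkPat k)) Set.univ =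
        ENNReal.ofReal (1 / (Q : ℝ) * (1 - 1 / (Q : ℝ)) ^ n) := by
      intro n
      rw [Measure.smul_apply, Measure.map_apply (meas_mkPat k (n + 1)) MeasurableSet.univ,
        Set.preimage_univ, measure_univ, smul_eq_mul, mul_one]
    rw [tsum_congr h1, tsum_geo hQ]

/-- a pattern as a list of patterns -/
def unPat {k : ℕ} (π : Pat (k + 1)) : List (Pat k) := π

/-- all nested lists are nonempty -/
def Proper : (k : ℕ) → Pat k → Prop
  | 0, _ => True
  | k + 1, l => unPat l ≠ [] ∧ ∀ π ∈ unPat l, Proper k π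

theorem Proper.one_le {k : ℕ} {π : Pat k} (h : Proper k π) : 1 ≤ plen k π := by
  induction k with
  | zero => exact le_rfl
  | succ k ih =>
    obtain ⟨h1, h2⟩ := h
    obtain ⟨l, hl⟩ : ∃ l : List (Pat k), l = unPat π := ⟨_, rfl⟩
    have e : plen (k + 1) π = (List.map (plen k) l).sum := by
      rw [hl]
      rfl
    rw [← hl] at h1 h2
    rw [e]
    cases l with
    | nil => exact absurd rfl h1
    | cons x l =>
      have := ih (h2 x List.mem_cons_self)
      simp only [List.map_cons, List.sum_cons]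
      omega

theorem lintegral_patM {Q : ℕ} (hQ : 1 ≤ Q) (k : ℕ) (F : List (Pat k) → ℝ≥0∞) :
    ∫⁻ π, F π ∂(patM Q (k + 1)) = ∑' n : ℕ,
      ENNReal.ofReal (1 / (Q : ℝ) * (1 - 1 / (Q : ℝ)) ^ n) * LI (patM Q k) (n + 1) F := by
  have := patM_prob hQ k
  have h0 : patM Q (k + 1) = Measure.sum fun n : ℕ =>
      ENNReal.ofReal (1 / (Q : ℝ) * (1 - 1 / (Q : ℝ)) ^ n) •
        (Measure.pi fun _ : Fin (n + 1) => patM Q k).map (mkPat k) := rfl
  have hm : Measurable (fun π : Pat (k + 1) => F (unPat π)) := Measurable.of_discrete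
  have h1 : ∫⁻ π, F π ∂(patM Q (k + 1)) = ∫⁻ π, F (unPat π) ∂(patM Q (k + 1)) := rfl
  rw [h1, h0, lintegral_sum_measure]
  refine tsum_congr fun n => ?_
  rw [lintegral_smul_measure, smul_eq_mul, lintegral_map hm (meas_mkPat k (n + 1)),
    LI_pi (patM Q k) (mf_pat F) (n + 1)]
  rfl

theorem proper_ae {Q : ℕ} (hQ : 1 ≤ Q) (k : ℕ) : ∀ᵐ π ∂(patM Q k), Proper k π := by
  induction k with
  | zero => exact ae_of_all _ fun _ => trivial
  | succ k ih =>
    have hprob := patM_prob hQ k
    have hm : Measurable (fun π : Pat (k + 1) => ind (¬ Proper (k + 1) π)) :=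
      Measurable.of_discrete
    have h1 : ∫⁻ π, ind (¬ Proper (k + 1) π) ∂(patM Q (k + 1)) = 0 := by
      have h2 := lintegral_patM hQ k (fun l => ind (¬ (l ≠ [] ∧ ∀ π ∈ l, Proper k π)))
      have h3 : ∀ n : ℕ, LI (patM Q k) (n + 1)
          (fun l => ind (¬ (l ≠ [] ∧ ∀ π ∈ l, Proper k π))) = 0 := by
        intro n
        rw [LI_congr_ae (patM Q k) ih (G := fun _ => 0)]
        · exact LI_const (patM Q k) (n + 1) 0
        · intro l hl hpl
          have hne : l ≠ [] := by
            intro h
            rw [h] at hl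
            simp at hl
          have : (l ≠ [] ∧ ∀ π ∈ l, Proper k π) := ⟨hne, hpl⟩
          unfold ind
          rw [if_neg (not_not.2 this)]
      have h4 : ∫⁻ π, ind (¬ Proper (k + 1) π) ∂(patM Q (k + 1)) = ∑' n : ℕ,
          ENNReal.ofReal (1 / (Q : ℝ) * (1 - 1 / (Q : ℝ)) ^ n) * LI (patM Q k) (n + 1)
            (fun l => ind (¬ (l ≠ [] ∧ ∀ π ∈ l, Proper k π))) := h2
      rw [h4, tsum_congr (fun n => by rw [h3 n, mul_zero]), tsum_zero]
    rw [lintegral_eq_zero_iff hm] at h1
    filter_upwards [h1] with π hπ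
    by_contra hc
    have : ind (¬ Proper (k + 1) π) = 1 := by
      unfold ind
      rw [if_pos hc]
    rw [this] at hπ
    simp at hπ

namespace LPatAux

theorem ofFn_take {α : Type*} {n : ℕ} (v : Fin n → α) (m : ℕ) :
    (List.ofFn v).take m = List.ofFn (fun i : Fin (min m n) =>
      v ⟨i, lt_of_lt_of_le i.2 (min_le_right _ _)⟩) := by
  apply List.ext_getElem
  · simp
  · intro i h1 h2
    simp

theorem ofFn_drop {α : Type*} {n : ℕ} (v : Fin n → α) (m : ℕ) :
    (List.ofFn v).drop m = List.ofFn (fun i : Fin (n - m) =>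
      v ⟨m + i, by omega⟩) := by
  apply List.ext_getElem
  · simp
  · intro i h1 h2
    simp

/-- measurability of the decomposition of a list into parts -/
theorem mf2_splitMap {α : Type} {f : α → List Pc → Pc} (hf : ∀ π, MF (f π)) (len : α → ℕ)
    {β : Type*} [MeasurableSpace β] (πs : List α) : ∀ {γ : Type} [MeasurableSpace γ]
      {F : γ → List Pc → β} (_ : MF2 F), MF2 fun y l => F y (splitMap f len πs l) := by
  induction πs with
  | nil =>
    intro γ _ F hF n
    exact hF.nil.comp measurable_fst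
  | cons π πs ih =>
    intro γ _ F hF n
    have h1 := ih hF.cons (n - len π)
    have e : (fun q : γ × (Fin n → Pc) => F q.1 (splitMap f len (π :: πs) (List.ofFn q.2))) =
        (fun q : (γ × Pc) × (Fin (n - len π) → Pc) =>
          F q.1.1 (q.1.2 :: splitMap f len πs (List.ofFn q.2))) ∘
        fun q : γ × (Fin n → Pc) => ((q.1, f π (List.ofFn (fun i : Fin (min (len π) n) =>
          q.2 ⟨i, lt_of_lt_of_le i.2 (min_le_right _ _)⟩))),
          fun i : Fin (n - len π) => q.2 ⟨len π + i, by omega⟩) := by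
      funext q
      simp only [Function.comp_apply, splitMap, ofFn_take, ofFn_drop]
    rw [e]
    refine h1.comp ?_
    refine Measurable.prodMk (measurable_fst.prodMk ?_) ?_
    · have h2 : Measurable (fun q : γ × (Fin n → Pc) => fun i : Fin (min (len π) n) =>
          q.2 ⟨i, lt_of_lt_of_le i.2 (min_le_right _ _)⟩) :=
        measurable_pi_lambda _ fun i => (measurable_pi_apply _).comp measurable_snd
      exact (hf π (min (len π) n)).comp h2
    · exact measurable_pi_lambda _ fun i => (measurable_pi_apply _).comp measurable_snd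

theorem mf_splitMap {α : Type} {f : α → List Pc → Pc} (hf : ∀ π, MF (f π)) (len : α → ℕ)
    {β : Type*} [MeasurableSpace β] (πs : List α) {F : List Pc → β} (hF : MF F) :
    MF fun l => F (splitMap f len πs l) :=
  (mf2_splitMap hf len πs (hF.mf2 (γ := Unit))).mf ()

end LPatAux

theorem meas_pfold (N Q k : ℕ) (Λ : ℝ) (π : Pat k) : MF (pfold N Q k Λ π) := by
  induction k generalizing Λ with
  | zero =>
    intro n
    cases n with
    | zero =>
      have : (fun v : Fin 0 → Pc => pfold N Q 0 Λ π (List.ofFn v)) = fun _ => default := by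
        funext v
        simp [pfold]
      rw [this]
      exact measurable_const
    | succ n =>
      have : (fun v : Fin (n + 1) → Pc => pfold N Q 0 Λ π (List.ofFn v)) = fun v => v 0 := by
        funext v
        simp [pfold, List.ofFn_succ]
      rw [this]
      exact measurable_pi_apply 0
  | succ k ih =>
    have h1 : MF (fun l => cat N (1 / (32 * (Q * Λ)))
        (splitMap (pfold N Q k (Q * Λ)) (plen k) (unPat π) l)) :=
      mf_splitMap (fun π' => ih (Q * Λ) π') (plen k) (unPat π) (meas_cat N _)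
    exact h1

theorem MF_splitMap {β : Type*} [MeasurableSpace β] (N Q k : ℕ) (Λ : ℝ) (πs : List (Pat k))
    {F : List Pc → β} (hF : MF F) : MF fun l => F (splitMap (pfold N Q k Λ) (plen k) πs l) :=
  mf_splitMap (fun π => meas_pfold N Q k Λ π) (plen k) πs hF

namespace LPatAux

theorem levLaw_prob {N Q : ℕ} (hQ : 1 ≤ Q) {base : ℝ → Measure Pc}
    (hb : ∀ Λ, 0 < Λ → IsProbabilityMeasure (base Λ)) (k : ℕ) : ∀ Λ : ℝ, 0 < Λ →
      IsProbabilityMeasure (levLaw N Q base k Λ) := by
  have hQR : (1 : ℝ) ≤ Q := by exact_mod_cast hQ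
  induction k with
  | zero => exact hb
  | succ k ih =>
    intro Λ hΛ
    have := ih (Q * Λ) (by positivity)
    exact catLaw_prob N _ (by positivity) (by rw [div_le_one (by linarith)]; exact hQR) _

theorem mf_cons {F : List Pc → ℝ≥0∞} (h : MF F) : MF2 fun (x : Pc) l => F (x :: l) := by
  have h1 : MF2 fun (q : Unit × Pc) l => F (q.2 :: l) := (h.mf2 (γ := Unit)).cons
  exact h1.comp_left (k := fun x => ((), x)) (measurable_const.prodMk measurable_id)

theorem splitMap_zero (N Q : ℕ) (Λ : ℝ) (πs : List (Pat 0)) : ∀ (l : List Pc),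
    l.length = πs.length → splitMap (pfold N Q 0 Λ) (plen 0) πs l = l := by
  induction πs with
  | nil =>
    intro l hl
    have : l = [] := by simpa using hl
    rw [this]
    rfl
  | cons π πs ih =>
    intro l hl
    cases l with
    | nil => simp at hl
    | cons x l =>
      have hl' : l.length = πs.length := by simpa using hl
      have h1 := ih l hl'
      simp only [splitMap, plen, pfold, List.take_succ_cons, List.take_zero, List.headD_cons,
        List.drop_succ_cons, List.drop_zero]
      exact congrArg (x :: ·) h1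

theorem sum_plen_zero (πs : List (Pat 0)) : (πs.map (plen 0)).sum = πs.length := by
  induction πs with
  | nil => rfl
  | cons π πs ih =>
    have h1 : plen 0 π = 1 := rfl
    rw [List.map_cons, List.sum_cons, ih, h1, List.length_cons]
    omega

end LPatAux

/-- the pieces of level `k` in terms of the pieces of level `0` -/
theorem lev_LI {N Q : ℕ} (hQ : 1 ≤ Q) {base : ℝ → Measure Pc}
    (hb : ∀ Λ, 0 < Λ → IsProbabilityMeasure (base Λ)) (k : ℕ) {Λ : ℝ} (hΛ : 0 < Λ)
    {F : List Pc → ℝ≥0∞} (hF : MF F) (n : ℕ) :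
    LI (levLaw N Q base k Λ) n F = LI (patM Q k) n (fun πs =>
      LI (base (Q ^ k * Λ)) (πs.map (plen k)).sum (fun l =>
        F (splitMap (pfold N Q k Λ) (plen k) πs l))) := by
  have hQR : (1 : ℝ) ≤ Q := by exact_mod_cast hQ
  induction k generalizing Λ F n with
  | zero =>
    have hp := patM_prob hQ 0
    have h1 : LI (patM Q 0) n (fun πs =>
      LI (base (Q ^ 0 * Λ)) (πs.map (plen 0)).sum (fun l =>
        F (splitMap (pfold N Q 0 Λ) (plen 0) πs l))) =
        LI (patM Q 0) n (fun _ => LI (base Λ) n F) := by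
      apply LI_congr
      intro πs hπ
      rw [sum_plen_zero, hπ, pow_zero, one_mul]
      apply LI_congr
      intro l hl
      rw [splitMap_zero N Q Λ πs l (by rw [hl, hπ])]
    rw [h1, LI_const]
    rfl
  | succ k ihk =>
    have hQΛ : 0 < (Q : ℝ) * Λ := by positivity
    have hpk := patM_prob hQ k
    have hpk1 := patM_prob hQ (k + 1)
    have hlk := levLaw_prob (N := N) hQ hb k (Q * Λ) hQΛ
    have hlk1 := levLaw_prob (N := N) hQ hb (k + 1) Λ hΛ
    have hbase : IsProbabilityMeasure (base (Q ^ (k + 1) * Λ)) := hb _ (by positivity)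
    have hpow : (Q : ℝ) ^ k * (Q * Λ) = Q ^ (k + 1) * Λ := by ring
    induction n generalizing F with
    | zero => rfl
    | succ n ihn =>
      -- the inner integral
      have hmeasΨ : Measurable fun x => LI (levLaw N Q base (k + 1) Λ) n (fun l => F (x :: l)) :=
        MF2.meas_LI _ (mf_cons hF) n
      have hΨ : ∀ x, LI (levLaw N Q base (k + 1) Λ) n (fun l => F (x :: l)) =
          LI (patM Q (k + 1)) n (fun πs =>
            LI (base (Q ^ (k + 1) * Λ)) (πs.map (plen (k + 1))).sum (fun l =>
              F (x :: splitMap (pfold N Q (k + 1) Λ) (plen (k + 1)) πs l))) := by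
        intro x
        exact ihn ((mf_cons hF).mf x)
      obtain ⟨Ψ, hΨdef⟩ : ∃ Ψ : Pc → ℝ≥0∞,
        Ψ = fun x => LI (levLaw N Q base (k + 1) Λ) n (fun l => F (x :: l)) := ⟨_, rfl⟩
      have hΨm : Measurable Ψ := by rw [hΨdef]; exact hmeasΨ
      -- left side
      have hL : LI (levLaw N Q base (k + 1) Λ) (n + 1) F =
          ∫⁻ π, LI (base (Q ^ (k + 1) * Λ)) (plen (k + 1) π)
            (fun l => Ψ (pfold N Q (k + 1) Λ π l)) ∂(patM Q (k + 1)) := by
        have e1 : LI (levLaw N Q base (k + 1) Λ) (n + 1) F =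
            ∫⁻ x, Ψ x ∂(catLaw N (1 / (32 * (Q * Λ))) (1 / (Q : ℝ))
              (levLaw N Q base k (Q * Λ))) := by
          rw [hΨdef]
          rfl
        rw [e1, lintegral_catLaw N _ _ _ hΨm]
        have e2 : ∫⁻ π, LI (base (Q ^ (k + 1) * Λ)) (plen (k + 1) π)
            (fun l => Ψ (pfold N Q (k + 1) Λ π l)) ∂(patM Q (k + 1)) =
            ∑' j : ℕ, ENNReal.ofReal (1 / (Q : ℝ) * (1 - 1 / (Q : ℝ)) ^ j) *
              LI (patM Q k) (j + 1) (fun π => LI (base (Q ^ (k + 1) * Λ))
                (List.map (plen k) π).sum (fun l => Ψ (cat N (1 / (32 * (Q * Λ)))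
                  (splitMap (pfold N Q k (Q * Λ)) (plen k) π l)))) :=
          lintegral_patM hQ k (fun π => LI (base (Q ^ (k + 1) * Λ))
                (List.map (plen k) π).sum (fun l => Ψ (cat N (1 / (32 * (Q * Λ)))
                  (splitMap (pfold N Q k (Q * Λ)) (plen k) π l))))
        rw [e2]
        refine tsum_congr fun j => ?_
        congr 1
        have hMF : MF (fun l => Ψ (cat N (1 / (32 * (Q * Λ))) l)) :=
          fun m => hΨm.comp (meas_cat N _ m)
        rw [ihk hQΛ hMF (j + 1), hpow]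
      rw [hL]
      -- right side
      show _ = ∫⁻ π, LI (patM Q (k + 1)) n (fun πs =>
        LI (base (Q ^ (k + 1) * Λ)) ((π :: πs).map (plen (k + 1))).sum (fun l =>
          F (splitMap (pfold N Q (k + 1) Λ) (plen (k + 1)) (π :: πs) l))) ∂(patM Q (k + 1))
      refine lintegral_congr fun π => ?_
      have e3 : ∀ πs : List (Pat (k + 1)),
          LI (base (Q ^ (k + 1) * Λ)) ((π :: πs).map (plen (k + 1))).sum (fun l =>
          F (splitMap (pfold N Q (k + 1) Λ) (plen (k + 1)) (π :: πs) l)) =
          LI (base (Q ^ (k + 1) * Λ)) (plen (k + 1) π) (fun l1 =>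
            LI (base (Q ^ (k + 1) * Λ)) (πs.map (plen (k + 1))).sum (fun l2 =>
              F (pfold N Q (k + 1) Λ π l1 ::
                splitMap (pfold N Q (k + 1) Λ) (plen (k + 1)) πs l2))) := by
        intro πs
        rw [List.map_cons, List.sum_cons, LI_append]
        apply LI_congr
        intro l1 hl1
        apply LI_congr
        intro l2 _
        have t1 : (l1 ++ l2).take (plen (k + 1) π) = l1 := by
          rw [← hl1]
          exact List.take_left
        have t2 : (l1 ++ l2).drop (plen (k + 1) π) = l2 := by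
          rw [← hl1]
          exact List.drop_left
        rw [splitMap, t1, t2]
      have e4 : LI (patM Q (k + 1)) n (fun πs =>
          LI (base (Q ^ (k + 1) * Λ)) ((π :: πs).map (plen (k + 1))).sum (fun l =>
          F (splitMap (pfold N Q (k + 1) Λ) (plen (k + 1)) (π :: πs) l))) =
          LI (patM Q (k + 1)) n (fun πs => LI (base (Q ^ (k + 1) * Λ)) (plen (k + 1) π)
            (fun l1 => LI (base (Q ^ (k + 1) * Λ)) (πs.map (plen (k + 1))).sum (fun l2 =>
              F (pfold N Q (k + 1) Λ π l1 ::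
                splitMap (pfold N Q (k + 1) Λ) (plen (k + 1)) πs l2)))) :=
        LI_congr _ fun πs _ => e3 πs
      rw [e4]
      have hjoint : ∀ m j, Measurable (fun q : (Fin m → Pat (k + 1)) × (Fin j → Pc) =>
          LI (base (Q ^ (k + 1) * Λ)) ((List.ofFn q.1).map (plen (k + 1))).sum (fun l2 =>
              F (pfold N Q (k + 1) Λ π (List.ofFn q.2) ::
                splitMap (pfold N Q (k + 1) Λ) (plen (k + 1)) (List.ofFn q.1) l2))) := by
        intro m j
        apply measurable_from_prod_countable_right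
        intro u
        have hMF2 : MF2 (fun (x : Pc) l2 => F (x ::
            splitMap (pfold N Q (k + 1) Λ) (plen (k + 1)) (List.ofFn u) l2)) :=
          mf2_splitMap (fun π' => meas_pfold N Q (k + 1) Λ π') (plen (k + 1)) (List.ofFn u)
            (mf_cons hF)
        have hx := MF2.meas_LI (base (Q ^ (k + 1) * Λ)) hMF2
          ((List.ofFn u).map (plen (k + 1))).sum
        exact hx.comp (meas_pfold N Q (k + 1) Λ π j)
      rw [LI_swap_LI (base (Q ^ (k + 1) * Λ)) (σ := patM Q (k + 1))
        (F := fun πs l1 => LI (base (Q ^ (k + 1) * Λ)) (πs.map (plen (k + 1))).sum (fun l2 =>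
              F (pfold N Q (k + 1) Λ π l1 ::
                splitMap (pfold N Q (k + 1) Λ) (plen (k + 1)) πs l2))) hjoint n
        (plen (k + 1) π)]
      apply LI_congr
      intro l1 _
      rw [hΨdef]
      exact hΨ _

end Pool.Agent.BSP
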