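import Pool.Agent.BSP.Law

set_option autoImplicit false

/-!
# Independent signs at random distinct places
-/

namespace Pool.Agent.BSP

open MeasureTheory ProbabilityTheory Set Filter
open scoped ENNReal NNReal Topology

/-- the signs with the indices `K`, auxiliary signs `c` where there is no index -/
def mix (s : ℕ → Bool) : List (Option ℕ) → List Bool → List Bool
  | [], _ => []
  | _ :: _, [] => []
  | none :: K, b :: c => b :: mix s K c
  | some k :: K, _ :: c => s k :: mix s K c

variable {Ω : Type*} [mΩ : MeasurableSpace Ω] {P : Measure Ω}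

private theorem si_bw_add {p : ℝ} (hp0 : 0 ≤ p) (hp1 : p ≤ 1) :
    bw p true + bw p false = 1 := by
  unfold bw
  simp only [if_true, Bool.false_eq_true, if_false]
  rw [← ENNReal.ofReal_add hp0 (by linarith)]
  simp

private theorem si_lintegral_berM (p : ℝ) (f : Bool → ℝ≥0∞) :
    ∫⁻ s, f s ∂(berM p) = bw p true * f true + bw p false * f false := by
  unfold berM
  rw [lintegral_add_measure, lintegral_smul_measure, lintegral_smul_measure, lintegral_dirac,
    lintegral_dirac]
  rfl

private theorem si_mix_length (s : ℕ → Bool) : ∀ (K : List (Option ℕ)) (c : List Bool),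
    c.length = K.length → (mix s K c).length = K.length
  | [], [], _ => rfl
  | [], _ :: _, h => by simp at h
  | _ :: _, [], h => by simp at h
  | none :: K, b :: c, h => by
    simp only [mix, List.length_cons, Nat.succ.injEq] at *
    exact si_mix_length s K c (by omega)
  | some k :: K, b :: c, h => by
    simp only [mix, List.length_cons, Nat.succ.injEq] at *
    exact si_mix_length s K c (by omega)

private theorem si_mix_congr {s s' : ℕ → Bool} : ∀ (K : List (Option ℕ)) (c : List Bool),
    (∀ k, some k ∈ K → s k = s' k) → mix s K c = mix s' K c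
  | [], _, _ => by simp [mix]
  | _ :: _, [], _ => by simp [mix]
  | none :: K, b :: c, h => by
    simp only [mix]
    rw [si_mix_congr K c fun k hk => h k (List.mem_cons_of_mem _ hk)]
  | some k :: K, b :: c, h => by
    simp only [mix]
    rw [si_mix_congr K c fun k hk => h k (List.mem_cons_of_mem _ hk),
      h k (List.mem_cons_self)]

/-- the indices -/
private def siT (K : List (Option ℕ)) : Finset ℕ := (K.filterMap id).toFinset

private theorem si_mem_T {K : List (Option ℕ)} {k : ℕ} : k ∈ siT K ↔ some k ∈ K := by
  simp [siT]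

private theorem si_fac (p : ℝ) (K : List (Option ℕ)) (F : List Bool → ℝ≥0∞) (n : ℕ) :
    ∃ Ψ : (siT K → Bool) → ℝ≥0∞, ∀ s : ℕ → Bool,
      LI (berM p) n (fun c => F (mix s K c)) = Ψ (fun i => s i) := by
  classical
  refine ⟨fun t => LI (berM p) n (fun c => F (mix (fun i => if h : i ∈ siT K then t ⟨i, h⟩
    else false) K c)), fun s => ?_⟩
  refine LI_congr _ fun c _ => ?_
  rw [si_mix_congr K c]
  intro k hk
  rw [dif_pos (si_mem_T.2 hk)]

private theorem si_meas (p : ℝ) (K : List (Option ℕ)) (F : List Bool → ℝ≥0∞) (n : ℕ) :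
    Measurable fun s : ℕ → Bool => LI (berM p) n (fun c => F (mix s K c)) := by
  obtain ⟨Ψ, hΨ⟩ := si_fac p K F n
  have : (fun s : ℕ → Bool => LI (berM p) n (fun c => F (mix s K c))) =
      Ψ ∘ fun s : ℕ → Bool => fun i : siT K => s i := by
    funext s
    exact hΨ s
  rw [this]
  exact (measurable_of_countable Ψ).comp (measurable_pi_lambda _ fun i => measurable_pi_apply _)

/-- deterministic distinct indices -/
theorem mix_det {p : ℝ} (hp0 : 0 ≤ p) (hp1 : p ≤ 1) [IsProbabilityMeasure P]
    {sgn : ℕ → Ω → Bool} (hm : ∀ k, Measurable (sgn k))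
    (hl : ∀ k, P {ω | sgn k ω = true} = ENNReal.ofReal p) (hi : iIndepFun sgn P)
    {K : List (Option ℕ)} (hK : ∀ i j k : ℕ, K[i]? = some (some k) → K[j]? = some (some k) → i = j)
    (F : List Bool → ℝ≥0∞) :
    ∫⁻ ω, LI (berM p) K.length (fun c => F (mix (fun k => sgn k ω) K c)) ∂P =
      LI (berM p) K.length F := by
  have hsm : Measurable fun ω => fun k => sgn k ω := measurable_pi_lambda _ hm
  have hmeas : ∀ (K : List (Option ℕ)) (F : List Bool → ℝ≥0∞) (n : ℕ),
      Measurable fun ω => LI (berM p) n (fun c => F (mix (fun k => sgn k ω) K c)) :=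
    fun K F n => (si_meas p K F n).comp hsm
  induction K generalizing F with
  | nil => simp [LI, mix]
  | cons a K ih =>
    have hK' : ∀ i j k : ℕ, K[i]? = some (some k) → K[j]? = some (some k) → i = j := by
      intro i j k h1 h2
      have := hK (i + 1) (j + 1) k (by simpa using h1) (by simpa using h2)
      omega
    cases a with
    | none =>
      simp only [List.length_cons, LI, mix, si_lintegral_berM]
      rw [lintegral_add_left ((hmeas K (fun l => F (true :: l)) K.length).const_mul _),
        lintegral_const_mul _ (hmeas K (fun l => F (true :: l)) K.length),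
        lintegral_const_mul _ (hmeas K (fun l => F (false :: l)) K.length),
        ih hK' (fun l => F (true :: l)), ih hK' (fun l => F (false :: l))]
    | some k =>
      have hk : k ∉ siT K := by
        rw [si_mem_T]
        intro h
        obtain ⟨j, hj⟩ := List.mem_iff_getElem?.1 h
        have := hK 0 (j + 1) k (by simp) (by simpa using hj)
        omega
      simp only [List.length_cons, LI, mix, si_lintegral_berM]
      have hb := si_bw_add hp0 hp1
      have hInd : IndepFun (sgn k) (fun ω => fun i : siT K => sgn i ω) P := by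
        have h1 := hi.indepFun_finset {k} (siT K) (Finset.disjoint_singleton_left.2 hk) hm
        exact h1.comp (φ := fun f : (({k} : Finset ℕ) → Bool) => f ⟨k, Finset.mem_singleton_self k⟩)
          (ψ := id) (measurable_pi_apply _) measurable_id
      have key : ∀ b : Bool, ∫⁻ ω, (if sgn k ω = b then 1 else 0) *
          LI (berM p) K.length (fun l => F (b :: mix (fun k => sgn k ω) K l)) ∂P =
          bw p b * LI (berM p) K.length (fun l => F (b :: l)) := by
        intro b
        obtain ⟨Ψ, hΨ⟩ := si_fac p K (fun l => F (b :: l)) K.length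
        have h2 : IndepFun (fun ω => if sgn k ω = b then (1 : ℝ≥0∞) else 0)
            (fun ω => Ψ (fun i => sgn i ω)) P :=
          hInd.comp (φ := fun x : Bool => if x = b then (1 : ℝ≥0∞) else 0) (ψ := Ψ)
            (measurable_of_countable _) (measurable_of_countable _)
        have hf : Measurable (fun ω => if sgn k ω = b then (1 : ℝ≥0∞) else 0) :=
          (measurable_of_countable (fun x : Bool => if x = b then (1 : ℝ≥0∞) else 0)).comp (hm k)
        have hg : Measurable (fun ω => Ψ (fun i : siT K => sgn i ω)) :=
          (measurable_of_countable Ψ).comp (measurable_pi_lambda _ fun i => hm i)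
        have e1 : ∀ ω, LI (berM p) K.length (fun l => F (b :: mix (fun k => sgn k ω) K l)) =
            Ψ (fun i => sgn i ω) := fun ω => hΨ fun k => sgn k ω
        have h3 := ih hK' (fun l => F (b :: l))
        simp only [e1] at h3 ⊢
        have h4 := lintegral_mul_eq_lintegral_mul_lintegral_of_indepFun hf hg h2
        simp only [Pi.mul_apply] at h4
        rw [h4, h3]
        congr 1
        have e5 : (fun ω => if sgn k ω = b then (1 : ℝ≥0∞) else 0) =
            Set.indicator {ω | sgn k ω = b} 1 := by
          ext ω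
          simp [Set.indicator]
        have hms : ∀ b : Bool, MeasurableSet {ω | sgn k ω = b} := fun b =>
          hm k (measurableSet_singleton b)
        rw [e5, lintegral_indicator_one (hms b)]
        cases b with
        | true => rw [hl]; simp [bw]
        | false =>
          have e6 : {ω | sgn k ω = false} = {ω | sgn k ω = true}ᶜ := by
            ext ω
            simp
          rw [e6, prob_compl_eq_one_sub (hms true), hl]
          simp only [bw, Bool.false_eq_true, if_false]
          rw [ENNReal.ofReal_sub _ hp0, ENNReal.ofReal_one]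
      rw [← key true, ← key false, ← lintegral_add_left]
      · refine lintegral_congr fun ω => ?_
        rw [← add_mul, hb, one_mul]
        cases sgn k ω <;> simp
      · refine Measurable.mul ?_ (hmeas K (fun l => F (true :: l)) K.length)
        exact (measurable_of_countable (fun x : Bool => if x = true then (1 : ℝ≥0∞) else 0)).comp
          (hm k)

private theorem si_MF (G : List Bool → ℝ≥0∞) : MF G := fun _ => measurable_of_countable _

private theorem si_LI_sum {ι : Type*} (S : Finset ι) (p : ℝ) (n : ℕ) (G : ι → List Bool → ℝ≥0∞) :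
    LI (berM p) n (fun c => ∑ i ∈ S, G i c) = ∑ i ∈ S, LI (berM p) n (G i) := by
  classical
  induction S using Finset.induction_on with
  | empty =>
    simp only [Finset.sum_empty]
    have := LI_const_mul (berM p) (n := n) 0 (F := fun _ => 0) (si_MF _)
    simpa using this
  | insert i S hi ih =>
    simp only [Finset.sum_insert hi]
    rw [LI_add _ (si_MF _) (si_MF _), ih]

private theorem si_expand (p : ℝ) (n : ℕ) (μ : List Bool → List Bool)
    (hμ : ∀ c, c.length = n → (μ c).length = n) (F : List Bool → ℝ≥0∞) :
    LI (berM p) n (fun c => F (μ c)) =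
      ∑ b : Fin n → Bool, F (List.ofFn b) * LI (berM p) n (fun c => ind (μ c = List.ofFn b)) := by
  have h1 : ∀ b : Fin n → Bool, F (List.ofFn b) * LI (berM p) n (fun c => ind (μ c = List.ofFn b)) =
      LI (berM p) n (fun c => F (List.ofFn b) * ind (μ c = List.ofFn b)) := fun b =>
    (LI_const_mul (berM p) (F (List.ofFn b)) (si_MF fun c => ind (μ c = List.ofFn b))).symm
  simp only [h1]
  rw [← si_LI_sum]
  refine LI_congr _ fun c hc => ?_
  have hl := hμ c hc
  obtain ⟨b, hb⟩ : ∃ b : Fin n → Bool, List.ofFn b = μ c :=
    ⟨fun i => (μ c).get ⟨i, by omega⟩, by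
      apply List.ext_get
      · simp [hl]
      · intro i h1 h2
        simp⟩
  rw [Finset.sum_eq_single b]
  · rw [hb]
    simp [ind]
  · intro b' _ hne
    have : μ c ≠ List.ofFn b' := by
      intro h
      apply hne
      exact List.ofFn_injective (by rw [← h, hb])
    simp [ind, this]
  · intro h
    exact absurd (Finset.mem_univ b) h

/-- random distinct indices which are independent of the signs -/
theorem mix_rand {p : ℝ} (hp0 : 0 ≤ p) (hp1 : p ≤ 1) [IsProbabilityMeasure P]
    {sgn : ℕ → Ω → Bool} (hm : ∀ k, Measurable (sgn k))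
    (hl : ∀ k, P {ω | sgn k ω = true} = ENNReal.ofReal p) (hi : iIndepFun sgn P)
    {𝒢 : MeasurableSpace Ω} (h𝒢 : 𝒢 ≤ mΩ)
    (hind : Indep (MeasurableSpace.comap (fun ω k => sgn k ω) inferInstance) 𝒢 P)
    {n : ℕ} {K : Fin n → Ω → Option ℕ} (hKm : ∀ i k, MeasurableSet[𝒢] {ω | K i ω = some k})
    (hK : ∀ᵐ ω ∂P, ∀ i j k, K i ω = some k → K j ω = some k → i = j)
    {F : Ω → List Bool → ℝ≥0∞} (hF : ∀ c, Measurable[𝒢] fun ω => F ω c) :
    ∫⁻ ω, LI (berM p) n (fun c => F ω (mix (fun k => sgn k ω) (List.ofFn fun i => K i ω) c)) ∂P =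
      ∫⁻ ω, LI (berM p) n (fun c => F ω c) ∂P := by
  have hsm : Measurable[mΩ] fun ω => fun k => sgn k ω :=
    @measurable_pi_lambda _ _ _ mΩ _ _ hm
  -- the partition
  have hA : ∀ κ : Fin n → Option ℕ, MeasurableSet[𝒢] {ω | ∀ i, K i ω = κ i} := by
    intro κ
    have e : {ω | ∀ i, K i ω = κ i} = ⋂ i, {ω | K i ω = κ i} := by
      ext ω
      simp
    rw [e]
    refine MeasurableSet.iInter fun i => ?_
    rcases h : κ i with _ | k
    · have e2 : {ω | K i ω = none} = (⋃ k, {ω | K i ω = some k})ᶜ := by
        ext ω
        simp only [mem_ofPred_eq, mem_compl_iff, mem_iUnion, not_exists]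
        constructor
        · intro h k
          rw [h]
          simp
        · intro h
          rcases h' : K i ω with _ | k
          · rfl
          · exact absurd h' (h k)
      rw [e2]
      exact (MeasurableSet.iUnion fun k => hKm i k).compl
    · exact hKm i k
  have hU : (⋃ κ : Fin n → Option ℕ, {ω | ∀ i, K i ω = κ i}) = univ := by
    ext ω
    simp only [mem_iUnion, mem_ofPred_eq, mem_univ, iff_true]
    exact ⟨fun i => K i ω, fun i => rfl⟩
  have hd : Pairwise (Function.onFun Disjoint fun κ : Fin n → Option ℕ => {ω | ∀ i, K i ω = κ i}) := by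
    intro κ κ' hne
    rw [Function.onFun, Set.disjoint_left]
    intro ω h1 h2
    apply hne
    funext i
    rw [← h1 i, h2 i]
  have hsplit : ∀ f : Ω → ℝ≥0∞, ∫⁻ ω, f ω ∂P =
      ∑' κ : Fin n → Option ℕ, ∫⁻ ω in {ω | ∀ i, K i ω = κ i}, f ω ∂P := by
    intro f
    rw [← lintegral_iUnion (fun κ => h𝒢 _ (hA κ)) hd, hU, setLIntegral_univ]
  rw [hsplit, hsplit fun ω => LI (berM p) n (fun c => F ω c)]
  refine tsum_congr fun κ => ?_
  set A := {ω | ∀ i, K i ω = κ i} with hAdef
  by_cases hinj : ∀ i j k, κ i = some k → κ j = some k → i = j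
  · -- deterministic indices
    have hKdet : ∀ i j k : ℕ, (List.ofFn κ)[i]? = some (some k) →
        (List.ofFn κ)[j]? = some (some k) → i = j := by
      intro i j k h1 h2
      rw [List.getElem?_eq_some_iff] at h1 h2
      obtain ⟨hi1, h1⟩ := h1
      obtain ⟨hj1, h2⟩ := h2
      rw [List.getElem_ofFn] at h1 h2
      have := hinj _ _ k h1 h2
      exact congrArg Fin.val this
    have hlen : (List.ofFn κ).length = n := List.length_ofFn
    have e1 : ∫⁻ ω in A, LI (berM p) n (fun c => F ω (mix (fun k => sgn k ω)
        (List.ofFn fun i => K i ω) c)) ∂P =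
        ∫⁻ ω in A, LI (berM p) n (fun c => F ω (mix (fun k => sgn k ω) (List.ofFn κ) c)) ∂P := by
      refine setLIntegral_congr_fun (h𝒢 _ (hA κ)) fun ω hω => ?_
      have : (fun i => K i ω) = κ := funext hω
      simp only [this]
    rw [e1]
    have e2 : ∀ ω, LI (berM p) n (fun c => F ω (mix (fun k => sgn k ω) (List.ofFn κ) c)) =
        ∑ b : Fin n → Bool, F ω (List.ofFn b) *
          LI (berM p) n (fun c => ind (mix (fun k => sgn k ω) (List.ofFn κ) c = List.ofFn b)) :=
      fun ω => si_expand p n (fun c => mix (fun k => sgn k ω) (List.ofFn κ) c)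
        (fun c hc => by rw [si_mix_length _ _ _ (by rw [hc, hlen]), hlen]) (F ω)
    have e3 : ∀ ω, LI (berM p) n (fun c => F ω c) =
        ∑ b : Fin n → Bool, F ω (List.ofFn b) * LI (berM p) n (fun c => ind (c = List.ofFn b)) :=
      fun ω => si_expand p n (fun c => c) (fun c hc => hc) (F ω)
    simp only [e2, e3]
    have hF' : ∀ c, Measurable[mΩ] fun ω => F ω c := fun c => (hF c).mono h𝒢 le_rfl
    have hG : ∀ b : Fin n → Bool, Measurable[mΩ] fun ω =>
        LI (berM p) n (fun c => ind (mix (fun k => sgn k ω) (List.ofFn κ) c = List.ofFn b)) :=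
      fun b => (si_meas p (List.ofFn κ) (fun l => ind (l = List.ofFn b)) n).comp hsm
    have hP : ∀ b : Fin n → Bool, Measurable[mΩ] fun ω => F ω (List.ofFn b) *
        LI (berM p) n (fun c => ind (mix (fun k => sgn k ω) (List.ofFn κ) c = List.ofFn b)) :=
      fun b => (hF' _).mul (hG b)
    have hP' : ∀ b : Fin n → Bool, Measurable[mΩ] fun ω => F ω (List.ofFn b) *
        LI (berM p) n (fun c => ind (c = List.ofFn b)) := fun b => (hF' _).mul_const _
    rw [lintegral_finsetSum _ fun b _ => hP b, lintegral_finsetSum _ fun b _ => hP' b]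
    refine Finset.sum_congr rfl fun b _ => ?_
    rw [lintegral_mul_const _ (hF' _)]
    have hdet := @mix_det Ω mΩ P p hp0 hp1 _ sgn hm hl hi (List.ofFn κ) hKdet
      (fun l => ind (l = List.ofFn b))
    rw [hlen] at hdet
    rw [← hdet, ← lintegral_indicator (h𝒢 _ (hA κ)), ← lintegral_indicator (h𝒢 _ (hA κ))]
    have h5 : Measurable[𝒢] (A.indicator fun ω => F ω (List.ofFn b)) :=
      (hF _).indicator (hA κ)
    have h6 : Measurable[MeasurableSpace.comap (fun ω k => sgn k ω) inferInstance] fun ω =>
        LI (berM p) n (fun c => ind (mix (fun k => sgn k ω) (List.ofFn κ) c = List.ofFn b)) :=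
      (si_meas p (List.ofFn κ) (fun l => ind (l = List.ofFn b)) n).comp (comap_measurable _)
    rw [← lintegral_mul_eq_lintegral_mul_lintegral_of_independent_measurableSpace h𝒢
      (measurable_iff_comap_le.1 hsm) hind.symm h5 h6]
    refine lintegral_congr fun ω => ?_
    by_cases hω : ω ∈ A
    · rw [Set.indicator_of_mem hω, Set.indicator_of_mem hω]
    · rw [Set.indicator_of_notMem hω, Set.indicator_of_notMem hω, zero_mul]
  · have h0 : P A = 0 := by
      push Not at hinj
      obtain ⟨i, j, k, h1, h2, h3⟩ := hinj
      have : A ⊆ {ω | ¬ ∀ i j k, K i ω = some k → K j ω = some k → i = j} := by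
        intro ω hω h
        exact h3 (h i j k ((hω i).trans h1) ((hω j).trans h2))
      exact measure_mono_null this hK
    rw [Measure.restrict_eq_zero.2 h0]
    simp

end Pool.Agent.BSP
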