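import Pool.Agent.BSP.BMod

set_option autoImplicit false

/-!
# Measurability of the end points of the excursion
-/

namespace Pool.Agent.BSP

open MeasureTheory ProbabilityTheory Set Filter
open scoped ENNReal NNReal Topology

variable {Ω : Type*} [MeasurableSpace Ω]

/-- there is no zero in `[a, a + τ]` -/
theorem SMeas_nz {C : ℝ≥0 → Ω → ℝ} (hm : ∀ t, Measurable (C t))
    (hc : ∀ ω, Continuous fun t => C t ω) (a : ℝ) {τ : ℝ} (hτ : 0 ≤ τ) :
    MeasurableSet {ω | ∀ t : ℝ, a ≤ t → t ≤ a + τ → C t.toNNReal ω ≠ 0} := by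
  have hm' : ∀ t, Measurable ((fun t ω => |C t ω|) t) := fun t => (hm t).abs
  have hc' : ∀ ω, Continuous fun t => (fun t ω => |C t ω|) t ω := fun ω => (hc ω).abs
  have h1 : {ω | ∀ t : ℝ, a ≤ t → t ≤ a + τ → C t.toNNReal ω ≠ 0} =
      {ω | 0 < mn (pth (fun t ω => |C t ω|) ω) a τ} := by
    ext ω
    simp only [mem_setOf_eq]
    obtain ⟨s1, s2, s3, s4⟩ := am_spec (BMod_cont hc' ω) (a := a) hτ
    constructor
    · intro h
      rw [← s3]
      exact abs_pos.2 (h _ s1 s2)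
    · intro h t ht ht'
      exact abs_pos.1 (lt_of_lt_of_le h (s4 t ht ht'))
  rw [h1]
  have h2 : Measurable fun ω : Ω => (ω, a, τ) := by fun_prop
  exact measurableSet_lt measurable_const ((meas_mn hm' hc').comp h2)

theorem SMeas_closed {C : ℝ≥0 → Ω → ℝ} (hc : ∀ ω, Continuous fun t => C t ω) (ω : Ω) :
    IsClosed {t : ℝ | C t.toNNReal ω = 0} :=
  isClosed_eq (BMod_cont hc ω) continuous_const

theorem SMeas_gL_spec {C : ℝ≥0 → Ω → ℝ} (hc : ∀ ω, Continuous fun t => C t ω)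
    (h0 : ∀ ω, C 0 ω = 0) (ω : Ω) :
    (0 ≤ gL (fun t => C t ω) ∧ gL (fun t => C t ω) ≤ 1 ∧
      C (gL (fun t => C t ω)).toNNReal ω = 0) ∧
      ∀ t : ℝ, 0 ≤ t → t ≤ 1 → C t.toNNReal ω = 0 → t ≤ gL (fun t => C t ω) := by
  have hcl : IsCompact {t : ℝ | 0 ≤ t ∧ t ≤ 1 ∧ C t.toNNReal ω = 0} := by
    have h1 : {t : ℝ | 0 ≤ t ∧ t ≤ 1 ∧ C t.toNNReal ω = 0} =
        Icc (0 : ℝ) 1 ∩ {t : ℝ | C t.toNNReal ω = 0} := by
      ext t
      simp only [mem_setOf_eq, mem_inter_iff, mem_Icc]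
      tauto
    rw [h1]
    exact isCompact_Icc.inter_right (SMeas_closed hc ω)
  have hne : {t : ℝ | 0 ≤ t ∧ t ≤ 1 ∧ C t.toNNReal ω = 0}.Nonempty := by
    refine ⟨0, le_rfl, zero_le_one, ?_⟩
    rw [Real.toNNReal_zero]
    exact h0 ω
  refine ⟨hcl.sSup_mem hne, fun t h1 h2 h3 => ?_⟩
  exact le_csSup hcl.bddAbove ⟨h1, h2, h3⟩

theorem meas_gL {C : ℝ≥0 → Ω → ℝ} (hm : ∀ t, Measurable (C t))
    (hc : ∀ ω, Continuous fun t => C t ω) (h0 : ∀ ω, C 0 ω = 0) :
    Measurable fun ω => gL fun t => C t ω := by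
  refine measurable_of_Iio fun q => ?_
  rcases le_or_gt q 0 with hq | hq
  · have : (fun ω => gL fun t => C t ω) ⁻¹' Iio q = ∅ := by
      ext ω
      simp only [mem_preimage, mem_Iio, mem_empty_iff_false, iff_false, not_lt]
      exact hq.trans (SMeas_gL_spec hc h0 ω).1.1
    rw [this]
    exact MeasurableSet.empty
  rcases lt_or_ge 1 q with hq1 | hq1
  · have : (fun ω => gL fun t => C t ω) ⁻¹' Iio q = univ := by
      ext ω
      simp only [mem_preimage, mem_Iio, mem_univ, iff_true]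
      exact lt_of_le_of_lt (SMeas_gL_spec hc h0 ω).1.2.1 hq1
    rw [this]
    exact MeasurableSet.univ
  have : (fun ω => gL fun t => C t ω) ⁻¹' Iio q =
      {ω | ∀ t : ℝ, q ≤ t → t ≤ q + (1 - q) → C t.toNNReal ω ≠ 0} := by
    ext ω
    obtain ⟨⟨a1, a2, a3⟩, a4⟩ := SMeas_gL_spec hc h0 ω
    simp only [mem_preimage, mem_Iio, mem_setOf_eq]
    constructor
    · intro h t h1 h2 h3
      have := a4 t (hq.le.trans h1) (by linarith) h3
      linarith
    · intro h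
      by_contra hcon
      exact h _ (not_lt.1 hcon) (by linarith) a3
  rw [this]
  exact SMeas_nz hm hc q (by linarith)

theorem meas_dR {C : ℝ≥0 → Ω → ℝ} (hm : ∀ t, Measurable (C t))
    (hc : ∀ ω, Continuous fun t => C t ω) : Measurable fun ω => dR fun t => C t ω := by
  -- the event that there is a zero after `1`
  have hN : MeasurableSet {ω | ∃ t : ℝ, 1 ≤ t ∧ C t.toNNReal ω = 0} := by
    have h1 : {ω | ∃ t : ℝ, 1 ≤ t ∧ C t.toNNReal ω = 0} =
        ⋃ n : ℕ, {ω | ∀ t : ℝ, 1 ≤ t → t ≤ 1 + (n : ℝ) → C t.toNNReal ω ≠ 0}ᶜ := by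
      ext ω
      simp only [mem_setOf_eq, mem_iUnion, mem_compl_iff, not_forall]
      constructor
      · rintro ⟨t, h1, h2⟩
        obtain ⟨n, hn⟩ := exists_nat_ge t
        exact ⟨n, t, h1, by linarith, fun h => h h2⟩
      · rintro ⟨n, t, h1, -, h3⟩
        exact ⟨t, h1, not_not.1 h3⟩
    rw [h1]
    exact MeasurableSet.iUnion fun n => (SMeas_nz hm hc 1 (Nat.cast_nonneg n)).compl
  have hspec : ∀ ω, (∃ t : ℝ, 1 ≤ t ∧ C t.toNNReal ω = 0) →
      (1 ≤ dR (fun t => C t ω) ∧ C (dR (fun t => C t ω)).toNNReal ω = 0) ∧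
      ∀ t : ℝ, 1 ≤ t → C t.toNNReal ω = 0 → dR (fun t => C t ω) ≤ t := by
    intro ω hω
    have hcl : IsClosed {t : ℝ | 1 ≤ t ∧ C t.toNNReal ω = 0} :=
      isClosed_Ici.inter (SMeas_closed hc ω)
    have hb : BddBelow {t : ℝ | 1 ≤ t ∧ C t.toNNReal ω = 0} := ⟨1, fun t ht => ht.1⟩
    exact ⟨hcl.csInf_mem hω hb, fun t h1 h2 => csInf_le hb ⟨h1, h2⟩⟩
  have hemp : ∀ ω, (¬ ∃ t : ℝ, 1 ≤ t ∧ C t.toNNReal ω = 0) → dR (fun t => C t ω) = 0 := by
    intro ω hω
    have : {t : ℝ | 1 ≤ t ∧ C t.toNNReal ω = 0} = ∅ := by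
      ext t
      simp only [mem_setOf_eq, mem_empty_iff_false, iff_false]
      exact fun h => hω ⟨t, h⟩
    unfold dR
    rw [this, Real.sInf_empty]
  refine measurable_of_Ioi fun q => ?_
  rcases lt_or_ge q 0 with hq | hq
  · have : (fun ω => dR fun t => C t ω) ⁻¹' Ioi q = univ := by
      ext ω
      simp only [mem_preimage, mem_Ioi, mem_univ, iff_true]
      by_cases hω : ∃ t : ℝ, 1 ≤ t ∧ C t.toNNReal ω = 0
      · have := (hspec ω hω).1.1
        linarith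
      · rw [hemp ω hω]
        exact hq
    rw [this]
    exact MeasurableSet.univ
  rcases lt_or_ge q 1 with hq1 | hq1
  · have : (fun ω => dR fun t => C t ω) ⁻¹' Ioi q =
        {ω | ∃ t : ℝ, 1 ≤ t ∧ C t.toNNReal ω = 0} := by
      ext ω
      simp only [mem_preimage, mem_Ioi, mem_setOf_eq]
      constructor
      · intro h
        by_contra hcon
        rw [hemp ω hcon] at h
        linarith
      · intro h
        have := (hspec ω h).1.1
        linarith
    rw [this]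
    exact hN
  have : (fun ω => dR fun t => C t ω) ⁻¹' Ioi q =
      {ω | ∃ t : ℝ, 1 ≤ t ∧ C t.toNNReal ω = 0} ∩
      {ω | ∀ t : ℝ, 1 ≤ t → t ≤ 1 + (q - 1) → C t.toNNReal ω ≠ 0} := by
    ext ω
    simp only [mem_preimage, mem_Ioi, mem_inter_iff, mem_setOf_eq]
    constructor
    · intro h
      by_cases hω : ∃ t : ℝ, 1 ≤ t ∧ C t.toNNReal ω = 0
      · refine ⟨hω, fun t h1 h2 h3 => ?_⟩
        have := (hspec ω hω).2 t h1 h3
        linarith
      · rw [hemp ω hω] at h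
        linarith
    · rintro ⟨hω, h⟩
      by_contra hcon
      exact h _ (hspec ω hω).1.1 (by linarith [not_lt.1 hcon]) (hspec ω hω).1.2
  rw [this]
  exact hN.inter (SMeas_nz hm hc 1 (by linarith))

end Pool.Agent.BSP
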