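import Pool.Agent.BSP.SDefs
import Pool.Agent.BSP.SIndep
import Pool.Agent.BSP.SMeas
import Pool.Agent.BSP.BPieces
import Pool.Agent.BSP.LIx

set_option autoImplicit false

/-!
# The joint law of pieces and signs
-/

namespace Pool.Agent.BSP

open MeasureTheory ProbabilityTheory Set Filter
open scoped ENNReal NNReal Topology

variable {Ω : Type*} [MeasurableSpace Ω] {P : Measure Ω}

/-- signs which are independent of the Brownian motion `C` and of the enumeration `loc` -/
structure Sgn (P : Measure Ω) (p : ℝ) (C : ℝ≥0 → Ω → ℝ) (loc : ℕ → Ω → ℝ)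
    (sgn : ℕ → Ω → Bool) : Prop where
  loc_meas : ∀ k, Measurable (loc k)
  sgn_meas : ∀ k, Measurable (sgn k)
  loc_inj : ∀ᵐ ω ∂P, ∀ j k, j ≠ k → loc j ω ≠ loc k ω
  loc_all : ∀ᵐ ω ∂P, ∀ m, 0 < m → m < 1 → IsStrictMin (exc fun t => C t ω) m → ∃ k, loc k ω = m
  law : ∀ k, P {ω | sgn k ω = true} = ENNReal.ofReal p
  indep : iIndepFun sgn P
  indep' : IndepFun (fun ω k => sgn k ω) (fun ω => ((fun t => C t ω), fun k => loc k ω)) P

namespace SMainAux

open Classical in
/-- index of the sign of a piece -/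
noncomputable def kone (w : ℝ≥0 → ℝ) (loc : ℕ → ℝ) (a τ : ℝ) : Option ℕ :=
  if h : Ins w loc a τ (am (fun t => w t.toNNReal) a τ) then some (Nat.find h.2.2.2.2.2) else none

/-- the indices of all pieces -/
noncomputable def klist (w : ℝ≥0 → ℝ) (loc : ℕ → ℝ) : ℝ → List ℝ → List (Option ℕ)
  | _, [] => []
  | a, τ :: v => kone w loc a τ :: klist w loc (a + τ) v

theorem kone_eq_some {w : ℝ≥0 → ℝ} {loc : ℕ → ℝ} {a τ : ℝ} {k : ℕ} :
    kone w loc a τ = some k ↔
      (Ins w loc a τ (am (fun t => w t.toNNReal) a τ) ∧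
        loc k = (am (fun t => w t.toNNReal) a τ - gL w) / (dR w - gL w) ∧
        ∀ j < k, ¬ loc j = (am (fun t => w t.toNNReal) a τ - gL w) / (dR w - gL w)) := by
  unfold kone
  by_cases h : Ins w loc a τ (am (fun t => w t.toNNReal) a τ)
  · rw [dif_pos h]
    simp only [Option.some.injEq, h, true_and]
    exact Nat.find_eq_iff _
  · rw [dif_neg h]
    simp [h]

theorem kone_eq_none {w : ℝ≥0 → ℝ} {loc : ℕ → ℝ} {a τ : ℝ} :
    kone w loc a τ = none ↔ ¬ Ins w loc a τ (am (fun t => w t.toNNReal) a τ) := by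
  unfold kone
  by_cases h : Ins w loc a τ (am (fun t => w t.toNNReal) a τ)
  · rw [dif_pos h]
    simp [h]
  · rw [dif_neg h]
    simp [h]

/-- the sign with the index `o`, or the auxiliary sign -/
def osg (s : ℕ → Bool) (o : Option ℕ) (b : Bool) : Bool :=
  match o with
  | none => b
  | some k => s k

theorem signAt_eq {loc : ℕ → ℝ} (hinj : ∀ j k, j ≠ k → loc j ≠ loc k) (sgn : ℕ → Bool) {k : ℕ}
    {x : ℝ} (hk : loc k = x) : signAt loc sgn x = sgn k := by
  unfold signAt
  have h : ∃ k, loc k = x := ⟨k, hk⟩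
  rw [dif_pos h]
  congr 1
  by_contra hne
  exact hinj _ _ hne (h.choose_spec.trans hk.symm)

theorem sgs_eq_mix {w : ℝ≥0 → ℝ} {loc : ℕ → ℝ} (hinj : ∀ j k, j ≠ k → loc j ≠ loc k)
    (sgn : ℕ → Bool) (v : List ℝ) : ∀ (a : ℝ) (c : List Bool),
      sgs w loc sgn a v c = mix sgn (klist w loc a v) c := by
  induction v with
  | nil => intro a c; simp [sgs, klist, mix]
  | cons τ v ih =>
    intro a c
    cases c with
    | nil => simp [sgs, klist, mix]
    | cons b c =>
      by_cases h : Ins w loc a τ (am (fun t => w t.toNNReal) a τ)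
      · obtain ⟨k, hk⟩ : ∃ k, kone w loc a τ = some k := by
          unfold kone
          rw [dif_pos h]
          exact ⟨_, rfl⟩
        have hk2 := (kone_eq_some.1 hk).2.1
        simp only [sgs, klist, hk, mix, if_pos h, ih (a + τ) c]
        congr 1
        exact signAt_eq hinj sgn hk2
      · have hk : kone w loc a τ = none := kone_eq_none.2 h
        simp only [sgs, klist, hk, mix, if_neg h, ih (a + τ) c]

theorem length_klist (w : ℝ≥0 → ℝ) (loc : ℕ → ℝ) (v : List ℝ) : ∀ a : ℝ,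
    (klist w loc a v).length = v.length := by
  induction v with
  | nil => intro a; rfl
  | cons τ v ih => intro a; simp [klist, ih (a + τ)]

/-- position of the minimum with index `k` -/
theorem klist_pos {w : ℝ≥0 → ℝ} {loc : ℕ → ℝ} (v : List ℝ) : ∀ (a : ℝ), (∀ τ ∈ v, 0 ≤ τ) →
    ∀ i k, (klist w loc a v).getD i none = some k →
      ∃ m, a < m ∧ gL w < m ∧ m < dR w ∧ loc k = (m - gL w) / (dR w - gL w) := by
  induction v with
  | nil => intro a _ i k h; simp [klist] at h
  | cons τ v ih =>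
    intro a hv i k h
    have hτ : 0 ≤ τ := hv τ List.mem_cons_self
    cases i with
    | zero =>
      have h1 : kone w loc a τ = some k := by simpa [klist] using h
      obtain ⟨hi, hk, _⟩ := kone_eq_some.1 h1
      exact ⟨_, hi.2.1, hi.2.2.2.1, hi.2.2.2.2.1, hk⟩
    | succ i =>
      have h1 : (klist w loc (a + τ) v).getD i none = some k := by simpa [klist] using h
      obtain ⟨m, hm1, hm2, hm3, hm4⟩ := ih (a + τ)
        (fun σ hσ => hv σ (List.mem_cons_of_mem _ hσ)) i k h1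
      exact ⟨m, by linarith, hm2, hm3, hm4⟩

theorem klist_inj {w : ℝ≥0 → ℝ} {loc : ℕ → ℝ} (v : List ℝ) : ∀ (a : ℝ), (∀ τ ∈ v, 0 ≤ τ) →
    ∀ i j k, (klist w loc a v).getD i none = some k → (klist w loc a v).getD j none = some k →
      i = j := by
  induction v with
  | nil => intro a _ i j k h; simp [klist] at h
  | cons τ v ih =>
    intro a hv i j k hi hj
    have hv' : ∀ σ ∈ v, 0 ≤ σ := fun σ hσ => hv σ (List.mem_cons_of_mem _ hσ)
    have key : ∀ i', kone w loc a τ = some k →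
        (klist w loc (a + τ) v).getD i' none = some k → False := by
      intro i' h1 h2
      obtain ⟨hI, hk, _⟩ := kone_eq_some.1 h1
      obtain ⟨m, hm1, hm2, hm3, hm4⟩ := klist_pos v (a + τ) hv' i' k h2
      have hd : 0 < dR w - gL w := by linarith
      have e : (am (fun t => w t.toNNReal) a τ - gL w) / (dR w - gL w) =
          (m - gL w) / (dR w - gL w) := by rw [← hk, hm4]
      rw [div_left_inj' hd.ne'] at e
      have h3 := hI.2.2.1
      linarith
    cases i with
    | zero =>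
      cases j with
      | zero => rfl
      | succ j =>
        exfalso
        exact key j (by simpa [klist] using hi) (by simpa [klist] using hj)
    | succ i =>
      cases j with
      | zero =>
        exfalso
        exact key i (by simpa [klist] using hj) (by simpa [klist] using hi)
      | succ j =>
        rw [ih (a + τ) hv' i j k (by simpa [klist] using hi) (by simpa [klist] using hj)]

section Meas

universe u

variable {Ω : Type*} [MeasurableSpace Ω] {C : ℝ≥0 → Ω → ℝ} {loc : ℕ → Ω → ℝ}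
  {sgn : ℕ → Ω → Bool}

theorem meas_ins_set (hm : ∀ t, Measurable (C t)) (hc : ∀ ω, Continuous fun t => C t ω)
    (h0 : ∀ ω, C 0 ω = 0) (hloc : ∀ k, Measurable (loc k)) (k : ℕ) :
    MeasurableSet {q : Ω × ℝ × ℝ |
      kone (fun t => C t q.1) (fun k => loc k q.1) q.2.1 q.2.2 = some k} := by
  have hg : Measurable fun q : Ω × ℝ × ℝ => gL fun t => C t q.1 :=
    (meas_gL hm hc h0).comp measurable_fst
  have hd : Measurable fun q : Ω × ℝ × ℝ => dR fun t => C t q.1 :=
    (meas_dR hm hc).comp measurable_fst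
  have hA : Measurable fun q : Ω × ℝ × ℝ => am (fun t => C t.toNNReal q.1) q.2.1 q.2.2 :=
    meas_am hm hc
  have ha : Measurable fun q : Ω × ℝ × ℝ => q.2.1 := measurable_fst.comp measurable_snd
  have hτ : Measurable fun q : Ω × ℝ × ℝ => q.2.2 := measurable_snd.comp measurable_snd
  have h1 : Measurable fun q : Ω × ℝ × ℝ => C 1 q.1 := (hm 1).comp measurable_fst
  have hl : ∀ j, Measurable fun q : Ω × ℝ × ℝ => loc j q.1 :=
    fun j => (hloc j).comp measurable_fst
  have hx : Measurable fun q : Ω × ℝ × ℝ => (am (fun t => C t.toNNReal q.1) q.2.1 q.2.2 -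
      gL fun t => C t q.1) / ((dR fun t => C t q.1) - gL fun t => C t q.1) :=
    (hA.sub hg).div (hd.sub hg)
  have e : {q : Ω × ℝ × ℝ |
      kone (fun t => C t q.1) (fun k => loc k q.1) q.2.1 q.2.2 = some k} =
      ({q : Ω × ℝ × ℝ | 0 < C 1 q.1} ∩
      {q | q.2.1 < am (fun t => C t.toNNReal q.1) q.2.1 q.2.2} ∩
      {q | am (fun t => C t.toNNReal q.1) q.2.1 q.2.2 < q.2.1 + q.2.2} ∩
      {q | (gL fun t => C t q.1) < am (fun t => C t.toNNReal q.1) q.2.1 q.2.2} ∩
      {q | am (fun t => C t.toNNReal q.1) q.2.1 q.2.2 < dR fun t => C t q.1} ∩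
      {q | loc k q.1 = (am (fun t => C t.toNNReal q.1) q.2.1 q.2.2 -
        gL fun t => C t q.1) / ((dR fun t => C t q.1) - gL fun t => C t q.1)}) ∩
      ⋂ j : ℕ, ⋂ (_ : j < k), {q | loc j q.1 = (am (fun t => C t.toNNReal q.1) q.2.1 q.2.2 -
        gL fun t => C t q.1) / ((dR fun t => C t q.1) - gL fun t => C t q.1)}ᶜ := by
    ext q
    simp only [mem_ofPred_eq, mem_inter_iff, mem_iInter, mem_compl_iff]
    rw [kone_eq_some]
    unfold Ins
    constructor
    · rintro ⟨⟨i1, i2, i3, i4, i5, _⟩, h2, h3⟩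
      exact ⟨⟨⟨⟨⟨⟨i1, i2⟩, i3⟩, i4⟩, i5⟩, h2⟩, h3⟩
    · rintro ⟨⟨⟨⟨⟨⟨i1, i2⟩, i3⟩, i4⟩, i5⟩, h2⟩, h3⟩
      exact ⟨⟨i1, i2, i3, i4, i5, ⟨k, h2⟩⟩, h2, h3⟩
  rw [e]
  refine MeasurableSet.inter ?_ ?_
  · refine MeasurableSet.inter (MeasurableSet.inter (MeasurableSet.inter (MeasurableSet.inter
      (MeasurableSet.inter ?_ ?_) ?_) ?_) ?_) ?_
    · exact measurableSet_lt measurable_const h1
    · exact measurableSet_lt ha hA
    · exact measurableSet_lt hA (ha.add hτ)
    · exact measurableSet_lt hg hA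
    · exact measurableSet_lt hA hd
    · exact measurableSet_eq_fun (hl k) hx
  · refine MeasurableSet.iInter fun j => MeasurableSet.iInter fun _ => ?_
    exact (measurableSet_eq_fun (hl j) hx).compl

theorem meas_osg (hm : ∀ t, Measurable (C t)) (hc : ∀ ω, Continuous fun t => C t ω)
    (h0 : ∀ ω, C 0 ω = 0) (hloc : ∀ k, Measurable (loc k)) (hsgn : ∀ k, Measurable (sgn k)) :
    Measurable fun q : Ω × ℝ × ℝ × Bool => osg (fun k => sgn k q.1)
      (kone (fun t => C t q.1) (fun k => loc k q.1) q.2.1 q.2.2.1) q.2.2.2 := by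
  apply measurable_to_bool
  have hproj : Measurable fun q : Ω × ℝ × ℝ × Bool => (q.1, q.2.1, q.2.2.1) := by fun_prop
  have hS : ∀ k, MeasurableSet {q : Ω × ℝ × ℝ × Bool |
      kone (fun t => C t q.1) (fun k => loc k q.1) q.2.1 q.2.2.1 = some k} := fun k =>
    hproj (meas_ins_set hm hc h0 hloc k)
  have hT : ∀ k, MeasurableSet {q : Ω × ℝ × ℝ × Bool | sgn k q.1 = true} := fun k =>
    ((hsgn k).comp measurable_fst) (measurableSet_singleton true)
  have hB : MeasurableSet {q : Ω × ℝ × ℝ × Bool | q.2.2.2 = true} := by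
    have : Measurable fun q : Ω × ℝ × ℝ × Bool => q.2.2.2 := by fun_prop
    exact this (measurableSet_singleton true)
  have e : (fun q : Ω × ℝ × ℝ × Bool => osg (fun k => sgn k q.1)
      (kone (fun t => C t q.1) (fun k => loc k q.1) q.2.1 q.2.2.1) q.2.2.2) ⁻¹' {true} =
      (⋃ k, ({q : Ω × ℝ × ℝ × Bool |
        kone (fun t => C t q.1) (fun k => loc k q.1) q.2.1 q.2.2.1 = some k} ∩
        {q | sgn k q.1 = true})) ∪
      ((⋂ k, {q : Ω × ℝ × ℝ × Bool |
        kone (fun t => C t q.1) (fun k => loc k q.1) q.2.1 q.2.2.1 = some k}ᶜ) ∩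
        {q | q.2.2.2 = true}) := by
    ext q
    simp only [mem_preimage, mem_singleton_iff, mem_union, mem_iUnion, mem_inter_iff,
      mem_ofPred_eq, mem_iInter, mem_compl_iff]
    rcases hk : kone (fun t => C t q.1) (fun k => loc k q.1) q.2.1 q.2.2.1 with _ | k
    · simp [osg]
    · simp [osg]
  rw [e]
  exact (MeasurableSet.iUnion fun k => (hS k).inter (hT k)).union
    ((MeasurableSet.iInter fun k => (hS k).compl).inter hB)

/-- one piece with its sign -/
noncomputable def bpc (C : ℝ≥0 → Ω → ℝ) (loc : ℕ → Ω → ℝ) (sgn : ℕ → Ω → Bool) (ω : Ω) (a : ℝ)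
    (x : ℝ × Bool) : Pc :=
  adS (dW (pth C ω) a x.1, uW (pth C ω) a x.1, x.1, true) (osg (fun k => sgn k ω)
    (kone (fun t => C t ω) (fun k => loc k ω) a x.1) x.2)

/-- all pieces with their signs -/
noncomputable def bld (C : ℝ≥0 → Ω → ℝ) (loc : ℕ → Ω → ℝ) (sgn : ℕ → Ω → Bool) (ω : Ω) :
    ℝ → List (ℝ × Bool) → List Pc
  | _, [] => []
  | a, x :: l => bpc C loc sgn ω a x :: bld C loc sgn ω (a + x.1) l

omit [MeasurableSpace Ω] in
theorem zipS_mix (C : ℝ≥0 → Ω → ℝ) (loc : ℕ → Ω → ℝ) (sgn : ℕ → Ω → Bool) (ω : Ω) (v : List ℝ) :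
    ∀ (a : ℝ) (c : List Bool), zipS (pcs (pth C ω) a v)
      (mix (fun k => sgn k ω) (klist (fun t => C t ω) (fun k => loc k ω) a v) c) =
      bld C loc sgn ω a (v.zip c) := by
  induction v with
  | nil => intro a c; simp [pcs, zipS, bld]
  | cons τ v ih =>
    intro a c
    cases c with
    | nil =>
      simp only [klist, mix, List.zip_nil_right, bld, zipS, List.zipWith_nil_right]
    | cons b c =>
      rcases hk : kone (fun t => C t ω) (fun k => loc k ω) a τ with _ | k
      · have := ih (a + τ) c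
        simp only [zipS] at this
        simp only [klist, mix, pcs, zipS, List.zipWith_cons_cons, List.zip_cons_cons, bld, bpc,
          osg, hk, this]
      · have := ih (a + τ) c
        simp only [zipS] at this
        simp only [klist, mix, pcs, zipS, List.zipWith_cons_cons, List.zip_cons_cons, bld, bpc,
          osg, hk, this]

theorem meas_bpc (hm : ∀ t, Measurable (C t)) (hc : ∀ ω, Continuous fun t => C t ω)
    (h0 : ∀ ω, C 0 ω = 0) (hloc : ∀ k, Measurable (loc k)) (hsgn : ∀ k, Measurable (sgn k)) :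
    Measurable fun q : Ω × ℝ × ℝ × Bool => bpc C loc sgn q.1 q.2.1 q.2.2 := by
  have h1 : Measurable fun q : Ω × ℝ × ℝ × Bool => pth C q.1 q.2.1 :=
    (meas_pth hm hc).comp (by fun_prop : Measurable fun q : Ω × ℝ × ℝ × Bool => (q.1, q.2.1))
  have h2 : Measurable fun q : Ω × ℝ × ℝ × Bool => pth C q.1 (q.2.1 + q.2.2.1) :=
    (meas_pth hm hc).comp
      (by fun_prop : Measurable fun q : Ω × ℝ × ℝ × Bool => (q.1, q.2.1 + q.2.2.1))
  have h3 : Measurable fun q : Ω × ℝ × ℝ × Bool => mn (pth C q.1) q.2.1 q.2.2.1 :=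
    (meas_mn hm hc).comp
      (by fun_prop : Measurable fun q : Ω × ℝ × ℝ × Bool => (q.1, q.2.1, q.2.2.1))
  have h4 := meas_osg hm hc h0 hloc hsgn
  have h5 : Measurable fun q : Ω × ℝ × ℝ × Bool => q.2.2.1 := by fun_prop
  unfold bpc adS dW uW
  exact (h1.sub h3).prodMk ((h2.sub h3).prodMk (h5.prodMk (measurable_const.prodMk h4)))

theorem meas_bld (hm : ∀ t, Measurable (C t)) (hc : ∀ ω, Continuous fun t => C t ω)
    (h0 : ∀ ω, C 0 ω = 0) (hloc : ∀ k, Measurable (loc k)) (hsgn : ∀ k, Measurable (sgn k))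
    (n : ℕ) : ∀ {γ : Type u} [MeasurableSpace γ] {F : γ → List Pc → ℝ≥0∞} (_ : MF2 F),
      Measurable (fun r : (γ × Ω × ℝ) × (Fin n → ℝ × Bool) =>
        F r.1.1 (bld C loc sgn r.1.2.1 r.1.2.2 (List.ofFn r.2))) := by
  induction n with
  | zero =>
    intro γ _ F hF
    have : (fun r : (γ × Ω × ℝ) × (Fin 0 → ℝ × Bool) =>
        F r.1.1 (bld C loc sgn r.1.2.1 r.1.2.2 (List.ofFn r.2))) =
        (fun y => F y []) ∘ fun r => r.1.1 := by
      funext r
      simp [bld]
    rw [this]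
    exact hF.nil.comp (measurable_fst.comp measurable_fst)
  | succ n ih =>
    intro γ _ F hF
    have h1 := ih hF.cons
    have e : (fun r : (γ × Ω × ℝ) × (Fin (n + 1) → ℝ × Bool) =>
        F r.1.1 (bld C loc sgn r.1.2.1 r.1.2.2 (List.ofFn r.2))) =
        (fun r : ((γ × Pc) × Ω × ℝ) × (Fin n → ℝ × Bool) =>
          (fun (q : γ × Pc) l => F q.1 (q.2 :: l)) r.1.1
            (bld C loc sgn r.1.2.1 r.1.2.2 (List.ofFn r.2))) ∘
        fun r : (γ × Ω × ℝ) × (Fin (n + 1) → ℝ × Bool) =>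
          (((r.1.1, bpc C loc sgn r.1.2.1 r.1.2.2 (r.2 0)), r.1.2.1, r.1.2.2 + (r.2 0).1),
            fun i => r.2 i.succ) := by
      funext r
      simp only [Function.comp_apply, List.ofFn_succ, bld]
    rw [e]
    refine h1.comp ?_
    have hr0 : Measurable fun r : (γ × Ω × ℝ) × (Fin (n + 1) → ℝ × Bool) => r.2 0 :=
      (measurable_pi_apply 0).comp measurable_snd
    have hω : Measurable fun r : (γ × Ω × ℝ) × (Fin (n + 1) → ℝ × Bool) => r.1.2.1 := by
      fun_prop
    have ha : Measurable fun r : (γ × Ω × ℝ) × (Fin (n + 1) → ℝ × Bool) => r.1.2.2 := by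
      fun_prop
    have hb : Measurable fun r : (γ × Ω × ℝ) × (Fin (n + 1) → ℝ × Bool) =>
        bpc C loc sgn r.1.2.1 r.1.2.2 (r.2 0) :=
      (meas_bpc hm hc h0 hloc hsgn).comp (hω.prodMk (ha.prodMk hr0))
    refine Measurable.prodMk ?_ ?_
    · refine Measurable.prodMk ?_ ?_
      · exact (measurable_fst.comp measurable_fst).prodMk hb
      · exact hω.prodMk (ha.add (measurable_fst.comp hr0))
    · exact measurable_pi_lambda _ fun i => (measurable_pi_apply i.succ).comp measurable_snd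

omit [MeasurableSpace Ω] in
theorem zip_ofFn {α β : Type*} {m n : ℕ} (v : Fin m → α) (w : Fin n → β) :
    (List.ofFn v).zip (List.ofFn w) = List.ofFn (fun i : Fin (min m n) =>
      (v ⟨i, lt_of_lt_of_le i.2 (min_le_left _ _)⟩,
        w ⟨i, lt_of_lt_of_le i.2 (min_le_right _ _)⟩)) := by
  apply List.ext_getElem
  · simp
  · intro i h1 h2
    simp

/-- measurability in the path, the durations and the auxiliary signs -/
theorem meas_bld_zip (hm : ∀ t, Measurable (C t)) (hc : ∀ ω, Continuous fun t => C t ω)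
    (h0 : ∀ ω, C 0 ω = 0) (hloc : ∀ k, Measurable (loc k)) (hsgn : ∀ k, Measurable (sgn k))
    {F : List Pc → ℝ≥0∞} (hF : MF F) (a : ℝ) (m : ℕ) :
    MF2 (fun (q : Ω × (Fin m → ℝ)) (c : List Bool) =>
      F (bld C loc sgn q.1 a ((List.ofFn q.2).zip c))) := by
  intro k
  have h1 := meas_bld hm hc h0 hloc hsgn (min m k) (hF.mf2 (γ := Unit))
  have e : (fun q : (Ω × (Fin m → ℝ)) × (Fin k → Bool) =>
      F (bld C loc sgn q.1.1 a ((List.ofFn q.1.2).zip (List.ofFn q.2)))) =
      (fun r : (Unit × Ω × ℝ) × (Fin (min m k) → ℝ × Bool) =>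
        (fun (_ : Unit) l => F l) r.1.1 (bld C loc sgn r.1.2.1 r.1.2.2 (List.ofFn r.2))) ∘
      fun q : (Ω × (Fin m → ℝ)) × (Fin k → Bool) => (((), q.1.1, a),
        fun i : Fin (min m k) => (q.1.2 ⟨i, lt_of_lt_of_le i.2 (min_le_left _ _)⟩,
          q.2 ⟨i, lt_of_lt_of_le i.2 (min_le_right _ _)⟩)) := by
    funext q
    simp only [Function.comp_apply, zip_ofFn]
  rw [e]
  refine h1.comp ?_
  refine Measurable.prodMk ?_ ?_
  · exact measurable_const.prodMk ((measurable_fst.comp measurable_fst).prodMk measurable_const)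
  · refine measurable_pi_lambda _ fun i => ?_
    exact ((measurable_pi_apply _).comp (measurable_snd.comp measurable_fst)).prodMk
      ((measurable_pi_apply _).comp measurable_snd)

theorem mf2_inner (hm : ∀ t, Measurable (C t)) (hc : ∀ ω, Continuous fun t => C t ω)
    (h0 : ∀ ω, C 0 ω = 0) (hloc : ∀ k, Measurable (loc k)) (hsgn : ∀ k, Measurable (sgn k))
    {F : List Pc → ℝ≥0∞} (hF : MF F) (a : ℝ) (p : ℝ) (n : ℕ) :
    MF2 (fun (ω : Ω) (v : List ℝ) => LI (berM p) n (fun c =>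
      F (bld C loc sgn ω a (v.zip c)))) := by
  intro m
  exact MF2.meas_LI (berM p) (meas_bld_zip hm hc h0 hloc hsgn hF a m) n

theorem meas_klist (hm : ∀ t, Measurable (C t)) (hc : ∀ ω, Continuous fun t => C t ω)
    (h0 : ∀ ω, C 0 ω = 0) (hloc : ∀ k, Measurable (loc k)) (v : List ℝ) :
    ∀ (a : ℝ) (i k : ℕ), MeasurableSet
      {ω | (klist (fun t => C t ω) (fun k => loc k ω) a v).getD i none = some k} := by
  induction v with
  | nil =>
    intro a i k
    simp [klist]
  | cons τ v ih =>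
    intro a i k
    cases i with
    | zero =>
      have h2 : Measurable (fun ω : Ω => (ω, a, τ)) := measurable_id.prodMk measurable_const
      have h3 := h2 (meas_ins_set hm hc h0 hloc k)
      simpa [klist] using h3
    | succ i =>
      have := ih (a + τ) i k
      simpa [klist] using this

end Meas

section Comap

variable {Ω : Type*}

/-- the σ-algebra of the path and the enumeration -/
@[reducible] def gsp (C : ℝ≥0 → Ω → ℝ) (loc : ℕ → Ω → ℝ) : MeasurableSpace Ω :=
  MeasurableSpace.comap (fun ω => ((fun t => C t ω), fun k => loc k ω)) inferInstance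

theorem gsp_pair (C : ℝ≥0 → Ω → ℝ) (loc : ℕ → Ω → ℝ) :
    @Measurable Ω ((ℝ≥0 → ℝ) × (ℕ → ℝ)) (gsp C loc) _
      (fun ω => ((fun t => C t ω), fun k => loc k ω)) := comap_measurable _

theorem gsp_C (C : ℝ≥0 → Ω → ℝ) (loc : ℕ → Ω → ℝ) (t : ℝ≥0) :
    @Measurable Ω ℝ (gsp C loc) _ (C t) := by
  letI : MeasurableSpace Ω := gsp C loc
  exact (measurable_pi_apply t).comp (measurable_fst.comp (gsp_pair C loc))

theorem gsp_loc (C : ℝ≥0 → Ω → ℝ) (loc : ℕ → Ω → ℝ) (k : ℕ) :
    @Measurable Ω ℝ (gsp C loc) _ (loc k) := by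
  letI : MeasurableSpace Ω := gsp C loc
  exact (measurable_pi_apply k).comp (measurable_snd.comp (gsp_pair C loc))

end Comap

theorem zipS_ofFn {m n : ℕ} (u : Fin m → Pc3) (c : Fin n → Bool) :
    zipS (List.ofFn u) (List.ofFn c) = List.ofFn (fun i : Fin (min m n) =>
      adS (u ⟨i, lt_of_lt_of_le i.2 (min_le_left _ _)⟩)
        (c ⟨i, lt_of_lt_of_le i.2 (min_le_right _ _)⟩)) := by
  unfold zipS
  apply List.ext_getElem
  · simp
  · intro i h1 h2
    simp

theorem meas_adS : Measurable fun q : Pc3 × Bool => adS q.1 q.2 := by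
  unfold adS
  fun_prop

theorem meas_zipS {F : List Pc → ℝ≥0∞} (hF : MF F) (m n : ℕ) :
    Measurable (fun q : (Fin m → Pc3) × (Fin n → Bool) =>
      F (zipS (List.ofFn q.1) (List.ofFn q.2))) := by
  have e : (fun q : (Fin m → Pc3) × (Fin n → Bool) =>
      F (zipS (List.ofFn q.1) (List.ofFn q.2))) = (fun l : Fin (min m n) → Pc => F (List.ofFn l)) ∘
      fun q => fun i : Fin (min m n) => adS (q.1 ⟨i, lt_of_lt_of_le i.2 (min_le_left _ _)⟩)
        (q.2 ⟨i, lt_of_lt_of_le i.2 (min_le_right _ _)⟩) := by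
    funext q
    simp only [Function.comp_apply, zipS_ofFn]
  rw [e]
  refine (hF (min m n)).comp (measurable_pi_lambda _ fun i => ?_)
  have h1 : Measurable fun q : (Fin m → Pc3) × (Fin n → Bool) =>
      q.1 ⟨i, lt_of_lt_of_le i.2 (min_le_left _ _)⟩ := (measurable_pi_apply _).comp measurable_fst
  have h2 : Measurable fun q : (Fin m → Pc3) × (Fin n → Bool) =>
      q.2 ⟨i, lt_of_lt_of_le i.2 (min_le_right _ _)⟩ := (measurable_pi_apply _).comp measurable_snd
  exact meas_adS.comp (h1.prodMk h2)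

theorem mf_zipS_left {F : List Pc → ℝ≥0∞} (hF : MF F) (c : List Bool) :
    MF (fun l : List Pc3 => F (zipS l c)) := by
  intro m
  have h := (meas_zipS hF m c.length).comp
    (measurable_id.prodMk measurable_const : Measurable fun u : Fin m → Pc3 =>
      (u, fun i : Fin c.length => c.get i))
  have e : (fun u : Fin m → Pc3 => F (zipS (List.ofFn u) c)) =
      (fun q : (Fin m → Pc3) × (Fin c.length → Bool) =>
      F (zipS (List.ofFn q.1) (List.ofFn q.2))) ∘ fun u => (u, fun i : Fin c.length => c.get i) := by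
    funext u
    simp only [Function.comp_apply]
    congr 2
    simp
  rw [e]
  exact h

theorem meas_zipS_pcs {Ω : Type*} [MeasurableSpace Ω] {C : ℝ≥0 → Ω → ℝ}
    (hm : ∀ t, Measurable (C t)) (hc : ∀ ω, Continuous fun t => C t ω) {F : List Pc → ℝ≥0∞}
    (hF : MF F) (a : ℝ) (v : List ℝ) (c : List Bool) :
    Measurable fun ω => F (zipS (pcs (pth C ω) a v) c) := by
  have h1 := meas_pcs hm hc ((mf_zipS_left hF c).mf2 (γ := Unit)) v.length
  have h2 : Measurable (fun ω : Ω => ((((), ω, a) : Unit × Ω × ℝ),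
      fun i : Fin v.length => v.get i)) :=
    (measurable_const.prodMk (measurable_id.prodMk measurable_const)).prodMk measurable_const
  have h3 := h1.comp h2
  have e : (fun ω => F (zipS (pcs (pth C ω) a v) c)) =
      (fun q : (Unit × Ω × ℝ) × (Fin v.length → ℝ) =>
        F (zipS (pcs (pth C q.1.2.1) q.1.2.2 (List.ofFn q.2)) c)) ∘
      fun ω : Ω => ((((), ω, a) : Unit × Ω × ℝ), fun i : Fin v.length => v.get i) := by
    funext ω
    simp only [Function.comp_apply]
    congr 3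
    simp
  rw [e]
  exact h3

theorem mf_LI_zipS {F : List Pc → ℝ≥0∞} (hF : MF F) (p : ℝ) (n : ℕ) :
    MF (fun l : List Pc3 => LI (berM p) n (fun c => F (zipS l c))) := by
  intro m
  refine MF2.meas_LI (berM p) (F := fun (u : Fin m → Pc3) c => F (zipS (List.ofFn u) c)) ?_ n
  intro k
  exact meas_zipS hF m k

end SMainAux

open SMainAux

theorem IsSigning.sgn {p : ℝ} {B C : ℝ≥0 → Ω → ℝ} {loc : ℕ → Ω → ℝ} {sgn : ℕ → Ω → Bool}
    (h : IsSigning P p B loc sgn) (hC : BM C P) (hBC : ∀ᵐ ω ∂P, ∀ t, C t ω = B t ω) :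
    Sgn P p C loc sgn := by
  have hfun : ∀ᵐ ω ∂P, (fun t => B t ω) = fun t => C t ω := by
    filter_upwards [hBC] with ω hω
    funext t
    exact (hω t).symm
  refine ⟨h.loc_meas, h.sgn_meas, h.loc_inj, ?_, h.law, h.indep, ?_⟩
  · filter_upwards [h.loc_all, hfun] with ω h1 h2
    rw [← h2]
    exact h1
  · refine h.indep'.congr (ae_eq_refl _) ?_
    filter_upwards [hfun] with ω h2
    rw [h2]

/-- for fixed durations -/
theorem sign_fixed {p : ℝ} (hp0 : 0 ≤ p) (hp1 : p ≤ 1) {C : ℝ≥0 → Ω → ℝ} (hC : BM C P)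
    {loc : ℕ → Ω → ℝ} {sgn : ℕ → Ω → Bool} (hs : Sgn P p C loc sgn)
    {F : List Pc → ℝ≥0∞} (hF : MF F) {a : ℝ} (ha : 0 ≤ a) {v : List ℝ} (hv : ∀ τ ∈ v, 0 ≤ τ) :
    ∫⁻ ω, LI (berM p) v.length (fun c => F (zipS (pcs (pth C ω) a v)
      (sgs (fun t => C t ω) (fun k => loc k ω) (fun k => sgn k ω) a v c))) ∂P =
    ∫⁻ ω, LI (berM p) v.length (fun c => F (zipS (pcs (pth C ω) a v) c)) ∂P := by
  have : IsProbabilityMeasure P := hC.prob
  have hpair : Measurable (fun ω => ((fun t => C t ω), fun k => loc k ω)) :=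
    (measurable_pi_lambda _ hC.meas).prodMk (measurable_pi_lambda _ hs.loc_meas)
  have hind : Indep (MeasurableSpace.comap (fun ω k => sgn k ω) inferInstance) (gsp C loc) P :=
    (IndepFun_iff_Indep _ _ _).1 hs.indep'
  -- the indices
  have hofFn : ∀ ω, List.ofFn (fun i : Fin v.length =>
      (klist (fun t => C t ω) (fun k => loc k ω) a v).getD i none) =
      klist (fun t => C t ω) (fun k => loc k ω) a v := by
    intro ω
    apply List.ext_getElem
    · simp [length_klist]
    · intro i h1 h2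
      simp [List.getD_eq_getElem?_getD, h2]
  have hK : ∀ᵐ ω ∂P, ∀ (i j : Fin v.length) k,
      (klist (fun t => C t ω) (fun k => loc k ω) a v).getD i none = some k →
      (klist (fun t => C t ω) (fun k => loc k ω) a v).getD j none = some k → i = j :=
    ae_of_all _ fun ω i j k h1 h2 => Fin.ext (klist_inj v a hv i j k h1 h2)
  have hmain := mix_rand hp0 hp1 hs.sgn_meas hs.law hs.indep (𝒢 := gsp C loc)
    (by first | exact hpair.comap_le | exact le_rfl) hind
    (K := fun (i : Fin v.length) ω =>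
      (klist (fun t => C t ω) (fun k => loc k ω) a v).getD i none)
    (fun i k => @meas_klist Ω (gsp C loc) C loc (gsp_C C loc) hC.cont hC.zero (gsp_loc C loc)
      v a i k) hK
    (F := fun ω c => F (zipS (pcs (pth C ω) a v) c))
    (fun c => @meas_zipS_pcs Ω (gsp C loc) C (gsp_C C loc) hC.cont F hF a v c)
  rw [← hmain]
  apply lintegral_congr_ae
  filter_upwards [hs.loc_inj] with ω hω
  apply LI_congr
  intro c _
  rw [hofFn ω, sgs_eq_mix hω]

/-- almost sure form of the integrand -/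
theorem SMainAux.ae_bld {p : ℝ} {C : ℝ≥0 → Ω → ℝ} {loc : ℕ → Ω → ℝ} {sgn : ℕ → Ω → Bool}
    (hs : Sgn P p C loc sgn) {Λ : ℝ} (F : List Pc → ℝ≥0∞) (a : ℝ) (n : ℕ) :
    (fun ω => LI (expMeasure Λ) n (fun v => LI (berM p) n (fun c =>
      F (zipS (pcs (pth C ω) a v)
      (sgs (fun t => C t ω) (fun k => loc k ω) (fun k => sgn k ω) a v c))))) =ᵐ[P]
    fun ω => LI (expMeasure Λ) n (fun v => LI (berM p) n (fun c =>
      F (bld C loc sgn ω a (v.zip c)))) := by
  filter_upwards [hs.loc_inj] with ω hω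
  apply LI_congr
  intro v _
  apply LI_congr
  intro c _
  rw [sgs_eq_mix hω, zipS_mix]

/-- almost sure measurability (almost surely `loc` is injective, so that `signAt` does not depend
on a choice) -/
theorem sign_aemeas {p : ℝ} (hp0 : 0 ≤ p) (hp1 : p ≤ 1) {C : ℝ≥0 → Ω → ℝ} (hC : BM C P)
    {loc : ℕ → Ω → ℝ} {sgn : ℕ → Ω → Bool} (hs : Sgn P p C loc sgn) {Λ : ℝ} (hΛ : 0 < Λ)
    {F : List Pc → ℝ≥0∞} (hF : MF F) {a : ℝ} (ha : 0 ≤ a) (n : ℕ) :
    AEMeasurable (fun ω => LI (expMeasure Λ) n (fun v => LI (berM p) n (fun c =>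
      F (zipS (pcs (pth C ω) a v)
      (sgs (fun t => C t ω) (fun k => loc k ω) (fun k => sgn k ω) a v c))))) P := by
  have := isProbabilityMeasure_expMeasure hΛ
  have h1 : Measurable fun ω => LI (expMeasure Λ) n (fun v => LI (berM p) n (fun c =>
      F (bld C loc sgn ω a (v.zip c)))) :=
    MF2.meas_LI (expMeasure Λ) (mf2_inner hC.meas hC.cont hC.zero hs.loc_meas hs.sgn_meas hF a p n) n
  exact h1.aemeasurable.congr (ae_bld hs F a n).symm

/-- the pieces with their signs are independent -/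
theorem sign_main {p : ℝ} (hp0 : 0 ≤ p) (hp1 : p ≤ 1) {C : ℝ≥0 → Ω → ℝ} (hC : BM C P)
    {loc : ℕ → Ω → ℝ} {sgn : ℕ → Ω → Bool} (hs : Sgn P p C loc sgn) {Λ : ℝ} (hΛ : 0 < Λ)
    {F : List Pc → ℝ≥0∞} (hF : MF F) {a : ℝ} (ha : 0 ≤ a) (n : ℕ) :
    ∫⁻ ω, LI (expMeasure Λ) n (fun v => LI (berM p) n (fun c => F (zipS (pcs (pth C ω) a v)
      (sgs (fun t => C t ω) (fun k => loc k ω) (fun k => sgn k ω) a v c)))) ∂P =
    LI (sgnProd p (law3 C P Λ)) n F := by
  have := isProbabilityMeasure_expMeasure hΛ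
  have : IsProbabilityMeasure P := hC.prob
  have := law3_prob hC hΛ
  have := berM_prob hp0 hp1
  rw [lintegral_congr_ae (ae_bld hs F a n),
    LI_swap (expMeasure Λ) (mf2_inner hC.meas hC.cont hC.zero hs.loc_meas hs.sgn_meas hF a p n) n]
  have hF' := mf_LI_zipS hF p n
  have hpcs : MF2 (fun (ω : Ω) (v : List ℝ) => LI (berM p) n (fun c =>
      F (zipS (pcs (pth C ω) a v) c))) := by
    have h1 := meas_pcs hC.meas hC.cont (hF'.mf2 (γ := Unit))
    exact h1.comp_left (k := fun ω : Ω => (((), ω, a) : Unit × Ω × ℝ))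
      (measurable_const.prodMk (measurable_id.prodMk measurable_const))
  have hnn : ∀ᵐ x ∂(expMeasure Λ), 0 ≤ x := by
    filter_upwards [exp_pos_ae hΛ] with x hx
    exact hx.le
  have h2 : LI (expMeasure Λ) n (fun v => ∫⁻ ω, LI (berM p) n (fun c =>
      F (bld C loc sgn ω a (v.zip c))) ∂P) =
      LI (expMeasure Λ) n (fun v => ∫⁻ ω, LI (berM p) n (fun c =>
      F (zipS (pcs (pth C ω) a v) c)) ∂P) := by
    apply LI_congr_ae (expMeasure Λ) hnn
    intro v hlen hv
    have h3 := sign_fixed hp0 hp1 hC hs hF ha hv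
    rw [hlen] at h3
    rw [← h3]
    apply lintegral_congr_ae
    filter_upwards [hs.loc_inj] with ω hω
    apply LI_congr
    intro c _
    rw [sgs_eq_mix hω, zipS_mix]
  rw [h2, ← LI_swap (expMeasure Λ) hpcs n, LI_zipS hp0 hp1 hF n]
  exact bm_LI hC hΛ hF' ha n

end Pool.Agent.BSP
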