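import Pool.Agent.BSP.LFold
import Pool.Agent.BSP.SMain
import Pool.Agent.BSP.WH
import Pool.Agent.BSP.ExcPath

set_option autoImplicit false

/-!
# Lower bound: probability that there is no nested family of depth `K`
-/

namespace Pool.Agent.BSP

open MeasureTheory ProbabilityTheory Set Filter
open scoped ENNReal NNReal Topology

variable {Ω : Type*} [MeasurableSpace Ω] {P : Measure Ω}

private theorem lp_mD : Measurable pD := measurable_fst
private theorem lp_mU : Measurable pU := measurable_fst.comp measurable_snd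
private theorem lp_mT : Measurable pT :=
  measurable_fst.comp (measurable_snd.comp measurable_snd)
private theorem lp_mX : Measurable pX :=
  measurable_fst.comp (measurable_snd.comp (measurable_snd.comp measurable_snd))

/-- the laws of the signed pieces of Brownian motion -/
theorem base_LLaw {p : ℝ} (hp0 : 0 ≤ p) (hp1 : p ≤ 1) {C : ℝ≥0 → Ω → ℝ} (hC : BM C P) {Λ : ℝ}
    (hΛ : 0 < Λ) : LLaw p Λ (sgnProd p (law3 C P Λ)) := by
  have h3 := law3_prob hC hΛ
  have hb := berM_prob hp0 hp1
  have hemb : Measurable fun q : (ℝ × ℝ × ℝ × Bool) × Bool =>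
      ((q.1.1, q.1.2.1, q.1.2.2.1, q.1.2.2.2, q.2) : Pc) := by fun_prop
  have key : ∀ {β : Type} [MeasurableSpace β] (f : Pc → β) (g : Pc3 → β), Measurable f →
      Measurable g → (∀ q : (ℝ × ℝ × ℝ × Bool) × Bool,
        f (q.1.1, q.1.2.1, q.1.2.2.1, q.1.2.2.2, q.2) = g q.1) →
      (sgnProd p (law3 C P Λ)).map f = (law3 C P Λ).map g := by
    intro β _ f g hf hg hfg
    unfold sgnProd
    rw [Measure.map_map hf hemb]
    have e : (f ∘ fun q : (ℝ × ℝ × ℝ × Bool) × Bool =>
        ((q.1.1, q.1.2.1, q.1.2.2.1, q.1.2.2.2, q.2) : Pc)) = g ∘ Prod.fst := by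
      funext q
      exact hfg q
    rw [e, ← Measure.map_map hg measurable_fst, Measure.map_fst_prod, measure_univ, one_smul]
  refine ⟨?_, ⟨law3 C P Λ, h3, rfl⟩, ?_, ?_, ?_⟩
  · unfold sgnProd
    exact Measure.isProbabilityMeasure_map hemb.aemeasurable
  · rw [key (fun x => (pD x, pU x)) (fun x => (x.1, x.2.1)) (lp_mD.prodMk lp_mU) (by fun_prop)
      (fun q => rfl)]
    exact law3_DU hC hΛ
  · rw [key pT (fun x => x.2.2.1) lp_mT (by fun_prop) (fun q => rfl)]
    exact law3_T hC hΛ
  · have hg : Measurable fun x : Pc3 => x.2.2.2 := by fun_prop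
    have hs : MeasurableSet ({false} : Set Bool) := measurableSet_singleton false
    have e1 : sgnProd p (law3 C P Λ) {x | pX x = false} =
        (sgnProd p (law3 C P Λ)).map pX {false} := by
      rw [Measure.map_apply lp_mX hs]
      rfl
    have hF : Measurable fun q : Ω × ℝ =>
        ((dW (pth C q.1) 0 q.2, uW (pth C q.1) 0 q.2, q.2, true) : Pc3) := by
      have h1 := meas_mn hC.meas hC.cont
      have h2 := meas_pth hC.meas hC.cont
      have m0 : Measurable fun q : Ω × ℝ => mn (pth C q.1) 0 q.2 :=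
        h1.comp (measurable_fst.prodMk (measurable_const.prodMk measurable_snd))
      have m1 : Measurable fun q : Ω × ℝ => pth C q.1 0 :=
        h2.comp (measurable_fst.prodMk measurable_const)
      have m2 : Measurable fun q : Ω × ℝ => pth C q.1 (0 + q.2) :=
        h2.comp (measurable_fst.prodMk (measurable_const.add measurable_snd))
      unfold dW uW
      exact (m1.sub m0).prodMk ((m2.sub m0).prodMk (measurable_snd.prodMk measurable_const))
    rw [e1, key pX (fun x => x.2.2.2) lp_mX hg (fun q => rfl), Measure.map_apply hg hs]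
    unfold law3
    rw [Measure.map_apply hF (hg hs)]
    have e2 : (fun q : Ω × ℝ => ((dW (pth C q.1) 0 q.2, uW (pth C q.1) 0 q.2, q.2, true) : Pc3)) ⁻¹'
        ((fun x : Pc3 => x.2.2.2) ⁻¹' {false}) = ∅ := by
      ext q
      simp
    rw [e2, measure_empty]
    exact zero_le

private theorem lp_ind_meas {δ : Type*} [MeasurableSpace δ] {Q : δ → Prop}
    (h : MeasurableSet {z | Q z}) : Measurable (fun z => ind (Q z)) := by
  classical
  unfold ind
  exact Measurable.ite h measurable_const measurable_const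

private theorem lp_one_le_ind {A : Prop} (hA : A) : 1 ≤ ind A := by
  unfold ind
  rw [if_pos hA]

private theorem lp_mf_exists {q : Pc → Prop} (hq : MeasurableSet {x | q x}) :
    MF fun l : List Pc => ind (∃ x ∈ l, q x) := by
  intro n
  refine lp_ind_meas ?_
  have e : {v : Fin n → Pc | ∃ x ∈ List.ofFn v, q x} = ⋃ i, {v | q (v i)} := by
    ext v
    simp only [List.mem_ofFn, mem_ofPred_eq, mem_iUnion]
    constructor
    · rintro ⟨x, ⟨i, hi⟩, hx⟩
      exact ⟨i, by rw [hi]; exact hx⟩
    · rintro ⟨i, hi⟩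
      exact ⟨v i, ⟨i, rfl⟩, hi⟩
  rw [e]
  exact MeasurableSet.iUnion fun i => (measurable_pi_apply i) hq

private theorem lp_mf_forall {q : Pc → Prop} (hq : MeasurableSet {x | q x}) :
    MF fun l : List Pc => ind (∀ x ∈ l, q x) := by
  intro n
  refine lp_ind_meas ?_
  have e : {v : Fin n → Pc | ∀ x ∈ List.ofFn v, q x} = ⋂ i, {v | q (v i)} := by
    ext v
    simp only [List.mem_ofFn, mem_ofPred_eq, mem_iInter]
    constructor
    · intro h i
      exact h (v i) ⟨i, rfl⟩
    · rintro h x ⟨i, hi⟩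
      rw [← hi]
      exact h i
  rw [e]
  exact MeasurableSet.iInter fun i => (measurable_pi_apply i) hq

private theorem lp_mX_false : MeasurableSet {x : Pc | pX x = false} :=
  lp_mX (measurableSet_singleton false)

/-- none of `n` pieces of level `K` is marked, or one of them is long, or a piece of level `0` is
degenerate -/
theorem low_LI {p ℓ Λ : ℝ} (hℓ : 0 < ℓ) (hΛ : 0 < Λ) {ρ : Measure Pc} (hρ : LLaw p Λ ρ) {n : ℕ}
    (hn : 1 ≤ n) : LI ρ n (fun l => ind ((¬ ∃ x ∈ l, pX x = true) ∨ ℓ < (l.map pT).sum)) ≤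
      (1 / 16) ^ n + n * ENNReal.ofReal (Real.exp (-(Λ * ℓ / n))) := by
  have hρp := hρ.prob
  have hn0 : (0 : ℝ) < n := by exact_mod_cast hn
  have hq : MeasurableSet {x : Pc | ℓ / n < pT x} := measurableSet_lt measurable_const lp_mT
  have h1 : LI ρ n (fun l => ind ((¬ ∃ x ∈ l, pX x = true) ∨ ℓ < (l.map pT).sum)) ≤
      LI ρ n (fun l => ind (∀ x ∈ l, pX x = false) + ind (∃ x ∈ l, ℓ / n < pT x)) := by
    refine LI_mono ρ fun l hl => ?_
    by_cases hA : ∀ x ∈ l, pX x = false
    · have : ind (∀ x ∈ l, pX x = false) = 1 := by unfold ind; rw [if_pos hA]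
      rw [this]
      refine le_trans ?_ le_self_add
      unfold ind
      split_ifs <;> simp
    · by_cases hB : ∃ x ∈ l, ℓ / n < pT x
      · have : ind (∃ x ∈ l, ℓ / n < pT x) = 1 := by unfold ind; rw [if_pos hB]
        rw [this]
        refine le_trans ?_ le_add_self
        unfold ind
        split_ifs <;> simp
      · have : ¬ ((¬ ∃ x ∈ l, pX x = true) ∨ ℓ < (l.map pT).sum) := by
          rintro (h | h)
          · apply hA
            intro x hx
            by_contra hc
            exact h ⟨x, hx, by simpa using hc⟩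
          · have h2 : (l.map pT).sum ≤ (l.map pT).length • (ℓ / n) := by
              refine List.sum_le_card_nsmul _ _ ?_
              intro y hy
              obtain ⟨x, hx, rfl⟩ := List.mem_map.1 hy
              by_contra hc
              exact hB ⟨x, hx, not_le.1 hc⟩
            rw [List.length_map, hl, nsmul_eq_mul, mul_div_cancel₀ _ hn0.ne'] at h2
            linarith
        unfold ind
        rw [if_neg this]
        exact zero_le
  refine h1.trans ?_
  rw [LI_add ρ (lp_mf_forall lp_mX_false) (lp_mf_exists hq)]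
  refine add_le_add ?_ ?_
  · rw [LI_forall ρ lp_mX_false n]
    exact pow_le_pow_left' hρ.mark n
  · refine (LI_exists ρ hq n).trans ?_
    have e : ρ {x : Pc | ℓ / n < pT x} = expMeasure Λ {u | ℓ / n < u} := by
      rw [← hρ.T]
      exact (Measure.map_apply lp_mT (measurableSet_Ioi (a := ℓ / (n : ℝ)))).symm
    rw [e, exp_tail hΛ (by positivity), mul_div_assoc]

private theorem lp_inn_mono {e : ℝ → ℝ} {s : ℝ → Bool} {N : ℕ} {Q : ℝ} {k : ℕ}
    {r a b a' b' : ℝ} (h : Inn e s N Q k r a b) (ha : a' ≤ a) (hb : b ≤ b') :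
    Inn e s N Q k r a' b' := by
  cases k with
  | zero => trivial
  | succ k =>
    obtain ⟨x, y, h1, h2⟩ := h
    exact ⟨x, y, fun i => ⟨ha.trans (h1 i).1, (h1 i).2.1.trans hb, (h1 i).2.2.1, (h1 i).2.2.2⟩, h2⟩

private theorem lp_dur_eq (l : List Pc) : dur l = (l.map pT).sum := by
  induction l with
  | nil => rfl
  | cons x l ih => simp [dur, ih]

private theorem lp_split_sum {α : Type} {f : α → List Pc → Pc} {len : α → ℕ} :
    ∀ (πs : List α) (l : List Pc), (∀ π ∈ πs, ∀ l : List Pc, l.length = len π →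
      pT (f π l) = (l.map pT).sum) → l.length = (πs.map len).sum →
      ((splitMap f len πs l).map pT).sum = (l.map pT).sum := by
  intro πs
  induction πs with
  | nil =>
    intro l _ hl
    have : l = [] := by
      rw [← List.length_eq_zero_iff]
      simpa using hl
    rw [this]
    rfl
  | cons π πs ih =>
    intro l hf hl
    rw [List.map_cons, List.sum_cons] at hl
    have h1 : (l.take (len π)).length = len π := by
      rw [List.length_take]
      omega
    have h2 : (l.drop (len π)).length = (πs.map len).sum := by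
      rw [List.length_drop]
      omega
    have h3 := hf π List.mem_cons_self _ h1
    have h4 := ih (l.drop (len π)) (fun π' hπ' => hf π' (List.mem_cons_of_mem _ hπ')) h2
    have e : splitMap f len (π :: πs) l =
      f π (l.take (len π)) :: splitMap f len πs (l.drop (len π)) := rfl
    rw [e, List.map_cons, List.sum_cons, h3, h4, ← List.sum_append, ← List.map_append,
      List.take_append_drop]

private theorem lp_pfold_T (N Q : ℕ) : ∀ (k : ℕ) (Λ : ℝ) (π : Pat k) (l : List Pc),
    l.length = plen k π → pT (pfold N Q k Λ π l) = (l.map pT).sum := by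
  intro k
  induction k with
  | zero =>
    intro Λ π l hl
    have hl' : l.length = 1 := hl
    obtain ⟨x, rfl⟩ := List.length_eq_one_iff.1 hl'
    change pT (List.headD [x] default) = _
    simp
  | succ k ih =>
    intro Λ π l hl
    change dur (splitMap (pfold N Q k (Q * Λ)) (plen k) π l) = _
    rw [lp_dur_eq]
    exact lp_split_sum (len := plen k) π l (fun π' _ l' hl' => ih (Q * Λ) π' l' hl') hl

private theorem lp_zip_T (W : ℝ → ℝ) : ∀ (v : List ℝ) (a : ℝ) (c : List Bool),
    c.length = v.length → (zipS (pcs W a v) c).map pT = v := by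
  intro v
  induction v with
  | nil => intro a c _; simp [pcs, zipS]
  | cons τ v ih =>
    intro a c hc
    cases c with
    | nil => simp at hc
    | cons b c =>
      have hc' : c.length = v.length := by simpa using hc
      have := ih (a + τ) c hc'
      change pT (adS (dW W a τ, uW W a τ, τ, true) b) :: (zipS (pcs W (a + τ) v) c).map pT = _
      rw [this]
      rfl

private theorem lp_length_zip (W : ℝ → ℝ) (v : List ℝ) (a : ℝ) (c : List Bool)
    (hc : c.length = v.length) : (zipS (pcs W a v) c).length = v.length := by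
  have := congrArg List.length (lp_zip_T W v a c hc)
  simpa using this

private theorem lp_length_sgs (w : ℝ≥0 → ℝ) (loc : ℕ → ℝ) (sgn : ℕ → Bool) :
    ∀ (v : List ℝ) (a : ℝ) (c : List Bool), c.length = v.length →
      (sgs w loc sgn a v c).length = v.length := by
  intro v
  induction v with
  | nil => intro a c _; simp [sgs]
  | cons τ v ih =>
    intro a c hc
    cases c with
    | nil => simp at hc
    | cons b c =>
      have hc' : c.length = v.length := by simpa using hc
      simp [sgs, ih (a + τ) c hc']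

/-- deterministic part: on the event of the next theorem all lists of durations and auxiliary
signs are bad -/
theorem low_det {w : ℝ≥0 → ℝ} (h : GenPath (tr w)) (h1 : 0 < w 1) {loc : ℕ → ℝ} {sgn : ℕ → Bool}
    (hl : ∀ m, 0 < m → m < 1 → IsStrictMin (exc w) m → ∃ k, loc k = m) {ℓ : ℝ} (hℓ : 0 < ℓ)
    (hd : 1 + ℓ < dR w) {N Q : ℕ} (hQ : 1 ≤ Q) {K : ℕ} {Λ : ℝ} (hΛ : 0 < Λ)
    (hI : ¬ Inn (tr w) (sw w loc sgn) N Q K (1 / (32 * (Q * Λ))) 1 (1 + ℓ))
    {πs : List (Pat K)} (hp : ∀ π ∈ πs, Proper K π) {v : List ℝ} {c : List Bool}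
    (hv : v.length = (πs.map (plen K)).sum) (hc : c.length = v.length)
    (hn : Nondeg (tr w) 1 v) :
    (¬ ∃ x ∈ splitMap (pfold N Q K Λ) (plen K) πs (zipS (pcs (tr w) 1 v) (sgs w loc sgn 1 v c)),
      pX x = true) ∨
    ℓ < ((splitMap (pfold N Q K Λ) (plen K) πs
      (zipS (pcs (tr w) 1 v) (sgs w loc sgn 1 v c))).map pT).sum := by
  have hs := lp_length_sgs w loc sgn v 1 c hc
  have hz := lp_length_zip (tr w) v 1 _ hs
  have hsum : ((splitMap (pfold N Q K Λ) (plen K) πs
      (zipS (pcs (tr w) 1 v) (sgs w loc sgn 1 v c))).map pT).sum = v.sum := by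
    rw [lp_split_sum πs _ (fun π _ l hl => lp_pfold_T N Q K Λ π l hl) (hz.trans hv),
      lp_zip_T (tr w) v 1 _ hs]
  rcases lt_or_ge ℓ v.sum with hlt | hge
  · right
    rw [hsum]
    exact hlt
  · left
    intro hex
    obtain ⟨g0, g1, d1, -, -, -⟩ := exc_ends h h1
    have hpos : ∀ (v' : List ℝ), (∀ τ ∈ v', 0 < τ) → 0 ≤ v'.sum := fun v' hv' =>
      List.sum_nonneg fun τ hτ => (hv' τ hτ).le
    have hvpos : ∀ τ ∈ v, 0 < τ := by
      intro τ hτ
      obtain ⟨v1, v2, e⟩ := List.append_of_mem hτ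
      exact (hn v1 τ v2 e).1
    have hins : ∀ (v1 : List ℝ) (τ : ℝ) (v2 : List ℝ), v = v1 ++ τ :: v2 →
        Ins w loc (1 + v1.sum) τ (am (fun t => w t.toNNReal) (1 + v1.sum) τ) := by
      intro v1 τ v2 e
      obtain ⟨hτ, hD, hU⟩ := hn v1 τ v2 e
      have hv1 : 0 ≤ v1.sum := hpos v1 fun τ' hτ' => hvpos τ' (by rw [e]; simp [hτ'])
      have hv2 : 0 ≤ v2.sum := hpos v2 fun τ' hτ' => hvpos τ' (by rw [e]; simp [hτ'])
      have hsv : v.sum = v1.sum + (τ + v2.sum) := by rw [e]; simp
      have hA : IsArgmin (tr w) (1 + v1.sum) (1 + v1.sum + τ) (am (tr w) (1 + v1.sum) τ) :=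
        h.isArgmin (by linarith) hτ hD hU
      have hx : gL w ≤ 1 + v1.sum := by linarith
      have hy : 1 + v1.sum + τ ≤ dR w := by linarith
      obtain ⟨s0, s1, s2⟩ := exc_strictMin h h1 hx hy hA
      have hA1 := hA.1
      have hA2 := hA.2.1
      refine ⟨h1, hA1, hA2, ?_, ?_, hl _ s0 s1 s2⟩
      · change gL w < am (tr w) (1 + v1.sum) τ
        linarith
      · change am (tr w) (1 + v1.sum) τ < dR w
        linarith
    have ez : zipS (pcs (tr w) 1 v) (sgs w loc sgn 1 v c) = pcS (tr w) (sw w loc sgn) 1 v :=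
      zipS_eq_pcS hc hins
    rw [ez] at hex
    have hi := (splitMap_inn h (sw w loc sgn) hQ K hΛ (by norm_num) hp hv hn).2 hex
    exact hI (lp_inn_mono hi le_rfl (by linarith))

private theorem lp_nondeg (W : ℝ → ℝ) : ∀ (v : List ℝ) (a : ℝ) (c : List Bool),
    c.length = v.length → (∀ x ∈ zipS (pcs W a v) c, 0 < pT x ∧ 0 < pD x ∧ 0 < pU x) →
      Nondeg W a v := by
  intro v
  induction v with
  | nil =>
    intro a c _ _ v1 τ v2 e
    simp at e
  | cons σ v ih =>
    intro a c hc hx
    cases c with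
    | nil => simp at hc
    | cons b c =>
      have hc' : c.length = v.length := by simpa using hc
      have e0 : zipS (pcs W a (σ :: v)) (b :: c) =
        adS (dW W a σ, uW W a σ, σ, true) b :: zipS (pcs W (a + σ) v) c := rfl
      rw [e0] at hx
      intro v1 τ v2 e
      cases v1 with
      | nil =>
        rw [List.nil_append, List.cons.injEq] at e
        obtain ⟨rfl, -⟩ := e
        have := hx _ List.mem_cons_self
        rw [List.sum_nil, add_zero]
        exact this
      | cons σ' v1 =>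
        rw [List.cons_append, List.cons.injEq] at e
        obtain ⟨rfl, e⟩ := e
        have := ih (a + σ) c hc' (fun x hx' => hx x (List.mem_cons_of_mem _ hx')) v1 τ v2 e
        rw [List.sum_cons, ← add_assoc]
        exact this

private theorem lp_cnt {α : Type} [MeasurableSpace α] [Countable α] [MeasurableSingletonClass α]
    (ρ : Measure α) (n : ℕ) : ∀ (H : Ω → List α → ℝ≥0∞), (∀ l, AEMeasurable (fun ω => H ω l) P) →
      AEMeasurable (fun ω => LI ρ n (H ω)) P ∧
      ∫⁻ ω, LI ρ n (H ω) ∂P = LI ρ n (fun l => ∫⁻ ω, H ω l ∂P) := by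
  induction n with
  | zero => intro H hH; exact ⟨hH [], rfl⟩
  | succ n ih =>
    intro H hH
    have e1 : ∀ ω, LI ρ (n + 1) (H ω) = ∑' x : α, LI ρ n (fun l => H ω (x :: l)) * ρ {x} := by
      intro ω
      exact lintegral_countable' _
    have e2 : LI ρ (n + 1) (fun l => ∫⁻ ω, H ω l ∂P) =
        ∑' x : α, LI ρ n (fun l => ∫⁻ ω, H ω (x :: l) ∂P) * ρ {x} := lintegral_countable' _
    have hx := fun x : α => ih (fun ω l => H ω (x :: l)) (fun l => hH (x :: l))
    constructor
    · simp only [e1]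
      exact AEMeasurable.tsum fun x => (hx x).1.mul_const _
    · simp only [e1]
      rw [e2, lintegral_tsum fun x => (hx x).1.mul_const _]
      refine tsum_congr fun x => ?_
      rw [lintegral_mul_const'' _ (hx x).1, (hx x).2]

/-- `sign_main`, `sign_aemeas`, `lev_LI`, `low_LI`, `low_det` -/
theorem low_event {p : ℝ} (hp0 : 0 ≤ p) (hp1 : p ≤ 1) {C : ℝ≥0 → Ω → ℝ} (hC : BM C P)
    {loc : ℕ → Ω → ℝ} {sgn : ℕ → Ω → Bool} (hs : Sgn P p C loc sgn) {N Q : ℕ} (hQ : 1 ≤ Q)
    {K : ℕ} {Λ ℓ : ℝ} (hΛ : 0 < Λ) (hℓ : 0 < ℓ)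
    (hL : LLaw p Λ (levLaw N Q (fun Λ => sgnProd p (law3 C P Λ)) K Λ)) {n : ℕ} (hn : 1 ≤ n) :
    P {ω | GenPath (pth C ω) ∧ 0 < C 1 ω ∧ 1 + ℓ < dR (fun t => C t ω) ∧
      ¬ Inn (pth C ω) (sw (fun t => C t ω) (fun k => loc k ω) fun k => sgn k ω) N Q K
        (1 / (32 * (Q * Λ))) 1 (1 + ℓ)} ≤
      (1 / 16) ^ n + n * ENNReal.ofReal (Real.exp (-(Λ * ℓ / n))) := by
  have hQK : 0 < (Q : ℝ) ^ K * Λ := by
    have : (0 : ℝ) < Q := by exact_mod_cast hQ
    positivity
  have hbm := berM_prob hp0 hp1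
  have hexp := isProbabilityMeasure_expMeasure hQK
  have hpat := patM_prob hQ K
  -- degenerate pieces
  have hq : MeasurableSet {x : Pc | ¬ (0 < pT x ∧ 0 < pD x ∧ 0 < pU x)} := by
    have : MeasurableSet {x : Pc | 0 < pT x ∧ 0 < pD x ∧ 0 < pU x} :=
      (measurableSet_lt measurable_const lp_mT).inter
        ((measurableSet_lt measurable_const lp_mD).inter (measurableSet_lt measurable_const lp_mU))
    exact this.compl
  have hF0 : MF fun l : List Pc => ind ((¬ ∃ x ∈ l, pX x = true) ∨ ℓ < (l.map pT).sum) := by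
    intro m
    refine lp_ind_meas ?_
    have e : {v : Fin m → Pc | (¬ ∃ x ∈ List.ofFn v, pX x = true) ∨
        ℓ < ((List.ofFn v).map pT).sum} =
        (⋃ i, {v : Fin m → Pc | pX (v i) = true})ᶜ ∪ {v | ℓ < ∑ i, pT (v i)} := by
      ext v
      simp only [List.mem_ofFn, mem_ofPred_eq, mem_union, mem_compl_iff, mem_iUnion,
        List.map_ofFn, List.sum_ofFn, Function.comp_apply]
      constructor
      · rintro (h | h)
        · left
          rintro ⟨i, hi⟩
          exact h ⟨v i, ⟨i, rfl⟩, hi⟩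
        · right
          exact h
      · rintro (h | h)
        · left
          rintro ⟨x, ⟨i, hi⟩, hx⟩
          exact h ⟨i, by rw [hi]; exact hx⟩
        · right
          exact h
    rw [e]
    refine MeasurableSet.union (MeasurableSet.compl (MeasurableSet.iUnion fun i => ?_)) ?_
    · exact (lp_mX.comp (measurable_pi_apply i)) (measurableSet_singleton true)
    · exact measurableSet_lt measurable_const
        (Finset.measurable_sum _ fun i _ => lp_mT.comp (measurable_pi_apply i))
  have hG : ∀ πs : List (Pat K), MF fun l : List Pc =>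
      ind ((¬ ∃ x ∈ splitMap (pfold N Q K Λ) (plen K) πs l, pX x = true) ∨
        ℓ < ((splitMap (pfold N Q K Λ) (plen K) πs l).map pT).sum) +
      ind (∃ x ∈ l, ¬ (0 < pT x ∧ 0 < pD x ∧ 0 < pU x)) := by
    intro πs m
    exact (MF_splitMap N Q K Λ πs hF0 m).add (lp_mf_exists hq m)
  -- the function on the probability space
  have hH := fun πs : List (Pat K) => sign_aemeas hp0 hp1 hC hs hQK (hG πs) zero_le_one
    (πs.map (plen K)).sum
  have hI := fun πs : List (Pat K) => sign_main hp0 hp1 hC hs hQK (hG πs) zero_le_one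
    (πs.map (plen K)).sum
  obtain ⟨hf1, hf2⟩ := lp_cnt (P := P) (patM Q K) n _ hH
  have hbase : ∀ Λ', 0 < Λ' → IsProbabilityMeasure (sgnProd p (law3 C P Λ')) := fun Λ' hΛ' =>
    (base_LLaw hp0 hp1 hC hΛ').prob
  have hbK := hbase _ hQK
  have hbL := base_LLaw hp0 hp1 hC hQK
  -- degenerate pieces have probability zero
  have hdeg : sgnProd p (law3 C P ((Q : ℝ) ^ K * Λ))
      {x : Pc | ¬ (0 < pT x ∧ 0 < pD x ∧ 0 < pU x)} = 0 := by
    have hθ : 0 < √(2 * ((Q : ℝ) ^ K * Λ)) := Real.sqrt_pos.2 (by positivity)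
    have := isProbabilityMeasure_expMeasure hθ
    have a1 : ∀ᵐ x ∂(sgnProd p (law3 C P ((Q : ℝ) ^ K * Λ))), 0 < pT x := by
      have := exp_pos_ae hQK
      rw [← hbL.T] at this
      exact ae_of_ae_map lp_mT.aemeasurable this
    have a2 : ∀ᵐ x ∂(sgnProd p (law3 C P ((Q : ℝ) ^ K * Λ))), 0 < pD x ∧ 0 < pU x := by
      have h1 : ∀ᵐ q ∂((expMeasure √(2 * ((Q : ℝ) ^ K * Λ))).prod
          (expMeasure √(2 * ((Q : ℝ) ^ K * Λ)))), 0 < q.1 ∧ 0 < q.2 := by
        have ha := Measure.quasiMeasurePreserving_fst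
          (μ := expMeasure √(2 * ((Q : ℝ) ^ K * Λ))) (ν := expMeasure √(2 * ((Q : ℝ) ^ K * Λ)))
          |>.ae (exp_pos_ae hθ)
        have hb := Measure.quasiMeasurePreserving_snd
          (μ := expMeasure √(2 * ((Q : ℝ) ^ K * Λ))) (ν := expMeasure √(2 * ((Q : ℝ) ^ K * Λ)))
          |>.ae (exp_pos_ae hθ)
        filter_upwards [ha, hb] with q h2 h3
        exact ⟨h2, h3⟩
      rw [← hbL.DU] at h1
      exact ae_of_ae_map (lp_mD.prodMk lp_mU).aemeasurable h1
    have a3 : ∀ᵐ x ∂(sgnProd p (law3 C P ((Q : ℝ) ^ K * Λ))),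
        0 < pT x ∧ 0 < pD x ∧ 0 < pU x := by
      filter_upwards [a1, a2] with x h1 h2
      exact ⟨h1, h2.1, h2.2⟩
    exact ae_iff.1 a3
  -- the integral
  have hint := low_LI hℓ hΛ hL hn
  rw [lev_LI hQ hbase K hΛ hF0 n] at hint
  have hle : ∫⁻ ω, LI (patM Q K) n (fun πs => LI (expMeasure ((Q : ℝ) ^ K * Λ))
      (πs.map (plen K)).sum (fun v => LI (berM p) (πs.map (plen K)).sum (fun c =>
        (fun l : List Pc => ind ((¬ ∃ x ∈ splitMap (pfold N Q K Λ) (plen K) πs l, pX x = true) ∨
        ℓ < ((splitMap (pfold N Q K Λ) (plen K) πs l).map pT).sum) +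
      ind (∃ x ∈ l, ¬ (0 < pT x ∧ 0 < pD x ∧ 0 < pU x))) (zipS (pcs (pth C ω) 1 v)
      (sgs (fun t => C t ω) (fun k => loc k ω) (fun k => sgn k ω) 1 v c))))) ∂P ≤
      (1 / 16) ^ n + n * ENNReal.ofReal (Real.exp (-(Λ * ℓ / n))) := by
    rw [hf2]
    refine le_trans ?_ hint
    refine LI_mono (patM Q K) fun πs _ => ?_
    rw [hI πs, LI_add _ (MF_splitMap N Q K Λ πs hF0) (lp_mf_exists hq)]
    have h0 : LI (sgnProd p (law3 C P ((Q : ℝ) ^ K * Λ))) (πs.map (plen K)).sum
        (fun l => ind (∃ x ∈ l, ¬ (0 < pT x ∧ 0 < pD x ∧ 0 < pU x))) = 0 := by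
      refine le_antisymm ?_ zero_le
      refine (LI_exists _ hq _).trans ?_
      rw [hdeg, mul_zero]
    rw [h0, add_zero]
  refine le_trans ?_ hle
  refine le_trans ?_ (mul_meas_ge_le_lintegral₀ hf1 1)
  rw [one_mul]
  refine measure_mono_ae ?_
  filter_upwards [hs.loc_all] with ω hloc
  intro hω
  obtain ⟨g1, g2, g3, g4⟩ := hω
  change 1 ≤ LI (patM Q K) n _
  have hone : LI (patM Q K) n (fun _ => 1) = 1 := LI_const _ n 1
  rw [← hone]
  refine LI_mono_ae (patM Q K) (proper_ae hQ K) ?_
  intro πs _ hπs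
  have hone2 : LI (expMeasure ((Q : ℝ) ^ K * Λ)) (πs.map (plen K)).sum (fun _ => 1) = 1 :=
    LI_const _ _ 1
  have hone3 : LI (berM p) (πs.map (plen K)).sum (fun _ => 1) = 1 := LI_const _ _ 1
  refine le_trans hone2.symm.le ?_
  refine LI_mono _ fun v hv => ?_
  refine le_trans hone3.symm.le ?_
  refine LI_mono _ fun c hc => ?_
  have hcv : c.length = v.length := hc.trans hv.symm
  by_cases hdg : ∃ x ∈ zipS (pcs (pth C ω) 1 v)
      (sgs (fun t => C t ω) (fun k => loc k ω) (fun k => sgn k ω) 1 v c),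
      ¬ (0 < pT x ∧ 0 < pD x ∧ 0 < pU x)
  · refine le_trans ?_ le_add_self
    unfold ind
    rw [if_pos hdg]
  · refine le_trans ?_ le_self_add
    have hnd : Nondeg (pth C ω) 1 v := by
      refine lp_nondeg (pth C ω) v 1 (sgs (fun t => C t ω) (fun k => loc k ω)
        (fun k => sgn k ω) 1 v c) (lp_length_sgs _ _ _ v 1 c hcv) ?_
      intro x hx
      by_contra hc
      exact hdg ⟨x, hx, hc⟩
    have hdet := low_det (w := fun t => C t ω) (loc := fun k => loc k ω) (sgn := fun k => sgn k ω)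
      g1 g2 hloc hℓ g3 hQ hΛ g4 hπs hv hcv hnd
    exact lp_one_le_ind hdet

end Pool.Agent.BSP
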