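import Mathlib

set_option autoImplicit false

/-!
# The constant of the tail of a sum of two variables with regularly varying tails
-/

namespace Pool.Agent.BSP

open Real

/-- `rr b = (2b - 1) Γ(1 - b)² / Γ(2 - 2b) = - Γ(1 - b)² / Γ(1 - 2b)` -/
noncomputable def rr (b : ℝ) : ℝ := (2 * b - 1) * Gamma (1 - b) ^ 2 / Gamma (2 - 2 * b)

/-- the complex Beta integral at `(1-b, 1-b)` is the real integral -/
theorem beta_real (b : ℝ) :
    Complex.betaIntegral ((1 - b : ℝ) : ℂ) ((1 - b : ℝ) : ℂ)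
      = ((∫ z in (0 : ℝ)..1, (z * (1 - z)) ^ (-b) : ℝ) : ℂ) := by
  rw [← intervalIntegral.integral_ofReal, Complex.betaIntegral]
  apply intervalIntegral.integral_congr
  intro x hx
  rw [Set.uIcc_of_le zero_le_one] at hx
  have hx1 : 0 ≤ 1 - x := sub_nonneg.2 hx.2
  have e1 : ((1 - b : ℝ) : ℂ) - 1 = ((-b : ℝ) : ℂ) := by push_cast; ring
  have e2 : (1 : ℂ) - (x : ℂ) = ((1 - x : ℝ) : ℂ) := by push_cast; ring
  simp only
  rw [e1, e2, ← Complex.ofReal_cpow hx.1, ← Complex.ofReal_cpow hx1, ← Complex.ofReal_mul,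
    ← Real.mul_rpow hx.1 hx1]

/-- integrability of the Beta integrand -/
theorem beta_integrable {b : ℝ} (h1 : b < 1) :
    IntervalIntegrable (fun z : ℝ => (z * (1 - z)) ^ (-b)) MeasureTheory.volume 0 1 := by
  have h := Complex.betaIntegral_convergent (u := ((1 - b : ℝ) : ℂ)) (v := ((1 - b : ℝ) : ℂ))
    (by simpa using h1) (by simpa using h1)
  rw [intervalIntegrable_iff_integrableOn_Ioc_of_le zero_le_one] at h ⊢
  refine (MeasureTheory.Integrable.re h).congr ?_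
  refine (MeasureTheory.ae_restrict_iff' measurableSet_Ioc).2 (Filter.Eventually.of_forall ?_)
  intro x hx
  have hx0 : 0 ≤ x := hx.1.le
  have hx1 : 0 ≤ 1 - x := sub_nonneg.2 hx.2
  have e1 : ((1 - b : ℝ) : ℂ) - 1 = ((-b : ℝ) : ℂ) := by push_cast; ring
  have e2 : (1 : ℂ) - (x : ℂ) = ((1 - x : ℝ) : ℂ) := by push_cast; ring
  simp only
  rw [e1, e2, ← Complex.ofReal_cpow hx0, ← Complex.ofReal_cpow hx1, ← Complex.ofReal_mul,
    ← Real.mul_rpow hx0 hx1]
  simp

/-- the Beta integral -/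
theorem rr_eq_integral {b : ℝ} (h0 : 1 / 2 < b) (h1 : b < 1) :
    rr b = (2 * b - 1) * ∫ z in (0 : ℝ)..1, (z * (1 - z)) ^ (-b) := by
  have hb : 0 < 1 - b := by linarith
  have h := Complex.Gamma_mul_Gamma_eq_betaIntegral (s := ((1 - b : ℝ) : ℂ))
    (t := ((1 - b : ℝ) : ℂ)) (by simpa using h1) (by simpa using h1)
  rw [beta_real, ← Complex.ofReal_add, Complex.Gamma_ofReal, Complex.Gamma_ofReal,
    ← Complex.ofReal_mul, ← Complex.ofReal_mul, Complex.ofReal_inj] at h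
  have e : 1 - b + (1 - b) = 2 - 2 * b := by ring
  rw [e] at h
  have hG : 0 < Gamma (2 - 2 * b) := Gamma_pos_of_pos (by linarith)
  unfold rr
  rw [mul_div_assoc, pow_two, h, mul_div_cancel_left₀ _ hG.ne']

theorem rr_lt {b b' : ℝ} (h0 : 1 / 2 < b) (h : b < b') (h1 : b' < 1) : rr b < rr b' := by
  rw [rr_eq_integral h0 (h.trans h1), rr_eq_integral (h0.trans h) h1]
  have hpos : 0 < ∫ z in (0 : ℝ)..1, (z * (1 - z)) ^ (-b) := by
    apply intervalIntegral.intervalIntegral_pos_of_pos_on (beta_integrable (h.trans h1))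
    · intro x hx
      have : 0 < 1 - x := sub_pos.2 hx.2
      exact rpow_pos_of_pos (mul_pos hx.1 this) _
    · exact zero_lt_one
  have hle : ∫ z in (0 : ℝ)..1, (z * (1 - z)) ^ (-b)
      ≤ ∫ z in (0 : ℝ)..1, (z * (1 - z)) ^ (-b') := by
    apply intervalIntegral.integral_mono_on_of_le_Ioo zero_le_one (beta_integrable (h.trans h1))
      (beta_integrable h1)
    intro x hx
    have h2 : 0 < 1 - x := sub_pos.2 hx.2
    have h3 : x * (1 - x) ≤ 1 := by nlinarith [hx.1, hx.2]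
    exact rpow_le_rpow_of_exponent_ge (mul_pos hx.1 h2) h3 (by linarith)
  calc (2 * b - 1) * ∫ z in (0 : ℝ)..1, (z * (1 - z)) ^ (-b)
      < (2 * b' - 1) * ∫ z in (0 : ℝ)..1, (z * (1 - z)) ^ (-b) := by
        apply mul_lt_mul_of_pos_right _ hpos
        linarith
    _ ≤ _ := by
        apply mul_le_mul_of_nonneg_left hle
        linarith

/-- the equation for `α` (`a = 1 / (2α)`), by the duplication formula -/
theorem rr_alpha {p α : ℝ} (hp0 : 0 < p) (hp1 : p < 1) (h0 : 1 / 2 < α) (h1 : α < 1)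
    (h : 1 / ((4 : ℝ) ^ (1 / (2 * α)) * √π) *
      (Gamma (1 / 2 - 1 / (2 * α)) / Gamma (1 - 1 / (2 * α))) = p / (p - 1)) :
    rr (1 / (2 * α)) = (1 - p) / p := by
  set a : ℝ := 1 / (2 * α) with ha
  have ha1 : a < 1 := by
    rw [ha, div_lt_one (by linarith)]; linarith
  have ha0 : 1 / 2 < a := by
    rw [ha, div_lt_div_iff₀ (by norm_num) (by linarith)]; linarith
  have hdup := Real.Gamma_mul_Gamma_add_half (1 / 2 - a)
  have e1 : 1 / 2 - a + 1 / 2 = 1 - a := by ring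
  have e2 : 2 * (1 / 2 - a) = 1 - 2 * a := by ring
  have e3 : 1 - (1 - 2 * a) = 2 * a := by ring
  rw [e1, e2, e3] at hdup
  have h4 : (2 : ℝ) ^ (2 * a) = (4 : ℝ) ^ a := by
    rw [rpow_mul (by norm_num)]
    norm_num
  rw [h4] at hdup
  have hG1 : 0 < Gamma (1 - a) := Gamma_pos_of_pos (by linarith)
  have hG2 : Gamma (2 - 2 * a) = (1 - 2 * a) * Gamma (1 - 2 * a) := by
    rw [← Gamma_add_one (by linarith)]
    congr 1
    ring
  have hG2pos : 0 < Gamma (2 - 2 * a) := Gamma_pos_of_pos (by linarith)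
  have hs : 0 < √π := sqrt_pos.2 pi_pos
  have h4pos : 0 < (4 : ℝ) ^ a := rpow_pos_of_pos (by norm_num) _
  have hG3 : Gamma (1 - 2 * a) ≠ 0 := by
    intro h0'
    rw [hG2, h0', mul_zero] at hG2pos
    exact lt_irrefl _ hG2pos
  -- the equation in terms of `Gamma (1 - 2 a) / Gamma (1 - a) ^ 2`
  have hx : Gamma (1 / 2 - a) = Gamma (1 - 2 * a) * (4 : ℝ) ^ a * √π / Gamma (1 - a) := by
    rw [eq_div_iff hG1.ne', hdup]
  have hkey : Gamma (1 - 2 * a) / Gamma (1 - a) ^ 2 = p / (p - 1) := by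
    rw [← h, hx]
    field_simp
  have hp' : p - 1 ≠ 0 := by linarith
  have hkey2 : Gamma (1 - 2 * a) * (p - 1) = p * Gamma (1 - a) ^ 2 := by
    rw [div_eq_div_iff (by positivity) hp'] at hkey
    linarith
  unfold rr
  rw [hG2]
  have h12 : 1 - 2 * a ≠ 0 := by linarith
  rw [div_eq_div_iff (mul_ne_zero h12 hG3) hp0.ne']
  linear_combination (1 - 2 * a) * hkey2
end Pool.Agent.BSP
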