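import Pool.Agent.BSP.Comp
import Pool.Agent.BSP.RR

set_option autoImplicit false

/-!
# Sibuya tails: subsolution and the lower bound for the tail
-/

namespace Pool.Agent.BSP

open Finset

/-- the tail of the Sibuya distribution: `Γ(n + 1 - a) / (Γ(1 - a) n!)` -/
noncomputable def sib (a : ℝ) (n : ℕ) : ℝ := ∏ j ∈ range n, (1 - a / ((j : ℝ) + 1))

private theorem sib_succ (a : ℝ) (n : ℕ) : sib a (n + 1) = sib a n * (1 - a / ((n : ℝ) + 1)) := by
  unfold sib
  rw [prod_range_succ]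

private theorem sib_zero (a : ℝ) : sib a 0 = 1 := by
  unfold sib
  simp

private theorem sib_nonneg {a : ℝ} (h1 : a ≤ 1) (n : ℕ) : 0 ≤ sib a n := by
  unfold sib
  apply prod_nonneg
  intro j _
  have hj : (0 : ℝ) < (j : ℝ) + 1 := by positivity
  rw [sub_nonneg, div_le_one hj]
  have : (0 : ℝ) ≤ (j : ℝ) := by positivity
  linarith

private theorem sib_pos {a : ℝ} (h1 : a < 1) (n : ℕ) : 0 < sib a n := by
  unfold sib
  apply prod_pos
  intro j _
  have hj : (0 : ℝ) < (j : ℝ) + 1 := by positivity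
  rw [sub_pos, div_lt_one hj]
  have : (0 : ℝ) ≤ (j : ℝ) := by positivity
  linarith

private theorem sib_anti {a : ℝ} (h0 : 0 ≤ a) (h1 : a ≤ 1) : Antitone (sib a) := by
  apply antitone_nat_of_succ_le
  intro n
  rw [sib_succ]
  apply mul_le_of_le_one_right (sib_nonneg h1 n)
  have : 0 ≤ a / ((n : ℝ) + 1) := by positivity
  linarith

theorem sib_isTail {a q : ℝ} (h0 : 0 ≤ a) (h1 : a ≤ 1) (hq0 : 0 ≤ q) (hq1 : q ≤ 1) :
    IsTail (fun n => q * sib a n) := by
  refine ⟨?_, ?_, ?_⟩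
  · intro m n hmn
    exact mul_le_mul_of_nonneg_left (sib_anti h0 h1 hmn) hq0
  · intro n
    exact mul_nonneg hq0 (sib_nonneg h1 n)
  · intro n
    have h2 : sib a n ≤ 1 := by
      rw [← sib_zero a]
      exact sib_anti h0 h1 (Nat.zero_le n)
    calc q * sib a n ≤ 1 * 1 := mul_le_mul hq1 h2 (sib_nonneg h1 n) zero_le_one
      _ = 1 := one_mul 1

/-- the convolution square -/
private noncomputable def sibC (a : ℝ) (n : ℕ) : ℝ :=
  ∑ x ∈ antidiagonal n, sib a x.1 * sib a x.2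

private theorem sib_rec (a : ℝ) (n : ℕ) :
    ((n : ℝ) + 1) * sib a (n + 1) = ((n : ℝ) + 1 - a) * sib a n := by
  rw [sib_succ]
  have : ((n : ℝ) + 1) ≠ 0 := by positivity
  field_simp

private theorem sibC_half (a : ℝ) (n : ℕ) (c : ℝ) :
    2 * ∑ x ∈ antidiagonal n, ((x.1 : ℝ) + c) * (sib a x.1 * sib a x.2) =
      ((n : ℝ) + 2 * c) * sibC a n := by
  have h1 : ∑ x ∈ antidiagonal n, ((x.1 : ℝ) + c) * (sib a x.1 * sib a x.2) =
      ∑ x ∈ antidiagonal n, ((x.2 : ℝ) + c) * (sib a x.1 * sib a x.2) := by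
    rw [← Finset.Nat.sum_antidiagonal_swap]
    apply sum_congr rfl
    intro x _
    simp only [Prod.fst_swap, Prod.snd_swap]
    ring
  rw [two_mul]
  nth_rewrite 2 [h1]
  rw [← sum_add_distrib, sibC, mul_sum]
  apply sum_congr rfl
  intro x hx
  have h2 : (x.1 : ℝ) + (x.2 : ℝ) = n := by
    rw [Finset.HasAntidiagonal.mem_antidiagonal] at hx
    exact_mod_cast hx
  rw [← add_mul, ← h2]
  ring

private theorem sibC_rec (a : ℝ) (n : ℕ) :
    ((n : ℝ) + 1) * sibC a (n + 1) = ((n : ℝ) + 2 - 2 * a) * sibC a n := by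
  have h1 := sibC_half a (n + 1) 0
  have h2 := sibC_half a n (1 - a)
  have h3 : ∑ x ∈ antidiagonal (n + 1), ((x.1 : ℝ) + 0) * (sib a x.1 * sib a x.2) =
      ∑ x ∈ antidiagonal n, ((x.1 : ℝ) + (1 - a)) * (sib a x.1 * sib a x.2) := by
    rw [Finset.Nat.sum_antidiagonal_succ]
    simp only [Nat.cast_zero, add_zero, zero_mul, zero_add]
    apply sum_congr rfl
    intro x _
    have h4 := sib_rec a x.1
    push_cast
    calc ((x.1 : ℝ) + 1) * (sib a (x.1 + 1) * sib a x.2) =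
        (((x.1 : ℝ) + 1) * sib a (x.1 + 1)) * sib a x.2 := by ring
      _ = ((x.1 : ℝ) + (1 - a)) * (sib a x.1 * sib a x.2) := by rw [h4]; ring
  rw [h3, h2] at h1
  push_cast at h1
  linarith

private theorem sibC_eq (a : ℝ) (n : ℕ) :
    sibC a n = ((n : ℝ) + 1) * ∏ j ∈ range n, (1 - 2 * a / ((j : ℝ) + 2)) := by
  induction n with
  | zero => simp [sibC, sib_zero]
  | succ n ih =>
    have h1 := sibC_rec a n
    rw [ih] at h1
    have h2 : ((n : ℝ) + 1) ≠ 0 := by positivity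
    have h3 : ((n : ℝ) + 2) ≠ 0 := by positivity
    have h4 : sibC a (n + 1) = ((n : ℝ) + 2 - 2 * a) *
        ∏ j ∈ range n, (1 - 2 * a / ((j : ℝ) + 2)) := by
      apply mul_left_cancel₀ h2
      rw [h1]
      ring
    rw [h4, prod_range_succ]
    push_cast
    field_simp
    ring

private theorem sibC_diff (a : ℝ) (n : ℕ) :
    sibC a n - sibC a (n + 1) = (2 * a - 1) * ∏ j ∈ range n, (1 - 2 * a / ((j : ℝ) + 2)) := by
  rw [sibC_eq, sibC_eq, prod_range_succ]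
  have h3 : ((n : ℝ) + 2) ≠ 0 := by positivity
  push_cast
  field_simp
  ring

/-- convolution: `(1 - z)^(a-1) (1 - z)^(a-1) (1 - z) = (1 - z)^(2a-1)` -/
theorem cv_sib (a q : ℝ) (n : ℕ) : cv (fun n => q * sib a n) (n + 1) =
    2 * (q * sib a (n + 1)) + q ^ 2 * ((2 * a - 1) * ∏ j ∈ range n, (1 - 2 * a / ((j : ℝ) + 2))) := by
  have h1 : ∀ m : ℕ, ∑ i ∈ range (m + 1), q * sib a i * (q * sib a (m - i)) =
      q ^ 2 * sibC a m := by
    intro m
    rw [sibC, Finset.Nat.sum_antidiagonal_eq_sum_range_succ (fun i j => sib a i * sib a j) m,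
      mul_sum]
    apply sum_congr rfl
    intro i _
    ring
  unfold cv cv2
  have h2 : ∑ i ∈ range (n + 1), q * sib a i * (q * sib a (n + 1 - 1 - i)) = q ^ 2 * sibC a n := by
    rw [← h1 n]
    simp only [Nat.add_sub_cancel]
  rw [h2, h1 (n + 1), ← sibC_diff]
  ring

private theorem prodP_pos {a : ℝ} (h1 : a < 1) (n : ℕ) :
    0 < ∏ j ∈ range n, (1 - 2 * a / ((j : ℝ) + 2)) := by
  apply prod_pos
  intro j _
  have hj : (0 : ℝ) < (j : ℝ) + 2 := by positivity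
  rw [sub_pos, div_lt_one hj]
  have : (0 : ℝ) ≤ (j : ℝ) := by positivity
  linarith

private theorem gammaSeq_sib {a : ℝ} (n : ℕ) :
    Real.GammaSeq (1 - a) n = (n : ℝ) ^ (1 - a) / (((n : ℝ) + 1) * sib a (n + 1)) := by
  have h1 : ∏ j ∈ range (n + 1), (1 - a + (j : ℝ)) = ((n + 1).factorial : ℝ) * sib a (n + 1) := by
    unfold sib
    rw [← prod_range_add_one_eq_factorial]
    push_cast
    rw [← prod_mul_distrib]
    apply prod_congr rfl
    intro j _
    have hj : ((j : ℝ) + 1) ≠ 0 := by positivity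
    field_simp
    ring
  unfold Real.GammaSeq
  rw [h1, Nat.factorial_succ]
  push_cast
  have h2 : (n.factorial : ℝ) ≠ 0 := by positivity
  rw [show ((n : ℝ) + 1) * (n.factorial : ℝ) * sib a (n + 1) =
    (((n : ℝ) + 1) * sib a (n + 1)) * (n.factorial : ℝ) by ring]
  exact mul_div_mul_right _ _ h2

private theorem gammaSeq_P {a : ℝ} (n : ℕ) :
    Real.GammaSeq (2 - 2 * a) n = (n : ℝ) ^ (2 - 2 * a) /
      (((n : ℝ) + 1) * ((n : ℝ) + 2 - 2 * a) * ∏ j ∈ range n, (1 - 2 * a / ((j : ℝ) + 2))) := by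
  have h1 : ∏ j ∈ range (n + 1), (2 - 2 * a + (j : ℝ)) = ((n + 1).factorial : ℝ) *
      (((n : ℝ) + 2 - 2 * a) * ∏ j ∈ range n, (1 - 2 * a / ((j : ℝ) + 2))) := by
    rw [prod_range_succ]
    have h2 : ((n + 1).factorial : ℝ) = ∏ j ∈ range n, ((j : ℝ) + 2) := by
      rw [← prod_range_add_one_eq_factorial, prod_range_succ']
      push_cast
      rw [mul_one]
      apply prod_congr rfl
      intro j _
      ring
    rw [h2]
    have h3 : ∏ j ∈ range n, (2 - 2 * a + (j : ℝ)) =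
        (∏ j ∈ range n, ((j : ℝ) + 2)) * ∏ j ∈ range n, (1 - 2 * a / ((j : ℝ) + 2)) := by
      rw [← prod_mul_distrib]
      apply prod_congr rfl
      intro j _
      have hj : ((j : ℝ) + 2) ≠ 0 := by positivity
      field_simp
      ring
    rw [h3]
    ring
  unfold Real.GammaSeq
  rw [h1, Nat.factorial_succ]
  push_cast
  have h2 : (n.factorial : ℝ) ≠ 0 := by positivity
  rw [show ((n : ℝ) + 1) * (n.factorial : ℝ) * (((n : ℝ) + 2 - 2 * a) *
      ∏ j ∈ range n, (1 - 2 * a / ((j : ℝ) + 2))) =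
    (((n : ℝ) + 1) * ((n : ℝ) + 2 - 2 * a) * ∏ j ∈ range n, (1 - 2 * a / ((j : ℝ) + 2))) *
      (n.factorial : ℝ) by ring]
  exact mul_div_mul_right _ _ h2

private theorem quot_tendsto {a : ℝ} (h1 : a < 1) :
    Filter.Tendsto (fun n : ℕ => (2 * a - 1) * (∏ j ∈ range n, (1 - 2 * a / ((j : ℝ) + 2))) /
      sib a (n + 1) ^ 2) Filter.atTop (nhds (rr a)) := by
  have e1 := Real.GammaSeq_tendsto_Gamma (1 - a)
  have e2 := Real.GammaSeq_tendsto_Gamma (2 - 2 * a)
  have hG2 : Real.Gamma (2 - 2 * a) ≠ 0 := (Real.Gamma_pos_of_pos (by linarith)).ne'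
  have e3 : Filter.Tendsto (fun n : ℕ => ((n : ℝ) + 1) / ((n : ℝ) + 2 - 2 * a)) Filter.atTop
      (nhds 1) := by
    have e4 : Filter.Tendsto (fun n : ℕ => 1 - (1 - 2 * a) / ((n : ℝ) + 2 - 2 * a)) Filter.atTop
        (nhds (1 - 0)) := by
      apply Filter.Tendsto.sub tendsto_const_nhds
      apply Filter.Tendsto.div_atTop tendsto_const_nhds
      have : (fun n : ℕ => (n : ℝ) + 2 - 2 * a) = fun n : ℕ => (n : ℝ) + (2 - 2 * a) := by
        funext n; ring
      rw [this]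
      exact Filter.tendsto_atTop_add_const_right _ _ tendsto_natCast_atTop_atTop
    rw [sub_zero] at e4
    refine e4.congr fun n => ?_
    have hn : (n : ℝ) + 2 - 2 * a ≠ 0 := by
      have : (0 : ℝ) ≤ (n : ℝ) := by positivity
      have : 0 < (n : ℝ) + 2 - 2 * a := by linarith
      exact this.ne'
    field_simp
    ring
  have e5 := (((e1.pow 2).div e2 hG2).mul e3).const_mul (2 * a - 1)
  have e6 : (2 * a - 1) * (Real.Gamma (1 - a) ^ 2 / Real.Gamma (2 - 2 * a) * 1) = rr a := by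
    unfold rr
    ring
  rw [e6] at e5
  refine Filter.Tendsto.congr' ?_ e5
  filter_upwards [Filter.eventually_ge_atTop 1] with n hn
  have hn0 : (0 : ℝ) < (n : ℝ) := by exact_mod_cast hn
  show (2 * a - 1) * (Real.GammaSeq (1 - a) n ^ 2 / Real.GammaSeq (2 - 2 * a) n *
    (((n : ℝ) + 1) / ((n : ℝ) + 2 - 2 * a))) = _
  rw [gammaSeq_sib, gammaSeq_P]
  have hp : (n : ℝ) ^ (2 - 2 * a) = ((n : ℝ) ^ (1 - a)) ^ 2 := by
    rw [← Real.rpow_natCast, ← Real.rpow_mul hn0.le]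
    congr 1
    push_cast
    ring
  have hp0 : (n : ℝ) ^ (1 - a) ≠ 0 := (Real.rpow_pos_of_pos hn0 _).ne'
  have hs : sib a (n + 1) ≠ 0 := (sib_pos h1 _).ne'
  have hP : ∏ j ∈ range n, (1 - 2 * a / ((j : ℝ) + 2)) ≠ 0 := (prodP_pos h1 n).ne'
  have hd : (n : ℝ) + 2 - 2 * a ≠ 0 := by
    have : 0 < (n : ℝ) + 2 - 2 * a := by linarith
    exact this.ne'
  rw [hp]
  generalize (∏ j ∈ range n, (1 - 2 * a / ((j : ℝ) + 2))) = Q at hP ⊢
  generalize (n : ℝ) ^ (1 - a) = y at hp0 ⊢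
  generalize sib a (n + 1) = s at hs ⊢
  have h5 : ((n : ℝ) + 1) ≠ 0 := by positivity
  field_simp

/-- the quotient decreases to `rr a` -/
theorem rr_le_quot {a : ℝ} (h0 : 1 / 2 < a) (h1 : a < 1) (n : ℕ) :
    rr a * sib a (n + 1) ^ 2 ≤ (2 * a - 1) * ∏ j ∈ range n, (1 - 2 * a / ((j : ℝ) + 2)) := by
  have hanti : Antitone (fun n : ℕ => (2 * a - 1) * (∏ j ∈ range n, (1 - 2 * a / ((j : ℝ) + 2))) /
      sib a (n + 1) ^ 2) := by
    apply antitone_nat_of_succ_le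
    intro n
    have hs := sib_pos h1 (n + 1)
    have hs' := sib_pos h1 (n + 1 + 1)
    have hP := prodP_pos h1 n
    rw [div_le_div_iff₀ (by positivity) (by positivity), prod_range_succ, sib_succ a (n + 1)]
    push_cast
    have hn2 : (0 : ℝ) < (n : ℝ) + 2 := by positivity
    have h3 : 1 - 2 * a / ((n : ℝ) + 2) ≤ (1 - a / ((n : ℝ) + 1 + 1)) ^ 2 := by
      have h4 : (n : ℝ) + 1 + 1 = (n : ℝ) + 2 := by ring
      rw [h4]
      have h5 : 2 * a / ((n : ℝ) + 2) = 2 * (a / ((n : ℝ) + 2)) := by ring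
      rw [h5]
      nlinarith [sq_nonneg (a / ((n : ℝ) + 2))]
    have h6 : 0 ≤ (2 * a - 1) * (∏ j ∈ range n, (1 - 2 * a / ((j : ℝ) + 2))) *
        sib a (n + 1) ^ 2 := by
      have : 0 < 2 * a - 1 := by linarith
      positivity
    have h7 := mul_le_mul_of_nonneg_left h3 h6
    rw [mul_pow]
    linarith
  have h3 := hanti.le_of_tendsto (quot_tendsto h1) n
  have hs := sib_pos h1 (n + 1)
  rw [le_div_iff₀ (by positivity)] at h3
  exact h3

theorem sib_lower {a : ℝ} (h0 : 0 < a) (h1 : a < 1) :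
    ∃ c : ℝ, 0 < c ∧ ∀ n : ℕ, 1 ≤ n → c * (n : ℝ) ^ (-a) ≤ sib a n := by
  refine ⟨1 - a, by linarith, ?_⟩
  intro n hn
  induction n, hn using Nat.le_induction with
  | base =>
    rw [show (1 : ℕ) = 0 + 1 from rfl, sib_succ, sib_zero]
    simp
  | succ n hn ih =>
    have hn0 : (0 : ℝ) < (n : ℝ) := by exact_mod_cast hn
    rw [sib_succ]
    push_cast
    have hb : ((n : ℝ) / ((n : ℝ) + 1)) ^ a ≤ 1 - a / ((n : ℝ) + 1) := by
      have h2 := _root_.rpow_one_add_le_one_add_mul_self (s := -1 / ((n : ℝ) + 1)) (p := a)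
        (by
          rw [le_div_iff₀ (by positivity)]
          linarith) h0.le h1.le
      have h3 : 1 + -1 / ((n : ℝ) + 1) = (n : ℝ) / ((n : ℝ) + 1) := by
        field_simp
        ring
      rw [h3] at h2
      calc ((n : ℝ) / ((n : ℝ) + 1)) ^ a ≤ 1 + a * (-1 / ((n : ℝ) + 1)) := h2
        _ = 1 - a / ((n : ℝ) + 1) := by ring
    have h4 : ((n : ℝ) + 1) ^ (-a) = (n : ℝ) ^ (-a) * ((n : ℝ) / ((n : ℝ) + 1)) ^ a := by
      rw [Real.div_rpow hn0.le (by positivity), Real.rpow_neg hn0.le, Real.rpow_neg (by positivity)]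
      have h5 : (n : ℝ) ^ a ≠ 0 := (Real.rpow_pos_of_pos hn0 _).ne'
      have h6 : ((n : ℝ) + 1) ^ a ≠ 0 := (Real.rpow_pos_of_pos (by positivity) _).ne'
      field_simp
    rw [h4]
    calc (1 - a) * ((n : ℝ) ^ (-a) * ((n : ℝ) / ((n : ℝ) + 1)) ^ a) =
        ((1 - a) * (n : ℝ) ^ (-a)) * ((n : ℝ) / ((n : ℝ) + 1)) ^ a := by ring
      _ ≤ sib a n * (1 - a / ((n : ℝ) + 1)) :=
        mul_le_mul ih hb (by positivity) (sib_nonneg h1.le n)

/-- lower bound for the tail -/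
theorem tail_lower {p a : ℝ} (hp0 : 0 < p) (hp1 : p < 1) (h0 : 1 / 2 < a) (h1 : a < 1)
    (hr : rr a = (1 - p) / p) {F : ℕ → ℝ} (hF : IsTail F) (hop : ∀ n, 1 ≤ n → op p F n ≤ F n)
    {q : ℝ} (hq0 : 0 ≤ q) (hq : q ≤ F 0) (n : ℕ) : q * sib a n ≤ F n := by
  have hq1 : q ≤ 1 := hq.trans (hF.le_one 0)
  refine comp hp0.le hp1.le (sib_isTail (by linarith) h1.le hq0 hq1) hF ?_ n
  intro n
  rcases n with _ | n
  · left
    simp only [sib_zero, mul_one]
    exact hq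
  · right
    refine ⟨n + 1, ?_, hop (n + 1) (Nat.succ_le_succ (Nat.zero_le n))⟩
    have h2 := rr_le_quot h0 h1 n
    unfold op
    rw [cv_sib]
    rw [hr] at h2
    set R := (2 * a - 1) * ∏ j ∈ range n, (1 - 2 * a / ((j : ℝ) + 2)) with hR
    set s := sib a (n + 1) with hs
    have h3 : (1 - p) * s ^ 2 ≤ p * R := by
      have h4 := mul_le_mul_of_nonneg_left h2 hp0.le
      have h5 : p * ((1 - p) / p * s ^ 2) = (1 - p) * s ^ 2 := by
        field_simp
      linarith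
    have h6 : 0 ≤ q ^ 2 / 2 * (p * R - (1 - p) * s ^ 2) := by
      apply mul_nonneg (by positivity)
      linarith
    nlinarith [h6]

end Pool.Agent.BSP
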