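import Pool.Agent.BSP.HBound
import Pool.Agent.BSP.Sib

set_option autoImplicit false

/-!
# Lemma H
-/

namespace Pool.Agent.BSP

open MeasureTheory ProbabilityTheory
open scoped ENNReal

theorem lemmaH_sib {a : ℝ} (h0 : 0 < a) (h1 : a < 1) :
    ∃ c : ℝ, 0 < c ∧ ∀ n : ℕ, 1 ≤ n → c * (n : ℝ) ^ (-a) ≤ sib a (n - 1) := by
  obtain ⟨c, hc, h⟩ := sib_lower h0 h1
  refine ⟨min c 1, lt_min hc one_pos, fun n hn => ?_⟩
  rcases Nat.lt_or_ge n 2 with h2 | h2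
  · have : n = 1 := by omega
    subst this
    simp [sib]
  · have h3 := h (n - 1) (by omega)
    have h4 : (n : ℝ) ^ (-a) ≤ ((n - 1 : ℕ) : ℝ) ^ (-a) := by
      apply Real.rpow_le_rpow_of_nonpos
      · have : 1 ≤ n - 1 := by omega
        exact_mod_cast this
      · exact_mod_cast Nat.sub_le n 1
      · linarith
    have h5 : 0 ≤ (n : ℝ) ^ (-a) := Real.rpow_nonneg (Nat.cast_nonneg n) _
    calc min c 1 * (n : ℝ) ^ (-a) ≤ c * (n : ℝ) ^ (-a) :=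
          mul_le_mul_of_nonneg_right (min_le_left _ _) h5
      _ ≤ c * ((n - 1 : ℕ) : ℝ) ^ (-a) := mul_le_mul_of_nonneg_left h4 hc.le
      _ ≤ _ := h3

theorem lemmaH_real {a α δ c : ℝ} (hα0 : 1 / 2 < α) (ha : a = 1 / (2 * α)) (hδ : 0 < δ)
    (hc : 0 < c) :
    ∃ Q0 : ℕ, 2 ≤ Q0 ∧ ∀ Q : ℕ, Q0 ≤ Q → ∀ N : ℕ, 1 ≤ N → (N : ℝ) ≤ (Q : ℝ) ^ (α - δ) →
      √(1 / (Q : ℝ)) ≤ 1 / 16 * (1 / 16 * (c * (N : ℝ) ^ (-a))) := by
  have hα : 0 < α := by linarith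
  have ha0 : 0 < a := by rw [ha]; positivity
  have hlim : Filter.Tendsto (fun x : ℕ => (x : ℝ) ^ (-(δ / (2 * α)))) Filter.atTop (nhds 0) :=
    (tendsto_rpow_neg_atTop (by positivity)).comp tendsto_natCast_atTop_atTop
  have hev := (hlim.eventually (gt_mem_nhds (show (0 : ℝ) < c / 256 by positivity)))
  obtain ⟨Q1, hQ1⟩ := Filter.eventually_atTop.1 hev
  refine ⟨max Q1 2, le_max_right _ _, fun Q hQ N hN hNQ => ?_⟩
  have hQ1' : Q1 ≤ Q := (le_max_left _ _).trans hQ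
  have hQ2 : 2 ≤ Q := (le_max_right _ _).trans hQ
  have hQ0 : (0 : ℝ) < (Q : ℝ) := by
    have : 0 < Q := by omega
    exact_mod_cast this
  have hN0 : (0 : ℝ) < (N : ℝ) := by exact_mod_cast hN
  have h1 := hQ1 Q hQ1'
  have h2 : ((Q : ℝ) ^ (α - δ)) ^ (-a) ≤ (N : ℝ) ^ (-a) :=
    Real.rpow_le_rpow_of_nonpos hN0 hNQ (by linarith)
  have h3 : ((Q : ℝ) ^ (α - δ)) ^ (-a) = (Q : ℝ) ^ (-(1 / 2 : ℝ)) * (Q : ℝ) ^ (δ / (2 * α)) := by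
    rw [← Real.rpow_mul hQ0.le, ← Real.rpow_add hQ0]
    congr 1
    rw [ha]
    field_simp
    ring
  have h4 : √(1 / (Q : ℝ)) = (Q : ℝ) ^ (-(1 / 2 : ℝ)) := by
    rw [Real.sqrt_eq_rpow, one_div, Real.inv_rpow hQ0.le, Real.rpow_neg hQ0.le]
  have h5 : (Q : ℝ) ^ (δ / (2 * α)) * (Q : ℝ) ^ (-(δ / (2 * α))) = 1 := by
    rw [← Real.rpow_add hQ0, add_neg_cancel, Real.rpow_zero]
  have h6 : 0 < (Q : ℝ) ^ (δ / (2 * α)) := Real.rpow_pos_of_pos hQ0 _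
  have h7 : 0 < (Q : ℝ) ^ (-(1 / 2 : ℝ)) := Real.rpow_pos_of_pos hQ0 _
  have h8 : 256 ≤ c * (Q : ℝ) ^ (δ / (2 * α)) := by
    have h9 : (Q : ℝ) ^ (-(δ / (2 * α))) ≤ c / 256 := h1.le
    have h10 := mul_le_mul_of_nonneg_left h9 h6.le
    rw [h5] at h10
    linarith
  rw [h4]
  calc (Q : ℝ) ^ (-(1 / 2 : ℝ)) = 1 / 256 * ((Q : ℝ) ^ (-(1 / 2 : ℝ)) * 256) := by ring
    _ ≤ 1 / 256 * ((Q : ℝ) ^ (-(1 / 2 : ℝ)) * (c * (Q : ℝ) ^ (δ / (2 * α)))) := by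
        gcongr
    _ = 1 / 256 * (c * ((Q : ℝ) ^ (α - δ)) ^ (-a)) := by rw [h3]; ring
    _ ≤ 1 / 256 * (c * (N : ℝ) ^ (-a)) := by gcongr
    _ = _ := by ring

/-- for large `Q`, the concatenation of a geometric number with mean `Q` of pieces has with
probability at least `15 / 16` an excursion with `N ≤ Q^(α-δ)` marked cherries in increasing
position -/
theorem lemmaH {p α δ : ℝ} (hp0 : 0 < p) (hp1 : p < 1) (hα0 : 1 / 2 < α) (hα1 : α < 1)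
    (hr : rr (1 / (2 * α)) = (1 - p) / p) (hδ : 0 < δ) :
    ∃ Q0 : ℕ, 2 ≤ Q0 ∧ ∀ Q : ℕ, Q0 ≤ Q → ∀ N : ℕ, 1 ≤ N → (N : ℝ) ≤ (Q : ℝ) ^ (α - δ) →
      ∀ (g θ : ℝ) (ρ : Measure Pc), 1 / 2 ≤ g → g ≤ 1 → 0 < θ → PLaw p g θ ρ →
      ∑' n : ℕ, ENNReal.ofReal (1 / (Q : ℝ) * (1 - 1 / (Q : ℝ)) ^ n) *
        LI ρ (n + 1) (fun l => ind (¬ HasGood N l)) ≤ 1 / 16 := by
  have hα : 0 < α := by linarith
  obtain ⟨a, ha⟩ : ∃ a, a = 1 / (2 * α) := ⟨_, rfl⟩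
  have ha0 : 1 / 2 < a := by
    rw [ha, div_lt_div_iff₀ (by norm_num) (by linarith)]
    linarith
  have ha1 : a < 1 := by
    rw [ha, div_lt_one (by linarith)]
    linarith
  obtain ⟨c, hc, hsib⟩ := lemmaH_sib (a := a) (by linarith) ha1
  obtain ⟨Q0, hQ02, hQ0⟩ := lemmaH_real hα0 ha hδ hc
  refine ⟨Q0, hQ02, fun Q hQ N hN hNQ g θ ρ hg0 hg1 hθ hρ => ?_⟩
  have hQpos : (0 : ℝ) < (Q : ℝ) := by
    have : 0 < Q := by omega
    exact_mod_cast this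
  have hκ1 : 1 / (Q : ℝ) ≤ 1 := by
    rw [div_le_one hQpos]
    have : 1 ≤ Q := by omega
    exact_mod_cast this
  have hb := hasGood_bound N hN hp0.le hp1.le (by linarith) hg1 hθ hρ
    (κ := 1 / (Q : ℝ)) (by positivity) hκ1
  have hreal := hQ0 Q hQ N hN hNQ
  have htail : 1 / 16 * sib a (N - 1) ≤ FX p g (N - 1) := by
    refine tail_lower hp0 hp1 ha0 ha1 (by rw [ha]; exact hr)
      (FX_isTail hp0.le hp1.le (by linarith) hg1) (fun n hn => ?_) (by norm_num) ?_ (N - 1)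
    · exact (FX_eq hp0.le hp1.le (by linarith) hg1 n hn).ge
    · have := le_FX_zero hp0.le hp1.le (show (0 : ℝ) ≤ g by linarith) hg1
      linarith
  have hs := hsib N hN
  have hNpos : (0 : ℝ) < (N : ℝ) := by exact_mod_cast hN
  have hφ : 0 < 1 / 16 * (c * (N : ℝ) ^ (-a)) := by
    have := Real.rpow_pos_of_pos hNpos (-a)
    positivity
  have hφle : 1 / 16 * (c * (N : ℝ) ^ (-a)) ≤ FX p g (N - 1) := by
    have : 1 / 16 * (c * (N : ℝ) ^ (-a)) ≤ 1 / 16 * sib a (N - 1) := by linarith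
    exact this.trans htail
  set X := ∑' n : ℕ, ENNReal.ofReal (1 / (Q : ℝ) * (1 - 1 / (Q : ℝ)) ^ n) *
        LI ρ (n + 1) (fun l => ind (¬ HasGood N l)) with hX
  set φ := 1 / 16 * (c * (N : ℝ) ^ (-a)) with hφdef
  have h1 : X * ENNReal.ofReal φ ≤ ENNReal.ofReal (1 / 16) * ENNReal.ofReal φ := by
    calc X * ENNReal.ofReal φ ≤ X * ENNReal.ofReal (FX p g (N - 1)) := by
          gcongr
      _ ≤ ENNReal.ofReal √(1 / (Q : ℝ)) := hb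
      _ ≤ ENNReal.ofReal (1 / 16 * φ) := ENNReal.ofReal_le_ofReal hreal
      _ = _ := ENNReal.ofReal_mul (by norm_num)
  have h2 : X ≤ ENNReal.ofReal (1 / 16) :=
    (ENNReal.mul_le_mul_iff_left (ENNReal.ofReal_pos.2 hφ).ne' ENNReal.ofReal_ne_top).1 h1
  refine h2.trans (le_of_eq ?_)
  rw [ENNReal.ofReal_div_of_pos (by norm_num)]
  simp

end Pool.Agent.BSP
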