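import Pool.Agent.BSP.UMain
import Pool.Agent.BSP.LMain

set_option autoImplicit false

/-!
# Main theorem
-/

namespace Pool.Agent.BSP

open MeasureTheory ProbabilityTheory Set Filter
open scoped ENNReal NNReal Topology

variable {Ω : Type*} [MeasurableSpace Ω] {P : Measure Ω}

theorem main_pos {p α : ℝ} (hp0 : 0 < p) (hp1 : p < 1) (hα0 : 1 / 2 < α) (hα1 : α < 1)
    (hr : rr (1 / (2 * α)) = (1 - p) / p) {C : ℝ≥0 → Ω → ℝ} (hC : BM C P)
    {loc : ℕ → Ω → ℝ} {sgn : ℕ → Ω → Bool} (hs : Sgn P p C loc sgn) :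
    ∀ᵐ ω ∂P, 0 < C 1 ω → incDim (perm (exc fun t => C t ω)
      (signAt (fun k => loc k ω) fun k => sgn k ω)) = ENNReal.ofReal α := by
  filter_upwards [upper_as hp0 hp1 hα0 hα1 hr hC hs, lower_as hp0 hp1 hα0 hα1 hr hC hs]
    with ω h1 h2 hpos
  apply le_antisymm
  · unfold incDim
    exact iSup₂_le fun A hA => h1 hpos A hA.1 hA.2
  · have hlim : Tendsto (fun n : ℕ => ENNReal.ofReal (α - 1 / ((n : ℝ) + 1))) atTop
        (𝓝 (ENNReal.ofReal α)) := by
      apply ENNReal.tendsto_ofReal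
      have h3 : Tendsto (fun n : ℕ => α - 1 / ((n : ℝ) + 1)) atTop (𝓝 (α - 0)) :=
        tendsto_const_nhds.sub tendsto_one_div_add_atTop_nhds_zero_nat
      rwa [sub_zero] at h3
    refine le_of_tendsto' hlim fun n => ?_
    have hn : (0 : ℝ) < 1 / ((n : ℝ) + 1) := by positivity
    obtain ⟨A, hA1, hA2, hA3⟩ := h2 hpos (α - 1 / ((n : ℝ) + 1)) (by linarith)
    unfold incDim
    exact le_iSup₂_of_le A ⟨hA1, hA2⟩ hA3

/-- `exc` is invariant under a change of the sign of the path -/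
theorem exc_neg (w : ℝ≥0 → ℝ) : exc (fun t => -w t) = exc w := by
  have h1 : gL (fun t => -w t) = gL w := by
    unfold gL
    simp only [neg_eq_zero]
  have h2 : dR (fun t => -w t) = dR w := by
    unfold dR
    simp only [neg_eq_zero]
  funext t
  unfold exc
  rw [h1, h2]
  simp only [abs_neg]

theorem Sgn.neg {p : ℝ} {C : ℝ≥0 → Ω → ℝ} {loc : ℕ → Ω → ℝ} {sgn : ℕ → Ω → Bool}
    (h : Sgn P p C loc sgn) : Sgn P p (fun t ω => -C t ω) loc sgn := by
  refine ⟨h.loc_meas, h.sgn_meas, h.loc_inj, ?_, h.law, h.indep, ?_⟩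
  · filter_upwards [h.loc_all] with ω hω m h0 h1 hm
    rw [exc_neg] at hm
    exact hω m h0 h1 hm
  · have h1 : Measurable fun q : (ℝ≥0 → ℝ) × (ℕ → ℝ) => ((fun t => -q.1 t), q.2) := by
      refine Measurable.prodMk ?_ measurable_snd
      exact measurable_pi_lambda _ fun t => ((measurable_pi_apply t).comp measurable_fst).neg
    exact h.indep'.comp measurable_id h1

/-- the largest increasing subset of the Brownian separable permuton has dimension `α(p)` -/
theorem main_result {p α : ℝ} (hp0 : 0 < p) (hp1 : p < 1) (hα0 : 1 / 2 < α) (hα1 : α < 1)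
    (h : 1 / ((4 : ℝ) ^ (1 / (2 * α)) * √Real.pi) *
      (Real.Gamma (1 / 2 - 1 / (2 * α)) / Real.Gamma (1 - 1 / (2 * α))) = p / (p - 1))
    {B : ℝ≥0 → Ω → ℝ} (hB : IsBrownianReal B P) {loc : ℕ → Ω → ℝ} {sgn : ℕ → Ω → Bool}
    (hs : IsSigning P p B loc sgn) :
    ∀ᵐ ω ∂P, incDim (rperm B loc sgn ω) = ENNReal.ofReal α := by
  obtain ⟨C, hC, hCB⟩ := exists_BM hB
  have hS := hs.sgn hC hCB
  have hr := rr_alpha hp0 hp1 hα0 hα1 h
  have hne : ∀ᵐ ω ∂P, C 1 ω ≠ 0 := by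
    filter_upwards [bm_ratNz hC] with ω hω h0
    refine hω 1 1 (by norm_num) le_rfl ?_
    have h1 : pth C ω 1 = 0 := by
      unfold pth
      rw [Real.toNNReal_one]
      exact h0
    unfold mn
    simp [h1]
  filter_upwards [main_pos hp0 hp1 hα0 hα1 hr hC hS,
    main_pos hp0 hp1 hα0 hα1 hr hC.neg hS.neg, hne, hCB] with ω h1 h2 h3 h4
  have h5 : (fun t => B t ω) = fun t => C t ω := by
    funext t
    exact (h4 t).symm
  unfold rperm
  rw [h5]
  rcases lt_or_gt_of_ne h3 with h6 | h6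
  · have h7 := h2 (by linarith)
    rw [exc_neg] at h7
    exact h7
  · exact h1 h6

end Pool.Agent.BSP
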