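import Pool.Agent.BSP.RR

set_option autoImplicit false

/-!
# The sum of two independent Pareto variables
-/

namespace Pool.Agent.BSP

open MeasureTheory Set
open scoped ENNReal

theorem pareto_int_one_sub {b : ℝ} (h1 : b < 1) (c d : ℝ) :
    IntervalIntegrable (fun z : ℝ => (1 - z) ^ (-b)) volume c d := by
  have h := (intervalIntegral.intervalIntegrable_rpow' (a := 1 - c) (b := 1 - d) (r := -b)
    (by linarith)).comp_sub_left 1
  simpa using h

theorem pareto_int_beta {b : ℝ} (h1 : b < 1) :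
    IntervalIntegrable (fun z : ℝ => (z * (1 - z)) ^ (-b)) volume 0 1 := by
  have e : ∀ z ∈ Ioo (0 : ℝ) 1, z ^ (-b) * (1 - z) ^ (-b) = (z * (1 - z)) ^ (-b) := by
    intro z hz
    exact (Real.mul_rpow hz.1.le (by linarith [hz.2])).symm
  have hL : IntervalIntegrable (fun z : ℝ => (z * (1 - z)) ^ (-b)) volume 0 (1 / 2) := by
    have h : IntervalIntegrable (fun z : ℝ => z ^ (-b) * (1 - z) ^ (-b)) volume 0 (1 / 2) := by
      refine (intervalIntegral.intervalIntegrable_rpow' (by linarith)).mul_continuousOn ?_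
      refine ContinuousOn.rpow_const (by fun_prop) ?_
      intro z hz
      rw [uIcc_of_le (by norm_num)] at hz
      left
      linarith [hz.2]
    refine h.congr_uIoo ?_
    intro z hz
    rw [uIoo_of_le (by norm_num)] at hz
    exact e z ⟨hz.1, by linarith [hz.2]⟩
  have hR : IntervalIntegrable (fun z : ℝ => (z * (1 - z)) ^ (-b)) volume (1 / 2) 1 := by
    have h : IntervalIntegrable (fun z : ℝ => z ^ (-b) * (1 - z) ^ (-b)) volume (1 / 2) 1 := by
      refine (pareto_int_one_sub h1 _ _).continuousOn_mul ?_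
      refine ContinuousOn.rpow_const (by fun_prop) ?_
      intro z hz
      rw [uIcc_of_le (by norm_num)] at hz
      left
      linarith [hz.1]
    refine h.congr_uIoo ?_
    intro z hz
    rw [uIoo_of_le (by norm_num)] at hz
    exact e z ⟨by linarith [hz.1], hz.2⟩
  exact hL.trans hR

/-- the density of the third part -/
noncomputable def parH (b z : ℝ) : ℝ := b * z ^ (-b - 1) * ((1 - z) ^ (-b) - 1)

theorem pareto_int_parH {b : ℝ} (h1 : b < 1) {ε : ℝ} (hε : 0 < ε) (hε1 : ε ≤ 1) :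
    IntervalIntegrable (parH b) volume ε 1 := by
  unfold parH
  have h2 : IntervalIntegrable (fun z : ℝ => (1 - z) ^ (-b) - 1) volume ε 1 :=
    (pareto_int_one_sub h1 _ _).sub intervalIntegrable_const
  refine h2.continuousOn_mul ?_
  refine ContinuousOn.mul (by fun_prop) ?_
  refine ContinuousOn.rpow_const (by fun_prop) ?_
  intro z hz
  rw [uIcc_of_le hε1] at hz
  left
  linarith [hz.1]

theorem parH_nonneg {b : ℝ} (h0 : 0 < b) {z : ℝ} (hz : 0 < z) (hz1 : z < 1) :
    0 ≤ parH b z := by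
  unfold parH
  have h1 : (0 : ℝ) < z ^ (-b - 1) := Real.rpow_pos_of_pos hz _
  have h2 : 1 ≤ (1 - z) ^ (-b) :=
    Real.one_le_rpow_of_pos_of_le_one_of_nonpos (by linarith) (by linarith) (by linarith)
  have h3 : 0 ≤ (1 - z) ^ (-b) - 1 := by linarith
  positivity

/-- the correction term -/
noncomputable def parG (b z : ℝ) : ℝ := z ^ (-b) * ((1 - z) ^ (1 - b) - 1)

theorem parG_deriv {b : ℝ} {z : ℝ} (hz : 0 < z) (hz1 : z < 1) :
    HasDerivAt (parG b) ((2 * b - 1) * (z * (1 - z)) ^ (-b) - parH b z) z := by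
  unfold parG
  have d1 : HasDerivAt (fun z : ℝ => z ^ (-b)) (-b * z ^ (-b - 1)) z :=
    Real.hasDerivAt_rpow_const (Or.inl hz.ne')
  have d2 : HasDerivAt (fun z : ℝ => (1 - z) ^ (1 - b))
      (-(1 - b) * (1 - z) ^ (-b)) z := by
    have h : HasDerivAt (fun z : ℝ => 1 - z) (-1) z := by
      simpa using (hasDerivAt_id z).const_sub 1
    have h' := h.rpow_const (p := 1 - b) (Or.inl (sub_pos.mpr hz1).ne')
    refine h'.congr_deriv ?_
    rw [show (1 - b - 1 : ℝ) = -b by ring]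
    ring
  have d3 := d1.mul (d2.sub_const 1)
  refine d3.congr_deriv ?_
  unfold parH
  have e1 : (z * (1 - z)) ^ (-b) = z ^ (-b) * (1 - z) ^ (-b) :=
    Real.mul_rpow hz.le (by linarith)
  have e2 : z ^ (-b) = z ^ (-b - 1) * z := by
    rw [← Real.rpow_add_one hz.ne']; ring_nf
  have e3 : (1 - z) ^ (1 - b) = (1 - z) ^ (-b) * (1 - z) := by
    rw [← Real.rpow_add_one (by linarith)]; ring_nf
  rw [e1, e3, e2]
  ring

theorem parG_cont {b : ℝ} (h1 : b < 1) {ε : ℝ} (hε : 0 < ε) :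
    ContinuousOn (parG b) (Icc ε 1) := by
  unfold parG
  refine ContinuousOn.mul ?_ ?_
  · refine ContinuousOn.rpow_const (by fun_prop) ?_
    intro z hz
    left
    linarith [hz.1]
  · refine ContinuousOn.sub ?_ (by fun_prop)
    refine ContinuousOn.rpow_const (by fun_prop) ?_
    intro z hz
    right
    linarith

theorem pareto_beta_nonneg {b : ℝ} {c : ℝ} (hc : 0 ≤ c) (hc1 : c ≤ 1) :
    0 ≤ ∫ z in c..1, (z * (1 - z)) ^ (-b) := by
  refine intervalIntegral.integral_nonneg hc1 ?_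
  intro z hz
  exact Real.rpow_nonneg (mul_nonneg (by linarith [hz.1]) (by linarith [hz.2])) _

theorem pareto_parH_le {b : ℝ} (h0 : 1 / 2 < b) (h1 : b < 1) {ε : ℝ} (hε : 0 < ε) (hε1 : ε ≤ 1) :
    ∫ z in ε..1, parH b z ≤ 1 + rr b := by
  have hsub : IntervalIntegrable (fun z : ℝ => (z * (1 - z)) ^ (-b)) volume ε 1 :=
    (pareto_int_beta h1).mono_set (by
      rw [uIcc_of_le hε1, uIcc_of_le zero_le_one]
      exact Icc_subset_Icc hε.le le_rfl)
  have hint : IntervalIntegrable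
      (fun z : ℝ => (2 * b - 1) * (z * (1 - z)) ^ (-b) - parH b z) volume ε 1 :=
    (hsub.const_mul _).sub (pareto_int_parH h1 hε hε1)
  have key := intervalIntegral.integral_eq_sub_of_hasDerivAt_of_le hε1 (parG_cont h1 hε)
    (fun z hz => parG_deriv (b := b) (hε.trans hz.1) hz.2) hint
  rw [intervalIntegral.integral_sub (hsub.const_mul _) (pareto_int_parH h1 hε hε1),
    intervalIntegral.integral_const_mul] at key
  have g1 : parG b 1 = -1 := by
    unfold parG
    rw [sub_self, Real.zero_rpow (by linarith), Real.one_rpow]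
    ring
  have g2 : parG b ε ≤ 0 := by
    unfold parG
    have e1 : (0 : ℝ) < ε ^ (-b) := Real.rpow_pos_of_pos hε _
    have e2 : (1 - ε) ^ (1 - b) ≤ 1 :=
      Real.rpow_le_one (by linarith) (by linarith) (by linarith)
    nlinarith
  have hmono : ∫ z in ε..1, (z * (1 - z)) ^ (-b) ≤ ∫ z in (0 : ℝ)..1, (z * (1 - z)) ^ (-b) := by
    refine intervalIntegral.integral_mono_interval hε.le hε1 le_rfl ?_ (pareto_int_beta h1)
    refine (ae_restrict_mem measurableSet_Ioc).mono ?_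
    intro z hz
    exact Real.rpow_nonneg (mul_nonneg hz.1.le (by linarith [hz.2])) _
  rw [rr_eq_integral h0 h1]
  have hm := mul_le_mul_of_nonneg_left hmono (by linarith : (0 : ℝ) ≤ 2 * b - 1)
  rw [g1] at key
  linarith

theorem rr_nonneg' {b : ℝ} (h0 : 1 / 2 < b) (h1 : b < 1) : 0 ≤ rr b := by
  rw [rr_eq_integral h0 h1]
  exact mul_nonneg (by linarith) (pareto_beta_nonneg le_rfl zero_le_one)

theorem pareto_lint {b : ℝ} (h0 : 1 / 2 < b) (h1 : b < 1) {ε : ℝ} (hε : 0 < ε) (hε1 : ε ≤ 1) :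
    ∫⁻ z in Ioo ε 1, ENNReal.ofReal (parH b z) ≤ ENNReal.ofReal (1 + rr b) := by
  have hi : IntegrableOn (parH b) (Ioc ε 1) volume :=
    (intervalIntegrable_iff_integrableOn_Ioc_of_le hε1).mp (pareto_int_parH h1 hε hε1)
  have hi2 : IntegrableOn (parH b) (Ioo ε 1) volume := hi.mono_set Ioo_subset_Ioc_self
  rw [← ofReal_integral_eq_lintegral_ofReal hi2 ?_]
  · refine ENNReal.ofReal_le_ofReal ?_
    rw [← integral_Ioc_eq_integral_Ioo, ← intervalIntegral.integral_of_le hε1]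
    exact pareto_parH_le h0 h1 hε hε1
  · refine (ae_restrict_mem measurableSet_Ioo).mono ?_
    intro z hz
    exact parH_nonneg (by linarith) (hε.trans hz.1) hz.2

/-- the third part -/
theorem pareto_third {b : ℝ} (h0 : 1 / 2 < b) (h1 : b < 1) {x : ℝ} (hx : 1 ≤ x) :
    ∫⁻ v in Ioo (x ^ (-b)) 1, ENNReal.ofReal ((x - v ^ (-b⁻¹)) ^ (-b) - x ^ (-b)) ≤
      ENNReal.ofReal (x ^ (-(2 * b)) * (1 + rr b)) := by
  have hb : 0 < b := by linarith
  have hx0 : 0 < x := by linarith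
  have ht : 0 < x ^ (-b) := Real.rpow_pos_of_pos hx0 _
  have himg : (fun z : ℝ => (x * z) ^ (-b)) '' Ioo (x⁻¹) 1 = Ioo (x ^ (-b)) 1 := by
    ext v
    constructor
    · rintro ⟨z, hz, rfl⟩
      have hz0 : 0 < z := (inv_pos.mpr hx0).trans hz.1
      have hxz : 1 < x * z := by
        have := mul_lt_mul_of_pos_left hz.1 hx0
        rwa [mul_inv_cancel₀ hx0.ne'] at this
      constructor
      · exact Real.rpow_lt_rpow_of_neg (by positivity) (by nlinarith [hz.2]) (by linarith)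
      · exact Real.rpow_lt_one_of_one_lt_of_neg hxz (by linarith)
    · intro hv
      have hv0 : 0 < v := ht.trans hv.1
      refine ⟨v ^ (-b⁻¹) / x, ⟨?_, ?_⟩, ?_⟩
      · rw [inv_eq_one_div]
        refine div_lt_div_of_pos_right ?_ hx0
        exact Real.one_lt_rpow_of_pos_of_lt_one_of_neg hv0 hv.2 (by
          have := inv_pos.mpr hb; linarith)
      · rw [div_lt_one hx0]
        have h2 := Real.rpow_lt_rpow_of_neg ht hv.1 (by
          have := inv_pos.mpr hb; linarith : -b⁻¹ < 0)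
        rwa [← Real.rpow_mul hx0.le, neg_mul_neg, mul_inv_cancel₀ hb.ne', Real.rpow_one] at h2
      · show (x * (v ^ (-b⁻¹) / x)) ^ (-b) = v
        rw [mul_div_cancel₀ _ hx0.ne', ← Real.rpow_mul hv0.le, neg_mul_neg,
          inv_mul_cancel₀ hb.ne', Real.rpow_one]
  have hder : ∀ z ∈ Ioo (x⁻¹) 1, HasDerivWithinAt (fun z : ℝ => (x * z) ^ (-b))
      (x ^ (-b) * (-b * z ^ (-b - 1))) (Ioo (x⁻¹) 1) z := by
    intro z hz
    have hz0 : 0 < z := (inv_pos.mpr hx0).trans hz.1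
    have h := ((Real.hasDerivAt_rpow_const (p := -b) (Or.inl hz0.ne')).const_mul
      (x ^ (-b))).hasDerivWithinAt (s := Ioo (x⁻¹) 1)
    refine h.congr ?_ ?_
    · intro y hy
      exact Real.mul_rpow hx0.le ((inv_pos.mpr hx0).trans hy.1).le
    · exact Real.mul_rpow hx0.le hz0.le
  have hinj : InjOn (fun z : ℝ => (x * z) ^ (-b)) (Ioo (x⁻¹) 1) := by
    intro y hy z hz hyz
    have hy0 : 0 < y := (inv_pos.mpr hx0).trans hy.1
    have hz0 : 0 < z := (inv_pos.mpr hx0).trans hz.1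
    rcases lt_trichotomy y z with h | h | h
    · have := Real.rpow_lt_rpow_of_neg (mul_pos hx0 hy0) (mul_lt_mul_of_pos_left h hx0)
        (by linarith : -b < 0)
      exact absurd hyz this.ne'
    · exact h
    · have := Real.rpow_lt_rpow_of_neg (mul_pos hx0 hz0) (mul_lt_mul_of_pos_left h hx0)
        (by linarith : -b < 0)
      exact absurd hyz this.ne
  rw [← himg, lintegral_image_eq_lintegral_abs_deriv_mul measurableSet_Ioo hder hinj]
  have hcongr : ∀ z ∈ Ioo (x⁻¹) 1,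
      ENNReal.ofReal |x ^ (-b) * (-b * z ^ (-b - 1))| *
        ENNReal.ofReal ((x - ((x * z) ^ (-b)) ^ (-b⁻¹)) ^ (-b) - x ^ (-b)) =
      ENNReal.ofReal (x ^ (-(2 * b))) * ENNReal.ofReal (parH b z) := by
    intro z hz
    have hz0 : 0 < z := (inv_pos.mpr hx0).trans hz.1
    have e1 : ((x * z) ^ (-b)) ^ (-b⁻¹) = x * z := by
      rw [← Real.rpow_mul (by positivity), neg_mul_neg, mul_inv_cancel₀ hb.ne', Real.rpow_one]
    have e2 : x - x * z = x * (1 - z) := by ring
    have e3 : (x * (1 - z)) ^ (-b) = x ^ (-b) * (1 - z) ^ (-b) :=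
      Real.mul_rpow hx0.le (by linarith [hz.2])
    have e4 : x ^ (-(2 * b)) = x ^ (-b) * x ^ (-b) := by
      rw [← Real.rpow_add hx0]; ring_nf
    have hzp : 0 < z ^ (-b - 1) := Real.rpow_pos_of_pos hz0 _
    have e5 : |x ^ (-b) * (-b * z ^ (-b - 1))| = x ^ (-b) * (b * z ^ (-b - 1)) := by
      rw [abs_of_nonpos]
      · ring
      · have : 0 ≤ x ^ (-b) * (b * z ^ (-b - 1)) := by positivity
        linarith [this, (by ring : x ^ (-b) * (-b * z ^ (-b - 1)) =
          -(x ^ (-b) * (b * z ^ (-b - 1))))]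
    rw [e1, e2, e3, e5, ← ENNReal.ofReal_mul (by positivity), ← ENNReal.ofReal_mul
      (Real.rpow_nonneg hx0.le _), e4]
    congr 1
    unfold parH
    ring
  rw [setLIntegral_congr_fun measurableSet_Ioo hcongr,
    lintegral_const_mul' _ _ ENNReal.ofReal_ne_top, ENNReal.ofReal_mul
      (Real.rpow_nonneg hx0.le _)]
  gcongr
  exact pareto_lint h0 h1 (inv_pos.mpr hx0) (inv_le_one_of_one_le₀ hx)

/-- If `V`, `W` are independent and uniform on `(0, 1)` then
`P(V^(-1/b) + W^(-1/b) > x) ≤ 2 x^(-b) + rr b x^(-2b)`. -/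
theorem pareto_sum {b : ℝ} (h0 : 1 / 2 < b) (h1 : b < 1) {x : ℝ} (hx : 1 ≤ x) :
    volume {q : ℝ × ℝ | q.1 ∈ Ioo (0 : ℝ) 1 ∧ q.2 ∈ Ioo (0 : ℝ) 1 ∧
      x < q.1 ^ (-b⁻¹) + q.2 ^ (-b⁻¹)} ≤
      ENNReal.ofReal (2 * x ^ (-b) + rr b * x ^ (-(2 * b))) := by
  have hb : 0 < b := by linarith
  have hx0 : 0 < x := by linarith
  have ht : 0 < x ^ (-b) := Real.rpow_pos_of_pos hx0 _
  have ht1 : x ^ (-b) ≤ 1 := Real.rpow_le_one_of_one_le_of_nonpos hx (by linarith)
  set t := x ^ (-b) with htdef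
  have hbi : 0 < b⁻¹ := inv_pos.mpr hb
  have hsub : {q : ℝ × ℝ | q.1 ∈ Ioo (0 : ℝ) 1 ∧ q.2 ∈ Ioo (0 : ℝ) 1 ∧
      x < q.1 ^ (-b⁻¹) + q.2 ^ (-b⁻¹)} ⊆
      (Ioc 0 t ×ˢ Ioo 0 1) ∪ ((Ioo t 1 ×ˢ Ioc 0 t) ∪
        regionBetween (fun _ => t) (fun v : ℝ => (x - v ^ (-b⁻¹)) ^ (-b)) (Ioo t 1)) := by
    rintro ⟨v, w⟩ ⟨hv, hw, hq⟩
    simp only at hv hw hq
    by_cases hvt : v ≤ t
    · left
      exact ⟨⟨hv.1, hvt⟩, hw⟩
    · push Not at hvt
      right
      by_cases hwt : w ≤ t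
      · left
        exact ⟨⟨hvt, hv.2⟩, ⟨hw.1, hwt⟩⟩
      · push Not at hwt
        right
        refine ⟨⟨hvt, hv.2⟩, ⟨hwt, ?_⟩⟩
        have h2 : v ^ (-b⁻¹) < x := by
          have h2 := Real.rpow_lt_rpow_of_neg ht hvt (by linarith : -b⁻¹ < 0)
          rwa [htdef, ← Real.rpow_mul hx0.le, neg_mul_neg, mul_inv_cancel₀ hb.ne',
            Real.rpow_one] at h2
        have h3 : x - v ^ (-b⁻¹) < w ^ (-b⁻¹) := by linarith
        have h4 := Real.rpow_lt_rpow_of_neg (by linarith : 0 < x - v ^ (-b⁻¹)) h3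
          (by linarith : -b < 0)
        rwa [← Real.rpow_mul hw.1.le, neg_mul_neg, inv_mul_cancel₀ hb.ne', Real.rpow_one] at h4
  refine (measure_mono hsub).trans ((measure_union_le _ _).trans ?_)
  refine (add_le_add_right (measure_union_le _ _) _).trans ?_
  have m1 : volume (Ioc (0 : ℝ) t ×ˢ Ioo (0 : ℝ) 1) = ENNReal.ofReal t := by
    rw [Measure.volume_eq_prod, Measure.prod_prod, Real.volume_Ioc, Real.volume_Ioo]
    simp
  have m2 : volume (Ioo t (1 : ℝ) ×ˢ Ioc (0 : ℝ) t) = ENNReal.ofReal ((1 - t) * t) := by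
    rw [Measure.volume_eq_prod, Measure.prod_prod, Real.volume_Ioc, Real.volume_Ioo,
      ENNReal.ofReal_mul (by linarith)]
    simp
  have m3 : volume (regionBetween (fun _ => t) (fun v : ℝ => (x - v ^ (-b⁻¹)) ^ (-b))
      (Ioo t 1)) ≤ ENNReal.ofReal (t * t * (1 + rr b)) := by
    rw [Measure.volume_eq_prod, volume_regionBetween_eq_lintegral (by fun_prop)
      (by fun_prop) measurableSet_Ioo]
    have e4 : x ^ (-(2 * b)) = t * t := by
      rw [htdef, ← Real.rpow_add hx0]; ring_nf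
    have h := pareto_third h0 h1 hx
    rw [e4] at h
    exact h
  rw [m1, m2]
  have hr := rr_nonneg' h0 h1
  have e4 : x ^ (-(2 * b)) = t * t := by
    rw [htdef, ← Real.rpow_add hx0]; ring_nf
  refine (add_le_add_right (add_le_add_right m3 _) _).trans ?_
  rw [← ENNReal.ofReal_add (mul_nonneg (by linarith) ht.le) (by positivity),
    ← ENNReal.ofReal_add ht.le (add_nonneg (mul_nonneg (by linarith) ht.le) (by positivity)), e4]
  refine ENNReal.ofReal_le_ofReal (le_of_eq ?_)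
  ring

end Pool.Agent.BSP
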