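import Pool.Agent.BSP.Defs
import Pool.Agent.BSP.CatDefs

set_option autoImplicit false

/-!
# Pieces of a path
-/

namespace Pool.Agent.BSP

open MeasureTheory ProbabilityTheory Set Filter
open scoped ENNReal NNReal Topology

/-- minimum of `W` over `[a, a + τ]` -/
noncomputable def mn (W : ℝ → ℝ) (a τ : ℝ) : ℝ := sInf (W '' Icc a (a + τ))

/-- depth of the minimum over `[a, a + τ]` below `W a` -/
noncomputable def dW (W : ℝ → ℝ) (a τ : ℝ) : ℝ := W a - mn W a τ

/-- height of `W (a + τ)` above the minimum over `[a, a + τ]` -/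
noncomputable def uW (W : ℝ → ℝ) (a τ : ℝ) : ℝ := W (a + τ) - mn W a τ

/-- the first point of `[a, a + τ]` where `W` is minimal -/
noncomputable def am (W : ℝ → ℝ) (a τ : ℝ) : ℝ :=
  sInf {t | a ≤ t ∧ t ≤ a + τ ∧ W t = mn W a τ}

/-- a piece without sign -/
abbrev Pc3 := ℝ × ℝ × ℝ × Bool

/-- the pieces of the path `W` from time `a` on with the durations `v` (all marked) -/
noncomputable def pcs (W : ℝ → ℝ) : ℝ → List ℝ → List Pc3
  | _, [] => []
  | a, τ :: v => (dW W a τ, uW W a τ, τ, true) :: pcs W (a + τ) v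

/-- adjoin a sign -/
def adS (x : Pc3) (b : Bool) : Pc := (x.1, x.2.1, x.2.2.1, x.2.2.2, b)

/-- the pieces of `W` with the signs of the minima given by the sign function `sw` -/
noncomputable def pcS (W : ℝ → ℝ) (sw : ℝ → Bool) : ℝ → List ℝ → List Pc
  | _, [] => []
  | a, τ :: v => adS (dW W a τ, uW W a τ, τ, true) (sw (am W a τ)) :: pcS W sw (a + τ) v

/-- the path as a function on the real line -/
def pth {Ω : Type*} (C : ℝ≥0 → Ω → ℝ) (ω : Ω) (t : ℝ) : ℝ := C t.toNNReal ω

/-- Brownian motion, all paths continuous and starting at `0` -/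
structure BM {Ω : Type*} [MeasurableSpace Ω] (C : ℝ≥0 → Ω → ℝ) (P : Measure Ω) : Prop where
  meas : ∀ t, Measurable (C t)
  cont : ∀ ω, Continuous fun t => C t ω
  zero : ∀ ω, C 0 ω = 0
  pre : IsPreBrownianReal C P

theorem pth_cont {Ω : Type*} [MeasurableSpace Ω] {C : ℝ≥0 → Ω → ℝ} {P : Measure Ω} (h : BM C P)
    (ω : Ω) : Continuous (pth C ω) :=
  (h.cont ω).comp continuous_real_toNNReal

namespace PathAux

/-- the minimum is attained -/
theorem exists_mn {W : ℝ → ℝ} (hW : Continuous W) {a τ : ℝ} (hτ : 0 ≤ τ) :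
    ∃ t, a ≤ t ∧ t ≤ a + τ ∧ W t = mn W a τ ∧ ∀ s, a ≤ s → s ≤ a + τ → mn W a τ ≤ W s := by
  obtain ⟨t, ht, hmin⟩ := (isCompact_Icc (a := a) (b := a + τ)).exists_isMinOn
    ⟨a, left_mem_Icc.2 (by linarith)⟩ hW.continuousOn
  have h1 : IsLeast (W '' Icc a (a + τ)) (W t) := by
    refine ⟨mem_image_of_mem W ht, ?_⟩
    rintro _ ⟨s, hs, rfl⟩
    exact hmin hs
  have h2 : mn W a τ = W t := h1.csInf_eq
  refine ⟨t, ht.1, ht.2, h2.symm, fun s hs1 hs2 => ?_⟩
  rw [h2]
  exact hmin (mem_Icc.2 ⟨hs1, hs2⟩)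

theorem mn_le {W : ℝ → ℝ} (hW : Continuous W) {a τ s : ℝ} (h1 : a ≤ s) (h2 : s ≤ a + τ) :
    mn W a τ ≤ W s := by
  obtain ⟨t, _, _, _, h⟩ := exists_mn hW (a := a) (τ := τ) (by linarith)
  exact h s h1 h2

end PathAux

open PathAux

/-- the minimum is attained at `am` -/
theorem am_spec {W : ℝ → ℝ} (hW : Continuous W) {a τ : ℝ} (hτ : 0 ≤ τ) :
    a ≤ am W a τ ∧ am W a τ ≤ a + τ ∧ W (am W a τ) = mn W a τ ∧
      ∀ t, a ≤ t → t ≤ a + τ → mn W a τ ≤ W t := by
  obtain ⟨t, h1, h2, h3, h4⟩ := exists_mn hW (a := a) hτ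
  have hcl : IsClosed {t | a ≤ t ∧ t ≤ a + τ ∧ W t = mn W a τ} := by
    have e : {t | a ≤ t ∧ t ≤ a + τ ∧ W t = mn W a τ} = Ici a ∩ (Iic (a + τ) ∩ W ⁻¹' {mn W a τ}) := by
      ext t
      simp only [mem_ofPred_eq, mem_inter_iff, mem_Ici, mem_Iic, mem_preimage, mem_singleton_iff]
    rw [e]
    exact isClosed_Ici.inter (isClosed_Iic.inter (isClosed_singleton.preimage hW))
  have hmem : am W a τ ∈ {t | a ≤ t ∧ t ≤ a + τ ∧ W t = mn W a τ} :=
    hcl.csInf_mem ⟨t, h1, h2, h3⟩ ⟨a, fun s hs => hs.1⟩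
  exact ⟨hmem.1, hmem.2.1, hmem.2.2, h4⟩

/-- `am` is the first point -/
theorem PathAux.am_le {W : ℝ → ℝ} {a τ s : ℝ} (h1 : a ≤ s) (h2 : s ≤ a + τ)
    (h3 : W s = mn W a τ) : am W a τ ≤ s :=
  csInf_le ⟨a, fun _ ht => ht.1⟩ ⟨h1, h2, h3⟩

theorem lt_am_iff {W : ℝ → ℝ} (hW : Continuous W) {a τ q : ℝ} (hq : a ≤ q) (hq' : q < a + τ) :
    q < am W a τ ↔ mn W a τ < mn W a (q - a) := by
  have hτ : 0 ≤ τ := by linarith
  have hqa : 0 ≤ q - a := by linarith
  obtain ⟨a1, a2, a3, a4⟩ := am_spec hW (a := a) hτ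
  constructor
  · intro hlt
    obtain ⟨s, h1, h2, h3, _⟩ := exists_mn hW (a := a) hqa
    rw [← h3]
    have h4 : s ≤ q := by linarith
    rcases (a4 s h1 (by linarith)).lt_or_eq with h5 | h5
    · exact h5
    · exfalso
      have h6 := PathAux.am_le (W := W) (a := a) (τ := τ) h1 (by linarith) h5.symm
      linarith
  · intro hlt
    by_contra hcon
    rw [not_lt] at hcon
    have h5 := mn_le hW (a := a) (τ := q - a) a1 (by linarith)
    rw [a3] at h5
    linarith

/-- the minimum as a countable infimum -/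
theorem mn_eq_iInf {W : ℝ → ℝ} (hW : Continuous W) {a τ : ℝ} (hτ : 0 ≤ τ) :
    mn W a τ = ⨅ q : {q : ℚ // 0 ≤ q ∧ q ≤ 1}, W (a + (q : ℚ) * τ) := by
  have : Nonempty {q : ℚ // 0 ≤ q ∧ q ≤ 1} := ⟨⟨0, le_rfl, zero_le_one⟩⟩
  have hle : ∀ q : {q : ℚ // 0 ≤ q ∧ q ≤ 1}, mn W a τ ≤ W (a + (q : ℚ) * τ) := by
    intro q
    have h0 : (0 : ℝ) ≤ ((q : ℚ) : ℝ) := by exact_mod_cast q.2.1
    have h1 : ((q : ℚ) : ℝ) ≤ 1 := by exact_mod_cast q.2.2
    have h2 := mul_le_mul_of_nonneg_right h1 hτ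
    have h3 := mul_nonneg h0 hτ
    exact mn_le hW (by linarith) (by linarith)
  have hbdd : BddBelow (range fun q : {q : ℚ // 0 ≤ q ∧ q ≤ 1} => W (a + (q : ℚ) * τ)) := by
    refine ⟨mn W a τ, ?_⟩
    rintro _ ⟨q, rfl⟩
    exact hle q
  apply le_antisymm (le_ciInf hle)
  -- all points of the interval
  have hall : ∀ c : ℝ, 0 ≤ c → c ≤ 1 →
      (⨅ q : {q : ℚ // 0 ≤ q ∧ q ≤ 1}, W (a + (q : ℚ) * τ)) ≤ W (a + c * τ) := by
    intro c hc0 hc1
    rcases hc0.eq_or_lt with h0 | h0
    · have h1 := ciInf_le hbdd ⟨0, le_rfl, zero_le_one⟩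
      rw [← h0]
      simpa using h1
    rcases hc1.eq_or_lt with h1 | h1
    · have h2 := ciInf_le hbdd ⟨1, zero_le_one, le_rfl⟩
      rw [h1]
      simpa using h2
    apply le_of_forall_pos_lt_add
    intro ε hε
    have hg : Continuous fun x : ℝ => W (a + x * τ) := by fun_prop
    have hopen : IsOpen (Ioo (0 : ℝ) 1 ∩ (fun x : ℝ => W (a + x * τ)) ⁻¹' Iio (W (a + c * τ) + ε)) :=
      isOpen_Ioo.inter (isOpen_Iio.preimage hg)
    obtain ⟨q, hq1, hq2⟩ := (Rat.denseRange_cast (𝕜 := ℝ)).exists_mem_open hopen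
      ⟨c, ⟨h0, h1⟩, by simp only [mem_preimage, mem_Iio]; linarith⟩
    have hq0 : 0 ≤ q := by exact_mod_cast hq1.1.le
    have hq3 : q ≤ 1 := by exact_mod_cast hq1.2.le
    exact lt_of_le_of_lt (ciInf_le hbdd ⟨q, hq0, hq3⟩) hq2
  obtain ⟨t, h1, h2, h3, _⟩ := exists_mn hW (a := a) hτ
  rcases hτ.eq_or_lt with h0 | h0
  · have h4 : t = a := by linarith
    have h5 := hall 0 le_rfl zero_le_one
    rw [zero_mul, add_zero] at h5
    rw [← h3, h4]
    exact h5
  · have h4 : a + (t - a) / τ * τ = t := by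
      rw [div_mul_cancel₀ _ h0.ne']
      ring
    have h5 := hall ((t - a) / τ) (div_nonneg (by linarith) hτ)
      ((div_le_one h0).2 (by linarith))
    rw [h4] at h5
    rw [← h3]
    exact h5

theorem dW_nonneg {W : ℝ → ℝ} (hW : Continuous W) {a τ : ℝ} (hτ : 0 ≤ τ) :
    0 ≤ dW W a τ ∧ 0 ≤ uW W a τ := by
  have h1 := mn_le hW (a := a) (τ := τ) le_rfl (by linarith)
  have h2 := mn_le hW (a := a) (τ := τ) (s := a + τ) (by linarith) le_rfl
  unfold dW uW
  constructor <;> linarith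

theorem mn_add {W : ℝ → ℝ} (hW : Continuous W) {a σ τ : ℝ} (hσ : 0 ≤ σ) (hτ : 0 ≤ τ) :
    mn W a (σ + τ) = min (mn W a σ) (mn W (a + σ) τ) := by
  apply le_antisymm
  · apply le_min
    · obtain ⟨t, h1, h2, h3, _⟩ := exists_mn hW (a := a) hσ
      rw [← h3]
      exact mn_le hW h1 (by linarith)
    · obtain ⟨t, h1, h2, h3, _⟩ := exists_mn hW (a := a + σ) hτ
      rw [← h3]
      exact mn_le hW (by linarith) (by linarith)
  · obtain ⟨t, h1, h2, h3, _⟩ := exists_mn hW (a := a) (τ := σ + τ) (by linarith)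
    rw [← h3]
    rcases le_total t (a + σ) with h4 | h4
    · exact (min_le_left _ _).trans (mn_le hW h1 h4)
    · exact (min_le_right _ _).trans (mn_le hW h4 (by linarith))

theorem dW_add {W : ℝ → ℝ} (hW : Continuous W) {a σ τ : ℝ} (hσ : 0 ≤ σ) (hτ : 0 ≤ τ) :
    dW W a (σ + τ) = max (dW W a σ) (dW W a σ - uW W a σ + dW W (a + σ) τ) := by
  have e : dW W a σ - uW W a σ + dW W (a + σ) τ = W a - mn W (a + σ) τ := by
    unfold dW uW
    ring
  rw [e]
  unfold dW
  rw [mn_add hW hσ hτ, max_sub_sub_left]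

theorem am_add {W : ℝ → ℝ} (hW : Continuous W) {a σ τ : ℝ} (hσ : 0 ≤ σ) (hτ : 0 ≤ τ) :
    am W a (σ + τ) = if mn W a σ ≤ mn W (a + σ) τ then am W a σ else am W (a + σ) τ := by
  have hm := mn_add hW (a := a) hσ hτ
  obtain ⟨a1, a2, a3, _⟩ := am_spec hW (a := a) hσ
  obtain ⟨b1, b2, b3, _⟩ := am_spec hW (a := a + σ) hτ
  obtain ⟨c1, c2, c3, _⟩ := am_spec hW (a := a) (τ := σ + τ) (by linarith)
  split_ifs with h
  · rw [min_eq_left h] at hm
    have h1 : am W a (σ + τ) ≤ am W a σ :=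
      PathAux.am_le a1 (by linarith) (by rw [a3, hm])
    exact le_antisymm h1 (PathAux.am_le c1 (by linarith) (by rw [c3, hm]))
  · rw [not_le] at h
    rw [min_eq_right h.le] at hm
    have h1 : am W a (σ + τ) ≤ am W (a + σ) τ :=
      PathAux.am_le (by linarith) (by linarith) (by rw [b3, hm])
    have h2 : a + σ ≤ am W a (σ + τ) := by
      by_contra hcon
      rw [not_le] at hcon
      have h3 := mn_le hW c1 hcon.le
      rw [c3, hm] at h3
      linarith
    exact le_antisymm h1 (PathAux.am_le h2 (by linarith) (by rw [c3, hm]))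

namespace PathAux

theorem tot_pcS (W : ℝ → ℝ) (sw : ℝ → Bool) (a : ℝ) (v : List ℝ) :
    tot (pcS W sw a v) = W (a + v.sum) - W a := by
  induction v generalizing a with
  | nil => simp [pcS, tot]
  | cons τ v ih =>
    simp only [pcS, tot, List.sum_cons]
    rw [ih, ← add_assoc]
    simp only [adS, pU, pD, dW, uW]
    ring

theorem dur_pcS (W : ℝ → ℝ) (sw : ℝ → Bool) (a : ℝ) (v : List ℝ) :
    dur (pcS W sw a v) = v.sum := by
  induction v generalizing a with
  | nil => simp [pcS, dur]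
  | cons τ v ih =>
    simp only [pcS, dur, List.sum_cons]
    rw [ih]
    simp only [adS, pT]

end PathAux

/-- concatenation of the pieces of a path -/
theorem cat_pcS {W : ℝ → ℝ} (hW : Continuous W) (sw : ℝ → Bool) {a : ℝ} {v : List ℝ}
    (hv : ∀ τ ∈ v, 0 ≤ τ) (hne : v ≠ []) :
    dn (pcS W sw a v) = dW W a v.sum ∧ up (pcS W sw a v) = uW W a v.sum ∧
      dur (pcS W sw a v) = v.sum ∧ sg (pcS W sw a v) = sw (am W a v.sum) ∧
      tot (pcS W sw a v) = W (a + v.sum) - W a := by
  have hne' : pcS W sw a v ≠ [] := by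
    cases v with
    | nil => exact absurd rfl hne
    | cons τ v => simp [pcS]
  have hmain : ∀ (v : List ℝ) (a : ℝ), (∀ τ ∈ v, 0 ≤ τ) → v ≠ [] →
      dn (pcS W sw a v) = dW W a v.sum ∧ sg (pcS W sw a v) = sw (am W a v.sum) := by
    intro v
    induction v with
    | nil => intro a _ h; exact absurd rfl h
    | cons τ v ih =>
      intro a hv _
      have hτ : 0 ≤ τ := hv τ List.mem_cons_self
      cases v with
      | nil =>
        constructor
        · simp [pcS, dn, adS, pD]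
        · simp [pcS, sg, adS, pS]
      | cons τ' v' =>
        have hv' : ∀ x ∈ τ' :: v', 0 ≤ x := fun x hx => hv x (List.mem_cons_of_mem _ hx)
        obtain ⟨i1, i2⟩ := ih (a + τ) hv' (List.cons_ne_nil _ _)
        have hs : 0 ≤ (τ' :: v').sum := List.sum_nonneg hv'
        rw [List.sum_cons (a := τ)]
        have e1 : dn (pcS W sw a (τ :: τ' :: v')) = max (dW W a τ)
            (dW W a τ - uW W a τ + dn (pcS W sw (a + τ) (τ' :: v'))) := rfl
        have e2 : sg (pcS W sw a (τ :: τ' :: v')) =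
            if dW W a τ - uW W a τ + dn (pcS W sw (a + τ) (τ' :: v')) ≤ dW W a τ then
              sw (am W a τ) else sg (pcS W sw (a + τ) (τ' :: v')) := by
          simp only [pcS, sg]
          rfl
        rw [e1, e2, i1, i2]
        refine ⟨(dW_add hW hτ hs).symm, ?_⟩
        rw [am_add hW hτ hs]
        have e3 : dW W a τ - uW W a τ + dW W (a + τ) (τ' :: v').sum ≤ dW W a τ ↔
            mn W a τ ≤ mn W (a + τ) (τ' :: v').sum := by
          unfold dW uW
          constructor <;> intro h <;> linarith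
        by_cases h : mn W a τ ≤ mn W (a + τ) (τ' :: v').sum
        · rw [if_pos (e3.2 h), if_pos h]
        · rw [if_neg (fun h' => h (e3.1 h')), if_neg h]
  obtain ⟨h1, h2⟩ := hmain v a hv hne
  have h3 := tot_pcS W sw a v
  refine ⟨h1, ?_, dur_pcS W sw a v, h2, h3⟩
  rw [up_eq hne', h1, h3]
  unfold dW uW
  ring

theorem pcS_append (W : ℝ → ℝ) (sw : ℝ → Bool) (a : ℝ) (v v' : List ℝ) :
    pcS W sw a (v ++ v') = pcS W sw a v ++ pcS W sw (a + v.sum) v' := by
  induction v generalizing a with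
  | nil => simp [pcS]
  | cons τ v ih =>
    simp only [List.cons_append, pcS, List.sum_cons]
    rw [ih, add_assoc]

theorem pcs_append (W : ℝ → ℝ) (a : ℝ) (v v' : List ℝ) :
    pcs W a (v ++ v') = pcs W a v ++ pcs W (a + v.sum) v' := by
  induction v generalizing a with
  | nil => simp [pcs]
  | cons τ v ih =>
    simp only [List.cons_append, pcs, List.sum_cons]
    rw [ih, add_assoc]

theorem length_pcs (W : ℝ → ℝ) (a : ℝ) (v : List ℝ) : (pcs W a v).length = v.length := by
  induction v generalizing a with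
  | nil => simp [pcs]
  | cons τ v ih =>
    simp only [pcs, List.length_cons]
    rw [ih]

/-- the minima of the pieces are the minima of the path -/
theorem mins_pcS {W : ℝ → ℝ} (sw : ℝ → Bool) (a : ℝ) (v : List ℝ) (i : ℕ) (hi : i < v.length) :
    (mins (W a) (pcS W sw a v))[i]? = some
      (mn W (a + (v.take i).sum) (v[i]), sw (am W (a + (v.take i).sum) (v[i])), true) := by
  induction v generalizing a i with
  | nil => simp at hi
  | cons τ v ih =>
    have e1 : W a - dW W a τ = mn W a τ := by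
      unfold dW
      ring
    have e2 : W a - dW W a τ + uW W a τ = W (a + τ) := by
      unfold dW uW
      ring
    have e3 : mins (W a) (pcS W sw a (τ :: v)) =
        (W a - dW W a τ, sw (am W a τ), true) ::
          mins (W a - dW W a τ + uW W a τ) (pcS W sw (a + τ) v) := rfl
    rw [e3, e2, e1]
    cases i with
    | zero => simp
    | succ i =>
      have hi' : i < v.length := by simpa using hi
      rw [List.getElem?_cons_succ, ih (a + τ) i hi']
      simp only [List.take_succ_cons, List.sum_cons, List.getElem_cons_succ, add_assoc]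

theorem pos_pcS (W : ℝ → ℝ) (sw : ℝ → Bool) (a : ℝ) (v : List ℝ) :
    pos (W a) (pcS W sw a v) = W (a + v.sum) := by
  rw [pos_eq, tot_pcS]
  ring

/-- pieces are invariant under translations of time and space -/
theorem pcs_shift {W V : ℝ → ℝ} (hW : Continuous W) {a b : ℝ} {v : List ℝ}
    (hv : ∀ τ ∈ v, 0 ≤ τ) (h : ∀ t, 0 ≤ t → V (b + t) - V b = W (a + t) - W a) :
    pcs V b v = pcs W a v := by
  induction v generalizing a b with
  | nil => rfl
  | cons τ v ih =>
    have hτ : 0 ≤ τ := hv τ List.mem_cons_self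
    obtain ⟨t, h1, h2, h3, h4⟩ := exists_mn hW (a := a) hτ
    have e1 : mn V b τ = mn W a τ + (V b - W a) := by
      have hleast : IsLeast (V '' Icc b (b + τ)) (mn W a τ + (V b - W a)) := by
        constructor
        · refine ⟨b + (t - a), ⟨by linarith, by linarith⟩, ?_⟩
          have h5 := h (t - a) (by linarith)
          have h6 : a + (t - a) = t := by ring
          rw [h6] at h5
          linarith
        · rintro _ ⟨s, hs, rfl⟩
          have h5 := h (s - b) (by linarith [hs.1])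
          have h6 : b + (s - b) = s := by ring
          rw [h6] at h5
          have h7 := h4 (a + (s - b)) (by linarith [hs.1]) (by linarith [hs.2])
          linarith
      exact hleast.csInf_eq
    have e2 : dW V b τ = dW W a τ := by
      unfold dW
      linarith
    have e3 : uW V b τ = uW W a τ := by
      have h5 := h τ hτ
      unfold uW
      linarith
    have e4 : pcs V (b + τ) v = pcs W (a + τ) v := by
      apply ih (fun x hx => hv x (List.mem_cons_of_mem _ hx))
      intro t ht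
      have h5 := h τ hτ
      have h6 := h (τ + t) (by linarith)
      rw [add_assoc, add_assoc]
      linarith
    simp only [pcs]
    rw [e2, e3, e4]

end Pool.Agent.BSP
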