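import Pool.Agent.BSP.GenDefs
import Pool.Agent.BSP.Law

set_option autoImplicit false

/-!
# Signs of the minima of the pieces: definitions
-/

namespace Pool.Agent.BSP

open MeasureTheory ProbabilityTheory Set Filter
open scoped ENNReal NNReal Topology

/-- the sign of a local minimum of the path `w` inside the excursion which straddles `1` -/
noncomputable def sw (w : ℝ≥0 → ℝ) (loc : ℕ → ℝ) (sgn : ℕ → Bool) (m : ℝ) : Bool :=
  signAt loc sgn ((m - gL w) / (dR w - gL w))

/-- the minimum at the time `m` of the piece `[a, a + τ]` has a sign -/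
def Ins (w : ℝ≥0 → ℝ) (loc : ℕ → ℝ) (a τ m : ℝ) : Prop :=
  0 < w 1 ∧ a < m ∧ m < a + τ ∧ gL w < m ∧ m < dR w ∧ ∃ k, loc k = (m - gL w) / (dR w - gL w)

open Classical in
/-- the signs of the minima of the pieces; auxiliary signs `c` are used for minima outside of
the excursion -/
noncomputable def sgs (w : ℝ≥0 → ℝ) (loc : ℕ → ℝ) (sgn : ℕ → Bool) :
    ℝ → List ℝ → List Bool → List Bool
  | _, [], _ => []
  | _, _ :: _, [] => []
  | a, τ :: v, b :: c =>
    (if Ins w loc a τ (am (fun t => w t.toNNReal) a τ) then
      sw w loc sgn (am (fun t => w t.toNNReal) a τ) else b) :: sgs w loc sgn (a + τ) v c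

/-- adjoin signs to pieces -/
def zipS (l : List Pc3) (c : List Bool) : List Pc := List.zipWith adS l c

theorem zipS_eq_pcS {w : ℝ≥0 → ℝ} {loc : ℕ → ℝ} {sgn : ℕ → Bool} {a : ℝ} {v : List ℝ}
    {c : List Bool} (hc : c.length = v.length)
    (h : ∀ (v1 : List ℝ) (τ : ℝ) (v2 : List ℝ), v = v1 ++ τ :: v2 →
      Ins w loc (a + v1.sum) τ (am (fun t => w t.toNNReal) (a + v1.sum) τ)) :
    zipS (pcs (fun t => w t.toNNReal) a v) (sgs w loc sgn a v c) =
      pcS (fun t => w t.toNNReal) (sw w loc sgn) a v := by
  induction v generalizing a c with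
  | nil =>
    cases c with
    | nil => rfl
    | cons b c => simp at hc
  | cons τ v ih =>
    cases c with
    | nil => simp at hc
    | cons b c =>
      have h1 := h [] τ v rfl
      rw [List.sum_nil, add_zero] at h1
      have h2 := ih (a := a + τ) (c := c) (by simpa using hc) (fun v1 τ' v2 e => by
        have h3 := h (τ :: v1) τ' v2 (by rw [e]; rfl)
        rw [List.sum_cons, ← add_assoc] at h3
        exact h3)
      unfold zipS at h2 ⊢
      rw [pcs, sgs, if_pos h1, List.zipWith_cons_cons, h2, pcS]

theorem sgs_append (w : ℝ≥0 → ℝ) (loc : ℕ → ℝ) (sgn : ℕ → Bool) (a : ℝ) (v v' : List ℝ)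
    (c c' : List Bool) (hc : c.length = v.length) :
    sgs w loc sgn a (v ++ v') (c ++ c') = sgs w loc sgn a v c ++ sgs w loc sgn (a + v.sum) v' c' := by
  induction v generalizing a c with
  | nil =>
    cases c with
    | nil => simp [sgs]
    | cons b c => simp at hc
  | cons τ v ih =>
    cases c with
    | nil => simp at hc
    | cons b c =>
      have h2 := ih (a + τ) c (by simpa using hc)
      rw [List.cons_append, List.cons_append, sgs, h2, sgs, List.sum_cons, List.cons_append,
        add_assoc]

theorem length_sgs (w : ℝ≥0 → ℝ) (loc : ℕ → ℝ) (sgn : ℕ → Bool) (a : ℝ) (v : List ℝ)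
    (c : List Bool) (hc : c.length = v.length) : (sgs w loc sgn a v c).length = v.length := by
  induction v generalizing a c with
  | nil => simp [sgs]
  | cons τ v ih =>
    cases c with
    | nil => simp at hc
    | cons b c =>
      rw [sgs, List.length_cons, List.length_cons, ih (a + τ) c (by simpa using hc)]

/-- the integral over signs given by an independent sign for every piece -/
theorem LI_zipS {p : ℝ} (hp0 : 0 ≤ p) (hp1 : p ≤ 1) {ρ : Measure Pc3} [IsProbabilityMeasure ρ]
    {F : List Pc → ℝ≥0∞} (hF : MF F) (n : ℕ) :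
    LI (sgnProd p ρ) n F = LI ρ n (fun l => LI (berM p) n (fun c => F (zipS l c))) := by
  have hm : Measurable fun q : Pc3 × Bool => (q.1.1, q.1.2.1, q.1.2.2.1, q.1.2.2.2, q.2) := by
    fun_prop
  have h2 : MF fun l : List (Pc3 × Bool) =>
      F (l.map fun q => (q.1.1, q.1.2.1, q.1.2.2.1, q.1.2.2.2, q.2)) := by
    intro m
    have h3 : (fun v : Fin m → Pc3 × Bool => F ((List.ofFn v).map fun q =>
        (q.1.1, q.1.2.1, q.1.2.2.1, q.1.2.2.2, q.2))) = (fun v : Fin m → Pc => F (List.ofFn v)) ∘
          (fun v i => ((v i).1.1, (v i).1.2.1, (v i).1.2.2.1, (v i).1.2.2.2, (v i).2)) := by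
      funext v
      simp only [Function.comp, List.map_ofFn]
      rfl
    rw [h3]
    exact (hF m).comp (measurable_pi_lambda _ fun i => hm.comp (measurable_pi_apply i))
  unfold sgnProd
  rw [LI_map hm hF, LI_prod _ h2]
  have h4 : ∀ (l : List Pc3) (c : List Bool), ((l.zip c).map fun q =>
      (q.1.1, q.1.2.1, q.1.2.2.1, q.1.2.2.2, q.2)) = zipS l c := by
    intro l
    induction l with
    | nil => intro c; rfl
    | cons x l ih =>
      intro c
      cases c with
      | nil => rfl
      | cons b c =>
        have h5 := ih c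
        unfold zipS at h5 ⊢
        rw [List.zip_cons_cons, List.map_cons, h5, List.zipWith_cons_cons]
        rfl
  simp only [h4]

end Pool.Agent.BSP
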