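import Pool.Agent.BSP.Comp
import Pool.Agent.BSP.CvMeas
import Pool.Agent.BSP.Pareto

set_option autoImplicit false

/-!
# Supersolution and the upper bound for the tail
-/

namespace Pool.Agent.BSP

open Finset

/-- Pareto tail -/
noncomputable def gp (x0 b : ℝ) (n : ℕ) : ℝ := if (n : ℝ) ≤ x0 then 1 else ((n : ℝ) / x0) ^ (-b)

theorem gp_isTail {x0 b : ℝ} (h : 0 < x0) (hb : 0 < b) : IsTail (gp x0 b) := by
  have hle : ∀ n : ℕ, gp x0 b n ≤ 1 := by
    intro n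
    unfold gp
    split_ifs with h1
    · exact le_rfl
    · push Not at h1
      exact Real.rpow_le_one_of_one_le_of_nonpos ((one_le_div h).2 h1.le) (by linarith)
  have hnn : ∀ n : ℕ, 0 ≤ gp x0 b n := by
    intro n
    unfold gp
    split_ifs with h1
    · exact zero_le_one
    · exact Real.rpow_nonneg (by positivity) _
  refine ⟨?_, hnn, hle⟩
  intro m n hmn
  have hmn' : (m : ℝ) ≤ n := by exact_mod_cast hmn
  by_cases h1 : (m : ℝ) ≤ x0
  · have : gp x0 b m = 1 := by simp [gp, h1]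
    rw [this]; exact hle n
  · have h2 : ¬ (n : ℝ) ≤ x0 := by intro h3; exact h1 (hmn'.trans h3)
    simp only [gp, h1, h2, if_false]
    push Not at h1
    refine Real.rpow_le_rpow_of_nonpos ?_ ?_ (by linarith)
    · have : 0 < (m : ℝ) := h.trans h1
      positivity
    · exact div_le_div_of_nonneg_right hmn' h.le

private theorem sup_rr_nonneg {b : ℝ} (h0 : 1 / 2 < b) (h1 : b < 1) : 0 ≤ rr b := by
  unfold rr
  have : 0 < Real.Gamma (2 - 2 * b) := Real.Gamma_pos_of_pos (by linarith)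
  exact div_nonneg (mul_nonneg (by linarith) (sq_nonneg _)) this.le

open MeasureTheory Set in
/-- the tail of the integer Pareto variable -/
private theorem sup_law {x0 b : ℝ} (hx : 0 < x0) (hb : 0 < b) (k : ℕ) :
    ((volume.restrict (Ioo (0 : ℝ) 1)) {v : ℝ | k < ⌈x0 * v ^ (-b⁻¹)⌉₊}).toReal = gp x0 b k := by
  have hset : {v : ℝ | k < ⌈x0 * v ^ (-b⁻¹)⌉₊} ∩ Ioo (0 : ℝ) 1 =
      Ioo (0 : ℝ) (if (k : ℝ) ≤ x0 then 1 else ((k : ℝ) / x0) ^ (-b)) := by
    ext v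
    simp only [Set.mem_inter_iff, Set.mem_ofPred_eq, Set.mem_Ioo, Nat.lt_ceil]
    split_ifs with h1
    · constructor
      · rintro ⟨_, h2⟩; exact h2
      · rintro ⟨h2, h3⟩
        refine ⟨?_, h2, h3⟩
        have h4 : 1 < v ^ (-b⁻¹) :=
          Real.one_lt_rpow_of_pos_of_lt_one_of_neg h2 h3 (by simpa using hb)
        calc (k : ℝ) ≤ x0 := h1
          _ = x0 * 1 := by ring
          _ < x0 * v ^ (-b⁻¹) := mul_lt_mul_of_pos_left h4 hx
    · push Not at h1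
      have hk : 0 < (k : ℝ) / x0 := div_pos (hx.trans h1) hx
      have hk1 : 1 < (k : ℝ) / x0 := (one_lt_div hx).2 h1
      have hlt : ((k : ℝ) / x0) ^ (-b) < 1 := Real.rpow_lt_one_of_one_lt_of_neg hk1 (by linarith)
      have key : ∀ v : ℝ, 0 < v → ((k : ℝ) < x0 * v ^ (-b⁻¹) ↔ v < ((k : ℝ) / x0) ^ (-b)) := by
        intro v hv
        have e1 : v = (v ^ (-b⁻¹)) ^ (-b) := by
          rw [← Real.rpow_mul hv.le]
          rw [show -b⁻¹ * -b = 1 by field_simp, Real.rpow_one]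
        have hvp : 0 < v ^ (-b⁻¹) := Real.rpow_pos_of_pos hv _
        rw [← div_lt_iff₀' hx]
        conv_rhs => rw [e1]
        rw [Real.rpow_lt_rpow_iff_of_neg hvp hk (by linarith)]
      constructor
      · rintro ⟨h2, h3, h4⟩
        exact ⟨h3, (key v h3).1 h2⟩
      · rintro ⟨h3, h4⟩
        exact ⟨(key v h3).2 h4, h3, h4.trans hlt⟩
  have hmeas : MeasurableSet {v : ℝ | k < ⌈x0 * v ^ (-b⁻¹)⌉₊} := by
    have : Measurable fun v : ℝ => ⌈x0 * v ^ (-b⁻¹)⌉₊ := by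
      refine Nat.measurable_ceil.comp ?_
      exact (measurable_id.pow_const _).const_mul _
    exact measurableSet_lt measurable_const this
  rw [Measure.restrict_apply hmeas, hset, Real.volume_Ioo, sub_zero, gp]
  rw [ENNReal.toReal_ofReal]
  split_ifs with h1
  · exact zero_le_one
  · exact Real.rpow_nonneg (by positivity) _

/-- the tail `gp x0 b` is the tail of `⌈x0 V^(-1/b)⌉`, `V` uniform on `(0, 1)` -/
theorem cv_gp {x0 b : ℝ} (hx : 1 ≤ x0) (h0 : 1 / 2 < b) (h1 : b < 1) (n : ℕ)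
    (hn : x0 + 2 ≤ n) :
    cv (gp x0 b) n ≤ 2 * (((n : ℝ) - 2) / x0) ^ (-b) + rr b * (((n : ℝ) - 2) / x0) ^ (-(2 * b)) := by
  classical
  have hx0 : 0 < x0 := by linarith
  have hb : 0 < b := by linarith
  let μ : MeasureTheory.Measure ℝ := MeasureTheory.volume.restrict (Set.Ioo (0 : ℝ) 1)
  have hμ : MeasureTheory.IsProbabilityMeasure μ := by
    constructor
    simp [μ]
  let Y : ℝ → ℕ := fun v => ⌈x0 * v ^ (-b⁻¹)⌉₊
  have hY : Measurable Y := by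
    refine Nat.measurable_ceil.comp ?_
    exact (measurable_id.pow_const _).const_mul _
  have h2 := cv_meas μ Y hY n
  have h3 : (fun k => (μ {a | k < Y a}).toReal) = gp x0 b := by
    funext k; exact sup_law hx0 hb k
  rw [h3] at h2
  have hxx : 1 ≤ ((n : ℝ) - 2) / x0 := by
    rw [one_le_div hx0]; linarith
  have h4 := pareto_sum h0 h1 hxx
  have h5 : (μ.prod μ) {q | n < Y q.1 + Y q.2} ≤ MeasureTheory.volume {q : ℝ × ℝ |
      q.1 ∈ Set.Ioo (0 : ℝ) 1 ∧ q.2 ∈ Set.Ioo (0 : ℝ) 1 ∧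
      ((n : ℝ) - 2) / x0 < q.1 ^ (-b⁻¹) + q.2 ^ (-b⁻¹)} := by
    have hmeas : MeasurableSet {q : ℝ × ℝ | n < Y q.1 + Y q.2} :=
      measurableSet_lt measurable_const
        ((hY.comp measurable_fst).add (hY.comp measurable_snd))
    have e : μ.prod μ = (MeasureTheory.volume : MeasureTheory.Measure (ℝ × ℝ)).restrict
        (Set.Ioo (0 : ℝ) 1 ×ˢ Set.Ioo (0 : ℝ) 1) := by
      rw [MeasureTheory.Measure.volume_eq_prod, ← MeasureTheory.Measure.prod_restrict]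
    rw [e, MeasureTheory.Measure.restrict_apply hmeas]
    refine MeasureTheory.measure_mono ?_
    rintro ⟨v, w⟩ ⟨hq, hv, hw⟩
    refine ⟨hv, hw, ?_⟩
    have hq' : (n : ℝ) < (Y v : ℝ) + (Y w : ℝ) := by exact_mod_cast hq
    have hv0 : 0 ≤ x0 * v ^ (-b⁻¹) :=
      mul_nonneg hx0.le (Real.rpow_nonneg (Set.mem_Ioo.1 hv).1.le _)
    have hw0 : 0 ≤ x0 * w ^ (-b⁻¹) :=
      mul_nonneg hx0.le (Real.rpow_nonneg (Set.mem_Ioo.1 hw).1.le _)
    have hcv : (Y v : ℝ) < x0 * v ^ (-b⁻¹) + 1 := Nat.ceil_lt_add_one hv0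
    have hcw : (Y w : ℝ) < x0 * w ^ (-b⁻¹) + 1 := Nat.ceil_lt_add_one hw0
    show ((n : ℝ) - 2) / x0 < v ^ (-b⁻¹) + w ^ (-b⁻¹)
    rw [div_lt_iff₀ hx0]
    nlinarith
  have h6 := (h2.symm.le.trans h5).trans h4
  have hR : 0 ≤ 2 * (((n : ℝ) - 2) / x0) ^ (-b) + rr b * (((n : ℝ) - 2) / x0) ^ (-(2 * b)) := by
    have hy : 0 ≤ ((n : ℝ) - 2) / x0 := by linarith
    exact add_nonneg (mul_nonneg (by norm_num) (Real.rpow_nonneg hy _))
      (mul_nonneg (sup_rr_nonneg h0 h1) (Real.rpow_nonneg hy _))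
  exact (ENNReal.ofReal_le_ofReal_iff hR).1 h6

private theorem sup_diff {b y s : ℝ} (hb0 : 1 / 2 < b) (hb1 : b < 1) (hy : 1 ≤ y) (hs : 0 ≤ s) :
    y ^ (-b) ≤ (y + s) ^ (-b) + s * y ^ (-(2 * b)) := by
  have hy0 : 0 < y := by linarith
  have hys : 0 < y + s := by linarith
  have h1 : 1 ≤ (y + s) / y := by rw [one_le_div hy0]; linarith
  have e1 : (y + s) ^ (-b) = y ^ (-b) * ((y + s) / y) ^ (-b) := by
    rw [← Real.mul_rpow hy0.le (by positivity)]
    congr 1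
    field_simp
  have h2 : ((y + s) / y) ^ (-1 : ℝ) ≤ ((y + s) / y) ^ (-b) :=
    Real.rpow_le_rpow_of_exponent_le h1 (by linarith)
  have h3 : 1 - s / y ≤ ((y + s) / y) ^ (-1 : ℝ) := by
    rw [Real.rpow_neg_one, inv_div, le_div_iff₀ hys]
    have : (1 - s / y) * (y + s) = y - s ^ 2 / y := by field_simp; ring
    rw [this]
    have : 0 ≤ s ^ 2 / y := by positivity
    linarith
  have hyb : 0 < y ^ (-b) := Real.rpow_pos_of_pos hy0 _
  have h4 : y ^ (-b) * (1 - s / y) ≤ (y + s) ^ (-b) := by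
    rw [e1]; exact mul_le_mul_of_nonneg_left (h3.trans h2) hyb.le
  have h5 : y ^ (-b) * (s / y) = s * y ^ (-b - 1) := by
    rw [Real.rpow_sub_one hy0.ne']; ring
  have h6 : y ^ (-b - 1) ≤ y ^ (-(2 * b)) :=
    Real.rpow_le_rpow_of_exponent_le hy (by linarith)
  have h7 : s * y ^ (-b - 1) ≤ s * y ^ (-(2 * b)) := mul_le_mul_of_nonneg_left h6 hs
  nlinarith [h4, h5, h7]

private theorem sup_ratio {b y h : ℝ} (hb0 : 1 / 2 < b) (hb1 : b < 1) (hy : 1 ≤ y)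
    (hh : 0 ≤ h) : (1 - 4 * h) * y ^ (-(2 * b)) ≤ (y + 2 * h) ^ (-(2 * b)) := by
  have hy0 : 0 < y := by linarith
  have h1 : 1 ≤ (y + 2 * h) / y := by rw [one_le_div hy0]; linarith
  have e1 : (y + 2 * h) ^ (-(2 * b)) = y ^ (-(2 * b)) * ((y + 2 * h) / y) ^ (-(2 * b)) := by
    rw [← Real.mul_rpow hy0.le (by positivity)]
    congr 1
    field_simp
  have h2 : ((y + 2 * h) / y) ^ (-2 : ℝ) ≤ ((y + 2 * h) / y) ^ (-(2 * b)) :=
    Real.rpow_le_rpow_of_exponent_le h1 (by linarith)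
  have h3 : (y + 2 * h) / y ≤ 1 + 2 * h := by
    rw [div_le_iff₀ hy0]; nlinarith
  have h4 : (1 + 2 * h) ^ (-2 : ℝ) ≤ ((y + 2 * h) / y) ^ (-2 : ℝ) :=
    Real.rpow_le_rpow_of_nonpos (by linarith) h3 (by norm_num)
  have h5 : 1 - 4 * h ≤ (1 + 2 * h) ^ (-2 : ℝ) := by
    rw [Real.rpow_neg (by linarith), show (2 : ℝ) = ((2 : ℕ) : ℝ) by norm_num, Real.rpow_natCast,
      ← one_div, le_div_iff₀ (by positivity)]
    push_cast
    nlinarith [mul_nonneg hh hh, mul_nonneg (mul_nonneg hh hh) hh]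
  have hyb : 0 < y ^ (-(2 * b)) := Real.rpow_pos_of_pos hy0 _
  rw [e1, mul_comm]
  exact mul_le_mul_of_nonneg_left (h5.trans (h4.trans h2)) hyb.le

theorem gp_super {p b : ℝ} (hp0 : 0 < p) (hp1 : p < 1) (h0 : 1 / 2 < b) (h1 : b < 1)
    (hr : rr b < (1 - p) / p) : ∃ x0 : ℝ, 3 ≤ x0 ∧ ∀ n, op p (gp x0 b) n ≤ gp x0 b (n + 1) := by
  set δ : ℝ := (1 - p) - p * rr b with hδ
  have hδ0 : 0 < δ := by
    rw [lt_div_iff₀ hp0] at hr
    rw [hδ]; nlinarith
  refine ⟨max 3 (10 / δ), le_max_left _ _, ?_⟩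
  set x0 : ℝ := max 3 (10 / δ) with hx0
  have hx3 : 3 ≤ x0 := le_max_left _ _
  have hxδ : 10 / δ ≤ x0 := le_max_right _ _
  have hxp : 0 < x0 := by linarith
  have hb : 0 < b := by linarith
  have ht := gp_isTail hxp hb
  intro n
  by_cases hc : 1 / 2 ≤ gp x0 b (n + 1)
  · exact (op_le_half hp0.le hp1.le ht n).trans hc
  push Not at hc
  -- now `(n + 1) / x0 > 2`
  have hn1 : ¬ ((n + 1 : ℕ) : ℝ) ≤ x0 := by
    intro h
    have : gp x0 b (n + 1) = 1 := by simp only [gp, h, if_true]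
    rw [this] at hc; norm_num at hc
  have hg1 : gp x0 b (n + 1) = (((n + 1 : ℕ) : ℝ) / x0) ^ (-b) := by simp only [gp, hn1, if_false]
  rw [hg1] at hc
  push Not at hn1
  have hz2 : 2 < ((n + 1 : ℕ) : ℝ) / x0 := by
    by_contra hcon
    push Not at hcon
    have hz1 : 1 ≤ ((n + 1 : ℕ) : ℝ) / x0 := (one_le_div hxp).2 hn1.le
    have h2 : (2 : ℝ) ^ (-b) ≤ (((n + 1 : ℕ) : ℝ) / x0) ^ (-b) :=
      Real.rpow_le_rpow_of_nonpos (by linarith) hcon (by linarith)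
    have h3 : (2 : ℝ) ^ (-1 : ℝ) ≤ (2 : ℝ) ^ (-b) :=
      Real.rpow_le_rpow_of_exponent_le (by norm_num) (by linarith)
    rw [Real.rpow_neg_one] at h3
    have : (2 : ℝ)⁻¹ = 1 / 2 := by norm_num
    linarith
  have hn2 : 2 * x0 < (n : ℝ) + 1 := by
    rw [lt_div_iff₀ hxp] at hz2
    push_cast at hz2; exact hz2
  have hnx : x0 + 2 ≤ (n : ℝ) := by linarith
  have hcv := cv_gp (by linarith : (1 : ℝ) ≤ x0) h0 h1 n hnx
  have hnx' : ¬ (n : ℝ) ≤ x0 := by push Not; linarith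
  have hg0 : gp x0 b n = ((n : ℝ) / x0) ^ (-b) := by simp only [gp, hnx', if_false]
  -- abbreviations
  set h : ℝ := 1 / x0 with hh
  have hh0 : 0 < h := by positivity
  have hh3 : h ≤ 1 / 3 := by
    rw [hh]; exact one_div_le_one_div_of_le (by norm_num) hx3
  have hhδ : 10 * h ≤ δ := by
    rw [hh]
    rw [div_le_iff₀ hδ0] at hxδ
    rw [mul_one_div, div_le_iff₀ hxp]; linarith
  set y : ℝ := ((n : ℝ) - 2) / x0 with hy
  have ex : (n : ℝ) / x0 = y + 2 * h := by rw [hy, hh]; field_simp; ring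
  have ez : ((n + 1 : ℕ) : ℝ) / x0 = y + 3 * h := by rw [hy, hh]; push_cast; field_simp; ring
  have hy1 : 1 ≤ y := by rw [ez] at hz2; linarith
  rw [hg1, op, hg0, ez, ex]
  have hA := sup_rr_nonneg h0 h1
  have d1 : y ^ (-b) ≤ (y + 3 * h) ^ (-b) + 3 * h * y ^ (-(2 * b)) :=
    sup_diff h0 h1 hy1 (by linarith)
  have d2 : (y + 2 * h) ^ (-b) ≤ (y + 3 * h) ^ (-b) + h * (y + 2 * h) ^ (-(2 * b)) := by
    have := sup_diff h0 h1 (y := y + 2 * h) (s := h) (by linarith) hh0.le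
    rwa [show y + 2 * h + h = y + 3 * h by ring] at this
  have d3 : (y + 2 * h) ^ (-(2 * b)) ≤ y ^ (-(2 * b)) :=
    Real.rpow_le_rpow_of_nonpos (by linarith) (by linarith) (by linarith)
  have d4 : (1 - 4 * h) * y ^ (-(2 * b)) ≤ (y + 2 * h) ^ (-(2 * b)) :=
    sup_ratio h0 h1 hy1 hh0.le
  have e5 : ((y + 2 * h) ^ (-b)) ^ 2 = (y + 2 * h) ^ (-(2 * b)) := by
    rw [← Real.rpow_natCast, ← Real.rpow_mul (by linarith)]
    congr 1; push_cast; ring
  rw [e5]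
  set Z := (y + 3 * h) ^ (-b)
  set X := (y + 2 * h) ^ (-b)
  set X2 := (y + 2 * h) ^ (-(2 * b))
  set Yb := y ^ (-b)
  set Y2 := y ^ (-(2 * b))
  have hY2 : 0 < Y2 := Real.rpow_pos_of_pos (by linarith) _
  have d2' : X ≤ Z + h * Y2 := d2.trans (by nlinarith)
  have s1 : p / 2 * cv (gp x0 b) n ≤ p / 2 * (2 * (Z + 3 * h * Y2) + rr b * Y2) := by
    refine mul_le_mul_of_nonneg_left (hcv.trans ?_) (by linarith)
    linarith
  have s2 : (1 - p) / 2 * (2 * X - X2) ≤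
      (1 - p) / 2 * (2 * (Z + h * Y2) - (1 - 4 * h) * Y2) :=
    mul_le_mul_of_nonneg_left (by linarith) (by linarith)
  have s3 : p / 2 * (2 * (Z + 3 * h * Y2) + rr b * Y2) +
      (1 - p) / 2 * (2 * (Z + h * Y2) - (1 - 4 * h) * Y2) =
      Z + Y2 * (3 * h * p + p * rr b / 2 + (1 - p) * h - (1 - p) / 2 + 2 * h * (1 - p)) := by ring
  have s4 : 3 * h * p + p * rr b / 2 + (1 - p) * h - (1 - p) / 2 + 2 * h * (1 - p) ≤ 0 := by
    have : 3 * h * p + p * rr b / 2 + (1 - p) * h - (1 - p) / 2 + 2 * h * (1 - p) =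
        3 * h - δ / 2 := by rw [hδ]; ring
    rw [this]; linarith
  have s5 : Y2 * (3 * h * p + p * rr b / 2 + (1 - p) * h - (1 - p) / 2 + 2 * h * (1 - p)) ≤ 0 :=
    mul_nonpos_of_nonneg_of_nonpos hY2.le s4
  linarith

/-- upper bound for the tail -/
theorem tail_upper {p b : ℝ} (hp0 : 0 < p) (hp1 : p < 1) (h0 : 1 / 2 < b) (h1 : b < 1)
    (hr : rr b < (1 - p) / p) : ∃ C : ℝ, 0 < C ∧ ∀ F : ℕ → ℝ, IsTail F →
      (∀ n, F (n + 1) ≤ op p F n) → ∀ n : ℕ, 1 ≤ n → F n ≤ C * (n : ℝ) ^ (-b) := by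
  obtain ⟨x0, hx3, hsup⟩ := gp_super hp0 hp1 h0 h1 hr
  have hxp : 0 < x0 := by linarith
  have hb : 0 < b := by linarith
  refine ⟨x0 ^ b, Real.rpow_pos_of_pos hxp b, ?_⟩
  intro F hF hrec n hn
  have ht := gp_isTail hxp hb
  have hcomp := comp hp0.le hp1.le hF ht (by
    intro m
    cases m with
    | zero =>
      left
      have : gp x0 b 0 = 1 := by simp [gp, hxp.le]
      rw [this]; exact hF.le_one 0
    | succ m => exact Or.inr ⟨m, hrec m, hsup m⟩)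
  refine (hcomp n).trans ?_
  have hn0 : (0 : ℝ) < n := by exact_mod_cast hn
  have e : x0 ^ b * (n : ℝ) ^ (-b) = ((n : ℝ) / x0) ^ (-b) := by
    rw [Real.div_rpow hn0.le hxp.le, Real.rpow_neg hxp.le, div_inv_eq_mul, mul_comm]
  rw [e, gp]
  split_ifs with h2
  · exact Real.one_le_rpow_of_pos_of_le_one_of_nonpos (by positivity)
      ((div_le_one hxp).2 h2) (by linarith)
  · exact le_rfl

end Pool.Agent.BSP
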