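import Pool.Agent.BSP.UCross

set_option autoImplicit false

/-!
# Excursions with a large tree
-/

namespace Pool.Agent.BSP

open MeasureTheory ProbabilityTheory
open scoped ENNReal

/-- a walk which starts at `0` has a finished positive excursion whose tree has `valZ > z` -/
def BadZ (z : ℕ) (l : List Pc) : Prop :=
  ∃ (l1 : List Pc) (x : Pc) (l2 : List Pc) (y : Pc) (l3 : List Pc) (t : Tr),
    l = l1 ++ x :: (l2 ++ y :: l3) ∧ pos 0 l1 - pD x ≤ 0 ∧ 0 < pos 0 l1 - pD x + pU x ∧
    (∀ it ∈ mins (pos 0 l1 - pD x + pU x) l2, 0 < it.1) ∧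
    pos (pos 0 l1 - pD x + pU x) l2 - pD y ≤ 0 ∧
    HasShape t (mins (pos 0 l1 - pD x + pU x) l2) ∧ z < t.valZ

/-! ### auxiliary facts -/

section aux

variable {α β γ : Type*} [MeasurableSpace α] [MeasurableSpace β] [MeasurableSpace γ]

private theorem ub_true {P : Prop} (h : P) : ind P = 1 := if_pos h

private theorem ub_false {P : Prop} (h : ¬ P) : ind P = 0 := if_neg h

private theorem ub_ms {Q : α → Prop} (h : Measurable fun a => ind (Q a)) :
    MeasurableSet {a | Q a} := by
  have e : {a | Q a} = (fun a => ind (Q a)) ⁻¹' {1} := by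
    ext a
    show Q a ↔ ind (Q a) = 1
    by_cases hQ : Q a
    · exact ⟨fun _ => ub_true hQ, fun _ => hQ⟩
    · exact ⟨fun h => absurd h hQ, fun h => by
        rw [ub_false hQ] at h; exact absurd h zero_ne_one⟩
  rw [e]
  exact h (measurableSet_singleton 1)

private theorem ub_mi {Q : α → Prop} (h : MeasurableSet {a | Q a}) :
    Measurable fun a => ind (Q a) := by
  classical
  exact Measurable.ite h measurable_const measurable_const

private theorem ub_sub {n : ℕ} (v : Fin n → α) (k j : ℕ) :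
    ((List.ofFn v).drop k).take j = List.ofFn (fun m : Fin (min j (n - k)) =>
      v ⟨k + m, by have := m.2; omega⟩) := by
  apply List.ext_getElem
  · simp
  · intro i h1 h2
    simp [List.getElem_take, List.getElem_drop]

private theorem ub_comp {F : γ → List α → β} (hF : MF2 F) {n : ℕ} {g : (Fin n → α) → γ}
    (hg : Measurable g) (k j : ℕ) :
    Measurable fun v : Fin n → α => F (g v) (((List.ofFn v).drop k).take j) := by
  have e : (fun v : Fin n → α => F (g v) (((List.ofFn v).drop k).take j)) =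
      (fun q : γ × (Fin (min j (n - k)) → α) => F q.1 (List.ofFn q.2)) ∘
        fun v => (g v, fun m : Fin (min j (n - k)) => v ⟨k + m, by have := m.2; omega⟩) := by
    funext v
    simp only [Function.comp_apply, ub_sub]
  rw [e]
  exact (hF _).comp (hg.prodMk (measurable_pi_lambda _ fun m => measurable_pi_apply _))

private theorem ub_getD {n : ℕ} (k : ℕ) (d0 : α) :
    Measurable fun v : Fin n → α => (List.ofFn v).getD k d0 := by
  by_cases hk : k < n
  · have e : (fun v : Fin n → α => (List.ofFn v).getD k d0) = fun v => v ⟨k, hk⟩ := by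
      funext v
      rw [List.getD_eq_getElem _ _ (by simpa using hk)]
      simp
    rw [e]
    exact measurable_pi_apply _
  · have e : (fun v : Fin n → α => (List.ofFn v).getD k d0) = fun _ => d0 := by
      funext v
      rw [List.getD_eq_default]
      simpa using Nat.le_of_not_lt hk
    rw [e]
    exact measurable_const

private theorem ub_lint {μ : Measure ℝ} [SFinite μ] {F : γ × ℝ → List α → ℝ≥0∞} (h : MF2 F) :
    MF2 fun (y : γ) l => ∫⁻ d, F (y, d) l ∂μ := by
  intro n
  have h1 : Measurable fun z : (γ × (Fin n → α)) × ℝ => F (z.1.1, z.2) (List.ofFn z.1.2) :=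
    (h n).comp ((measurable_fst.comp measurable_fst).prodMk measurable_snd |>.prodMk
      (measurable_snd.comp measurable_fst))
  exact h1.lintegral_prod_right'

private theorem ub_fix {F : γ → List α → β} (h : MF2 F) (l : List α) :
    Measurable fun y => F y l := by
  have h1 : (fun y => F y l) = (fun q : γ × (Fin l.length → α) => F q.1 (List.ofFn q.2)) ∘
      fun y => (y, fun i => l.get i) := by
    funext y
    simp
  rw [h1]
  exact (h l.length).comp (measurable_id.prodMk measurable_const)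

end aux

/-- the excursion which starts at height `h`, consists of `l` and ends with a step down by `d` -/
private def UC (z : ℕ) (h : ℝ) (l : List Pc) (d : ℝ) : Prop :=
  (∀ it ∈ mins h l, 0 < it.1) ∧ pos h l - d ≤ 0 ∧ ∃ t, HasShape t (mins h l) ∧ z < t.valZ

private theorem ub_UC_meas (z : ℕ) : MF2 fun (q : ℝ × ℝ) l => ind (UC z q.1 l q.2) := by
  intro n
  have h1 := ub_ms ((meas_above.comp_left (k := fun q : ℝ × ℝ => (q.1, (0 : ℝ)))
    (measurable_fst.prodMk measurable_const)) n)
  have h2 : MeasurableSet {q : (ℝ × ℝ) × (Fin n → Pc) | pos q.1.1 (List.ofFn q.2) - q.1.2 ≤ 0} :=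
    measurableSet_le (((meas_pos.comp_left (k := fun q : ℝ × ℝ => q.1) measurable_fst) n).sub
      (measurable_snd.comp measurable_fst)) measurable_const
  have h3 : MeasurableSet {q : (ℝ × ℝ) × (Fin n → Pc) |
      ∃ t : Tr, HasShape t (mins q.1.1 (List.ofFn q.2)) ∧ z < t.valZ} := by
    have e : {q : (ℝ × ℝ) × (Fin n → Pc) |
        ∃ t : Tr, HasShape t (mins q.1.1 (List.ofFn q.2)) ∧ z < t.valZ} =
        ⋃ t : Tr, ({q | HasShape t (mins q.1.1 (List.ofFn q.2))} ∩ {_q | z < t.valZ}) := by
      ext q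
      simp
    rw [e]
    refine MeasurableSet.iUnion fun t => MeasurableSet.inter ?_ (MeasurableSet.const _)
    exact ub_ms (((meas_shape t).comp_left (k := fun q : ℝ × ℝ => q.1) measurable_fst) n)
  exact ub_mi (h1.inter (h2.inter h3))

private def ubd0 : Pc := (0, 0, 0, true, true)

/-- the height after the upcrossing in the piece `i` -/
private noncomputable def ubH (i : ℕ) (l : List Pc) : ℝ :=
  pos 0 (l.take i) - pD (l.getD i ubd0) + pU (l.getD i ubd0)

private def UQ (z i j : ℕ) (l : List Pc) : Prop :=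
  i + 1 + j < l.length ∧ pos 0 (l.take i) - pD (l.getD i ubd0) ≤ 0 ∧ 0 < ubH i l ∧
    UC z (ubH i l) ((l.drop (i + 1)).take j) (pD (l.getD (i + 1 + j) ubd0))

private theorem ub_pos_meas (i n : ℕ) :
    Measurable fun v : Fin n → Pc => pos 0 ((List.ofFn v).take i) := by
  have h := ub_comp (F := fun (_ : Unit) l => pos 0 l)
    (meas_pos.comp_left (k := fun _ : Unit => (0 : ℝ)) measurable_const) (n := n)
    (g := fun _ => ()) measurable_const 0 i
  simpa using h

private theorem ub_pD : Measurable pD := by unfold pD; fun_prop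

private theorem ub_pU : Measurable pU := by unfold pU; fun_prop

private theorem ubH_meas (i n : ℕ) : Measurable fun v : Fin n → Pc => ubH i (List.ofFn v) :=
  ((ub_pos_meas i n).sub (ub_pD.comp (ub_getD i ubd0))).add (ub_pU.comp (ub_getD i ubd0))

private theorem ub_UQ_meas (z i j : ℕ) : MF fun l => ind (UQ z i j l) := by
  intro n
  apply ub_mi
  have h1 : MeasurableSet {v : Fin n → Pc |
      pos 0 ((List.ofFn v).take i) - pD ((List.ofFn v).getD i ubd0) ≤ 0} :=
    measurableSet_le ((ub_pos_meas i n).sub (ub_pD.comp (ub_getD i ubd0))) measurable_const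
  have h2 : MeasurableSet {v : Fin n → Pc | 0 < ubH i (List.ofFn v)} :=
    measurableSet_lt measurable_const (ubH_meas i n)
  have h3 : MeasurableSet {v : Fin n → Pc | UC z (ubH i (List.ofFn v))
      (((List.ofFn v).drop (i + 1)).take j) (pD ((List.ofFn v).getD (i + 1 + j) ubd0))} :=
    ub_ms (ub_comp (F := fun (q : ℝ × ℝ) l => ind (UC z q.1 l q.2)) (ub_UC_meas z)
      (g := fun v : Fin n → Pc => (ubH i (List.ofFn v), pD ((List.ofFn v).getD (i + 1 + j) ubd0)))
      ((ubH_meas i n).prodMk (ub_pD.comp (ub_getD (i + 1 + j) ubd0))) (i + 1) j)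
  have h0 : MeasurableSet {v : Fin n → Pc | i + 1 + j < (List.ofFn v).length} := by
    simp only [List.length_ofFn]
    exact MeasurableSet.const _
  exact h0.inter (h1.inter (h2.inter h3))

private theorem UQ_append {z : ℕ} {l1 l2 l3 : List Pc} {x y : Pc} :
    UQ z l1.length l2.length (l1 ++ x :: (l2 ++ y :: l3)) ↔
      pos 0 l1 - pD x ≤ 0 ∧ 0 < pos 0 l1 - pD x + pU x ∧
        UC z (pos 0 l1 - pD x + pU x) l2 (pD y) := by
  have e1 : (l1 ++ x :: (l2 ++ y :: l3)).take l1.length = l1 := List.take_left' rfl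
  have e2 : (l1 ++ x :: (l2 ++ y :: l3)).getD l1.length ubd0 = x := by
    rw [List.getD_eq_getElem _ _ (by simp)]
    simp
  have e3 : (l1 ++ x :: (l2 ++ y :: l3)).drop (l1.length + 1) = l2 ++ y :: l3 := by
    have : l1 ++ x :: (l2 ++ y :: l3) = (l1 ++ [x]) ++ (l2 ++ y :: l3) := by simp
    rw [this]
    exact List.drop_left' (by simp)
  have e4 : (l1 ++ x :: (l2 ++ y :: l3)).getD (l1.length + 1 + l2.length) ubd0 = y := by
    have : l1 ++ x :: (l2 ++ y :: l3) = (l1 ++ x :: l2) ++ y :: l3 := by simp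
    have e : l1.length + 1 + l2.length = (l1 ++ x :: l2).length := by simp; omega
    rw [this, e, List.getD_eq_getElem _ _ (by simp), List.getElem_append_right le_rfl]
    simp
  unfold UQ ubH
  rw [e1, e2, e3, e4, List.take_left' rfl]
  constructor
  · rintro ⟨_, h⟩
    exact h
  · intro h
    refine ⟨?_, h⟩
    simp only [List.length_append, List.length_cons]
    omega

private theorem badZ_iff {z : ℕ} {l : List Pc} : BadZ z l ↔ ∃ i j, UQ z i j l := by
  constructor
  · rintro ⟨l1, x, l2, y, l3, t, rfl, h1, h2, h3, h4, h5, h6⟩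
    exact ⟨l1.length, l2.length, UQ_append.2 ⟨h1, h2, h3, h4, t, h5, h6⟩⟩
  · rintro ⟨i, j, h⟩
    have hlen := h.1
    have hi : i < l.length := by omega
    have e1 : l = l.take i ++ l[i] :: l.drop (i + 1) := by
      rw [List.cons_getElem_drop_succ, List.take_append_drop]
    have hj : j < (l.drop (i + 1)).length := by rw [List.length_drop]; omega
    have e2 : l.drop (i + 1) = (l.drop (i + 1)).take j ++
        (l.drop (i + 1))[j] :: (l.drop (i + 1)).drop (j + 1) := by
      rw [List.cons_getElem_drop_succ, List.take_append_drop]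
    obtain ⟨l1, hl1⟩ : ∃ l1, l1 = l.take i := ⟨_, rfl⟩
    obtain ⟨l2, hl2⟩ : ∃ l2, l2 = (l.drop (i + 1)).take j := ⟨_, rfl⟩
    obtain ⟨l3, hl3⟩ : ∃ l3, l3 = (l.drop (i + 1)).drop (j + 1) := ⟨_, rfl⟩
    obtain ⟨x, hx⟩ : ∃ x, x = l[i] := ⟨_, rfl⟩
    obtain ⟨y, hy⟩ : ∃ y, y = (l.drop (i + 1))[j] := ⟨_, rfl⟩
    have n1 : l1.length = i := by rw [hl1, List.length_take]; omega
    have n2 : l2.length = j := by rw [hl2, List.length_take]; omega
    rw [← hl2, ← hl3, ← hy] at e2
    rw [← hl1, ← hx, e2] at e1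
    rw [e1, ← n1, ← n2] at h
    obtain ⟨h1, h2, h3, h4, t, h5, h6⟩ := UQ_append.1 h
    exact ⟨l1, _, l2, _, _, t, e1, h1, h2, h3, h4, h5, h6⟩

theorem meas_badZ (z : ℕ) : MF fun l => ind (BadZ z l) := by
  intro n
  apply ub_mi
  have e : {v : Fin n → Pc | BadZ z (List.ofFn v)} =
      ⋃ i : ℕ, ⋃ j : ℕ, {v | UQ z i j (List.ofFn v)} := by
    ext v
    simp only [Set.mem_ofPred_eq, badZ_iff, Set.mem_iUnion]
  rw [e]
  exact MeasurableSet.iUnion fun i => MeasurableSet.iUnion fun j => ub_ms (ub_UQ_meas z i j n)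

/-- one excursion, all lengths together -/
theorem bad_one {p θ : ℝ} (hp0 : 0 ≤ p) (hp1 : p ≤ 1) (hθ : 0 < θ) {ρ : Measure Pc}
    (hρ : PLaw p 1 θ ρ) (z : ℕ) :
    ∑' n : ℕ, gwInt θ ρ n (fun u l d => ind ((∀ it ∈ mins u l, 0 < it.1) ∧ pos u l - d ≤ 0 ∧
      ∃ t, HasShape t (mins u l) ∧ z < t.valZ)) ≤ ENNReal.ofReal (FZ p z) := by
  have hna : ∀ a : ℝ, expMeasure θ {a} = 0 := by
    intro a
    have h3 : expMeasure θ = volume.withDensity (exponentialPDF θ) := rfl
    rw [h3]
    exact withDensity_absolutelyContinuous _ _ Real.volume_singleton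
  have h1 : ∀ n, gwInt θ ρ n (fun u l d => ind ((∀ it ∈ mins u l, 0 < it.1) ∧ pos u l - d ≤ 0 ∧
      ∃ t, HasShape t (mins u l) ∧ z < t.valZ)) =
      ∑' t : Tr, (if t.size = n then t.w p 1 else 0) * ind (z < t.valZ) := by
    intro n
    rw [← fpass_shape hp0 hp1 zero_le_one le_rfl hθ hρ n (fun t => z < t.valZ)]
    unfold gwInt
    refine lintegral_congr fun u => LI_congr ρ fun l _ => lintegral_congr_ae ?_
    have h2 : ∀ᵐ d ∂(expMeasure θ), d ≠ pos u l := by
      rw [ae_iff]
      have : {a : ℝ | ¬ a ≠ pos u l} = {pos u l} := by ext; simp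
      rw [this]; exact hna _
    filter_upwards [h2] with d hd
    congr 1
    apply propext
    unfold Exc
    constructor
    · rintro ⟨ha, hb, hc⟩
      refine ⟨⟨ha, ?_⟩, hc⟩
      rw [neg_zero]
      rcases hb.lt_or_eq with h | h
      · exact h
      · exact absurd (by linarith) hd
    · rintro ⟨⟨ha, hb⟩, hc⟩
      rw [neg_zero] at hb
      exact ⟨ha, hb.le, hc⟩
  simp only [h1]
  rw [ENNReal.tsum_comm]
  have h4 : ∀ t : Tr, ∑' n : ℕ, (if t.size = n then t.w p 1 else 0) * ind (z < t.valZ) =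
      if z < t.valZ then t.w p 1 else 0 := by
    intro t
    rw [tsum_eq_single t.size]
    · rw [if_pos rfl]
      by_cases h : z < t.valZ
      · rw [ub_true h, if_pos h, mul_one]
      · rw [ub_false h, if_neg h, mul_zero]
    · intro n hn
      rw [if_neg (fun h => hn h.symm), zero_mul]
  simp only [h4]
  have hfin : (∑' t : Tr, if z < t.valZ then t.w p 1 else 0) ≠ ∞ := by
    apply ne_top_of_le_ne_top ENNReal.one_ne_top
    rw [← sum_w hp0 hp1 zero_le_one le_rfl (g := 1)]
    apply ENNReal.tsum_le_tsum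
    intro t
    split_ifs
    · exact le_rfl
    · exact bot_le
  rw [FZ, ENNReal.ofReal_toReal hfin]

theorem bad_prob {p θ : ℝ} (hp0 : 0 ≤ p) (hp1 : p ≤ 1) (hθ : 0 < θ) {ρ : Measure Pc}
    (hρ : PLaw p 1 θ ρ) (z m : ℕ) :
    LI ρ m (fun l => ind (BadZ z l)) ≤ ENNReal.ofReal (√m * FZ p z) := by
  haveI := hρ.prob
  haveI : IsProbabilityMeasure (expMeasure θ) := isProbabilityMeasure_expMeasure hθ
  have hpD : ρ.map pD = expMeasure θ := by
    have h2 : (ρ.map (fun x => (pD x, pU x))).map Prod.fst = expMeasure θ := by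
      rw [hρ.DU, Measure.map_fst_prod]
      simp
    rw [Measure.map_map measurable_fst (ub_pD.prodMk ub_pU)] at h2
    exact h2
  -- the contribution of one length
  set gj : ℕ → ℝ → ℝ≥0∞ := fun j u => LI ρ j (fun l => ∫⁻ d, ind (UC z u l d) ∂(expMeasure θ))
    with hgj
  have hgm : ∀ j, Measurable (gj j) := fun j =>
    (ub_lint (μ := expMeasure θ) (F := fun (q : ℝ × ℝ) l => ind (UC z q.1 l q.2))
      (ub_UC_meas z)).meas_LI ρ j
  set a : ℕ → ℝ≥0∞ := fun i =>
    LI ρ i (fun l => ENNReal.ofReal (Real.exp (-(θ * |pos 0 l|)) / 2)) with ha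
  set I : ℕ → ℝ≥0∞ := fun j => ∫⁻ u, gj j u ∂(expMeasure θ) with hI
  have hIsum : ∑' j, I j ≤ ENNReal.ofReal (FZ p z) := bad_one hp0 hp1 hθ hρ z
  have hone : ∀ i j, LI ρ m (fun l => ind (UQ z i j l)) ≤ if i < m then a i * I j else 0 := by
    intro i j
    by_cases hij : i + 1 + j < m
    · rw [if_pos (by omega)]
      obtain ⟨k, hk⟩ : ∃ k, m = i + ((j + (k + 1)) + 1) := ⟨m - (i + 1 + j) - 1, by omega⟩
      rw [hk, LI_append]
      have hstep : ∀ l1 : List Pc, l1.length = i →
          LI ρ (j + (k + 1) + 1) (fun l' => ind (UQ z i j (l1 ++ l'))) =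
            ENNReal.ofReal (Real.exp (-(θ * |pos 0 l1|)) / 2) * I j := by
        intro l1 hl1
        rw [hI]
        simp only []
        rw [← up_cross hθ hρ (pos 0 l1) (hgm j)]
        show (∫⁻ x, LI ρ (j + (k + 1)) (fun l' => ind (UQ z i j (l1 ++ x :: l'))) ∂ρ) = _
        refine lintegral_congr fun x => ?_
        rw [LI_append]
        by_cases hc : pos 0 l1 - pD x ≤ 0 ∧ 0 < pos 0 l1 - pD x + pU x
        · rw [if_pos hc, hgj]
          refine LI_congr ρ fun l2 hl2 => ?_
          show (∫⁻ y, LI ρ k (fun l3 => ind (UQ z i j (l1 ++ x :: (l2 ++ y :: l3)))) ∂ρ) = _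
          have h5 : ∀ y : Pc, LI ρ k (fun l3 => ind (UQ z i j (l1 ++ x :: (l2 ++ y :: l3)))) =
              ind (UC z (pos 0 l1 - pD x + pU x) l2 (pD y)) := by
            intro y
            rw [← LI_const ρ k (ind (UC z (pos 0 l1 - pD x + pU x) l2 (pD y)))]
            refine LI_congr ρ fun l3 _ => ?_
            congr 1
            apply propext
            rw [← hl1, ← hl2, UQ_append]
            exact ⟨fun h => h.2.2, fun h => ⟨hc.1, hc.2, h⟩⟩
          simp only [h5]
          have hm : Measurable fun d : ℝ => ind (UC z (pos 0 l1 - pD x + pU x) l2 d) :=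
            ub_fix ((ub_UC_meas z).comp_left (k := fun d : ℝ => (pos 0 l1 - pD x + pU x, d))
              (measurable_const.prodMk measurable_id)) l2
          rw [← hpD, lintegral_map hm ub_pD]
        · rw [if_neg hc]
          rw [← LI_const ρ j 0]
          refine LI_congr ρ fun l2 hl2 => ?_
          rw [← LI_const ρ (k + 1) 0]
          refine LI_congr ρ fun l' hl' => ?_
          obtain ⟨y, l3, rfl⟩ : ∃ y l3, l' = y :: l3 := by
            cases l' with
            | nil => simp at hl'
            | cons y l3 => exact ⟨y, l3, rfl⟩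
          refine ub_false ?_
          rw [← hl1, ← hl2, UQ_append]
          exact fun h => hc ⟨h.1, h.2.1⟩
      rw [LI_congr ρ hstep]
      have hcm : MF fun l : List Pc => ENNReal.ofReal (Real.exp (-(θ * |pos 0 l|)) / 2) := by
        have h6 : MF fun l : List Pc => pos 0 l := meas_pos.mf 0
        intro n
        have := h6 n
        fun_prop
      have h7 : (fun l : List Pc => ENNReal.ofReal (Real.exp (-(θ * |pos 0 l|)) / 2) * I j) =
          fun l => I j * ENNReal.ofReal (Real.exp (-(θ * |pos 0 l|)) / 2) := by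
        funext l; rw [mul_comm]
      rw [h7, LI_const_mul ρ (I j) hcm, mul_comm]
    · have h0 : LI ρ m (fun l => ind (UQ z i j l)) = 0 := by
        rw [← LI_const ρ m 0]
        refine LI_congr ρ fun l hl => ub_false fun h => hij ?_
        rw [← hl]; exact h.1
      rw [h0]
      exact zero_le
  calc LI ρ m (fun l => ind (BadZ z l))
      ≤ LI ρ m (fun l => ∑' q : ℕ × ℕ, ind (UQ z q.1 q.2 l)) := by
        refine LI_mono ρ fun l _ => ?_
        by_cases h : BadZ z l
        · obtain ⟨i, j, hij⟩ := badZ_iff.1 h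
          rw [ub_true h]
          calc (1 : ℝ≥0∞) = ind (UQ z (i, j).1 (i, j).2 l) := (ub_true hij).symm
            _ ≤ ∑' q : ℕ × ℕ, ind (UQ z q.1 q.2 l) :=
              ENNReal.le_tsum (f := fun q : ℕ × ℕ => ind (UQ z q.1 q.2 l)) (i, j)
        · rw [ub_false h]
          exact zero_le
    _ = ∑' q : ℕ × ℕ, LI ρ m (fun l => ind (UQ z q.1 q.2 l)) :=
        LI_tsum ρ fun q => ub_UQ_meas z q.1 q.2
    _ = ∑' i, ∑' j, LI ρ m (fun l => ind (UQ z i j l)) :=
        ENNReal.tsum_prod (f := fun i j => LI ρ m (fun l => ind (UQ z i j l)))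
    _ ≤ ∑' i, ∑' j, (if i < m then a i * I j else 0) :=
        ENNReal.tsum_le_tsum fun i => ENNReal.tsum_le_tsum fun j => hone i j
    _ = ∑' i, (if i < m then a i else 0) * ∑' j, I j := by
        refine tsum_congr fun i => ?_
        by_cases h : i < m
        · simp only [if_pos h, ENNReal.tsum_mul_left]
        · simp only [if_neg h, zero_mul, tsum_zero]
    _ = (∑ i ∈ Finset.range m, a i) * ∑' j, I j := by
        rw [ENNReal.tsum_mul_right]
        congr 1
        rw [tsum_eq_sum (s := Finset.range m)]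
        · exact Finset.sum_congr rfl fun i hi => if_pos (Finset.mem_range.1 hi)
        · intro i hi
          exact if_neg fun h => hi (Finset.mem_range.2 h)
    _ ≤ ENNReal.ofReal √m * ENNReal.ofReal (FZ p z) :=
        mul_le_mul' (cross_sum hθ hρ m) hIsum
    _ = ENNReal.ofReal (√m * FZ p z) := (ENNReal.ofReal_mul (Real.sqrt_nonneg _)).symm

end Pool.Agent.BSP
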