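import Pool.Agent.BSP.LIx
import Pool.Agent.BSP.FirstPass

set_option autoImplicit false

/-!
# Number of upcrossings of zero of a walk with two-sided exponential steps
-/

namespace Pool.Agent.BSP

open MeasureTheory ProbabilityTheory
open scoped ENNReal

variable {p g : ℝ} {θ : ℝ} {ρ : Measure Pc}

/-! ### integrals over the exponential law -/

private theorem uc_meas_pdf (θ : ℝ) : Measurable (exponentialPDF θ) :=
  (measurable_exponentialPDFReal θ).ennreal_ofReal

/-- integral of a function over the exponential law as an integral over `(0, ∞)` -/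
private theorem uc_dens {F : ℝ → ℝ≥0∞} (hF : Measurable F) :
    ∫⁻ u, F u ∂(expMeasure θ) =
      ∫⁻ u in Set.Ioi 0, ENNReal.ofReal (θ * Real.exp (-(θ * u))) * F u := by
  have h1 : expMeasure θ = volume.withDensity (exponentialPDF θ) := rfl
  rw [h1, lintegral_withDensity_eq_lintegral_mul _ (uc_meas_pdf θ) hF,
    ← lintegral_indicator measurableSet_Ioi]
  have h0 : ∀ᵐ v : ℝ, v ≠ 0 := by
    rw [ae_iff]
    simp
  refine lintegral_congr_ae ?_
  filter_upwards [h0] with v hv
  simp only [Pi.mul_apply]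
  rcases lt_or_gt_of_ne hv with h | h
  · rw [exponentialPDF_of_neg h, Set.indicator_of_notMem (s := Set.Ioi (0 : ℝ))
      (fun hh => absurd hh (not_lt.2 h.le)), zero_mul]
  · rw [exponentialPDF_of_nonneg h.le, Set.indicator_of_mem (show v ∈ Set.Ioi (0 : ℝ) from h)]

/-- integral over the exponential law by an antiderivative -/
private theorem uc_int {f F : ℝ → ℝ} (hθ : 0 < θ) (hfc : Continuous f) (hf : ∀ u, 0 < u → 0 ≤ f u)
    (hF : ∀ u, HasDerivAt F (θ * Real.exp (-(θ * u)) * f u) u)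
    (hlim : Filter.Tendsto F Filter.atTop (nhds 0)) :
    ∫⁻ u, ENNReal.ofReal (f u) ∂(expMeasure θ) = ENNReal.ofReal (-F 0) := by
  have hm : Measurable (fun u => ENNReal.ofReal (f u)) :=
    ENNReal.measurable_ofReal.comp hfc.measurable
  rw [uc_dens hm]
  have h1 : ∀ u : ℝ, ENNReal.ofReal (θ * Real.exp (-(θ * u))) * ENNReal.ofReal (f u) =
      ENNReal.ofReal (θ * Real.exp (-(θ * u)) * f u) := by
    intro u
    rw [← ENNReal.ofReal_mul (by positivity)]
  simp only [h1]
  have hnn : ∀ u ∈ Set.Ioi (0 : ℝ), 0 ≤ θ * Real.exp (-(θ * u)) * f u := by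
    intro u hu
    have := hf u hu
    positivity
  have hint : IntegrableOn (fun u => θ * Real.exp (-(θ * u)) * f u) (Set.Ioi 0) :=
    integrableOn_Ioi_deriv_of_nonneg' (fun u _ => hF u) hnn hlim
  rw [← ofReal_integral_eq_lintegral_ofReal hint
    ((ae_restrict_iff' measurableSet_Ioi).2 (Filter.Eventually.of_forall hnn))]
  rw [integral_Ioi_of_hasDerivAt_of_tendsto' (fun u _ => hF u) hint hlim]
  rw [zero_sub]

private theorem uc_lim_exp (hθ : 0 < θ) (n : ℕ) :
    Filter.Tendsto (fun u : ℝ => u ^ n * Real.exp (-(θ * u))) Filter.atTop (nhds 0) := by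
  have h := Real.tendsto_pow_mul_exp_neg_atTop_nhds_zero n
  have h2 : Filter.Tendsto (fun u : ℝ => θ * u) Filter.atTop Filter.atTop :=
    Filter.tendsto_id.const_mul_atTop hθ
  have h3 := (h.comp h2).const_mul ((1 / θ) ^ n)
  rw [mul_zero] at h3
  refine h3.congr fun u => ?_
  simp only [Function.comp]
  rw [mul_pow, ← mul_assoc, ← mul_assoc, ← mul_pow, one_div, inv_mul_cancel₀ hθ.ne', one_pow,
    one_mul]

private theorem uc_dexp (θ u : ℝ) : HasDerivAt (fun u : ℝ => Real.exp (-(θ * u)))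
    (-θ * Real.exp (-(θ * u))) u := by
  have h1 : HasDerivAt (fun u : ℝ => -(θ * u)) (-(θ * 1)) u :=
    ((hasDerivAt_id u).const_mul θ).neg
  have h2 := h1.exp
  convert! h2 using 1
  ring

/-- mean -/
private theorem uc_m1 (hθ : 0 < θ) :
    ∫⁻ u, ENNReal.ofReal u ∂(expMeasure θ) = ENNReal.ofReal (1 / θ) := by
  rw [uc_int (f := fun u => u) (F := fun u => -(Real.exp (-(θ * u)) * (u + 1 / θ))) hθ
    (by fun_prop) (fun u hu => hu.le)]
  · simp
  · intro u
    have h := ((uc_dexp θ u).mul ((hasDerivAt_id u).add_const (1 / θ))).neg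
    convert! h using 1
    simp only [id]
    field_simp
    ring
  · have h1 := (uc_lim_exp hθ 1).add ((uc_lim_exp hθ 0).const_mul (1 / θ))
    have h2 := h1.neg
    simp only [mul_zero, add_zero, neg_zero] at h2
    refine h2.congr fun u => ?_
    ring

/-- second moment about a point -/
private theorem uc_m2 (hθ : 0 < θ) (c : ℝ) :
    ∫⁻ u, ENNReal.ofReal ((c + u) ^ 2) ∂(expMeasure θ) =
      ENNReal.ofReal ((c + 1 / θ) ^ 2 + 1 / θ ^ 2) := by
  rw [uc_int (F := fun u => -(Real.exp (-(θ * u)) * ((c + u) ^ 2 + 2 * (c + u) / θ + 2 / θ ^ 2)))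
    hθ (by fun_prop) (fun u _ => sq_nonneg _)]
  · congr 1
    simp only [mul_zero, neg_zero, Real.exp_zero, add_zero, one_mul, neg_neg]
    field_simp
    ring
  · intro u
    have h1 : HasDerivAt (fun u : ℝ => (c + u) ^ 2 + 2 * (c + u) / θ + 2 / θ ^ 2)
        (2 * (c + u) + 2 / θ) u := by
      have h2 : HasDerivAt (fun u : ℝ => c + u) 1 u := (hasDerivAt_id u).const_add c
      have h3 := ((h2.pow 2).add ((h2.const_mul 2).div_const θ)).add_const (2 / θ ^ 2)
      convert! h3 using 1
      simp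
    have h := ((uc_dexp θ u).mul h1).neg
    convert! h using 1
    field_simp
    ring
  · have h1 := ((uc_lim_exp hθ 2).add ((uc_lim_exp hθ 1).const_mul (2 * c + 2 / θ))).add
      ((uc_lim_exp hθ 0).const_mul (c ^ 2 + 2 * c / θ + 2 / θ ^ 2))
    have h2 := h1.neg
    simp only [mul_zero, add_zero, neg_zero] at h2
    refine h2.congr fun u => ?_
    ring

/-- Laplace transform at `θ` -/
private theorem uc_half (hθ : 0 < θ) :
    ∫⁻ u, ENNReal.ofReal (Real.exp (-(θ * u))) ∂(expMeasure θ) = ENNReal.ofReal (1 / 2) := by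
  rw [uc_int (F := fun u => -(Real.exp (-(θ * u)) * Real.exp (-(θ * u)) / 2)) hθ (by fun_prop)
    (fun u _ => (Real.exp_pos _).le)]
  · simp
  · intro u
    have h := (((uc_dexp θ u).mul (uc_dexp θ u)).div_const 2).neg
    convert! h using 1
    ring
  · have h1 := uc_lim_exp hθ 0
    simp only [pow_zero, one_mul] at h1
    have h2 := ((h1.mul h1).div_const 2).neg
    simpa using h2

/-- the part below `s` -/
private theorem uc_below (hθ : 0 < θ) {s : ℝ} (hs : 0 ≤ s) :
    ∫⁻ d, (if d < s then ENNReal.ofReal (s - d + 1 / θ) else 0) ∂(expMeasure θ) =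
      ENNReal.ofReal s := by
  have hm : Measurable (fun d : ℝ => if d < s then ENNReal.ofReal (s - d + 1 / θ) else 0) :=
    Measurable.ite measurableSet_Iio (by fun_prop) measurable_const
  rw [uc_dens hm]
  have h1 : ∀ d : ℝ, ENNReal.ofReal (θ * Real.exp (-(θ * d))) *
      (if d < s then ENNReal.ofReal (s - d + 1 / θ) else 0) =
      (Set.Iio s).indicator
        (fun d => ENNReal.ofReal (θ * Real.exp (-(θ * d)) * (s - d + 1 / θ))) d := by
    intro d
    by_cases h : d < s
    · rw [if_pos h, Set.indicator_of_mem (show d ∈ Set.Iio s from h),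
        ← ENNReal.ofReal_mul (by positivity)]
    · rw [if_neg h, Set.indicator_of_notMem (s := Set.Iio s) (fun hh => h hh), mul_zero]
  simp only [h1]
  rw [lintegral_indicator measurableSet_Iio, Measure.restrict_restrict measurableSet_Iio,
    Set.inter_comm, Set.Ioi_inter_Iio, restrict_Ioo_eq_restrict_Ioc]
  have hcont : Continuous fun d : ℝ => θ * Real.exp (-(θ * d)) * (s - d + 1 / θ) := by fun_prop
  rw [← ofReal_integral_eq_lintegral_ofReal]
  · rw [← intervalIntegral.integral_of_le hs]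
    congr 1
    have hF : ∀ d ∈ Set.uIcc 0 s, HasDerivAt (fun d : ℝ => -(Real.exp (-(θ * d)) * (s - d)))
        (θ * Real.exp (-(θ * d)) * (s - d + 1 / θ)) d := by
      intro d _
      have h := ((uc_dexp θ d).mul ((hasDerivAt_id d).const_sub s)).neg
      convert! h using 1
      simp only [id]
      field_simp
      ring
    rw [intervalIntegral.integral_eq_sub_of_hasDerivAt hF (hcont.intervalIntegrable _ _)]
    simp
  · exact hcont.integrableOn_Ioc
  · rw [Filter.EventuallyLE, ae_restrict_iff' measurableSet_Ioc]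
    refine Filter.Eventually.of_forall fun d hd => ?_
    have h2 : 0 ≤ s - d + 1 / θ := by
      have : 0 < 1 / θ := by positivity
      linarith [hd.2]
    simp only [Pi.zero_apply]
    positivity

/-- the two factors of the law -/
private theorem uc_DU (hθ : 0 < θ) (hρ : PLaw p g θ ρ) {F : ℝ → ℝ → ℝ≥0∞}
    (hF : Measurable fun q : ℝ × ℝ => F q.1 q.2) :
    ∫⁻ x, F (pD x) (pU x) ∂ρ = ∫⁻ d, ∫⁻ u, F d u ∂(expMeasure θ) ∂(expMeasure θ) := by
  have := isProbabilityMeasure_expMeasure hθ
  have h1 : ∫⁻ x, F (pD x) (pU x) ∂ρ =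
      ∫⁻ q, F q.1 q.2 ∂(ρ.map (fun x => (pD x, pU x))) := by
    rw [lintegral_map hF (by unfold pD pU; fun_prop)]
  rw [h1, hρ.DU, lintegral_prod _ hF.aemeasurable]

/-- the two factors of the law, other order -/
private theorem uc_UD (hθ : 0 < θ) (hρ : PLaw p g θ ρ) {F : ℝ → ℝ → ℝ≥0∞}
    (hF : Measurable fun q : ℝ × ℝ => F q.1 q.2) :
    ∫⁻ x, F (pD x) (pU x) ∂ρ = ∫⁻ u, ∫⁻ d, F d u ∂(expMeasure θ) ∂(expMeasure θ) := by
  have := isProbabilityMeasure_expMeasure hθ
  rw [uc_DU hθ hρ hF, lintegral_lintegral_swap hF.aemeasurable]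

/-- the mass of the upcrossings, outer integral -/
private theorem uc_outer (hθ : 0 < θ) (s : ℝ) :
    ∫⁻ d, (if s - d ≤ 0 then ENNReal.ofReal (Real.exp (-(θ * (d - s)))) else 0) ∂(expMeasure θ) =
      ENNReal.ofReal (Real.exp (-(θ * |s|)) / 2) := by
  rcases le_or_gt s 0 with hs | hs
  · have h1 : ∫⁻ d, (if s - d ≤ 0 then ENNReal.ofReal (Real.exp (-(θ * (d - s)))) else 0)
        ∂(expMeasure θ) = ∫⁻ d, ENNReal.ofReal (Real.exp (-(θ * |s|))) *
          ENNReal.ofReal (Real.exp (-(θ * d))) ∂(expMeasure θ) := by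
      refine lintegral_congr_ae ?_
      filter_upwards [exp_pos_ae hθ] with d hd
      rw [if_pos (by linarith), ← ENNReal.ofReal_mul (Real.exp_pos _).le, ← Real.exp_add,
        abs_of_nonpos hs]
      congr 2
      ring
    rw [h1, lintegral_const_mul _ (by fun_prop), uc_half hθ,
      ← ENNReal.ofReal_mul (Real.exp_pos _).le]
    congr 1
    ring
  · have h1 : ∫⁻ d, (if s - d ≤ 0 then ENNReal.ofReal (Real.exp (-(θ * (d - s)))) else 0)
        ∂(expMeasure θ) = ∫⁻ d, (if s < d then
          (fun v : ℝ => ENNReal.ofReal (Real.exp (-(θ * v)))) (d - s) else 0) ∂(expMeasure θ) := by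
      have h0 : ∀ᵐ d ∂(expMeasure θ), d ≠ s := by
        have h2 : expMeasure θ = volume.withDensity (exponentialPDF θ) := rfl
        rw [h2]
        have h3 : ∀ᵐ d : ℝ, d ≠ s := by
          rw [ae_iff]
          simp
        exact (withDensity_absolutelyContinuous _ _).ae_le h3
      refine lintegral_congr_ae ?_
      filter_upwards [h0] with d hd
      by_cases h3 : s < d
      · rw [if_pos (by linarith), if_pos h3]
      · have h4 : d < s := lt_of_le_of_ne (not_lt.1 h3) hd
        rw [if_neg (by linarith), if_neg h3]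
    have h5 := lintegral_exp_shift hθ hs.le
      (F := fun v : ℝ => ENNReal.ofReal (Real.exp (-(θ * v)))) (by fun_prop)
    rw [h1]
    refine h5.trans ?_
    rw [uc_half hθ, ← ENNReal.ofReal_mul (Real.exp_pos _).le, abs_of_pos hs]
    congr 1
    ring

/-- the overshoot of an upcrossing is an independent exponential variable -/
theorem up_cross (hθ : 0 < θ) (hρ : PLaw p g θ ρ) (s : ℝ) {G : ℝ → ℝ≥0∞} (hG : Measurable G) :
    ∫⁻ x, (if s - pD x ≤ 0 ∧ 0 < s - pD x + pU x then G (s - pD x + pU x) else 0) ∂ρ =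
      ENNReal.ofReal (Real.exp (-(θ * |s|)) / 2) * ∫⁻ u, G u ∂(expMeasure θ) := by
  have hF : Measurable fun q : ℝ × ℝ =>
      (fun d u : ℝ => if s - d ≤ 0 ∧ 0 < s - d + u then G (s - d + u) else 0) q.1 q.2 := by
    have e1 : Measurable fun q : ℝ × ℝ => s - q.1 := by fun_prop
    have e2 : Measurable fun q : ℝ × ℝ => s - q.1 + q.2 := by fun_prop
    refine Measurable.ite ?_ (hG.comp e2) measurable_const
    exact (measurableSet_le e1 measurable_const).inter (measurableSet_lt measurable_const e2)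
  rw [uc_DU hθ hρ (F := fun d u => if s - d ≤ 0 ∧ 0 < s - d + u then G (s - d + u) else 0) hF]
  have h1 : ∀ d : ℝ, ∫⁻ u, (if s - d ≤ 0 ∧ 0 < s - d + u then G (s - d + u) else 0)
      ∂(expMeasure θ) = (if s - d ≤ 0 then ENNReal.ofReal (Real.exp (-(θ * (d - s)))) else 0) *
        ∫⁻ u, G u ∂(expMeasure θ) := by
    intro d
    by_cases hd : s - d ≤ 0
    · rw [if_pos hd]
      have h2 := lintegral_exp_shift hθ (a := d - s) (by linarith) hG
      rw [← h2]
      refine lintegral_congr fun u => ?_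
      by_cases hu : d - s < u
      · rw [if_pos ⟨hd, by linarith⟩, if_pos hu]
        congr 1
        ring
      · rw [if_neg (fun h => hu (by linarith [h.2])), if_neg hu]
    · rw [if_neg hd, zero_mul]
      simp [hd]
  simp only [h1]
  rw [lintegral_mul_const _ (Measurable.ite (measurableSet_le (by fun_prop) measurable_const)
    (by fun_prop) measurable_const), uc_outer hθ]

/-- positive part -/
private theorem uc_pos (hθ : 0 < θ) {F : ℝ → ℝ → ℝ≥0∞} (s : ℝ)
    (hF : F = fun d u => ENNReal.ofReal (s - d + u)) :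
    ∫⁻ d, ∫⁻ u, F d u ∂(expMeasure θ) ∂(expMeasure θ) =
      ENNReal.ofReal (max s 0 + Real.exp (-(θ * |s|)) / (2 * θ)) := by
  have := isProbabilityMeasure_expMeasure hθ
  subst hF
  have h1 : ∀ d : ℝ, ∫⁻ u, ENNReal.ofReal (s - d + u) ∂(expMeasure θ) =
      (if s - d ≤ 0 then ENNReal.ofReal (Real.exp (-(θ * (d - s)))) else 0) *
        ENNReal.ofReal (1 / θ) + (if d < s then ENNReal.ofReal (s - d + 1 / θ) else 0) := by
    intro d
    by_cases hd : s - d ≤ 0
    · rw [if_pos hd, if_neg (by linarith), add_zero]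
      have h2 := lintegral_exp_shift hθ (a := d - s) (by linarith)
        (F := fun v => ENNReal.ofReal v) (by fun_prop)
      rw [uc_m1 hθ] at h2
      rw [← h2]
      refine lintegral_congr fun u => ?_
      by_cases hu : d - s < u
      · rw [if_pos hu]
        congr 1
        ring
      · rw [if_neg hu, ENNReal.ofReal_of_nonpos (by linarith)]
    · rw [if_neg hd, zero_mul, zero_add, if_pos (by linarith)]
      have h3 : ∫⁻ u, ENNReal.ofReal (s - d + u) ∂(expMeasure θ) =
          ∫⁻ u, (ENNReal.ofReal (s - d) + ENNReal.ofReal u) ∂(expMeasure θ) := by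
        refine lintegral_congr_ae ?_
        filter_upwards [exp_pos_ae hθ] with u hu
        rw [ENNReal.ofReal_add (by linarith) hu.le]
      rw [h3, lintegral_add_left measurable_const, uc_m1 hθ, lintegral_const, measure_univ,
        mul_one, ← ENNReal.ofReal_add (by linarith) (by positivity)]
  simp only [h1]
  have hm : Measurable (fun d : ℝ =>
      if s - d ≤ 0 then ENNReal.ofReal (Real.exp (-(θ * (d - s)))) else 0) :=
    Measurable.ite (measurableSet_le (by fun_prop) measurable_const) (by fun_prop)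
      measurable_const
  rw [lintegral_add_left (hm.mul_const _), lintegral_mul_const _ hm, uc_outer hθ]
  have h4 : ∫⁻ d, (if d < s then ENNReal.ofReal (s - d + 1 / θ) else 0) ∂(expMeasure θ) =
      ENNReal.ofReal (max s 0) := by
    rcases le_or_gt 0 s with hs | hs
    · rw [uc_below hθ hs, max_eq_left hs]
    · rw [max_eq_right hs.le, ENNReal.ofReal_zero]
      refine lintegral_eq_zero_of_ae_eq_zero ?_
      filter_upwards [exp_pos_ae hθ] with d hd
      rw [if_neg (by linarith)]
      rfl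
  rw [h4, ← ENNReal.ofReal_mul (by positivity), ← ENNReal.ofReal_add (by positivity)
    (le_max_right _ _)]
  congr 1
  field_simp
  ring

/-- `E |s + U - D| = |s| + e^(-θ |s|) / θ` -/
theorem abs_step (hθ : 0 < θ) (hρ : PLaw p g θ ρ) (s : ℝ) :
    ∫⁻ x, ENNReal.ofReal |s - pD x + pU x| ∂ρ =
      ENNReal.ofReal (|s| + Real.exp (-(θ * |s|)) / θ) := by
  have hsplit : ∀ y : ℝ, ENNReal.ofReal |y| = ENNReal.ofReal y + ENNReal.ofReal (-y) := by
    intro y
    rcases le_total 0 y with h | h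
    · rw [abs_of_nonneg h, ENNReal.ofReal_of_nonpos (p := -y) (by linarith), add_zero]
    · rw [abs_of_nonpos h, ENNReal.ofReal_of_nonpos h, zero_add]
  have h1 : ∫⁻ x, ENNReal.ofReal |s - pD x + pU x| ∂ρ =
      ∫⁻ x, ENNReal.ofReal (s - pD x + pU x) ∂ρ +
        ∫⁻ x, ENNReal.ofReal (-s - pU x + pD x) ∂ρ := by
    rw [← lintegral_add_left (by unfold pD pU; fun_prop)]
    refine lintegral_congr fun x => ?_
    rw [hsplit]
    congr 2
    ring
  rw [h1, uc_DU hθ hρ (F := fun d u => ENNReal.ofReal (s - d + u)) (by fun_prop),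
    uc_UD hθ hρ (F := fun d u => ENNReal.ofReal (-s - u + d)) (by fun_prop),
    uc_pos hθ s rfl, uc_pos hθ (-s) rfl, abs_neg,
    ← ENNReal.ofReal_add (by positivity) (by positivity)]
  congr 1
  have h2 : max s 0 + max (-s) 0 = |s| := by
    rcases le_total 0 s with h | h
    · rw [max_eq_left h, max_eq_right (by linarith), abs_of_nonneg h, add_zero]
    · rw [max_eq_right h, max_eq_left (by linarith), abs_of_nonpos h, zero_add]
  rw [← h2]
  field_simp
  ring

theorem sq_step (hθ : 0 < θ) (hρ : PLaw p g θ ρ) (s : ℝ) :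
    ∫⁻ x, ENNReal.ofReal ((s - pD x + pU x) ^ 2) ∂ρ = ENNReal.ofReal (s ^ 2 + 2 / θ ^ 2) := by
  have := isProbabilityMeasure_expMeasure hθ
  rw [uc_DU hθ hρ (F := fun d u => ENNReal.ofReal ((s - d + u) ^ 2)) (by fun_prop)]
  have h1 : ∀ d : ℝ, ∫⁻ u, ENNReal.ofReal ((s - d + u) ^ 2) ∂(expMeasure θ) =
      ENNReal.ofReal ((-(s + 1 / θ) + d) ^ 2) + ENNReal.ofReal (1 / θ ^ 2) := by
    intro d
    rw [uc_m2 hθ (s - d), ← ENNReal.ofReal_add (sq_nonneg _) (by positivity)]
    congr 2
    ring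
  simp only [h1]
  rw [lintegral_add_right _ measurable_const, uc_m2 hθ, lintegral_const, measure_univ, mul_one,
    ← ENNReal.ofReal_add (by positivity) (by positivity)]
  congr 1
  field_simp
  ring

private theorem uc_mf {F : ℝ → ℝ≥0∞} (hF : Measurable F) : MF fun l : List Pc => F (pos 0 l) := by
  intro n
  exact hF.comp ((meas_pos.mf (0 : ℝ)) n)

/-- one more piece at the end -/
private theorem uc_last (n : ℕ) (F : ℝ → ℝ≥0∞) :
    LI ρ (n + 1) (fun l => F (pos 0 l)) =
      LI ρ n (fun l => ∫⁻ x, F (pos 0 l - pD x + pU x) ∂ρ) := by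
  rw [LI_append]
  apply LI_congr
  intro l _
  show ∫⁻ x, F (pos 0 (l ++ [x])) ∂ρ = _
  refine lintegral_congr fun x => ?_
  rw [pos_append]
  rfl

private theorem uc_sq (hθ : 0 < θ) (hρ : PLaw p g θ ρ) (m : ℕ) :
    LI ρ m (fun l => ENNReal.ofReal ((pos 0 l) ^ 2)) = ENNReal.ofReal (m * (2 / θ ^ 2)) := by
  have := hρ.prob
  induction m with
  | zero => simp [LI, pos]
  | succ m ih =>
    rw [uc_last m (fun y => ENNReal.ofReal (y ^ 2))]
    simp only [sq_step hθ hρ]
    have h1 : ∀ l : List Pc, ENNReal.ofReal ((pos 0 l) ^ 2 + 2 / θ ^ 2) =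
        ENNReal.ofReal ((pos 0 l) ^ 2) + ENNReal.ofReal (2 / θ ^ 2) := by
      intro l
      rw [ENNReal.ofReal_add (sq_nonneg _) (by positivity)]
    simp only [h1]
    rw [LI_add ρ (uc_mf (F := fun y => ENNReal.ofReal (y ^ 2)) (by fun_prop))
      (uc_mf (F := fun _ => ENNReal.ofReal (2 / θ ^ 2)) measurable_const), LI_const, ih,
      ← ENNReal.ofReal_add (by positivity) (by positivity)]
    congr 1
    push_cast
    ring

private theorem uc_tele (hθ : 0 < θ) (hρ : PLaw p g θ ρ) (m : ℕ) :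
    ∑ i ∈ Finset.range m, LI ρ i (fun l => ENNReal.ofReal (Real.exp (-(θ * |pos 0 l|)) / θ)) =
      LI ρ m (fun l => ENNReal.ofReal |pos 0 l|) := by
  have := hρ.prob
  induction m with
  | zero => simp [LI, pos]
  | succ m ih =>
    rw [Finset.sum_range_succ, ih, uc_last m (fun y => ENNReal.ofReal |y|)]
    simp only [abs_step hθ hρ]
    have h1 : ∀ l : List Pc, ENNReal.ofReal (|pos 0 l| + Real.exp (-(θ * |pos 0 l|)) / θ) =
        ENNReal.ofReal |pos 0 l| + ENNReal.ofReal (Real.exp (-(θ * |pos 0 l|)) / θ) := by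
      intro l
      rw [ENNReal.ofReal_add (abs_nonneg _) (by positivity)]
    simp only [h1]
    rw [LI_add ρ (uc_mf (F := fun y => ENNReal.ofReal |y|) (by fun_prop))
      (uc_mf (F := fun y => ENNReal.ofReal (Real.exp (-(θ * |y|)) / θ)) (by fun_prop))]

/-- expected number of upcrossings: `θ E |S_m| ≤ √(2 m)` -/
theorem cross_sum (hθ : 0 < θ) (hρ : PLaw p g θ ρ) (m : ℕ) :
    ∑ i ∈ Finset.range m, LI ρ i (fun l => ENNReal.ofReal (Real.exp (-(θ * |pos 0 l|)) / 2)) ≤
      ENNReal.ofReal √m := by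
  have := hρ.prob
  rcases Nat.eq_zero_or_pos m with hm | hm
  · subst hm; simp
  have hm' : (0 : ℝ) < m := by exact_mod_cast hm
  have hsm : 0 < √(m : ℝ) := Real.sqrt_pos.2 hm'
  have hs2 : √(m : ℝ) * √(m : ℝ) = m := Real.mul_self_sqrt hm'.le
  -- rescaling
  have h1 : ∀ i, LI ρ i (fun l => ENNReal.ofReal (Real.exp (-(θ * |pos 0 l|)) / 2)) =
      ENNReal.ofReal (θ / 2) *
        LI ρ i (fun l => ENNReal.ofReal (Real.exp (-(θ * |pos 0 l|)) / θ)) := by
    intro i
    rw [← LI_const_mul ρ _ (uc_mf (F := fun y => ENNReal.ofReal (Real.exp (-(θ * |y|)) / θ))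
      (by fun_prop))]
    apply LI_congr
    intro l _
    rw [← ENNReal.ofReal_mul (by positivity)]
    congr 1
    field_simp
  simp only [h1]
  rw [← Finset.mul_sum, uc_tele hθ hρ]
  -- `|s| ≤ (c s² + 1 / c) / 2` with `c = θ / √m`
  have h2 : LI ρ m (fun l => ENNReal.ofReal |pos 0 l|) ≤
      LI ρ m (fun l => ENNReal.ofReal (θ / √m / 2) * ENNReal.ofReal ((pos 0 l) ^ 2) +
        ENNReal.ofReal (√m / θ / 2)) := by
    apply LI_mono
    intro l _
    rw [← ENNReal.ofReal_mul (by positivity), ← ENNReal.ofReal_add (by positivity)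
      (by positivity)]
    apply ENNReal.ofReal_le_ofReal
    set y := pos 0 l with hy
    have h3 : 0 ≤ (θ / √m * |y| - 1) ^ 2 := sq_nonneg _
    have h4 : (θ / √m * |y| - 1) ^ 2 * (√m / θ / 2) =
        θ / √m / 2 * y ^ 2 + √m / θ / 2 - |y| := by
      rw [← sq_abs y]
      field_simp
      ring
    have h5 : 0 ≤ (θ / √m * |y| - 1) ^ 2 * (√m / θ / 2) := by positivity
    linarith
  refine (mul_le_mul_right h2 (ENNReal.ofReal (θ / 2))).trans ?_
  rw [LI_add ρ (uc_mf (F := fun y => ENNReal.ofReal (θ / √m / 2) * ENNReal.ofReal (y ^ 2))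
    (by fun_prop)) (uc_mf (F := fun _ => ENNReal.ofReal (√m / θ / 2)) measurable_const),
    LI_const, LI_const_mul ρ _ (uc_mf (F := fun y => ENNReal.ofReal (y ^ 2)) (by fun_prop)),
    uc_sq hθ hρ, ← ENNReal.ofReal_mul (by positivity), ← ENNReal.ofReal_add (by positivity)
    (by positivity), ← ENNReal.ofReal_mul (by positivity)]
  apply ENNReal.ofReal_le_ofReal
  have h6 : θ / 2 * (θ / √m / 2 * (m * (2 / θ ^ 2)) + √m / θ / 2) = 3 / 4 * √m := by
    have h7 : (m : ℝ) = √m * √m := hs2.symm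
    rw [show θ / √m / 2 * (m * (2 / θ ^ 2)) = θ / √m / 2 * ((√m * √m) * (2 / θ ^ 2)) by rw [hs2]]
    field_simp
    ring
  rw [h6]
  linarith

end Pool.Agent.BSP
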