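import Pool.Agent.BSP.UBad
import Pool.Agent.BSP.Super
import Pool.Agent.BSP.WH
import Pool.Agent.BSP.SDefs
import Pool.Agent.BSP.TreeSum
import Pool.Agent.BSP.LIx

set_option autoImplicit false

/-!
# Upper bound: probability that the marks of a given level are bad
-/

namespace Pool.Agent.BSP

open MeasureTheory ProbabilityTheory Set Filter
open scoped ENNReal NNReal Topology

/-- the list of pieces is bad: a piece is too long or degenerate, the total duration is too small,
or there is an excursion with a large tree -/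
def UE (η M : ℝ) (z : ℕ) (l : List Pc) : Prop :=
  (∃ x ∈ l, pT x ≤ 0 ∨ η < pT x ∨ pD x ≤ 0 ∨ pU x ≤ 0) ∨ (l.map pT).sum < M ∨ BadZ z l

private theorem up_mD : Measurable pD := by unfold pD; fun_prop
private theorem up_mU : Measurable pU := by unfold pU; fun_prop
private theorem up_mT : Measurable pT := by unfold pT; fun_prop
private theorem up_mX : Measurable pX := by unfold pX; fun_prop

private theorem up_ind {δ : Type*} [MeasurableSpace δ] {Q : δ → Prop}
    (h : MeasurableSet {z | Q z}) : Measurable (fun z => ind (Q z)) := by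
  classical
  unfold ind
  exact Measurable.ite h measurable_const measurable_const

private theorem up_of_ind {δ : Type*} [MeasurableSpace δ] {Q : δ → Prop}
    (h : Measurable (fun z => ind (Q z))) : MeasurableSet {z | Q z} := by
  classical
  have e : {z | Q z} = (fun z => ind (Q z)) ⁻¹' {1} := by
    ext z
    simp only [Set.mem_ofPred_eq, Set.mem_preimage, Set.mem_singleton_iff, ind]
    by_cases hz : Q z <;> simp [hz]
  rw [e]
  exact h (measurableSet_singleton 1)

private theorem up_exists {q : Pc → Prop} (hq : MeasurableSet {x | q x}) :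
    MF fun l => ind (∃ x ∈ l, q x) := by
  intro n
  refine up_ind ?_
  have e : {v : Fin n → Pc | ∃ x ∈ List.ofFn v, q x} = ⋃ i, {v : Fin n → Pc | q (v i)} := by
    ext v
    simp [List.mem_ofFn]
  rw [e]
  exact MeasurableSet.iUnion fun i => hq.preimage (measurable_pi_apply i)

private theorem up_sum (M : ℝ) (n : ℕ) :
    MeasurableSet {v : Fin n → Pc | ((List.ofFn v).map pT).sum < M} := by
  have e : ∀ v : Fin n → Pc, ((List.ofFn v).map pT).sum = ∑ i, pT (v i) := by
    intro v
    rw [List.map_ofFn, List.sum_ofFn]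
    rfl
  simp only [e]
  refine measurableSet_lt ?_ measurable_const
  exact Finset.measurable_sum _ fun i _ => up_mT.comp (measurable_pi_apply i)

theorem meas_UE (η M : ℝ) (z : ℕ) : MF fun l => ind (UE η M z l) := by
  intro n
  refine up_ind ?_
  have h1 : MeasurableSet {x : Pc | pT x ≤ 0 ∨ η < pT x ∨ pD x ≤ 0 ∨ pU x ≤ 0} :=
    (measurableSet_le up_mT measurable_const).union
      ((measurableSet_lt measurable_const up_mT).union
        ((measurableSet_le up_mD measurable_const).union (measurableSet_le up_mU measurable_const)))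
  have h2 := up_of_ind (up_exists h1 n)
  have h3 := up_of_ind (meas_badZ z n)
  exact h2.union ((up_sum M n).union h3)

private theorem up_exp {θ : ℝ} (hθ : 0 < θ) :
    ∫⁻ x, ENNReal.ofReal (Real.exp (-(θ * x))) ∂(expMeasure θ) = ENNReal.ofReal (1 / 2) := by
  have hd : expMeasure θ = volume.withDensity (exponentialPDF θ) := rfl
  have hm : Measurable (exponentialPDF θ) := (measurable_exponentialPDFReal θ).ennreal_ofReal
  rw [hd, lintegral_withDensity_eq_lintegral_mul _ hm (by fun_prop)]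
  have e : ∀ x : ℝ, (exponentialPDF θ * fun x => ENNReal.ofReal (Real.exp (-(θ * x)))) x =
      ENNReal.ofReal (1 / 2) * exponentialPDF (2 * θ) x := by
    intro x
    rw [Pi.mul_apply]
    rcases lt_or_ge x 0 with h | h
    · rw [exponentialPDF_of_neg h, exponentialPDF_of_neg h]
      simp
    · rw [exponentialPDF_of_nonneg h, exponentialPDF_of_nonneg h,
        ← ENNReal.ofReal_mul (by positivity), ← ENNReal.ofReal_mul (by norm_num)]
      congr 1
      have : Real.exp (-(2 * θ * x)) = Real.exp (-(θ * x)) * Real.exp (-(θ * x)) := by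
        rw [← Real.exp_add]
        congr 1
        ring
      rw [this]
      ring
  have hm2 : Measurable (exponentialPDF (2 * θ)) :=
    (measurable_exponentialPDFReal (2 * θ)).ennreal_ofReal
  simp only [e]
  rw [lintegral_const_mul _ hm2, lintegral_exponentialPDF_eq_one (by linarith), mul_one]

private theorem up_emb : Measurable fun q : (ℝ × ℝ × ℝ × Bool) × Bool =>
    ((q.1.1, q.1.2.1, q.1.2.2.1, q.1.2.2.2, q.2) : Pc) := by
  fun_prop

private theorem up_map_sgn {p : ℝ} (hp0 : 0 ≤ p) (hp1 : p ≤ 1) {β : Type*} [MeasurableSpace β]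
    {ρ : Measure Pc3} [IsProbabilityMeasure ρ] {f : Pc → β} {g : Pc3 → β} (hf : Measurable f)
    (hg : Measurable g) (h : ∀ x b, f (x.1, x.2.1, x.2.2.1, x.2.2.2, b) = g x) :
    (sgnProd p ρ).map f = ρ.map g := by
  have := berM_prob hp0 hp1
  unfold sgnProd
  rw [Measure.map_map hf up_emb]
  have e : (f ∘ fun q : (ℝ × ℝ × ℝ × Bool) × Bool =>
      ((q.1.1, q.1.2.1, q.1.2.2.1, q.1.2.2.2, q.2) : Pc)) = g ∘ Prod.fst := by
    funext q
    exact h q.1 q.2
  rw [e, ← Measure.map_map hg measurable_fst, Measure.map_fst_prod, measure_univ, one_smul]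

private theorem up_prob {p : ℝ} (hp0 : 0 ≤ p) (hp1 : p ≤ 1) {ρ : Measure Pc3}
    [IsProbabilityMeasure ρ] : IsProbabilityMeasure (sgnProd p ρ) := by
  have := berM_prob hp0 hp1
  unfold sgnProd
  exact Measure.isProbabilityMeasure_map up_emb.aemeasurable

private theorem up_ae {p : ℝ} (hp0 : 0 ≤ p) (hp1 : p ≤ 1) {ρ : Measure Pc3}
    [IsProbabilityMeasure ρ] (h2 : ∀ᵐ x ∂ρ, x.2.2.2 = true) :
    ∀ᵐ x ∂(sgnProd p ρ), pX x = true := by
  have hg : Measurable fun x : Pc3 => x.2.2.2 := by fun_prop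
  have h := up_map_sgn hp0 hp1 (ρ := ρ) up_mX hg (fun x b => rfl)
  have hms : MeasurableSet {b : Bool | b = true} := MeasurableSet.of_discrete
  have h3 : ∀ᵐ b ∂(ρ.map fun x : Pc3 => x.2.2.2), b = true := by
    rw [ae_map_iff hg.aemeasurable hms]
    exact h2
  rw [← h, ae_map_iff up_mX.aemeasurable hms] at h3
  exact h3

/-- marked pieces: `PLaw` with `g = 1` -/
theorem plaw_one {p θ : ℝ} (hp0 : 0 ≤ p) (hp1 : p ≤ 1) (hθ : 0 < θ) {ρ : Measure Pc3}
    [IsProbabilityMeasure ρ] (h1 : ρ.map (fun x => (x.1, x.2.1)) =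
      (expMeasure θ).prod (expMeasure θ)) (h2 : ∀ᵐ x ∂ρ, x.2.2.2 = true) :
    PLaw p 1 θ (sgnProd p ρ) := by
  have hpe := isProbabilityMeasure_expMeasure hθ
  have hg : Measurable fun x : Pc3 => (x.1, x.2.1) := by fun_prop
  have hDU : (sgnProd p ρ).map (fun x => (pD x, pU x)) =
      (expMeasure θ).prod (expMeasure θ) := by
    rw [up_map_sgn hp0 hp1 (up_mD.prodMk up_mU) hg (fun x b => rfl), h1]
  refine ⟨up_prob hp0 hp1, ⟨ρ, inferInstance, rfl⟩, hDU, ?_⟩
  have hae := up_ae hp0 hp1 h2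
  have e1 : ∫⁻ x, (if pX x then ENNReal.ofReal (Real.exp (-(θ * (pD x + pU x)))) else 0)
      ∂(sgnProd p ρ) = ∫⁻ x, ENNReal.ofReal (Real.exp (-(θ * (pD x + pU x)))) ∂(sgnProd p ρ) := by
    refine lintegral_congr_ae ?_
    filter_upwards [hae] with x hx
    rw [if_pos hx]
  have hF : Measurable fun q : ℝ × ℝ => ENNReal.ofReal (Real.exp (-(θ * (q.1 + q.2)))) := by
    fun_prop
  have e2 : ∫⁻ x, ENNReal.ofReal (Real.exp (-(θ * (pD x + pU x)))) ∂(sgnProd p ρ) =
      ∫⁻ q, ENNReal.ofReal (Real.exp (-(θ * (q.1 + q.2))))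
        ∂((expMeasure θ).prod (expMeasure θ)) := by
    rw [← hDU, lintegral_map hF (up_mD.prodMk up_mU)]
  rw [e1, e2, lintegral_prod _ hF.aemeasurable]
  have e3 : ∀ d : ℝ, ∫⁻ u, ENNReal.ofReal (Real.exp (-(θ * (d + u)))) ∂(expMeasure θ) =
      ENNReal.ofReal (Real.exp (-(θ * d))) * ENNReal.ofReal (1 / 2) := by
    intro d
    rw [← up_exp hθ, ← lintegral_const_mul _ (by fun_prop)]
    refine lintegral_congr fun u => ?_
    rw [← ENNReal.ofReal_mul (Real.exp_pos _).le, ← Real.exp_add]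
    congr 2
    ring
  simp only [e3]
  rw [lintegral_mul_const _ (by fun_prop), up_exp hθ, ← ENNReal.ofReal_mul (by norm_num)]
  norm_num

private theorem up_LI_prod {ρ : Measure Pc} [IsProbabilityMeasure ρ] {f : Pc → ℝ≥0∞}
    (hf : Measurable f) (n : ℕ) : LI ρ n (fun l => (l.map f).prod) = (∫⁻ x, f x ∂ρ) ^ n := by
  induction n with
  | zero => simp [LI]
  | succ n ih =>
    have hMF : MF fun l : List Pc => (l.map f).prod := by
      intro m
      have e : ∀ v : Fin m → Pc, ((List.ofFn v).map f).prod = ∏ i, f (v i) := by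
        intro v
        rw [List.map_ofFn, List.prod_ofFn]
        rfl
      simp only [e]
      exact Finset.measurable_prod _ fun i _ => hf.comp (measurable_pi_apply i)
    change ∫⁻ x, LI ρ n (fun l => ((x :: l).map f).prod) ∂ρ = _
    have e : ∀ x, LI ρ n (fun l => ((x :: l).map f).prod) = f x * (∫⁻ x, f x ∂ρ) ^ n := by
      intro x
      rw [← ih, ← LI_const_mul ρ (f x) hMF]
      simp
    simp only [e]
    rw [lintegral_mul_const _ hf, pow_succ']

theorem ue_prob {p Λ η M : ℝ} (hp0 : 0 ≤ p) (hp1 : p ≤ 1) (hΛ : 0 < Λ) (hη : 0 ≤ η) (hM : 0 ≤ M)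
    {ρ : Measure Pc3} [IsProbabilityMeasure ρ]
    (h1 : ρ.map (fun x => (x.1, x.2.1)) = (expMeasure √(2 * Λ)).prod (expMeasure √(2 * Λ)))
    (h2 : ∀ᵐ x ∂ρ, x.2.2.2 = true) (h3 : ρ.map (fun x => x.2.2.1) = expMeasure Λ) (z m : ℕ) :
    LI (sgnProd p ρ) m (fun l => ind (UE η M z l)) ≤
      ENNReal.ofReal (m * Real.exp (-(Λ * η)) + Real.exp (Λ * M) * (1 / 2) ^ m +
        √m * FZ p z) := by
  have hθ : 0 < √(2 * Λ) := Real.sqrt_pos.2 (by linarith)
  have hP := plaw_one hp0 hp1 hθ h1 h2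
  have hpr : IsProbabilityMeasure (sgnProd p ρ) := up_prob hp0 hp1
  have hT : (sgnProd p ρ).map pT = expMeasure Λ := by
    rw [← h3]
    exact up_map_sgn hp0 hp1 up_mT (by fun_prop) (fun x b => rfl)
  -- almost surely the pieces are not degenerate
  have haeT : ∀ᵐ x ∂(sgnProd p ρ), 0 < pT x := by
    have h4 := exp_pos_ae hΛ
    rw [← hT, ae_map_iff up_mT.aemeasurable measurableSet_Ioi] at h4
    exact h4
  have haeDU : ∀ᵐ x ∂(sgnProd p ρ), 0 < pD x ∧ 0 < pU x := by
    have hms : MeasurableSet {q : ℝ × ℝ | 0 < q.1 ∧ 0 < q.2} :=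
      (measurableSet_lt measurable_const measurable_fst).inter
        (measurableSet_lt measurable_const measurable_snd)
    have hpe := isProbabilityMeasure_expMeasure hθ
    have h4 : ∀ᵐ q ∂((expMeasure √(2 * Λ)).prod (expMeasure √(2 * Λ))), 0 < q.1 ∧ 0 < q.2 := by
      have h5 := exp_pos_ae hθ
      have h6 : ∀ᵐ q ∂((expMeasure √(2 * Λ)).prod (expMeasure √(2 * Λ))), 0 < q.1 :=
        Measure.quasiMeasurePreserving_fst.ae h5
      have h7 : ∀ᵐ q ∂((expMeasure √(2 * Λ)).prod (expMeasure √(2 * Λ))), 0 < q.2 :=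
        Measure.quasiMeasurePreserving_snd.ae h5
      filter_upwards [h6, h7] with q hq hq'
      exact ⟨hq, hq'⟩
    rw [← hP.DU, ae_map_iff (up_mD.prodMk up_mU).aemeasurable hms] at h4
    exact h4
  have hae : ∀ᵐ x ∂(sgnProd p ρ), 0 < pT x ∧ 0 < pD x ∧ 0 < pU x := by
    filter_upwards [haeT, haeDU] with x hx hx'
    exact ⟨hx, hx'⟩
  -- the three parts
  have hq : MeasurableSet {x : Pc | η < pT x} := measurableSet_lt measurable_const up_mT
  have hMF1 : MF fun l : List Pc => ind (∃ x ∈ l, η < pT x) := up_exists hq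
  set f : Pc → ℝ≥0∞ := fun x => ENNReal.ofReal (Real.exp (-(Λ * pT x))) with hf
  have hfm : Measurable f := by
    have := up_mT
    fun_prop
  have hMFp : MF fun l : List Pc => (l.map f).prod := by
    intro n
    have e : ∀ v : Fin n → Pc, ((List.ofFn v).map f).prod = ∏ i, f (v i) := by
      intro v
      rw [List.map_ofFn, List.prod_ofFn]
      rfl
    simp only [e]
    exact Finset.measurable_prod _ fun i _ => hfm.comp (measurable_pi_apply i)
  have hMF2 : MF fun l : List Pc => ENNReal.ofReal (Real.exp (Λ * M)) * (l.map f).prod := by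
    intro n
    exact (hMFp n).const_mul _
  have hMF3 : MF fun l : List Pc => ind (BadZ z l) := meas_badZ z
  have hstep : LI (sgnProd p ρ) m (fun l => ind (UE η M z l)) ≤
      LI (sgnProd p ρ) m (fun l => ind (∃ x ∈ l, η < pT x) +
        (ENNReal.ofReal (Real.exp (Λ * M)) * (l.map f).prod + ind (BadZ z l))) := by
    refine LI_mono_ae _ hae fun l _ hl => ?_
    by_cases hU : UE η M z l
    · have hi : ind (UE η M z l) = 1 := by simp [ind, hU]
      rw [hi]
      rcases hU with ⟨x, hx, h⟩ | h | h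
      · have h4 := hl x hx
        have h5 : η < pT x := by
          rcases h with h | h | h | h
          · linarith
          · exact h
          · linarith
          · linarith
        have h6 : ind (∃ x ∈ l, η < pT x) = 1 := by
          have : ∃ x ∈ l, η < pT x := ⟨x, hx, h5⟩
          simp only [ind, if_pos this]
        rw [h6]
        exact le_self_add
      · have h6 : (1 : ℝ≥0∞) ≤ ENNReal.ofReal (Real.exp (Λ * M)) * (l.map f).prod := by
          have e : ∀ l : List Pc, (l.map f).prod =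
              ENNReal.ofReal (Real.exp (-(Λ * (l.map pT).sum))) := by
            intro l
            induction l with
            | nil => simp
            | cons x l ih =>
              rw [List.map_cons, List.prod_cons, ih, List.map_cons, List.sum_cons,
                hf, ← ENNReal.ofReal_mul (Real.exp_pos _).le, ← Real.exp_add]
              congr 2
              ring
          rw [e, ← ENNReal.ofReal_mul (Real.exp_pos _).le, ← Real.exp_add,
            ← ENNReal.ofReal_one]
          refine ENNReal.ofReal_le_ofReal ?_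
          rw [← Real.exp_zero]
          refine Real.exp_le_exp.2 ?_
          nlinarith
        calc (1 : ℝ≥0∞) ≤ ENNReal.ofReal (Real.exp (Λ * M)) * (l.map f).prod := h6
          _ ≤ ENNReal.ofReal (Real.exp (Λ * M)) * (l.map f).prod + ind (BadZ z l) := le_self_add
          _ ≤ _ := le_add_self
      · have h6 : ind (BadZ z l) = 1 := by simp only [ind, if_pos h]
        rw [h6]
        calc (1 : ℝ≥0∞) ≤ ENNReal.ofReal (Real.exp (Λ * M)) * (l.map f).prod + 1 := le_add_self
          _ ≤ _ := le_add_self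
    · have hi : ind (UE η M z l) = 0 := by simp [ind, hU]
      rw [hi]
      exact zero_le
  refine hstep.trans ?_
  have hMF23 : MF fun l : List Pc =>
      ENNReal.ofReal (Real.exp (Λ * M)) * (l.map f).prod + ind (BadZ z l) := by
    intro n
    exact (hMF2 n).add (hMF3 n)
  rw [LI_add (sgnProd p ρ) hMF1 hMF23, LI_add (sgnProd p ρ) hMF2 hMF3]
  have b1 : LI (sgnProd p ρ) m (fun l => ind (∃ x ∈ l, η < pT x)) ≤
      ENNReal.ofReal (m * Real.exp (-(Λ * η))) := by
    refine (LI_exists _ hq m).trans (le_of_eq ?_)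
    have h4 : (sgnProd p ρ) {x | η < pT x} = ENNReal.ofReal (Real.exp (-(Λ * η))) := by
      have hms : MeasurableSet {u : ℝ | η < u} := measurableSet_Ioi
      rw [← exp_tail hΛ hη, ← hT, Measure.map_apply up_mT hms]
      rfl
    rw [h4, ENNReal.ofReal_mul (Nat.cast_nonneg _), ENNReal.ofReal_natCast]
  have b2 : LI (sgnProd p ρ) m (fun l => ENNReal.ofReal (Real.exp (Λ * M)) * (l.map f).prod) =
      ENNReal.ofReal (Real.exp (Λ * M) * (1 / 2) ^ m) := by
    rw [LI_const_mul _ _ hMFp, up_LI_prod hfm]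
    have h4 : ∫⁻ x, f x ∂(sgnProd p ρ) = ENNReal.ofReal (1 / 2) := by
      rw [← up_exp hΛ, ← hT, lintegral_map (by fun_prop) up_mT]
    rw [h4, ENNReal.ofReal_mul (Real.exp_pos _).le, ENNReal.ofReal_pow (by norm_num)]
  have b3 := bad_prob hp0 hp1 hθ hP z m
  have hFZ : 0 ≤ FZ p z := ENNReal.toReal_nonneg
  rw [b2]
  calc _ ≤ ENNReal.ofReal (m * Real.exp (-(Λ * η))) +
        (ENNReal.ofReal (Real.exp (Λ * M) * (1 / 2) ^ m) + ENNReal.ofReal (√m * FZ p z)) :=
        add_le_add b1 (add_le_add le_rfl b3)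
    _ = _ := by
        rw [← ENNReal.ofReal_add (by positivity) (by positivity),
          ← ENNReal.ofReal_add (by positivity) (by positivity)]
        congr 1
        ring

private theorem up_geom {r : ℝ} (h0 : 0 ≤ r) (h1 : r < 1) (c : ℝ) :
    Summable fun k : ℕ => c * r ^ k :=
  (summable_geometric_of_lt_one h0 h1).mul_left c

/-- the exponents: for `Λ = 2^k`, `m = 4 M Λ` pieces and `z = Λ^(1/(2b)+δ)` the probabilities are
summable -/
theorem ue_sum {p b δ : ℝ} (hp0 : 0 < p) (hp1 : p < 1) (hb0 : 1 / 2 < b) (hb1 : b < 1)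
    (hr : rr b < (1 - p) / p) (hδ0 : 0 < δ) (hδ1 : δ < 1) {M : ℕ} (hM : 1 ≤ M) :
    Summable fun k : ℕ => ((4 * M * 2 ^ k : ℕ) : ℝ) *
        Real.exp (-((2 : ℝ) ^ k * ((2 : ℝ) ^ k) ^ (-(1 - δ)))) +
      Real.exp ((2 : ℝ) ^ k * M) * (1 / 2) ^ (4 * M * 2 ^ k) +
      √((4 * M * 2 ^ k : ℕ) : ℝ) * FZ p ⌊((2 : ℝ) ^ k) ^ (1 / (2 * b) + δ)⌋₊ := by
  refine Summable.add (Summable.add ?_ ?_) ?_
  · -- the first term
    obtain ⟨n, hn⟩ := exists_nat_ge (2 / δ)
    have hnδ : 2 ≤ n * δ := by
      rwa [div_le_iff₀ hδ0] at hn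
    refine Summable.of_nonneg_of_le (fun k => by positivity) (fun k => ?_)
      (up_geom (r := 1 / 2) (by norm_num) (by norm_num) (4 * M * n.factorial))
    set L : ℝ := (2 : ℝ) ^ k with hL
    have hL1 : 1 ≤ L := one_le_pow₀ (by norm_num)
    have hL0 : 0 < L := by linarith
    have e1 : L * L ^ (-(1 - δ)) = L ^ δ := by
      have : L ^ δ = L ^ ((1 : ℝ) + -(1 - δ)) := by
        congr 1
        ring
      rw [this, Real.rpow_add hL0, Real.rpow_one]
    rw [e1]
    have hx : 0 < L ^ δ := Real.rpow_pos_of_pos hL0 _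
    have h4 : (L ^ δ) ^ n / n.factorial ≤ Real.exp (L ^ δ) := Real.pow_div_factorial_le_exp _ hx.le n
    have h5 : L ^ 2 ≤ (L ^ δ) ^ n := by
      rw [← Real.rpow_natCast (L ^ δ), ← Real.rpow_mul hL0.le, ← Real.rpow_natCast L 2]
      refine Real.rpow_le_rpow_of_exponent_le hL1 ?_
      rw [mul_comm]
      exact_mod_cast hnδ
    have hfac : (0 : ℝ) < n.factorial := by exact_mod_cast n.factorial_pos
    have h6 : Real.exp (-(L ^ δ)) ≤ n.factorial / L ^ 2 := by
      rw [Real.exp_neg, inv_le_comm₀ (Real.exp_pos _) (by positivity), inv_div]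
      exact (div_le_div_of_nonneg_right h5 hfac.le).trans h4
    have e2 : ((4 * M * 2 ^ k : ℕ) : ℝ) = 4 * M * L := by
      push_cast
      rfl
    have e3 : ((1 : ℝ) / 2) ^ k = 1 / L := by
      rw [hL, one_div_pow]
    rw [e2, e3]
    calc 4 * (M : ℝ) * L * Real.exp (-(L ^ δ)) ≤ 4 * M * L * (n.factorial / L ^ 2) :=
          mul_le_mul_of_nonneg_left h6 (by positivity)
      _ = 4 * M * n.factorial * (1 / L) := by
          field_simp
  · -- the second term
    refine Summable.of_nonneg_of_le (fun k => by positivity) (fun k => ?_)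
      (up_geom (r := 1 / 2) (by norm_num) (by norm_num) 1)
    have he : Real.exp 1 < 3 := by
      have := Real.exp_one_lt_d9
      linarith
    have hk : k ≤ 2 ^ k * M := by
      calc k ≤ 2 ^ k := Nat.lt_two_pow_self.le
        _ ≤ 2 ^ k * M := Nat.le_mul_of_pos_right _ hM
    have e1 : Real.exp ((2 : ℝ) ^ k * M) = Real.exp 1 ^ (2 ^ k * M) := by
      rw [← Real.exp_nat_mul]
      push_cast
      rw [mul_one]
    have e2 : ((1 : ℝ) / 2) ^ (4 * M * 2 ^ k) = (1 / 16) ^ (2 ^ k * M) := by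
      have : (1 / 16 : ℝ) = (1 / 2) ^ 4 := by norm_num
      rw [this, ← pow_mul]
      congr 1
      ring
    rw [e1, e2, ← mul_pow, one_mul]
    calc (Real.exp 1 * (1 / 16)) ^ (2 ^ k * M) ≤ (1 / 2) ^ (2 ^ k * M) :=
          pow_le_pow_left₀ (by positivity) (by linarith) _
      _ ≤ (1 / 2) ^ k := pow_le_pow_of_le_one (by norm_num) (by norm_num) hk
  · -- the third term
    obtain ⟨C, hC, hup⟩ := tail_upper hp0 hp1 hb0 hb1 hr
    have hFZ := hup (FZ p) (FZ_isTail hp0.le hp1.le) (fun n => (FZ_succ hp0.le hp1.le n).le)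
    have hb : 0 < b := by linarith
    have hbδ : 0 < b * δ := mul_pos hb hδ0
    have hr1 : ((2 : ℝ) ^ (-(b * δ))) < 1 :=
      Real.rpow_lt_one_of_one_lt_of_neg (by norm_num) (by linarith)
    refine Summable.of_nonneg_of_le (fun k => ?_) (fun k => ?_)
      (up_geom (r := (2 : ℝ) ^ (-(b * δ))) (by positivity) hr1 (2 * √M * (C * 2 ^ b)))
    · have : 0 ≤ FZ p ⌊((2 : ℝ) ^ k) ^ (1 / (2 * b) + δ)⌋₊ := ENNReal.toReal_nonneg
      positivity
    set L : ℝ := (2 : ℝ) ^ k with hL
    have hL1 : 1 ≤ L := one_le_pow₀ (by norm_num)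
    have hL0 : 0 < L := by linarith
    set e : ℝ := 1 / (2 * b) + δ with he
    have he0 : 0 < e := by positivity
    have hLe : 1 ≤ L ^ e := Real.one_le_rpow hL1 he0.le
    have hn1 : 1 ≤ ⌊L ^ e⌋₊ := Nat.le_floor (by exact_mod_cast hLe)
    have hn2 : L ^ e / 2 ≤ (⌊L ^ e⌋₊ : ℝ) := by
      have h4 := Nat.lt_floor_add_one (L ^ e)
      have h5 : (1 : ℝ) ≤ (⌊L ^ e⌋₊ : ℝ) := by exact_mod_cast hn1
      linarith
    have h6 : ((⌊L ^ e⌋₊ : ℝ)) ^ (-b) ≤ (L ^ e / 2) ^ (-b) :=
      Real.rpow_le_rpow_of_nonpos (by positivity) hn2 (by linarith)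
    have h7 : (L ^ e / 2) ^ (-b) = 2 ^ b * (L ^ (-(1 / 2 : ℝ)) * L ^ (-(b * δ))) := by
      rw [Real.div_rpow (by positivity) (by norm_num), ← Real.rpow_mul hL0.le,
        Real.rpow_neg (by norm_num : (0 : ℝ) ≤ 2), div_inv_eq_mul, ← Real.rpow_add hL0, mul_comm]
      congr 2
      rw [he]
      field_simp
      ring
    have h8 : √((4 * M * 2 ^ k : ℕ) : ℝ) = 2 * √M * L ^ (1 / 2 : ℝ) := by
      have e2 : ((4 * M * 2 ^ k : ℕ) : ℝ) = 2 ^ 2 * (M * L) := by
        push_cast
        ring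
      rw [e2, Real.sqrt_mul (by positivity), Real.sqrt_mul (by positivity),
        Real.sqrt_sq (by norm_num), ← Real.sqrt_eq_rpow]
      ring
    have h9 : L ^ (1 / 2 : ℝ) * L ^ (-(1 / 2 : ℝ)) = 1 := by
      rw [← Real.rpow_add hL0]
      norm_num
    have h10 : ((2 : ℝ) ^ (-(b * δ))) ^ k = L ^ (-(b * δ)) := by
      rw [hL, ← Real.rpow_natCast, ← Real.rpow_mul (by norm_num), ← Real.rpow_natCast (2 : ℝ) k,
        ← Real.rpow_mul (by norm_num), mul_comm]
    rw [h8, h10]
    calc 2 * √M * L ^ (1 / 2 : ℝ) * FZ p ⌊L ^ e⌋₊ ≤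
        2 * √M * L ^ (1 / 2 : ℝ) * (C * (2 ^ b * (L ^ (-(1 / 2 : ℝ)) * L ^ (-(b * δ))))) := by
          refine mul_le_mul_of_nonneg_left ?_ (by positivity)
          refine (hFZ _ hn1).trans ?_
          rw [← h7]
          exact mul_le_mul_of_nonneg_left h6 hC.le
      _ = 2 * √M * (C * 2 ^ b) * L ^ (-(b * δ)) * (L ^ (1 / 2 : ℝ) * L ^ (-(1 / 2 : ℝ))) := by
          ring
      _ = _ := by rw [h9, mul_one]

end Pool.Agent.BSP
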