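import Pool.Agent.BSP.ExcPath
import Pool.Agent.BSP.UProb

set_option autoImplicit false

/-!
# From good marks of the path to marks of the excursion
-/

namespace Pool.Agent.BSP

open MeasureTheory ProbabilityTheory Set Filter
open scoped ENNReal NNReal Topology

private theorem ug_split1 (v : List ℝ) : ∀ g : ℝ, 0 ≤ g → g < v.sum →
    ∃ (v1 : List ℝ) (τ : ℝ) (v' : List ℝ), v = v1 ++ τ :: v' ∧ v1.sum ≤ g ∧ g < v1.sum + τ := by
  induction v with
  | nil => intro g h1 h2; simp at h2; linarith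
  | cons τ v ih =>
    intro g h1 h2
    by_cases h : g < τ
    · exact ⟨[], τ, v, rfl, by simpa using h1, by simpa using h⟩
    · rw [List.sum_cons] at h2
      obtain ⟨v1, τ1, v', e, h3, h4⟩ := ih (g - τ) (by linarith) (by linarith)
      refine ⟨τ :: v1, τ1, v', by rw [e]; rfl, ?_, ?_⟩
      · rw [List.sum_cons]; linarith
      · rw [List.sum_cons]; linarith

private theorem ug_split2 (v : List ℝ) : ∀ e : ℝ, 0 < e → e ≤ v.sum →
    ∃ (v2 : List ℝ) (τ' : ℝ) (v3 : List ℝ), v = v2 ++ τ' :: v3 ∧ v2.sum < e ∧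
      e ≤ v2.sum + τ' := by
  induction v with
  | nil => intro e h1 h2; simp at h2; linarith
  | cons τ v ih =>
    intro e h1 h2
    by_cases h : e ≤ τ
    · exact ⟨[], τ, v, rfl, by simpa using h1, by simpa using h⟩
    · rw [List.sum_cons] at h2
      obtain ⟨v2, τ1, v3, e', h3, h4⟩ := ih (e - τ) (by linarith) (by linarith)
      refine ⟨τ :: v2, τ1, v3, by rw [e']; rfl, ?_, ?_⟩
      · rw [List.sum_cons]; linarith
      · rw [List.sum_cons]; linarith

/-- the marks inside of `(g, d)` -/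
theorem split_marks {v : List ℝ} {η g d : ℝ} (hv : ∀ τ ∈ v, 0 < τ ∧ τ ≤ η) (hg : 0 ≤ g)
    (hgd : g + 4 * η ≤ d) (hd : d ≤ v.sum) (hη : 0 < η) :
    ∃ (v1 : List ℝ) (τ : ℝ) (v2 : List ℝ) (τ' : ℝ) (v3 : List ℝ),
      v = v1 ++ τ :: (v2 ++ τ' :: v3) ∧ v1.sum ≤ g ∧ g < v1.sum + τ ∧
      v1.sum + τ + v2.sum < d ∧ d ≤ v1.sum + τ + v2.sum + τ' := by
  obtain ⟨v1, τ, v', e1, h1, h2⟩ := ug_split1 v g hg (by linarith)
  have hτ : τ ≤ η := (hv τ (by rw [e1]; simp)).2
  have hsum : v.sum = v1.sum + (τ + v'.sum) := by rw [e1]; simp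
  obtain ⟨v2, τ', v3, e2, h3, h4⟩ := ug_split2 v' (d - (v1.sum + τ)) (by linarith) (by linarith)
  refine ⟨v1, τ, v2, τ', v3, by rw [e1, e2], h1, h2, by linarith, by linarith⟩

/-! ### the pieces -/

private theorem ug_pos (W : ℝ → ℝ) (v : List ℝ) : ∀ (a : ℝ) (c : List Bool),
    c.length = v.length → pos (W a) (zipS (pcs W a v) c) = W (a + v.sum) := by
  induction v with
  | nil => intro a c _; simp [pcs, zipS, pos]
  | cons τ v ih =>
    intro a c hc
    obtain ⟨b, c', rfl⟩ : ∃ b c', c = b :: c' := by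
      cases c with
      | nil => simp at hc
      | cons b c' => exact ⟨b, c', rfl⟩
    have h1 : zipS (pcs W a (τ :: v)) (b :: c') =
        adS (dW W a τ, uW W a τ, τ, true) b :: zipS (pcs W (a + τ) v) c' := rfl
    rw [h1, pos]
    have h2 : W a - pD (adS (dW W a τ, uW W a τ, τ, true) b) +
        pU (adS (dW W a τ, uW W a τ, τ, true) b) = W (a + τ) := by
      simp only [adS, pD, pU, dW, uW]
      ring
    rw [h2, ih (a + τ) c' (by simpa using hc), List.sum_cons, add_assoc]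

private theorem ug_mapT (W : ℝ → ℝ) (v : List ℝ) : ∀ (a : ℝ) (c : List Bool),
    c.length = v.length → (zipS (pcs W a v) c).map pT = v := by
  induction v with
  | nil => intro a c _; simp [pcs, zipS]
  | cons τ v ih =>
    intro a c hc
    obtain ⟨b, c', rfl⟩ : ∃ b c', c = b :: c' := by
      cases c with
      | nil => simp at hc
      | cons b c' => exact ⟨b, c', rfl⟩
    have h1 : zipS (pcs W a (τ :: v)) (b :: c') =
        adS (dW W a τ, uW W a τ, τ, true) b :: zipS (pcs W (a + τ) v) c' := rfl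
    rw [h1, List.map_cons, ih (a + τ) c' (by simpa using hc)]
    rfl

/-- splitting the list of pieces -/
private theorem ug_app (w : ℝ≥0 → ℝ) (loc : ℕ → ℝ) (sgn : ℕ → Bool) (a : ℝ) (v v' : List ℝ)
    (c c' : List Bool) (hc : c.length = v.length) :
    zipS (pcs (tr w) a (v ++ v')) (sgs w loc sgn a (v ++ v') (c ++ c')) =
      zipS (pcs (tr w) a v) (sgs w loc sgn a v c) ++
        zipS (pcs (tr w) (a + v.sum) v') (sgs w loc sgn (a + v.sum) v' c') := by
  rw [pcs_append, sgs_append w loc sgn a v v' c c' hc]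
  unfold zipS
  rw [List.zipWith_append]
  rw [length_pcs, length_sgs w loc sgn a v c hc]

private theorem ug_split_c {α β : Type} (c : List α) (v v' : List β)
    (h : c.length = (v ++ v').length) : ∃ c1 c', c = c1 ++ c' ∧ c1.length = v.length ∧
      c'.length = v'.length := by
  rw [List.length_append] at h
  refine ⟨c.take v.length, c.drop v.length, (List.take_append_drop _ _).symm, ?_, ?_⟩
  · rw [List.length_take]; omega
  · rw [List.length_drop]; omega

private theorem ug_cons_c {α β : Type} (c : List α) (x : β) (v : List β)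
    (h : c.length = (x :: v).length) : ∃ b c', c = b :: c' ∧ c'.length = v.length := by
  cases c with
  | nil => simp at h
  | cons b c' => exact ⟨b, c', rfl, by simpa using h⟩

private theorem ug_sum_take {v : List ℝ} (hv : ∀ τ ∈ v, 0 < τ) {i j : ℕ} (hij : i ≤ j) :
    (v.take i).sum ≤ (v.take j).sum := by
  have h1 : (v.take j) = (v.take j).take i ++ (v.take j).drop i :=
    (List.take_append_drop _ _).symm
  rw [h1, List.sum_append, List.take_take, min_eq_left hij]
  have : 0 ≤ ((v.take j).drop i).sum := by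
    refine List.sum_nonneg fun x hx => ?_
    exact (hv x (List.mem_of_mem_take (List.mem_of_mem_drop hx))).le
  linarith

private theorem ug_take_succ {v : List ℝ} {i : ℕ} (hi : i < v.length) :
    (v.take (i + 1)).sum = (v.take i).sum + v[i] := by
  rw [List.sum_take_succ _ _ hi]

/-- the shape of the marks inside of the excursion: `exists_hasShape`, `GenPath.isArgmin`,
`GenPath.dist`, `exc_strictMin`, and `¬ BadZ` bounds `valZ` -/
theorem ugeo {w : ℝ≥0 → ℝ} (h : GenPath (tr w)) (h1 : 0 < w 1) {loc : ℕ → ℝ} {sgn : ℕ → Bool}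
    (hl : ∀ m, 0 < m → m < 1 → IsStrictMin (exc w) m → ∃ k, loc k = m) {η M : ℝ} {z : ℕ}
    (hη0 : 0 < η) (hη : 4 * η ≤ dR w - gL w) (hM : dR w ≤ M) {v : List ℝ} {c : List Bool}
    (hc : c.length = v.length)
    (hb : ¬ UE η M z (zipS (pcs (tr w) 0 v) (sgs w loc sgn 0 v c))) :
    ∃ (n : ℕ) (t m : ℕ → ℝ) (T : Tr), 0 < t 0 ∧ t 0 ≤ η / (dR w - gL w) ∧ t n < 1 ∧
      1 - t n ≤ η / (dR w - gL w) ∧
      (∀ i, i < n → IsArgmin (exc w) (t i) (t (i + 1)) (m i) ∧
        t (i + 1) - t i ≤ η / (dR w - gL w)) ∧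
      HasShape T ((List.range n).map fun i => (exc w (m i), signAt loc sgn (m i), true)) ∧
      T.valZ ≤ z := by
  obtain ⟨hg0, hg1, hd1, hWg, hWd, hWpos⟩ := exc_ends h h1
  obtain ⟨g, hgdef⟩ : ∃ g, g = gL w := ⟨_, rfl⟩
  obtain ⟨d, hddef⟩ : ∃ d, d = dR w := ⟨_, rfl⟩
  rw [← hgdef] at hg0 hg1 hWg hη
  rw [← hddef] at hd1 hWd hη hM
  rw [← hgdef, ← hddef] at hWpos
  rw [← hgdef, ← hddef]
  have hD : 0 < d - g := by linarith
  set W : ℝ → ℝ := tr w with hW
  have hWc : Continuous W := h.cont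
  -- the good event
  unfold UE at hb
  push Not at hb
  obtain ⟨hgood, hsumM, hbad⟩ := hb
  have hlen : (sgs w loc sgn 0 v c).length = v.length := length_sgs w loc sgn 0 v c hc
  rw [ug_mapT W v 0 _ hlen] at hsumM
  have hv : ∀ τ ∈ v, 0 < τ ∧ τ ≤ η := by
    intro τ hτ
    rw [← ug_mapT W v 0 _ hlen] at hτ
    obtain ⟨x, hx, rfl⟩ := List.mem_map.1 hτ
    obtain ⟨ha, hb', _, _⟩ := hgood x hx
    exact ⟨ha, hb'⟩
  obtain ⟨v1, τ, v2, τ', v3, hvs, hs1, hs2, hs3, hs4⟩ := split_marks hv hg0 (by linarith)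
    (hM.trans hsumM) hη0
  -- splitting of the signs
  rw [hvs] at hc
  obtain ⟨c1, cA, rfl, hc1, hcA⟩ := ug_split_c c v1 (τ :: (v2 ++ τ' :: v3)) hc
  obtain ⟨b, cB, rfl, hcB⟩ := ug_cons_c cA τ (v2 ++ τ' :: v3) hcA
  obtain ⟨c2, cC, rfl, hc2, hcC⟩ := ug_split_c cB v2 (τ' :: v3) hcB
  obtain ⟨b', c3, rfl, hc3⟩ := ug_cons_c cC τ' v3 hcC
  obtain ⟨s0, hs0⟩ : ∃ s0, s0 = v1.sum + τ := ⟨_, rfl⟩
  have hτη : 0 < τ ∧ τ ≤ η := hv τ (by rw [hvs]; simp)
  have hτη' : 0 < τ' ∧ τ' ≤ η := hv τ' (by rw [hvs]; simp)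
  have hv2 : ∀ σ ∈ v2, 0 < σ ∧ σ ≤ η := fun σ hσ => hv σ (by
    rw [hvs, List.mem_append, List.mem_cons, List.mem_append]
    exact Or.inr (Or.inr (Or.inl hσ)))
  have hv1 : 0 ≤ v1.sum := by
    refine List.sum_nonneg fun σ hσ => (hv σ ?_).1.le
    rw [hvs, List.mem_append]; exact Or.inl hσ
  -- the list of pieces
  obtain ⟨l1, hl1⟩ : ∃ l1, l1 = zipS (pcs W 0 v1) (sgs w loc sgn 0 v1 c1) := ⟨_, rfl⟩
  obtain ⟨l2, hl2⟩ : ∃ l2, l2 = zipS (pcs W s0 v2) (sgs w loc sgn s0 v2 c2) := ⟨_, rfl⟩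
  obtain ⟨l3, hl3⟩ : ∃ l3, l3 = zipS (pcs W (s0 + v2.sum + τ') v3)
    (sgs w loc sgn (s0 + v2.sum + τ') v3 c3) := ⟨_, rfl⟩
  have hL : ∃ b1 b2, zipS (pcs W 0 v) (sgs w loc sgn 0 v (c1 ++ b :: (c2 ++ b' :: c3))) =
      l1 ++ adS (dW W v1.sum τ, uW W v1.sum τ, τ, true) b1 ::
        (l2 ++ adS (dW W (s0 + v2.sum) τ', uW W (s0 + v2.sum) τ', τ', true) b2 :: l3) := by
    rw [hvs, ug_app w loc sgn 0 v1 _ c1 _ hc1, zero_add]
    have e1 : ∀ (x : ℝ) (u : ℝ) (vv : List ℝ) (bb : Bool) (cc : List Bool), ∃ b1,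
        zipS (pcs (tr w) x (u :: vv)) (sgs w loc sgn x (u :: vv) (bb :: cc)) =
        adS (dW W x u, uW W x u, u, true) b1 ::
          zipS (pcs (tr w) (x + u) vv) (sgs w loc sgn (x + u) vv cc) := by
      intro x u vv bb cc
      exact ⟨_, rfl⟩
    obtain ⟨b1, e2⟩ := e1 v1.sum τ (v2 ++ τ' :: v3) b (c2 ++ b' :: c3)
    rw [e2, ← hs0, ug_app w loc sgn s0 v2 _ c2 _ hc2]
    obtain ⟨b2, e3⟩ := e1 (s0 + v2.sum) τ' v3 b' c3
    rw [e3]
    exact ⟨b1, b2, by rw [hl1, hl2, hl3]⟩
  obtain ⟨b1, b2, hL⟩ := hL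
  rw [hL] at hgood hbad
  -- the pieces inside
  have ha0 : ∀ i, s0 ≤ s0 + (v2.take i).sum := by
    intro i
    have : 0 ≤ (v2.take i).sum := List.sum_nonneg fun σ hσ =>
      (hv2 σ (List.mem_of_mem_take hσ)).1.le
    linarith
  have hale : ∀ i, s0 + (v2.take i).sum ≤ s0 + v2.sum := by
    intro i
    have h3 := ug_sum_take (v := v2) (fun σ hσ => (hv2 σ hσ).1) (le_max_left i v2.length)
    rw [List.take_of_length_le (le_max_right i v2.length)] at h3
    linarith
  have hgs0 : g < s0 := by rw [hs0]; exact hs2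
  have hs0d : s0 + v2.sum < d := by rw [hs0]; exact hs3
  have hdW : ∀ i (hi : i < v2.length), 0 < dW W (s0 + (v2.take i).sum) v2[i] ∧
      0 < uW W (s0 + (v2.take i).sum) v2[i] := by
    intro i hi
    have hmem : ∃ bb, adS (dW W (s0 + (v2.take i).sum) v2[i], uW W (s0 + (v2.take i).sum) v2[i],
        v2[i], true) bb ∈ l2 := by
      have e1 : v2 = v2.take i ++ v2[i] :: v2.drop (i + 1) := by
        rw [List.cons_getElem_drop_succ, List.take_append_drop]
      obtain ⟨x, hx⟩ : ∃ x, x = v2[i] := ⟨_, rfl⟩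
      rw [← hx] at e1 ⊢
      obtain ⟨p1, hp1⟩ : ∃ p1, p1 = v2.take i := ⟨_, rfl⟩
      obtain ⟨p2, hp2⟩ : ∃ p2, p2 = v2.drop (i + 1) := ⟨_, rfl⟩
      rw [← hp1, ← hp2] at e1
      rw [← hp1]
      rw [e1] at hc2
      obtain ⟨q1, q', rfl, hq1, hq'⟩ := ug_split_c c2 p1 (x :: p2) hc2
      obtain ⟨bq, q2, rfl, hq2⟩ := ug_cons_c q' x p2 hq'
      rw [hl2, e1, ug_app w loc sgn s0 p1 _ q1 _ hq1]
      exact ⟨_, List.mem_append_right _ List.mem_cons_self⟩
    obtain ⟨bb, hmem⟩ := hmem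
    obtain ⟨_, _, h3, h4⟩ := hgood _ (by
      rw [List.mem_append, List.mem_cons, List.mem_append]
      exact Or.inr (Or.inr (Or.inl hmem)))
    exact ⟨h3, h4⟩
  have hpiece : ∀ i (hi : i < v2.length), IsArgmin W (s0 + (v2.take i).sum)
      (s0 + (v2.take i).sum + v2[i]) (am W (s0 + (v2.take i).sum) v2[i]) := by
    intro i hi
    refine h.isArgmin ?_ (hv2 _ (List.getElem_mem hi)).1 (hdW i hi).1 (hdW i hi).2
    have := ha0 i
    linarith
  have hsucc : ∀ i (hi : i < v2.length), s0 + (v2.take i).sum + v2[i] =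
      s0 + (v2.take (i + 1)).sum := by
    intro i hi
    rw [ug_take_succ hi]; ring
  have hle2 : ∀ i (hi : i < v2.length), s0 + (v2.take i).sum + v2[i] ≤ d := by
    intro i hi
    rw [hsucc i hi]
    exact (hale (i + 1)).trans hs0d.le
  have hge2 : ∀ i, g ≤ s0 + (v2.take i).sum := fun i => hgs0.le.trans (ha0 i)
  have hIns : ∀ i (hi : i < v2.length), Ins w loc (s0 + (v2.take i).sum) v2[i]
      (am W (s0 + (v2.take i).sum) v2[i]) := by
    intro i hi
    have hp := hpiece i hi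
    obtain ⟨h5, h6, h7⟩ := exc_strictMin h h1 (hgdef ▸ hge2 i) (hddef ▸ hle2 i hi) hp
    refine ⟨h1, hp.1, hp.2.1, ?_, ?_, hl _ h5 h6 h7⟩
    · rw [← hgdef]; exact lt_of_le_of_lt (hge2 i) hp.1
    · rw [← hddef]; exact lt_of_lt_of_le hp.2.1 (hle2 i hi)
  have hl2' : l2 = pcS W (sw w loc sgn) s0 v2 := by
    rw [hl2]
    refine zipS_eq_pcS hc2 ?_
    intro p1 x p2 hp
    have hi : p1.length < v2.length := by rw [hp]; simp
    have h3 := hIns p1.length hi
    have e1 : v2.take p1.length = p1 := by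
      rw [hp]; exact List.take_left' rfl
    have e2 : v2[p1.length] = x := by
      have : v2[p1.length]? = some x := by
        rw [hp, List.getElem?_append_right le_rfl]; simp
      rw [List.getElem?_eq_getElem hi] at this
      exact Option.some.inj this
    rw [e1, e2] at h3
    exact h3
  -- the items
  obtain ⟨mm, hmm⟩ : ∃ mm : ℕ → ℝ, mm = fun i => am W (s0 + (v2.take i).sum) (v2.getD i 0) :=
    ⟨_, rfl⟩
  have hmmi : ∀ i (hi : i < v2.length), mm i = am W (s0 + (v2.take i).sum) v2[i] := by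
    intro i hi
    rw [hmm]
    simp only []
    rw [List.getD_eq_getElem _ _ hi]
  have hmins : mins (W s0) l2 = (List.range v2.length).map
      fun i => (W (mm i), sw w loc sgn (mm i), true) := by
    apply List.ext_getElem?
    intro i
    by_cases hi : i < v2.length
    · rw [hl2', mins_pcS (sw w loc sgn) s0 v2 i hi, List.getElem?_map,
        List.getElem?_range hi]
      simp only [Option.map_some]
      rw [hmmi i hi, (am_spec hWc (hv2 _ (List.getElem_mem hi)).1.le).2.2.1]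
    · rw [List.getElem?_eq_none, List.getElem?_eq_none]
      · simpa using Nat.le_of_not_lt hi
      · rw [length_mins, hl2']
        have : (pcS W (sw w loc sgn) s0 v2).length = v2.length := by
          rw [← hl2', hl2]
          unfold zipS
          rw [List.length_zipWith, length_pcs, length_sgs w loc sgn s0 v2 c2 hc2, min_self]
        rw [this]
        exact Nat.le_of_not_lt hi
  have hlocmin : ∀ i (hi : i < v2.length), IsLocalMin W (mm i) ∧
      s0 + (v2.take i).sum < mm i ∧ mm i < s0 + (v2.take (i + 1)).sum := by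
    intro i hi
    have hp := hpiece i hi
    rw [hsucc i hi, ← hmmi i hi] at hp
    refine ⟨?_, hp.1, hp.2.1⟩
    filter_upwards [Ioo_mem_nhds hp.1 hp.2.1] with y hy
    by_cases hym : y = mm i
    · rw [hym]
    · exact (hp.2.2 y hy.1.le hy.2.le hym).le
  have hpw : (mins (W s0) l2).Pairwise fun a b => a.1 ≠ b.1 := by
    rw [hmins, List.pairwise_map]
    refine List.Pairwise.imp_of_mem ?_ (List.pairwise_lt_range (n := v2.length))
    intro i j hi hj hij hcon
    rw [List.mem_range] at hi hj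
    obtain ⟨hi1, hi2, hi3⟩ := hlocmin i hi
    obtain ⟨hj1, hj2, hj3⟩ := hlocmin j hj
    have hposi : 0 < mm i := by have := ha0 i; linarith
    have hposj : 0 < mm j := by have := ha0 j; linarith
    have heq := h.dist (mm i) (mm j) hposi hposj hi1 hj1 hcon
    have := ug_sum_take (v := v2) (fun σ hσ => (hv2 σ hσ).1) (show i + 1 ≤ j from hij)
    linarith
  obtain ⟨T, hT⟩ := exists_hasShape hpw
  have hsq : 0 < √(d - g) := Real.sqrt_pos.2 hD
  -- values of the excursion
  have hval : ∀ i (hi : i < v2.length), exc w ((mm i - g) / (d - g)) = W (mm i) / √(d - g) := by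
    intro i hi
    obtain ⟨hi1, hi2, hi3⟩ := hlocmin i hi
    have hm1 : g ≤ mm i := (hge2 i).trans hi2.le
    have hm2 : mm i ≤ d := hi3.le.trans ((hale (i + 1)).trans hs0d.le)
    have h3 := exc_eq h h1 (t := (mm i - g) / (d - g)) (div_nonneg (by linarith) hD.le)
      ((div_le_one hD).2 (by linarith))
    rw [← hgdef, ← hddef] at h3
    rw [h3]
    congr 2
    field_simp
    ring
  refine ⟨v2.length, fun i => (s0 + (v2.take i).sum - g) / (d - g),
    fun i => (mm i - g) / (d - g), T, ?_, ?_, ?_, ?_, ?_, ?_, ?_⟩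
  · simp only [List.take_zero, List.sum_nil, add_zero]
    exact div_pos (by linarith) hD
  · simp only [List.take_zero, List.sum_nil, add_zero]
    refine div_le_div_of_nonneg_right ?_ hD.le
    linarith [hτη.2]
  · simp only [List.take_length]
    rw [div_lt_one hD]
    linarith
  · simp only [List.take_length]
    rw [show 1 - (s0 + v2.sum - g) / (d - g) = (d - (s0 + v2.sum)) / (d - g) by
      field_simp; ring]
    refine div_le_div_of_nonneg_right ?_ hD.le
    rw [← hs0] at hs4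
    linarith [hτη'.2]
  · intro i hi
    have hp := hpiece i hi
    have h3 := exc_argmin h h1 (hgdef ▸ hge2 i) (hddef ▸ hle2 i hi) hp
    rw [← hgdef, ← hddef, hsucc i hi, ← hmmi i hi] at h3
    refine ⟨h3, ?_⟩
    simp only []
    rw [← sub_div, ← hsucc i hi]
    refine div_le_div_of_nonneg_right ?_ hD.le
    have := (hv2 _ (List.getElem_mem hi)).2
    linarith
  · have hmono : StrictMono fun x : ℝ => x / √(d - g) := by
      intro x y hxy
      exact div_lt_div_of_pos_right hxy hsq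
    have h3 := hT.map hmono
    rw [hmins, List.map_map] at h3
    have e1 : (List.range v2.length).map (fun i => (exc w ((mm i - g) / (d - g)),
        signAt loc sgn ((mm i - g) / (d - g)), true)) =
        (List.range v2.length).map ((fun z : It => (z.1 / √(d - g), z.2)) ∘
          fun i => (W (mm i), sw w loc sgn (mm i), true)) := by
      refine List.map_congr_left fun i hi => ?_
      rw [List.mem_range] at hi
      simp only [Function.comp_apply]
      rw [hval i hi, sw, ← hgdef, ← hddef]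
    rw [e1]
    exact h3
  · by_contra hcon
    push Not at hcon
    apply hbad
    have hW0 : W 0 = 0 := h.zero
    have hp1 : pos 0 l1 = W v1.sum := by
      have h3 := ug_pos W v1 0 (sgs w loc sgn 0 v1 c1) (length_sgs w loc sgn 0 v1 c1 hc1)
      rw [hW0, zero_add] at h3
      rw [hl1]; exact h3
    have hh1 : pos 0 l1 - pD (adS (dW W v1.sum τ, uW W v1.sum τ, τ, true) b1) = mn W v1.sum τ := by
      rw [hp1]
      simp only [adS, pD, dW]
      ring
    have hh2 : pos 0 l1 - pD (adS (dW W v1.sum τ, uW W v1.sum τ, τ, true) b1) +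
        pU (adS (dW W v1.sum τ, uW W v1.sum τ, τ, true) b1) = W s0 := by
      rw [hh1]
      simp only [adS, pU, uW]
      rw [hs0]
      ring
    refine ⟨l1, _, l2, _, l3, T, rfl, ?_, ?_, ?_, ?_, ?_, hcon⟩
    · rw [hh1, ← hWg]
      refine (am_spec hWc hτη.1.le).2.2.2 g hs1 ?_
      rw [← hs0]; exact hgs0.le
    · rw [hh2]
      refine hWpos s0 hgs0 ?_
      have : 0 ≤ v2.sum := List.sum_nonneg fun σ hσ => (hv2 σ hσ).1.le
      linarith
    · rw [hh2, hmins]
      intro it hit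
      obtain ⟨i, hi, rfl⟩ := List.mem_map.1 hit
      rw [List.mem_range] at hi
      obtain ⟨hi1, hi2, hi3⟩ := hlocmin i hi
      exact hWpos _ (lt_of_le_of_lt (hge2 i) hi2)
        (lt_of_lt_of_le hi3 ((hale (i + 1)).trans hs0d.le))
    · rw [hh2, hl2, ug_pos W v2 s0 _ (length_sgs w loc sgn s0 v2 c2 hc2)]
      simp only [adS, pD, dW]
      have h3 := (am_spec hWc (a := s0 + v2.sum) hτη'.1.le).2.2.2 d hs0d.le (by
        rw [hs0]; exact hs4)
      rw [hWd] at h3
      linarith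
    · rw [hh2]
      exact hT

end Pool.Agent.BSP
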