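import Pool.Agent.BSP.UMarks
import Pool.Agent.BSP.UGeo
import Pool.Agent.BSP.ExcNice
import Pool.Agent.BSP.BGen
import Pool.Agent.BSP.DShape
import Pool.Agent.BSP.RR

set_option autoImplicit false

/-!
# Upper bound
-/

namespace Pool.Agent.BSP

open MeasureTheory ProbabilityTheory Set Filter
open scoped ENNReal NNReal Topology

variable {Ω : Type*} [MeasurableSpace Ω] {P : Measure Ω}

/-- the exponents -/
theorem upper_exponents {p α β : ℝ} (hp0 : 0 < p) (hp1 : p < 1) (hα0 : 1 / 2 < α) (hα1 : α < 1)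
    (hr : rr (1 / (2 * α)) = (1 - p) / p) (hβ : α < β) : ∃ b δ : ℝ, 1 / 2 < b ∧ b < 1 ∧
      rr b < (1 - p) / p ∧ 0 < δ ∧ δ < 1 ∧ 1 / (2 * b) + δ < β * (1 - δ) := by
  -- an exponent `γ` between `α` and `min β 1`
  obtain ⟨γ, h1, h2⟩ : ∃ γ, α < γ ∧ γ < min β 1 := exists_between (lt_min hβ hα1)
  have h3 : γ < β := h2.trans_le (min_le_left _ _)
  have h4 : γ < 1 := h2.trans_le (min_le_right _ _)
  have hγ0 : 0 < γ := by linarith
  have hα : 0 < α := by linarith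
  have hβ0 : 0 < β := by linarith
  have e1 : 1 / (2 * (1 / (2 * γ))) = γ := by field_simp
  refine ⟨1 / (2 * γ), (β - γ) / (2 * (1 + β)), ?_, ?_, ?_, ?_, ?_, ?_⟩
  · rw [div_lt_div_iff₀ (by norm_num) (by linarith)]
    linarith
  · rw [div_lt_one (by linarith)]
    linarith
  · rw [← hr]
    apply rr_lt
    · rw [div_lt_div_iff₀ (by norm_num) (by linarith)]
      linarith
    · rw [div_lt_div_iff₀ (by linarith) (by linarith)]
      linarith
    · rw [div_lt_one (by linarith)]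
      linarith
  · exact div_pos (by linarith) (by linarith)
  · rw [div_lt_one (by linarith)]
    linarith
  · rw [e1]
    have h5 : (β - γ) / (2 * (1 + β)) * (1 + β) = (β - γ) / 2 := by
      field_simp
    nlinarith

/-- the limit -/
private theorem umain_lim {κ δ D β : ℝ} {c : ℝ} (hδ1 : δ < 1) (hD : 0 < D) (hβ : 0 ≤ β)
    (hκ : κ < β * (1 - δ)) {ε : ℝ} (hε : 0 < ε) (hc : 0 < c) :
    ∀ᶠ k : ℕ in atTop, ((2 : ℝ) ^ k) ^ (-(1 - δ)) ≤ c ∧ ((2 : ℝ) ^ k) ^ (-(1 - δ)) / D < ε ∧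
      ((2 : ℝ) ^ k) ^ κ * (((2 : ℝ) ^ k) ^ (-(1 - δ)) / D) ^ β < ε := by
  have hL : Tendsto (fun k : ℕ => (2 : ℝ) ^ k) atTop atTop :=
    tendsto_pow_atTop_atTop_of_one_lt (by norm_num)
  have h1 : Tendsto (fun k : ℕ => ((2 : ℝ) ^ k) ^ (-(1 - δ))) atTop (𝓝 0) :=
    (tendsto_rpow_neg_atTop (by linarith)).comp hL
  have h2 : Tendsto (fun k : ℕ => ((2 : ℝ) ^ k) ^ (-(1 - δ)) / D) atTop (𝓝 0) := by
    have := h1.div_const D
    rwa [zero_div] at this
  have h3 : Tendsto (fun k : ℕ => ((2 : ℝ) ^ k) ^ (-(β * (1 - δ) - κ)) * D ^ (-β))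
      atTop (𝓝 0) := by
    have := ((tendsto_rpow_neg_atTop (y := β * (1 - δ) - κ) (by linarith)).comp hL).mul_const
      (D ^ (-β))
    rwa [zero_mul] at this
  filter_upwards [h1.eventually (gt_mem_nhds hc), h2.eventually (gt_mem_nhds hε),
    h3.eventually (gt_mem_nhds hε)] with k a1 a2 a3
  refine ⟨a1.le, a2, ?_⟩
  have hpos : (0 : ℝ) < (2 : ℝ) ^ k := by positivity
  have e : ((2 : ℝ) ^ k) ^ κ * (((2 : ℝ) ^ k) ^ (-(1 - δ)) / D) ^ β =
      ((2 : ℝ) ^ k) ^ (-(β * (1 - δ) - κ)) * D ^ (-β) := by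
    rw [Real.div_rpow (Real.rpow_nonneg hpos.le _) hD.le, ← Real.rpow_mul hpos.le,
      Real.rpow_neg hD.le, ← mul_div_assoc, ← Real.rpow_add hpos, div_eq_mul_inv]
    congr 2
    ring
  rw [e]
  exact a3

theorem upper_as {p α : ℝ} (hp0 : 0 < p) (hp1 : p < 1) (hα0 : 1 / 2 < α) (hα1 : α < 1)
    (hr : rr (1 / (2 * α)) = (1 - p) / p) {C : ℝ≥0 → Ω → ℝ} (hC : BM C P)
    {loc : ℕ → Ω → ℝ} {sgn : ℕ → Ω → Bool} (hs : Sgn P p C loc sgn) :
    ∀ᵐ ω ∂P, 0 < C 1 ω → ∀ A ⊆ supp (perm (exc fun t => C t ω)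
      (signAt (fun k => loc k ω) fun k => sgn k ω)), Incr A → dimE A ≤ ENNReal.ofReal α := by
  have key : ∀ j : ℕ, ∀ᵐ ω ∂P, 0 < C 1 ω → ∀ A ⊆ supp (perm (exc fun t => C t ω)
      (signAt (fun k => loc k ω) fun k => sgn k ω)), Incr A →
      dimE A ≤ ENNReal.ofReal (α + 1 / ((j : ℝ) + 1)) := by
    intro j
    set β : ℝ := α + 1 / ((j : ℝ) + 1) with hβdef
    have hj : 0 < 1 / ((j : ℝ) + 1) := by positivity
    have hβ : α < β := by linarith
    have hβ0 : 0 ≤ β := by linarith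
    obtain ⟨b, δ, hb0, hb1, hrb, hδ0, hδ1, hbd⟩ := upper_exponents hp0 hp1 hα0 hα1 hr hβ
    filter_upwards [bm_genPath hC, upper_marks hp0 hp1 hb0 hb1 hrb hδ0 hδ1 hC hs, hs.loc_all]
      with ω hG hM hl h1 A hA hI
    have hG' : GenPath (tr fun t => C t ω) := hG
    have h1' : 0 < (fun t => C t ω) 1 := h1
    obtain ⟨g0, g1, d1, -, -, -⟩ := exc_ends hG' h1'
    have hD : 0 < dR (fun t => C t ω) - gL (fun t => C t ω) := by linarith
    obtain ⟨M, hMd⟩ := exists_nat_ge (dR fun t => C t ω)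
    refine upper_det (exc_nice hG' h1') hβ0 ?_ hA hI
    intro ε hε
    have hlim := umain_lim (κ := 1 / (2 * b) + δ) hδ1 hD hβ0 hbd hε
      (c := (dR (fun t => C t ω) - gL (fun t => C t ω)) / 4) (by linarith)
    obtain ⟨k, ⟨v, c, hc, hUE⟩, hk1, hk2, hk3⟩ := ((hM M).and hlim).exists
    have hη0 : 0 < ((2 : ℝ) ^ k) ^ (-(1 - δ)) := Real.rpow_pos_of_pos (by positivity) _
    obtain ⟨n, t, m, T, t0, t0', tn, tn', harg, hshape, hval⟩ := ugeo hG' h1' hl hη0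
      (by linarith) hMd hc hUE
    refine ⟨((2 : ℝ) ^ k) ^ (-(1 - δ)) / (dR (fun t => C t ω) - gL (fun t => C t ω)), n, t, m, T,
      hk2, ⟨t0, by simpa using t0', tn, tn', fun i hi => (harg i hi).1,
        fun i hi => (harg i hi).2⟩, hshape, ?_⟩
    refine lt_of_le_of_lt ?_ hk3
    apply mul_le_mul_of_nonneg_right
    · refine le_trans ?_ (Nat.floor_le (Real.rpow_nonneg (by positivity) _))
      exact_mod_cast hval
    · exact Real.rpow_nonneg (div_nonneg hη0.le hD.le) _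
  filter_upwards [ae_all_iff.2 key] with ω hω h1 A hA hI
  have h2 : ∀ j : ℕ, dimE A ≤ ENNReal.ofReal (α + 1 / ((j : ℝ) + 1)) := fun j => hω j h1 A hA hI
  have h3 : Tendsto (fun j : ℕ => ENNReal.ofReal (α + 1 / ((j : ℝ) + 1))) atTop
      (𝓝 (ENNReal.ofReal α)) := by
    have h4 : Tendsto (fun j : ℕ => α + 1 / ((j : ℝ) + 1)) atTop (𝓝 (α + 0)) :=
      tendsto_const_nhds.add tendsto_one_div_add_atTop_nhds_zero_nat
    rw [add_zero] at h4
    exact (ENNReal.continuous_ofReal.tendsto α).comp h4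
  exact ge_of_tendsto' h3 h2

end Pool.Agent.BSP
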