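import Pool.Agent.BSP.UProb
import Pool.Agent.BSP.SMain

set_option autoImplicit false

/-!
# Upper bound: almost surely the marks of all high levels are good
-/

namespace Pool.Agent.BSP

open MeasureTheory ProbabilityTheory Set Filter
open scoped ENNReal NNReal Topology

variable {Ω : Type*} [MeasurableSpace Ω] {P : Measure Ω}

private theorem um_marked {C : ℝ≥0 → Ω → ℝ} (hC : BM C P) {Λ : ℝ} (hΛ : 0 < Λ) :
    ∀ᵐ x ∂(law3 C P Λ), x.2.2.2 = true := by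
  classical
  have hm : MeasurableSet {x : Pc3 | ¬ x.2.2.2 = true} := by
    have h1 : Measurable fun x : Pc3 => x.2.2.2 := by fun_prop
    exact (h1 (measurableSet_singleton true)).compl
  rw [ae_iff, ← lintegral_indicator_one hm,
    law3_lintegral hC hΛ (F := {x : Pc3 | ¬ x.2.2.2 = true}.indicator 1)
      (measurable_one.indicator hm) le_rfl]
  simp

private theorem um_exists {α β : Type*} [MeasurableSpace α] [MeasurableSpace β] {ρ : Measure α}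
    {σ : Measure β} [IsProbabilityMeasure ρ] [IsProbabilityMeasure σ] {m : ℕ}
    {q : List α → List β → Prop}
    (h : LI ρ m (fun v => LI σ m (fun c => ind (q v c))) < 1) :
    ∃ v c, c.length = v.length ∧ ¬ q v c := by
  have h1 : ∃ v : List α, v.length = m ∧ LI σ m (fun c => ind (q v c)) < 1 := by
    by_contra hcon
    push Not at hcon
    have h2 : LI ρ m (fun _ => 1) ≤ LI ρ m (fun v => LI σ m (fun c => ind (q v c))) :=
      LI_mono ρ fun l hl => hcon l hl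
    rw [LI_const] at h2
    exact absurd h (not_lt.2 h2)
  obtain ⟨v, hv, h2⟩ := h1
  obtain ⟨c, hc, h3⟩ := exists_of_LI_lt σ h2
  exact ⟨v, c, by rw [hc, hv], h3⟩

private theorem um_mono {η : ℝ} {z : ℕ} {l : List Pc} (h : ¬ UE η ((1 : ℕ) : ℝ) z l) :
    ¬ UE η ((0 : ℕ) : ℝ) z l := by
  intro h0
  apply h
  rcases h0 with h0 | h0 | h0
  · exact Or.inl h0
  · right
    left
    push_cast at h0 ⊢
    linarith
  · exact Or.inr (Or.inr h0)

/-- Borel-Cantelli: `sign_main`, `sign_aemeas`, `ue_prob`, `ue_sum`, `exists_of_LI_lt` -/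
theorem upper_marks {p b δ : ℝ} (hp0 : 0 < p) (hp1 : p < 1) (hb0 : 1 / 2 < b) (hb1 : b < 1)
    (hr : rr b < (1 - p) / p) (hδ0 : 0 < δ) (hδ1 : δ < 1) {C : ℝ≥0 → Ω → ℝ} (hC : BM C P)
    {loc : ℕ → Ω → ℝ} {sgn : ℕ → Ω → Bool} (hs : Sgn P p C loc sgn) :
    ∀ᵐ ω ∂P, ∀ M : ℕ, ∀ᶠ k : ℕ in atTop, ∃ (v : List ℝ) (c : List Bool),
      c.length = v.length ∧ ¬ UE (((2 : ℝ) ^ k) ^ (-(1 - δ))) M
        ⌊((2 : ℝ) ^ k) ^ (1 / (2 * b) + δ)⌋₊ (zipS (pcs (pth C ω) 0 v)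
        (sgs (fun t => C t ω) (fun k => loc k ω) (fun k => sgn k ω) 0 v c)) := by
  have hPr := hC.prob
  have hbp := berM_prob hp0.le hp1.le
  rw [ae_all_iff]
  have key : ∀ M : ℕ, 1 ≤ M → ∀ᵐ ω ∂P, ∀ᶠ k : ℕ in atTop, ∃ (v : List ℝ) (c : List Bool),
      c.length = v.length ∧ ¬ UE (((2 : ℝ) ^ k) ^ (-(1 - δ))) M
        ⌊((2 : ℝ) ^ k) ^ (1 / (2 * b) + δ)⌋₊ (zipS (pcs (pth C ω) 0 v)
        (sgs (fun t => C t ω) (fun k => loc k ω) (fun k => sgn k ω) 0 v c)) := by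
    intro M hM
    have hL : ∀ k : ℕ, (0 : ℝ) < 2 ^ k := fun k => by positivity
    set f : ℕ → Ω → ℝ≥0∞ := fun k ω => LI (expMeasure ((2 : ℝ) ^ k)) (4 * M * 2 ^ k)
      (fun v => LI (berM p) (4 * M * 2 ^ k) (fun c => ind (UE (((2 : ℝ) ^ k) ^ (-(1 - δ))) M
        ⌊((2 : ℝ) ^ k) ^ (1 / (2 * b) + δ)⌋₊ (zipS (pcs (pth C ω) 0 v)
        (sgs (fun t => C t ω) (fun k => loc k ω) (fun k => sgn k ω) 0 v c))))) with hf
    have hfm : ∀ k, AEMeasurable (f k) P := fun k =>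
      sign_aemeas hp0.le hp1.le hC hs (hL k) (F := fun l => ind (UE (((2 : ℝ) ^ k) ^ (-(1 - δ))) M
        ⌊((2 : ℝ) ^ k) ^ (1 / (2 * b) + δ)⌋₊ l)) (meas_UE _ _ _) le_rfl (4 * M * 2 ^ k)
    have hfi : ∀ k, ∫⁻ ω, f k ω ∂P ≤ ENNReal.ofReal (((4 * M * 2 ^ k : ℕ) : ℝ) *
        Real.exp (-((2 : ℝ) ^ k * ((2 : ℝ) ^ k) ^ (-(1 - δ)))) +
        Real.exp ((2 : ℝ) ^ k * M) * (1 / 2) ^ (4 * M * 2 ^ k) +
        √((4 * M * 2 ^ k : ℕ) : ℝ) * FZ p ⌊((2 : ℝ) ^ k) ^ (1 / (2 * b) + δ)⌋₊) := by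
      intro k
      have hl3 := law3_prob hC (hL k)
      have h1 := sign_main hp0.le hp1.le hC hs (hL k)
        (F := fun l => ind (UE (((2 : ℝ) ^ k) ^ (-(1 - δ))) M
        ⌊((2 : ℝ) ^ k) ^ (1 / (2 * b) + δ)⌋₊ l)) (meas_UE _ _ _) le_rfl (4 * M * 2 ^ k)
      have h2 := ue_prob (p := p) (η := ((2 : ℝ) ^ k) ^ (-(1 - δ))) (M := (M : ℝ)) hp0.le hp1.le
        (hL k) (Real.rpow_nonneg (hL k).le _) (Nat.cast_nonneg M) (law3_DU hC (hL k))
        (um_marked hC (hL k)) (law3_T hC (hL k)) ⌊((2 : ℝ) ^ k) ^ (1 / (2 * b) + δ)⌋₊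
        (4 * M * 2 ^ k)
      exact (le_of_eq h1).trans h2
    have hsum := ue_sum hp0 hp1 hb0 hb1 hr hδ0 hδ1 hM
    have htot : ∫⁻ ω, ∑' k, f k ω ∂P ≠ ⊤ := by
      rw [lintegral_tsum hfm]
      refine ne_top_of_le_ne_top hsum.tsum_ofReal_ne_top (ENNReal.tsum_le_tsum hfi)
    have hae := ae_lt_top' (AEMeasurable.tsum hfm) htot
    filter_upwards [hae] with ω hω
    have h0 := ENNReal.tendsto_atTop_zero_of_tsum_ne_top hω.ne
    have h1 : ∀ᶠ k in atTop, f k ω < 1 := h0.eventually (gt_mem_nhds one_pos)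
    filter_upwards [h1] with k hk
    have he := isProbabilityMeasure_expMeasure (hL k)
    exact um_exists hk
  intro M
  rcases Nat.eq_zero_or_pos M with rfl | hM
  · filter_upwards [key 1 le_rfl] with ω hω
    filter_upwards [hω] with k hk
    obtain ⟨v, c, h1, h2⟩ := hk
    exact ⟨v, c, h1, um_mono h2⟩
  · exact key M hM

end Pool.Agent.BSP
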